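/-! The certificate checker (plain computation on natural numbers). -/

namespace Pool.Agent.P.MP_eb61da_co

def mx (a b : Nat) : Nat := bif Nat.ble a b then b else a
def mn (a b : Nat) : Nat := bif Nat.ble a b then a else b

def fmm (U V h : Nat) : Nat := h * h + (U - h) * (V - h)

def cc (U V x lo : Nat) : Nat :=
  bif Nat.ble (2 * x) (mn U V) then fmm U V x
  else bif Nat.ble (mx U V) (2 * lo) then fmm U V lo else U * V / 2

def rr (U V x lo : Nat) : Nat :=
  mx ((V / x) * mx ((U / x) * (lo * lo)) (lo * (U - lo)))
    ((U / x) * mx ((V / x) * (lo * lo)) (lo * (V - lo)))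

def ivStep (s t c r lo hi : Nat) (k : Nat → Nat → Bool) : Bool :=
  k (s + mx (c - hi * hi) r) (mx (t + mx (c - hi * hi) r) (s + mx c (r + lo * lo)))

def iv (x lo hi rem : Nat) : List (Nat × Nat) → Nat → Nat → Bool
  | [], _, t => Nat.ble rem t
  | b :: bs, s, t => bif Nat.ble rem t then true else
      bif Nat.ble hi (mn b.1 b.2) then
        ivStep s t (cc b.1 b.2 (mn x (mn b.1 b.2)) lo) (rr b.1 b.2 (mn x (mn b.1 b.2)) lo) lo hi
          (iv x lo hi rem bs)
      else iv x lo hi rem bs s t

def term (x rem : Nat) (bs : List (Nat × Nat)) : List Nat → Nat → Nat → Bool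
  | [], _, _ => false
  | _ :: f, hi, code => bif Nat.beq hi 0 then true else
      bif iv x (code % 1024) hi rem bs 0 ((code % 1024) * (code % 1024)) then
        term x rem bs f (code % 1024) (code / 1024) else false

def toBins (p q : Nat) : List (Nat × Nat) → Nat → List (Nat × Nat)
  | [], _ => []
  | b :: F, m => (bif Nat.beq (m % 2) 0 then (b.1 / p, b.2 / q) else (b.1 / q, b.2 / p)) ::
      toBins p q F (m / 2)

def place (iw ih c : Nat) : List (Nat × Nat) → Nat → Option (List (Nat × Nat))
  | [], _ => none
  | b :: F, j => bif Nat.beq j 0 then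
      (bif Nat.ble iw b.1 && Nat.ble ih b.2 then
        some (bif Nat.beq c 0 then (b.1 - iw, b.2) :: (iw, b.2 - ih) :: F
          else (b.1 - iw, ih) :: (b.1, b.2 - ih) :: F)
      else none)
      else (place iw ih c F (j - 1)).map (b :: ·)

def optB (o : Option (List (Nat × Nat))) (k : List (Nat × Nat) → Bool) : Bool :=
  match o with
  | none => false
  | some F => k F

def leaf (p q : Nat) : List Nat → List Nat → Nat → List (Nat × Nat) → Nat → Nat → Bool
  | l :: lo, h :: hi, rem, F, k, code => bif Nat.beq k 0 then
      term h rem (toBins p q F (code % 1048576)) (List.replicate 50 0) h (code / 1048576)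
      else optB (bif Nat.beq (code / 2 % 2) 0 then place (p * h) (q * h) (code % 2) F (code / 4 % 32)
          else place (q * h) (p * h) (code % 2) F (code / 4 % 32))
        (fun F' => leaf p q lo hi (rem - l * l) F' (k - 1) (code / 128))
  | _, _, _, _, _, _ => false

def sumSq : List Nat → Nat
  | [] => 0
  | l :: lo => l * l + sumSq lo

def capAll (c : Nat) : List Nat → List Nat
  | [] => []
  | h :: hi => bif Nat.ble h c then h :: hi else c :: capAll c hi

def capHi (c : Nat) : List Nat → Nat → List Nat
  | [], _ => []
  | h :: hi, i => bif Nat.beq i 0 then capAll c (h :: hi) else h :: capHi c hi (i - 1)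

def raiseLo (c : Nat) : List Nat → Nat → List Nat
  | [], _ => []
  | l :: lo, i => mx l c :: (bif Nat.beq i 0 then lo else raiseLo c lo (i - 1))

/-- branch and bound trees -/
inductive Tr
  | z : Tr
  | l (code : Nat) : Tr
  | s (code : Nat) (a b : Tr) : Tr

def check (p q N T : Nat) : Tr → List Nat → List Nat → Bool
  | .z, lo, _ => Nat.blt T (sumSq lo)
  | .l code, lo, hi => leaf p q lo hi T [(p * N, q * N)] (code % 32) (code / 32)
  | .s code a b, lo, hi => bif check p q N T a lo (capHi (code / 32) hi (code % 32)) then
      check p q N T b (raiseLo (code / 32) lo (code % 32)) hi else false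

end Pool.Agent.P.MP_eb61da_co
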