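import Pool.Agent.P.MP_eb61da_co.Guill
import Pool.Agent.P.MP_eb61da_co.Chk

/-! A certificate checker for packing all families of rectangles of bounded total area. -/

namespace Pool.Agent.P.MP_eb61da_co

open Multiset

theorem mx_eq (a b : ℕ) : mx a b = max a b := by
  unfold mx
  cases h : Nat.ble a b
  · have : ¬ a ≤ b := by simpa [← Nat.ble_eq] using h
    simp; omega
  · have : a ≤ b := Nat.ble_eq ▸ h
    simp; omega

theorem mn_eq (a b : ℕ) : mn a b = min a b := by
  unfold mn
  cases h : Nat.ble a b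
  · have : ¬ a ≤ b := by simpa [← Nat.ble_eq] using h
    simp; omega
  · have : a ≤ b := Nat.ble_eq ▸ h
    simp; omega

theorem ble_false {a b : ℕ} (h : Nat.ble a b = false) : b < a := by
  have : ¬ a ≤ b := by simpa [← Nat.ble_eq] using h
  omega

theorem beq_false {a b : ℕ} (h : Nat.beq a b = false) : a ≠ b := Nat.ne_of_beq_eq_false h

theorem cc_lt {U V x lo : ℕ} {z : ℝ} {S : Multiset ℝ} (hxU : x ≤ U) (hxV : x ≤ V)
    (hl : (lo : ℝ) < z) (hz : z ≤ x) (hS : ∀ a ∈ S, z ≤ a ∧ a ≤ x)
    (H : ¬ G 1 1 U V (z ::ₘ S)) : (cc U V x lo : ℝ) < area S + z * z := by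
  have hl0 : (0 : ℝ) ≤ lo := Nat.cast_nonneg _
  have hM : ∀ a ∈ z ::ₘ S, z ≤ a ∧ a ≤ x := by
    intro a ha
    rcases mem_cons.1 ha with rfl | ha
    · exact ⟨le_rfl, hz⟩
    · exact hS a ha
  have hxU' : (x : ℝ) ≤ U := by exact_mod_cast hxU
  have hxV' : (x : ℝ) ≤ V := by exact_mod_cast hxV
  obtain ⟨h, M, e, hm⟩ := exists_max (z ::ₘ S) cons_ne_zero
  have hh := hM h (by rw [e]; exact mem_cons_self _ _)
  have e2 := congrArg area e
  rw [area_cons, area_cons] at e2
  have MM : (U - h) * (V - h) < area M := by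
    by_contra hc
    push Not at hc
    refine H (e ▸ meirMoser (by linarith) (by linarith) (by linarith) ?_ hc)
    intro a ha
    exact ⟨by linarith [(hM a (by rw [e]; exact mem_cons_of_mem ha)).1], hm a ha⟩
  have hlx : lo ≤ x := by
    have : (lo : ℝ) ≤ x := by linarith
    exact_mod_cast this
  unfold cc
  cases h1 : Nat.ble (2 * x) (mn U V)
  · cases h2 : Nat.ble (mx U V) (2 * lo)
    · simp only [cond_false]
      have : U * V / 2 < area (z ::ₘ S) := by
        by_contra hc
        push Not at hc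
        refine H (half _ _ _ (Nat.cast_nonneg _) (Nat.cast_nonneg _) ?_ hc)
        intro a ha
        have := hM a ha
        exact ⟨by linarith, by linarith, by linarith⟩
      rw [area_cons] at this
      have h3 : ((U * V / 2 : ℕ) : ℝ) ≤ (U * V : ℕ) / (2 : ℕ) := Nat.cast_div_le
      push_cast at h3
      linarith
    · simp only [cond_false, cond_true, fmm]
      rw [Nat.ble_eq, mx_eq] at h2
      have a1 : (U : ℝ) ≤ 2 * lo := by exact_mod_cast (le_max_left _ _).trans h2
      have a2 : (V : ℝ) ≤ 2 * lo := by exact_mod_cast (le_max_right _ _).trans h2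
      push_cast [Nat.cast_sub (hlx.trans hxU), Nat.cast_sub (hlx.trans hxV)]
      nlinarith [mul_nonneg (sub_nonneg.2 (hl.le.trans hh.1)) (sub_nonneg.2 a1),
        mul_nonneg (sub_nonneg.2 (hl.le.trans hh.1)) (sub_nonneg.2 a2),
        mul_self_nonneg (h - lo)]
  · simp only [cond_true, fmm]
    rw [Nat.ble_eq, mn_eq] at h1
    have a1 : 2 * (x : ℝ) ≤ U := by exact_mod_cast h1.trans (min_le_left _ _)
    have a2 : 2 * (x : ℝ) ≤ V := by exact_mod_cast h1.trans (min_le_right _ _)
    push_cast [Nat.cast_sub hxU, Nat.cast_sub hxV]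
    nlinarith [mul_nonneg (sub_nonneg.2 hh.2) (sub_nonneg.2 a1),
      mul_nonneg (sub_nonneg.2 hh.2) (sub_nonneg.2 a2), mul_self_nonneg (x - h)]

theorem rr_le {U V x lo : ℕ} {z : ℝ} {S : Multiset ℝ} (hxU : x ≤ U) (hxV : x ≤ V)
    (hl : (lo : ℝ) < z) (hz : z ≤ x) (hS : ∀ a ∈ S, z ≤ a ∧ a ≤ x)
    (H : ¬ G 1 1 U V (z ::ₘ S)) : (rr U V x lo : ℝ) ≤ area S := by
  have hlx : lo ≤ x := by
    have : (lo : ℝ) ≤ x := by linarith
    exact_mod_cast this
  have hU : ((U / x : ℕ) : ℝ) * x ≤ U := by exact_mod_cast Nat.div_mul_le_self U x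
  have hV : ((V / x : ℕ) : ℝ) * x ≤ V := by exact_mod_cast Nat.div_mul_le_self V x
  have h1 := rows_bound (Nat.cast_nonneg lo) hl.le hz (by exact_mod_cast hxU) hV hU hS H
  have h2 := rows_bound (Nat.cast_nonneg lo) hl.le hz (by exact_mod_cast hxV) hU hV hS
    (fun h => H h.swap)
  unfold rr
  simp only [mx_eq]
  push_cast [Nat.cast_sub (hlx.trans hxU), Nat.cast_sub (hlx.trans hxV)]
  exact max_le h1 h2

/-- a bin for squares -/
def PB (b : ℕ × ℕ) (S : Multiset ℝ) : Prop := G 1 1 b.1 b.2 S

theorem iv_sound {x lo hi rem : ℕ} {z : ℝ} (hl : (lo : ℝ) < z) (hh : z ≤ hi) (hx : z ≤ x) :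
    ∀ (bs : List (ℕ × ℕ)) (s t : ℕ) (a : ℝ) (A : Multiset ℝ), (s : ℝ) ≤ a → (t : ℝ) < a + z * z →
      (∀ y ∈ A, z ≤ y ∧ y ≤ x) → Ref PB z bs A → iv x lo hi rem bs s t = true →
      (rem : ℝ) < a + area A + z * z
  | [], s, t, a, A, _, ht, _, _, H => by
    have : rem ≤ t := Nat.ble_eq ▸ H
    have : (rem : ℝ) ≤ t := by exact_mod_cast this
    linarith [area_nonneg A]
  | (U, V) :: bs, s, t, a, A, hs, ht, hA, ⟨S, R, e, h1, h2, h3⟩, H => by
    subst e
    have hR : ∀ y ∈ R, z ≤ y ∧ y ≤ x := fun y hy => hA y (mem_add.2 (Or.inr hy))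
    have hS0 := area_nonneg S
    unfold iv at H
    cases c1 : Nat.ble rem t
    · cases c2 : Nat.ble hi (mn U V)
      · simp only [c1, c2, cond_false] at H
        have := iv_sound hl hh hx bs s t a R hs ht hR h3 H
        rw [area_add]; linarith
      · simp only [c1, c2, cond_false, cond_true, ivStep] at H
        rw [Nat.ble_eq, mn_eq] at c2
        have hU : hi ≤ U := c2.trans (min_le_left _ _)
        have hV : hi ≤ V := c2.trans (min_le_right _ _)
        have hU' : (hi : ℝ) ≤ U := by exact_mod_cast hU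
        have hV' : (hi : ℝ) ≤ V := by exact_mod_cast hV
        have k1 : mn x (mn U V) ≤ U := by simp only [mn_eq]; omega
        have k2 : mn x (mn U V) ≤ V := by simp only [mn_eq]; omega
        have k3 : z ≤ (mn x (mn U V) : ℕ) := by
          simp only [mn_eq]; push_cast
          exact le_min hx (le_min (by linarith) (by linarith))
        have k4 : ∀ y ∈ S, z ≤ y ∧ y ≤ (mn x (mn U V) : ℕ) := by
          intro y hy
          have := hA y (mem_add.2 (Or.inl hy))
          have h5 := G.le_of_mem h1 y hy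
          refine ⟨this.1, ?_⟩
          simp only [mn_eq]; push_cast
          exact le_min this.2 (le_min h5.1 h5.2)
        have b1 := cc_lt k1 k2 hl k3 k4 h2
        have b2 := rr_le k1 k2 hl k3 k4 h2
        generalize cc U V (mn x (mn U V)) lo = c at H b1
        generalize rr U V (mn x (mn U V)) lo = r at H b2
        have hl0 : (0 : ℝ) ≤ lo := Nat.cast_nonneg _
        have hD : ((mx (c - hi * hi) r : ℕ) : ℝ) ≤ area S := by
          rw [mx_eq]; push_cast
          refine max_le ?_ b2
          rcases le_total c (hi * hi) with h | h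
          · rw [Nat.sub_eq_zero_of_le h]; simpa using hS0
          · push_cast [Nat.cast_sub h]; nlinarith
        have hE : ((mx c (r + lo * lo) : ℕ) : ℝ) < area S + z * z := by
          rw [mx_eq]; push_cast
          exact max_lt b1 (by nlinarith)
        have := iv_sound hl hh hx bs _ _ (a + area S) R (by push_cast; linarith)
          (by rw [mx_eq]; push_cast; exact max_lt (by linarith) (by linarith)) hR h3 H
        rw [area_add]; linarith
    · have : rem ≤ t := Nat.ble_eq ▸ c1
      have : (rem : ℝ) ≤ t := by exact_mod_cast this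
      linarith [area_nonneg (S + R)]

theorem term_aux {x rem : ℕ} {bs : List (ℕ × ℕ)} {z : ℝ} {A : Multiset ℝ} (hz : 0 < z)
    (hx : z ≤ x) (hA : ∀ y ∈ A, z ≤ y ∧ y ≤ x) (hR : Ref PB z bs A) :
    ∀ (f : List ℕ) (hi code : ℕ), z ≤ hi → term x rem bs f hi code = true →
      (rem : ℝ) < area A + z * z
  | [], _, _, _, H => by simp [term] at H
  | _ :: f, hi, code, hh, H => by
    unfold term at H
    cases c1 : Nat.beq hi 0
    · cases c2 : iv x (code % 1024) hi rem bs 0 ((code % 1024) * (code % 1024))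
      · simp [c1, c2] at H
      · simp only [c1, c2, cond_false, cond_true] at H
        by_cases hl : z ≤ (code % 1024 : ℕ)
        · exact term_aux hz hx hA hR f _ _ hl H
        · push Not at hl
          have hl0 : (0 : ℝ) ≤ (code % 1024 : ℕ) := Nat.cast_nonneg _
          have := iv_sound hl hh hx bs 0 _ 0 A (by simp) (by rw [Nat.cast_mul]; nlinarith) hA hR c2
          linarith
    · have : hi = 0 := Nat.eq_of_beq_eq_true c1
      subst this
      simp at hh; linarith

theorem term_sound {x rem code : ℕ} {bs : List (ℕ × ℕ)} {f : List ℕ} {M : Multiset ℝ}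
    (hM : ∀ y ∈ M, 0 < y ∧ y ≤ x) (hA : area M ≤ rem) (H : term x rem bs f x code = true) :
    Packs PB bs M := by
  rcases firstFit PB bs (fun b _ => G.nil (Nat.cast_nonneg _) (Nat.cast_nonneg _)) M with
    h | ⟨z, A, B, e, h1, h2, h3⟩
  · exact h
  have hz := hM z (by rw [e]; exact mem_cons_self _ _)
  have := term_aux hz.1 hz.2 (fun y hy => ⟨h2 y hy,
    (hM y (by rw [e]; exact mem_cons_of_mem (mem_add.2 (Or.inl hy)))).2⟩) h1 f x code hz.2 H
  rw [e, area_cons, area_add] at hA
  linarith [area_nonneg B]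

/-- a free rectangle -/
def PF (p q : ℕ) (b : ℕ × ℕ) (S : Multiset ℝ) : Prop := G p q b.1 b.2 S

theorem toBins_sound {p q : ℕ} : ∀ (F : List (ℕ × ℕ)) (m : ℕ) (M : Multiset ℝ),
    Packs PB (toBins p q F m) M → Packs (PF p q) F M
  | [], _, _, H => H
  | (w, h) :: F, m, _, ⟨S, R, e, h1, h2⟩ => by
    refine ⟨S, R, e, ?_, toBins_sound F _ R h2⟩
    have k : ∀ a b : ℕ, (b : ℝ) * (a / b : ℕ) ≤ a := fun a b => by
      exact_mod_cast Nat.mul_div_le a b
    cases c : Nat.beq (m % 2) 0
    · simp only [c, cond_false, PB] at h1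
      exact (G.scale (Nat.cast_nonneg p) (Nat.cast_nonneg q) h1.swap).swap.mono (k _ _) (k _ _)
    · simp only [c, cond_true, PB] at h1
      exact (G.scale (Nat.cast_nonneg p) (Nat.cast_nonneg q) h1).mono (k _ _) (k _ _)

theorem place_sound {p q iw ih c : ℕ} {T : Multiset ℝ} (hT : G p q iw ih T) :
    ∀ (F : List (ℕ × ℕ)) (j : ℕ) (F' : List (ℕ × ℕ)) (M : Multiset ℝ),
      place iw ih c F j = some F' → Packs (PF p q) F' M → Packs (PF p q) F (T + M)
  | [], _, _, _, H, _ => by simp [place] at H
  | (w, h) :: F, j, F', M, H, HP => by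
    unfold place at H
    cases c1 : Nat.beq j 0
    · simp only [c1, cond_false, Option.map_eq_some_iff] at H
      obtain ⟨F'', e1, rfl⟩ := H
      obtain ⟨S, R, rfl, h1, h2⟩ := HP
      exact ⟨S, T + R, by abel, h1, place_sound hT F _ F'' R e1 h2⟩
    · cases c2 : (Nat.ble iw w && Nat.ble ih h)
      · simp [c1, c2] at H
      · simp only [c1, c2, cond_true, Option.some.injEq] at H
        rw [Bool.and_eq_true, Nat.ble_eq, Nat.ble_eq] at c2
        subst H
        cases c3 : Nat.beq c 0
        · simp only [c3, cond_false] at HP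
          obtain ⟨S, _, rfl, h1, S', R, rfl, h2, h3⟩ := HP
          refine ⟨T + S + S', R, by abel, ?_, h3⟩
          simp only [PF] at h1 h2 ⊢
          push_cast [Nat.cast_sub c2.1, Nat.cast_sub c2.2] at h1 h2
          have a1 := G.hc hT h1
          rw [add_sub_cancel] at a1
          have a2 := G.vc a1 h2
          rwa [add_sub_cancel] at a2
        · simp only [c3, cond_true] at HP
          obtain ⟨S, _, rfl, h1, S', R, rfl, h2, h3⟩ := HP
          refine ⟨T + S' + S, R, by abel, ?_, h3⟩
          simp only [PF] at h1 h2 ⊢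
          push_cast [Nat.cast_sub c2.1, Nat.cast_sub c2.2] at h1 h2
          have a1 := G.vc hT h2
          rw [add_sub_cancel] at a1
          have a2 := G.hc a1 h1
          rwa [add_sub_cancel] at a2

/-- first entry, or zero -/
noncomputable def hd (L : List ℝ) : ℝ := L.headD 0

/-- decreasing list of positive numbers -/
def Dec (L : List ℝ) : Prop := L.Pairwise (· ≥ ·) ∧ ∀ a ∈ L, 0 < a

theorem Dec.tail {L : List ℝ} (H : Dec L) : Dec L.tail :=
  ⟨H.1.tail, fun a ha => H.2 a (List.mem_of_mem_tail ha)⟩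

theorem Dec.hd_nonneg {L : List ℝ} (H : Dec L) : 0 ≤ hd L := by
  cases L with
  | nil => simp [hd]
  | cons a L => exact (H.2 a (by simp)).le

theorem Dec.le_hd {L : List ℝ} (H : Dec L) : ∀ a ∈ L, a ≤ hd L := by
  cases L with
  | nil => simp
  | cons b L =>
    intro a ha
    rcases List.mem_cons.1 ha with rfl | ha
    · simp [hd]
    · exact (List.pairwise_cons.1 H.1).1 a ha

theorem Dec.hd_tail {L : List ℝ} (H : Dec L) : hd L.tail ≤ hd L := by
  match L, H with
  | [], _ => simp
  | [a], H => simpa [hd] using (H.2 a (by simp)).le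
  | a :: b :: L, H => exact (List.pairwise_cons.1 H.1).1 b (by simp)

theorem area_hd (L : List ℝ) : area (L : Multiset ℝ) = hd L * hd L + area (L.tail : Multiset ℝ) := by
  cases L with
  | nil => simp [hd]
  | cons a L => simp [hd, ← cons_coe]

def SatLo : List ℕ → List ℝ → Prop
  | [], _ => True
  | l :: lo, L => (l : ℝ) ≤ hd L ∧ SatLo lo L.tail

def SatHi : List ℕ → List ℝ → Prop
  | [], _ => True
  | h :: hi, L => hd L ≤ h ∧ SatHi hi L.tail

theorem leaf_sound {p q : ℕ} : ∀ (lo hi : List ℕ) (rem : ℕ) (F : List (ℕ × ℕ)) (k code : ℕ)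
    (L : List ℝ), Dec L → SatLo lo L → SatHi hi L → area (L : Multiset ℝ) ≤ rem →
    leaf p q lo hi rem F k code = true → Packs (PF p q) F (L : Multiset ℝ)
  | [], _, _, _, _, _, _, _, _, _, _, H => by simp [leaf] at H
  | _ :: _, [], _, _, _, _, _, _, _, _, _, H => by simp [leaf] at H
  | l :: lo, h :: hi, rem, F, k, code, L, hD, hlo, hhi, hA, H => by
    unfold leaf at H
    cases c1 : Nat.beq k 0
    · simp only [c1, cond_false] at H
      have h0 := hD.hd_nonneg
      have hp : (0 : ℝ) ≤ p := Nat.cast_nonneg _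
      have hq : (0 : ℝ) ≤ q := Nat.cast_nonneg _
      have hh : (0 : ℝ) ≤ h := Nat.cast_nonneg _
      obtain ⟨T, eT, hT⟩ : ∃ T : Multiset ℝ, (L : Multiset ℝ) = T + (L.tail : Multiset ℝ) ∧
          G p q (p * h : ℕ) (q * h : ℕ) T := by
        cases L with
        | nil => exact ⟨0, by simp, G.nil (Nat.cast_nonneg _) (Nat.cast_nonneg _)⟩
        | cons a L =>
          refine ⟨{a}, by simp, G.one h0 (Nat.cast_nonneg _) (Nat.cast_nonneg _) ?_ ?_⟩
          · push_cast; exact mul_le_mul_of_nonneg_left hhi.1 hp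
          · push_cast; exact mul_le_mul_of_nonneg_left hhi.1 hq
      have hA' : area (L.tail : Multiset ℝ) ≤ (rem - l * l : ℕ) := by
        rw [area_hd] at hA
        have hl : (0 : ℝ) ≤ l := Nat.cast_nonneg _
        have h2 : (l : ℝ) * l ≤ hd L * hd L := by nlinarith [hlo.1]
        have h3 : l * l ≤ rem := by
          have : (l : ℝ) * l ≤ rem := by linarith [area_nonneg (L.tail : Multiset ℝ)]
          exact_mod_cast this
        push_cast [Nat.cast_sub h3]; linarith
      rw [eT]
      cases c2 : Nat.beq (code / 2 % 2) 0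
      · simp only [c2, cond_false] at H
        cases e : place (q * h) (p * h) (code % 2) F (code / 4 % 32) with
        | none => simp [e, optB] at H
        | some F' =>
          simp only [e, optB] at H
          exact place_sound hT.swap F _ F' _ e
            (leaf_sound lo hi _ F' _ _ L.tail hD.tail hlo.2 hhi.2 hA' H)
      · simp only [c2, cond_true] at H
        cases e : place (p * h) (q * h) (code % 2) F (code / 4 % 32) with
        | none => simp [e, optB] at H
        | some F' =>
          simp only [e, optB] at H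
          exact place_sound hT F _ F' _ e
            (leaf_sound lo hi _ F' _ _ L.tail hD.tail hlo.2 hhi.2 hA' H)
    · simp only [c1, cond_true] at H
      refine toBins_sound F _ _ (term_sound ?_ hA H)
      intro y hy
      exact ⟨hD.2 y hy, (hD.le_hd y hy).trans hhi.1⟩

theorem sumSq_le : ∀ (lo : List ℕ) (L : List ℝ), SatLo lo L → (sumSq lo : ℝ) ≤ area (L : Multiset ℝ)
  | [], L, _ => by simpa [sumSq] using area_nonneg (L : Multiset ℝ)
  | l :: lo, L, H => by
    have := sumSq_le lo L.tail H.2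
    have hl : (0 : ℝ) ≤ l := Nat.cast_nonneg _
    rw [area_hd, sumSq]; push_cast; nlinarith [H.1]

theorem capAll_sound {c : ℕ} : ∀ (hi : List ℕ) (L : List ℝ), Dec L → hd L ≤ c → SatHi hi L →
    SatHi (capAll c hi) L
  | [], _, _, _, _ => trivial
  | h :: hi, L, hD, hc, H => by
    unfold capAll
    cases Nat.ble h c
    · exact ⟨hc, capAll_sound hi L.tail hD.tail (hD.hd_tail.trans hc) H.2⟩
    · exact H

theorem hd_drop_le {L : List ℝ} (hD : Dec L) : ∀ i, hd (L.drop i) ≤ hd L := by
  intro i
  induction i generalizing L with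
  | zero => simp
  | succ i ih =>
    rw [← List.drop_tail]
    exact (ih hD.tail).trans hD.hd_tail

theorem capHi_sound {c : ℕ} : ∀ (hi : List ℕ) (i : ℕ) (L : List ℝ), Dec L → hd (L.drop i) ≤ c →
    SatHi hi L → SatHi (capHi c hi i) L
  | [], _, _, _, _, _ => trivial
  | h :: hi, i, L, hD, hc, H => by
    unfold capHi
    cases c1 : Nat.beq i 0
    · obtain ⟨j, rfl⟩ := Nat.exists_eq_succ_of_ne_zero (beq_false c1)
      exact ⟨H.1, capHi_sound hi j L.tail hD.tail (by rwa [List.drop_tail]) H.2⟩
    · have : i = 0 := Nat.eq_of_beq_eq_true c1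
      subst this
      exact capAll_sound _ L hD hc H

theorem raiseLo_sound {c : ℕ} : ∀ (lo : List ℕ) (i : ℕ) (L : List ℝ), Dec L →
    (c : ℝ) ≤ hd (L.drop i) → SatLo lo L → SatLo (raiseLo c lo i) L
  | [], _, _, _, _, _ => trivial
  | l :: lo, i, L, hD, hc, H => by
    unfold raiseLo
    refine ⟨?_, ?_⟩
    · rw [mx_eq]; push_cast
      exact max_le H.1 (hc.trans (hd_drop_le hD i))
    · cases c1 : Nat.beq i 0
      · obtain ⟨j, rfl⟩ := Nat.exists_eq_succ_of_ne_zero (beq_false c1)
        exact raiseLo_sound lo j L.tail hD.tail (by rwa [List.drop_tail]) H.2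
      · exact H.2

/-- every family within the given bounds has a guillotine packing -/
def Good (p q N T : ℕ) (lo hi : List ℕ) : Prop :=
  ∀ L : List ℝ, Dec L → SatLo lo L → SatHi hi L → area (L : Multiset ℝ) ≤ T →
    G p q (p * N : ℕ) (q * N : ℕ) (L : Multiset ℝ)

theorem Good.split {p q N T : ℕ} {lo hi lo' hi' : List ℕ} (i c : ℕ) (h1 : Good p q N T lo hi')
    (h2 : Good p q N T lo' hi) (e1 : capHi c hi i = hi') (e2 : raiseLo c lo i = lo') :
    Good p q N T lo hi := by
  intro L hD hlo hhi hA
  subst e1 e2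
  rcases le_total (hd (L.drop i)) c with h | h
  · exact h1 L hD hlo (capHi_sound hi i L hD h hhi) hA
  · exact h2 L hD (raiseLo_sound lo i L hD h hlo) hhi hA

theorem check_sound {p q N T : ℕ} : ∀ (t : Tr) (lo hi : List ℕ), check p q N T t lo hi = true →
    Good p q N T lo hi
  | .z, lo, hi, H => by
    intro L _ hlo _ hA
    have h1 : T < sumSq lo := by simpa [check, Nat.blt_eq] using H
    have h2 : (T : ℝ) < sumSq lo := by exact_mod_cast h1
    linarith [sumSq_le lo L hlo]
  | .l code, lo, hi, H => by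
    intro L hD hlo hhi hA
    obtain ⟨S, R, e, h1, h2⟩ := leaf_sound lo hi T _ _ _ L hD hlo hhi hA H
    have : R = 0 := h2
    subst this
    rw [e, add_zero]; exact h1
  | .s code a b, lo, hi, H => by
    unfold check at H
    cases c1 : check p q N T a lo (capHi (code / 32) hi (code % 32))
    · simp [c1] at H
    · simp only [c1, cond_true] at H
      exact Good.split _ _ (check_sound a _ _ c1) (check_sound b _ _ H) rfl rfl

end Pool.Agent.P.MP_eb61da_co
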