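import Mathlib

/-! Definitions for packing clones of a plane figure. -/

namespace Pool.Agent.P.MP_eb61da_co

open MeasureTheory

/-- the Euclidean plane -/
abbrev Plane : Type := EuclideanSpace ℝ (Fin 2)

/-- compact convex set with nonempty interior -/
def IsConvexFigure (F : Set Plane) : Prop := IsCompact F ∧ Convex ℝ F ∧ (interior F).Nonempty

/-- `G` is the image of `F` under a similarity of the plane -/
def IsClone (F G : Set Plane) : Prop := ∃ φ : Plane ≃ᵈ Plane, G = φ '' F

/-- isometric copies of the `f i` lie in `Q` with pairwise disjoint interiors -/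
def CanPack {n : ℕ} (f : Fin n → Set Plane) (Q : Set Plane) : Prop :=
  ∃ g : Fin n → (Plane ≃ᵢ Plane), (∀ i, g i '' f i ⊆ Q) ∧
    ∀ i j, i ≠ j → Disjoint (interior (g i '' f i)) (interior (g j '' f j))

/-- every finite family of `F`-clones of total area `1` can be packed in an `F`-clone of area `S` -/
def ClonesPack (F : Set Plane) (S : ℝ) : Prop :=
  ∀ (n : ℕ) (f : Fin n → Set Plane), (∀ i, IsClone F (f i)) → ∑ i, volume (f i) = 1 →
    ∃ Q, IsClone F Q ∧ volume Q = ENNReal.ofReal S ∧ CanPack f Q

/-- the rectangle `[0, a] × [0, b]` -/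
def rect (a b : ℝ) : Set Plane := {x | x 0 ∈ Set.Icc 0 a ∧ x 1 ∈ Set.Icc 0 b}

end Pool.Agent.P.MP_eb61da_co
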