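import Pool.Agent.P.MP_eb61da_co.Defs

/-! No convex figure splits along a line into two similar copies in every ratio: tools. -/

namespace Pool.Agent.P.MP_eb61da_co.Gap

open MeasureTheory Set Metric

/-- Two copies of `G`, of ratios `a`, `b` for the seminorm `‖M x‖`, inside `G` on the two sides
of a line. -/
def Dis (G : Set Plane) (M : Plane →L[ℝ] Plane) (a b : ℝ) : Prop :=
  ∃ (L₁ L₂ : Plane →L[ℝ] Plane) (t₁ t₂ : Plane) (f : Plane →L[ℝ] ℝ) (τ : ℝ),
    |L₁.det| = a ^ 2 ∧ |L₂.det| = b ^ 2 ∧ (∀ x, ‖M (L₁ x)‖ = a * ‖M x‖) ∧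
    (∀ x, ‖M (L₂ x)‖ = b * ‖M x‖) ∧ ‖f‖ = 1 ∧
    ∀ x ∈ G, L₁ x + t₁ ∈ G ∧ L₂ x + t₂ ∈ G ∧ f (L₁ x + t₁) ≤ τ ∧ τ ≤ f (L₂ x + t₂)

theorem vol_aff (L : Plane →L[ℝ] Plane) (t : Plane) (G : Set Plane) :
    volume ((fun x => L x + t) '' G) = ENNReal.ofReal |L.det| * volume G := by
  have : (fun x => L x + t) '' G = (fun y => y + t) '' (L '' G) := by rw [image_image]
  rw [this, image_add_right, measure_preimage_add_right]
  exact Measure.addHaar_image_continuousLinearMap _ _ _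

theorem line_null {f : Plane →L[ℝ] ℝ} (hf : f ≠ 0) (τ : ℝ) : volume {x | f x = τ} = 0 := by
  rcases eq_empty_or_nonempty {x | f x = τ} with h | ⟨x0, h0⟩
  · rw [h, measure_empty]
  · have e : {x | f x = τ} = (fun x => x + -x0) ⁻¹' (LinearMap.ker (f : Plane →ₗ[ℝ] ℝ)) := by
      ext x
      have h1 : f x0 = τ := h0
      simp [← h1, add_neg_eq_zero]
    rw [e, measure_preimage_add_right]
    refine Measure.addHaar_submodule _ _ fun h => hf ?_
    ext x
    exact (h ▸ Submodule.mem_top : x ∈ LinearMap.ker (f : Plane →ₗ[ℝ] ℝ))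

theorem int_ne {K : Set Plane} (hK : Convex ℝ K) (h : volume K ≠ 0) : (interior K).Nonempty := by
  by_contra hn
  rw [not_nonempty_iff_eq_empty] at hn
  refine h (measure_mono_null (fun x hx => ?_) (hK.addHaar_frontier volume))
  rw [frontier, hn, sdiff_empty]
  exact subset_closure hx

theorem sub_of_vol {K K' : Set Plane} (hK : IsCompact K) (hK' : Convex ℝ K') (hs : K ⊆ K')
    (h0 : volume K ≠ 0) (hv : volume K' ≤ volume K) : K' ⊆ K := by
  intro x hx
  by_contra hn
  have h1 := int_ne hK' fun h => h0 (measure_mono_null hs h)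
  have h2 : x ∈ closure (interior K') := by
    rw [hK'.closure_interior_eq_closure_of_nonempty_interior h1]; exact subset_closure hx
  have h3 := mem_closure_iff.1 h2 Kᶜ hK.isClosed.isOpen_compl hn
  have h4 := (hK.isClosed.isOpen_compl.inter isOpen_interior).measure_pos volume h3
  have h5 : volume K + volume (Kᶜ ∩ interior K') ≤ volume K' := by
    rw [← measure_union (disjoint_compl_right.mono_right inter_subset_left)
      (hK.isClosed.isOpen_compl.inter isOpen_interior).measurableSet]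
    exact measure_mono (union_subset hs fun y hy => interior_subset hy.2)
  exact absurd (h5.trans hv) (not_le.2 (ENNReal.lt_add_right hK.measure_lt_top.ne h4.ne'))

theorem fig_vol {G : Set Plane} (hG : IsConvexFigure G) : 0 < volume.real G :=
  ENNReal.toReal_pos (Measure.measure_pos_of_nonempty_interior _ hG.2.2).ne'
    hG.1.measure_lt_top.ne

theorem vol_split {G : Set Plane} (hG : IsConvexFigure G) {f : Plane →L[ℝ] ℝ} (hf : f ≠ 0)
    (τ : ℝ) : volume.real (G ∩ {x | f x ≤ τ}) + volume.real (G ∩ {x | τ ≤ f x}) = volume.real G := by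
  have m2 : MeasurableSet (G ∩ {x | τ ≤ f x}) :=
    hG.1.measurableSet.inter (isClosed_le continuous_const f.continuous).measurableSet
  have h := measure_union_add_inter (μ := volume) (G ∩ {x | f x ≤ τ}) m2
  have e1 : G ∩ {x | f x ≤ τ} ∪ G ∩ {x | τ ≤ f x} = G := by
    ext x
    exact ⟨fun h => h.elim (·.1) (·.1), fun h => (le_total (f x) τ).imp (⟨h, ·⟩) (⟨h, ·⟩)⟩
  have e2 : volume (G ∩ {x | f x ≤ τ} ∩ (G ∩ {x | τ ≤ f x})) = 0 :=
    measure_mono_null (fun x hx => le_antisymm hx.1.2 hx.2.2) (line_null hf τ)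
  rw [e1, e2, add_zero] at h
  have t := hG.1.measure_lt_top (μ := volume)
  simp only [Measure.real]
  rw [← ENNReal.toReal_add ((measure_mono inter_subset_left).trans_lt t).ne
    ((measure_mono inter_subset_left).trans_lt t).ne, ← h]

theorem vol_piece {G K : Set Plane} (hG : IsConvexFigure G) {L : Plane →L[ℝ] Plane} {t : Plane}
    {a : ℝ} (hd : |L.det| = a ^ 2) (hK : K ⊆ G) (hs : ∀ x ∈ G, L x + t ∈ K) :
    a ^ 2 * volume.real G ≤ volume.real K ∧ (0 < a → Convex ℝ K →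
      volume.real K ≤ a ^ 2 * volume.real G → K ⊆ (fun x => L x + t) '' G) := by
  have e : volume.real ((fun x => L x + t) '' G) = a ^ 2 * volume.real G := by
    simp only [Measure.real, vol_aff, hd, ENNReal.toReal_mul, ENNReal.toReal_ofReal (sq_nonneg a)]
  have s : (fun x => L x + t) '' G ⊆ K := by rintro _ ⟨x, hx, rfl⟩; exact hs x hx
  have tK : volume K ≠ ⊤ := ((measure_mono hK).trans_lt hG.1.measure_lt_top).ne
  have c : IsCompact ((fun x => L x + t) '' G) := hG.1.image (by fun_prop)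
  refine ⟨e ▸ measureReal_mono s tK, fun ha hc hv => sub_of_vol c hc s (fun h => ?_) ?_⟩
  · have := mul_pos (pow_pos ha 2) (fig_vol hG)
    rw [← e, Measure.real, h] at this
    simp at this
  · rw [← e] at hv
    exact (ENNReal.toReal_le_toReal tK c.measure_lt_top.ne).1 hv

theorem Dis.sum_le {G : Set Plane} (hG : IsConvexFigure G) {M : Plane →L[ℝ] Plane} {a b : ℝ}
    (h : Dis G M a b) : a ^ 2 + b ^ 2 ≤ 1 := by
  obtain ⟨L₁, L₂, t₁, t₂, f, τ, d1, d2, -, -, hf, hm⟩ := h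
  have h0 : f ≠ 0 := by rintro rfl; simp at hf
  have h1 := (vol_piece (K := G ∩ {x | f x ≤ τ}) hG d1 inter_subset_left
    fun x hx => ⟨(hm x hx).1, (hm x hx).2.2.1⟩).1
  have h2 := (vol_piece (K := G ∩ {x | τ ≤ f x}) hG d2 inter_subset_left
    fun x hx => ⟨(hm x hx).2.1, (hm x hx).2.2.2⟩).1
  have h3 := vol_split hG h0 τ
  have h4 := fig_vol hG
  nlinarith

theorem plane_ext {u v : Plane} (h0 : u 0 = v 0) (h1 : u 1 = v 1) : u = v := by
  ext i
  fin_cases i
  · exact h0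
  · exact h1

/-- the functionals that expose a side -/
def Sides (G : Set Plane) (o : Plane) : Set (Plane →L[ℝ] ℝ) :=
  {g | (∀ x ∈ G, g (x - o) ≤ 1) ∧ ∃ p ∈ G, ∃ q ∈ G, p ≠ q ∧ g (p - o) = 1 ∧ g (q - o) = 1}

theorem sides_countable (G : Set Plane) (o : Plane) : (Sides G o).Countable := by
  refine PairwiseDisjoint.countable_of_isOpen
    (s := fun g => interior {r | ∀ g' ∈ Sides G o, g' r ≤ g r}) ?_ (fun _ _ => isOpen_interior) ?_
  · intro g hg g' hg' hne
    refine disjoint_left.2 fun r h1 h2 => hne ?_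
    have h3 : ∀ᶠ x in nhds r, (g - g') x = 0 := by
      filter_upwards [mem_interior_iff_mem_nhds.1 h1, mem_interior_iff_mem_nhds.1 h2] with x a b
      exact sub_eq_zero.2 (le_antisymm (b g hg) (a g' hg'))
    have h4 : fderiv ℝ (g - g') r = fderiv ℝ (fun _ => (0 : ℝ)) r := Filter.EventuallyEq.fderiv_eq h3
    rw [ContinuousLinearMap.fderiv, fderiv_fun_const] at h4
    exact sub_eq_zero.1 h4
  · rintro g ⟨-, p, hp, q, hq, hne, g1, g2⟩
    obtain ⟨u, hu⟩ : ∃ u, u = p - o := ⟨_, rfl⟩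
    obtain ⟨v, hv⟩ : ∃ v, v = q - o := ⟨_, rfl⟩
    have hD : u 0 * v 1 - u 1 * v 0 ≠ 0 := by
      intro h
      have e0 : v 0 • u = u 0 • v := plane_ext (by simp [mul_comm]) (by simp; linarith)
      have e1 : v 1 • u = u 1 • v := plane_ext (by simp; linarith) (by simp [mul_comm])
      have f0 := congrArg g e0
      have f1 := congrArg g e1
      simp only [map_smul, ← hu, ← hv, smul_eq_mul] at f0 f1 g1 g2
      rw [g1, g2] at f0 f1
      have : u = v := plane_ext (by linarith) (by linarith)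
      exact hne (sub_left_injective (hu.symm.trans (this.trans hv)))
    have ho : IsOpen {r : Plane | 0 < (r 0 * v 1 - r 1 * v 0) / (u 0 * v 1 - u 1 * v 0) ∧
        0 < (u 0 * r 1 - u 1 * r 0) / (u 0 * v 1 - u 1 * v 0)} := by
      have c1 : Continuous fun r : Plane => (r 0 * v 1 - r 1 * v 0) / (u 0 * v 1 - u 1 * v 0) := by
        fun_prop
      have c2 : Continuous fun r : Plane => (u 0 * r 1 - u 1 * r 0) / (u 0 * v 1 - u 1 * v 0) := by
        fun_prop
      exact (isOpen_lt continuous_const c1).inter (isOpen_lt continuous_const c2)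
    refine ⟨u + v, interior_maximal ?_ ho ⟨?_, ?_⟩⟩
    · rintro r ⟨a1, a2⟩ g' hg'
      have e : r = ((r 0 * v 1 - r 1 * v 0) / (u 0 * v 1 - u 1 * v 0)) • u +
          ((u 0 * r 1 - u 1 * r 0) / (u 0 * v 1 - u 1 * v 0)) • v :=
        plane_ext (by
          simp only [PiLp.add_apply, PiLp.smul_apply, smul_eq_mul]
          rw [div_mul_eq_mul_div, div_mul_eq_mul_div, ← add_div, eq_div_iff hD]; ring) (by
          simp only [PiLp.add_apply, PiLp.smul_apply, smul_eq_mul]
          rw [div_mul_eq_mul_div, div_mul_eq_mul_div, ← add_div, eq_div_iff hD]; ring)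
      have b1 := hg'.1 p hp
      have b2 := hg'.1 q hq
      rw [← hu] at b1 g1
      rw [← hv] at b2 g2
      generalize (r 0 * v 1 - r 1 * v 0) / (u 0 * v 1 - u 1 * v 0) = α at *
      generalize (u 0 * r 1 - u 1 * r 0) / (u 0 * v 1 - u 1 * v 0) = β at *
      rw [e]
      simp only [map_add, map_smul, smul_eq_mul, g1, g2]
      nlinarith
    · have : ((u + v) 0 * v 1 - (u + v) 1 * v 0) = u 0 * v 1 - u 1 * v 0 := by simp; ring
      rw [this, div_self hD]; exact one_pos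
    · have : (u 0 * (u + v) 1 - u 1 * (u + v) 0) = u 0 * v 1 - u 1 * v 0 := by simp; ring
      rw [this, div_self hD]; exact one_pos

theorem lt_of_int {G : Set Plane} {o y : Plane} (ho : o ∈ interior G) {φ : Plane →L[ℝ] ℝ} {m : ℝ}
    (h : ∀ x ∈ G, φ x ≤ m) (hy : φ y < m) : φ o < m := by
  have c : ContinuousAt (fun s : ℝ => o + s • (o - y)) 0 := by fun_prop
  have h1 : ∀ᶠ s in nhds (0 : ℝ), o + s • (o - y) ∈ G :=
    c.eventually_mem (by simpa using mem_interior_iff_mem_nhds.1 ho)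
  obtain ⟨s, h2, h3⟩ := ((h1.filter_mono nhdsWithin_le_nhds).and
    (self_mem_nhdsWithin (a := (0 : ℝ)) (s := Ioi 0))).exists
  have h4 := h _ h2
  have h5 : (0 : ℝ) < s := h3
  simp only [map_add, map_smul, map_sub, smul_eq_mul] at h4
  by_contra hn
  nlinarith [not_lt.1 hn]

theorem diam_aff {S : Set Plane} (hS : Bornology.IsBounded S) {M L : Plane →L[ℝ] Plane}
    (t : Plane) {a : ℝ} (ha : 0 < a) (h : ∀ x, ‖M (L x)‖ = a * ‖M x‖) :
    diam (M '' ((fun x => L x + t) '' S)) = a * diam (M '' S) := by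
  have e : ∀ x y, dist (M (L x + t)) (M (L y + t)) = a * dist (M x) (M y) := fun x y => by
    rw [dist_eq_norm, dist_eq_norm, ← map_sub, ← map_sub, add_sub_add_right_eq_sub, ← map_sub, h]
  have b1 : Bornology.IsBounded (M '' S) := M.lipschitz.isBounded_image hS
  have b2 : Bornology.IsBounded (M '' ((fun x => L x + t) '' S)) := by
    refine isBounded_iff.2 ⟨a * diam (M '' S), ?_⟩
    rintro _ ⟨_, ⟨x, hx, rfl⟩, rfl⟩ _ ⟨_, ⟨y, hy, rfl⟩, rfl⟩
    rw [e]
    exact mul_le_mul_of_nonneg_left (dist_le_diam_of_mem b1 ⟨x, hx, rfl⟩ ⟨y, hy, rfl⟩) ha.le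
  apply le_antisymm
  · refine diam_le_of_forall_dist_le (mul_nonneg ha.le diam_nonneg) ?_
    rintro _ ⟨_, ⟨x, hx, rfl⟩, rfl⟩ _ ⟨_, ⟨y, hy, rfl⟩, rfl⟩
    rw [e]
    exact mul_le_mul_of_nonneg_left (dist_le_diam_of_mem b1 ⟨x, hx, rfl⟩ ⟨y, hy, rfl⟩) ha.le
  · rw [← le_div_iff₀' ha]
    refine diam_le_of_forall_dist_le (div_nonneg diam_nonneg ha.le) ?_
    rintro _ ⟨x, hx, rfl⟩ _ ⟨y, hy, rfl⟩
    rw [le_div_iff₀' ha, ← e]
    exact dist_le_diam_of_mem b2 ⟨_, ⟨x, hx, rfl⟩, rfl⟩ ⟨_, ⟨y, hy, rfl⟩, rfl⟩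

end Pool.Agent.P.MP_eb61da_co.Gap
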