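import Pool.Agent.P.MP_eb61da_co.GapA

/-! No convex figure splits along a line into two similar copies in every ratio. -/

namespace Pool.Agent.P.MP_eb61da_co.Gap

open MeasureTheory Set Metric

/-- seminorm length of the side exposed by `g` -/
noncomputable def len (G : Set Plane) (o : Plane) (M : Plane →L[ℝ] Plane) (g : Plane →L[ℝ] ℝ) : ℝ :=
  diam (M '' {x | x ∈ G ∧ g (x - o) = 1})

theorem side {G : Set Plane} (hG : IsConvexFigure G) {o : Plane} (ho : o ∈ interior G)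
    {M L : Plane →L[ℝ] Plane} {t p z z' : Plane} {f : Plane →L[ℝ] ℝ} {τ a : ℝ} (ha : 0 < a)
    (hM : ∀ x, ‖M (L x)‖ = a * ‖M x‖) (h1 : ∀ x ∈ G, L x + t ∈ G ∧ f (L x + t) ≤ τ)
    (h2 : G ∩ {x | f x ≤ τ} ⊆ (fun x => L x + t) '' G) (hp : p ∈ G) (fp : f p < τ) (hz : z ∈ G)
    (hz' : z' ∈ G) (hne : z ≠ z') (fz : f z = τ) (fz' : f z' = τ) :
    ∃ g ∈ Sides G o, diam (M '' (G ∩ {x | f x = τ})) = a * len G o M g := by
  obtain ⟨y, -, hy⟩ := h2 ⟨hp, fp.le⟩
  have hlt : (f.comp L) o < τ - f t := by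
    refine lt_of_int (y := y) ho (fun x hx => ?_) ?_
    · have := (h1 x hx).2
      simp only [map_add, ContinuousLinearMap.comp_apply] at this ⊢
      linarith
    · rw [← hy] at fp
      simp only [map_add, ContinuousLinearMap.comp_apply] at fp ⊢
      linarith
  obtain ⟨m, hm⟩ : ∃ m, m = τ - f t - f (L o) := ⟨_, rfl⟩
  have m0 : 0 < m := by rw [hm]; exact sub_pos.2 hlt
  have e : ∀ x, (m⁻¹ • f.comp L) (x - o) = 1 - m⁻¹ * (τ - f (L x + t)) := fun x => by
    have : τ = m + f t + f (L o) := by rw [hm]; ring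
    simp only [smul_apply, ContinuousLinearMap.comp_apply, map_sub, map_add,
      smul_eq_mul]
    rw [this]
    field_simp
    ring
  have e1 : ∀ x, (m⁻¹ • f.comp L) (x - o) = 1 ↔ f (L x + t) = τ := fun x => by
    rw [e, sub_eq_self, mul_eq_zero, or_iff_right (inv_pos.2 m0).ne', sub_eq_zero, eq_comm]
  refine ⟨m⁻¹ • f.comp L, ⟨fun x hx => ?_, ?_⟩, ?_⟩
  · rw [e]
    have := mul_nonneg (inv_pos.2 m0).le (sub_nonneg.2 (h1 x hx).2)
    linarith
  · obtain ⟨w, hw, e2⟩ := h2 ⟨hz, fz.le⟩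
    obtain ⟨w', hw', e3⟩ := h2 ⟨hz', fz'.le⟩
    refine ⟨w, hw, w', hw', fun h => hne ?_, (e1 _).2 ?_, (e1 _).2 ?_⟩
    · rw [← e2, ← e3, h]
    · rw [← fz, ← e2]
    · rw [← fz', ← e3]
  · have e2 : G ∩ {x | f x = τ} =
        (fun x => L x + t) '' {x | x ∈ G ∧ (m⁻¹ • f.comp L) (x - o) = 1} := by
      ext x
      constructor
      · rintro ⟨h3, h4⟩
        obtain ⟨w, hw, rfl⟩ := h2 ⟨h3, h4.le⟩
        exact ⟨w, ⟨hw, (e1 _).2 h4⟩, rfl⟩
      · rintro ⟨w, ⟨h3, h4⟩, rfl⟩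
        exact ⟨(h1 w h3).1, (e1 _).1 h4⟩
    rw [e2, len, diam_aff (hG.1.isBounded.subset fun x hx => hx.1) t ha hM]

theorem int_lt {G : Set Plane} (hG : IsConvexFigure G) {f : Plane →L[ℝ] ℝ} (hf : f ≠ 0) {τ : ℝ}
    (h : 0 < volume.real (G ∩ {x | f x ≤ τ})) : ∃ p ∈ interior G, f p < τ := by
  have hc : Convex ℝ (G ∩ {x | f x ≤ τ}) :=
    hG.2.1.inter (convex_halfSpace_le (f : Plane →ₗ[ℝ] ℝ).isLinear τ)
  obtain ⟨p, hp⟩ := int_ne hc fun h0 => by simp [Measure.real, h0] at h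
  obtain ⟨u, hu⟩ : ∃ u, f u ≠ 0 := by
    by_contra hn
    exact hf (ContinuousLinearMap.ext fun u => not_not.1 fun h => hn ⟨u, h⟩)
  refine ⟨p, interior_mono inter_subset_left hp,
    lt_of_int (y := ((τ - 1) / f u) • u) hp (fun x hx => hx.2) ?_⟩
  rw [map_smul, smul_eq_mul, div_mul_cancel₀ _ hu]
  linarith

theorem f_eq (f : Plane →L[ℝ] ℝ) (x : Plane) :
    f x = x 0 * f (EuclideanSpace.single 0 1) + x 1 * f (EuclideanSpace.single 1 1) := by
  have : x = x 0 • EuclideanSpace.single 0 1 + x 1 • EuclideanSpace.single 1 1 :=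
    plane_ext (by simp) (by simp)
  conv_lhs => rw [this]
  simp only [map_add, map_smul, smul_eq_mul]

/-- two independent vectors: if `f d = 0`, `d ≠ 0`, `f x = 0` and `f ≠ 0` then `x ∈ ℝ d` -/
theorem ker_line {f : Plane →L[ℝ] ℝ} (hf : f ≠ 0) :
    ∃ d : Plane, d ≠ 0 ∧ f d = 0 ∧ ∀ x, f x = 0 → ∃ c : ℝ, x = c • d := by
  obtain ⟨α, hα⟩ : ∃ α, α = f (EuclideanSpace.single 0 1) := ⟨_, rfl⟩
  obtain ⟨β, hβ⟩ : ∃ β, β = f (EuclideanSpace.single 1 1) := ⟨_, rfl⟩
  have e : ∀ x, f x = x 0 * α + x 1 * β := fun x => by rw [f_eq, hα, hβ]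
  have h0 : α ^ 2 + β ^ 2 ≠ 0 := fun h => hf (ContinuousLinearMap.ext fun x => by
    have h1 : α = 0 := by nlinarith
    have h2 : β = 0 := by nlinarith
    simp [e, h1, h2])
  refine ⟨WithLp.toLp 2 ![-β, α], fun h => h0 ?_, by simp [e]; ring,
    fun x hx => ⟨(x 1 * α - x 0 * β) / (α ^ 2 + β ^ 2), plane_ext ?_ ?_⟩⟩
  · have h1 := congrArg (fun v : Plane => v 0) h
    have h2 := congrArg (fun v : Plane => v 1) h
    simp at h1 h2
    simp [h1, h2]
  · rw [e] at hx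
    simp only [PiLp.smul_apply, smul_eq_mul, Matrix.cons_val_zero]
    rw [div_mul_eq_mul_div, eq_div_iff h0]
    linear_combination α * hx
  · rw [e] at hx
    simp only [PiLp.smul_apply, smul_eq_mul, Matrix.cons_val_one, Matrix.cons_val_zero]
    rw [div_mul_eq_mul_div, eq_div_iff h0]
    linear_combination β * hx

theorem key {G : Set Plane} (hG : IsConvexFigure G) {o : Plane} (ho : o ∈ interior G)
    {M : Plane →L[ℝ] Plane} (hM : M ≠ 0) {a b : ℝ} (ha : 0 < a) (hb : 0 < b)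
    (hab : a ^ 2 + b ^ 2 = 1) (h : Dis G M a b) :
    ∃ g₁ ∈ Sides G o, ∃ g₂ ∈ Sides G o, b / a = len G o M g₁ / len G o M g₂ := by
  obtain ⟨L₁, L₂, t₁, t₂, f, τ, d1, d2, m1, m2, hf, hm⟩ := h
  have h0 : f ≠ 0 := by rintro rfl; simp at hf
  have hn : ∀ x, τ ≤ f x ↔ (-f) x ≤ -τ := fun x => by simp
  have V := fig_vol hG
  obtain ⟨v1, s1⟩ := vol_piece (K := G ∩ {x | f x ≤ τ}) hG d1 inter_subset_left
    fun x hx => ⟨(hm x hx).1, (hm x hx).2.2.1⟩
  obtain ⟨v2, s2⟩ := vol_piece (K := G ∩ {x | τ ≤ f x}) hG d2 inter_subset_left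
    fun x hx => ⟨(hm x hx).2.1, (hm x hx).2.2.2⟩
  have v3 := vol_split hG h0 τ
  have v4 : a ^ 2 * volume.real G + b ^ 2 * volume.real G = volume.real G := by
    rw [← add_mul, hab, one_mul]
  replace s1 := s1 ha (hG.2.1.inter (convex_halfSpace_le (f : Plane →ₗ[ℝ] ℝ).isLinear τ))
    (by linarith)
  replace s2 := s2 hb (hG.2.1.inter (convex_halfSpace_ge (f : Plane →ₗ[ℝ] ℝ).isLinear τ))
    (by linarith)
  obtain ⟨p, hp, fp⟩ := int_lt hG h0 ((mul_pos (pow_pos ha 2) V).trans_le v1)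
  simp only [hn] at v2 s2
  obtain ⟨q, hq, fq⟩ := int_lt hG (neg_ne_zero.2 h0) ((mul_pos (pow_pos hb 2) V).trans_le v2)
  have fq' : τ < f q := by simpa using fq
  obtain ⟨d, d0, fd, hd⟩ := ker_line h0
  obtain ⟨z, hz, fz⟩ : ∃ z ∈ interior G, f z = τ := by
    have hpq : 0 < f q - f p := by linarith
    refine ⟨((f q - τ) / (f q - f p)) • p + ((τ - f p) / (f q - f p)) • q,
      hG.2.1.interior hp hq (div_nonneg (by linarith) hpq.le) (div_nonneg (by linarith) hpq.le)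
        (by field_simp; ring), ?_⟩
    simp only [map_add, map_smul, smul_eq_mul]
    field_simp
    ring
  obtain ⟨s, hs, s0⟩ : ∃ s : ℝ, z + s • d ∈ G ∧ 0 < s := by
    have c : ContinuousAt (fun s : ℝ => z + s • d) 0 := by fun_prop
    have h1 : ∀ᶠ s in nhds (0 : ℝ), z + s • d ∈ G :=
      c.eventually_mem (by simpa using mem_interior_iff_mem_nhds.1 hz)
    exact ((h1.filter_mono nhdsWithin_le_nhds).and
      (self_mem_nhdsWithin (a := (0 : ℝ)) (s := Ioi 0))).exists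
  have hne : z ≠ z + s • d := by simp [s0.ne', d0]
  have fs : f (z + s • d) = τ := by simp [fz, fd]
  obtain ⟨g₁, G1, e1⟩ := side hG ho ha m1 (fun x hx => ⟨(hm x hx).1, (hm x hx).2.2.1⟩) s1
    (interior_subset hp) fp (interior_subset hz) hs hne fz fs
  obtain ⟨g₂, G2, e2⟩ := side hG ho hb m2 (fun x hx => ⟨(hm x hx).2.1, (hn _).1 (hm x hx).2.2.2⟩)
    s2 (interior_subset hq) fq (interior_subset hz) hs hne (by simp [fz]) (by simp [fz, fd])
  have e3 : {x | (-f) x = -τ} = {x | f x = τ} := by ext x; simp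
  rw [e3, e1] at e2
  refine ⟨g₁, G1, g₂, G2, ?_⟩
  by_cases hMd : M d = 0
  · exfalso
    obtain ⟨u, hu⟩ : ∃ u, f u = 1 := ⟨(f q - f p)⁻¹ • (q - p), by
      rw [map_smul, map_sub, smul_eq_mul, inv_mul_cancel₀ (by linarith)]⟩
    have eM : ∀ x, M x = f x • M u := fun x => by
      obtain ⟨c, hc⟩ := hd (x - f x • u) (by simp [hu])
      have := congrArg M hc
      simp only [map_sub, map_smul, hMd, smul_zero] at this
      exact sub_eq_zero.1 this
    have hu0 : 0 < ‖M u‖ := norm_pos_iff.2 fun h => hM (ContinuousLinearMap.ext fun x => by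
      rw [eM, h]; simp)
    have w : ∀ {L : Plane →L[ℝ] Plane} {c : ℝ}, (∀ x, ‖M (L x)‖ = c * ‖M x‖) →
        ∀ x, |f (L x)| = c * |f x| := fun h x => by
      have := h x
      rw [eM, eM x, norm_smul, norm_smul, ← mul_assoc] at this
      exact mul_right_cancel₀ hu0.ne' this
    have hne : G.Nonempty := ⟨p, interior_subset hp⟩
    obtain ⟨x, hx, mx⟩ := hG.1.exists_isMaxOn hne f.continuous.continuousOn
    obtain ⟨y, hy, my⟩ := hG.1.exists_isMinOn hne f.continuous.continuousOn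
    have W : 0 < f x - f y := by
      have h1 : f q ≤ f x := mx (interior_subset hq)
      have h2 : f y ≤ f p := my (interior_subset hp)
      linarith
    have w1 := w m1 (x - y)
    have w2 := w m2 (x - y)
    simp only [map_sub, abs_of_pos W] at w1 w2
    have a1 : f y ≤ f (L₁ x + t₁) := my (hm x hx).1
    have a2 : f y ≤ f (L₁ y + t₁) := my (hm y hy).1
    have a3 : f (L₂ x + t₂) ≤ f x := mx (hm x hx).2.1
    have a4 : f (L₂ y + t₂) ≤ f x := mx (hm y hy).2.1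
    have a5 := (hm x hx).2.2
    have a6 := (hm y hy).2.2
    simp only [map_add] at a1 a2 a3 a4 a5 a6
    have b1 : a * (f x - f y) ≤ τ - f y := by
      rw [← w1]; exact abs_le.2 ⟨by linarith, by linarith⟩
    have b2 : b * (f x - f y) ≤ f x - τ := by
      rw [← w2]; exact abs_le.2 ⟨by linarith, by linarith⟩
    have b3 : a + b ≤ 1 := by
      by_contra hc
      nlinarith
    nlinarith [mul_pos ha hb]
  · have b1 : Bornology.IsBounded (M '' (G ∩ {x | f x = τ})) :=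
      M.lipschitz.isBounded_image (hG.1.isBounded.subset inter_subset_left)
    have b2 := dist_le_diam_of_mem b1 ⟨_, ⟨hs, fs⟩, rfl⟩ ⟨_, ⟨interior_subset hz, fz⟩, rfl⟩
    have b3 : 0 < dist (M (z + s • d)) (M z) := by
      rw [dist_pos]; simp [s0.ne', hMd]
    have b4 : 0 < b * len G o M g₂ := by rw [← e2, ← e1]; exact b3.trans_le b2
    have b5 : len G o M g₂ ≠ 0 := by rintro h; simp [h] at b4
    rw [div_eq_div_iff ha.ne' b5, ← e2, mul_comm]

theorem not_all {G : Set Plane} (hG : IsConvexFigure G) {M : Plane →L[ℝ] Plane} (hM : M ≠ 0)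
    (h : ∀ a b : ℝ, 0 < a → 0 < b → a ^ 2 + b ^ 2 = 1 → Dis G M a b) : False := by
  obtain ⟨o, ho⟩ := hG.2.2
  have hc := ((sides_countable G o).prod (sides_countable G o)).image
    fun g => len G o M g.1 / len G o M g.2
  have hs : Ioi (0 : ℝ) ⊆ (fun g => len G o M g.1 / len G o M g.2) '' (Sides G o ×ˢ Sides G o) := by
    intro ρ hρ
    have h0 : (0 : ℝ) < ρ := hρ
    have h1 : 0 < √(1 + ρ ^ 2) := Real.sqrt_pos.2 (by positivity)
    have h2 : (1 / √(1 + ρ ^ 2)) ^ 2 + (ρ / √(1 + ρ ^ 2)) ^ 2 = 1 := by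
      rw [div_pow, div_pow, Real.sq_sqrt (by positivity)]
      field_simp
    obtain ⟨g₁, G1, g₂, G2, e⟩ := key hG ho hM (by positivity) (by positivity) h2
      (h _ _ (by positivity) (by positivity) h2)
    refine ⟨(g₁, g₂), ⟨G1, G2⟩, ?_⟩
    simp only [← e]
    field_simp
  have := measure_mono_null hs (hc.measure_zero volume)
  simp at this

end Pool.Agent.P.MP_eb61da_co.Gap
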