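import Pool.Agent.P.MP_eb61da_co.GapB

/-! Passing to the limit along an ultrafilter. -/

namespace Pool.Agent.P.MP_eb61da_co.Gap

open MeasureTheory Set Metric Filter Topology

theorem ulim {E : Type} [NormedAddCommGroup E] [ProperSpace E] (U : Ultrafilter ℕ) (x : ℕ → E)
    (R : ℝ) (h : ∀ k, ‖x k‖ ≤ R) : ∃ y, Tendsto x U (𝓝 y) := by
  obtain ⟨y, -, hy⟩ := (isCompact_closedBall (0 : E) R).ultrafilter_le_nhds (U.map x)
    (le_principal_iff.2 (mem_map.2 (univ_mem' fun k => by simpa using h k)))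
  exact ⟨y, hy⟩

theorem ev {F : Type} [NormedAddCommGroup F] [NormedSpace ℝ F] {l : Filter ℕ}
    {L : ℕ → Plane →L[ℝ] F} {K : Plane →L[ℝ] F} {y : ℕ → Plane} {x : Plane}
    (h1 : Tendsto L l (𝓝 K)) (h2 : Tendsto y l (𝓝 x)) : Tendsto (fun k => L k (y k)) l (𝓝 (K x)) :=
  ((isBoundedBilinearMap_apply (𝕜 := ℝ)).continuous.tendsto (K, x)).comp (h1.prodMk_nhds h2)

/-- the two basis vectors -/
noncomputable abbrev e (i : Fin 2) : Plane := EuclideanSpace.single i 1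

theorem dec (x : Plane) : x = x 0 • e 0 + x 1 • e 1 := plane_ext (by simp) (by simp)

theorem op_le {L : Plane →L[ℝ] Plane} {t : Plane} (h0 : ‖L 0 + t‖ ≤ 2)
    (h : ∀ i, ‖L (e i) + t‖ ≤ 2) : ‖L‖ ≤ 8 := by
  have h1 : ∀ i, ‖L (e i)‖ ≤ 4 := fun i => by
    have := norm_sub_le (L (e i) + t) (L 0 + t)
    simp only [map_zero, zero_add, add_sub_cancel_right] at this h0
    linarith [h i]
  refine L.opNorm_le_bound (by norm_num) fun x => ?_
  have h2 : ∀ i, ‖x i • L (e i)‖ ≤ ‖x‖ * 4 := fun i => by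
    rw [norm_smul]
    exact mul_le_mul (PiLp.norm_apply_le x i) (h1 i) (norm_nonneg _) (norm_nonneg _)
  have h3 : L x = x 0 • L (e 0) + x 1 • L (e 1) := by
    conv_lhs => rw [dec x]
    simp only [map_add, map_smul]
  rw [h3]
  linarith [norm_add_le (x 0 • L (e 0)) (x 1 • L (e 1)), h2 0, h2 1]

theorem tri_int {G : Set Plane} (hc : Convex ℝ G) (h0 : 0 ∈ G) (h : ∀ i, e i ∈ G) :
    (interior G).Nonempty := by
  have ho : IsOpen {x : Plane | (0 < x 0 ∧ 0 < x 1) ∧ x 0 + x 1 < 1} := by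
    have c : ∀ i, Continuous fun x : Plane => x i := fun i => by fun_prop
    exact ((isOpen_lt continuous_const (c 0)).inter (isOpen_lt continuous_const (c 1))).inter
      (isOpen_lt ((c 0).add (c 1)) continuous_const)
  refine ⟨(1 / 4 : ℝ) • e 0 + (1 / 4 : ℝ) • e 1, interior_maximal ?_ ho (by simp; norm_num)⟩
  rintro x ⟨⟨h1, h2⟩, h3⟩
  have h4 : 0 < x 0 + x 1 := by linarith
  have h5 := hc (h 0) (h 1) (div_pos h1 h4).le (div_pos h2 h4).le (by field_simp)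
  have h6 := hc.smul_mem_of_zero_mem h0 h5 ⟨h4.le, h3.le⟩
  rw [smul_add, smul_smul, smul_smul, mul_div_cancel₀ _ h4.ne', mul_div_cancel₀ _ h4.ne'] at h6
  rwa [dec x]

theorem no_seq (G : ℕ → Set Plane) (M : ℕ → Plane →L[ℝ] Plane) (s : ℕ → ℝ)
    (hs : Tendsto s atTop (𝓝 1)) (hK : ∀ k, IsCompact (G k)) (hc : ∀ k, Convex ℝ (G k))
    (h0 : ∀ k, 0 ∈ G k) (he : ∀ k i, e i ∈ G k) (hb : ∀ k, ∀ x ∈ G k, ‖x‖ ≤ 2)
    (hM : ∀ k, ‖M k‖ = 1)
    (hD : ∀ k (a b : ℝ), 0 < a → 0 < b → a ^ 2 + b ^ 2 = 1 → Dis (G k) (M k) (a * s k) (b * s k)) :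
    False := by
  obtain ⟨U, hU⟩ : ∃ U : Ultrafilter ℕ, (U : Filter ℕ) ≤ atTop := ⟨_, Ultrafilter.of_le _⟩
  replace hs := hs.mono_left hU
  obtain ⟨N, tN⟩ := ulim U M 1 fun k => (hM k).le
  have hN : N ≠ 0 := by
    have := tendsto_nhds_unique tN.norm (tendsto_const_nhds.congr fun k => (hM k).symm)
    rintro rfl
    simp at this
  let H : Set Plane := {x | ∃ y : ℕ → Plane, (∀ k, y k ∈ G k) ∧ Tendsto y U (𝓝 x)}
  have cH : Convex ℝ H := by
    rintro x ⟨y, y1, y2⟩ x' ⟨y', y3, y4⟩ a b ha hb hab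
    exact ⟨fun k => a • y k + b • y' k, fun k => hc k (y1 k) (y3 k) ha hb hab,
      (y2.const_smul a).add (y4.const_smul b)⟩
  have kH : IsCompact H := by
    refine isCompact_of_isClosed_isBounded (isClosed_of_closure_subset fun x hx => ?_)
      ((isBounded_closedBall (x := (0 : Plane)) (r := 2)).subset ?_)
    · choose y y1 y2 using fun k => (hK k).exists_infDist_eq_dist ⟨0, h0 k⟩ x
      refine ⟨y, y1, Metric.tendsto_nhds.2 fun ε hε => ?_⟩
      obtain ⟨x', ⟨w, w1, w2⟩, h1⟩ := Metric.mem_closure_iff.1 hx ε hε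
      filter_upwards [(tendsto_const_nhds (x := x).dist w2).eventually_lt_const h1] with k hk
      rw [dist_comm, ← y2]
      exact (infDist_le_dist_of_mem (w1 k)).trans_lt hk
    · rintro x ⟨y, y1, y2⟩
      exact mem_closedBall_zero_iff.2 (le_of_tendsto' y2.norm fun k => hb k _ (y1 k))
  refine not_all (G := H) ⟨kH, cH, tri_int cH ⟨fun _ => 0, h0, tendsto_const_nhds⟩
    fun i => ⟨fun _ => e i, fun k => he k i, tendsto_const_nhds⟩⟩ hN fun a b ha hb' hab => ?_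
  choose L₁ L₂ t₁ t₂ f τ d1 d2 m1 m2 hf hm using fun k => hD k a b ha hb' hab
  obtain ⟨K₁, T1⟩ := ulim U L₁ 8 fun k =>
    op_le (hb k _ (hm k _ (h0 k)).1) fun i => hb k _ (hm k _ (he k i)).1
  obtain ⟨K₂, T2⟩ := ulim U L₂ 8 fun k =>
    op_le (hb k _ (hm k _ (h0 k)).2.1) fun i => hb k _ (hm k _ (he k i)).2.1
  obtain ⟨u₁, T3⟩ := ulim U t₁ 2 fun k => by simpa using hb k _ (hm k _ (h0 k)).1
  obtain ⟨u₂, T4⟩ := ulim U t₂ 2 fun k => by simpa using hb k _ (hm k _ (h0 k)).2.1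
  obtain ⟨g, T5⟩ := ulim U f 1 fun k => (hf k).le
  obtain ⟨σ, T6⟩ := ulim U τ 2 fun k => by
    obtain ⟨a1, a2, a3, a4⟩ := hm k _ (h0 k)
    have b : ∀ x ∈ G k, |f k x| ≤ 2 := fun x hx =>
      ((f k).le_opNorm x).trans (by rw [hf, one_mul]; exact hb k x hx)
    exact abs_le.2 ⟨(abs_le.1 (b _ a1)).1.trans a3, a4.trans (abs_le.1 (b _ a2)).2⟩
  have dd : ∀ {L : ℕ → Plane →L[ℝ] Plane} {K : Plane →L[ℝ] Plane} {c : ℝ}, Tendsto L U (𝓝 K) →
      (∀ k, |(L k).det| = (c * s k) ^ 2) → |K.det| = c ^ 2 := fun {L K c} T h => by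
    have h1 := ((ContinuousLinearMap.continuous_det.tendsto K).comp T).abs
    have h2 := ((hs.const_mul c).pow 2).congr fun k => (h k).symm
    simpa using tendsto_nhds_unique h1 h2
  have mm : ∀ {L : ℕ → Plane →L[ℝ] Plane} {K : Plane →L[ℝ] Plane} {c : ℝ}, Tendsto L U (𝓝 K) →
      (∀ k x, ‖M k (L k x)‖ = c * s k * ‖M k x‖) → ∀ x, ‖N (K x)‖ = c * ‖N x‖ :=
    fun {L K c} T h x => by
    have h1 := (ev tN (ev T (tendsto_const_nhds (x := x)))).norm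
    have h2 := ((hs.const_mul c).mul (ev tN (tendsto_const_nhds (x := x))).norm).congr fun k => (h k x).symm
    simpa using tendsto_nhds_unique h1 h2
  refine ⟨K₁, K₂, u₁, u₂, g, σ, dd T1 d1, dd T2 d2, mm T1 m1, mm T2 m2,
    tendsto_nhds_unique T5.norm (tendsto_const_nhds.congr fun k => (hf k).symm), ?_⟩
  rintro x ⟨y, y1, y2⟩
  have a1 := (ev T1 y2).add T3
  have a2 := (ev T2 y2).add T4
  exact ⟨⟨_, fun k => (hm k _ (y1 k)).1, a1⟩, ⟨_, fun k => (hm k _ (y1 k)).2.1, a2⟩,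
    le_of_tendsto_of_tendsto' (ev T5 a1) T6 fun k => (hm k _ (y1 k)).2.2.1,
    le_of_tendsto_of_tendsto' T6 (ev T5 a2) fun k => (hm k _ (y1 k)).2.2.2⟩

end Pool.Agent.P.MP_eb61da_co.Gap
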