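import Pool.Agent.P.MP_eb61da_co.GapC

/-! From packings of two clones to the normalised picture. -/

namespace Pool.Agent.P.MP_eb61da_co.Gap

open MeasureTheory Set Metric Filter Topology
open scoped Pointwise

theorem clone_dec {F A : Set Plane} (H : IsClone F A) :
    ∃ (c : ℝ) (ψ : Plane ≃ᵢ Plane), 0 < c ∧ A = ψ '' (c • F) := by
  obtain ⟨φ, rfl⟩ := H
  have hc : (0 : ℝ) < Dilation.ratio φ := by exact_mod_cast Dilation.ratio_pos φ
  obtain ⟨c, hcd⟩ : ∃ c : ℝ, c = (Dilation.ratio φ : ℝ) := ⟨_, rfl⟩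
  rw [← hcd] at hc
  refine ⟨c, ⟨(Homeomorph.smulOfNeZero c⁻¹ (inv_ne_zero hc.ne')).toEquiv.trans φ.toEquiv, ?_⟩,
    hc, ?_⟩
  · refine Isometry.of_dist_eq fun x y => ?_
    change dist (φ (c⁻¹ • x)) (φ (c⁻¹ • y)) = _
    rw [Dilation.dist_eq, dist_smul₀, Real.norm_eq_abs, abs_of_pos (inv_pos.2 hc), ← hcd]
    field_simp
  · rw [← Set.image_smul, Set.image_image]
    refine Set.image_congr fun x _ => ?_
    change φ x = φ (c⁻¹ • c • x)
    rw [inv_smul_smul₀ hc.ne']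

theorem iso_form (χ : Plane ≃ᵢ Plane) {α β : ℝ} (hα : 0 < α) (hβ : 0 < β) :
    ∃ (L : Plane →L[ℝ] Plane) (t : Plane), |L.det| = (β * α) ^ 2 ∧ (∀ x, ‖L x‖ = β * α * ‖x‖) ∧
      ∀ x, β • χ (α • x) = L x + t := by
  obtain ⟨R, hR⟩ : ∃ R, R = χ.toRealLinearIsometryEquiv := ⟨_, rfl⟩
  have e : ∀ x, χ x = R x + χ 0 := fun x => by simp [hR]
  refine ⟨(β * α) • R.toLinearIsometry.toContinuousLinearMap, β • χ 0, ?_, fun x => ?_, fun x => ?_⟩
  · have h1 := R.toLinearIsometry.normDet_eq_one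
    rw [LinearMap.normDet_eq_norm_det, Real.norm_eq_abs] at h1
    change |LinearMap.det ((β * α) • R.toLinearIsometry.toLinearMap)| = _
    rw [LinearMap.det_smul, abs_mul, h1, mul_one, abs_of_nonneg (by positivity)]
    simp
  · simp [norm_smul, abs_of_pos hα, abs_of_pos hβ]
  · rw [e]
    simp [smul_smul]

theorem dis_of {G : Set Plane} {M : Plane →L[ℝ] Plane} {a b : ℝ} {L₁ L₂ : Plane →L[ℝ] Plane}
    {t₁ t₂ : Plane} {f : Plane →L[ℝ] ℝ} {τ : ℝ} (d1 : |L₁.det| = a ^ 2) (d2 : |L₂.det| = b ^ 2)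
    (m1 : ∀ x, ‖M (L₁ x)‖ = a * ‖M x‖) (m2 : ∀ x, ‖M (L₂ x)‖ = b * ‖M x‖) (hf : f ≠ 0)
    (h : ∀ x ∈ G, L₁ x + t₁ ∈ G ∧ L₂ x + t₂ ∈ G ∧ f (L₁ x + t₁) ≤ τ ∧ τ ≤ f (L₂ x + t₂)) :
    Dis G M a b := by
  have h0 := norm_pos_iff.2 hf
  refine ⟨L₁, L₂, t₁, t₂, ‖f‖⁻¹ • f, ‖f‖⁻¹ * τ, d1, d2, m1, m2, ?_, fun x hx =>
    ⟨(h x hx).1, (h x hx).2.1, mul_le_mul_of_nonneg_left (h x hx).2.2.1 (by positivity),
      mul_le_mul_of_nonneg_left (h x hx).2.2.2 (by positivity)⟩⟩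
  rw [norm_smul, norm_inv, norm_norm, inv_mul_cancel₀ h0.ne']

theorem sep {P Q : Set Plane} (hP : Convex ℝ P) (hQ : Convex ℝ Q) (h1 : volume P ≠ 0)
    (h2 : volume Q ≠ 0) (h : Disjoint (interior P) (interior Q)) :
    ∃ (f : Plane →L[ℝ] ℝ) (τ : ℝ), f ≠ 0 ∧ (∀ x ∈ P, f x ≤ τ) ∧ ∀ x ∈ Q, τ ≤ f x := by
  obtain ⟨f, τ, a, b⟩ := geometric_hahn_banach_open_open hP.interior isOpen_interior hQ.interior
    isOpen_interior h
  obtain ⟨p, hp⟩ := int_ne hP h1
  obtain ⟨q, hq⟩ := int_ne hQ h2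
  refine ⟨f, τ, ?_, fun x hx => ?_, fun x hx => ?_⟩
  · rintro rfl
    exact absurd ((a p hp).trans (b q hq)) (by simp)
  · refine closure_minimal (fun y hy => (a y hy).le) (isClosed_le f.continuous continuous_const) ?_
    rw [hP.closure_interior_eq_closure_of_nonempty_interior ⟨p, hp⟩]
    exact subset_closure hx
  · refine closure_minimal (fun y hy => (b y hy).le) (isClosed_le continuous_const f.continuous) ?_
    rw [hQ.closure_interior_eq_closure_of_nonempty_interior ⟨q, hq⟩]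
    exact subset_closure hx

theorem extract {F : Set Plane} {S a b : ℝ} (hF : IsConvexFigure F) (H : ClonesPack F S)
    (ha : 0 < a) (hb : 0 < b) (hab : a ^ 2 + b ^ 2 = 1) :
    0 < S ∧ Dis F (ContinuousLinearMap.id ℝ Plane) (a * (√S)⁻¹) (b * (√S)⁻¹) := by
  have V := fig_vol hF
  have hV : volume F = ENNReal.ofReal (volume.real F) :=
    (ENNReal.ofReal_toReal hF.1.measure_lt_top.ne).symm
  generalize volume.real F = v at V hV
  have sv := Real.sqrt_pos.2 V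
  obtain ⟨t, ht⟩ : ∃ t : Fin 2 → ℝ, t = ![a, b] := ⟨_, rfl⟩
  have t0 : t 0 = a := by simp [ht]
  have t1 : t 1 = b := by simp [ht]
  have tp : ∀ i, 0 < (√v)⁻¹ * t i := fun i => by
    fin_cases i
    · exact mul_pos (inv_pos.2 sv) (t0 ▸ ha)
    · exact mul_pos (inv_pos.2 sv) (t1 ▸ hb)
  obtain ⟨Q, hQ, hQv, g, g1, g2⟩ := H 2 (fun i => ((√v)⁻¹ * t i) • F) (fun i =>
      ⟨{ (Homeomorph.smulOfNeZero _ (tp i).ne').toEquiv with
        edist_eq' := ⟨‖(√v)⁻¹ * t i‖₊, nnnorm_ne_zero_iff.2 (tp i).ne',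
          fun x y => edist_smul₀ _ x y⟩ }, rfl⟩) (by
      simp only [Fin.sum_univ_two, Measure.addHaar_smul, hV, finrank_euclideanSpace,
        Fintype.card_fin, t0, t1]
      rw [← add_mul, ← ENNReal.ofReal_add (abs_nonneg _) (abs_nonneg _),
        ← ENNReal.ofReal_mul (by positivity), ENNReal.ofReal_eq_one, abs_of_nonneg (sq_nonneg _),
        abs_of_nonneg (sq_nonneg _), mul_pow, mul_pow, ← mul_add, hab, inv_pow, Real.sq_sqrt V.le]
      field_simp)
  obtain ⟨C, ψ, hC, rfl⟩ := clone_dec hQ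
  have hS : C ^ 2 * v = S := by
    obtain ⟨L, w, d, -, e⟩ := iso_form ψ hC one_pos
    have e1 : ψ '' (C • F) = (fun x => L x + w) '' F := by
      rw [← image_smul, image_image]
      exact image_congr fun x _ => by rw [← e, one_smul]
    rw [e1, vol_aff, d, one_mul, hV, ← ENNReal.ofReal_mul (sq_nonneg _)] at hQv
    have h1 : 0 < C ^ 2 * v := by positivity
    have h2 : 0 < S := by rw [← ENNReal.ofReal_pos, ← hQv, ENNReal.ofReal_pos]; exact h1
    exact (ENNReal.ofReal_eq_ofReal_iff h1.le h2.le).1 hQv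
  have hr : ∀ i, C⁻¹ * ((√v)⁻¹ * t i) = t i * (√S)⁻¹ := fun i => by
    rw [← hS, Real.sqrt_mul (sq_nonneg _), Real.sqrt_sq hC.le]
    field_simp
  choose L w d n e using fun i => iso_form ((g i).trans ψ.symm) (tp i) (inv_pos.2 hC)
  let Θ := ψ.symm.toHomeomorph.trans (Homeomorph.smulOfNeZero C⁻¹ (inv_pos.2 hC).ne')
  have eP : ∀ i, (fun x => L i x + w i) '' F = Θ '' (g i '' (((√v)⁻¹ * t i) • F)) := fun i => by
    rw [← image_smul, image_image, image_image]
    exact image_congr fun x _ => (e i x).symm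
  have sub : ∀ i, ∀ x ∈ F, L i x + w i ∈ F := fun i x hx => by
    obtain ⟨_, ⟨z, hz, rfl⟩, h⟩ := g1 i ⟨_, ⟨x, hx, rfl⟩, rfl⟩
    rw [← e, IsometryEquiv.trans_apply, ← h]
    simpa [hC.ne'] using hz
  have cv : ∀ i, Convex ℝ ((fun x => L i x + w i) '' F) := fun i => by
    have := (hF.2.1.linear_image (L i : Plane →ₗ[ℝ] Plane)).translate (w i)
    rw [image_image] at this
    simpa [add_comm] using this
  have vp : ∀ i, volume ((fun x => L i x + w i) '' F) ≠ 0 := fun i => by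
    rw [vol_aff, d, hV, ← ENNReal.ofReal_mul (sq_nonneg _)]
    have := tp i
    exact (ENNReal.ofReal_pos.2 (by positivity)).ne'
  obtain ⟨f, τ, f0, f1, f2⟩ := sep (cv 0) (cv 1) (vp 0) (vp 1) (by
    rw [eP, eP, ← Θ.image_interior, ← Θ.image_interior]
    exact (disjoint_image_iff Θ.injective).2 (g2 0 1 (by decide)))
  simp only [hr] at d n
  rw [← t0, ← t1]
  exact ⟨hS ▸ by positivity, dis_of (d 0) (d 1) (n 0) (n 1) f0 fun x hx =>
    ⟨sub 0 x hx, sub 1 x hx, f1 _ ⟨x, hx, rfl⟩, f2 _ ⟨x, hx, rfl⟩⟩⟩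

theorem Dis.conj {F : Set Plane} {a b : ℝ} (h : Dis F (ContinuousLinearMap.id ℝ Plane) a b)
    (A : Plane ≃L[ℝ] Plane) (p : Plane) (c : ℝ) :
    Dis {x | A x + p ∈ F} (c • (A : Plane →L[ℝ] Plane)) a b := by
  obtain ⟨L₁, L₂, t₁, t₂, f, τ, d1, d2, m1, m2, hf, hm⟩ := h
  have d : ∀ L : Plane →L[ℝ] Plane,
      ((A.symm : Plane →L[ℝ] Plane).comp (L.comp (A : Plane →L[ℝ] Plane))).det = L.det := fun L =>
    LinearMap.det_conj (L : Plane →ₗ[ℝ] Plane) A.symm.toLinearEquiv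
  have e : ∀ (L : Plane →L[ℝ] Plane) (t x : Plane),
      A (((A.symm : Plane →L[ℝ] Plane).comp (L.comp (A : Plane →L[ℝ] Plane))) x +
        A.symm (L p + t - p)) + p = L (A x + p) + t := fun L t x => by
    simp
    abel
  refine dis_of (f := f.comp (A : Plane →L[ℝ] Plane)) (τ := τ - f p) (t₁ := A.symm (L₁ p + t₁ - p))
    (t₂ := A.symm (L₂ p + t₂ - p)) ((congrArg abs (d L₁)).trans d1) ((congrArg abs (d L₂)).trans d2)
    (fun x => ?_) (fun x => ?_) (fun h => ?_) fun x hx => ?_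
  · have := m1 (A x)
    simp only [ContinuousLinearMap.id_apply] at this
    simp [norm_smul, this]
    ring
  · have := m2 (A x)
    simp only [ContinuousLinearMap.id_apply] at this
    simp [norm_smul, this]
    ring
  · have : f = 0 := ContinuousLinearMap.ext fun x => by
      simpa using congrArg (fun g : Plane →L[ℝ] ℝ => g (A.symm x)) h
    simp [this] at hf
  · obtain ⟨a1, a2, a3, a4⟩ := hm _ hx
    rw [← e] at a1 a2 a3 a4
    rw [map_add] at a3 a4
    exact ⟨a1, a2, le_sub_iff_add_le.2 a3, sub_le_iff_le_add.2 a4⟩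

theorem normal {F : Set Plane} (hF : IsConvexFigure F) : ∃ (A : Plane ≃L[ℝ] Plane) (p : Plane),
    A 0 + p ∈ F ∧ (∀ i, A (e i) + p ∈ F) ∧ ∀ x, A x + p ∈ F → ‖x‖ ≤ 2 := by
  let D : Plane × Plane × Plane → ℝ := fun z =>
    |(z.2.1 0 - z.1 0) * (z.2.2 1 - z.1 1) - (z.2.1 1 - z.1 1) * (z.2.2 0 - z.1 0)|
  obtain ⟨o, ho⟩ := hF.2.2
  have hoF := interior_subset ho
  obtain ⟨⟨p, q, r⟩, ⟨hp, hq, hr⟩, hm⟩ := (hF.1.prod (hF.1.prod hF.1)).exists_isMaxOn
    ⟨(o, o, o), hoF, hoF, hoF⟩ (f := D) (by fun_prop)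
  have hD : 0 < D (p, q, r) := by
    have h1 : ∀ i, ∀ᶠ s in nhds (0 : ℝ), o + s • e i ∈ F := fun i =>
      (by fun_prop : ContinuousAt (fun s : ℝ => o + s • e i) 0).eventually_mem
        (by simpa using mem_interior_iff_mem_nhds.1 ho)
    obtain ⟨s, ⟨h2, h3⟩, h4⟩ := ((((h1 0).and (h1 1)).filter_mono nhdsWithin_le_nhds).and
      (self_mem_nhdsWithin (a := (0 : ℝ)) (s := Ioi 0))).exists
    have h5 : (0 : ℝ) < s := h4
    refine lt_of_lt_of_le ?_ (hm (a := (o, o + s • e 0, o + s • e 1)) ⟨hoF, h2, h3⟩)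
    simp [D, h5.ne']
  let B : Plane →ₗ[ℝ] Plane := (EuclideanSpace.projₗ (0 : Fin 2)).smulRight (q - p) +
    (EuclideanSpace.projₗ (1 : Fin 2)).smulRight (r - p)
  have hB : ∀ x, B x = x 0 • (q - p) + x 1 • (r - p) := fun x => rfl
  have k0 : ∀ x, D (p, B x + p, r) = |x 0| * D (p, q, r) := fun x => by
    simp only [D, hB, ← abs_mul, PiLp.add_apply, PiLp.smul_apply, PiLp.sub_apply, smul_eq_mul]
    congr 1
    ring
  have k1 : ∀ x, D (p, q, B x + p) = |x 1| * D (p, q, r) := fun x => by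
    simp only [D, hB, ← abs_mul, PiLp.add_apply, PiLp.smul_apply, PiLp.sub_apply, smul_eq_mul]
    congr 1
    ring
  have inj : Function.Injective B := by
    refine (injective_iff_map_eq_zero B).2 fun x hx => ?_
    have h0 := k0 x
    have h1 := k1 x
    rw [hx, zero_add] at h0 h1
    have h2 : D (p, p, r) = 0 := by simp [D]
    have h3 : D (p, q, p) = 0 := by simp [D]
    rw [h2, eq_comm, mul_eq_zero, or_iff_left hD.ne', abs_eq_zero] at h0
    rw [h3, eq_comm, mul_eq_zero, or_iff_left hD.ne', abs_eq_zero] at h1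
    exact plane_ext h0 h1
  refine ⟨(LinearEquiv.ofInjectiveEndo B inj).toContinuousLinearEquiv, p, by simpa using hp,
    fun i => ?_, fun x hx => ?_⟩
  · change B (e i) + p ∈ F
    fin_cases i
    · simpa [hB] using hq
    · simpa [hB] using hr
  · change B x + p ∈ F at hx
    have h0 : D (p, B x + p, r) ≤ D (p, q, r) := hm (a := (p, B x + p, r)) ⟨hp, hx, hr⟩
    have h1 : D (p, q, B x + p) ≤ D (p, q, r) := hm (a := (p, q, B x + p)) ⟨hp, hq, hx⟩
    rw [k0, mul_le_iff_le_one_left hD] at h0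
    rw [k1, mul_le_iff_le_one_left hD] at h1
    have h2 := norm_add_le (x 0 • e 0) (x 1 • e 1)
    rw [← dec x] at h2
    simp [norm_smul] at h2
    linarith

theorem gap : ∃ c : ℝ, 0 < c ∧ ∀ F S, IsConvexFigure F → ClonesPack F S → 1 + c ≤ S := by
  by_contra hn
  push Not at hn
  choose F S hF hP hS using fun k : ℕ => hn (1 / ((k : ℝ) + 1)) (by positivity)
  choose A p h0 he hb using fun k => normal (hF k)
  have h1 : ∀ k, 1 ≤ S k := fun k => by
    obtain ⟨h2, h3⟩ := extract (a := 3 / 5) (b := 4 / 5) (hF k) (hP k) (by norm_num) (by norm_num)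
      (by norm_num)
    have h4 := h3.sum_le (hF k)
    rw [mul_pow, mul_pow, inv_pow, Real.sq_sqrt h2.le] at h4
    exact (inv_le_one₀ h2).1 (by linarith)
  have h2 : Tendsto S atTop (𝓝 1) := by
    have h3 : Tendsto (fun k : ℕ => 1 + 1 / ((k : ℝ) + 1)) atTop (𝓝 (1 + 0)) :=
      tendsto_one_div_add_atTop_nhds_zero_nat.const_add 1
    exact tendsto_of_tendsto_of_tendsto_of_le_of_le tendsto_const_nhds (by simpa using h3) h1
      fun k => (hS k).le
  have c : ∀ k, Continuous fun x => A k x + p k := fun k => by fun_prop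
  refine no_seq (fun k => {x | A k x + p k ∈ F k})
    (fun k => ‖(A k : Plane →L[ℝ] Plane)‖⁻¹ • (A k : Plane →L[ℝ] Plane)) (fun k => (√(S k))⁻¹)
    (by simpa using h2.sqrt.inv₀ (by simp)) (fun k => ?_) (fun k => ?_) h0 he hb (fun k => ?_)
    fun k a b ha hb hab => (extract (hF k) (hP k) ha hb hab).2.conj _ _ _
  · exact isCompact_of_isClosed_isBounded ((hF k).1.isClosed.preimage (c k))
      ((isBounded_closedBall (x := (0 : Plane)) (r := 2)).subset fun x hx =>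
        mem_closedBall_zero_iff.2 (hb k x hx))
  · intro x hx y hy a b ha hb hab
    have := (hF k).2.1 hx hy ha hb hab
    change A k (a • x + b • y) + p k ∈ F k
    rwa [smul_add, smul_add, add_add_add_comm, ← add_smul, hab, one_smul, ← map_smul, ← map_smul,
      ← map_add] at this
  · rw [norm_smul, norm_inv, norm_norm, inv_mul_cancel₀ (A k).norm_pos.ne']

end Pool.Agent.P.MP_eb61da_co.Gap
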