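import Pool.Agent.P.MP_eb61da_co.Defs
import Pool.Agent.P.MP_eb61da_co.Check

/-! From guillotine packings to packings of clones in the plane. -/

namespace Pool.Agent.P.MP_eb61da_co

open MeasureTheory Set
open scoped Pointwise

def box (x y w h : ℝ) : Set Plane := {v | v 0 ∈ Icc x (x + w) ∧ v 1 ∈ Icc y (y + h)}

theorem disj_of_sep {A B : Set Plane} (i : Fin 2) (t : ℝ) (hA : ∀ v ∈ A, v i ≤ t)
    (hB : ∀ v ∈ B, t ≤ v i) : Disjoint (interior A) (interior B) := by
  rw [Set.disjoint_left]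
  intro v h1 h2
  obtain ⟨e, he, hb⟩ := Metric.isOpen_iff.1 isOpen_interior v h1
  have h3 : v + EuclideanSpace.single i (e / 2) ∈ A := by
    refine interior_subset (hb ?_)
    rw [Metric.mem_ball, dist_eq_norm, add_sub_cancel_left, PiLp.norm_single,
      Real.norm_eq_abs, abs_of_pos (by linarith)]
    linarith
  have h4 := hA _ h3
  have h5 := hB _ (interior_subset h2)
  simp at h4
  linarith

theorem mem_smul_rect {p q c : ℝ} (hc : 0 ≤ c) {v : Plane} (hv : v ∈ c • rect p q) :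
    v 0 ∈ Icc 0 (p * c) ∧ v 1 ∈ Icc 0 (q * c) := by
  obtain ⟨u, ⟨⟨h1, h2⟩, h3, h4⟩, rfl⟩ := hv
  simp only [PiLp.smul_apply, smul_eq_mul, mem_Icc]
  refine ⟨⟨by positivity, by nlinarith⟩, by positivity, by nlinarith⟩

theorem map_split {ι : Type} (a : ι → ℝ) (S₁ S₂ : Multiset ℝ) : ∀ t : Multiset ι,
    t.map a = S₁ + S₂ → ∃ t₁ t₂, t = t₁ + t₂ ∧ t₁.map a = S₁ ∧ t₂.map a = S₂ := by
  classical
  induction S₁ using Multiset.induction_on with
  | empty => intro t h; exact ⟨0, t, by simp, by simp, by simpa using h⟩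
  | cons b S ih =>
    intro t h
    rw [Multiset.cons_add] at h
    obtain ⟨i, hi, e1, e2⟩ := (Multiset.map_eq_cons a t (S + S₂) b).2 h
    obtain ⟨t₁, t₂, e3, e4, e5⟩ := ih _ e2
    refine ⟨i ::ₘ t₁, t₂, ?_, by rw [Multiset.map_cons, e1, e4], e5⟩
    rw [Multiset.cons_add, ← e3, Multiset.cons_erase hi]

/-- a placement of the rectangles indexed by `t` inside `B` -/
def Pl {ι : Type} (p q : ℝ) (a : ι → ℝ) (t : Multiset ι) (B : Set Plane) : Prop :=
  ∃ g : ι → (Plane ≃ᵢ Plane), (∀ i ∈ t, g i '' (a i • rect p q) ⊆ B) ∧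
    ∀ i ∈ t, ∀ j ∈ t, i ≠ j →
      Disjoint (interior (g i '' (a i • rect p q))) (interior (g j '' (a j • rect p q)))

theorem Pl.join {ι : Type} {p q : ℝ} {a : ι → ℝ} {t₁ t₂ : Multiset ι} {B₁ B₂ B : Set Plane}
    (H1 : Pl p q a t₁ B₁) (H2 : Pl p q a t₂ B₂) (h1 : B₁ ⊆ B) (h2 : B₂ ⊆ B)
    (hd : Disjoint (interior B₁) (interior B₂)) : Pl p q a (t₁ + t₂) B := by
  classical
  obtain ⟨g₁, a1, b1⟩ := H1
  obtain ⟨g₂, a2, b2⟩ := H2
  refine ⟨fun i => if i ∈ t₁ then g₁ i else g₂ i, ?_, ?_⟩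
  · intro i hi
    by_cases h : i ∈ t₁
    · simp only [h, if_true]; exact (a1 i h).trans h1
    · simp only [h, if_false]
      exact (a2 i ((Multiset.mem_add.1 hi).resolve_left h)).trans h2
  · intro i hi j hj hij
    by_cases h : i ∈ t₁ <;> by_cases h' : j ∈ t₁ <;> simp only [h, h', if_true, if_false]
    · exact b1 i h j h' hij
    · exact hd.mono (interior_mono (a1 i h))
        (interior_mono (a2 j ((Multiset.mem_add.1 hj).resolve_left h')))
    · exact hd.symm.mono (interior_mono (a2 i ((Multiset.mem_add.1 hi).resolve_left h)))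
        (interior_mono (a1 j h'))
    · exact b2 i ((Multiset.mem_add.1 hi).resolve_left h) j
        ((Multiset.mem_add.1 hj).resolve_left h') hij

theorem Pl.single {ι : Type} {p q b : ℝ} {a : ι → ℝ} {t : Multiset ι} {B : Set Plane}
    (ht : t.map a = {b}) (g : Plane ≃ᵢ Plane) (hg : g '' (b • rect p q) ⊆ B) : Pl p q a t B := by
  obtain ⟨i, rfl, rfl⟩ := Multiset.map_eq_singleton.1 ht
  refine ⟨fun _ => g, ?_, ?_⟩
  · intro j hj; rw [Multiset.mem_singleton.1 hj]; exact hg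
  · intro j hj k hk hjk
    exact absurd ((Multiset.mem_singleton.1 hj).trans (Multiset.mem_singleton.1 hk).symm) hjk

theorem G.pl {ι : Type} {p q w h : ℝ} {S : Multiset ℝ} (a : ι → ℝ) (H : G p q w h S) :
    ∀ (t : Multiset ι) (x y : ℝ), t.map a = S → Pl p q a t (box x y w h) := by
  induction H with
  | nil _ _ =>
    intro t x y ht
    rw [Multiset.map_eq_zero] at ht
    subst ht
    exact ⟨fun _ => IsometryEquiv.refl _, by simp, by simp⟩
  | one h0 _ _ h1 h2 =>
    intro t x y ht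
    refine Pl.single ht (IsometryEquiv.addRight (WithLp.toLp 2 ![x, y])) ?_
    rintro _ ⟨v, hv, rfl⟩
    obtain ⟨⟨a1, a2⟩, a3, a4⟩ := mem_smul_rect h0 hv
    simp only [box, IsometryEquiv.addRight_apply, mem_ofPred_eq, PiLp.add_apply, mem_Icc,
      Matrix.cons_val_zero, Matrix.cons_val_one]
    refine ⟨⟨?_, ?_⟩, ?_, ?_⟩ <;> linarith
  | rot h0 _ _ h1 h2 =>
    intro t x y ht
    refine Pl.single ht ((LinearIsometryEquiv.piLpCongrLeft 2 ℝ ℝ
      (Equiv.swap (0 : Fin 2) 1)).toIsometryEquiv.trans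
      (IsometryEquiv.addRight (WithLp.toLp 2 ![x, y]))) ?_
    rintro _ ⟨v, hv, rfl⟩
    obtain ⟨⟨a1, a2⟩, a3, a4⟩ := mem_smul_rect h0 hv
    simp [box, Equiv.piCongrLeft']
    refine ⟨⟨?_, ?_⟩, ?_, ?_⟩ <;> linarith
  | @hc w₁ w₂ h S₁ S₂ H1 H2 ih1 ih2 =>
    intro t x y ht
    obtain ⟨t₁, t₂, rfl, e1, e2⟩ := map_split a S₁ S₂ t ht
    have := H1.nonneg; have := H2.nonneg
    refine (ih1 t₁ x y e1).join (ih2 t₂ (x + w₁) y e2) ?_ ?_
      (disj_of_sep 0 (x + w₁) (fun v hv => hv.1.2) (fun v hv => hv.1.1))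
    · rintro v ⟨⟨a1, a2⟩, a3⟩; exact ⟨⟨a1, by linarith⟩, a3⟩
    · rintro v ⟨⟨a1, a2⟩, a3⟩; exact ⟨⟨by linarith, by linarith⟩, a3⟩
  | @vc w h₁ h₂ S₁ S₂ H1 H2 ih1 ih2 =>
    intro t x y ht
    obtain ⟨t₁, t₂, rfl, e1, e2⟩ := map_split a S₁ S₂ t ht
    have := H1.nonneg; have := H2.nonneg
    refine (ih1 t₁ x y e1).join (ih2 t₂ x (y + h₁) e2) ?_ ?_
      (disj_of_sep 1 (y + h₁) (fun v hv => hv.2.2) (fun v hv => hv.2.1))
    · rintro v ⟨a3, a1, a2⟩; exact ⟨a3, a1, by linarith⟩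
    · rintro v ⟨a3, a1, a2⟩; exact ⟨a3, by linarith, by linarith⟩

theorem G.smul {p q w h k : ℝ} {S : Multiset ℝ} (hk : 0 ≤ k) (H : G p q w h S) :
    G p q (k * w) (k * h) (S.map (k * ·)) := by
  induction H with
  | nil a b => exact G.nil (mul_nonneg hk a) (mul_nonneg hk b)
  | one a b c d e =>
    exact G.one (mul_nonneg hk a) (mul_nonneg hk b) (mul_nonneg hk c) (by nlinarith) (by nlinarith)
  | rot a b c d e =>
    exact G.rot (mul_nonneg hk a) (mul_nonneg hk b) (mul_nonneg hk c) (by nlinarith) (by nlinarith)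
  | hc _ _ a b => rw [mul_add, Multiset.map_add]; exact G.hc a b
  | vc _ _ a b => rw [mul_add, Multiset.map_add]; exact G.vc a b

theorem clone_decomp {F A : Set Plane} (H : IsClone F A) :
    ∃ (c : ℝ) (ψ : Plane ≃ᵢ Plane), 0 < c ∧ A = ψ '' (c • F) := by
  obtain ⟨φ, rfl⟩ := H
  have hc : (0 : ℝ) < Dilation.ratio φ := by exact_mod_cast Dilation.ratio_pos φ
  obtain ⟨c, hcd⟩ : ∃ c : ℝ, c = (Dilation.ratio φ : ℝ) := ⟨_, rfl⟩
  rw [← hcd] at hc
  refine ⟨c, ⟨(Homeomorph.smulOfNeZero c⁻¹ (inv_ne_zero hc.ne')).toEquiv.trans φ.toEquiv, ?_⟩,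
    hc, ?_⟩
  · refine Isometry.of_dist_eq fun x y => ?_
    change dist (φ (c⁻¹ • x)) (φ (c⁻¹ • y)) = _
    rw [Dilation.dist_eq, dist_smul₀, Real.norm_eq_abs, abs_of_pos (inv_pos.2 hc), ← hcd]
    field_simp
  · rw [← Set.image_smul, Set.image_image]
    refine Set.image_congr fun x _ => ?_
    change φ x = φ (c⁻¹ • c • x)
    rw [inv_smul_smul₀ hc.ne']

theorem volume_iso (ψ : Plane ≃ᵢ Plane) {A : Set Plane} (hA : MeasurableSet A) :
    volume (ψ '' A) = volume A := by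
  have h : MeasurePreserving ψ.symm volume volume := by
    have h1 := (measurePreserving_add_right volume (ψ.symm 0)).comp
      ψ.symm.toRealLinearIsometryEquiv.measurePreserving
    have e : (ψ.symm : Plane → Plane) =
        (fun x => x + ψ.symm 0) ∘ ψ.symm.toRealLinearIsometryEquiv := by
      funext x
      simp
    rw [e]; exact h1
  have e : ψ '' A = ψ.symm ⁻¹' A := ψ.toEquiv.image_eq_preimage_symm A
  rw [e, h.measure_preimage hA.nullMeasurableSet]

theorem rect_figure {p q : ℝ} (hp : 0 < p) (hq : 0 < q) : IsConvexFigure (rect p q) := by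
  refine ⟨?_, ?_, ?_⟩
  · have : rect p q = (EuclideanSpace.equiv (Fin 2) ℝ).toHomeomorph ⁻¹' Icc ![0, 0] ![p, q] := by
      ext v
      simp [rect, Pi.le_def, Fin.forall_fin_two]
      tauto
    rw [this, Homeomorph.isCompact_preimage]
    exact isCompact_Icc
  · rintro u ⟨⟨a1, a2⟩, a3, a4⟩ v ⟨⟨b1, b2⟩, b3, b4⟩ s t hs ht hst
    simp only [rect, mem_ofPred_eq, PiLp.add_apply, PiLp.smul_apply, smul_eq_mul, mem_Icc]
    refine ⟨⟨by positivity, by nlinarith⟩, by positivity, by nlinarith⟩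
  · have ho : IsOpen {v : Plane | v 0 ∈ Ioo 0 p ∧ v 1 ∈ Ioo 0 q} :=
      (isOpen_Ioo.preimage (by fun_prop)).inter (isOpen_Ioo.preimage (by fun_prop))
    refine ⟨WithLp.toLp 2 ![p / 2, q / 2], interior_maximal ?_ ho ?_⟩
    · rintro v ⟨a, b⟩; exact ⟨Ioo_subset_Icc_self a, Ioo_subset_Icc_self b⟩
    · simp only [mem_ofPred_eq, mem_Ioo, Matrix.cons_val_zero, Matrix.cons_val_one]
      refine ⟨⟨?_, ?_⟩, ?_, ?_⟩ <;> linarith

theorem satLo_zero : ∀ (K : ℕ) (L : List ℝ), Dec L → SatLo (List.replicate K 0) L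
  | 0, _, _ => trivial
  | K + 1, L, H => ⟨by simpa using H.hd_nonneg, satLo_zero K L.tail H.tail⟩

theorem satHi_rep {N : ℕ} : ∀ (K : ℕ) (L : List ℝ), Dec L → hd L ≤ N →
    SatHi (List.replicate K N) L
  | 0, _, _, _ => trivial
  | K + 1, L, H, h => ⟨h, satHi_rep K L.tail H.tail (H.hd_tail.trans h)⟩

theorem clonesPack_of_good {p q N T K : ℕ} {S : ℝ} (hp : 0 < p) (hq : 0 < q) (hN : 0 < N)
    (hS : 1 ≤ S) (hT : (N : ℝ) * N ≤ T * S)
    (H : Good p q N T (List.replicate K 0) (List.replicate K N)) : ClonesPack (rect p q) S := by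
  intro n f hf hsum
  have hp' : (0 : ℝ) < p := by exact_mod_cast hp
  have hq' : (0 : ℝ) < q := by exact_mod_cast hq
  have hN' : (0 : ℝ) < N := by exact_mod_cast hN
  obtain ⟨hK, -, hI⟩ := rect_figure hp' hq'
  set F := rect p q with hF
  have v0 : volume F ≠ 0 := (Measure.measure_pos_of_nonempty_interior volume hI).ne'
  have v1 : volume F ≠ ⊤ := hK.measure_lt_top.ne
  set v : ℝ := (volume F).toReal with hv
  have hv0 : 0 < v := ENNReal.toReal_pos v0 v1
  have hvF : volume F = ENNReal.ofReal v := (ENNReal.ofReal_toReal v1).symm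
  have vol : ∀ c : ℝ, 0 ≤ c → volume (c • F) = ENNReal.ofReal (c * c * v) := by
    intro c hc
    rw [Measure.addHaar_smul_of_nonneg _ hc, hvF, ← ENNReal.ofReal_mul (by positivity)]
    simp [pow_two]
  choose c ψ hc hψ using fun i => clone_decomp (hf i)
  have hs : ∑ i, c i * c i * v = 1 := by
    have : ∀ i, volume (f i) = ENNReal.ofReal (c i * c i * v) := fun i => by
      rw [hψ i, volume_iso _ (hK.smul (c i)).measurableSet, vol _ (hc i).le]
    simp only [this] at hsum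
    rw [← ENNReal.ofReal_sum_of_nonneg (fun i _ => by have := hc i; positivity)] at hsum
    exact ENNReal.ofReal_eq_one.1 hsum
  set C : ℝ := √(S / v) with hC
  have hC0 : 0 < C := Real.sqrt_pos.2 (by positivity)
  have hCC : C * C * v = S := by
    rw [hC, Real.mul_self_sqrt (by positivity)]; field_simp
  set M : Multiset ℝ := (Finset.univ : Finset (Fin n)).val.map fun i => N / C * c i with hM
  have hD : Dec (M.sort (· ≥ ·)) := by
    refine ⟨Multiset.pairwise_sort _ _, ?_⟩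
    intro a ha
    rw [Multiset.mem_sort, hM, Multiset.mem_map] at ha
    obtain ⟨i, -, rfl⟩ := ha
    have := hc i
    positivity
  have hA : area M * S = N * N := by
    have : area M = ∑ i, (N / C * c i) * (N / C * c i) := by
      rw [area, hM, Multiset.map_map]; rfl
    rw [this, ← hCC, ← mul_one ((N : ℝ) * N), ← hs, Finset.sum_mul, Finset.mul_sum]
    refine Finset.sum_congr rfl fun i _ => ?_
    field_simp
  have hA0 := area_nonneg M
  have hh : hd (M.sort (· ≥ ·)) ≤ N := by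
    have h1 := area_hd (M.sort (· ≥ ·))
    rw [Multiset.sort_eq] at h1
    have h2 := area_nonneg ((M.sort (· ≥ ·)).tail : Multiset ℝ)
    by_contra hc
    push Not at hc
    nlinarith
  have HG := H _ hD (satLo_zero K _ hD) (satHi_rep K _ hD hh)
    (by rw [Multiset.sort_eq]; by_contra hc; push Not at hc; nlinarith)
  rw [Multiset.sort_eq] at HG
  have HG' := (HG.smul (k := C / N) (by positivity)).pl c (Finset.univ : Finset (Fin n)).val 0 0
    (by rw [hM, Multiset.map_map]; refine Multiset.map_congr rfl fun i _ => ?_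
        simp only [Function.comp]; field_simp)
  obtain ⟨g, h1, h2⟩ := HG'
  have key : ∀ i, ((ψ i).symm.trans (g i)) '' f i = g i '' (c i • F) := fun i => by
    rw [hψ i, Set.image_image]
    exact Set.image_congr fun x _ => by simp
  refine ⟨C • F, ?_, by rw [vol C hC0.le, hCC], fun i => (ψ i).symm.trans (g i), ?_, ?_⟩
  · refine ⟨{ (Homeomorph.smulOfNeZero C hC0.ne').toEquiv with edist_eq' := ?_ }, rfl⟩
    refine ⟨‖C‖₊, by simpa using hC0.ne', fun x y => ?_⟩
    exact edist_smul₀ C x y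
  · intro i
    rw [key]
    refine (h1 i (Finset.mem_univ i)).trans ?_
    rintro u ⟨⟨a1, a2⟩, a3, a4⟩
    refine ⟨C⁻¹ • u, ?_, smul_inv_smul₀ hC0.ne' u⟩
    have e1 : C / N * (p * N : ℕ) = C * p := by push_cast; field_simp
    have e2 : C / N * (q * N : ℕ) = C * q := by push_cast; field_simp
    rw [zero_add, e1] at a2
    rw [zero_add, e2] at a4
    simp only [hF, rect, mem_ofPred_eq, PiLp.smul_apply, smul_eq_mul, mem_Icc]
    refine ⟨⟨by positivity, ?_⟩, by positivity, ?_⟩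
    · rw [inv_mul_le_iff₀ hC0]; exact a2
    · rw [inv_mul_le_iff₀ hC0]; exact a4
  · intro i j hij
    rw [key, key]
    exact h2 i (Finset.mem_univ i) j (Finset.mem_univ j) hij

end Pool.Agent.P.MP_eb61da_co
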