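import Mathlib

/-! Guillotine packings of rectangles `p a × q a` (either orientation) and area criteria. -/

namespace Pool.Agent.P.MP_eb61da_co

open Multiset

/-- `G p q w h S`: the rectangles of sizes `p a × q a`, `a ∈ S`, each in one of the two
axis-parallel orientations, have a guillotine packing in a `w × h` rectangle. -/
inductive G (p q : ℝ) : ℝ → ℝ → Multiset ℝ → Prop
  | nil {w h : ℝ} : 0 ≤ w → 0 ≤ h → G p q w h 0
  | one {w h a : ℝ} : 0 ≤ a → 0 ≤ w → 0 ≤ h → p * a ≤ w → q * a ≤ h → G p q w h {a}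
  | rot {w h a : ℝ} : 0 ≤ a → 0 ≤ w → 0 ≤ h → q * a ≤ w → p * a ≤ h → G p q w h {a}
  | hc {w₁ w₂ h : ℝ} {S₁ S₂ : Multiset ℝ} : G p q w₁ h S₁ → G p q w₂ h S₂ →
      G p q (w₁ + w₂) h (S₁ + S₂)
  | vc {w h₁ h₂ : ℝ} {S₁ S₂ : Multiset ℝ} : G p q w h₁ S₁ → G p q w h₂ S₂ →
      G p q w (h₁ + h₂) (S₁ + S₂)

variable {p q w h w' h' : ℝ} {S : Multiset ℝ}

theorem G.nonneg (H : G p q w h S) : 0 ≤ w ∧ 0 ≤ h := by
  induction H with
  | nil a b => exact ⟨a, b⟩
  | one _ a b _ _ => exact ⟨a, b⟩
  | rot _ a b _ _ => exact ⟨a, b⟩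
  | hc _ _ a b => exact ⟨add_nonneg a.1 b.1, a.2⟩
  | vc _ _ a b => exact ⟨a.1, add_nonneg a.2 b.2⟩

theorem G.mono (H : G p q w h S) (hw : w ≤ w') (hh : h ≤ h') : G p q w' h' S := by
  have h0 := H.nonneg
  have H1 : G p q (w + (w' - w)) h (S + 0) := G.hc H (G.nil (by linarith) h0.2)
  have H2 : G p q (w + (w' - w)) (h + (h' - h)) (S + 0 + 0) :=
    G.vc H1 (G.nil (by linarith) (by linarith))
  simpa using H2

theorem G.swap (H : G p q w h S) : G p q h w S := by
  induction H with
  | nil a b => exact G.nil b a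
  | one a b c d e => exact G.rot a c b e d
  | rot a b c d e => exact G.one a c b e d
  | hc _ _ a b => exact G.vc a b
  | vc _ _ a b => exact G.hc a b

theorem G.scale (hp : 0 ≤ p) (hq : 0 ≤ q) (H : G 1 1 w h S) : G p q (p * w) (q * h) S := by
  induction H with
  | nil a b => exact G.nil (mul_nonneg hp a) (mul_nonneg hq b)
  | one a b c d e =>
    exact G.one a (mul_nonneg hp b) (mul_nonneg hq c) (by nlinarith) (by nlinarith)
  | rot a b c d e =>
    exact G.one a (mul_nonneg hp b) (mul_nonneg hq c) (by nlinarith) (by nlinarith)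
  | hc _ _ a b => rw [mul_add]; exact G.hc a b
  | vc _ _ a b => rw [mul_add]; exact G.vc a b

theorem G.le_of_mem (H : G 1 1 w h S) : ∀ a ∈ S, a ≤ w ∧ a ≤ h := by
  induction H with
  | nil a b => simp
  | one a b c d e => intro x hx; rw [mem_singleton.1 hx]; constructor <;> linarith
  | rot a b c d e => intro x hx; rw [mem_singleton.1 hx]; constructor <;> linarith
  | hc H1 H2 a b =>
    intro x hx
    have := H1.nonneg; have := H2.nonneg
    rcases mem_add.1 hx with hx | hx
    · have := a x hx; constructor <;> linarith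
    · have := b x hx; constructor <;> linarith
  | vc H1 H2 a b =>
    intro x hx
    have := H1.nonneg; have := H2.nonneg
    rcases mem_add.1 hx with hx | hx
    · have := a x hx; constructor <;> linarith
    · have := b x hx; constructor <;> linarith

/-- total of the squares -/
noncomputable def area (S : Multiset ℝ) : ℝ := (S.map fun a => a * a).sum

@[simp] theorem area_zero : area 0 = 0 := by simp [area]
@[simp] theorem area_cons (a : ℝ) (S : Multiset ℝ) : area (a ::ₘ S) = a * a + area S := by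
  simp [area]
@[simp] theorem area_add (S T : Multiset ℝ) : area (S + T) = area S + area T := by simp [area]

theorem area_nonneg (S : Multiset ℝ) : 0 ≤ area S := by
  induction S using Multiset.induction_on with
  | empty => simp
  | cons a S ih => rw [area_cons]; nlinarith [mul_self_nonneg a]

theorem area_ge_sum {z : ℝ} (hz : 0 ≤ z) (H : ∀ a ∈ S, z ≤ a) : z * S.sum ≤ area S := by
  induction S using Multiset.induction_on with
  | empty => simp
  | cons a S ih =>
    have h1 := H a (mem_cons_self _ _)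
    have h2 := ih fun b hb => H b (mem_cons_of_mem hb)
    rw [area_cons, sum_cons]; nlinarith

theorem area_ge_card {z : ℝ} (hz : 0 ≤ z) (H : ∀ a ∈ S, z ≤ a) :
    (card S : ℝ) * (z * z) ≤ area S := by
  induction S using Multiset.induction_on with
  | empty => simp
  | cons a S ih =>
    have h1 := H a (mem_cons_self _ _)
    have h2 := ih fun b hb => H b (mem_cons_of_mem hb)
    rw [area_cons, card_cons]; push_cast; nlinarith

theorem sum_le_card {x : ℝ} (H : ∀ a ∈ S, a ≤ x) : S.sum ≤ (card S : ℝ) * x := by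
  induction S using Multiset.induction_on with
  | empty => simp
  | cons a S ih =>
    have h1 := H a (mem_cons_self _ _)
    have h2 := ih fun b hb => H b (mem_cons_of_mem hb)
    rw [sum_cons, card_cons]; push_cast; nlinarith

section FF
variable {β : Type} (P : β → Multiset ℝ → Prop)

/-- the multiset can be distributed over the bins -/
def Packs : List β → Multiset ℝ → Prop
  | [], M => M = 0
  | b :: bs, M => ∃ S R, M = S + R ∧ P b S ∧ Packs bs R

/-- a distribution over the bins in which every bin refuses `z` -/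
def Ref (z : ℝ) : List β → Multiset ℝ → Prop
  | [], M => M = 0
  | b :: bs, M => ∃ S R, M = S + R ∧ P b S ∧ ¬ P b (z ::ₘ S) ∧ Ref z bs R

theorem packs_step (z : ℝ) : ∀ (bs : List β) (M : Multiset ℝ), Packs P bs M →
    Packs P bs (z ::ₘ M) ∨ Ref P z bs M
  | [], _, H => Or.inr H
  | b :: bs, M, ⟨S, R, e, h1, h2⟩ => by
    by_cases hz : P b (z ::ₘ S)
    · exact Or.inl ⟨z ::ₘ S, R, by rw [e, cons_add], hz, h2⟩
    · rcases packs_step z bs R h2 with h | h
      · exact Or.inl ⟨S, z ::ₘ R, by rw [e, add_cons], h1, h⟩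
      · exact Or.inr ⟨S, R, e, h1, hz, h⟩

theorem packs_zero : ∀ (bs : List β), (∀ b ∈ bs, P b 0) → Packs P bs 0
  | [], _ => rfl
  | b :: bs, H => ⟨0, 0, by simp, H b (by simp), packs_zero bs fun c hc => H c (by simp [hc])⟩

theorem exists_min (M : Multiset ℝ) (hM : M ≠ 0) : ∃ m M', M = m ::ₘ M' ∧ ∀ a ∈ M', m ≤ a := by
  obtain ⟨m, hm, h⟩ := M.toFinset.exists_min_image id (toFinset_nonempty.2 hM)
  obtain ⟨M', rfl⟩ := exists_cons_of_mem (mem_toFinset.1 hm)
  exact ⟨m, M', rfl, fun a ha => h a (mem_toFinset.2 (mem_cons_of_mem ha))⟩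

theorem exists_max (M : Multiset ℝ) (hM : M ≠ 0) : ∃ m M', M = m ::ₘ M' ∧ ∀ a ∈ M', a ≤ m := by
  obtain ⟨m, hm, h⟩ := M.toFinset.exists_max_image id (toFinset_nonempty.2 hM)
  obtain ⟨M', rfl⟩ := exists_cons_of_mem (mem_toFinset.1 hm)
  exact ⟨m, M', rfl, fun a ha => h a (mem_toFinset.2 (mem_cons_of_mem ha))⟩

/-- first fit decreasing -/
theorem firstFit (bs : List β) (h0 : ∀ b ∈ bs, P b 0) (M : Multiset ℝ) :
    Packs P bs M ∨ ∃ z A B, M = z ::ₘ (A + B) ∧ Ref P z bs A ∧ (∀ a ∈ A, z ≤ a) ∧
      ∀ b ∈ B, b ≤ z := by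
  induction hn : card M using Nat.strong_induction_on generalizing M with
  | _ n ih =>
    by_cases hM : M = 0
    · subst hM; exact Or.inl (packs_zero P bs h0)
    obtain ⟨m, M', rfl, hm⟩ := exists_min M hM
    rcases ih (card M') (by rw [← hn, card_cons]; omega) M' rfl with h | ⟨z, A, B, e, h1, h2, h3⟩
    · rcases packs_step P m bs M' h with h | h
      · exact Or.inl h
      · exact Or.inr ⟨m, M', 0, by simp, h, hm, by simp⟩
    · refine Or.inr ⟨z, A, m ::ₘ B, by rw [e, add_cons, cons_swap], h1, h2, ?_⟩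
      intro b hb
      rcases mem_cons.1 hb with rfl | hb
      · exact hm z (by rw [e]; exact mem_cons_self _ _)
      · exact h3 b hb

end FF

theorem row_G {U x : ℝ} (hx : 0 ≤ x) (H : ∀ a ∈ S, 0 ≤ a ∧ a ≤ x) (hs : S.sum ≤ U) :
    G 1 1 U x S := by
  induction S using Multiset.induction_on generalizing U with
  | empty => exact G.nil (by simpa using hs) hx
  | cons a S ih =>
    have h1 := H a (mem_cons_self _ _)
    rw [sum_cons] at hs
    have h2 := ih (U := U - a) (fun b hb => H b (mem_cons_of_mem hb)) (by linarith)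
    have h3 : G 1 1 a x {a} := G.one h1.1 h1.1 hx (by linarith) (by linarith)
    have := G.hc h3 h2
    simpa using this

/-- the Meir–Moser criterion, in the form used for the induction on rows -/
theorem meirMoser_aux {U x : ℝ} (hxU : x ≤ U) (M : Multiset ℝ) : ∀ (V h : ℝ), 0 ≤ h → h ≤ x →
    h ≤ V → (∀ a ∈ M, 0 ≤ a ∧ a ≤ h) → area M ≤ (U - x) * (V - h) → G 1 1 U V (h ::ₘ M) := by
  induction hn : card M using Nat.strong_induction_on generalizing M with
  | _ n ih =>
    intro V h h0 hx hV hM hA
    rcases firstFit (fun (_ : Unit) (S : Multiset ℝ) => S.sum ≤ U - h) [()]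
      (by intro _ _; simp; linarith) M with ⟨S, R, e, h1, h2⟩ | ⟨z, A, B, e, ⟨S, R, e', h1, h2, h3⟩, h4, h5⟩
    · have hR : R = 0 := h2
      subst hR
      rw [add_zero] at e; subst e
      refine (row_G (x := h) h0 ?_ ?_).mono le_rfl hV
      · intro a ha
        rcases mem_cons.1 ha with rfl | ha
        · exact ⟨h0, le_rfl⟩
        · exact hM a ha
      · rw [sum_cons]; linarith
    · have hR : R = 0 := h3
      subst hR
      rw [add_zero] at e'; subst e'
      simp only [sum_cons, not_le] at h2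
      have hz := hM z (by rw [e]; exact mem_cons_self _ _)
      have hz0 : 0 < z := by linarith
      have hAz := area_ge_sum hz.1 h4
      have hB0 := area_nonneg B
      rw [e, area_cons, area_add] at hA
      have key : area B < (U - x) * (V - h - z) := by nlinarith
      have hV' : z ≤ V - h := by
        by_contra hc
        push Not at hc
        nlinarith
      have hrow : G 1 1 U h (h ::ₘ A) := by
        refine row_G h0 ?_ (by rw [sum_cons]; linarith)
        intro a ha
        rcases mem_cons.1 ha with rfl | ha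
        · exact ⟨h0, le_rfl⟩
        · exact hM a (by rw [e]; exact mem_cons_of_mem (mem_add.2 (Or.inl ha)))
      have hrest : G 1 1 U (V - h) (z ::ₘ B) := by
        refine ih (card B) (by rw [← hn, e, card_cons, card_add]; omega) B rfl (V - h) z hz.1
          (by linarith) hV' ?_ key.le
        intro a ha
        exact ⟨(hM a (by rw [e]; exact mem_cons_of_mem (mem_add.2 (Or.inr ha)))).1, h5 a ha⟩
      have := G.vc hrow hrest
      have e1 : h + (V - h) = V := by ring
      have e2 : (h ::ₘ A) + (z ::ₘ B) = h ::ₘ M := by rw [e, cons_add, add_cons]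
      rwa [e1, e2] at this

theorem meirMoser {U V h : ℝ} {M : Multiset ℝ} (h0 : 0 ≤ h) (hU : h ≤ U) (hV : h ≤ V)
    (hM : ∀ a ∈ M, 0 ≤ a ∧ a ≤ h) (hA : area M ≤ (U - h) * (V - h)) : G 1 1 U V (h ::ₘ M) :=
  meirMoser_aux hU M V h h0 le_rfl hV hM hA

/-- squares of total area at most half of the rectangle -/
theorem half (M : Multiset ℝ) : ∀ U V : ℝ, 0 ≤ U → 0 ≤ V → (∀ a ∈ M, 0 ≤ a ∧ a ≤ U ∧ a ≤ V) →
    area M ≤ U * V / 2 → G 1 1 U V M := by
  induction hn : card M using Nat.strong_induction_on generalizing M with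
  | _ n ih =>
    intro U V hU hV hM hA
    by_cases h0 : M = 0
    · subst h0; exact G.nil hU hV
    obtain ⟨h, M', rfl, hm⟩ := exists_max M h0
    have hh := hM h (mem_cons_self _ _)
    have hM' : ∀ a ∈ M', 0 ≤ a ∧ a ≤ h := fun a ha => ⟨(hM a (mem_cons_of_mem ha)).1, hm a ha⟩
    rw [area_cons] at hA
    by_cases hc : 0 ≤ (2 * h - U) * (2 * h - V)
    · exact meirMoser hh.1 hh.2.1 hh.2.2 hM' (by nlinarith)
    push Not at hc
    rcases mul_neg_iff.1 hc with ⟨h1, h2⟩ | ⟨h1, h2⟩
    · have H1 : G 1 1 U h {h} := G.one hh.1 hU hh.1 (by linarith) (by linarith)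
      have H2 : G 1 1 U (V - h) M' := by
        refine ih (card M') (by rw [← hn, card_cons]; omega) M' rfl U (V - h) hU (by linarith) ?_
          (by nlinarith)
        intro a ha
        have := hM' a ha
        exact ⟨this.1, by linarith, by linarith⟩
      have := G.vc H1 H2
      simpa using this
    · have H1 : G 1 1 h V {h} := G.one hh.1 hh.1 hV (by linarith) (by linarith)
      have H2 : G 1 1 (U - h) V M' := by
        refine ih (card M') (by rw [← hn, card_cons]; omega) M' rfl (U - h) V (by linarith) hV ?_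
          (by nlinarith)
        intro a ha
        have := hM' a ha
        exact ⟨this.1, by linarith, by linarith⟩
      have := G.hc H1 H2
      simpa using this

theorem strips_G {U x : ℝ} (hU : 0 ≤ U) (hx : 0 ≤ x) : ∀ (n : ℕ) (M : Multiset ℝ),
    (∀ a ∈ M, 0 ≤ a ∧ a ≤ x) →
    Packs (fun (_ : Unit) (S : Multiset ℝ) => S.sum ≤ U) (List.replicate n ()) M →
    G 1 1 U (n * x) M
  | 0, M, _, H => by
    have : M = 0 := H
    subst this
    exact G.nil hU (by simp)
  | n + 1, M, hM, ⟨S, R, e, h1, h2⟩ => by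
    subst e
    have H1 := row_G hx (fun a ha => hM a (mem_add.2 (Or.inl ha))) h1
    have H2 := strips_G hU hx n R (fun a ha => hM a (mem_add.2 (Or.inr ha))) h2
    have := G.vc H1 H2
    have e1 : x + n * x = ((n + 1 : ℕ) : ℝ) * x := by push_cast; ring
    rwa [e1] at this

theorem strips_area {U z r : ℝ} {Q : ℝ → Prop}
    (hr : ∀ S : Multiset ℝ, (∀ a ∈ S, Q a) → U < z + S.sum → r ≤ area S) :
    ∀ (n : ℕ) (A : Multiset ℝ), (∀ a ∈ A, Q a) →
    Ref (fun (_ : Unit) (S : Multiset ℝ) => S.sum ≤ U) z (List.replicate n ()) A →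
    n * r ≤ area A
  | 0, A, _, _ => by simpa using area_nonneg A
  | n + 1, A, hA, ⟨S, R, e, _, h2, h3⟩ => by
    subst e
    simp only [sum_cons, not_le] at h2
    have H1 := hr S (fun a ha => hA a (mem_add.2 (Or.inl ha))) h2
    have H2 := strips_area hr n R (fun a ha => hA a (mem_add.2 (Or.inr ha))) h3
    rw [area_add]; push_cast; linarith

/-- the bound obtained from `n` horizontal strips of height `x` -/
theorem rows_bound {U V x l z : ℝ} {n m : ℕ} (hl : 0 ≤ l) (hlz : l ≤ z) (hx : z ≤ x) (hxU : x ≤ U)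
    (hn : n * x ≤ V) (hm : m * x ≤ U) (hS : ∀ a ∈ S, z ≤ a ∧ a ≤ x)
    (H : ¬ G 1 1 U V (z ::ₘ S)) : n * max (m * (l * l)) (l * (U - l)) ≤ area S := by
  have hM : ∀ a ∈ z ::ₘ S, z ≤ a ∧ a ≤ x := by
    intro a ha
    rcases mem_cons.1 ha with rfl | ha
    · exact ⟨le_rfl, hx⟩
    · exact hS a ha
  rcases firstFit (fun (_ : Unit) (S : Multiset ℝ) => S.sum ≤ U) (List.replicate n ())
      (by intro _ _; simp; linarith) (z ::ₘ S) with h | ⟨y, A, B, e, h1, h2, h3⟩
  · exact absurd ((strips_G (by linarith) (by linarith) n _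
      (fun a ha => ⟨by linarith [(hM a ha).1], (hM a ha).2⟩) h).mono le_rfl hn) H
  have hy := hM y (by rw [e]; exact mem_cons_self _ _)
  have hA : n * max (m * (l * l)) (l * (U - l)) ≤ area A := by
    refine strips_area (Q := fun a => y ≤ a ∧ a ≤ x) ?_ n A ?_ h1
    · intro T hT hU
      have c1 := sum_le_card (fun a ha => (hT a ha).2)
      have c2 := area_ge_card hl (fun a ha => (hlz.trans hy.1).trans (hT a ha).1)
      have c3 := area_ge_sum (hl.trans (hlz.trans hy.1)) (fun a ha => (hT a ha).1)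
      have c4 := area_ge_card (hl.trans (hlz.trans hy.1)) (fun a ha => (hT a ha).1)
      refine max_le ?_ ?_
      · have hx0 : 0 ≤ x := by linarith
        have : (m : ℝ) < card T + 1 := by
          by_contra hc
          push Not at hc
          nlinarith
        have : m < card T + 1 := by exact_mod_cast this
        have : (m : ℝ) ≤ card T := by exact_mod_cast Nat.lt_succ_iff.1 this
        nlinarith [mul_self_nonneg l]
      · by_cases hc : y ≤ U - l
        · nlinarith [mul_nonneg (sub_nonneg.2 (hlz.trans hy.1)) (sub_nonneg.2 hc)]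
        · push Not at hc
          have hT0 : T ≠ 0 := by
            rintro rfl
            simp at hU; linarith
          have : 1 ≤ card T := card_pos.2 hT0
          have : (1 : ℝ) ≤ card T := by exact_mod_cast this
          nlinarith [mul_self_nonneg y]
    · intro a ha
      exact ⟨h2 a ha, (hM a (by rw [e]; exact mem_cons_of_mem (mem_add.2 (Or.inl ha)))).2⟩
  have e2 := congrArg area e
  rw [area_cons, area_cons, area_add] at e2
  have := area_nonneg B
  nlinarith

end Pool.Agent.P.MP_eb61da_co
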