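/-! The checker for the extremal rectangle (plain computation on natural numbers). -/

namespace Pool.Agent.P.MP_eb61da_co.RX

noncomputable def frc {α : Type} (n : Nat) (k : Nat → α) : α :=
  Nat.rec (motive := fun _ => α) (k 0) (fun m _ => k (Nat.succ m)) n

def cO : Nat := nat_lit 0x10001000100010001000100010001000100010001000100010001000100010001000100010001000100010001000100010001000100010001000100010001000100010001000100010001000100010001000100010001000100010001000100010001000100010001000100010001000100010001000100010001000100010001000100010001000100010001000100010001000100010001000100010001000100010001000100010001000100010001000100010001000100010001000100010001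
def cH : Nat := nat_lit 0x80008000800080008000800080008000800080008000800080008000800080008000800080008000800080008000800080008000800080008000800080008000800080008000800080008000800080008000800080008000800080008000800080008000800080008000800080008000800080008000800080008000800080008000800080008000800080008000800080008000800080008000800080008000800080008000800080008000800080008000800080008000800080008000800080008000
def cF : Nat := nat_lit 0x3fff3fff3fff3fff3fff3fff3fff3fff3fff3fff3fff3fff3fff3fff3fff3fff3fff3fff3fff3fff3fff3fff3fff3fff3fff3fff3fff3fff3fff3fff3fff3fff3fff3fff3fff3fff3fff3fff3fff3fff3fff3fff3fff3fff3fff3fff3fff3fff3fff3fff3fff3fff3fff3fff3fff3fff3fff3fff3fff3fff3fff3fff3fff3fff3fff3fff3fff3fff3fff3fff3fff3fff3fff3fff3fff3fff3fff3fff3fff3fff3fff3fff3fff3fff3fff3fff3fff3fff3fff3fff3fff3fff3fff3fff3fff3fff3fff3fff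
def cL : Nat := nat_lit 0x27d927102649258424c124002341228421c9211020591fa41ef11e401d911ce41c391b901ae91a4419a11900186117c41729169015f9156414d1144013b113241299121011891104108110000f810f040e890e100d990d240cb10c400bd10b640af90a900a2909c40961090008a1084407e90790073906e40691064005f105a40559051004c904840441040003c103840349031002d902a402710240021101e401b90190016901440121010000e100c400a9009000790064005100400031002400190000
def cU : Nat := nat_lit 0x28a427d927102649258424c124002341228421c9211020591fa41ef11e401d911ce41c391b901ae91a4419a11900186117c41729169015f9156414d1144013b113241299121011891104108110000f810f040e890e100d990d240cb10c400bd10b640af90a900a2909c40961090008a1084407e90790073906e40691064005f105a40559051004c904840441040003c103840349031002d902a402710240021101e401b90190016901440121010000e100c400a900900079006400510040003100240019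
def cP : Nat := nat_lit 0x100000000000000000000000000000000000000000000000000000000000000000000000000000000000000000000000000000000000000000000000000000000000000000000000000000000000000000000000000000000000000000000000000000000000000000000000000000000000000000000000000000000000000000000000000000000000000000000000000000000000000000000000000000000000000000000000000000000000000000000000000000000000000000000000000000000

def pw (i : Nat) : Nat := Nat.shiftLeft (nat_lit 1) (Nat.mul (nat_lit 16) i)
noncomputable def lo (c : Nat) : Nat := @Bool.rec (fun _ => Nat) (Nat.add c (nat_lit 4)) (nat_lit 0) (Nat.beq c (nat_lit 0))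
def lu (u : Nat) : Nat := Nat.div (Nat.add (Nat.mul (nat_lit 11957) u) (nat_lit 9999)) (nat_lit 10000)
def ll (u : Nat) : Nat := Nat.div (Nat.mul (nat_lit 11956) u) (nat_lit 10000)

noncomputable def nofit (w k c : Nat) : Bool :=
  @Bool.rec (fun _ => Bool) (@Bool.rec (fun _ => Bool) false (Nat.ble (Nat.mul (nat_lit 10000) w) (Nat.mul (nat_lit 11956) (lo c))) (Nat.ble k w)) true
    (Nat.ble k (lo c))

def tsa (d : Nat) : Nat := Nat.land d (Nat.mul (Nat.shiftRight (Nat.land d cH) (nat_lit 15)) (nat_lit 32767))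
def tsub (a b : Nat) : Nat := tsa (Nat.sub (Nat.add a cH) b)

/-- the lanes of `a` are at most those of `b` -/
def leq (a b : Nat) : Bool := Nat.beq (Nat.land (Nat.sub (Nat.add b cH) a) cH) cH

inductive Tb
  | l (r : List Nat) : Tb
  | n (p : Nat) (a b : Tb) : Tb

noncomputable def look (t : Tb) (c : Nat) : List Nat :=
  Tb.rec (motive := fun _ => List Nat) (fun r => r)
    (fun p _ _ f g => @Bool.rec (fun _ => List Nat) f g (Nat.ble p c)) t

noncomputable def tab (t : Tb) (w k : Nat) : List Nat :=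
  @Bool.rec (fun _ => List Nat) [] (frc (Nat.add (Nat.mul (nat_lit 128) w) k) fun c =>
    @Bool.rec (fun _ => List Nat) [] (look t c) (Nat.ble c (nat_lit 18431))) (Nat.ble k (nat_lit 127))

noncomputable def drp (n : Nat) : List Nat → List Nat :=
  Nat.rec (motive := fun _ => List Nat → List Nat) (fun l => l)
    (fun _ f l => List.rec (motive := fun _ => List Nat) [] (fun _ t _ => f t) l) n

def vmin (a b : Nat) : Nat := Nat.sub a (tsub a b)

noncomputable def abL (w k x : Nat) (n : Nat) : List Nat → Nat → Nat → Nat :=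
  Nat.rec (motive := fun _ => List Nat → Nat → Nat → Nat) (fun _ _ A => A)
    (fun m f r P A => List.rec (motive := fun _ => Nat) (@Bool.rec (fun _ => Nat) (nat_lit 0) A (nofit w k (Nat.sub x m)))
      (fun D r _ => f r (Nat.shiftLeft P (nat_lit 16)) (vmin (Nat.add A P) D)) r) n

noncomputable def abar (t : Tb) (w k x y0 : Nat) : Nat :=
  abL w k x (Nat.sub (Nat.succ x) y0) (drp y0 (tab t w k)) (Nat.mul (nat_lit 16383) (pw y0)) (nat_lit 0)

def glS (T U E a M : Nat) : Bool :=
  Nat.beq (Nat.land (Nat.lor (Nat.sub E U) (Nat.sub (Nat.add E (Nat.mul a cO)) T)) M) M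

noncomputable def glL (w k x T U : Nat) (n : Nat) : List Nat → Nat → Nat → Nat → Bool :=
  Nat.rec (motive := fun _ => List Nat → Nat → Nat → Nat → Bool) (fun _ _ _ _ => true)
    (fun m f r P M A => List.rec (motive := fun _ => Bool)
      (@Bool.rec (fun _ => Bool) false (Nat.ble (Nat.succ (Nat.mod U (pw (Nat.succ x)))) (pw (Nat.sub x m)))
        (nofit w k (Nat.sub x m)))
      (fun D r _ => @Bool.rec (fun _ => Bool) false (f r (Nat.shiftLeft P (nat_lit 16)) (Nat.add M P) (Nat.shiftRight A (nat_lit 16)))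
        (glS T U (Nat.add D cH) (Nat.land A (nat_lit 65535)) (Nat.add M P))) r) n

noncomputable def exL (t : Tb) (x y0 : Nat) (ex : List (Nat × Nat)) : Nat → Nat → Nat :=
  List.rec (motive := fun _ => Nat → Nat → Nat) (fun _ T => T)
    (fun b _ f c T => f (Nat.shiftRight c (nat_lit 1))
      (@Bool.rec (fun _ => Nat) (tsub T (abar t b.1 b.2 x y0)) T (Nat.beq (Nat.land c (nat_lit 1)) (nat_lit 0)))) ex

noncomputable def core3 (t : Tb) (qa qb x y0 T A : Nat) : Bool :=
  glL qa qb x T (tsub T A) (Nat.sub (Nat.succ x) y0) (drp y0 (tab t qa qb))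
    (Nat.mul (nat_lit 32768) (pw y0)) (nat_lit 0) (Nat.shiftRight A (Nat.mul (nat_lit 16) y0))

def vmax (a b : Nat) : Nat := Nat.add b (tsub a b)

noncomputable def pmL (n : Nat) : Nat → Nat → Nat :=
  Nat.rec (motive := fun _ => Nat → Nat → Nat) (fun P _ => P)
    (fun _ f P s => f (vmax P (Nat.mod (Nat.shiftLeft P s) cP)) (Nat.add s s)) n

noncomputable def core2 (t : Tb) (ex : List (Nat × Nat)) (c pa pb qa qb x y0 R P l2 : Nat) :
    Bool :=
  @Bool.rec (fun _ => Bool) false (@Bool.rec (fun _ => Bool) false (@Bool.rec (fun _ => Bool) false (@Bool.rec (fun _ => Bool) false (@Bool.rec (fun _ => Bool) false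
    (core3 t qa qb x y0
      (exL t x y0 ex c (tsub (vmax R (tsub P cL)) (Nat.mul l2 cO)))
      (abar t pa pb x y0))
    (leq (Nat.mod (Nat.shiftLeft P (nat_lit 16)) (pw (Nat.succ x))) P))
    (leq (Nat.mod (Nat.shiftLeft R (nat_lit 16)) (pw (Nat.succ x))) P))
    (Nat.beq (Nat.land P cF) P)) (Nat.ble l2 (nat_lit 16383))) (Nat.ble x (nat_lit 97))

noncomputable def core (t : Tb) (ex : List (Nat × Nat)) (c pa pb qa qb x y0 R m l2 : Nat) :
    Bool :=
  core2 t ex c pa pb qa qb x y0 R (pmL m (Nat.mod (Nat.shiftLeft R (nat_lit 16)) cP) (nat_lit 16)) l2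

noncomputable def mx (a b : Nat) : Nat := @Bool.rec (fun _ => Nat) a b (Nat.ble a b)
noncomputable def mn (a b : Nat) : Nat := @Bool.rec (fun _ => Nat) b a (Nat.ble a b)

noncomputable def cut2 (w k iw ih c : Nat) (f : Nat → Nat → Nat → Nat → Bool) : Bool :=
  @Bool.rec (fun _ => Bool) false (@Bool.rec (fun _ => Bool) false
    (@Bool.rec (fun _ => Bool) (f (mx (Nat.sub w iw) ih) (mn (Nat.sub w iw) ih) (mx w (Nat.sub k ih))
        (mn w (Nat.sub k ih)))
      (f (mx (Nat.sub w iw) k) (mn (Nat.sub w iw) k) (mx iw (Nat.sub k ih))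
        (mn iw (Nat.sub k ih))) (Nat.beq c (nat_lit 0)))
    (Nat.ble ih k)) (Nat.ble iw w)

/-- put an item in the corner of a bin and cut -/
noncomputable def cut (w k U o c : Nat) (f : Nat → Nat → Nat → Nat → Bool) : Bool :=
  @Bool.rec (fun _ => Bool) (cut2 w k U (lu U) c f) (cut2 w k (lu U) U c f) (Nat.beq o (nat_lit 0))

noncomputable def rv3 (U d s v : Nat) : Nat :=
  @Bool.rec (fun _ => Nat) v (mn v (Nat.div (Nat.mul d d) (Nat.mul (nat_lit 256) s))) (Nat.ble d (Nat.mul (Nat.mul (nat_lit 16) s) U))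

noncomputable def rv2 (U l d s : Nat) : Nat :=
  @Bool.rec (fun _ => Nat) (rv3 U d s (Nat.mul (Nat.mul (Nat.succ s) l) l)) (nat_lit 0) (Nat.beq (Nat.mul d l) (nat_lit 0))

noncomputable def rv1 (U l d : Nat) : Nat := rv2 U l d (Nat.div d (Nat.mul (nat_lit 16) l))

noncomputable def rowL (C U l2 : Nat) (n : Nat) : Nat → Nat → Bool :=
  Nat.rec (motive := fun _ => Nat → Nat → Bool) (fun _ _ => true)
    (fun _ f y R => @Bool.rec (fun _ => Bool) false (f (Nat.succ y) (Nat.shiftRight R (nat_lit 16)))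
      (Nat.ble (Nat.land R (nat_lit 65535))
        (Nat.add l2 (rv1 U (lo y) (Nat.sub C (Nat.mul (nat_lit 16) (Nat.add U (Nat.add y (nat_lit 5))))))))) n

noncomputable def sqa (w o : Nat) : Nat :=
  @Bool.rec (fun _ => Nat) (Nat.mul (nat_lit 16) w) (Nat.div (Nat.mul (nat_lit 160000) w) (nat_lit 11957)) (Nat.beq o (nat_lit 0))

noncomputable def mmS (R l2 s : Nat) : Bool :=
  @Bool.rec (fun _ => Bool) false (leq R (Nat.add (Nat.mul s cO) (tsub (Nat.mul l2 cO) cU))) (Nat.ble s (nat_lit 16383))

noncomputable def sqS (U l2 R y0 y1 ty a b V : Nat) : Bool :=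
  @Bool.rec (fun _ => Bool) false (@Bool.rec (fun _ => Bool) false
    (@Bool.rec (fun _ => Bool) (mmS R l2 (Nat.div (Nat.mul (Nat.sub a V) (Nat.sub b V)) (nat_lit 256)))
      (rowL (mx a b) U l2 (Nat.sub (Nat.succ y1) y0) y0 (Nat.shiftRight R (Nat.mul (nat_lit 16) y0)))
      (Nat.ble (nat_lit 4) ty))
    (Nat.ble V b)) (Nat.ble V a)

noncomputable def strat (t : Tb) (w k h U l2 R y0 y1 ty m : Nat) : Bool :=
  @Bool.rec (fun _ => Bool) (@Bool.rec (fun _ => Bool) (sqS U l2 R y0 y1 ty (sqa w (Nat.land ty (nat_lit 1))) (sqa k (Nat.sub (nat_lit 1) (Nat.land ty (nat_lit 1))))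
        (Nat.mul (nat_lit 16) U))
      (@Bool.rec (fun _ => Bool) false (leq R (Nat.mul l2 cO)) (Nat.ble (Nat.succ y1) h)) (Nat.ble ty (nat_lit 1)))
    (cut w k U (Nat.land (Nat.shiftRight ty (nat_lit 2)) (nat_lit 1)) (Nat.land (Nat.shiftRight ty (nat_lit 1)) (nat_lit 1))
      fun a1 a2 b1 b2 => @Bool.rec (fun _ => Bool) (core t [] (nat_lit 0) b1 b2 a1 a2 h y0 R m l2)
        (core t [] (nat_lit 0) a1 a2 b1 b2 h y0 R m l2) (Nat.beq (Nat.land ty (nat_lit 1)) (nat_lit 0)))
    (Nat.ble (nat_lit 8) ty)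

/-- the lanes from `y0` to `y1` -/
def seg (R y0 y1 : Nat) : Nat := Nat.sub (Nat.mod R (pw (Nat.succ y1))) (Nat.mod R (pw y0))

noncomputable def strL (t : Tb) (w k h U l2 : Nat) (n : Nat) : Nat → Nat → Bool :=
  Nat.rec (motive := fun _ => Nat → Nat → Bool) (fun R _ => Nat.beq R (nat_lit 0))
    (fun _ f R c => frc (Nat.land c (nat_lit 127)) fun y0 =>
      frc (Nat.land (Nat.shiftRight c (nat_lit 7)) (nat_lit 127)) fun y1 =>
      @Bool.rec (fun _ => Bool) false (f (Nat.sub R (seg R y0 y1)) (Nat.shiftRight c (nat_lit 21)))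
        (strat t w k h U l2 (seg R y0 y1) y0 y1 (Nat.land (Nat.shiftRight c (nat_lit 14)) (nat_lit 15))
          (Nat.land (Nat.shiftRight c (nat_lit 18)) (nat_lit 7)))) n

noncomputable def chkRow (t : Tb) (w k h R c : Nat) : Bool :=
  @Bool.rec (fun _ => Bool) false (@Bool.rec (fun _ => Bool) false (strL t w k h (Nat.add h (nat_lit 5)) (Nat.mul (lo h) (lo h)) (Nat.land c (nat_lit 127)) R
    (Nat.shiftRight c (nat_lit 7))) (Nat.beq (Nat.land R cF) R)) (Nat.ble h (nat_lit 97))

noncomputable def chkRows (t : Tb) (w k : Nat) (r : List Nat) : List Nat → Nat → Bool :=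
  List.rec (motive := fun _ => List Nat → Nat → Bool) (fun _ _ => true)
    (fun R _ f cs h => List.rec (motive := fun _ => Bool) false
      (fun c cs _ => @Bool.rec (fun _ => Bool) false (frc (Nat.succ h) (f cs)) (chkRow t w k h R c)) cs) r

noncomputable def chkKeys (t : Tb) (e : Nat) (L : List (List Nat)) : Nat → Bool :=
  List.rec (motive := fun _ => Nat → Bool) (fun a => Nat.ble e a)
    (fun cs _ f a => frc (Nat.div a (nat_lit 128)) fun w => frc (Nat.mod a (nat_lit 128)) fun k =>
      @Bool.rec (fun _ => Bool) false (frc (Nat.succ a) f) (chkRows t w k (tab t w k) cs (nat_lit 0))) L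

/-! The root tree. -/

noncomputable def pick (L : List (Nat × Nat)) :
    Nat → (Nat → Nat → List (Nat × Nat) → Bool) → Bool :=
  List.rec (motive := fun _ => Nat → (Nat → Nat → List (Nat × Nat) → Bool) → Bool)
    (fun _ _ => false)
    (fun b L f i g => @Bool.rec (fun _ => Bool) (f (Nat.sub i (nat_lit 1)) fun w k R => g w k (b :: R)) (g b.1 b.2 L)
      (Nat.beq i (nat_lit 0))) L

noncomputable def hd (L : List Nat) (d : Nat) : Nat :=
  List.rec (motive := fun _ => Nat) d (fun a _ _ => a) L

noncomputable def tl (L : List Nat) : List Nat :=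
  List.rec (motive := fun _ => List Nat) [] (fun _ t _ => t) L

noncomputable def fin (t : Tb) (y0 y1 l2 h c : Nat) (F : List (Nat × Nat)) : Bool :=
  pick F (Nat.land c (nat_lit 31)) fun pa pb F1 =>
    pick F1 (Nat.land (Nat.shiftRight c (nat_lit 5)) (nat_lit 31)) fun qa qb F2 =>
      core t F2 (Nat.shiftRight c (nat_lit 10)) pa pb qa qb (Nat.sub h (nat_lit 5)) y0
        (seg (tsub (Nat.mul (nat_lit 10294) cO) cL) y0 y1) (nat_lit 7) l2

noncomputable def plL (t : Tb) (y0 y1 : Nat) (n : Nat) :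
    List Nat → List Nat → Nat → Nat → List (Nat × Nat) → Bool :=
  Nat.rec (motive := fun _ => List Nat → List Nat → Nat → Nat → List (Nat × Nat) → Bool)
    (fun _ hi l2 c F => fin t y0 y1 l2 (hd hi (nat_lit 102)) c F)
    (fun _ f lw hi l2 c F => pick F (Nat.land (Nat.shiftRight c (nat_lit 2)) (nat_lit 31)) fun w k F1 =>
      cut w k (hd hi (nat_lit 102)) (Nat.land (Nat.shiftRight c (nat_lit 1)) (nat_lit 1)) (Nat.land c (nat_lit 1)) fun a1 a2 b1 b2 =>
        f (tl lw) (tl hi) (Nat.add l2 (Nat.mul (hd lw (nat_lit 0)) (hd lw (nat_lit 0)))) (Nat.shiftRight c (nat_lit 7))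
          ((a1, a2) :: (b1, b2) :: F1)) n

noncomputable def cn (a b : Nat) : Nat × Nat := (mx a b, mn a b)

noncomputable def leaf2 (t : Tb) (lw hi : List Nat) (y0 y1 fl st n c h1 h2 l1 l2 : Nat) : Bool :=
  @Bool.rec (fun _ => Bool) false (@Bool.rec (fun _ => Bool) false
    (@Bool.rec (fun _ => Bool) (@Bool.rec (fun _ => Bool) (@Bool.rec (fun _ => Bool)
      (@Bool.rec (fun _ => Bool) false (@Bool.rec (fun _ => Bool) false (@Bool.rec (fun _ => Bool) false
        (plL t y0 y1 n (tl lw) (tl hi)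
          (Nat.add (Nat.add (Nat.mul l1 l1) (Nat.mul l2 l2)) (Nat.mul (hd lw (nat_lit 0)) (hd lw (nat_lit 0)))) c
          [cn l1 (Nat.sub (nat_lit 120) (lu h1)),
            cn (Nat.sub (Nat.sub (nat_lit 143) h1) (lu (hd hi (nat_lit 102)))) (Nat.sub (nat_lit 120) (lu h2)),
            cn (Nat.sub (Nat.sub (nat_lit 143) h1) h2) (ll l2)])
        (Nat.ble (Nat.add h1 h2) (nat_lit 143))) (Nat.ble (Nat.add h1 (lu (hd hi (nat_lit 102)))) (nat_lit 143)))
        (Nat.beq fl (nat_lit 2)))
      (@Bool.rec (fun _ => Bool) false (plL t y0 y1 n lw hi (Nat.add (Nat.mul l1 l1) (Nat.mul l2 l2)) c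
          [cn l1 (Nat.sub (nat_lit 120) (lu h1)), cn (Nat.sub (nat_lit 143) h1) (Nat.sub (nat_lit 120) h2)])
        (Nat.beq fl (nat_lit 1))) (Nat.beq st (nat_lit 3)))
      (plL t y0 y1 n lw hi (Nat.add (Nat.mul l1 l1) (Nat.mul l2 l2)) c
        [cn (nat_lit 143) (Nat.sub (nat_lit 120) (lu h1)), cn (Nat.sub (nat_lit 143) h1) (Nat.sub (lu h1) (lu h2))])
      (Nat.beq st (nat_lit 2)))
      (plL t y0 y1 n lw hi (Nat.add (Nat.mul l1 l1) (Nat.mul l2 l2)) c
        [cn l1 (Nat.sub (nat_lit 120) (lu h1)), cn (Nat.sub (nat_lit 143) h1) (Nat.sub (nat_lit 120) (lu h2))])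
      (Nat.beq st (nat_lit 1)))
    (Nat.ble h2 h1)) (Nat.ble (lu h1) (nat_lit 120))

noncomputable def leaf (t : Tb) (lw hi : List Nat) (y0 y1 fl c : Nat) : Bool :=
  @Bool.rec (fun _ => Bool) (leaf2 t (tl (tl lw)) (tl (tl hi)) y0 y1 fl (Nat.land c (nat_lit 7))
      (Nat.land (Nat.shiftRight c (nat_lit 3)) (nat_lit 31)) (Nat.shiftRight c (nat_lit 8)) (hd hi (nat_lit 102)) (hd (tl hi) (nat_lit 102))
      (hd lw (nat_lit 0)) (hd (tl lw) (nat_lit 0)))
    (plL t y0 y1 (Nat.land (Nat.shiftRight c (nat_lit 3)) (nat_lit 31)) lw hi (nat_lit 0) (Nat.shiftRight c (nat_lit 8))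
      [((nat_lit 143), (nat_lit 120)), ((nat_lit 143), (nat_lit 0))])
    (Nat.beq (Nat.land c (nat_lit 7)) (nat_lit 0))

noncomputable def sumSq (L : List Nat) : Nat :=
  List.rec (motive := fun _ => Nat) (nat_lit 0) (fun a _ s => Nat.add (Nat.mul a a) s) L

noncomputable def capAll (c : Nat) (L : List Nat) : List Nat :=
  List.rec (motive := fun _ => List Nat) []
    (fun h L f => @Bool.rec (fun _ => List Nat) (c :: f) (h :: L) (Nat.ble h c)) L

noncomputable def capHi (c : Nat) (L : List Nat) : Nat → List Nat :=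
  List.rec (motive := fun _ => Nat → List Nat) (fun _ => [])
    (fun h L f i => @Bool.rec (fun _ => List Nat) (h :: f (Nat.sub i (nat_lit 1))) (capAll c (h :: L))
      (Nat.beq i (nat_lit 0))) L

noncomputable def raiseLo (c : Nat) (L : List Nat) : Nat → List Nat :=
  List.rec (motive := fun _ => Nat → List Nat) (fun _ => [])
    (fun l L f i => mx l c :: @Bool.rec (fun _ => List Nat) (f (Nat.sub i (nat_lit 1))) L
      (Nat.beq i (nat_lit 0))) L

/-- the root tree -/
inductive Rt
  | p : Rt
  | l (c : Nat) : Rt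
  | s (i c : Nat) (a b : Rt) : Rt
  | z (y : Nat) (a b : Rt) : Rt
  | d (a b : Rt) : Rt

noncomputable def check (t : Tb) (r : Rt) : List Nat → List Nat → Nat → Nat → Nat → Bool :=
  Rt.rec (motive := fun _ => List Nat → List Nat → Nat → Nat → Nat → Bool)
    (fun lw _ _ _ _ => Nat.ble (nat_lit 10294) (sumSq lw))
    (fun c lw hi y0 y1 fl => leaf t lw hi y0 y1 fl c)
    (fun i c _ _ f g lw hi y0 y1 fl =>
      @Bool.rec (fun _ => Bool) false (g (raiseLo c lw i) hi y0 y1 fl) (f lw (capHi c hi i) y0 y1 fl))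
    (fun y _ _ f g lw hi y0 y1 fl => @Bool.rec (fun _ => Bool) false (g lw hi (Nat.succ y) y1 fl) (f lw hi y0 y fl))
    (fun _ _ f g lw hi y0 y1 _ => @Bool.rec (fun _ => Bool) false (g lw hi y0 y1 (nat_lit 2)) (f lw hi y0 y1 (nat_lit 1))) r

end Pool.Agent.P.MP_eb61da_co.RX
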