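import Pool.Agent.P.MP_eb61da_co.RxSI
import Pool.Agent.P.MP_eb61da_co.RxK0
import Pool.Agent.P.MP_eb61da_co.RxK1
import Pool.Agent.P.MP_eb61da_co.RxK2
import Pool.Agent.P.MP_eb61da_co.RxK3
import Pool.Agent.P.MP_eb61da_co.RxK4
import Pool.Agent.P.MP_eb61da_co.RxK5
import Pool.Agent.P.MP_eb61da_co.RxK6
import Pool.Agent.P.MP_eb61da_co.RxK7
import Pool.Agent.P.MP_eb61da_co.RxK8
import Pool.Agent.P.MP_eb61da_co.RxK9
import Pool.Agent.P.MP_eb61da_co.RxK10
import Pool.Agent.P.MP_eb61da_co.RxK11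

namespace Pool.Agent.P.MP_eb61da_co.RX

set_option maxRecDepth 100000

theorem all_tb : All tb 0 18432 :=
(All.join (All.join (All.join (All.join (All.join (All.join (All.join (All.join (All.join (chkKeys_sound _ _ k0)
 (chkKeys_sound _ _ k1))
 (All.join (chkKeys_sound _ _ k2)
 (chkKeys_sound _ _ k3)))
 (All.join (All.join (chkKeys_sound _ _ k4)
 (chkKeys_sound _ _ k5))
 (All.join (chkKeys_sound _ _ k6)
 (chkKeys_sound _ _ k7))))
 (All.join (All.join (All.join (chkKeys_sound _ _ k8)
 (chkKeys_sound _ _ k9))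
 (All.join (chkKeys_sound _ _ k10)
 (chkKeys_sound _ _ k11)))
 (All.join (All.join (chkKeys_sound _ _ k12)
 (chkKeys_sound _ _ k13))
 (All.join (chkKeys_sound _ _ k14)
 (All.join (chkKeys_sound _ _ k15)
 (chkKeys_sound _ _ k16))))))
 (All.join (All.join (All.join (All.join (chkKeys_sound _ _ k17)
 (chkKeys_sound _ _ k18))
 (All.join (chkKeys_sound _ _ k19)
 (chkKeys_sound _ _ k20)))
 (All.join (All.join (chkKeys_sound _ _ k21)
 (chkKeys_sound _ _ k22))
 (All.join (chkKeys_sound _ _ k23)
 (chkKeys_sound _ _ k24))))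
 (All.join (All.join (All.join (chkKeys_sound _ _ k25)
 (chkKeys_sound _ _ k26))
 (All.join (chkKeys_sound _ _ k27)
 (chkKeys_sound _ _ k28)))
 (All.join (All.join (chkKeys_sound _ _ k29)
 (chkKeys_sound _ _ k30))
 (All.join (chkKeys_sound _ _ k31)
 (All.join (chkKeys_sound _ _ k32)
 (chkKeys_sound _ _ k33)))))))
 (All.join (All.join (All.join (All.join (All.join (chkKeys_sound _ _ k34)
 (chkKeys_sound _ _ k35))
 (All.join (chkKeys_sound _ _ k36)
 (chkKeys_sound _ _ k37)))
 (All.join (All.join (chkKeys_sound _ _ k38)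
 (chkKeys_sound _ _ k39))
 (All.join (chkKeys_sound _ _ k40)
 (chkKeys_sound _ _ k41))))
 (All.join (All.join (All.join (chkKeys_sound _ _ k42)
 (chkKeys_sound _ _ k43))
 (All.join (chkKeys_sound _ _ k44)
 (chkKeys_sound _ _ k45)))
 (All.join (All.join (chkKeys_sound _ _ k46)
 (chkKeys_sound _ _ k47))
 (All.join (chkKeys_sound _ _ k48)
 (All.join (chkKeys_sound _ _ k49)
 (chkKeys_sound _ _ k50))))))
 (All.join (All.join (All.join (All.join (chkKeys_sound _ _ k51)
 (chkKeys_sound _ _ k52))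
 (All.join (chkKeys_sound _ _ k53)
 (chkKeys_sound _ _ k54)))
 (All.join (All.join (chkKeys_sound _ _ k55)
 (chkKeys_sound _ _ k56))
 (All.join (chkKeys_sound _ _ k57)
 (All.join (chkKeys_sound _ _ k58)
 (chkKeys_sound _ _ k59)))))
 (All.join (All.join (All.join (chkKeys_sound _ _ k60)
 (chkKeys_sound _ _ k61))
 (All.join (chkKeys_sound _ _ k62)
 (chkKeys_sound _ _ k63)))
 (All.join (All.join (chkKeys_sound _ _ k64)
 (chkKeys_sound _ _ k65))
 (All.join (chkKeys_sound _ _ k66)
 (All.join (chkKeys_sound _ _ k67)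
 (chkKeys_sound _ _ k68))))))))
 (All.join (All.join (All.join (All.join (All.join (All.join (chkKeys_sound _ _ k69)
 (chkKeys_sound _ _ k70))
 (All.join (chkKeys_sound _ _ k71)
 (chkKeys_sound _ _ k72)))
 (All.join (All.join (chkKeys_sound _ _ k73)
 (chkKeys_sound _ _ k74))
 (All.join (chkKeys_sound _ _ k75)
 (chkKeys_sound _ _ k76))))
 (All.join (All.join (All.join (chkKeys_sound _ _ k77)
 (chkKeys_sound _ _ k78))
 (All.join (chkKeys_sound _ _ k79)
 (chkKeys_sound _ _ k80)))
 (All.join (All.join (chkKeys_sound _ _ k81)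
 (chkKeys_sound _ _ k82))
 (All.join (chkKeys_sound _ _ k83)
 (All.join (chkKeys_sound _ _ k84)
 (chkKeys_sound _ _ k85))))))
 (All.join (All.join (All.join (All.join (chkKeys_sound _ _ k86)
 (chkKeys_sound _ _ k87))
 (All.join (chkKeys_sound _ _ k88)
 (chkKeys_sound _ _ k89)))
 (All.join (All.join (chkKeys_sound _ _ k90)
 (chkKeys_sound _ _ k91))
 (All.join (chkKeys_sound _ _ k92)
 (All.join (chkKeys_sound _ _ k93)
 (chkKeys_sound _ _ k94)))))
 (All.join (All.join (All.join (chkKeys_sound _ _ k95)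
 (chkKeys_sound _ _ k96))
 (All.join (chkKeys_sound _ _ k97)
 (chkKeys_sound _ _ k98)))
 (All.join (All.join (chkKeys_sound _ _ k99)
 (chkKeys_sound _ _ k100))
 (All.join (chkKeys_sound _ _ k101)
 (All.join (chkKeys_sound _ _ k102)
 (chkKeys_sound _ _ k103)))))))
 (All.join (All.join (All.join (All.join (All.join (chkKeys_sound _ _ k104)
 (chkKeys_sound _ _ k105))
 (All.join (chkKeys_sound _ _ k106)
 (chkKeys_sound _ _ k107)))
 (All.join (All.join (chkKeys_sound _ _ k108)
 (chkKeys_sound _ _ k109))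
 (All.join (chkKeys_sound _ _ k110)
 (chkKeys_sound _ _ k111))))
 (All.join (All.join (All.join (chkKeys_sound _ _ k112)
 (chkKeys_sound _ _ k113))
 (All.join (chkKeys_sound _ _ k114)
 (chkKeys_sound _ _ k115)))
 (All.join (All.join (chkKeys_sound _ _ k116)
 (chkKeys_sound _ _ k117))
 (All.join (chkKeys_sound _ _ k118)
 (All.join (chkKeys_sound _ _ k119)
 (chkKeys_sound _ _ k120))))))
 (All.join (All.join (All.join (All.join (chkKeys_sound _ _ k121)
 (chkKeys_sound _ _ k122))
 (All.join (chkKeys_sound _ _ k123)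
 (chkKeys_sound _ _ k124)))
 (All.join (All.join (chkKeys_sound _ _ k125)
 (chkKeys_sound _ _ k126))
 (All.join (chkKeys_sound _ _ k127)
 (All.join (chkKeys_sound _ _ k128)
 (chkKeys_sound _ _ k129)))))
 (All.join (All.join (All.join (chkKeys_sound _ _ k130)
 (chkKeys_sound _ _ k131))
 (All.join (chkKeys_sound _ _ k132)
 (chkKeys_sound _ _ k133)))
 (All.join (All.join (chkKeys_sound _ _ k134)
 (chkKeys_sound _ _ k135))
 (All.join (chkKeys_sound _ _ k136)
 (All.join (chkKeys_sound _ _ k137)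
 (chkKeys_sound _ _ k138)))))))))
 (All.join (All.join (All.join (All.join (All.join (All.join (All.join (chkKeys_sound _ _ k139)
 (chkKeys_sound _ _ k140))
 (All.join (chkKeys_sound _ _ k141)
 (chkKeys_sound _ _ k142)))
 (All.join (All.join (chkKeys_sound _ _ k143)
 (chkKeys_sound _ _ k144))
 (All.join (chkKeys_sound _ _ k145)
 (chkKeys_sound _ _ k146))))
 (All.join (All.join (All.join (chkKeys_sound _ _ k147)
 (chkKeys_sound _ _ k148))
 (All.join (chkKeys_sound _ _ k149)
 (chkKeys_sound _ _ k150)))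
 (All.join (All.join (chkKeys_sound _ _ k151)
 (chkKeys_sound _ _ k152))
 (All.join (chkKeys_sound _ _ k153)
 (All.join (chkKeys_sound _ _ k154)
 (chkKeys_sound _ _ k155))))))
 (All.join (All.join (All.join (All.join (chkKeys_sound _ _ k156)
 (chkKeys_sound _ _ k157))
 (All.join (chkKeys_sound _ _ k158)
 (chkKeys_sound _ _ k159)))
 (All.join (All.join (chkKeys_sound _ _ k160)
 (chkKeys_sound _ _ k161))
 (All.join (chkKeys_sound _ _ k162)
 (All.join (chkKeys_sound _ _ k163)
 (chkKeys_sound _ _ k164)))))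
 (All.join (All.join (All.join (chkKeys_sound _ _ k165)
 (chkKeys_sound _ _ k166))
 (All.join (chkKeys_sound _ _ k167)
 (chkKeys_sound _ _ k168)))
 (All.join (All.join (chkKeys_sound _ _ k169)
 (chkKeys_sound _ _ k170))
 (All.join (chkKeys_sound _ _ k171)
 (All.join (chkKeys_sound _ _ k172)
 (chkKeys_sound _ _ k173)))))))
 (All.join (All.join (All.join (All.join (All.join (chkKeys_sound _ _ k174)
 (chkKeys_sound _ _ k175))
 (All.join (chkKeys_sound _ _ k176)
 (chkKeys_sound _ _ k177)))
 (All.join (All.join (chkKeys_sound _ _ k178)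
 (chkKeys_sound _ _ k179))
 (All.join (chkKeys_sound _ _ k180)
 (chkKeys_sound _ _ k181))))
 (All.join (All.join (All.join (chkKeys_sound _ _ k182)
 (chkKeys_sound _ _ k183))
 (All.join (chkKeys_sound _ _ k184)
 (chkKeys_sound _ _ k185)))
 (All.join (All.join (chkKeys_sound _ _ k186)
 (chkKeys_sound _ _ k187))
 (All.join (chkKeys_sound _ _ k188)
 (All.join (chkKeys_sound _ _ k189)
 (chkKeys_sound _ _ k190))))))
 (All.join (All.join (All.join (All.join (chkKeys_sound _ _ k191)
 (chkKeys_sound _ _ k192))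
 (All.join (chkKeys_sound _ _ k193)
 (chkKeys_sound _ _ k194)))
 (All.join (All.join (chkKeys_sound _ _ k195)
 (chkKeys_sound _ _ k196))
 (All.join (chkKeys_sound _ _ k197)
 (All.join (chkKeys_sound _ _ k198)
 (chkKeys_sound _ _ k199)))))
 (All.join (All.join (All.join (chkKeys_sound _ _ k200)
 (chkKeys_sound _ _ k201))
 (All.join (chkKeys_sound _ _ k202)
 (chkKeys_sound _ _ k203)))
 (All.join (All.join (chkKeys_sound _ _ k204)
 (chkKeys_sound _ _ k205))
 (All.join (chkKeys_sound _ _ k206)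
 (All.join (chkKeys_sound _ _ k207)
 (chkKeys_sound _ _ k208))))))))
 (All.join (All.join (All.join (All.join (All.join (All.join (chkKeys_sound _ _ k209)
 (chkKeys_sound _ _ k210))
 (All.join (chkKeys_sound _ _ k211)
 (chkKeys_sound _ _ k212)))
 (All.join (All.join (chkKeys_sound _ _ k213)
 (chkKeys_sound _ _ k214))
 (All.join (chkKeys_sound _ _ k215)
 (chkKeys_sound _ _ k216))))
 (All.join (All.join (All.join (chkKeys_sound _ _ k217)
 (chkKeys_sound _ _ k218))
 (All.join (chkKeys_sound _ _ k219)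
 (chkKeys_sound _ _ k220)))
 (All.join (All.join (chkKeys_sound _ _ k221)
 (chkKeys_sound _ _ k222))
 (All.join (chkKeys_sound _ _ k223)
 (All.join (chkKeys_sound _ _ k224)
 (chkKeys_sound _ _ k225))))))
 (All.join (All.join (All.join (All.join (chkKeys_sound _ _ k226)
 (chkKeys_sound _ _ k227))
 (All.join (chkKeys_sound _ _ k228)
 (chkKeys_sound _ _ k229)))
 (All.join (All.join (chkKeys_sound _ _ k230)
 (chkKeys_sound _ _ k231))
 (All.join (chkKeys_sound _ _ k232)
 (All.join (chkKeys_sound _ _ k233)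
 (chkKeys_sound _ _ k234)))))
 (All.join (All.join (All.join (chkKeys_sound _ _ k235)
 (chkKeys_sound _ _ k236))
 (All.join (chkKeys_sound _ _ k237)
 (chkKeys_sound _ _ k238)))
 (All.join (All.join (chkKeys_sound _ _ k239)
 (chkKeys_sound _ _ k240))
 (All.join (chkKeys_sound _ _ k241)
 (All.join (chkKeys_sound _ _ k242)
 (chkKeys_sound _ _ k243)))))))
 (All.join (All.join (All.join (All.join (All.join (chkKeys_sound _ _ k244)
 (chkKeys_sound _ _ k245))
 (All.join (chkKeys_sound _ _ k246)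
 (chkKeys_sound _ _ k247)))
 (All.join (All.join (chkKeys_sound _ _ k248)
 (chkKeys_sound _ _ k249))
 (All.join (chkKeys_sound _ _ k250)
 (chkKeys_sound _ _ k251))))
 (All.join (All.join (All.join (chkKeys_sound _ _ k252)
 (chkKeys_sound _ _ k253))
 (All.join (chkKeys_sound _ _ k254)
 (chkKeys_sound _ _ k255)))
 (All.join (All.join (chkKeys_sound _ _ k256)
 (chkKeys_sound _ _ k257))
 (All.join (chkKeys_sound _ _ k258)
 (All.join (chkKeys_sound _ _ k259)
 (chkKeys_sound _ _ k260))))))
 (All.join (All.join (All.join (All.join (chkKeys_sound _ _ k261)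
 (chkKeys_sound _ _ k262))
 (All.join (chkKeys_sound _ _ k263)
 (chkKeys_sound _ _ k264)))
 (All.join (All.join (chkKeys_sound _ _ k265)
 (chkKeys_sound _ _ k266))
 (All.join (chkKeys_sound _ _ k267)
 (All.join (chkKeys_sound _ _ k268)
 (chkKeys_sound _ _ k269)))))
 (All.join (All.join (All.join (chkKeys_sound _ _ k270)
 (chkKeys_sound _ _ k271))
 (All.join (chkKeys_sound _ _ k272)
 (chkKeys_sound _ _ k273)))
 (All.join (All.join (chkKeys_sound _ _ k274)
 (chkKeys_sound _ _ k275))
 (All.join (chkKeys_sound _ _ k276)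
 (All.join (chkKeys_sound _ _ k277)
 (chkKeys_sound _ _ k278))))))))))
 (All.join (All.join (All.join (All.join (All.join (All.join (All.join (All.join (chkKeys_sound _ _ k279)
 (chkKeys_sound _ _ k280))
 (All.join (chkKeys_sound _ _ k281)
 (chkKeys_sound _ _ k282)))
 (All.join (All.join (chkKeys_sound _ _ k283)
 (chkKeys_sound _ _ k284))
 (All.join (chkKeys_sound _ _ k285)
 (chkKeys_sound _ _ k286))))
 (All.join (All.join (All.join (chkKeys_sound _ _ k287)
 (chkKeys_sound _ _ k288))
 (All.join (chkKeys_sound _ _ k289)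
 (chkKeys_sound _ _ k290)))
 (All.join (All.join (chkKeys_sound _ _ k291)
 (chkKeys_sound _ _ k292))
 (All.join (chkKeys_sound _ _ k293)
 (All.join (chkKeys_sound _ _ k294)
 (chkKeys_sound _ _ k295))))))
 (All.join (All.join (All.join (All.join (chkKeys_sound _ _ k296)
 (chkKeys_sound _ _ k297))
 (All.join (chkKeys_sound _ _ k298)
 (chkKeys_sound _ _ k299)))
 (All.join (All.join (chkKeys_sound _ _ k300)
 (chkKeys_sound _ _ k301))
 (All.join (chkKeys_sound _ _ k302)
 (All.join (chkKeys_sound _ _ k303)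
 (chkKeys_sound _ _ k304)))))
 (All.join (All.join (All.join (chkKeys_sound _ _ k305)
 (chkKeys_sound _ _ k306))
 (All.join (chkKeys_sound _ _ k307)
 (chkKeys_sound _ _ k308)))
 (All.join (All.join (chkKeys_sound _ _ k309)
 (chkKeys_sound _ _ k310))
 (All.join (chkKeys_sound _ _ k311)
 (All.join (chkKeys_sound _ _ k312)
 (chkKeys_sound _ _ k313)))))))
 (All.join (All.join (All.join (All.join (All.join (chkKeys_sound _ _ k314)
 (chkKeys_sound _ _ k315))
 (All.join (chkKeys_sound _ _ k316)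
 (chkKeys_sound _ _ k317)))
 (All.join (All.join (chkKeys_sound _ _ k318)
 (chkKeys_sound _ _ k319))
 (All.join (chkKeys_sound _ _ k320)
 (chkKeys_sound _ _ k321))))
 (All.join (All.join (All.join (chkKeys_sound _ _ k322)
 (chkKeys_sound _ _ k323))
 (All.join (chkKeys_sound _ _ k324)
 (chkKeys_sound _ _ k325)))
 (All.join (All.join (chkKeys_sound _ _ k326)
 (chkKeys_sound _ _ k327))
 (All.join (chkKeys_sound _ _ k328)
 (All.join (chkKeys_sound _ _ k329)
 (chkKeys_sound _ _ k330))))))
 (All.join (All.join (All.join (All.join (chkKeys_sound _ _ k331)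
 (chkKeys_sound _ _ k332))
 (All.join (chkKeys_sound _ _ k333)
 (chkKeys_sound _ _ k334)))
 (All.join (All.join (chkKeys_sound _ _ k335)
 (chkKeys_sound _ _ k336))
 (All.join (chkKeys_sound _ _ k337)
 (All.join (chkKeys_sound _ _ k338)
 (chkKeys_sound _ _ k339)))))
 (All.join (All.join (All.join (chkKeys_sound _ _ k340)
 (chkKeys_sound _ _ k341))
 (All.join (chkKeys_sound _ _ k342)
 (chkKeys_sound _ _ k343)))
 (All.join (All.join (chkKeys_sound _ _ k344)
 (chkKeys_sound _ _ k345))
 (All.join (chkKeys_sound _ _ k346)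
 (All.join (chkKeys_sound _ _ k347)
 (chkKeys_sound _ _ k348))))))))
 (All.join (All.join (All.join (All.join (All.join (All.join (chkKeys_sound _ _ k349)
 (chkKeys_sound _ _ k350))
 (All.join (chkKeys_sound _ _ k351)
 (chkKeys_sound _ _ k352)))
 (All.join (All.join (chkKeys_sound _ _ k353)
 (chkKeys_sound _ _ k354))
 (All.join (chkKeys_sound _ _ k355)
 (chkKeys_sound _ _ k356))))
 (All.join (All.join (All.join (chkKeys_sound _ _ k357)
 (chkKeys_sound _ _ k358))
 (All.join (chkKeys_sound _ _ k359)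
 (chkKeys_sound _ _ k360)))
 (All.join (All.join (chkKeys_sound _ _ k361)
 (chkKeys_sound _ _ k362))
 (All.join (chkKeys_sound _ _ k363)
 (All.join (chkKeys_sound _ _ k364)
 (chkKeys_sound _ _ k365))))))
 (All.join (All.join (All.join (All.join (chkKeys_sound _ _ k366)
 (chkKeys_sound _ _ k367))
 (All.join (chkKeys_sound _ _ k368)
 (chkKeys_sound _ _ k369)))
 (All.join (All.join (chkKeys_sound _ _ k370)
 (chkKeys_sound _ _ k371))
 (All.join (chkKeys_sound _ _ k372)
 (All.join (chkKeys_sound _ _ k373)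
 (chkKeys_sound _ _ k374)))))
 (All.join (All.join (All.join (chkKeys_sound _ _ k375)
 (chkKeys_sound _ _ k376))
 (All.join (chkKeys_sound _ _ k377)
 (chkKeys_sound _ _ k378)))
 (All.join (All.join (chkKeys_sound _ _ k379)
 (chkKeys_sound _ _ k380))
 (All.join (chkKeys_sound _ _ k381)
 (All.join (chkKeys_sound _ _ k382)
 (chkKeys_sound _ _ k383)))))))
 (All.join (All.join (All.join (All.join (All.join (chkKeys_sound _ _ k384)
 (chkKeys_sound _ _ k385))
 (All.join (chkKeys_sound _ _ k386)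
 (chkKeys_sound _ _ k387)))
 (All.join (All.join (chkKeys_sound _ _ k388)
 (chkKeys_sound _ _ k389))
 (All.join (chkKeys_sound _ _ k390)
 (chkKeys_sound _ _ k391))))
 (All.join (All.join (All.join (chkKeys_sound _ _ k392)
 (chkKeys_sound _ _ k393))
 (All.join (chkKeys_sound _ _ k394)
 (chkKeys_sound _ _ k395)))
 (All.join (All.join (chkKeys_sound _ _ k396)
 (chkKeys_sound _ _ k397))
 (All.join (chkKeys_sound _ _ k398)
 (All.join (chkKeys_sound _ _ k399)
 (chkKeys_sound _ _ k400))))))
 (All.join (All.join (All.join (All.join (chkKeys_sound _ _ k401)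
 (chkKeys_sound _ _ k402))
 (All.join (chkKeys_sound _ _ k403)
 (chkKeys_sound _ _ k404)))
 (All.join (All.join (chkKeys_sound _ _ k405)
 (chkKeys_sound _ _ k406))
 (All.join (chkKeys_sound _ _ k407)
 (All.join (chkKeys_sound _ _ k408)
 (chkKeys_sound _ _ k409)))))
 (All.join (All.join (All.join (chkKeys_sound _ _ k410)
 (chkKeys_sound _ _ k411))
 (All.join (chkKeys_sound _ _ k412)
 (chkKeys_sound _ _ k413)))
 (All.join (All.join (chkKeys_sound _ _ k414)
 (chkKeys_sound _ _ k415))
 (All.join (chkKeys_sound _ _ k416)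
 (All.join (chkKeys_sound _ _ k417)
 (chkKeys_sound _ _ k418)))))))))
 (All.join (All.join (All.join (All.join (All.join (All.join (All.join (chkKeys_sound _ _ k419)
 (chkKeys_sound _ _ k420))
 (All.join (chkKeys_sound _ _ k421)
 (chkKeys_sound _ _ k422)))
 (All.join (All.join (chkKeys_sound _ _ k423)
 (chkKeys_sound _ _ k424))
 (All.join (chkKeys_sound _ _ k425)
 (chkKeys_sound _ _ k426))))
 (All.join (All.join (All.join (chkKeys_sound _ _ k427)
 (chkKeys_sound _ _ k428))
 (All.join (chkKeys_sound _ _ k429)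
 (chkKeys_sound _ _ k430)))
 (All.join (All.join (chkKeys_sound _ _ k431)
 (chkKeys_sound _ _ k432))
 (All.join (chkKeys_sound _ _ k433)
 (All.join (chkKeys_sound _ _ k434)
 (chkKeys_sound _ _ k435))))))
 (All.join (All.join (All.join (All.join (chkKeys_sound _ _ k436)
 (chkKeys_sound _ _ k437))
 (All.join (chkKeys_sound _ _ k438)
 (chkKeys_sound _ _ k439)))
 (All.join (All.join (chkKeys_sound _ _ k440)
 (chkKeys_sound _ _ k441))
 (All.join (chkKeys_sound _ _ k442)
 (All.join (chkKeys_sound _ _ k443)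
 (chkKeys_sound _ _ k444)))))
 (All.join (All.join (All.join (chkKeys_sound _ _ k445)
 (chkKeys_sound _ _ k446))
 (All.join (chkKeys_sound _ _ k447)
 (chkKeys_sound _ _ k448)))
 (All.join (All.join (chkKeys_sound _ _ k449)
 (chkKeys_sound _ _ k450))
 (All.join (chkKeys_sound _ _ k451)
 (All.join (chkKeys_sound _ _ k452)
 (chkKeys_sound _ _ k453)))))))
 (All.join (All.join (All.join (All.join (All.join (chkKeys_sound _ _ k454)
 (chkKeys_sound _ _ k455))
 (All.join (chkKeys_sound _ _ k456)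
 (chkKeys_sound _ _ k457)))
 (All.join (All.join (chkKeys_sound _ _ k458)
 (chkKeys_sound _ _ k459))
 (All.join (chkKeys_sound _ _ k460)
 (chkKeys_sound _ _ k461))))
 (All.join (All.join (All.join (chkKeys_sound _ _ k462)
 (chkKeys_sound _ _ k463))
 (All.join (chkKeys_sound _ _ k464)
 (chkKeys_sound _ _ k465)))
 (All.join (All.join (chkKeys_sound _ _ k466)
 (chkKeys_sound _ _ k467))
 (All.join (chkKeys_sound _ _ k468)
 (All.join (chkKeys_sound _ _ k469)
 (chkKeys_sound _ _ k470))))))
 (All.join (All.join (All.join (All.join (chkKeys_sound _ _ k471)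
 (chkKeys_sound _ _ k472))
 (All.join (chkKeys_sound _ _ k473)
 (chkKeys_sound _ _ k474)))
 (All.join (All.join (chkKeys_sound _ _ k475)
 (chkKeys_sound _ _ k476))
 (All.join (chkKeys_sound _ _ k477)
 (All.join (chkKeys_sound _ _ k478)
 (chkKeys_sound _ _ k479)))))
 (All.join (All.join (All.join (chkKeys_sound _ _ k480)
 (chkKeys_sound _ _ k481))
 (All.join (chkKeys_sound _ _ k482)
 (chkKeys_sound _ _ k483)))
 (All.join (All.join (chkKeys_sound _ _ k484)
 (chkKeys_sound _ _ k485))
 (All.join (chkKeys_sound _ _ k486)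
 (All.join (chkKeys_sound _ _ k487)
 (chkKeys_sound _ _ k488))))))))
 (All.join (All.join (All.join (All.join (All.join (All.join (chkKeys_sound _ _ k489)
 (chkKeys_sound _ _ k490))
 (All.join (chkKeys_sound _ _ k491)
 (chkKeys_sound _ _ k492)))
 (All.join (All.join (chkKeys_sound _ _ k493)
 (chkKeys_sound _ _ k494))
 (All.join (chkKeys_sound _ _ k495)
 (chkKeys_sound _ _ k496))))
 (All.join (All.join (All.join (chkKeys_sound _ _ k497)
 (chkKeys_sound _ _ k498))
 (All.join (chkKeys_sound _ _ k499)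
 (chkKeys_sound _ _ k500)))
 (All.join (All.join (chkKeys_sound _ _ k501)
 (chkKeys_sound _ _ k502))
 (All.join (chkKeys_sound _ _ k503)
 (All.join (chkKeys_sound _ _ k504)
 (chkKeys_sound _ _ k505))))))
 (All.join (All.join (All.join (All.join (chkKeys_sound _ _ k506)
 (chkKeys_sound _ _ k507))
 (All.join (chkKeys_sound _ _ k508)
 (chkKeys_sound _ _ k509)))
 (All.join (All.join (chkKeys_sound _ _ k510)
 (chkKeys_sound _ _ k511))
 (All.join (chkKeys_sound _ _ k512)
 (All.join (chkKeys_sound _ _ k513)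
 (chkKeys_sound _ _ k514)))))
 (All.join (All.join (All.join (chkKeys_sound _ _ k515)
 (chkKeys_sound _ _ k516))
 (All.join (chkKeys_sound _ _ k517)
 (chkKeys_sound _ _ k518)))
 (All.join (All.join (chkKeys_sound _ _ k519)
 (chkKeys_sound _ _ k520))
 (All.join (chkKeys_sound _ _ k521)
 (All.join (chkKeys_sound _ _ k522)
 (chkKeys_sound _ _ k523)))))))
 (All.join (All.join (All.join (All.join (All.join (chkKeys_sound _ _ k524)
 (chkKeys_sound _ _ k525))
 (All.join (chkKeys_sound _ _ k526)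
 (chkKeys_sound _ _ k527)))
 (All.join (All.join (chkKeys_sound _ _ k528)
 (chkKeys_sound _ _ k529))
 (All.join (chkKeys_sound _ _ k530)
 (chkKeys_sound _ _ k531))))
 (All.join (All.join (All.join (chkKeys_sound _ _ k532)
 (chkKeys_sound _ _ k533))
 (All.join (chkKeys_sound _ _ k534)
 (chkKeys_sound _ _ k535)))
 (All.join (All.join (chkKeys_sound _ _ k536)
 (chkKeys_sound _ _ k537))
 (All.join (chkKeys_sound _ _ k538)
 (All.join (chkKeys_sound _ _ k539)
 (chkKeys_sound _ _ k540))))))
 (All.join (All.join (All.join (All.join (chkKeys_sound _ _ k541)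
 (chkKeys_sound _ _ k542))
 (All.join (chkKeys_sound _ _ k543)
 (chkKeys_sound _ _ k544)))
 (All.join (All.join (chkKeys_sound _ _ k545)
 (chkKeys_sound _ _ k546))
 (All.join (chkKeys_sound _ _ k547)
 (All.join (chkKeys_sound _ _ k548)
 (chkKeys_sound _ _ k549)))))
 (All.join (All.join (All.join (chkKeys_sound _ _ k550)
 (chkKeys_sound _ _ k551))
 (All.join (chkKeys_sound _ _ k552)
 (chkKeys_sound _ _ k553)))
 (All.join (All.join (chkKeys_sound _ _ k554)
 (chkKeys_sound _ _ k555))
 (All.join (chkKeys_sound _ _ k556)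
 (All.join (chkKeys_sound _ _ k557)
 (chkKeys_sound _ _ k558)))))))))))

end Pool.Agent.P.MP_eb61da_co.RX
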