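import Pool.Agent.P.MP_eb61da_co.RxLD0

/-! From packings of clones to disjoint closed boxes. -/

set_option linter.unusedVariables false

namespace Pool.Agent.P.MP_eb61da_co.RX

open scoped Pointwise

open MeasureTheory

theorem rxla_coord (g : Plane ≃ᵢ Plane) : ∃ a b e x y : ℝ, a ^ 2 + b ^ 2 = 1 ∧ e * e = 1 ∧
    ∀ u : Plane, g u 0 = x + u 0 * a - e * u 1 * b ∧ g u 1 = y + u 0 * b + e * u 1 * a := by
  set U := g.toRealLinearIsometryEquiv with hU
  have h0 : ∀ u, g u = U u + g 0 := fun u => by simp [hU]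
  set A := U (EuclideanSpace.single 0 1) with hA
  set B := U (EuclideanSpace.single 1 1) with hB
  have key : ∀ u v : Plane, U u 0 * U v 0 + U u 1 * U v 1 = u 0 * v 0 + u 1 * v 1 := by
    intro u v
    have h := U.inner_map_map u v
    simp only [PiLp.inner_apply, Fin.sum_univ_two, RCLike.inner_apply, conj_trivial] at h
    linarith
  have h1 : A 0 * A 0 + A 1 * A 1 = 1 := by simpa using key (EuclideanSpace.single 0 1) (EuclideanSpace.single 0 1)
  have h2 : B 0 * B 0 + B 1 * B 1 = 1 := by simpa using key (EuclideanSpace.single 1 1) (EuclideanSpace.single 1 1)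
  have h3 : A 0 * B 0 + A 1 * B 1 = 0 := by simpa using key (EuclideanSpace.single 0 1) (EuclideanSpace.single 1 1)
  have hu : ∀ u : Plane, U u = u 0 • A + u 1 • B := by
    intro u
    rw [hA, hB, ← map_smul, ← map_smul, ← map_add]
    congr 1
    ext i
    fin_cases i <;> simp
  refine ⟨A 0, A 1, A 0 * B 1 - A 1 * B 0, g 0 0, g 0 1, by linarith, ?_, fun u => ?_⟩
  · linear_combination (B 0 * B 0 + B 1 * B 1) * h1 + h2 - (A 0 * B 0 + A 1 * B 1) * h3
  · rw [h0 u, hu u]
    simp only [PiLp.add_apply, PiLp.smul_apply, smul_eq_mul]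
    constructor
    · linear_combination (-(u 1 * B 0)) * h1 + (u 1 * A 0) * h3
    · linear_combination (-(u 1 * B 1)) * h1 + (u 1 * A 1) * h3

theorem rxla_box (g : Plane ≃ᵢ Plane) {p l t : ℝ} (hp : 0 < p) (ht : 0 < t) (hl : t < l) :
    ∃ B : Bx, B.a ^ 2 + B.b ^ 2 = 1 ∧
      ∀ w ∈ B.set p t, ∃ v ∈ interior (g '' (l • rect p 1)), w = (v 0, v 1) := by
  obtain ⟨a, b, e, x, y, h1, h2, h3⟩ := rxla_coord g
  have hl0 : 0 < l := ht.trans hl
  refine ⟨⟨x + p * l / 2 * a - e * (l / 2) * b, y + p * l / 2 * b + e * (l / 2) * a, a, b⟩, h1, ?_⟩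
  rintro w ⟨s, r, hs, hr, rfl⟩
  have ho : IsOpen {v : Plane | v 0 ∈ Set.Ioo 0 (p * l) ∧ v 1 ∈ Set.Ioo 0 l} :=
    (isOpen_Ioo.preimage (by fun_prop)).inter (isOpen_Ioo.preimage (by fun_prop))
  have hsub : {v : Plane | v 0 ∈ Set.Ioo 0 (p * l) ∧ v 1 ∈ Set.Ioo 0 l} ⊆ l • rect p 1 := by
    rintro v ⟨⟨a1, a2⟩, a3, a4⟩
    refine ⟨l⁻¹ • v, ?_, smul_inv_smul₀ hl0.ne' v⟩
    simp only [rect, Set.mem_ofPred_eq, PiLp.smul_apply, smul_eq_mul, Set.mem_Icc]
    refine ⟨⟨by positivity, ?_⟩, by positivity, ?_⟩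
    · rw [inv_mul_le_iff₀ hl0]; linarith
    · rw [inv_mul_le_iff₀ hl0]; linarith
  have he : |e * r| = |r| := by
    have : |e| = 1 := by
      have h4 : |e| * |e| = 1 := by rw [← abs_mul, h2, abs_one]
      nlinarith [abs_nonneg e]
    rw [abs_mul, this, one_mul]
  have hpl : p * t < p * l := mul_lt_mul_of_pos_left hl hp
  let u : Plane := WithLp.toLp 2 ![p * l / 2 + s, l / 2 + e * r]
  have u0 : u 0 = p * l / 2 + s := rfl
  have u1 : u 1 = l / 2 + e * r := rfl
  refine ⟨g u, interior_maximal (Set.image_mono hsub) (g.toHomeomorph.isOpenMap _ ho)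
    ⟨u, ?_, rfl⟩, ?_⟩
  · rw [← he] at hr
    obtain ⟨b1, b2⟩ := abs_le.1 hs
    obtain ⟨b3, b4⟩ := abs_le.1 hr
    simp only [Set.mem_ofPred_eq, Set.mem_Ioo, u0, u1]
    refine ⟨⟨?_, ?_⟩, ?_, ?_⟩ <;> linarith
  · rw [(h3 u).1, (h3 u).2, u0, u1]
    refine Prod.ext ?_ ?_
    · dsimp only
      linear_combination (r * b) * h2
    · dsimp only
      linear_combination (-(r * a)) * h2

theorem red {p : ℝ} (hp : 0 < p) {n : ℕ} {l t : Fin n → ℝ} (ht : ∀ i, 0 < t i)
    (hl : ∀ i, t i < l i) (H : CanPack (fun i => l i • rect p 1) (rect p 1)) : ¬ NP p t := by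
  obtain ⟨g, h1, h2⟩ := H
  choose B hB hs using fun i => rxla_box (g i) hp (ht i) (hl i)
  refine fun h => h ⟨B, fun i => ⟨hB i, fun w hw => ?_⟩, fun i j hij => ?_⟩
  · obtain ⟨v, hv, rfl⟩ := hs i w hw
    exact h1 i (interior_subset hv)
  · rw [Set.disjoint_left]
    intro w hi hj
    obtain ⟨v, hv, e1⟩ := hs i w hi
    obtain ⟨v', hv', e2⟩ := hs j w hj
    have e : v = v' := by
      rw [e1] at e2
      ext k
      fin_cases k
      · exact congrArg Prod.fst e2
      · exact congrArg Prod.snd e2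
    exact Set.disjoint_left.1 (h2 i j hij) hv (e ▸ hv')

theorem rxla_scale {n : ℕ} {f : Fin n → Set Plane} {Q : Set Plane} {k : ℝ} (hk : 0 < k)
    (H : CanPack f Q) : CanPack (fun i => k • f i) (k • Q) := by
  obtain ⟨g, h1, h2⟩ := H
  let G : Fin n → (Plane ≃ᵢ Plane) := fun i =>
    ⟨((Homeomorph.smulOfNeZero k⁻¹ (inv_ne_zero hk.ne')).toEquiv.trans (g i).toEquiv).trans
      (Homeomorph.smulOfNeZero k hk.ne').toEquiv, Isometry.of_dist_eq fun x y => by
        change dist (k • g i (k⁻¹ • x)) (k • g i (k⁻¹ • y)) = _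
        rw [dist_smul₀, IsometryEquiv.dist_eq, dist_smul₀, Real.norm_eq_abs, Real.norm_eq_abs,
          abs_of_pos hk, abs_of_pos (inv_pos.2 hk)]
        field_simp⟩
  have key : ∀ i, G i '' (k • f i) = k • (g i '' f i) := fun i => by
    rw [← Set.image_smul, ← Set.image_smul, Set.image_image, Set.image_image]
    refine Set.image_congr fun x _ => ?_
    change k • g i (k⁻¹ • k • x) = _
    rw [inv_smul_smul₀ hk.ne']
  refine ⟨G, fun i => ?_, fun i j hij => ?_⟩
  · rw [key]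
    exact Set.smul_set_mono (h1 i)
  · rw [key, key, interior_smul₀ hk.ne', interior_smul₀ hk.ne', ← Set.image_smul,
      ← Set.image_smul]
    exact Set.disjoint_image_of_injective (smul_right_injective Plane hk.ne') (h2 i j hij)

theorem rxla_iso {n : ℕ} {f : Fin n → Set Plane} {Q : Set Plane} (ψ : Plane ≃ᵢ Plane)
    (H : CanPack f (ψ '' Q)) : CanPack f Q := by
  obtain ⟨g, h1, h2⟩ := H
  have key : ∀ i, ((g i).trans ψ.symm) '' f i = ψ.symm.toHomeomorph '' (g i '' f i) := fun i => by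
    rw [Set.image_image]
    rfl
  refine ⟨fun i => (g i).trans ψ.symm, fun i => ?_, fun i j hij => ?_⟩
  · rw [key]
    rintro _ ⟨v, hv, rfl⟩
    obtain ⟨u, hu, rfl⟩ := h1 i hv
    simpa using hu
  · rw [key, key, ← Homeomorph.image_interior, ← Homeomorph.image_interior]
    exact Set.disjoint_image_of_injective ψ.symm.toHomeomorph.injective (h2 i j hij)

theorem rxla_rect {a b : ℝ} (hb : 0 < b) : rect a b = b • rect (a / b) 1 := by
  ext v
  constructor
  · rintro ⟨⟨a1, a2⟩, a3, a4⟩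
    refine ⟨b⁻¹ • v, ?_, smul_inv_smul₀ hb.ne' v⟩
    simp only [rect, Set.mem_ofPred_eq, PiLp.smul_apply, smul_eq_mul, Set.mem_Icc]
    refine ⟨⟨by positivity, ?_⟩, by positivity, ?_⟩
    · rw [inv_mul_le_iff₀ hb, mul_div_cancel₀ _ hb.ne']; exact a2
    · rw [inv_mul_le_iff₀ hb, mul_one]; exact a4
  · intro hv
    have h := mem_smul_rect hb.le hv
    rw [div_mul_cancel₀ _ hb.ne', one_mul] at h
    exact h

theorem not_pack {a b S : ℝ} (ha : 0 < a) (hb : 0 < b) {n : ℕ} (hn : 0 < n) {t : Fin n → ℝ}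
    (ht : ∀ i, 0 < t i) (hs : S * ∑ i, t i ^ 2 < 1) (H : NP (a / b) t) :
    ¬ ClonesPack (rect a b) S := by
  intro HP
  obtain ⟨hK, -, hI⟩ := rect_figure ha hb
  set F := rect a b with hF
  have v0 : volume F ≠ 0 := (Measure.measure_pos_of_nonempty_interior volume hI).ne'
  have v1 : volume F ≠ ⊤ := hK.measure_lt_top.ne
  set v : ℝ := (volume F).toReal with hv
  have hv0 : 0 < v := ENNReal.toReal_pos v0 v1
  have hvF : volume F = ENNReal.ofReal v := (ENNReal.ofReal_toReal v1).symm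
  have vol : ∀ c : ℝ, 0 ≤ c → volume (c • F) = ENNReal.ofReal (c * c * v) := by
    intro c hc
    rw [Measure.addHaar_smul_of_nonneg _ hc, hvF, ← ENNReal.ofReal_mul (by positivity)]
    simp [pow_two]
  set T : ℝ := ∑ i, t i ^ 2 with hT
  have hT0 : 0 < T := by
    have : Nonempty (Fin n) := ⟨⟨0, hn⟩⟩
    exact Finset.sum_pos (fun i _ => pow_pos (ht i) 2) Finset.univ_nonempty
  set c : ℝ := √(1 / (T * v)) with hc
  have hc0 : 0 < c := Real.sqrt_pos.2 (by positivity)
  have hcc : c * c * (T * v) = 1 := by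
    rw [hc, Real.mul_self_sqrt (by positivity)]; field_simp
  have hct : ∀ i, 0 < c * t i := fun i => mul_pos hc0 (ht i)
  obtain ⟨Q, hQ, hQv, hP⟩ := HP n (fun i => (c * t i) • F) (fun i => by
      refine ⟨{ (Homeomorph.smulOfNeZero (c * t i) (hct i).ne').toEquiv with edist_eq' := ?_ }, rfl⟩
      refine ⟨‖c * t i‖₊, by simpa using ⟨hc0.ne', (ht i).ne'⟩, fun x y => ?_⟩
      exact edist_smul₀ (c * t i) x y) (by
      simp only [fun i => vol _ (hct i).le]
      rw [← ENNReal.ofReal_sum_of_nonneg (fun i _ => by have := hct i; positivity),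
        ENNReal.ofReal_eq_one, ← hcc, hT, Finset.sum_mul, Finset.mul_sum]
      exact Finset.sum_congr rfl fun i _ => by ring)
  obtain ⟨C, ψ, hC, rfl⟩ := clone_decomp hQ
  rw [volume_iso _ (hK.smul C).measurableSet, vol _ hC.le] at hQv
  have hpos : 0 < C * C * v := by positivity
  have hS : C * C * v = S := by
    have h1 : 0 < S := by
      rw [← ENNReal.ofReal_pos, ← hQv, ENNReal.ofReal_pos]; exact hpos
    exact (ENNReal.ofReal_eq_ofReal_iff hpos.le h1.le).1 hQv
  have hCc : C < c := by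
    by_contra hcon
    have h1 : c ≤ C := not_lt.1 hcon
    have h2 : c * c ≤ C * C := mul_self_le_mul_self hc0.le h1
    have h3 : c * c * (T * v) ≤ C * C * (T * v) := mul_le_mul_of_nonneg_right h2 (by positivity)
    rw [← hS] at hs
    nlinarith
  have hP2 := rxla_scale (k := (C * b)⁻¹) (by positivity) (rxla_iso ψ hP)
  have e1 : (C * b)⁻¹ • C • F = rect (a / b) 1 := by
    rw [hF, rxla_rect hb, smul_smul, smul_smul]
    have : (C * b)⁻¹ * C * b = 1 := by field_simp
    rw [this, one_smul]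
  have e2 : ∀ i, (C * b)⁻¹ • (c * t i) • F = (c * t i / C) • rect (a / b) 1 := fun i => by
    rw [hF, rxla_rect hb, smul_smul, smul_smul]
    congr 1
    field_simp
  simp only [e1, e2] at hP2
  refine red (div_pos ha hb) ht (fun i => ?_) hP2 H
  rw [lt_div_iff₀ hC]
  nlinarith [ht i]

end Pool.Agent.P.MP_eb61da_co.RX
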