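import Pool.Agent.P.MP_eb61da_co.RxLD0

/-! Separation of two boxes, chords. -/

set_option linter.unusedVariables false

namespace Pool.Agent.P.MP_eb61da_co.RX

theorem rxlb_sgn (r x : ℝ) (hr : 0 ≤ r) : ∃ σ : ℝ, |σ| ≤ r ∧ σ * x = r * |x| := by
  rcases le_total 0 x with h | h
  · exact ⟨r, by rw [abs_of_nonneg hr], by rw [abs_of_nonneg h]⟩
  · exact ⟨-r, by rw [abs_neg, abs_of_nonneg hr], by rw [abs_of_nonpos h]; ring⟩

theorem rxlb_ext (B : Bx) {p l : ℝ} (hp : 0 ≤ p) (hl : 0 ≤ l) (c s : ℝ) :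
    ∃ v ∈ B.set p l, c * v.1 + s * v.2 = c * B.x + s * B.y +
      l * (p * |B.a * c + B.b * s| + |B.a * s - B.b * c|) / 2 := by
  obtain ⟨σ, hσ, eσ⟩ := rxlb_sgn (p * l / 2) (B.a * c + B.b * s) (by positivity)
  obtain ⟨τ, hτ, eτ⟩ := rxlb_sgn (l / 2) (B.a * s - B.b * c) (by positivity)
  refine ⟨_, ⟨σ, τ, hσ, hτ, rfl⟩, ?_⟩
  simp only
  linear_combination eσ + eτ

theorem rxlb_compact (B : Bx) (p l : ℝ) : IsCompact (B.set p l) := by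
  have e : B.set p l = (fun q : ℝ × ℝ =>
      (B.x + q.1 * B.a - q.2 * B.b, B.y + q.1 * B.b + q.2 * B.a)) ''
      (Set.Icc (-(p * l / 2)) (p * l / 2) ×ˢ Set.Icc (-(l / 2)) (l / 2)) := by
    ext v
    constructor
    · rintro ⟨s, t, hs, ht, rfl⟩
      exact ⟨(s, t), ⟨abs_le.mp hs, abs_le.mp ht⟩, rfl⟩
    · rintro ⟨⟨s, t⟩, ⟨hs, ht⟩, rfl⟩
      exact ⟨s, t, abs_le.mpr hs, abs_le.mpr ht, rfl⟩
  rw [e]
  exact (isCompact_Icc.prod isCompact_Icc).image (by fun_prop)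

theorem rxlb_comb {r x y a b : ℝ} (hx : |x| ≤ r) (hy : |y| ≤ r) (ha : 0 ≤ a) (hb : 0 ≤ b)
    (hab : a + b = 1) : |a * x + b * y| ≤ r := by
  rw [abs_le] at hx hy ⊢
  have h1 := mul_le_mul_of_nonneg_left hx.1 ha
  have h2 := mul_le_mul_of_nonneg_left hx.2 ha
  have h3 := mul_le_mul_of_nonneg_left hy.1 hb
  have h4 := mul_le_mul_of_nonneg_left hy.2 hb
  have e : a * r + b * r = r := by rw [← add_mul, hab, one_mul]
  constructor <;> linarith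

theorem rxlb_convex (B : Bx) (p l : ℝ) : Convex ℝ (B.set p l) := by
  rintro _ ⟨s, t, hs, ht, rfl⟩ _ ⟨s', t', hs', ht', rfl⟩ a b ha hb hab
  refine ⟨a * s + b * s', a * t + b * t', rxlb_comb hs hs' ha hb hab, rxlb_comb ht ht' ha hb hab, ?_⟩
  refine Prod.ext ?_ ?_
  · simp only [Prod.fst_add, Prod.smul_fst, smul_eq_mul]
    linear_combination B.x * hab
  · simp only [Prod.snd_add, Prod.smul_snd, smul_eq_mul]
    linear_combination B.y * hab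

theorem rxlb_same {x y : ℝ} (h : 0 ≤ x * y) : |x + y| = |x| + |y| ∧ |x - y| = |(|x| - |y|)| := by
  rcases mul_nonneg_iff.mp h with ⟨hx, hy⟩ | ⟨hx, hy⟩
  · rw [abs_of_nonneg hx, abs_of_nonneg hy, abs_of_nonneg (add_nonneg hx hy)]
    exact ⟨rfl, rfl⟩
  · rw [abs_of_nonpos hx, abs_of_nonpos hy, abs_of_nonpos (add_nonpos hx hy)]
    refine ⟨by ring, ?_⟩
    rw [← abs_neg]
    congr 1
    ring

theorem rxlb_max (x y : ℝ) : max x y = (|x - y| + x + y) / 2 := by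
  rcases le_total x y with h | h
  · rw [max_eq_right h, abs_of_nonpos (by linarith)]; ring
  · rw [max_eq_left h, abs_of_nonneg (by linarith)]; ring

theorem rxlb_gam (p a b c s : ℝ) : Gam p |a| |b| |c| |s|
    ((p * |a * c + b * s| + |a * s - b * c| + |c| * (p * |a| + |b|) + |s| * (p * |b| + |a|)) / 2) := by
  rcases le_total 0 ((a * c) * (b * s)) with h | h
  · left
    have h' : 0 ≤ (a * s) * (b * c) := by linarith [show (a * s) * (b * c) = (a * c) * (b * s) by ring]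
    rw [(rxlb_same h).1, (rxlb_same h').2, max_comm, rxlb_max]
    simp only [abs_mul]
    ring
  · right
    have h1 : 0 ≤ (a * c) * (-(b * s)) := by linarith
    have h2 : 0 ≤ (a * s) * (-(b * c)) := by
      linarith [show (a * s) * (-(b * c)) = -((a * c) * (b * s)) by ring]
    have e1 := (rxlb_same h1).2
    have e2 := (rxlb_same h2).1
    rw [sub_neg_eq_add, abs_neg] at e1
    rw [← sub_eq_add_neg, abs_neg] at e2
    rw [e1, e2, rxlb_max]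
    simp only [abs_mul]
    ring

theorem rxlb_dir {A₁ A₂ : Set (ℝ × ℝ)} (c1 : Convex ℝ A₁) (k1 : IsCompact A₁) (c2 : Convex ℝ A₂)
    (k2 : IsCompact A₂) (n1 : A₁.Nonempty) (n2 : A₂.Nonempty) (hd : Disjoint A₁ A₂) :
    ∃ c s : ℝ, c ^ 2 + s ^ 2 = 1 ∧ ∀ v ∈ A₁, ∀ w ∈ A₂, c * v.1 + s * v.2 < c * w.1 + s * w.2 := by
  obtain ⟨f, u, v, hu, huv, hv⟩ := geometric_hahn_banach_compact_closed c1 k1 c2 k2.isClosed hd
  have hf : ∀ z : ℝ × ℝ, f z = f (1, 0) * z.1 + f (0, 1) * z.2 := by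
    intro z
    have e : z = z.1 • ((1 : ℝ), (0 : ℝ)) + z.2 • ((0 : ℝ), (1 : ℝ)) := by
      refine Prod.ext ?_ ?_ <;> simp
    conv_lhs => rw [e]
    rw [map_add, map_smul, map_smul, smul_eq_mul, smul_eq_mul]
    ring
  generalize f (1, 0) = X at hf
  generalize f (0, 1) = Y at hf
  have key : ∀ a ∈ A₁, ∀ b ∈ A₂, X * a.1 + Y * a.2 < X * b.1 + Y * b.2 := by
    intro a ha b hb
    have := hu a ha
    have := hv b hb
    rw [← hf, ← hf]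
    linarith
  have hpos : 0 < X ^ 2 + Y ^ 2 := by
    by_contra hn
    have hX : X = 0 := by nlinarith [sq_nonneg X, sq_nonneg Y]
    have hY : Y = 0 := by nlinarith [sq_nonneg X, sq_nonneg Y]
    obtain ⟨a, ha⟩ := n1
    obtain ⟨b, hb⟩ := n2
    have := key a ha b hb
    rw [hX, hY] at this
    simp at this
  have hr : 0 < Real.sqrt (X ^ 2 + Y ^ 2) := Real.sqrt_pos.mpr hpos
  have hr2 : Real.sqrt (X ^ 2 + Y ^ 2) ^ 2 = X ^ 2 + Y ^ 2 := Real.sq_sqrt hpos.le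
  generalize Real.sqrt (X ^ 2 + Y ^ 2) = r at hr hr2
  refine ⟨X / r, Y / r, ?_, ?_⟩
  · rw [div_pow, div_pow, ← add_div, hr2, div_self hpos.ne']
  · intro a ha b hb
    have h := div_lt_div_of_pos_right (key a ha b hb) hr
    calc X / r * a.1 + Y / r * a.2 = (X * a.1 + Y * a.2) / r := by ring
      _ < (X * b.1 + Y * b.2) / r := h
      _ = X / r * b.1 + Y / r * b.2 := by ring

theorem rxlb_absmul {c x y R : ℝ} (h1 : y - x ≤ R) (h2 : x - y ≤ R) : c * y - c * x ≤ |c| * R := by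
  have h : |y - x| ≤ R := abs_le.mpr ⟨by linarith, h1⟩
  calc c * y - c * x = c * (y - x) := by ring
    _ ≤ |c * (y - x)| := le_abs_self _
    _ = |c| * |y - x| := abs_mul _ _
    _ ≤ |c| * R := mul_le_mul_of_nonneg_left h (abs_nonneg _)

theorem rxlb_split {α β a b d : ℝ} (hα : 0 ≤ α) (hβ : 0 ≤ β) (h : |d| ≤ α * |b| + β * |a|) :
    ∃ s t : ℝ, |s| ≤ α ∧ |t| ≤ β ∧ s * b + t * a = d := by
  obtain ⟨σ, hσ, eσ⟩ := rxlb_sgn α b hα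
  obtain ⟨τ, hτ, eτ⟩ := rxlb_sgn β a hβ
  rcases eq_or_lt_of_le (le_trans (abs_nonneg d) h) with h0 | h0
  · have hd : d = 0 := abs_eq_zero.mp (le_antisymm (by linarith) (abs_nonneg d))
    exact ⟨0, 0, by simpa using hα, by simpa using hβ, by rw [hd]; ring⟩
  · generalize α * |b| = X at *
    generalize β * |a| = Y at *
    have hθ : |d / (X + Y)| ≤ 1 := by
      rw [abs_div, abs_of_pos h0, div_le_one h0]
      exact h
    refine ⟨d / (X + Y) * σ, d / (X + Y) * τ, ?_, ?_, ?_⟩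
    · rw [abs_mul]
      calc |d / (X + Y)| * |σ| ≤ 1 * α := mul_le_mul hθ hσ (abs_nonneg _) zero_le_one
        _ = α := one_mul _
    · rw [abs_mul]
      calc |d / (X + Y)| * |τ| ≤ 1 * β := mul_le_mul hθ hτ (abs_nonneg _) zero_le_one
        _ = β := one_mul _
    · calc d / (X + Y) * σ * b + d / (X + Y) * τ * a = d / (X + Y) * (σ * b + τ * a) := by ring
        _ = d := by rw [eσ, eτ, div_mul_cancel₀ _ h0.ne']

theorem rxlb_two {y k k' u u' : ℝ} {A A' : Set (ℝ × ℝ)} (h : 0 ≤ k) (h' : 0 ≤ k')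
    (c : ∀ v ∈ Set.Icc u (u + k), (v, y) ∈ A) (c' : ∀ v ∈ Set.Icc u' (u' + k'), (v, y) ∈ A')
    (d : Disjoint A A') : u + k < u' ∨ u' + k' < u := by
  by_contra hn
  push Not at hn
  rcases le_total u u' with hu | hu
  · exact Set.disjoint_left.mp d (c u' ⟨hu, hn.1⟩) (c' u' ⟨le_rfl, by linarith⟩)
  · exact Set.disjoint_left.mp d (c u ⟨le_rfl, by linarith⟩) (c' u ⟨hu, hn.2⟩)

theorem rxlb_in {p y k u : ℝ} {A : Set (ℝ × ℝ)} (h : 0 ≤ k)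
    (s : A ⊆ Set.Icc 0 p ×ˢ Set.Icc 0 1) (c : ∀ v ∈ Set.Icc u (u + k), (v, y) ∈ A) :
    0 ≤ u ∧ u + k ≤ p :=
  ⟨(s (c u ⟨le_rfl, by linarith⟩)).1.1, (s (c (u + k) ⟨by linarith, le_rfl⟩)).1.2⟩

theorem Fit.bounds {p l : ℝ} {B : Bx} (hp : 0 ≤ p) (hl : 0 ≤ l) (h : Fit p l B) :
    l * (p * |B.a| + |B.b|) / 2 ≤ B.x ∧ B.x + l * (p * |B.a| + |B.b|) / 2 ≤ p ∧
      l * (p * |B.b| + |B.a|) / 2 ≤ B.y ∧ B.y + l * (p * |B.b| + |B.a|) / 2 ≤ 1 := by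
  obtain ⟨v1, m1, e1⟩ := rxlb_ext B hp hl (-1) 0
  obtain ⟨v2, m2, e2⟩ := rxlb_ext B hp hl 1 0
  obtain ⟨v3, m3, e3⟩ := rxlb_ext B hp hl 0 (-1)
  obtain ⟨v4, m4, e4⟩ := rxlb_ext B hp hl 0 1
  simp only [mul_zero, zero_mul, add_zero, zero_add, mul_one, one_mul, mul_neg, neg_mul, abs_neg,
    sub_zero, zero_sub, neg_neg] at e1 e2 e3 e4
  have b1 := (h.2 m1).1.1
  have b2 := (h.2 m2).1.2
  have b3 := (h.2 m3).2.1
  have b4 := (h.2 m4).2.2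
  refine ⟨by linarith, by linarith, by linarith, by linarith⟩

theorem sep {p l₁ l₂ : ℝ} {B₁ B₂ : Bx} (hp : 0 ≤ p) (h1 : 0 ≤ l₁) (h2 : 0 ≤ l₂)
    (f1 : Fit p l₁ B₁) (f2 : Fit p l₂ B₂) (hd : Disjoint (B₁.set p l₁) (B₂.set p l₂)) :
    ∃ c s g₁ g₂ : ℝ, Un c s ∧ Gam p |B₁.a| |B₁.b| c s g₁ ∧ Gam p |B₂.a| |B₂.b| c s g₂ ∧
      l₁ * g₁ + l₂ * g₂ < p * c + s := by
  obtain ⟨z1, hz1, -⟩ := rxlb_ext B₁ hp h1 0 0
  obtain ⟨z2, hz2, -⟩ := rxlb_ext B₂ hp h2 0 0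
  obtain ⟨c, s, hcs, key⟩ := rxlb_dir (rxlb_convex B₁ p l₁) (rxlb_compact B₁ p l₁)
    (rxlb_convex B₂ p l₂) (rxlb_compact B₂ p l₂) ⟨z1, hz1⟩ ⟨z2, hz2⟩ hd
  obtain ⟨v, hv, ev⟩ := rxlb_ext B₁ hp h1 c s
  obtain ⟨w, hw, ew⟩ := rxlb_ext B₂ hp h2 (-c) (-s)
  have a1 : |B₂.a * -c + B₂.b * -s| = |B₂.a * c + B₂.b * s| := by
    rw [← abs_neg]; congr 1; ring
  have a2 : |B₂.a * -s - B₂.b * -c| = |B₂.a * s - B₂.b * c| := by
    rw [← abs_neg]; congr 1; ring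
  rw [a1, a2] at ew
  have k := key v hv w hw
  obtain ⟨x1, x2, y1, y2⟩ := f1.bounds hp h1
  obtain ⟨x3, x4, y3, y4⟩ := f2.bounds hp h2
  have hx := rxlb_absmul (c := c) (x := B₁.x) (y := B₂.x)
    (R := p - l₁ * (p * |B₁.a| + |B₁.b|) / 2 - l₂ * (p * |B₂.a| + |B₂.b|) / 2)
    (by linarith) (by linarith)
  have hy := rxlb_absmul (c := s) (x := B₁.y) (y := B₂.y)
    (R := 1 - l₁ * (p * |B₁.b| + |B₁.a|) / 2 - l₂ * (p * |B₂.b| + |B₂.a|) / 2)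
    (by linarith) (by linarith)
  refine ⟨|c|, |s|, _, _, ⟨abs_nonneg _, abs_nonneg _, by rw [sq_abs, sq_abs]; exact hcs⟩,
    rxlb_gam p B₁.a B₁.b c s, rxlb_gam p B₂.a B₂.b c s, ?_⟩
  linarith

theorem chord {p l k y : ℝ} {B : Bx} (hu : B.a ^ 2 + B.b ^ 2 = 1) (hk : 0 ≤ k)
    (h1 : k * |B.a| ≤ p * l) (h2 : k * |B.b| ≤ l)
    (h3 : k * (|B.a| * |B.b|) + |y - B.y| ≤ l * (p * |B.b| + |B.a|) / 2) :
    ∃ u, ∀ v ∈ Set.Icc u (u + k), (v, y) ∈ B.set p l := by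
  obtain ⟨s, t, hs, ht, e⟩ := rxlb_split (α := p * l / 2 - k * |B.a| / 2)
    (β := l / 2 - k * |B.b| / 2) (a := B.a) (b := B.b) (d := y - B.y) (by linarith) (by linarith)
    (by linarith)
  refine ⟨B.x + s * B.a - t * B.b - k / 2, fun v hv => ?_⟩
  have he : |v - (B.x + s * B.a - t * B.b)| ≤ k / 2 :=
    abs_le.mpr ⟨by linarith [hv.1], by linarith [hv.2]⟩
  have hv' : v = B.x + s * B.a - t * B.b + (v - (B.x + s * B.a - t * B.b)) := by ring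
  generalize v - (B.x + s * B.a - t * B.b) = d at he hv'
  refine ⟨s + d * B.a, t - d * B.b, ?_, ?_, ?_⟩
  · have := abs_add_le s (d * B.a)
    rw [abs_mul] at this
    have := mul_le_mul_of_nonneg_right he (abs_nonneg B.a)
    linarith
  · have := abs_sub t (d * B.b)
    rw [abs_mul] at this
    have := mul_le_mul_of_nonneg_right he (abs_nonneg B.b)
    linarith
  · refine Prod.ext ?_ ?_
    · simp only
      linear_combination hv' - d * hu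
    · simp only
      linear_combination -e

theorem three {p y k₁ k₂ k₃ u₁ u₂ u₃ : ℝ} {A₁ A₂ A₃ : Set (ℝ × ℝ)} (h1 : 0 ≤ k₁) (h2 : 0 ≤ k₂)
    (h3 : 0 ≤ k₃) (s1 : A₁ ⊆ Set.Icc 0 p ×ˢ Set.Icc 0 1) (s2 : A₂ ⊆ Set.Icc 0 p ×ˢ Set.Icc 0 1)
    (s3 : A₃ ⊆ Set.Icc 0 p ×ˢ Set.Icc 0 1) (c1 : ∀ v ∈ Set.Icc u₁ (u₁ + k₁), (v, y) ∈ A₁)
    (c2 : ∀ v ∈ Set.Icc u₂ (u₂ + k₂), (v, y) ∈ A₂) (c3 : ∀ v ∈ Set.Icc u₃ (u₃ + k₃), (v, y) ∈ A₃)
    (d12 : Disjoint A₁ A₂) (d13 : Disjoint A₁ A₃) (d23 : Disjoint A₂ A₃) :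
    k₁ + k₂ + k₃ < p := by
  have i1 := rxlb_in h1 s1 c1
  have i2 := rxlb_in h2 s2 c2
  have i3 := rxlb_in h3 s3 c3
  rcases rxlb_two h1 h2 c1 c2 d12 with a | a <;> rcases rxlb_two h1 h3 c1 c3 d13 with b | b <;>
    rcases rxlb_two h2 h3 c2 c3 d23 with c | c <;> linarith [i1.1, i1.2, i2.1, i2.2, i3.1, i3.2]

theorem NP2.np {p l₁ l₂ : ℝ} (h : NP2 p l₁ l₂) : NP p ![l₁, l₂] := by
  rintro ⟨B, hf, hd⟩
  exact h (B 0) (B 1) (hf 0) (hf 1) (hd 0 1 (by decide))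

theorem NP3.np {p l₁ l₂ l₃ : ℝ} (h : NP3 p l₁ l₂ l₃) : NP p ![l₁, l₂, l₃] := by
  rintro ⟨B, hf, hd⟩
  exact h (B 0) (B 1) (B 2) (hf 0) (hf 1) (hf 2) (hd 0 1 (by decide)) (hd 0 2 (by decide))
    (hd 1 2 (by decide))

end Pool.Agent.P.MP_eb61da_co.RX
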