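import Pool.Agent.P.MP_eb61da_co.RxLD0

/-! Lower bounds for the room that a box takes. -/

set_option linter.unusedVariables false

namespace Pool.Agent.P.MP_eb61da_co.RX

/-- a linear form on the unit arc between two unit vectors -/
theorem arc {a b c₁ s₁ c₂ s₂ u v m : ℝ} (h : a ^ 2 + b ^ 2 = 1) (h1 : c₁ ^ 2 + s₁ ^ 2 = 1)
    (h2 : c₂ ^ 2 + s₂ ^ 2 = 1) (hd : 0 < c₁ * s₂ - s₁ * c₂) (d1 : 0 ≤ c₁ * b - s₁ * a)
    (d2 : 0 ≤ a * s₂ - b * c₂) (hm : 0 ≤ m) (f1 : m ≤ u * c₁ + v * s₁) (f2 : m ≤ u * c₂ + v * s₂) :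
    m ≤ u * a + v * b := by
  obtain ⟨D, hD⟩ : ∃ D, D = c₁ * s₂ - s₁ * c₂ := ⟨_, rfl⟩
  obtain ⟨y, hy⟩ : ∃ y, y = c₁ * b - s₁ * a := ⟨_, rfl⟩
  obtain ⟨x, hx⟩ : ∃ x, x = a * s₂ - b * c₂ := ⟨_, rfl⟩
  rw [← hD] at hd
  rw [← hy] at d1
  rw [← hx] at d2
  have ea : D * a = x * c₁ + y * c₂ := by rw [hD, hx, hy]; ring
  have eb : D * b = x * s₁ + y * s₂ := by rw [hD, hx, hy]; ring
  have hip : c₁ * c₂ + s₁ * s₂ ≤ 1 := by nlinarith [sq_nonneg (c₁ - c₂), sq_nonneg (s₁ - s₂)]
  have hsq : D ^ 2 = x ^ 2 + y ^ 2 + 2 * (x * y) * (c₁ * c₂ + s₁ * s₂) := by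
    have e1 : D ^ 2 = (D * a) ^ 2 + (D * b) ^ 2 := by
      have : (D * a) ^ 2 + (D * b) ^ 2 = D ^ 2 * (a ^ 2 + b ^ 2) := by ring
      rw [this, h, mul_one]
    rw [e1, ea, eb]
    have : (x * c₁ + y * c₂) ^ 2 + (x * s₁ + y * s₂) ^ 2 =
        x ^ 2 * (c₁ ^ 2 + s₁ ^ 2) + y ^ 2 * (c₂ ^ 2 + s₂ ^ 2) +
          2 * (x * y) * (c₁ * c₂ + s₁ * s₂) := by ring
    rw [this, h1, h2, mul_one, mul_one]
  have hxy : 0 ≤ x * y := mul_nonneg d2 d1
  have hle : D ^ 2 ≤ (x + y) ^ 2 := by
    have := mul_le_mul_of_nonneg_left hip (by positivity : 0 ≤ 2 * (x * y))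
    nlinarith
  have hDle : D ≤ x + y := by
    by_contra hcon
    push Not at hcon
    have h0 : 0 ≤ x + y := add_nonneg d2 d1
    nlinarith
  have key : D * (u * a + v * b) = x * (u * c₁ + v * s₁) + y * (u * c₂ + v * s₂) := by
    have : D * (u * a + v * b) = u * (D * a) + v * (D * b) := by ring
    rw [this, ea, eb]; ring
  have k1 := mul_le_mul_of_nonneg_left f1 d2
  have k2 := mul_le_mul_of_nonneg_left f2 d1
  have k3 := mul_le_mul_of_nonneg_right hDle hm
  have : D * m ≤ D * (u * a + v * b) := by rw [key]; nlinarith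
  exact le_of_mul_le_mul_left this hd

theorem rxlc_le_one {a b : ℝ} (h : Un a b) : a ≤ 1 ∧ b ≤ 1 := by
  obtain ⟨ha, hb, hab⟩ := h
  constructor <;> nlinarith [sq_nonneg a, sq_nonneg b]

/-- reduction to the four critical values -/
theorem gam_ge {p a b c s g m : ℝ} (hp : 1 ≤ p) (h : Un a b) (hc : Un c s)
    (hg : Gam p a b c s g) (hm : 0 ≤ m) (m1 : m ≤ p * c + s) (m2 : m ≤ p * s + c)
    (m3 : m ≤ p + s * c) (m4 : m ≤ 1 + p * (s * c)) : m ≤ g := by
  obtain ⟨ha, hb, hab⟩ := h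
  obtain ⟨hc0, hs0, hcs⟩ := hc
  have hsc : s ^ 2 + c ^ 2 = 1 := by linarith
  have hp0 : 0 ≤ p := by linarith
  have pos_of : ¬ (0 < s) → 0 < c := by
    intro h0
    have : s = 0 := le_antisymm (not_lt.mp h0) hs0
    rcases hc0.lt_or_eq with h1 | h1
    · exact h1
    · rw [this, ← h1] at hcs; norm_num at hcs
  have pos_of' : ¬ (0 < c) → 0 < s := by
    intro h0
    by_contra h1
    exact h0 (pos_of h1)
  rcases hg with hg | hg
  · by_cases hA : 0 < s ∧ b * c ≤ a * s
    · have := arc (a := a) (b := b) (c₁ := 1) (s₁ := 0) (c₂ := c) (s₂ := s) (u := p * c + s)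
        (v := p * s) (m := m) hab (by norm_num) hcs (by linarith [hA.1]) (by linarith)
        (by linarith [hA.2]) hm (by linarith) (by
          have : (p * c + s) * c + p * s * s = p * (c ^ 2 + s ^ 2) + s * c := by ring
          rw [this, hcs]; linarith)
      have h2 := le_max_right (b * c) (a * s)
      rw [hg]; nlinarith
    · have hB : 0 < c ∧ a * s ≤ b * c := by
        by_cases hs : 0 < s
        · have h1 : a * s < b * c := by
            by_contra h2
            exact hA ⟨hs, not_lt.mp h2⟩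
          refine ⟨?_, h1.le⟩
          rcases hc0.lt_or_eq with h3 | h3
          · exact h3
          · rw [← h3] at h1
            have := mul_nonneg ha hs0
            linarith
        · have hs' : s = 0 := le_antisymm (not_lt.mp hs) hs0
          refine ⟨pos_of hs, ?_⟩
          rw [hs', mul_zero]; exact mul_nonneg hb hc0
      have := arc (a := a) (b := b) (c₁ := c) (s₁ := s) (c₂ := 0) (s₂ := 1) (u := p * c)
        (v := p * s + c) (m := m) hab hcs (by norm_num) (by linarith [hB.1])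
        (by linarith [hB.2]) (by linarith) hm (by
          have : p * c * c + (p * s + c) * s = p * (c ^ 2 + s ^ 2) + s * c := by ring
          rw [this, hcs]; linarith) (by linarith)
      have h2 := le_max_left (b * c) (a * s)
      rw [hg]; nlinarith
  · by_cases hA : 0 < c ∧ b * s ≤ a * c
    · have := arc (a := a) (b := b) (c₁ := 1) (s₁ := 0) (c₂ := s) (s₂ := c) (u := p * c + s)
        (v := c) (m := m) hab (by norm_num) hsc (by linarith [hA.1]) (by linarith)
        (by linarith [hA.2]) hm (by linarith) (by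
          have : (p * c + s) * s + c * c = p * (s * c) + (c ^ 2 + s ^ 2) := by ring
          rw [this, hcs]; linarith)
      have h2 := mul_le_mul_of_nonneg_left (le_max_left (a * c) (b * s)) hp0
      rw [hg]; nlinarith
    · have hB : 0 < s ∧ a * c ≤ b * s := by
        by_cases hc : 0 < c
        · have h1 : a * c < b * s := by
            by_contra h2
            exact hA ⟨hc, not_lt.mp h2⟩
          refine ⟨?_, h1.le⟩
          rcases hs0.lt_or_eq with h3 | h3
          · exact h3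
          · rw [← h3] at h1
            have := mul_nonneg ha hc0
            linarith
        · have hc' : c = 0 := le_antisymm (not_lt.mp hc) hc0
          refine ⟨pos_of' hc, ?_⟩
          rw [hc', mul_zero]; exact mul_nonneg hb hs0
      have := arc (a := a) (b := b) (c₁ := s) (s₁ := c) (c₂ := 0) (s₂ := 1) (u := s)
        (v := p * s + c) (m := m) hab hsc (by norm_num) (by linarith [hB.1])
        (by linarith [hB.2]) (by linarith) hm (by
          have : s * s + (p * s + c) * c = p * (s * c) + (c ^ 2 + s ^ 2) := by ring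
          rw [this, hcs]; linarith) (by linarith)
      have h2 := mul_le_mul_of_nonneg_left (le_max_right (a * c) (b * s)) hp0
      rw [hg]; nlinarith

theorem i1 {p a b c s g : ℝ} (hp : 1 ≤ p) (h : Un a b) (hc : Un c s) (hg : Gam p a b c s g)
    (h1 : c ≤ s) (h2 : p * c ≤ 1) : p * c + s ≤ g := by
  obtain ⟨c1, s1⟩ := rxlc_le_one hc
  have hc0 := hc.1
  have hs0 := hc.2.1
  refine gam_ge hp h hc hg (by positivity) le_rfl ?_ ?_ ?_
  · nlinarith [mul_nonneg (sub_nonneg.mpr hp) (sub_nonneg.mpr h1)]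
  · nlinarith [mul_nonneg (sub_nonneg.mpr c1) (by linarith : 0 ≤ p - s)]
  · nlinarith [mul_nonneg (sub_nonneg.mpr s1) (sub_nonneg.mpr h2)]

theorem i3 {p a b c s g : ℝ} (hp : 1 ≤ p) (h : Un a b) (hc : Un c s) (hg : Gam p a b c s g) :
    p * c + s ≤ p * g := by
  obtain ⟨c1, s1⟩ := rxlc_le_one hc
  have hc0 := hc.1
  have hs0 := hc.2.1
  have k0 := mul_nonneg (sub_nonneg.mpr c1) (sub_nonneg.mpr s1)
  have k1 := mul_nonneg (sub_nonneg.mpr hp) hc0
  have k2 := mul_nonneg (sub_nonneg.mpr hp) hs0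
  have k3 := mul_nonneg (sub_nonneg.mpr hp) (mul_nonneg hs0 hc0)
  have key : c + s ≤ g := by
    refine gam_ge hp h hc hg (by positivity) ?_ ?_ ?_ ?_ <;> nlinarith
  have := mul_le_mul_of_nonneg_left key (by linarith : 0 ≤ p)
  nlinarith

theorem i4 {p a b c s g : ℝ} (hp : 1 ≤ p) (h : Un a b) (hc : Un c s) (hg : Gam p a b c s g)
    (h1 : s ≤ c) (h2 : p * s ≤ 1) : p * s + c ≤ g := by
  obtain ⟨c1, s1⟩ := rxlc_le_one hc
  have hc0 := hc.1
  have hs0 := hc.2.1
  refine gam_ge hp h hc hg (by positivity) ?_ le_rfl ?_ ?_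
  · nlinarith [mul_nonneg (sub_nonneg.mpr hp) (sub_nonneg.mpr h1)]
  · nlinarith [mul_nonneg (sub_nonneg.mpr s1) (by linarith : 0 ≤ p - c)]
  · nlinarith [mul_nonneg (sub_nonneg.mpr c1) (sub_nonneg.mpr h2)]

theorem rxlc_small {p a b : ℝ} (hp' : p ≤ 17 / 10) (h : Un a b) (hf : p * b + a < p) :
    b ≤ 486 / 1000 ∧ 873 / 1000 ≤ a ∧ 1 - a ≤ 26 / 100 * b := by
  obtain ⟨a1, b1⟩ := rxlc_le_one h
  obtain ⟨ha, hb, hab⟩ := h
  have h1 : a < 17 / 10 * (1 - b) := by
    have := mul_le_mul_of_nonneg_right hp' (sub_nonneg.mpr b1)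
    linarith
  have hb1 : 0 < 1 - b := by linarith
  have h2 : b ≤ 486 / 1000 := by
    by_contra hcon
    push Not at hcon
    have h3 : a ^ 2 ≤ (17 / 10 * (1 - b)) ^ 2 := pow_le_pow_left₀ ha h1.le 2
    have h4 : (1 - b) * (1 + b) ≤ (1 - b) * (289 / 100 * (1 - b)) := by nlinarith
    have h5 := le_of_mul_le_mul_left h4 hb1
    linarith
  have h3 : 873 / 1000 ≤ a := by
    by_contra hcon
    push Not at hcon
    nlinarith
  refine ⟨h2, h3, ?_⟩
  have h4 : (1 - a) * (1 + a) ≤ 26 / 100 * b * (1 + a) := by nlinarith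
  exact le_of_mul_le_mul_right h4 (by linarith)

theorem i2 {p a b c s g : ℝ} (hp : 1 ≤ p) (hp' : p ≤ 17 / 10) (h : Un a b) (hc : Un c s)
    (hg : Gam p a b c s g) (hf : p * b + a < p) (hs : s < c ∨ 1 < p * c) : p * c + s ≤ g := by
  obtain ⟨b2, a2, a3⟩ := rxlc_small hp' h hf
  obtain ⟨a1, b1⟩ := rxlc_le_one h
  obtain ⟨c1, s1⟩ := rxlc_le_one hc
  obtain ⟨ha, hb, hab⟩ := h
  obtain ⟨hc0, hs0, hcs⟩ := hc
  have hp0 : 0 ≤ p := by linarith
  rcases hg with hg | hg
  · rcases le_total (b * c) (a * s) with hA | hA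
    · rw [hg, max_eq_right hA]
      have e : (1 + a) * (p * (a * c + b * s) + a * s - (p * c + s)) =
          b * (p * (a * s - b * c) + s * (p - b)) + (p * c + s) * (a ^ 2 + b ^ 2 - 1) := by ring
      rw [hab, sub_self, mul_zero, add_zero] at e
      have k : 0 ≤ b * (p * (a * s - b * c) + s * (p - b)) :=
        mul_nonneg hb (add_nonneg (mul_nonneg hp0 (sub_nonneg.mpr hA))
          (mul_nonneg hs0 (by linarith)))
      rw [← e] at k
      have := nonneg_of_mul_nonneg_right k (by linarith : 0 < 1 + a)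
      linarith
    · rw [hg, max_eq_left hA]
      have hpb : p * b ≤ 1 := by nlinarith
      have e : a * (p * (a * c + b * s) + b * c - (p * c + s)) =
          (1 - p * b) * (b * c - a * s) + c * ((1 - a) * (p - b)) +
            p * c * (a ^ 2 + b ^ 2 - 1) := by ring
      rw [hab, sub_self, mul_zero, add_zero] at e
      have k : 0 ≤ (1 - p * b) * (b * c - a * s) + c * ((1 - a) * (p - b)) :=
        add_nonneg (mul_nonneg (sub_nonneg.mpr hpb) (sub_nonneg.mpr hA))
          (mul_nonneg hc0 (mul_nonneg (sub_nonneg.mpr a1) (by linarith)))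
      rw [← e] at k
      have := nonneg_of_mul_nonneg_right k (by linarith : 0 < a)
      linarith
  · have hs14 : s ≤ 14 / 10 * c := by
      rcases hs with hs | hs
      · linarith
      · have hc1 : 588 / 1000 ≤ c := by nlinarith
        by_contra hcon
        push Not at hcon
        nlinarith
    have h2 := mul_le_mul_of_nonneg_left (le_max_left (a * c) (b * s)) hp0
    have a0 : 0 ≤ 1 - a := sub_nonneg.mpr a1
    have k1 : s * (1 - a) ≤ 14 / 10 * c * (26 / 100 * b) :=
      mul_le_mul hs14 a3 a0 (by positivity)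
    have k2 : p * (1 - a) ≤ 17 / 10 * (26 / 100 * b) :=
      mul_le_mul hp' a3 a0 (by norm_num)
    have k3 := mul_le_mul_of_nonneg_left k2 hc0
    have k4 := mul_nonneg hb hc0
    rw [hg]; nlinarith

theorem i5 {p a b c s g : ℝ} (hp : 0 ≤ p) (h : Un a b) (hc : Un c s) (hg : Gam p a b c s g) :
    a * (p * c + s) ≤ g := by
  obtain ⟨ha, hb, hab⟩ := h
  obtain ⟨hc0, hs0, hcs⟩ := hc
  rcases hg with hg | hg
  · have h2 := le_max_right (b * c) (a * s)
    have k := mul_nonneg hp (mul_nonneg hb hs0)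
    rw [hg]; nlinarith
  · have h2 := mul_le_mul_of_nonneg_left (le_max_left (a * c) (b * s)) hp
    have k := mul_nonneg hb hc0
    rw [hg]; nlinarith

end Pool.Agent.P.MP_eb61da_co.RX
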