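import Pool.Agent.P.MP_eb61da_co.RxLB
import Pool.Agent.P.MP_eb61da_co.RxLC

/-! Families of two boxes. -/

set_option linter.unusedVariables false

namespace Pool.Agent.P.MP_eb61da_co.RX

theorem rxld_le_one {a b : ℝ} (h : Un a b) : a ≤ 1 ∧ b ≤ 1 := by
  obtain ⟨ha, hb, h⟩ := h
  constructor <;> nlinarith

theorem rxld_centre {p : ℝ} (hp : 1 ≤ p) {B : Bx} (f : Fit p (p / 2) B) :
    (p / 2, (1 / 2 : ℝ)) ∈ B.set p (p / 2) := by
  obtain ⟨b1, b2, b3, b4⟩ := f.bounds (by linarith) (by linarith)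
  have hu := f.un
  obtain ⟨a1, a2⟩ := rxld_le_one hu
  obtain ⟨ha, hb, hab⟩ := hu
  have h1 := f.1
  set a := |B.a| with ea
  set b := |B.b| with eb
  have hw : |p / 2 - B.x| ≤ (p - p / 2 * (p * a + b)) / 2 := by
    rw [abs_le]; constructor <;> linarith
  have hd : |1 / 2 - B.y| ≤ (1 - p / 2 * (p * b + a)) / 2 := by
    rw [abs_le]; constructor <;> linarith
  have k0 : 0 ≤ (1 - a) * (1 - b) := mul_nonneg (by linarith) (by linarith)
  have k1 : 0 ≤ a * b := mul_nonneg ha hb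
  have k2 : p * a + b ≤ p ^ 2 + p * (a * b) := by
    have e1 : 0 ≤ (p - 1) * (1 - a + a * b) := mul_nonneg (by linarith) (by linarith)
    have e2 : 0 ≤ p * (p - 1) := mul_nonneg (by linarith) (by linarith)
    nlinarith
  have k3 : p * b + a ≤ p + p ^ 2 * (a * b) := by
    have e1 : 0 ≤ (p - 1) * (1 - b) := mul_nonneg (by linarith) (by linarith)
    have e2 : 0 ≤ (p ^ 2 - 1) * (a * b) := mul_nonneg (by nlinarith) k1
    nlinarith
  have m1 := mul_le_mul_of_nonneg_right hw ha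
  have m2 := mul_le_mul_of_nonneg_right hw hb
  have m3 := mul_le_mul_of_nonneg_right hd ha
  have m4 := mul_le_mul_of_nonneg_right hd hb
  refine ⟨(p / 2 - B.x) * B.a + (1 / 2 - B.y) * B.b,
    -((p / 2 - B.x) * B.b) + (1 / 2 - B.y) * B.a, ?_, ?_, ?_⟩
  · refine (abs_add_le _ _).trans ?_
    rw [abs_mul, abs_mul, ← ea, ← eb]
    have e : (p - p / 2 * (p * a + b)) / 2 * a + (1 - p / 2 * (p * b + a)) / 2 * b =
        (p * a + b - p ^ 2 / 2 - p * (a * b)) / 2 := by
      linear_combination (-(p ^ 2) / 4) * hab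
    nlinarith
  · refine (abs_add_le _ _).trans ?_
    rw [abs_neg, abs_mul, abs_mul, ← ea, ← eb]
    have e : (p - p / 2 * (p * a + b)) / 2 * b + (1 - p / 2 * (p * b + a)) / 2 * a =
        (p * b + a - p / 2 - p ^ 2 * (a * b)) / 2 := by
      linear_combination (-p / 4) * hab
    nlinarith
  · refine Prod.ext ?_ ?_
    · show p / 2 = _
      linear_combination (-(p / 2 - B.x)) * h1
    · show (1 / 2 : ℝ) = _
      linear_combination (-(1 / 2 - B.y)) * h1

theorem fam1 {p : ℝ} (hp : 1 ≤ p) : NP2 p (p / 2) (p / 2) := by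
  intro B₁ B₂ f1 f2 hd
  exact Set.disjoint_left.mp hd (rxld_centre hp f1) (rxld_centre hp f2)

theorem fam2 {p l n : ℝ} (hp : 1 ≤ p) (hp' : p ≤ 17 / 10) (hl : 1 < p * l) (hl' : l ≤ 1)
    (hn : p * (1 - l) ≤ n) : NP2 p l n := by
  intro B₁ B₂ f1 f2 hd
  have hp0 : 0 < p := by linarith
  have hl0 : 0 < l := by
    by_contra h
    have : p * l ≤ 0 := mul_nonpos_of_nonneg_of_nonpos hp0.le (not_lt.mp h)
    linarith
  have hq : 1 - l ≤ p * (1 - l) := le_mul_of_one_le_left (by linarith) hp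
  have hn0 : 0 ≤ n := by linarith
  obtain ⟨c, s, g₁, g₂, hc, G1, G2, hlt⟩ := sep hp0.le hl0.le hn0 f1 f2 hd
  have hD : 0 ≤ p * c + s := add_nonneg (mul_nonneg hp0.le hc.1) hc.2.1
  by_cases hs : c ≤ s ∧ p * c ≤ 1
  · have e1 := i1 hp f1.un hc G1 hs.1 hs.2
    have e2 := i1 hp f2.un hc G2 hs.1 hs.2
    have m1 := mul_le_mul_of_nonneg_left e1 hl0.le
    have m2 := mul_le_mul_of_nonneg_left e2 hn0
    have m3 : (1 - l) * (p * c + s) ≤ n * (p * c + s) :=
      mul_le_mul_of_nonneg_right (by linarith) hD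
    nlinarith
  · have hs' : s < c ∨ 1 < p * c := by
      rcases not_and_or.mp hs with h | h
      · exact Or.inl (not_le.mp h)
      · exact Or.inr (not_le.mp h)
    obtain ⟨-, -, b3, b4⟩ := f1.bounds hp0.le hl0.le
    have hf : p * |B₁.b| + |B₁.a| < p := by
      have h1 : l * (p * |B₁.b| + |B₁.a|) < l * p := by linarith
      exact lt_of_mul_lt_mul_left h1 hl0.le
    have e1 := i2 hp hp' f1.un hc G1 hf hs'
    have e2 := i3 hp f2.un hc G2
    have hg2 : 0 ≤ g₂ := by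
      by_contra h
      have : p * g₂ < 0 := mul_neg_of_pos_of_neg hp0 (not_le.mp h)
      linarith
    have m1 := mul_le_mul_of_nonneg_left e1 hl0.le
    have m2 := mul_le_mul_of_nonneg_right hn hg2
    have m3 := mul_le_mul_of_nonneg_left e2 (show 0 ≤ 1 - l by linarith)
    nlinarith

theorem rxld_flat {p : ℝ} (hp : 168 / 100 ≤ p) {B : Bx} (f : Fit p (5975 / 10000) B) :
    837 / 1000 ≤ |B.a| := by
  obtain ⟨-, -, b3, b4⟩ := f.bounds (by linarith) (by norm_num)
  obtain ⟨ha, hb, hab⟩ := f.un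
  set a := |B.a|
  set b := |B.b|
  by_contra h
  have h' : a < 837 / 1000 := not_le.mp h
  have m1 : 168 / 100 * b ≤ p * b := mul_le_mul_of_nonneg_right hp hb
  have hb' : 1 - 55 / 100 * a ≤ b := by
    by_contra h2
    have h3 : b < 1 - 55 / 100 * a := not_le.mp h2
    have h4 : b ^ 2 < (1 - 55 / 100 * a) ^ 2 := by nlinarith
    have h5 : 0 ≤ a * (837 / 1000 - a) := mul_nonneg ha (by linarith)
    nlinarith
  linarith

theorem fam3 {p : ℝ} (hp : 168 / 100 ≤ p) : NP2 p (5975 / 10000) (5975 / 10000) := by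
  intro B₁ B₂ f1 f2 hd
  have hp0 : 0 ≤ p := by linarith
  obtain ⟨c, s, g₁, g₂, hc, G1, G2, hlt⟩ := sep hp0 (by norm_num) (by norm_num) f1 f2 hd
  have hD : 0 ≤ p * c + s := add_nonneg (mul_nonneg hp0 hc.1) hc.2.1
  have e1 := i5 hp0 f1.un hc G1
  have e2 := i5 hp0 f2.un hc G2
  have m1 := mul_le_mul_of_nonneg_right (rxld_flat hp f1) hD
  have m2 := mul_le_mul_of_nonneg_right (rxld_flat hp f2) hD
  linarith

end Pool.Agent.P.MP_eb61da_co.RX
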