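import Pool.Agent.P.MP_eb61da_co.Geo

/-! Rotated boxes in a rectangle: definitions. -/

set_option linter.unusedVariables false

namespace Pool.Agent.P.MP_eb61da_co.RX

/-- centre and direction of the long side -/
structure Bx where
  x : ℝ
  y : ℝ
  a : ℝ
  b : ℝ

/-- the closed `p l × l` box -/
def Bx.set (B : Bx) (p l : ℝ) : Set (ℝ × ℝ) :=
  {v | ∃ s t : ℝ, |s| ≤ p * l / 2 ∧ |t| ≤ l / 2 ∧
    v = (B.x + s * B.a - t * B.b, B.y + s * B.b + t * B.a)}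

/-- the box lies in the container `[0, p] × [0, 1]` -/
def Fit (p l : ℝ) (B : Bx) : Prop :=
  B.a ^ 2 + B.b ^ 2 = 1 ∧ B.set p l ⊆ Set.Icc 0 p ×ˢ Set.Icc 0 1

/-- no two disjoint boxes -/
def NP2 (p l₁ l₂ : ℝ) : Prop :=
  ∀ B₁ B₂ : Bx, Fit p l₁ B₁ → Fit p l₂ B₂ → ¬ Disjoint (B₁.set p l₁) (B₂.set p l₂)

/-- no three pairwise disjoint boxes -/
def NP3 (p l₁ l₂ l₃ : ℝ) : Prop :=
  ∀ B₁ B₂ B₃ : Bx, Fit p l₁ B₁ → Fit p l₂ B₂ → Fit p l₃ B₃ →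
    Disjoint (B₁.set p l₁) (B₂.set p l₂) → Disjoint (B₁.set p l₁) (B₃.set p l₃) →
    ¬ Disjoint (B₂.set p l₂) (B₃.set p l₃)

/-- no pairwise disjoint boxes with the scales `t` -/
def NP (p : ℝ) {n : ℕ} (t : Fin n → ℝ) : Prop :=
  ¬ ∃ B : Fin n → Bx, (∀ i, Fit p (t i) (B i)) ∧
    ∀ i j, i ≠ j → Disjoint ((B i).set p (t i)) ((B j).set p (t j))

/-- a unit vector in the first quadrant -/
def Un (a b : ℝ) : Prop := 0 ≤ a ∧ 0 ≤ b ∧ a ^ 2 + b ^ 2 = 1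

/-- the room that a box of scale one takes in the direction `(c, s)` -/
def Gam (p a b c s g : ℝ) : Prop :=
  g = p * (a * c + b * s) + max (b * c) (a * s) ∨ g = p * max (a * c) (b * s) + a * s + b * c

theorem Fit.un {p l : ℝ} {B : Bx} (h : Fit p l B) : Un |B.a| |B.b| :=
  ⟨abs_nonneg _, abs_nonneg _, by rw [sq_abs, sq_abs]; exact h.1⟩

end Pool.Agent.P.MP_eb61da_co.RX
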