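import Pool.Agent.P.MP_eb61da_co.RxLB
import Pool.Agent.P.MP_eb61da_co.RxLC

/-! One large and two small boxes. -/

set_option linter.unusedVariables false

namespace Pool.Agent.P.MP_eb61da_co.RX

theorem rxle_arc {a b u v m : ℝ} (h : Un a b) (hb : b ≤ 3 / 5) (hm : 0 ≤ m) (f1 : m ≤ u)
    (f2 : m ≤ u * (4 / 5) + v * (3 / 5)) : m ≤ u * a + v * b := by
  obtain ⟨ha, hb0, hab⟩ := h
  have ha' : 4 / 5 ≤ a := by
    by_contra hc
    push Not at hc
    nlinarith
  exact arc (c₁ := 1) (s₁ := 0) (c₂ := 4 / 5) (s₂ := 3 / 5) hab (by norm_num) (by norm_num)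
    (by norm_num) (by linarith) (by linarith) hm (by linarith) f2

theorem t4_flat {p a b c s g : ℝ} (hp : 158 / 100 ≤ p) (hp' : p ≤ 168 / 100) (h : Un a b)
    (hc : Un c s) (hg : Gam p a b c s g) (hb : b ≤ 3 / 5) (hs : s < c ∨ 1 < p * c) :
    12 * (p * c + s) ≤ 13 * g := by
  obtain ⟨hc0, hs0, hcs⟩ := hc
  have p1 : 158 / 100 * c ≤ p * c := mul_le_mul_of_nonneg_right hp hc0
  have p2 : p * c ≤ 168 / 100 * c := mul_le_mul_of_nonneg_right hp' hc0
  have p3 : 158 / 100 * s ≤ p * s := mul_le_mul_of_nonneg_right hp hs0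
  have hm : 0 ≤ 12 * (p * c + s) / 13 := by linarith
  rcases hg with hg | hg
  · have m1 := le_max_left (b * c) (a * s)
    have m2 := le_max_right (b * c) (a * s)
    by_cases h1 : s ≤ 3 / 10 * c
    · have h2 := rxle_arc (u := p * c + 3 / 5 * s) (v := p * s + 2 / 5 * c) h hb hm
        (by linarith) (by linarith)
      rw [hg]
      linarith
    · push Not at h1
      have h2 := rxle_arc (u := p * c + s) (v := p * s) h hb hm (by linarith) (by linarith)
      rw [hg]
      linarith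
  · have h1 : s ≤ 14 / 10 * c := by
      rcases hs with hs | hs
      · linarith
      · by_contra h2
        push Not at h2
        have h3 : 59 / 100 ≤ c := by linarith
        nlinarith
    have m1 : p * (a * c) ≤ p * max (a * c) (b * s) :=
      mul_le_mul_of_nonneg_left (le_max_left _ _) (by linarith)
    have h2 := rxle_arc (u := p * c + s) (v := c) h hb hm (by linarith) (by linarith)
    rw [hg]
    linarith

theorem rxle_steep {p : ℝ} (hp : 158 / 100 ≤ p) (hp' : p ≤ 168 / 100) {B₁ B₂ : Bx}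
    (f1 : Fit p (64 / 100) B₁) (f2 : Fit p (39 / 100) B₂)
    (hd : Disjoint (B₁.set p (64 / 100)) (B₂.set p (39 / 100))) : 3 / 5 ≤ |B₂.b| := by
  by_contra hb
  push Not at hb
  obtain ⟨c, s, g₁, g₂, hc, hg1, hg2, hlt⟩ :=
    sep (by linarith) (by norm_num) (by norm_num) f1 f2 hd
  have hX : 0 ≤ p * c + s := add_nonneg (mul_nonneg (by linarith) hc.1) hc.2.1
  by_cases hs : s < c ∨ 1 < p * c
  · obtain ⟨-, -, b3, b4⟩ := f1.bounds (by linarith) (by norm_num)
    have h1 := i2 (by linarith) (by linarith) f1.un hc hg1 (by linarith) hs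
    have h2 := t4_flat hp hp' f2.un hc hg2 hb.le hs
    linarith
  · push Not at hs
    have h1 := i1 (by linarith) f1.un hc hg1 hs.1 hs.2
    have h2 := i1 (by linarith) f2.un hc hg2 hs.1 hs.2
    linarith

theorem rxle_big {p : ℝ} (hp : 158 / 100 ≤ p) (hp' : p ≤ 168 / 100) {B : Bx}
    (f : Fit p (64 / 100) B) :
    ∃ u, ∀ v ∈ Set.Icc u (u + 64 / 100 * p), (v, (1 / 2 : ℝ)) ∈ B.set p (64 / 100) := by
  obtain ⟨-, -, b3, b4⟩ := f.bounds (by linarith) (by norm_num)
  obtain ⟨ha, hb, hab⟩ := f.un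
  have hu := f.1
  generalize hA : |B.a| = a at *
  generalize hB : |B.b| = b at *
  have p1 : 158 / 100 * b ≤ p * b := mul_le_mul_of_nonneg_right hp hb
  have p2 : p * b ≤ 168 / 100 * b := mul_le_mul_of_nonneg_right hp' hb
  have h1 : a ≤ 15625 / 10000 - 158 / 100 * b := by linarith
  have h2 : b ≤ 42 / 100 := by
    by_contra h3
    push Not at h3
    have h4 : a * a ≤ (15625 / 10000 - 158 / 100 * b) * (15625 / 10000 - 158 / 100 * b) :=
      mul_self_le_mul_self ha h1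
    have h5 : 0 ≤ (b - 42 / 100) * (989 / 1000 - b) := mul_nonneg (by linarith) (by linarith)
    nlinarith
  have h3 : a ≤ 1 := by nlinarith
  have h4 : 4 / 5 ≤ a := by
    by_contra h5
    push Not at h5
    nlinarith
  have h5 : 0 ≤ p * b * (1 - a) := mul_nonneg (by linarith) (by linarith)
  have h6 : 0 ≤ p * (1 - a) := mul_nonneg (by linarith) (by linarith)
  have h7 : |1 / 2 - B.y| ≤ 1 / 2 - 64 / 100 * (p * b + a) / 2 :=
    abs_le.2 ⟨by linarith, by linarith⟩
  refine chord hu (by linarith) ?_ ?_ ?_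
  · rw [hA]; linarith
  · rw [hB]; linarith
  · rw [hA, hB]; linarith

theorem rxle_small {p : ℝ} (hp : 158 / 100 ≤ p) {B : Bx}
    (f : Fit p (39 / 100) B) (hb' : 3 / 5 ≤ |B.b|) :
    ∃ u, ∀ v ∈ Set.Icc u (u + 31 / 100), (v, (1 / 2 : ℝ)) ∈ B.set p (39 / 100) := by
  obtain ⟨-, -, b3, b4⟩ := f.bounds (by linarith) (by norm_num)
  obtain ⟨ha, hb, hab⟩ := f.un
  have hu := f.1
  generalize hA : |B.a| = a at *
  generalize hB : |B.b| = b at *
  have p1 : 158 / 100 * b ≤ p * b := mul_le_mul_of_nonneg_right hp hb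
  have h1 : a ≤ 1 := by nlinarith
  have h2 : b ≤ 1 := by nlinarith
  have h3 : 2 * (1 - b) ≤ a := by
    by_contra h4
    push Not at h4
    have h5 : a * a < 2 * (1 - b) * (2 * (1 - b)) := mul_self_lt_mul_self ha h4
    have h6 : 0 ≤ (1 - b) * (b - 3 / 5) := mul_nonneg (by linarith) (by linarith)
    nlinarith
  have h4 : 0 ≤ (a - 2 * (1 - b)) * (39 / 100 - 31 / 100 * b) :=
    mul_nonneg (by linarith) (by linarith)
  have h7 : |1 / 2 - B.y| ≤ 1 / 2 - 39 / 100 * (p * b + a) / 2 :=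
    abs_le.2 ⟨by linarith, by linarith⟩
  refine chord hu (by norm_num) ?_ ?_ ?_
  · rw [hA]; linarith
  · rw [hB]; linarith
  · rw [hA, hB]; nlinarith [sq_nonneg (b - 63 / 100)]

theorem fam4 {p : ℝ} (hp : 158 / 100 ≤ p) (hp' : p ≤ 168 / 100) :
    NP3 p (64 / 100) (39 / 100) (39 / 100) := by
  intro B₁ B₂ B₃ f1 f2 f3 d12 d13 d23
  obtain ⟨u₁, c1⟩ := rxle_big hp hp' f1
  obtain ⟨u₂, c2⟩ := rxle_small hp f2 (rxle_steep hp hp' f1 f2 d12)
  obtain ⟨u₃, c3⟩ := rxle_small hp f3 (rxle_steep hp hp' f1 f3 d13)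
  have h := three (by linarith) (by norm_num) (by norm_num) f1.2 f2.2 f3.2 c1 c2 c3 d12 d13 d23
  linarith

end Pool.Agent.P.MP_eb61da_co.RX
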