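import Pool.Agent.P.MP_eb61da_co.RxLB
import Pool.Agent.P.MP_eb61da_co.RxLC

/-! Two large boxes and a small one. -/

set_option linter.unusedVariables false

namespace Pool.Agent.P.MP_eb61da_co.RX

theorem rxlf_inv {p : ℝ} (hp : 119 / 100 ≤ p) (hp' : p ≤ 123 / 100) :
    1 / p ≤ 16534 / 10000 - 6832 / 10000 * p := by
  rw [div_le_iff₀ (by linarith)]
  nlinarith [mul_nonneg (sub_nonneg.mpr hp) (sub_nonneg.mpr hp')]

theorem rxlf_b_le {a b : ℝ} (h : Un a b) (ha : 44 / 125 ≤ a) : b ≤ 117 / 125 := by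
  obtain ⟨h1, h2, h3⟩ := h
  by_contra hb
  nlinarith

theorem rxlf_b_ge {a b : ℝ} (h : Un a b) (ha : a ≤ 44 / 125) : 117 / 125 ≤ b := by
  obtain ⟨h1, h2, h3⟩ := h
  by_contra hb
  nlinarith

theorem rxlf_form2 {p a b c s τ m : ℝ} (hp : 0 ≤ p) (h : Un a b) (ha : 44 / 125 ≤ a)
    (t0 : 0 ≤ τ) (fam1 : τ ≤ 1) (hm : 0 ≤ m) (f1 : m ≤ p * τ * c + s)
    (f2 : m ≤ (p * τ * c + s) * (44 / 125) + (p * (1 - τ) * s + c) * (117 / 125)) :
    m ≤ p * max (a * c) (b * s) + a * s + b * c := by
  have hb := rxlf_b_le h ha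
  obtain ⟨h1, h2, h3⟩ := h
  have key := arc (a := a) (b := b) (c₁ := 1) (s₁ := 0) (c₂ := 44 / 125) (s₂ := 117 / 125)
    (u := p * τ * c + s) (v := p * (1 - τ) * s + c) (m := m) h3 (by norm_num) (by norm_num)
    (by norm_num) (by linarith) (by linarith) hm (by linarith) f2
  have e1 := mul_nonneg (mul_nonneg hp t0) (sub_nonneg.mpr (le_max_left (a * c) (b * s)))
  have e2 := mul_nonneg (mul_nonneg hp (sub_nonneg.mpr fam1))
    (sub_nonneg.mpr (le_max_right (a * c) (b * s)))
  nlinarith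

theorem t5_tilt {p a b c s g : ℝ} (hp : 119 / 100 ≤ p) (hp' : p ≤ 123 / 100) (h : Un a b)
    (hc : Un c s) (hg : Gam p a b c s g) (ha : 44 / 125 ≤ a) (hs : s < c) :
    p * c + (1 - p + 1 / p) * s ≤ g := by
  have hb := rxlf_b_le h ha
  have hi := rxlf_inv hp hp'
  obtain ⟨c0, s0, hcs⟩ := hc
  have hc1 : c ≤ 1 := by nlinarith
  have hc7 : 7 / 10 ≤ c := by
    by_contra hh
    nlinarith
  have p0 : 0 ≤ p - 119 / 100 := by linarith
  have p1 : 0 ≤ 123 / 100 - p := by linarith
  have a1 := mul_nonneg p0 c0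
  have a2 := mul_nonneg p1 c0
  have a3 := mul_nonneg p0 s0
  have a4 := mul_nonneg p1 s0
  have hq : p * c + (1 - p + 1 / p) * s ≤ p * c + (26534 / 10000 - 16832 / 10000 * p) * s := by
    have := mul_le_mul_of_nonneg_right hi s0
    nlinarith
  refine hq.trans ?_
  have hm : 0 ≤ p * c + (26534 / 10000 - 16832 / 10000 * p) * s := by nlinarith
  have hk : p * c + (26534 / 10000 - 16832 / 10000 * p) * s ≤ p + c * s := by
    have b1 : 0 ≤ p * (1 - c) := mul_nonneg (by linarith) (by linarith)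
    have b2 : 0 ≤ s * (c - 7 / 10) := mul_nonneg s0 (by linarith)
    nlinarith
  rcases hg with hg | hg
  · obtain ⟨h1, h2, h3⟩ := h
    rcases le_total (b * c) (a * s) with hk1 | hk1
    · rw [hg, max_eq_right hk1]
      rcases s0.eq_or_lt with hs0 | hs0
      · subst hs0
        have hb0 : b = 0 := by nlinarith
        have ha1 : a = 1 := by nlinarith
        subst hb0 ha1
        linarith
      · have key := arc (a := a) (b := b) (c₁ := 1) (s₁ := 0) (c₂ := c) (s₂ := s)
          (u := p * c + s) (v := p * s) h3 (by norm_num) hcs (by linarith) (by linarith)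
          (by linarith) hm (by nlinarith)
          (by
            have : (p * c + s) * c + p * s * s = p + c * s := by linear_combination p * hcs
            linarith)
        linarith
    · rw [hg, max_eq_left hk1]
      have key := arc (a := a) (b := b) (c₁ := c) (s₁ := s) (c₂ := 44 / 125) (s₂ := 117 / 125)
        (u := p * c) (v := p * s + c) h3 hcs (by norm_num) (by linarith) (by linarith)
        (by linarith) hm
        (by
          have : p * c * c + (p * s + c) * s = p + c * s := by linear_combination p * hcs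
          linarith)
        (by nlinarith)
      linarith
  · rw [hg]
    rcases le_total s (55 / 100 * c) with q1 | q1
    · have b1 := mul_nonneg p0 (sub_nonneg.mpr q1)
      have b2 := mul_nonneg p1 (sub_nonneg.mpr q1)
      exact rxlf_form2 (τ := 1) (by linarith) h ha (by norm_num) (by norm_num) hm (by nlinarith)
        (by nlinarith)
    · have b1 := mul_nonneg p0 (sub_nonneg.mpr q1)
      have b2 := mul_nonneg p1 (sub_nonneg.mpr q1)
      rcases le_total s (7 / 10 * c) with q2 | q2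
      · have b3 := mul_nonneg p0 (sub_nonneg.mpr q2)
        have b4 := mul_nonneg p1 (sub_nonneg.mpr q2)
        exact rxlf_form2 (τ := 85 / 100) (by linarith) h ha (by norm_num) (by norm_num) hm
          (by nlinarith) (by nlinarith)
      · have b3 := mul_nonneg p0 (sub_nonneg.mpr q2)
        have b4 := mul_nonneg p1 (sub_nonneg.mpr q2)
        have b5 := mul_nonneg p0 (sub_nonneg.mpr hs.le)
        have b6 := mul_nonneg p1 (sub_nonneg.mpr hs.le)
        exact rxlf_form2 (τ := 8 / 10) (by linarith) h ha (by norm_num) (by norm_num) hm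
          (by nlinarith) (by nlinarith)

theorem t5_pair {p : ℝ} {B₁ B₂ : Bx} (hp : 119 / 100 ≤ p) (hp' : p ≤ 123 / 100)
    (f1 : Fit p (p / (1 + p)) B₁) (f2 : Fit p (p / (1 + p)) B₂)
    (hd : Disjoint (B₁.set p (p / (1 + p))) (B₂.set p (p / (1 + p)))) : |B₁.a| ≤ 44 / 125 := by
  by_contra ha
  have hL0 : 0 ≤ p / (1 + p) := div_nonneg (by linarith) (by linarith)
  have hL : p / (1 + p) * (1 + p) = p := div_mul_cancel₀ _ (by linarith)
  have hL2 : 1 / 2 ≤ p / (1 + p) := by
    rw [le_div_iff₀ (by linarith)]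
    linarith
  have hL3 : p / (1 + p) * (1 + 1 / p) = 1 := by
    have : p ≠ 0 := by linarith
    have : 1 + p ≠ 0 := by linarith
    field_simp
    ring
  obtain ⟨c, s, g₁, g₂, hc, hg1, hg2, hlt⟩ := sep (by linarith) hL0 hL0 f1 f2 hd
  generalize p / (1 + p) = L at *
  have ⟨c0, s0, hcs⟩ := hc
  rcases le_or_gt c s with hs | hs
  · have hc8 : c ≤ 8 / 10 := by
      by_contra hh
      nlinarith
    have hpc : p * c ≤ 1 := by nlinarith
    have k1 := i1 (by linarith) f1.un hc hg1 hs hpc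
    have k2 := i1 (by linarith) f2.un hc hg2 hs hpc
    have k0 : 0 ≤ p * c + s := by nlinarith
    have k3 := mul_le_mul_of_nonneg_left k1 hL0
    have k4 := mul_le_mul_of_nonneg_left k2 hL0
    have k5 := mul_le_mul_of_nonneg_right hL2 k0
    linarith
  · have hs8 : s ≤ 8 / 10 := by
      by_contra hh
      nlinarith
    have hps : p * s ≤ 1 := by nlinarith
    have k1 := t5_tilt hp hp' f1.un hc hg1 (not_le.mp ha).le hs
    have k2 := i4 (by linarith) f2.un hc hg2 hs.le hps
    have k3 := mul_le_mul_of_nonneg_left k1 hL0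
    have k4 := mul_le_mul_of_nonneg_left k2 hL0
    have k5 : L * (p * c + (1 - p + 1 / p) * s) + L * (p * s + c) = p * c + s := by
      linear_combination c * hL + s * hL3
    linarith

theorem rxlf_small {p a b : ℝ} (hp : 119 / 100 ≤ p) (h : Un a b) : a * b + 1 ≤ p * b + a := by
  obtain ⟨h1, h2, h3⟩ := h
  have b1 : b ≤ 1 := by nlinarith
  have key : b * (1 - b) ≤ 19 / 100 * (1 + a) := by
    rcases le_total a (32 / 100) with ha | ha
    · have : 9 / 10 ≤ b := by
        by_contra hh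
        nlinarith
      nlinarith
    · nlinarith [sq_nonneg (b - 1 / 2)]
  have k2 := mul_le_mul_of_nonneg_left key h2
  have k3 : (1 - a) * (1 - b) * (1 + a) ≤ 19 / 100 * b * (1 + a) := by
    have : (1 - a) * (1 - b) * (1 + a) = b * (b * (1 - b)) := by
      linear_combination (b - 1) * h3
    linarith
  have k4 := le_of_mul_le_mul_right k3 (by linarith)
  have k5 := mul_nonneg (sub_nonneg.mpr hp) h2
  nlinarith

theorem rxlf_big {a b : ℝ} (h : Un a b) (ha : a ≤ 44 / 125) :
    824 / 1000 * (a * b) + 123 / 100 * (1 - b) ≤ a := by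
  have hb := rxlf_b_ge h ha
  obtain ⟨h1, h2, h3⟩ := h
  have b1 : b ≤ 1 := by nlinarith
  have k1 : 1936 / 1000 * (1 - b) ≤ a ^ 2 := by nlinarith
  have k2 : 0 ≤ 123 / 100 - 824 / 1000 * a := by linarith
  have k3 := mul_le_mul_of_nonneg_right k1 k2
  have k4 : a * (123 / 100 - 824 / 1000 * a) ≤ 1936 / 1000 * (176 / 1000) := by nlinarith
  have k5 := mul_le_mul_of_nonneg_left k4 h1
  nlinarith

theorem rxlf_chord {p L y : ℝ} {B : Bx} (hp : 119 / 100 ≤ p) (hp' : p ≤ 123 / 100)
    (hL : L * (1 + p) = p) (f : Fit p L B) (ha : |B.a| ≤ 44 / 125) (y0 : 1 - p * L ≤ y)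
    (y1 : y ≤ p * L) :
    ∃ u, ∀ v ∈ Set.Icc u (u + (p - (1 - p * L)) / 2), (v, y) ∈ B.set p L := by
  have hL0 : 1 / 2 ≤ L := by
    by_contra hh
    nlinarith
  have hk : (p - (1 - p * L)) / 2 ≤ 824 / 1000 * L := by
    have h1 : (p - (1 - p * L)) / 2 * (1 + p) ≤ 824 / 1000 * L * (1 + p) := by
      have e1 : (p - (1 - p * L)) / 2 * (1 + p) = (2 * p ^ 2 - 1) / 2 := by
        linear_combination p / 2 * hL
      have e2 : 824 / 1000 * L * (1 + p) = 824 / 1000 * p := by linear_combination 824 / 1000 * hL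
      rw [e1, e2]
      nlinarith
    exact le_of_mul_le_mul_right h1 (by linarith)
  have hpL : L ≤ p * L := by nlinarith
  have hk0 : 0 ≤ (p - (1 - p * L)) / 2 := by linarith
  obtain ⟨-, -, q1, q2⟩ := f.bounds (by linarith) (by linarith)
  have hu := f.un
  have hbig := rxlf_big hu ha
  obtain ⟨a0, b0, hab⟩ := hu
  have b1 : |B.b| ≤ 1 := by nlinarith
  generalize (p - (1 - p * L)) / 2 = k at *
  refine chord f.1 hk0 ?_ ?_ ?_
  · have := mul_le_mul_of_nonneg_left (show |B.a| ≤ 1 by linarith) hk0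
    linarith
  · have := mul_le_mul_of_nonneg_left b1 hk0
    linarith
  · have e1 := mul_le_mul_of_nonneg_right hk (mul_nonneg a0 b0)
    have e2 := mul_le_mul_of_nonneg_left hbig (show 0 ≤ L by linarith)
    have e3 := mul_nonneg (mul_nonneg (sub_nonneg.mpr hp') (show 0 ≤ L by linarith))
      (sub_nonneg.mpr b1)
    have e4 : |y - B.y| ≤ p * L - L * (p * |B.b| + |B.a|) / 2 := by
      rw [abs_le]
      constructor <;> linarith
    nlinarith

theorem fam5 {p : ℝ} (hp : 119 / 100 ≤ p) (hp' : p ≤ 123 / 100) :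
    NP3 p (p / (1 + p)) (p / (1 + p)) (1 - p * (p / (1 + p))) := by
  intro B₁ B₂ B₃ f1 f2 f3 d12 d13 d23
  have a1 := t5_pair hp hp' f1 f2 d12
  have a2 := t5_pair hp hp' f2 f1 d12.symm
  have hL : p / (1 + p) * (1 + p) = p := div_mul_cancel₀ _ (by linarith)
  generalize p / (1 + p) = L at *
  have hL0 : 1 / 2 ≤ L := by
    by_contra hh
    nlinarith
  have hL1 : L ≤ 6 / 10 := by
    by_contra hh
    nlinarith
  have hpL : L ≤ p * L := by nlinarith
  have hn : 0 ≤ 1 - p * L := by nlinarith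
  obtain ⟨-, -, q1, q2⟩ := f3.bounds (by linarith) hn
  have hu := f3.un
  have hsm := rxlf_small hp hu
  obtain ⟨a0, b0, hab⟩ := hu
  have a3 : |B₃.a| ≤ 1 := by nlinarith
  have b3 : |B₃.b| ≤ 1 := by nlinarith
  have hy : ∃ y, 1 - p * L ≤ y ∧ y ≤ p * L ∧ (1 - p * L) * (|B₃.a| * |B₃.b|) + |y - B₃.y| ≤
      (1 - p * L) * (p * |B₃.b| + |B₃.a|) / 2 := by
    have e1 := mul_le_mul_of_nonneg_left hsm hn
    rcases le_total B₃.y (1 - p * L) with h1 | h1
    · refine ⟨1 - p * L, le_rfl, by linarith, ?_⟩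
      rw [abs_of_nonneg (show 0 ≤ 1 - p * L - B₃.y by linarith)]
      linarith
    · rcases le_total (p * L) B₃.y with h2 | h2
      · refine ⟨p * L, by linarith, le_rfl, ?_⟩
        rw [abs_of_nonpos (show p * L - B₃.y ≤ 0 by linarith)]
        linarith
      · refine ⟨B₃.y, h1, h2, ?_⟩
        have e2 : |B₃.a| * |B₃.b| ≤ (p * |B₃.b| + |B₃.a|) / 2 := by
          have := mul_nonneg a0 (sub_nonneg.mpr b3)
          have := mul_nonneg b0 (sub_nonneg.mpr a3)
          have := mul_nonneg (sub_nonneg.mpr hp) b0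
          linarith
        have e3 := mul_le_mul_of_nonneg_left e2 hn
        rw [sub_self, abs_zero]
        linarith
  obtain ⟨y, y0, y1, hy⟩ := hy
  obtain ⟨u₁, c1⟩ := rxlf_chord hp hp' hL f1 a1 y0 y1
  obtain ⟨u₂, c2⟩ := rxlf_chord hp hp' hL f2 a2 y0 y1
  obtain ⟨u₃, c3⟩ := chord (p := p) (l := 1 - p * L) (k := 1 - p * L) (y := y) f3.1 hn
    (by
      have := mul_le_mul_of_nonneg_left (show |B₃.a| ≤ p by linarith) hn
      linarith)
    (by
      have := mul_le_mul_of_nonneg_left b3 hn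
      linarith) hy
  have := three (by linarith) (by linarith) hn f1.2 f2.2 f3.2 c1 c2 c3 d12 d13 d23
  linarith

end Pool.Agent.P.MP_eb61da_co.RX
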