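import Pool.Agent.P.MP_eb61da_co.RxLA
import Pool.Agent.P.MP_eb61da_co.RxLD
import Pool.Agent.P.MP_eb61da_co.RxLE
import Pool.Agent.P.MP_eb61da_co.RxLF

/-! The lower bound for all rectangles. -/

set_option linter.unusedVariables false

namespace Pool.Agent.P.MP_eb61da_co.RX

theorem exists_root : ∃ r : ℝ, 11956 / 10000 ≤ r ∧ r ≤ 11957 / 10000 ∧
    r ^ 4 - 6 * r ^ 3 + r ^ 2 + 4 * r + 2 = 0 := by
  have hc : ContinuousOn (fun r : ℝ => r ^ 4 - 6 * r ^ 3 + r ^ 2 + 4 * r + 2)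
      (Set.Icc (11956 / 10000) (11957 / 10000)) := by fun_prop
  obtain ⟨r, hr, h⟩ := intermediate_value_Icc' (by norm_num) hc
    (show (0 : ℝ) ∈ Set.Icc _ _ by constructor <;> norm_num)
  exact ⟨r, hr.1, hr.2, h⟩

variable {r : ℝ} (h1 : 11956 / 10000 ≤ r) (h2 : r ≤ 11957 / 10000)
  (h3 : r ^ 4 - 6 * r ^ 3 + r ^ 2 + 4 * r + 2 = 0)
include h1 h2 h3

theorem two_tight {x y : ℝ} (h : x ^ 2 + y ^ 2 ≤ r ^ 2 / 2) : x + y ≤ r := by
  refine le_trans (le_abs_self _) (abs_le_of_sq_le_sq' ?_ (by linarith) |> abs_le.2)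
  nlinarith [sq_nonneg (x - y)]

theorem three_tight {x y z : ℝ} (hxy : y ≤ x) (h : x ^ 2 + y ^ 2 + z ^ 2 ≤ r ^ 2 / 2) :
    x + r * y ≤ r ∨ z + r * y ≤ 1 := by
  by_contra hcon
  rw [not_or, not_le, not_le] at hcon
  obtain ⟨hA, hB⟩ := hcon
  have hr1 : (0 : ℝ) < 1 + r := by linarith
  obtain ⟨L, hL⟩ : ∃ L : ℝ, L * (1 + r) = r := ⟨r / (1 + r), by field_simp⟩
  have hL1 : 54 / 100 ≤ L := by
    by_contra hh
    nlinarith [mul_pos (sub_pos.2 (not_le.1 hh)) hr1]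
  have hL2 : L ≤ 55 / 100 := by
    by_contra hh
    nlinarith [mul_pos (sub_pos.2 (not_le.1 hh)) hr1]
  obtain ⟨nu, hnu⟩ : ∃ nu : ℝ, nu = 1 - r * L := ⟨_, rfl⟩
  have hn1 : 34 / 100 ≤ nu := by nlinarith
  have hn2 : nu ≤ 36 / 100 := by nlinarith
  have hid : r ^ 2 / 2 = 2 * L ^ 2 + nu ^ 2 := by
    have h0 : (1 + r) ^ 2 ≠ 0 := by positivity
    apply mul_left_cancel₀ h0
    have e1 : nu * (1 + r) = 1 + r - r ^ 2 := by rw [hnu]; linear_combination (-r) * hL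
    have e2 : (1 + r) ^ 2 * (2 * L ^ 2 + nu ^ 2) =
        2 * (L * (1 + r)) ^ 2 + (nu * (1 + r)) ^ 2 := by ring
    rw [e2, hL, e1]
    linear_combination (-1 / 2) * h3
  obtain ⟨al, hal⟩ : ∃ al : ℝ, al * (1 + r) = 4 * L - 2 * nu * r :=
    ⟨(4 * L - 2 * nu * r) / (1 + r), by field_simp⟩
  have hal1 : 0 < al := by
    by_contra hh
    nlinarith [mul_nonneg (sub_nonneg.2 (not_lt.1 hh)) hr1.le]
  have hal2 : al ≤ 2 * L := by
    by_contra hh
    nlinarith [mul_pos (sub_pos.2 (not_le.1 hh)) hr1]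
  have halr : al * r = 4 * L ^ 2 - 2 * nu * (r * L) := by
    linear_combination L * hal - al * hL
  have e3 : 2 * L * x + 2 * L * y + 2 * nu * z =
      al * (x + r * y) + 2 * nu * (z + r * y) + (2 * L - al) * (x - y) := by
    linear_combination (-y) * hal
  have k1 : al * r < al * (x + r * y) := mul_lt_mul_of_pos_left hA hal1
  have k2 : 2 * nu * 1 ≤ 2 * nu * (z + r * y) := mul_le_mul_of_nonneg_left hB.le (by linarith)
  have k3 : 0 ≤ (2 * L - al) * (x - y) := mul_nonneg (by linarith) (by linarith)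
  have k4 : al * r + 2 * nu = 4 * L ^ 2 + 2 * nu ^ 2 := by
    rw [halr]; linear_combination (-2 * nu) * hnu
  nlinarith [sq_nonneg (x - L), sq_nonneg (y - L), sq_nonneg (z - nu)]

theorem sum_lt {p : ℝ} (hp : r < p) (hp' : p ≤ 123 / 100) :
    2 * (p / (1 + p)) ^ 2 + (1 - p * (p / (1 + p))) ^ 2 < r ^ 2 / 2 := by
  have hp1 : (0 : ℝ) < 1 + p := by linarith
  have e : 2 * (p / (1 + p)) ^ 2 + (1 - p * (p / (1 + p))) ^ 2 =
      (p ^ 4 - 2 * p ^ 3 + p ^ 2 + 2 * p + 1) / (1 + p) ^ 2 := by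
    field_simp
    ring
  rw [e, div_lt_iff₀ (by positivity)]
  have hr0 : 0 < r := by linarith
  have hp0 : 0 < p := by linarith
  have a1 : p ^ 3 ≤ 123 / 100 * p ^ 2 := by nlinarith [mul_pos hp0 hp0]
  have a2 : p ^ 2 * r ≤ 123 / 100 * (p * r) := by nlinarith [mul_pos hp0 hr0]
  have a3 : p * r ^ 2 ≤ 123 / 100 * r ^ 2 := by nlinarith [mul_pos hr0 hr0]
  have a4 : r ^ 3 ≤ 123 / 100 * r ^ 2 := by nlinarith [mul_pos hr0 hr0]
  have a5 : 142 / 100 ≤ r ^ 2 := by nlinarith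
  have a6 : 142 / 100 ≤ p * r := by nlinarith
  have a7 : 142 / 100 ≤ p ^ 2 := by nlinarith
  have hK : 2 * p ^ 3 + 2 * (p ^ 2 * r) + p * r ^ 2 + r ^ 3 - 4 * p ^ 2 - 4 * (p * r) - 6 * r ^ 2 +
      2 * p + 2 * r + 4 < 0 := by linarith
  have := mul_neg_of_pos_of_neg (sub_pos.2 hp) hK
  nlinarith

theorem family {p : ℝ} (hp : 1 ≤ p) : ∃ (n : ℕ) (t : Fin n → ℝ), 0 < n ∧ (∀ i, 0 < t i) ∧
    NP p t ∧ ∑ i, t i ^ 2 ≤ r ^ 2 / 2 ∧ (p ≠ r → ∑ i, t i ^ 2 < r ^ 2 / 2) := by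
  have hr2 : 7147 / 10000 ≤ r ^ 2 / 2 := by nlinarith
  have two : ∀ l n : ℝ, 0 < l → 0 < n → NP2 p l n → l ^ 2 + n ^ 2 < 7147 / 10000 →
      ∃ (n : ℕ) (t : Fin n → ℝ), 0 < n ∧ (∀ i, 0 < t i) ∧
        NP p t ∧ ∑ i, t i ^ 2 ≤ r ^ 2 / 2 ∧ (p ≠ r → ∑ i, t i ^ 2 < r ^ 2 / 2) := by
    intro l n hl hn h hs
    have : ∑ i, (![l, n] : Fin 2 → ℝ) i ^ 2 < r ^ 2 / 2 := by
      rw [Fin.sum_univ_two]
      simp only [Matrix.cons_val_zero, Matrix.cons_val_one]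
      linarith
    refine ⟨2, ![l, n], by norm_num, fun i => ?_, h.np, this.le, fun _ => this⟩
    fin_cases i
    · exact hl
    · exact hn
  have three' : ∀ l m n : ℝ, 0 < l → 0 < m → 0 < n → NP3 p l m n →
      l ^ 2 + m ^ 2 + n ^ 2 < r ^ 2 / 2 →
      ∃ (n : ℕ) (t : Fin n → ℝ), 0 < n ∧ (∀ i, 0 < t i) ∧
        NP p t ∧ ∑ i, t i ^ 2 ≤ r ^ 2 / 2 ∧ (p ≠ r → ∑ i, t i ^ 2 < r ^ 2 / 2) := by
    intro l m n hl hm hn h hs
    have : ∑ i, (![l, m, n] : Fin 3 → ℝ) i ^ 2 < r ^ 2 / 2 := by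
      rw [Fin.sum_univ_three]
      exact hs
    refine ⟨3, ![l, m, n], by norm_num, fun i => ?_, h.np, this.le, fun _ => this⟩
    fin_cases i
    · exact hl
    · exact hm
    · exact hn
  rcases le_or_gt p r with c1 | c1
  · have e : ∑ i, (![p / 2, p / 2] : Fin 2 → ℝ) i ^ 2 = p ^ 2 / 2 := by
      rw [Fin.sum_univ_two]
      simp only [Matrix.cons_val_zero, Matrix.cons_val_one]
      ring
    refine ⟨2, ![p / 2, p / 2], by norm_num, fun i => ?_, (fam1 hp).np, ?_, fun hne => ?_⟩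
    · fin_cases i <;> exact half_pos (by linarith)
    · rw [e]; nlinarith
    · rw [e]
      have := lt_of_le_of_ne c1 hne
      nlinarith
  rcases le_or_gt p (123 / 100) with c2 | c2
  · have hp1 : (0 : ℝ) < 1 + p := by linarith
    have hL : 0 < p / (1 + p) := by positivity
    refine three' _ _ _ hL hL ?_ (fam5 (by linarith) c2) ?_
    · rw [sub_pos, ← mul_div_assoc, div_lt_one hp1]
      nlinarith
    · have := sum_lt h1 h2 h3 c1 c2
      linarith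
  rcases le_or_gt p (3 / 2) with c3 | c3
  · have hq : 0 ≤ (p - 123 / 100) * (3 / 2 - p) := mul_nonneg (by linarith) (by linarith)
    refine two ((273 / 100 - p) * (1000 / 1845) + 2 / 10000) (p - 1) (by linarith) (by linarith)
      (fam2 hp (by linarith) ?_ (by linarith) ?_) ?_
    · nlinarith
    · nlinarith
    · nlinarith
  rcases le_or_gt p (158 / 100) with c4 | c4
  · refine two (72 / 100) (28 / 100 * p) (by norm_num) (by linarith)
      (fam2 hp (by linarith) (by linarith) (by norm_num) (by linarith)) ?_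
    nlinarith
  rcases le_or_gt p (168 / 100) with c5 | c5
  · exact three' _ _ _ (by norm_num) (by norm_num) (by norm_num) (fam4 c4.le c5) (by linarith)
  · exact two _ _ (by norm_num) (by norm_num) (fam3 c5.le) (by norm_num)

theorem lower {a b S : ℝ} (hb : 0 < b) (hab : b ≤ a) (H : ClonesPack (rect a b) S) :
    2 / r ^ 2 ≤ S ∧ (S = 2 / r ^ 2 → a = r * b) := by
  have ha : 0 < a := lt_of_lt_of_le hb hab
  have hr0 : 0 < r := by linarith
  obtain ⟨n, t, hn, ht, hnp, hle, hlt⟩ := family h1 h2 h3 (p := a / b) ((one_le_div hb).2 hab)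
  have hS : 1 ≤ S * ∑ i, t i ^ 2 := not_lt.1 fun hs => not_pack ha hb hn ht hs hnp H
  have h0 : 0 ≤ ∑ i, t i ^ 2 := Finset.sum_nonneg fun i _ => sq_nonneg _
  have hS0 : 0 < S := by
    by_contra hh
    nlinarith [mul_nonneg (sub_nonneg.2 (not_lt.1 hh)) h0]
  refine ⟨?_, fun he => ?_⟩
  · rw [div_le_iff₀ (by positivity)]
    nlinarith [mul_le_mul_of_nonneg_left hle hS0.le]
  · by_contra hne
    have hne' : a / b ≠ r := fun h => hne (by rw [← h]; field_simp)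
    have h4 := mul_lt_mul_of_pos_left (hlt hne') hS0
    have h5 : S * (r ^ 2 / 2) = 1 := by rw [he]; field_simp
    linarith

end Pool.Agent.P.MP_eb61da_co.RX
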