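import Pool.Agent.P.MP_eb61da_co.Geo

/-! Packings of clones of a parallelogram with angle `arccos (24 / 25)`. -/

set_option linter.unusedVariables false

namespace Pool.Agent.P.MP_eb61da_co.RX

open MeasureTheory Set
open scoped Pointwise

/-- coordinates along the two sides -/
noncomputable def ca (v : Plane) : ℝ := v 0 - 24 / 7 * v 1
noncomputable def cb (v : Plane) : ℝ := 25 / 7 * v 1

def pbox (x y w h : ℝ) : Set Plane := {v | ca v ∈ Icc x (x + w) ∧ cb v ∈ Icc y (y + h)}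

/-- the point with given coordinates -/
noncomputable def pt (x y : ℝ) : Plane := WithLp.toLp 2 ![x + 24 / 25 * y, 7 / 25 * y]

theorem ca_pt (x y : ℝ) : ca (pt x y) = x := by simp [ca, pt]; ring
theorem cb_pt (x y : ℝ) : cb (pt x y) = y := by simp [cb, pt]; ring
theorem ca_add (u v : Plane) : ca (u + v) = ca u + ca v := by simp [ca]; ring
theorem cb_add (u v : Plane) : cb (u + v) = cb u + cb v := by simp [cb]; ring
theorem ca_smul (c : ℝ) (v : Plane) : ca (c • v) = c * ca v := by simp [ca]; ring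
theorem cb_smul (c : ℝ) (v : Plane) : cb (c • v) = c * cb v := by simp [cb]; ring

theorem disj_of_fun {A B : Set Plane} (φ : Plane → ℝ) (e : Plane)
    (hφ : ∀ v (s : ℝ), φ (v + s • e) = φ v + s) (t : ℝ) (hA : ∀ v ∈ A, φ v ≤ t)
    (hB : ∀ v ∈ B, t ≤ φ v) : Disjoint (interior A) (interior B) := by
  rw [Set.disjoint_left]
  intro v h1 h2
  have hc : Continuous fun s : ℝ => v + s • e := by fun_prop
  have ho : IsOpen ((fun s : ℝ => v + s • e) ⁻¹' interior A) := isOpen_interior.preimage hc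
  obtain ⟨d, hd, hb⟩ := Metric.isOpen_iff.1 ho 0 (by simpa using h1)
  have h3 : v + (d / 2) • e ∈ A := interior_subset (hb (by
    rw [Metric.mem_ball, Real.dist_eq, sub_zero, abs_of_pos (by linarith)]; linarith))
  have h4 := hA _ h3
  have h5 := hB _ (interior_subset h2)
  rw [hφ] at h4
  linarith

/-- a placement of the clones indexed by `t` inside `B` -/
def Pq {ι : Type} (F : Set Plane) (a : ι → ℝ) (t : Multiset ι) (B : Set Plane) : Prop :=
  ∃ g : ι → (Plane ≃ᵢ Plane), (∀ i ∈ t, g i '' (a i • F) ⊆ B) ∧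
    ∀ i ∈ t, ∀ j ∈ t, i ≠ j → Disjoint (interior (g i '' (a i • F))) (interior (g j '' (a j • F)))

theorem Pq.join {ι : Type} {F : Set Plane} {a : ι → ℝ} {t₁ t₂ : Multiset ι} {B₁ B₂ B : Set Plane}
    (H1 : Pq F a t₁ B₁) (H2 : Pq F a t₂ B₂) (h1 : B₁ ⊆ B) (h2 : B₂ ⊆ B)
    (hd : Disjoint (interior B₁) (interior B₂)) : Pq F a (t₁ + t₂) B := by
  classical
  obtain ⟨g₁, a1, b1⟩ := H1
  obtain ⟨g₂, a2, b2⟩ := H2
  refine ⟨fun i => if i ∈ t₁ then g₁ i else g₂ i, ?_, ?_⟩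
  · intro i hi
    by_cases h : i ∈ t₁
    · simp only [h, if_true]; exact (a1 i h).trans h1
    · simp only [h, if_false]
      exact (a2 i ((Multiset.mem_add.1 hi).resolve_left h)).trans h2
  · intro i hi j hj hij
    by_cases h : i ∈ t₁ <;> by_cases h' : j ∈ t₁ <;> simp only [h, h', if_true, if_false]
    · exact b1 i h j h' hij
    · exact hd.mono (interior_mono (a1 i h))
        (interior_mono (a2 j ((Multiset.mem_add.1 hj).resolve_left h')))
    · exact hd.symm.mono (interior_mono (a2 i ((Multiset.mem_add.1 hi).resolve_left h)))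
        (interior_mono (a1 j h'))
    · exact b2 i ((Multiset.mem_add.1 hi).resolve_left h) j
        ((Multiset.mem_add.1 hj).resolve_left h') hij

/-- the multiset of scales packs in every `w × h` box -/
def PP (p w h : ℝ) (S : Multiset ℝ) : Prop := 0 ≤ w ∧ 0 ≤ h ∧
  ∀ (ι : Type) (a : ι → ℝ) (t : Multiset ι) (x y : ℝ), t.map a = S →
    Pq (pbox 0 0 p 1) a t (pbox x y w h)

theorem PP.hc {p w₁ w₂ h : ℝ} {S₁ S₂ : Multiset ℝ} (H1 : PP p w₁ h S₁) (H2 : PP p w₂ h S₂) :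
    PP p (w₁ + w₂) h (S₁ + S₂) := by
  obtain ⟨a1, a2, H1⟩ := H1
  obtain ⟨b1, b2, H2⟩ := H2
  refine ⟨by linarith, a2, fun ι a t x y ht => ?_⟩
  obtain ⟨t₁, t₂, rfl, e1, e2⟩ := map_split a S₁ S₂ t ht
  refine (H1 ι a t₁ x y e1).join (H2 ι a t₂ (x + w₁) y e2) ?_ ?_
    (disj_of_fun ca (pt 1 0) (fun v s => by rw [ca_add, ca_smul, ca_pt, mul_one]) (x + w₁)
      (fun v hv => hv.1.2) (fun v hv => hv.1.1))
  · rintro v ⟨⟨c1, c2⟩, c3⟩; exact ⟨⟨c1, by linarith⟩, c3⟩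
  · rintro v ⟨⟨c1, c2⟩, c3⟩; exact ⟨⟨by linarith, by linarith⟩, c3⟩

theorem PP.vc {p w h₁ h₂ : ℝ} {S₁ S₂ : Multiset ℝ} (H1 : PP p w h₁ S₁) (H2 : PP p w h₂ S₂) :
    PP p w (h₁ + h₂) (S₁ + S₂) := by
  obtain ⟨a1, a2, H1⟩ := H1
  obtain ⟨b1, b2, H2⟩ := H2
  refine ⟨a1, by linarith, fun ι a t x y ht => ?_⟩
  obtain ⟨t₁, t₂, rfl, e1, e2⟩ := map_split a S₁ S₂ t ht
  refine (H1 ι a t₁ x y e1).join (H2 ι a t₂ x (y + h₁) e2) ?_ ?_
    (disj_of_fun cb (pt 0 1) (fun v s => by rw [cb_add, cb_smul, cb_pt, mul_one]) (y + h₁)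
      (fun v hv => hv.2.2) (fun v hv => hv.2.1))
  · rintro v ⟨c3, c1, c2⟩; exact ⟨c3, c1, by linarith⟩
  · rintro v ⟨c3, c1, c2⟩; exact ⟨c3, by linarith, by linarith⟩

theorem mem_smul_pbox {p c : ℝ} (hc : 0 ≤ c) {v : Plane} (hv : v ∈ c • pbox 0 0 p 1) :
    ca v ∈ Icc 0 (p * c) ∧ cb v ∈ Icc 0 c := by
  obtain ⟨u, ⟨⟨h1, h2⟩, h3, h4⟩, rfl⟩ := hv
  simp only [ca_smul, cb_smul, mem_Icc]
  refine ⟨⟨by positivity, by nlinarith⟩, by positivity, by nlinarith⟩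

theorem PP.single {p w h b : ℝ} (hb : 0 ≤ b) (hw : 0 ≤ w) (hh : 0 ≤ h) (g : Plane ≃ᵢ Plane)
    (s t : ℝ) (hg : ∀ v, ca v ∈ Icc 0 (p * b) → cb v ∈ Icc 0 b →
      ca (g v) + s ∈ Icc 0 w ∧ cb (g v) + t ∈ Icc 0 h) : PP p w h {b} := by
  refine ⟨hw, hh, fun ι a t' x y ht => ?_⟩
  obtain ⟨i, rfl, rfl⟩ := Multiset.map_eq_singleton.1 ht
  refine ⟨fun _ => g.trans (IsometryEquiv.addRight (pt (x + s) (y + t))), ?_, ?_⟩
  · intro j hj
    rw [Multiset.mem_singleton.1 hj]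
    rintro _ ⟨v, hv, rfl⟩
    obtain ⟨h1, h2⟩ := mem_smul_pbox hb hv
    obtain ⟨⟨c1, c2⟩, c3, c4⟩ := hg v h1 h2
    change ca (g v + pt (x + s) (y + t)) ∈ _ ∧ cb (g v + pt (x + s) (y + t)) ∈ _
    rw [ca_add, cb_add, ca_pt, cb_pt]
    exact ⟨⟨by linarith, by linarith⟩, by linarith, by linarith⟩
  · intro j hj k hk hjk
    exact absurd ((Multiset.mem_singleton.1 hj).trans (Multiset.mem_singleton.1 hk).symm) hjk

/-- a reflection -/
noncomputable def rf (u v : ℝ) (w : Plane) : Plane :=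
  WithLp.toLp 2 ![u * w 0 + v * w 1, v * w 0 - u * w 1]

theorem rf_rf {u v : ℝ} (h : u ^ 2 + v ^ 2 = 1) (w : Plane) : rf u v (rf u v w) = w := by
  ext i
  fin_cases i
  · simp [rf]; linear_combination (w 0) * h
  · simp [rf]; linear_combination (w 1) * h

noncomputable def rfI (u v : ℝ) (h : u ^ 2 + v ^ 2 = 1) : Plane ≃ᵢ Plane where
  toFun := rf u v
  invFun := rf u v
  left_inv := rf_rf h
  right_inv := rf_rf h
  isometry_toFun := Isometry.of_dist_eq fun x y => by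
    rw [EuclideanSpace.dist_eq, EuclideanSpace.dist_eq]
    congr 1
    simp only [Fin.sum_univ_two, Real.dist_eq, sq_abs, rf, Matrix.cons_val_zero,
      Matrix.cons_val_one]
    linear_combination ((x 0 - y 0) ^ 2 + (x 1 - y 1) ^ 2) * h

theorem G.pp {p w h : ℝ} {S : Multiset ℝ} (H : G p 1 w h S) : PP p w h S := by
  induction H with
  | nil a b =>
    refine ⟨a, b, fun ι a t x y ht => ?_⟩
    rw [Multiset.map_eq_zero] at ht
    subst ht
    exact ⟨fun _ => IsometryEquiv.refl _, by simp, by simp⟩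
  | one h0 hw hh h1 h2 =>
    refine PP.single h0 hw hh (IsometryEquiv.refl _) 0 0 ?_
    rintro v ⟨c1, c2⟩ ⟨c3, c4⟩
    change ca v + 0 ∈ _ ∧ cb v + 0 ∈ _
    exact ⟨⟨by linarith, by linarith⟩, by linarith, by linarith⟩
  | rot h0 hw hh h1 h2 =>
    refine PP.single h0 hw hh (rfI (24 / 25) (7 / 25) (by norm_num)) 0 0 ?_
    rintro v ⟨c1, c2⟩ ⟨c3, c4⟩
    have e1 : ca (rf (24 / 25) (7 / 25) v) = cb v := by simp [ca, cb, rf]; ring
    have e2 : cb (rf (24 / 25) (7 / 25) v) = ca v := by simp [ca, cb, rf]; ring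
    change ca (rf _ _ v) + 0 ∈ _ ∧ cb (rf _ _ v) + 0 ∈ _
    rw [e1, e2]
    exact ⟨⟨by linarith, by linarith⟩, by linarith, by linarith⟩
  | hc _ _ a b => exact a.hc b
  | vc _ _ a b => exact a.vc b

/-- a slightly tilted upright clone -/
theorem PP.tilt {p w h b : ℝ} (hp : 0 ≤ p) (hb : 0 ≤ b)
    (hw : (107 / 1603 * p + 42636 / 40075) * b ≤ w) (hh : (1500 / 1603 * p + 107 / 1603) * b ≤ h) :
    PP p w h {b} := by
  refine PP.single hb (le_trans (by positivity) hw) (le_trans (by positivity) hh)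
    (rfI (221 / 229) (60 / 229) (by norm_num)) 0 (107 / 1603 * b) ?_
  rintro v ⟨c1, c2⟩ ⟨c3, c4⟩
  have e1 : ca (rf (221 / 229) (60 / 229) v) = 107 / 1603 * ca v + 42636 / 40075 * cb v := by
    simp [ca, cb, rf]; ring
  have e2 : cb (rf (221 / 229) (60 / 229) v) = 1500 / 1603 * ca v - 107 / 1603 * cb v := by
    simp [ca, cb, rf]; ring
  change ca (rf _ _ v) + 0 ∈ _ ∧ cb (rf _ _ v) + _ ∈ _
  rw [e1, e2]
  exact ⟨⟨by linarith, by linarith⟩, by linarith, by linarith⟩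

theorem pbox_figure {p : ℝ} (hp : 0 < p) : IsConvexFigure (pbox 0 0 p 1) := by
  have c1 : Continuous ca := by unfold ca; fun_prop
  have c2 : Continuous cb := by unfold cb; fun_prop
  refine ⟨?_, ?_, ?_⟩
  · have e : pbox 0 0 p 1 = (fun z : ℝ × ℝ => pt z.1 z.2) '' (Icc 0 p ×ˢ Icc 0 1) := by
      ext v
      constructor
      · rintro ⟨h1, h2⟩
        rw [zero_add] at h1 h2
        refine ⟨(ca v, cb v), ⟨h1, h2⟩, ?_⟩
        ext i
        fin_cases i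
        · simp [pt, ca, cb]; ring
        · simp [pt, cb]; ring
      · rintro ⟨z, ⟨h1, h2⟩, rfl⟩
        refine ⟨?_, ?_⟩
        · rw [ca_pt, zero_add]; exact h1
        · rw [cb_pt, zero_add]; exact h2
    rw [e]
    refine (isCompact_Icc.prod isCompact_Icc).image ?_
    unfold pt; fun_prop
  · rintro u ⟨⟨a1, a2⟩, a3, a4⟩ v ⟨⟨b1, b2⟩, b3, b4⟩ s t hs ht hst
    simp only [pbox, mem_ofPred_eq, ca_add, cb_add, ca_smul, cb_smul, mem_Icc]
    refine ⟨⟨by positivity, by nlinarith⟩, by positivity, by nlinarith⟩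
  · have ho : IsOpen {v : Plane | ca v ∈ Ioo 0 p ∧ cb v ∈ Ioo 0 1} :=
      (isOpen_Ioo.preimage c1).inter (isOpen_Ioo.preimage c2)
    refine ⟨pt (p / 2) (1 / 2), interior_maximal ?_ ho ?_⟩
    · rintro v ⟨a, b⟩
      refine ⟨?_, ?_⟩
      · rw [zero_add]; exact Ioo_subset_Icc_self a
      · rw [zero_add]; exact Ioo_subset_Icc_self b
    · simp only [mem_ofPred_eq, mem_Ioo, ca_pt, cb_pt]
      refine ⟨⟨?_, ?_⟩, ?_, ?_⟩ <;> linarith

end Pool.Agent.P.MP_eb61da_co.RX
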