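import Pool.Agent.P.MP_eb61da_co.RxS0

/-! Size classes, first fit with the first refused item, cuts. -/

set_option linter.unusedVariables false

namespace Pool.Agent.P.MP_eb61da_co.RX

theorem lu_sound {ρ : ℝ} (hρ : Rh ρ) (u : ℕ) : ρ * u ≤ lu u := by
  have h1 : 11957 * u ≤ 10000 * lu u := by rw [lu_eq]; omega
  have h2 : (11957 : ℝ) * u ≤ 10000 * (lu u : ℕ) := by exact_mod_cast h1
  have h3 : (0 : ℝ) ≤ u := Nat.cast_nonneg _
  have h4 := mul_le_mul_of_nonneg_right hρ.2 h3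
  linarith

theorem ll_sound {ρ : ℝ} (hρ : Rh ρ) (u : ℕ) : (ll u : ℝ) ≤ ρ * u := by
  have h1 : 10000 * ll u ≤ 11956 * u := by rw [ll_eq]; omega
  have h2 : (10000 : ℝ) * (ll u : ℕ) ≤ 11956 * u := by exact_mod_cast h1
  have h3 : (0 : ℝ) ≤ u := Nat.cast_nonneg _
  have h4 := mul_le_mul_of_nonneg_right hρ.1 h3
  linarith

theorem le_lu (u : ℕ) : u ≤ lu u := by rw [lu_eq]; omega

theorem lu_mono {u v : ℕ} (h : u ≤ v) : lu u ≤ lu v := by rw [lu_eq, lu_eq]; omega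

theorem lo_le (c : ℕ) : lo c ≤ c + 4 := by rw [lo_eq]; split <;> omega

theorem Cls.pos {y : ℕ} {z : ℝ} (h : Cls y z) : 0 < z :=
  lt_of_le_of_lt (Nat.cast_nonneg _) h.1

theorem exists_cls {z : ℝ} {x : ℕ} (h0 : 0 < z) (h : z ≤ (x : ℝ) + 5) : ∃ y ≤ x, Cls y z := by
  induction x with
  | zero =>
    refine ⟨0, le_rfl, ?_, h⟩
    rw [lo_eq]; simpa using h0
  | succ x ih =>
    by_cases hx : z ≤ (x : ℝ) + 5
    · obtain ⟨y, hy, hc⟩ := ih hx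
      exact ⟨y, by omega, hc⟩
    · refine ⟨x + 1, le_rfl, ?_, h⟩
      rw [lo_eq, if_neg (by omega)]
      push_cast
      linarith [not_le.1 hx]

theorem Cls.le_lo {y c : ℕ} {z : ℝ} (h : Cls y z) (hc : y < c) : z ≤ lo c := by
  have h1 : y + 5 ≤ lo c := by rw [lo_eq, if_neg (by omega)]; omega
  have h2 : (y : ℝ) + 5 ≤ (lo c : ℕ) := by exact_mod_cast h1
  exact h.2.trans h2

theorem Cls.lt_of_le_lo {y c : ℕ} {z : ℝ} (h : Cls y z) (hc : z ≤ lo c) : y < c := by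
  have h1 : ((lo y : ℕ) : ℝ) < (lo c : ℕ) := lt_of_lt_of_le h.1 hc
  have h2 : lo y < lo c := by exact_mod_cast h1
  rw [lo_eq, lo_eq] at h2
  split at h2 <;> split at h2 <;> omega

theorem Cls.mono {y y' : ℕ} {z z' : ℝ} (h : Cls y z) (h' : Cls y' z') (hz : z ≤ z') : y ≤ y' := by
  by_contra hc
  have := h'.le_lo (not_le.1 hc)
  linarith [h.1]

theorem Cls.le {y x : ℕ} {z : ℝ} (h : Cls y z) (hx : z ≤ (x : ℝ) + 5) : y ≤ x := by
  obtain ⟨y', hy, hc⟩ := exists_cls h.pos hx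
  exact (h.mono hc le_rfl).trans hy

theorem rxsc_mem {p q w h : ℝ} {S : Multiset ℝ} (H : G p q w h S) :
    ∀ a ∈ S, 0 ≤ a ∧ ((p * a ≤ w ∧ q * a ≤ h) ∨ (q * a ≤ w ∧ p * a ≤ h)) := by
  induction H with
  | nil a b => simp
  | one a b c d e => intro x hx; rw [Multiset.mem_singleton.1 hx]; exact ⟨a, Or.inl ⟨d, e⟩⟩
  | rot a b c d e => intro x hx; rw [Multiset.mem_singleton.1 hx]; exact ⟨a, Or.inr ⟨d, e⟩⟩
  | hc H1 H2 a b =>
    intro x hx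
    have := H1.nonneg; have := H2.nonneg
    rcases Multiset.mem_add.1 hx with hx | hx
    · obtain ⟨h0, h | h⟩ := a x hx
      · exact ⟨h0, Or.inl ⟨by linarith [h.1], h.2⟩⟩
      · exact ⟨h0, Or.inr ⟨by linarith [h.1], h.2⟩⟩
    · obtain ⟨h0, h | h⟩ := b x hx
      · exact ⟨h0, Or.inl ⟨by linarith [h.1], h.2⟩⟩
      · exact ⟨h0, Or.inr ⟨by linarith [h.1], h.2⟩⟩
  | vc H1 H2 a b =>
    intro x hx
    have := H1.nonneg; have := H2.nonneg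
    rcases Multiset.mem_add.1 hx with hx | hx
    · obtain ⟨h0, h | h⟩ := a x hx
      · exact ⟨h0, Or.inl ⟨h.1, by linarith [h.2]⟩⟩
      · exact ⟨h0, Or.inr ⟨h.1, by linarith [h.2]⟩⟩
    · obtain ⟨h0, h | h⟩ := b x hx
      · exact ⟨h0, Or.inl ⟨h.1, by linarith [h.2]⟩⟩
      · exact ⟨h0, Or.inr ⟨h.1, by linarith [h.2]⟩⟩

theorem nofit_sound {ρ : ℝ} (hρ : Rh ρ) {w k c : ℕ} (H : nofit w k c = true) {S : Multiset ℝ}
    (hG : G ρ 1 w k S) : ∀ a ∈ S, a ≤ (lo c : ℝ) := by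
  intro a ha
  obtain ⟨h0, h⟩ := rxsc_mem hG a ha
  have h1 := mul_le_mul_of_nonneg_right hρ.1 h0
  rcases nofit_iff.1 H with hk | ⟨hk, hw⟩
  · have hk' : (k : ℝ) ≤ (lo c : ℕ) := by exact_mod_cast hk
    rcases h with h | h
    · linarith [h.2]
    · linarith [h.2]
  · have hk' : (k : ℝ) ≤ w := by exact_mod_cast hk
    have hw' : (10000 : ℝ) * w ≤ 11956 * (lo c : ℕ) := by exact_mod_cast hw
    rcases h with h | h
    · linarith [h.1]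
    · linarith [h.2]

/-- the class of the largest item; the row of that class applies -/
theorem Rej.top {ρ : ℝ} {w k x y : ℕ} {z : ℝ} {S : Multiset ℝ} (H : Rej ρ w k x y z S) :
    ∃ h, y ≤ h ∧ h ≤ x ∧ (h = y ∨ ∃ g ∈ S, Cls h g) ∧
      ∀ y' v, Cls y' z → Cl ρ w k h y' v → (v : ℝ) ≤ area S := by
  obtain ⟨hG, hN, hy, hS, hx⟩ := H
  obtain ⟨m, M, e, hm⟩ := exists_max (z ::ₘ S) Multiset.cons_ne_zero
  have hmem : m ∈ z ::ₘ S := by rw [e]; exact Multiset.mem_cons_self _ _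
  have hle : ∀ a ∈ z ::ₘ S, a ≤ m := by
    intro a ha
    rw [e] at ha
    rcases Multiset.mem_cons.1 ha with rfl | ha
    · exact le_rfl
    · exact hm a ha
  have hzm : z ≤ m := hle z (Multiset.mem_cons_self _ _)
  obtain ⟨h, hh, hc⟩ := exists_cls (lt_of_lt_of_le hy.pos hzm) (hx m hmem)
  refine ⟨h, hy.mono hc hzm, hh, ?_, ?_⟩
  · rcases Multiset.mem_cons.1 hmem with e' | hmS
    · exact Or.inl (le_antisymm (hc.mono hy e'.le) (hy.mono hc hzm))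
    · exact Or.inr ⟨m, hmS, hc⟩
  · intro y' v hy' hC
    exact hC z S hN hy' hS (fun a ha => (hle a ha).trans hc.2) ⟨m, hmem, hc.1⟩

theorem rxsc_ff {β : Type} (P : β → Multiset ℝ → Prop) (p q : β) (ex : List β)
    (h0 : ∀ b, P b 0) (M : Multiset ℝ) :
    (∃ S₁ S₂ A, M = S₁ + S₂ + A ∧ P p S₁ ∧ P q S₂ ∧ Packs P ex A ∧
      ∀ g ∈ S₂, ∃ S' ≤ S₁, P p S' ∧ ¬ P p (g ::ₘ S') ∧ ∀ a ∈ S', g ≤ a) ∨
    ∃ z S₁ S₂ A B, M = z ::ₘ (S₁ + S₂ + A + B) ∧ P p S₁ ∧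
      ¬ P p (z ::ₘ S₁) ∧ P q S₂ ∧ ¬ P q (z ::ₘ S₂) ∧ Ref P z ex A ∧
      (∀ a ∈ S₁ + S₂ + A, z ≤ a) ∧ (∀ b ∈ B, b ≤ z) ∧
      ∀ g ∈ S₂, ∃ S' ≤ S₁, P p S' ∧ ¬ P p (g ::ₘ S') ∧ ∀ a ∈ S', g ≤ a := by
  induction hn : Multiset.card M using Nat.strong_induction_on generalizing M with
  | _ n ih =>
    by_cases hM : M = 0
    · subst hM
      exact Or.inl ⟨0, 0, 0, by simp, h0 p, h0 q, packs_zero P ex fun b _ => h0 b, by simp⟩
    obtain ⟨m, M', rfl, hm⟩ := exists_min M hM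
    rcases ih (Multiset.card M') (by rw [← hn, Multiset.card_cons]; omega) M' rfl with
      ⟨S₁, S₂, A, e, h1, h2, h3, h4⟩ | ⟨z, S₁, S₂, A, B, e, h1, h2, h3, h4, h5, h6, h7, h8⟩
    · subst e
      by_cases c1 : P p (m ::ₘ S₁)
      · refine Or.inl ⟨m ::ₘ S₁, S₂, A, by simp only [Multiset.cons_add], c1, h2, h3, ?_⟩
        intro g hg
        obtain ⟨S', a1, a2⟩ := h4 g hg
        exact ⟨S', a1.trans (Multiset.le_cons_self _ _), a2⟩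
      by_cases c2 : P q (m ::ₘ S₂)
      · refine Or.inl ⟨S₁, m ::ₘ S₂, A,
          by simp only [Multiset.cons_add, Multiset.add_cons], h1, c2, h3, ?_⟩
        intro g hg
        rcases Multiset.mem_cons.1 hg with rfl | hg
        · exact ⟨S₁, le_rfl, h1, c1, fun a ha =>
            hm a (Multiset.mem_add.2 (Or.inl (Multiset.mem_add.2 (Or.inl ha))))⟩
        · exact h4 g hg
      rcases packs_step P m ex A h3 with h | h
      · exact Or.inl ⟨S₁, S₂, m ::ₘ A, by simp only [Multiset.add_cons], h1, h2, h, h4⟩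
      · exact Or.inr ⟨m, S₁, S₂, A, 0, by simp, h1, c1, h2, c2, h, hm, by simp, h4⟩
    · refine Or.inr ⟨z, S₁, S₂, A, m ::ₘ B, by rw [e, Multiset.add_cons, Multiset.cons_swap],
        h1, h2, h3, h4, h5, h6, ?_, h8⟩
      intro b hb
      rcases Multiset.mem_cons.1 hb with rfl | hb
      · exact hm z (by rw [e]; exact Multiset.mem_cons_self _ _)
      · exact h7 b hb

theorem ff2 {β : Type} (P : β → Multiset ℝ → Prop) (p q : β) (ex : List β)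
    (h0 : ∀ b, P b 0) (M : Multiset ℝ) :
    Packs P (p :: q :: ex) M ∨ ∃ z S₁ S₂ A B, M = z ::ₘ (S₁ + S₂ + A + B) ∧ P p S₁ ∧
      ¬ P p (z ::ₘ S₁) ∧ P q S₂ ∧ ¬ P q (z ::ₘ S₂) ∧ Ref P z ex A ∧
      (∀ a ∈ S₁ + S₂ + A, z ≤ a) ∧ (∀ b ∈ B, b ≤ z) ∧
      ∀ g ∈ S₂, ∃ S' ≤ S₁, P p S' ∧ ¬ P p (g ::ₘ S') ∧ ∀ a ∈ S', g ≤ a := by
  rcases rxsc_ff P p q ex h0 M with ⟨S₁, S₂, A, e, h1, h2, h3, _⟩ | h
  · exact Or.inl ⟨S₁, S₂ + A, by rw [e, add_assoc], h1, S₂, A, rfl, h2, h3⟩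
  · exact Or.inr h

theorem It.pack {ρ U w k : ℝ} (hρ : 0 ≤ ρ) {T : Multiset ℝ} (H : It U T) (hU : 0 ≤ U)
    (hw : ρ * U ≤ w) (hk : U ≤ k) : G ρ 1 w k T := by
  have hw0 : 0 ≤ w := (mul_nonneg hρ hU).trans hw
  have hk0 : 0 ≤ k := hU.trans hk
  rcases H with rfl | ⟨a, rfl, h0, ha⟩
  · exact G.nil hw0 hk0
  · exact G.one h0 hw0 hk0 ((mul_le_mul_of_nonneg_left ha hρ).trans hw) (by linarith)

theorem pk_cn {ρ : ℝ} {a b : ℕ} {S : Multiset ℝ} (H : G ρ 1 (max a b : ℕ) (min a b : ℕ) S) :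
    G ρ 1 a b S := by
  rcases le_total a b with h | h
  · rw [max_eq_right h, min_eq_left h] at H
    exact H.swap
  · rwa [max_eq_left h, min_eq_right h] at H

theorem rxsc_cut2 {ρ : ℝ} {w k iw ih c : ℕ} {f : ℕ → ℕ → ℕ → ℕ → Bool}
    (H : cut2 w k iw ih c f = true) : ∃ a1 a2 b1 b2, f a1 a2 b1 b2 = true ∧
      (0 < iw → 0 < ih → a1 + a2 < w + k ∧ b1 + b2 < w + k) ∧
      ∀ T S₁ S₂, G ρ 1 iw ih T → G ρ 1 a1 a2 S₁ → G ρ 1 b1 b2 S₂ → G ρ 1 w k (T + S₁ + S₂) := by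
  obtain ⟨c1, c2, h | h⟩ := cut2_spec H
  · refine ⟨_, _, _, _, h, fun _ _ => ⟨by omega, by omega⟩, ?_⟩
    intro T S₁ S₂ hT h1 h2
    have h1 := pk_cn h1
    have h2 := pk_cn h2
    rw [Nat.cast_sub c1] at h1
    rw [Nat.cast_sub c2] at h2
    have a1 := G.hc hT h1
    rw [add_sub_cancel] at a1
    have a2 := G.vc a1 h2
    rwa [add_sub_cancel] at a2
  · refine ⟨_, _, _, _, h, fun _ _ => ⟨by omega, by omega⟩, ?_⟩
    intro T S₁ S₂ hT h1 h2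
    have h1 := pk_cn h1
    have h2 := pk_cn h2
    rw [Nat.cast_sub c1] at h1
    rw [Nat.cast_sub c2] at h2
    have a1 := G.vc hT h2
    rw [add_sub_cancel] at a1
    have a2 := G.hc a1 h1
    rwa [add_sub_cancel, add_right_comm] at a2

theorem cut_sound {ρ : ℝ} (hρ : Rh ρ) {w k U o c : ℕ} {f : ℕ → ℕ → ℕ → ℕ → Bool}
    (H : cut w k U o c f = true) : ∃ a1 a2 b1 b2, f a1 a2 b1 b2 = true ∧
      (0 < U → a1 + a2 < w + k ∧ b1 + b2 < w + k) ∧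
      ∀ T S₁ S₂, It U T → G ρ 1 a1 a2 S₁ → G ρ 1 b1 b2 S₂ → G ρ 1 w k (T + S₁ + S₂) := by
  have hρ0 : 0 ≤ ρ := le_trans (by norm_num) hρ.1
  have hp : ∀ T, It U T → G ρ 1 (lu U) U T := fun T hT =>
    hT.pack hρ0 (Nat.cast_nonneg _) (lu_sound hρ U) le_rfl
  have hl := le_lu U
  rcases cut_spec H with h | h
  · obtain ⟨a1, a2, b1, b2, h1, h2, h3⟩ := rxsc_cut2 (ρ := ρ) h
    exact ⟨a1, a2, b1, b2, h1, fun hU => h2 hU (by omega),
      fun T S₁ S₂ hT => h3 T S₁ S₂ (hp T hT).swap⟩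
  · obtain ⟨a1, a2, b1, b2, h1, h2, h3⟩ := rxsc_cut2 (ρ := ρ) h
    exact ⟨a1, a2, b1, b2, h1, fun hU => h2 (by omega) hU,
      fun T S₁ S₂ hT => h3 T S₁ S₂ (hp T hT)⟩

theorem pick_sound {ρ : ℝ} : ∀ (F : List (ℕ × ℕ)) (i : ℕ) (g : ℕ → ℕ → List (ℕ × ℕ) → Bool),
    pick F i g = true → ∃ w k F', g w k F' = true ∧
      ∀ S M, G ρ 1 w k S → Packs (Pk ρ) F' M → Packs (Pk ρ) F (S + M)
  | [], i, g, H => by rw [pick_nil] at H; exact absurd H (by simp)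
  | b :: L, i, g, H => by
    rcases pick_cons H with h | h
    · exact ⟨b.1, b.2, L, h, fun S M hS hM => ⟨S, M, rfl, hS, hM⟩⟩
    · obtain ⟨w, k, F', h1, h2⟩ := pick_sound L _ _ h
      refine ⟨w, k, b :: F', h1, ?_⟩
      rintro S M hS ⟨S₀, R, rfl, h3, h4⟩
      exact ⟨S₀, S + R, add_left_comm _ _ _, h3, h2 S R hS h4⟩

end Pool.Agent.P.MP_eb61da_co.RX
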