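import Pool.Agent.P.MP_eb61da_co.RxPA
import Pool.Agent.P.MP_eb61da_co.RxSC

/-! A parallelogram with a smaller packing constant than every rectangle. -/

set_option linter.unusedVariables false

namespace Pool.Agent.P.MP_eb61da_co.RX

open MeasureTheory Set
open scoped Pointwise

/-- a guillotine packing, or two columns with one tilted clone -/
def Lay (p N : ℝ) (M : Multiset ℝ) : Prop := G p 1 (p * N) N M ∨
  ∃ (x y : ℝ) (S₁ S₂ : Multiset ℝ), M = S₁ + ({y} + S₂) ∧ 0 ≤ y ∧ G p 1 x N S₁ ∧
    G p 1 (p * N - x) (N - (1500 / 1603 * p + 107 / 1603) * y) S₂ ∧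
    (107 / 1603 * p + 42636 / 40075) * y ≤ p * N - x

theorem Lay.pp {p N k : ℝ} {M : Multiset ℝ} (hp : 0 ≤ p) (hk : 0 ≤ k) (H : Lay p N M) :
    PP p (k * (p * N)) (k * N) (M.map (k * ·)) := by
  rcases H with H | ⟨x, y, S₁, S₂, rfl, hy, H1, H2, h⟩
  · exact G.pp (H.smul hk)
  · have T : PP p (k * (p * N - x)) (k * ((1500 / 1603 * p + 107 / 1603) * y)) {k * y} :=
      PP.tilt hp (mul_nonneg hk hy) (by nlinarith [mul_le_mul_of_nonneg_left h hk])
        (le_of_eq (by ring))
    have V := T.vc (G.pp (H2.smul hk))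
    rw [← mul_add, add_sub_cancel] at V
    have := (G.pp (H1.smul hk)).hc V
    rw [← mul_add, add_sub_cancel] at this
    simpa only [Multiset.map_add, Multiset.map_singleton] using this

theorem clonesPack_of_lay {p N S : ℝ} (hp : 0 < p) (hN : 0 < N) (hS : 0 < S)
    (H : ∀ L : List ℝ, Dec L → area (L : Multiset ℝ) * S = N * N → Lay p N (L : Multiset ℝ)) :
    ClonesPack (pbox 0 0 p 1) S := by
  intro n f hf hsum
  obtain ⟨hK, -, hI⟩ := pbox_figure hp
  set F := pbox 0 0 p 1 with hF
  have v0 : volume F ≠ 0 := (Measure.measure_pos_of_nonempty_interior volume hI).ne'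
  have v1 : volume F ≠ ⊤ := hK.measure_lt_top.ne
  set v : ℝ := (volume F).toReal with hv
  have hv0 : 0 < v := ENNReal.toReal_pos v0 v1
  have hvF : volume F = ENNReal.ofReal v := (ENNReal.ofReal_toReal v1).symm
  have vol : ∀ c : ℝ, 0 ≤ c → volume (c • F) = ENNReal.ofReal (c * c * v) := by
    intro c hc
    rw [Measure.addHaar_smul_of_nonneg _ hc, hvF, ← ENNReal.ofReal_mul (by positivity)]
    simp [pow_two]
  choose c ψ hc hψ using fun i => clone_decomp (hf i)
  have hs : ∑ i, c i * c i * v = 1 := by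
    have : ∀ i, volume (f i) = ENNReal.ofReal (c i * c i * v) := fun i => by
      rw [hψ i, volume_iso _ (hK.smul (c i)).measurableSet, vol _ (hc i).le]
    simp only [this] at hsum
    rw [← ENNReal.ofReal_sum_of_nonneg (fun i _ => by have := hc i; positivity)] at hsum
    exact ENNReal.ofReal_eq_one.1 hsum
  set C : ℝ := √(S / v) with hC
  have hC0 : 0 < C := Real.sqrt_pos.2 (by positivity)
  have hCC : C * C * v = S := by
    rw [hC, Real.mul_self_sqrt (by positivity)]; field_simp
  set M : Multiset ℝ := (Finset.univ : Finset (Fin n)).val.map fun i => N / C * c i with hM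
  have hD : Dec (M.sort (· ≥ ·)) := by
    refine ⟨Multiset.pairwise_sort _ _, ?_⟩
    intro a ha
    rw [Multiset.mem_sort, hM, Multiset.mem_map] at ha
    obtain ⟨i, -, rfl⟩ := ha
    have := hc i
    positivity
  have hA : area M * S = N * N := by
    have : area M = ∑ i, (N / C * c i) * (N / C * c i) := by
      rw [area, hM, Multiset.map_map]; rfl
    rw [this, ← hCC, ← mul_one (N * N), ← hs, Finset.sum_mul, Finset.mul_sum]
    refine Finset.sum_congr rfl fun i _ => ?_
    field_simp
  have HG := H _ hD (by rw [Multiset.sort_eq]; exact hA)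
  rw [Multiset.sort_eq] at HG
  have HG' := (HG.pp (k := C / N) hp.le (by positivity)).2.2 (Fin n) c
    (Finset.univ : Finset (Fin n)).val 0 0
    (by rw [hM, Multiset.map_map]; refine Multiset.map_congr rfl fun i _ => ?_
        simp only [Function.comp]; field_simp)
  obtain ⟨g, h1, h2⟩ := HG'
  have key : ∀ i, ((ψ i).symm.trans (g i)) '' f i = g i '' (c i • F) := fun i => by
    rw [hψ i, Set.image_image]
    exact Set.image_congr fun x _ => by simp
  refine ⟨C • F, ?_, by rw [vol C hC0.le, hCC], fun i => (ψ i).symm.trans (g i), ?_, ?_⟩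
  · refine ⟨{ (Homeomorph.smulOfNeZero C hC0.ne').toEquiv with edist_eq' := ?_ }, rfl⟩
    refine ⟨‖C‖₊, by simpa using hC0.ne', fun x y => ?_⟩
    exact edist_smul₀ C x y
  · intro i
    rw [key]
    refine (h1 i (Finset.mem_univ i)).trans ?_
    rintro u ⟨⟨a1, a2⟩, a3, a4⟩
    refine ⟨C⁻¹ • u, ?_, smul_inv_smul₀ hC0.ne' u⟩
    have e1 : C / N * (p * N) = C * p := by field_simp
    have e2 : C / N * N = C * 1 := by field_simp
    rw [zero_add, e1] at a2
    rw [zero_add, e2] at a4
    simp only [hF, pbox, mem_ofPred_eq, ca_smul, cb_smul, mem_Icc, zero_add]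
    refine ⟨⟨by positivity, ?_⟩, by positivity, ?_⟩
    · rw [inv_mul_le_iff₀ hC0]; exact a2
    · rw [inv_mul_le_iff₀ hC0]; exact a4
  · intro i j hij
    rw [key, key]
    exact h2 i (Finset.mem_univ i) j (Finset.mem_univ j) hij

/-- near the tight family -/
theorem near_tight {x y z e : ℝ} (hxy : y ≤ x) (he : 0 ≤ e)
    (h : x * x + (y * y + (z * z + e)) = 7200 * (119567 / 100000) ^ 2)
    (hA : 119567 / 100000 * 120 < x + 119567 / 100000 * y) (hB : 120 < z + 119567 / 100000 * y) :
    65 ≤ y ∧ x ≤ 656 / 10 ∧ z ≤ 4211 / 100 ∧ e ≤ 1 := by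
  have k : (x - 65347 / 1000) ^ 2 + (y - 65347 / 1000) ^ 2 + (z - 41866 / 1000) ^ 2 + e ≤
      58 / 1000 := by nlinarith
  refine ⟨?_, ?_, ?_, ?_⟩
  · nlinarith [sq_nonneg (x - 65347 / 1000), sq_nonneg (z - 41866 / 1000)]
  · nlinarith [sq_nonneg (y - 65347 / 1000), sq_nonneg (z - 41866 / 1000)]
  · nlinarith [sq_nonneg (x - 65347 / 1000), sq_nonneg (y - 65347 / 1000)]
  · nlinarith [sq_nonneg (x - 65347 / 1000), sq_nonneg (y - 65347 / 1000),
      sq_nonneg (z - 41866 / 1000)]

theorem par_pack {ρ : ℝ} (hρ : ρ = 119567 / 100000)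
    (H : RG ρ (List.replicate 18 0) (List.replicate 18 102) 0 97 0) :
    ClonesPack (pbox 0 0 ρ 1) (2 / ρ ^ 2) := by
  have hr0 : 0 < ρ := by rw [hρ]; norm_num
  refine clonesPack_of_lay (N := 120) hr0 (by norm_num) (by positivity) fun L hD hA => ?_
  have hA' : area (L : Multiset ℝ) = 7200 * ρ ^ 2 := by
    have e : area (L : Multiset ℝ) = area (L : Multiset ℝ) * (2 / ρ ^ 2) * (ρ ^ 2 / 2) := by
      field_simp
    rw [e, hA]; ring
  have hlt : area (L : Multiset ℝ) < 10294 := by rw [hA', hρ]; norm_num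
  have e1 := area_hd L
  have e2 := area_hd L.tail
  have e3 := area_hd L.tail.tail
  have n3 := area_nonneg (L.tail.tail.tail : Multiset ℝ)
  have n2 := area_nonneg (L.tail.tail : Multiset ℝ)
  have n1 := area_nonneg (L.tail : Multiset ℝ)
  by_cases hT : hr L + ρ * hr L.tail ≤ ρ * 120 ∨ hr L.tail.tail + ρ * hr L.tail ≤ 120
  · left
    have hh : hr L ≤ ((102 : ℕ) : ℝ) := by
      by_contra hc
      push Not at hc
      push_cast at hc
      nlinarith
    have hTi : Ti ρ L := by
      refine ⟨hlt, ?_, hT⟩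
      refine le_trans (le_abs_self _) (abs_le_of_sq_le_sq' ?_ (by positivity) |> abs_le.2)
      nlinarith [sq_nonneg (hr L - hr L.tail)]
    have hne : (L : Multiset ℝ) ≠ 0 := by
      intro h0
      rw [h0, area_zero] at hA'
      have : 0 < ρ ^ 2 := by positivity
      linarith
    obtain ⟨m, M', hm, hmin⟩ := exists_min _ hne
    have hmL : m ∈ L := by
      rw [← Multiset.mem_coe, hm]; exact Multiset.mem_cons_self _ _
    have hml : ∀ b ∈ L, m ≤ b := by
      intro b hb
      rw [← Multiset.mem_coe, hm, Multiset.mem_cons] at hb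
      rcases hb with rfl | hb
      · exact le_rfl
      · exact hmin b hb
    have hm102 : m ≤ ((97 : ℕ) : ℝ) + 5 := by
      have h4 : area (L : Multiset ℝ) = m * m + area M' := by rw [hm, area_cons]
      have h5 := area_nonneg M'
      by_contra hc
      push Not at hc
      push_cast at hc
      nlinarith
    obtain ⟨y, hy, hc⟩ := exists_cls (hD.2 m hmL) hm102
    refine H L y hD (satLo_zero 18 L hD) (satHi_rep 18 L hD hh) hTi (Nat.zero_le _) hy ?_
      ⟨fun h => absurd h (by decide), fun h => absurd h (by decide)⟩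
    intro a ha hle
    have : a = m := le_antisymm (hle m hmL) (hml a ha)
    rw [this]; exact hc
  · right
    rw [not_or, not_le, not_le] at hT
    obtain ⟨hA1, hB1⟩ := hT
    subst hρ
    have hxy : hr L.tail ≤ hr L := hD.hd_tail
    obtain ⟨b1, b2, b3, b4⟩ := near_tight hxy n3 (by rw [← hA', e1, e2, e3]) hA1 hB1
    match L, hD with
    | [], _ => exact absurd b1 (by simp [hr, Pool.Agent.P.MP_eb61da_co.hd])
    | [x], _ => exact absurd b1 (by simp [hr, Pool.Agent.P.MP_eb61da_co.hd])
    | [x, y], _ =>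
      simp only [hr, Pool.Agent.P.MP_eb61da_co.hd, List.tail_cons, List.headD_cons,
        List.headD_nil] at hB1 b2 hxy
      linarith
    | x :: y :: z :: R, hD =>
      simp only [hr, Pool.Agent.P.MP_eb61da_co.hd, List.tail_cons, List.headD_cons] at *
      have hz : 0 < z := hD.2 z (by simp)
      refine ⟨x, y, {x} + (R : Multiset ℝ), {z}, ?_, by linarith, ?_, ?_, by linarith⟩
      · simp only [← Multiset.cons_coe, ← Multiset.singleton_add]; abel
      · have G1 : G (119567 / 100000 : ℝ) 1 x (79 : ℝ) {x} :=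
          G.rot (by linarith) (by linarith) (by norm_num) (by linarith) (by linarith)
        have G2 : G 1 1 (41 : ℝ) (41 : ℝ) (R : Multiset ℝ) := by
          refine half _ _ _ (by norm_num) (by norm_num) ?_ (by linarith)
          intro a ha
          have h0 : 0 < a := hD.2 a (by simp [Multiset.mem_coe.1 ha])
          obtain ⟨R', e⟩ := Multiset.exists_cons_of_mem ha
          rw [e, area_cons] at b4
          have := area_nonneg R'
          have : a ≤ 41 := by nlinarith
          exact ⟨h0.le, this, this⟩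
        have G3 : G (119567 / 100000 : ℝ) 1 x (41 : ℝ) (R : Multiset ℝ) :=
          (G2.scale (by norm_num) (by norm_num)).mono (by linarith) (by norm_num)
        have := G.vc G1 G3
        norm_num at this ⊢
        exact this
      · exact G.one hz.le (by linarith) (by linarith) (by linarith) (by linarith)

theorem root_lt {r : ℝ} (h1 : 11956 / 10000 ≤ r) (h2 : r ≤ 11957 / 10000)
    (h3 : r ^ 4 - 6 * r ^ 3 + r ^ 2 + 4 * r + 2 = 0) :
    2 / (119567 / 100000 : ℝ) ^ 2 < 2 / r ^ 2 := by
  have : r < 119567 / 100000 := by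
    by_contra hc
    push Not at hc
    obtain ⟨d, rfl⟩ : ∃ d, r = 119567 / 100000 + d := ⟨r - 119567 / 100000, by ring⟩
    have d0 : 0 ≤ d := by linarith
    have d1 : d ≤ 1 / 10000 := by linarith
    nlinarith [mul_nonneg d0 d0, mul_nonneg (mul_nonneg d0 d0) d0,
      mul_nonneg (mul_nonneg (mul_nonneg d0 d0) d0) (sub_nonneg.2 d1)]
  exact div_lt_div_of_pos_left (by norm_num) (by positivity) (by nlinarith)

end Pool.Agent.P.MP_eb61da_co.RX
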