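import Pool.Agent.P.MP_eb61da_co.RxTb

namespace Pool.Agent.P.MP_eb61da_co.RX

set_option maxRecDepth 100000

noncomputable def r0 : Rt :=
(.l (nat_lit 0))


theorem u0 : check tb r0 [0, 0, 0, 0, 0, 0, 0, 0, 0, 0, 0, 0, 0, 0, 0, 0, 0, 0]
    [17, 17, 17, 17, 17, 17, 17, 17, 17, 17, 17, 17, 17, 17, 17, 17, 17, 17] 0 97 0 = true := by decide +kernel

noncomputable def r1 : Rt :=
(.s (nat_lit 0) (nat_lit 0x14) (.l (nat_lit 0x8008))
 (.s (nat_lit 0) (nat_lit 0x16) (.s (nat_lit 0) (nat_lit 0x15) (.z (nat_lit 0) (.s (nat_lit 1) (nat_lit 0xd) (.l (nat_lit 8))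
 (.s (nat_lit 1) (nat_lit 0x11) (.l (nat_lit 0x8000110))
 (.s (nat_lit 1) (nat_lit 0x13) (.l (nat_lit 0x108020010))
 (.s (nat_lit 1) (nat_lit 0x14) (.s (nat_lit 2) (nat_lit 0xc) (.l (nat_lit 0x108000010))
 (.s (nat_lit 2) (nat_lit 0x10) (.l (nat_lit 0x10400808018))
 (.s (nat_lit 2) (nat_lit 0x12) (.l (nat_lit 0x800820018))
 (.s (nat_lit 2) (nat_lit 0x13) (.l (nat_lit 0x60830018))
 (.l (nat_lit 0x60020218))
)))) (.l (nat_lit 0x8000110))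
)))) (.l (nat_lit 0x108))
) (.z (nat_lit 2) (.s (nat_lit 1) (nat_lit 0xd) (.l (nat_lit 8))
 (.s (nat_lit 1) (nat_lit 0x12) (.l (nat_lit 0x8000110))
 (.s (nat_lit 1) (nat_lit 0x14) (.s (nat_lit 1) (nat_lit 0x13) (.l (nat_lit 0x8000110))
 (.z (nat_lit 1) (.s (nat_lit 2) (nat_lit 0xc) (.l (nat_lit 0x108000010))
 (.s (nat_lit 2) (nat_lit 0x10) (.l (nat_lit 0x60020018))
 (.s (nat_lit 2) (nat_lit 0x12) (.l (nat_lit 0x800820018))
 (.s (nat_lit 2) (nat_lit 0x13) (.l (nat_lit 0x800830018))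
 (.z (nat_lit 0) (.s (nat_lit 3) (nat_lit 0xc) (.l (nat_lit 0x60020218))
 (.s (nat_lit 3) (nat_lit 0x10) (.l (nat_lit 0x4000020220))
 (.s (nat_lit 3) (nat_lit 0x12) (.l (nat_lit 0x4000020220))
 (.l (nat_lit 0x4000020220))
))) (.l (nat_lit 0x60000118))
))))) (.l (nat_lit 0x100820010))
)) (.s (nat_lit 1) (nat_lit 0x15) (.s (nat_lit 2) (nat_lit 0xd) (.l (nat_lit 0x108000010))
 (.s (nat_lit 2) (nat_lit 0x11) (.l (nat_lit 0x8800020018))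
 (.s (nat_lit 2) (nat_lit 0x13) (.l (nat_lit 0x800830018))
 (.s (nat_lit 2) (nat_lit 0x14) (.l (nat_lit 0x800810318))
 (.z (nat_lit 0) (.s (nat_lit 3) (nat_lit 0xd) (.l (nat_lit 0x60000118))
 (.s (nat_lit 3) (nat_lit 0x11) (.l (nat_lit 0x4000000120))
 (.s (nat_lit 3) (nat_lit 0x13) (.l (nat_lit 0x4000000120))
 (.l (nat_lit 0x4040810320))
))) (.l (nat_lit 0x60000118))
))))) (.z (nat_lit 1) (.s (nat_lit 2) (nat_lit 0xd) (.l (nat_lit 0x108000010))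
 (.s (nat_lit 2) (nat_lit 0x12) (.l (nat_lit 0x800030018))
 (.s (nat_lit 2) (nat_lit 0x14) (.s (nat_lit 2) (nat_lit 0x13) (.l (nat_lit 0x8800420018))
 (.l (nat_lit 0x60000118))
) (.l (nat_lit 0x800000118))
))) (.l (nat_lit 0x8000110))
))))) (.l (nat_lit 0x108))
)) (.z (nat_lit 3) (.s (nat_lit 1) (nat_lit 0xe) (.l (nat_lit 8))
 (.s (nat_lit 1) (nat_lit 0x13) (.l (nat_lit 0x8010110))
 (.s (nat_lit 1) (nat_lit 0x15) (.s (nat_lit 1) (nat_lit 0x14) (.z (nat_lit 1) (.s (nat_lit 2) (nat_lit 0xc) (.l (nat_lit 0x108000010))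
 (.s (nat_lit 2) (nat_lit 0x10) (.l (nat_lit 0x10400808018))
 (.s (nat_lit 2) (nat_lit 0x12) (.l (nat_lit 0x10800820018))
 (.s (nat_lit 2) (nat_lit 0x13) (.l (nat_lit 0x800830018))
 (.z (nat_lit 0) (.s (nat_lit 3) (nat_lit 0xc) (.l (nat_lit 0x60020218))
 (.s (nat_lit 3) (nat_lit 0x10) (.l (nat_lit 0x4000020220))
 (.s (nat_lit 3) (nat_lit 0x12) (.l (nat_lit 0x4000020220))
 (.s (nat_lit 3) (nat_lit 0x13) (.l (nat_lit 0x4000020220))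
 (.l (nat_lit 0x4000020220))
)))) (.l (nat_lit 0x18060020018))
))))) (.l (nat_lit 0x100820010))
) (.z (nat_lit 2) (.s (nat_lit 2) (nat_lit 0xd) (.l (nat_lit 0x108000010))
 (.s (nat_lit 2) (nat_lit 0x11) (.l (nat_lit 0x8060030018))
 (.s (nat_lit 2) (nat_lit 0x13) (.l (nat_lit 0x800830018))
 (.s (nat_lit 2) (nat_lit 0x14) (.z (nat_lit 0) (.s (nat_lit 3) (nat_lit 0xc) (.l (nat_lit 0x60020218))
 (.s (nat_lit 3) (nat_lit 0x10) (.l (nat_lit 0x4000020220))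
 (.s (nat_lit 3) (nat_lit 0x12) (.l (nat_lit 0x4000020220))
 (.s (nat_lit 3) (nat_lit 0x13) (.l (nat_lit 0x4000020220))
 (.l (nat_lit 0x4000020220))
)))) (.l (nat_lit 0x18800020018))
) (.z (nat_lit 1) (.s (nat_lit 3) (nat_lit 0xd) (.l (nat_lit 0x60830018))
 (.s (nat_lit 3) (nat_lit 0x11) (.l (nat_lit 0x4000830020))
 (.s (nat_lit 3) (nat_lit 0x13) (.l (nat_lit 0x460020830020))
 (.s (nat_lit 3) (nat_lit 0x14) (.l (nat_lit 0x1460020820020))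
 (.z (nat_lit 0) (.s (nat_lit 4) (nat_lit 0xd) (.l (nat_lit 0x4040830020))
 (.s (nat_lit 4) (nat_lit 0x11) (.l (nat_lit 0x280040830028))
 (.s (nat_lit 4) (nat_lit 0x13) (.l (nat_lit 0x280040830028))
 (.s (nat_lit 4) (nat_lit 0x14) (.l (nat_lit 0x20280040830028))
 (.l (nat_lit 0x280000000128))
)))) (.l (nat_lit 0x4040810320))
))))) (.l (nat_lit 0x10060800318))
))))) (.l (nat_lit 0x800110))
)) (.s (nat_lit 1) (nat_lit 0x16) (.z (nat_lit 1) (.s (nat_lit 2) (nat_lit 0xd) (.l (nat_lit 0x108000010))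
 (.s (nat_lit 2) (nat_lit 0x12) (.l (nat_lit 0x800000118))
 (.s (nat_lit 2) (nat_lit 0x14) (.s (nat_lit 2) (nat_lit 0x13) (.l (nat_lit 0x8800420018))
 (.l (nat_lit 0x8800430018))
) (.s (nat_lit 2) (nat_lit 0x15) (.s (nat_lit 3) (nat_lit 0xd) (.l (nat_lit 0x60830018))
 (.s (nat_lit 3) (nat_lit 0x11) (.l (nat_lit 0x4000830020))
 (.s (nat_lit 3) (nat_lit 0x13) (.l (nat_lit 0x404000830020))
 (.s (nat_lit 3) (nat_lit 0x14) (.l (nat_lit 0x460020830020))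
 (.l (nat_lit 0x460020810320))
)))) (.l (nat_lit 0x800000118))
)))) (.l (nat_lit 0x8000110))
) (.l (nat_lit 0x8000110))
)))) (.l (nat_lit 0x108))
)))

theorem u1 : check tb r1 [17, 0, 0, 0, 0, 0, 0, 0, 0, 0, 0, 0, 0, 0, 0, 0, 0, 0]
    [23, 23, 23, 23, 23, 23, 23, 23, 23, 23, 23, 23, 23, 23, 23, 23, 23, 23] 0 97 0 = true := by decide +kernel

noncomputable def r2 : Rt :=
(.z (nat_lit 3) (.s (nat_lit 1) (nat_lit 0xe) (.l (nat_lit 8))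
 (.s (nat_lit 1) (nat_lit 0x13) (.l (nat_lit 0x8010110))
 (.s (nat_lit 1) (nat_lit 0x16) (.s (nat_lit 1) (nat_lit 0x15) (.s (nat_lit 1) (nat_lit 0x14) (.l (nat_lit 0x8000110))
 (.z (nat_lit 1) (.s (nat_lit 2) (nat_lit 0xd) (.l (nat_lit 0x108000010))
 (.s (nat_lit 2) (nat_lit 0x11) (.l (nat_lit 0x18800420018))
 (.s (nat_lit 2) (nat_lit 0x13) (.l (nat_lit 0x18800420018))
 (.s (nat_lit 2) (nat_lit 0x14) (.l (nat_lit 0x8800430018))
 (.s (nat_lit 3) (nat_lit 0xd) (.l (nat_lit 0x60830018))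
 (.s (nat_lit 3) (nat_lit 0x11) (.l (nat_lit 0x404000830020))
 (.s (nat_lit 3) (nat_lit 0x13) (.l (nat_lit 0x460020830020))
 (.s (nat_lit 3) (nat_lit 0x14) (.l (nat_lit 0x4040000120))
 (.s (nat_lit 4) (nat_lit 0xd) (.l (nat_lit 0x4040830020))
 (.s (nat_lit 4) (nat_lit 0x11) (.l (nat_lit 0x280040830028))
 (.s (nat_lit 4) (nat_lit 0x13) (.l (nat_lit 0x20280040830028))
 (.s (nat_lit 4) (nat_lit 0x14) (.l (nat_lit 0x20280040830028))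
 (.z (nat_lit 0) (.s (nat_lit 5) (nat_lit 0xd) (.l (nat_lit 0x282040830028))
 (.s (nat_lit 5) (nat_lit 0x11) (.l (nat_lit 0x1004a02040830030))
 (.s (nat_lit 5) (nat_lit 0x13) (.l (nat_lit 0x1004a02040830030))
 (.s (nat_lit 5) (nat_lit 0x14) (.l (nat_lit 0x1000a82040830030))
 (.s (nat_lit 6) (nat_lit 0xd) (.l (nat_lit 0x18102040810330))
 (.s (nat_lit 6) (nat_lit 0x11) (.l (nat_lit 0x80260102040810338))
 (.s (nat_lit 6) (nat_lit 0x13) (.l (nat_lit 0x80064102040810338))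
 (.s (nat_lit 6) (nat_lit 0x14) (.l (nat_lit 0x80064102040810338))
 (.s (nat_lit 7) (nat_lit 0xd) (.l (nat_lit 0x410b02040830038))
 (.s (nat_lit 7) (nat_lit 0x11) (.l (nat_lit 0x10400010b02040830040))
 (.s (nat_lit 7) (nat_lit 0x13) (.s (nat_lit 7) (nat_lit 0x12) (.l (nat_lit 0x10030010b02040830040))
 (.l (nat_lit 0x10030010b02040830040))
) (.s (nat_lit 7) (nat_lit 0x14) (.s (nat_lit 8) (nat_lit 0xc) (.l (nat_lit 0x30010b02040830040))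
 (.s (nat_lit 8) (nat_lit 0x10) (.l (nat_lit 0x2000010b02040830048))
 (.s (nat_lit 8) (nat_lit 0x12) (.l (nat_lit 0x242000010b02040830048))
 (.l (nat_lit 0x242000010b02040830048))
))) (.s (nat_lit 8) (nat_lit 0xd) (.l (nat_lit 0x30010b02040830040))
 (.s (nat_lit 8) (nat_lit 0x11) (.l (nat_lit 0x242000010b02040830048))
 (.s (nat_lit 8) (nat_lit 0x13) (.l (nat_lit 0x42000010b02040830048))
 (.l (nat_lit 0x242000010b02040830048))
))))))))))))))) (.l (nat_lit 0x280000000128))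
))))))))))))) (.l (nat_lit 0x800110))
)) (.z (nat_lit 1) (.s (nat_lit 2) (nat_lit 0xd) (.l (nat_lit 0x108000010))
 (.s (nat_lit 2) (nat_lit 0x12) (.l (nat_lit 0x8800400118))
 (.s (nat_lit 2) (nat_lit 0x14) (.l (nat_lit 0x8800430018))
 (.s (nat_lit 2) (nat_lit 0x15) (.z (nat_lit 0) (.s (nat_lit 3) (nat_lit 0xd) (.l (nat_lit 0x60830018))
 (.s (nat_lit 3) (nat_lit 0x11) (.l (nat_lit 0x404000830020))
 (.s (nat_lit 3) (nat_lit 0x13) (.l (nat_lit 0x404000830020))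
 (.s (nat_lit 3) (nat_lit 0x14) (.l (nat_lit 0x460020830020))
 (.s (nat_lit 4) (nat_lit 0xd) (.l (nat_lit 0x4040830020))
 (.s (nat_lit 4) (nat_lit 0x11) (.l (nat_lit 0x280040830028))
 (.s (nat_lit 4) (nat_lit 0x13) (.l (nat_lit 0x20280040830028))
 (.s (nat_lit 4) (nat_lit 0x14) (.l (nat_lit 0x20280040830028))
 (.l (nat_lit 0x280000000128))
)))))))) (.l (nat_lit 0x18800020018))
) (.z (nat_lit 0) (.s (nat_lit 3) (nat_lit 0xd) (.l (nat_lit 0x60830018))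
 (.s (nat_lit 3) (nat_lit 0x12) (.l (nat_lit 0x4000020220))
 (.s (nat_lit 3) (nat_lit 0x14) (.l (nat_lit 0x460020830020))
 (.s (nat_lit 3) (nat_lit 0x15) (.s (nat_lit 4) (nat_lit 0xd) (.l (nat_lit 0x4040830020))
 (.s (nat_lit 4) (nat_lit 0x11) (.l (nat_lit 0x280040830028))
 (.s (nat_lit 4) (nat_lit 0x13) (.l (nat_lit 0x280040830028))
 (.s (nat_lit 4) (nat_lit 0x14) (.l (nat_lit 0x1280040830028))
 (.l (nat_lit 0x280000000128))
)))) (.l (nat_lit 0x60000000120))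
)))) (.l (nat_lit 0x800000118))
))))) (.l (nat_lit 0x800110))
)) (.s (nat_lit 1) (nat_lit 0x17) (.z (nat_lit 0) (.s (nat_lit 2) (nat_lit 0xe) (.l (nat_lit 0x100800010))
 (.s (nat_lit 2) (nat_lit 0x13) (.l (nat_lit 0x800000118))
 (.s (nat_lit 2) (nat_lit 0x15) (.s (nat_lit 2) (nat_lit 0x14) (.l (nat_lit 0x8800430018))
 (.s (nat_lit 3) (nat_lit 0xd) (.l (nat_lit 0x60830018))
 (.s (nat_lit 3) (nat_lit 0x11) (.l (nat_lit 0x4000830020))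
 (.s (nat_lit 3) (nat_lit 0x13) (.l (nat_lit 0x404000830020))
 (.s (nat_lit 3) (nat_lit 0x14) (.l (nat_lit 0x404000830020))
 (.s (nat_lit 4) (nat_lit 0xd) (.l (nat_lit 0x4040830020))
 (.s (nat_lit 4) (nat_lit 0x11) (.l (nat_lit 0x280040830028))
 (.s (nat_lit 4) (nat_lit 0x13) (.l (nat_lit 0x280040830028))
 (.s (nat_lit 4) (nat_lit 0x14) (.l (nat_lit 0x1280040830028))
 (.l (nat_lit 0x280000000128))
))))))))) (.l (nat_lit 0x800000118))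
))) (.l (nat_lit 0x8000110))
) (.z (nat_lit 1) (.s (nat_lit 2) (nat_lit 0xe) (.l (nat_lit 0x100800010))
 (.s (nat_lit 2) (nat_lit 0x13) (.l (nat_lit 0x8800430018))
 (.s (nat_lit 2) (nat_lit 0x16) (.s (nat_lit 2) (nat_lit 0x15) (.s (nat_lit 2) (nat_lit 0x14) (.l (nat_lit 0x8060030018))
 (.l (nat_lit 0x800000118))
) (.l (nat_lit 0x800000118))
) (.s (nat_lit 2) (nat_lit 0x17) (.l (nat_lit 0x800000118))
 (.l (nat_lit 0x800830018))
)))) (.l (nat_lit 0x800110))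
))))) (.l (nat_lit 0x108))
)

theorem u2 : check tb r2 [23, 0, 0, 0, 0, 0, 0, 0, 0, 0, 0, 0, 0, 0, 0, 0, 0, 0]
    [24, 24, 24, 24, 24, 24, 24, 24, 24, 24, 24, 24, 24, 24, 24, 24, 24, 24] 0 97 0 = true := by decide +kernel

noncomputable def r3 : Rt :=
(.z (nat_lit 6) (.s (nat_lit 1) (nat_lit 0xf) (.l (nat_lit 8))
 (.s (nat_lit 1) (nat_lit 0x14) (.s (nat_lit 1) (nat_lit 0x12) (.l (nat_lit 0x8000110))
 (.l (nat_lit 0x8000110))
) (.s (nat_lit 1) (nat_lit 0x17) (.s (nat_lit 1) (nat_lit 0x16) (.s (nat_lit 1) (nat_lit 0x15) (.z (nat_lit 1) (.s (nat_lit 2) (nat_lit 0xd) (.l (nat_lit 0x108000010))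
 (.s (nat_lit 2) (nat_lit 0x11) (.l (nat_lit 0x18060820018))
 (.s (nat_lit 2) (nat_lit 0x13) (.l (nat_lit 0x18800420018))
 (.s (nat_lit 2) (nat_lit 0x14) (.l (nat_lit 0x8800430018))
 (.s (nat_lit 3) (nat_lit 0xd) (.l (nat_lit 0x60830018))
 (.s (nat_lit 3) (nat_lit 0x11) (.l (nat_lit 0x404000830020))
 (.s (nat_lit 3) (nat_lit 0x13) (.l (nat_lit 0x60000000120))
 (.s (nat_lit 3) (nat_lit 0x14) (.l (nat_lit 0x460020830020))
 (.z (nat_lit 0) (.s (nat_lit 4) (nat_lit 0xd) (.l (nat_lit 0x4040830020))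
 (.s (nat_lit 4) (nat_lit 0x11) (.l (nat_lit 0x20280040830028))
 (.s (nat_lit 4) (nat_lit 0x13) (.l (nat_lit 0x100001040830028))
 (.s (nat_lit 4) (nat_lit 0x14) (.l (nat_lit 0x2280020830028))
 (.s (nat_lit 5) (nat_lit 0xd) (.l (nat_lit 0x282040830028))
 (.s (nat_lit 5) (nat_lit 0x11) (.l (nat_lit 0x1004a02040830030))
 (.s (nat_lit 5) (nat_lit 0x13) (.l (nat_lit 0x1000b82040830030))
 (.s (nat_lit 5) (nat_lit 0x14) (.l (nat_lit 0x4000a80020830030))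
 (.s (nat_lit 6) (nat_lit 0xd) (.l (nat_lit 0x18102040810330))
 (.s (nat_lit 6) (nat_lit 0x11) (.l (nat_lit 0x80260102040810338))
 (.s (nat_lit 6) (nat_lit 0x13) (.l (nat_lit 0x80064102040810338))
 (.s (nat_lit 6) (nat_lit 0x14) (.s (nat_lit 7) (nat_lit 0xc) (.l (nat_lit 0x68102040810338))
 (.s (nat_lit 7) (nat_lit 0x10) (.l (nat_lit 0x8020c68102040810340))
 (.s (nat_lit 7) (nat_lit 0x12) (.l (nat_lit 0x8200868102040810340))
 (.s (nat_lit 7) (nat_lit 0x13) (.l (nat_lit 0x40030010b00020830040))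
 (.s (nat_lit 8) (nat_lit 0xc) (.l (nat_lit 0x20868102040810340))
 (.s (nat_lit 8) (nat_lit 0x10) (.l (nat_lit 0x801800868102040810348))
 (.s (nat_lit 8) (nat_lit 0x12) (.l (nat_lit 0x801800868102040810348))
 (.s (nat_lit 8) (nat_lit 0x13) (.l (nat_lit 0x231800868102040810348))
 (.l (nat_lit 0x1002800010b02040830048))
)))))))) (.s (nat_lit 7) (nat_lit 0xd) (.l (nat_lit 0x410b02040830038))
 (.s (nat_lit 7) (nat_lit 0x11) (.l (nat_lit 0x10400010b02040830040))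
 (.s (nat_lit 7) (nat_lit 0x13) (.s (nat_lit 7) (nat_lit 0x12) (.l (nat_lit 0x10030010b02040830040))
 (.l (nat_lit 0x40030010b00020830040))
) (.s (nat_lit 7) (nat_lit 0x14) (.s (nat_lit 8) (nat_lit 0xc) (.l (nat_lit 0x30010b02040830040))
 (.s (nat_lit 8) (nat_lit 0x10) (.l (nat_lit 0x2000010b02040830048))
 (.s (nat_lit 8) (nat_lit 0x12) (.l (nat_lit 0x242000010b02040830048))
 (.l (nat_lit 0x262000010b00020830048))
))) (.s (nat_lit 8) (nat_lit 0xd) (.l (nat_lit 0x30010b02040830040))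
 (.s (nat_lit 8) (nat_lit 0x11) (.l (nat_lit 0x242000010b02040830048))
 (.s (nat_lit 8) (nat_lit 0x13) (.l (nat_lit 0x242000010b02040830048))
 (.l (nat_lit 0x262000010b00020830048))
))))))))))))))))))) (.l (nat_lit 0x460020830020))
))))))))) (.l (nat_lit 0x800110))
) (.z (nat_lit 2) (.s (nat_lit 2) (nat_lit 0xd) (.l (nat_lit 0x108000010))
 (.s (nat_lit 2) (nat_lit 0x12) (.l (nat_lit 0x8800c30018))
 (.s (nat_lit 2) (nat_lit 0x14) (.l (nat_lit 0x8800430018))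
 (.s (nat_lit 2) (nat_lit 0x15) (.z (nat_lit 0) (.s (nat_lit 3) (nat_lit 0xd) (.l (nat_lit 0x60830018))
 (.s (nat_lit 3) (nat_lit 0x11) (.l (nat_lit 0x404000830020))
 (.s (nat_lit 3) (nat_lit 0x13) (.l (nat_lit 0x404040830020))
 (.s (nat_lit 3) (nat_lit 0x14) (.l (nat_lit 0x460020830020))
 (.s (nat_lit 4) (nat_lit 0xd) (.l (nat_lit 0x4040830020))
 (.s (nat_lit 4) (nat_lit 0x11) (.l (nat_lit 0x280040830028))
 (.s (nat_lit 4) (nat_lit 0x13) (.l (nat_lit 0x21280040830028))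
 (.s (nat_lit 4) (nat_lit 0x14) (.l (nat_lit 0x21280040830028))
 (.s (nat_lit 5) (nat_lit 0xd) (.l (nat_lit 0x282040830028))
 (.s (nat_lit 5) (nat_lit 0x11) (.l (nat_lit 0x1004a02040830030))
 (.s (nat_lit 5) (nat_lit 0x13) (.l (nat_lit 0x1004a02040830030))
 (.s (nat_lit 5) (nat_lit 0x14) (.l (nat_lit 0x1000a82040830030))
 (.s (nat_lit 6) (nat_lit 0xd) (.l (nat_lit 0x18102040810330))
 (.s (nat_lit 6) (nat_lit 0x11) (.l (nat_lit 0x80260102040810338))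
 (.s (nat_lit 6) (nat_lit 0x13) (.l (nat_lit 0x80064102040810338))
 (.s (nat_lit 6) (nat_lit 0x14) (.l (nat_lit 0x180c50000082830038))
 (.l (nat_lit 0x100c58000082830038))
)))))))))))))))) (.l (nat_lit 0x18800020018))
) (.z (nat_lit 1) (.s (nat_lit 3) (nat_lit 0xd) (.l (nat_lit 0x60830018))
 (.s (nat_lit 3) (nat_lit 0x12) (.l (nat_lit 0x4040020220))
 (.s (nat_lit 3) (nat_lit 0x14) (.l (nat_lit 0x460020830020))
 (.s (nat_lit 3) (nat_lit 0x15) (.z (nat_lit 0) (.s (nat_lit 4) (nat_lit 0xd) (.l (nat_lit 0x4040830020))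
 (.s (nat_lit 4) (nat_lit 0x11) (.l (nat_lit 0x1280040830028))
 (.s (nat_lit 4) (nat_lit 0x13) (.l (nat_lit 0x21280040830028))
 (.s (nat_lit 4) (nat_lit 0x14) (.l (nat_lit 0x1280040830028))
 (.s (nat_lit 5) (nat_lit 0xd) (.l (nat_lit 0x1281040830028))
 (.s (nat_lit 5) (nat_lit 0x11) (.l (nat_lit 0x2004a01040830030))
 (.s (nat_lit 5) (nat_lit 0x13) (.l (nat_lit 0x2004a01040830030))
 (.s (nat_lit 5) (nat_lit 0x14) (.l (nat_lit 0x2000a81040830030))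
 (.s (nat_lit 6) (nat_lit 0xd) (.l (nat_lit 0x18102040810330))
 (.s (nat_lit 6) (nat_lit 0x11) (.l (nat_lit 0x260102040810338))
 (.s (nat_lit 6) (nat_lit 0x13) (.l (nat_lit 0x80064102040810338))
 (.s (nat_lit 6) (nat_lit 0x14) (.l (nat_lit 0x280064100040810338))
 (.s (nat_lit 7) (nat_lit 0xd) (.l (nat_lit 0x68102040810338))
 (.s (nat_lit 7) (nat_lit 0x11) (.l (nat_lit 0x8200868102040810340))
 (.s (nat_lit 7) (nat_lit 0x13) (.s (nat_lit 7) (nat_lit 0x12) (.l (nat_lit 0x8020868102040810340))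
 (.l (nat_lit 0x28020868100040810340))
) (.s (nat_lit 7) (nat_lit 0x14) (.s (nat_lit 8) (nat_lit 0xc) (.l (nat_lit 0x20868102040810340))
 (.s (nat_lit 8) (nat_lit 0x10) (.l (nat_lit 0x1800868102040810348))
 (.s (nat_lit 8) (nat_lit 0x12) (.l (nat_lit 0x801800868102040810348))
 (.s (nat_lit 8) (nat_lit 0x13) (.l (nat_lit 0x801800868102040810348))
 (.l (nat_lit 0x2801800868100040810348))
)))) (.s (nat_lit 8) (nat_lit 0xd) (.l (nat_lit 0x20868102040810340))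
 (.s (nat_lit 8) (nat_lit 0x11) (.l (nat_lit 0x801800868102040810348))
 (.s (nat_lit 8) (nat_lit 0x13) (.l (nat_lit 0x231800868102040810348))
 (.l (nat_lit 0x2802000868100040810348))
))))))))))))))))))) (.l (nat_lit 0x1460000800320))
) (.s (nat_lit 4) (nat_lit 0xd) (.l (nat_lit 0x4040830020))
 (.s (nat_lit 4) (nat_lit 0x12) (.l (nat_lit 0x21280040830028))
 (.s (nat_lit 4) (nat_lit 0x14) (.l (nat_lit 0x21280040830028))
 (.s (nat_lit 4) (nat_lit 0x15) (.l (nat_lit 0x280000000128))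
 (.z (nat_lit 0) (.s (nat_lit 5) (nat_lit 0xd) (.l (nat_lit 0x282040830028))
 (.s (nat_lit 5) (nat_lit 0x12) (.l (nat_lit 0x4a02040830030))
 (.s (nat_lit 5) (nat_lit 0x14) (.l (nat_lit 0xa82040830030))
 (.s (nat_lit 5) (nat_lit 0x15) (.l (nat_lit 0xa80000000130))
 (.s (nat_lit 6) (nat_lit 0xd) (.l (nat_lit 0x98082040810330))
 (.s (nat_lit 6) (nat_lit 0x12) (.l (nat_lit 0x260082040810338))
 (.s (nat_lit 6) (nat_lit 0x14) (.l (nat_lit 0x100064082040810338))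
 (.s (nat_lit 6) (nat_lit 0x15) (.l (nat_lit 0x100064082040810338))
 (.l (nat_lit 0x98000b00001010038))
)))))))) (.l (nat_lit 0x282040830028))
))))))))) (.l (nat_lit 0x10800820018))
))))) (.l (nat_lit 0x800110))
)) (.z (nat_lit 2) (.s (nat_lit 2) (nat_lit 0xe) (.l (nat_lit 0x100000010))
 (.s (nat_lit 2) (nat_lit 0x13) (.l (nat_lit 0x800000118))
 (.s (nat_lit 2) (nat_lit 0x15) (.s (nat_lit 2) (nat_lit 0x14) (.l (nat_lit 0x8800430018))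
 (.z (nat_lit 0) (.s (nat_lit 3) (nat_lit 0xd) (.l (nat_lit 0x60830018))
 (.s (nat_lit 3) (nat_lit 0x11) (.l (nat_lit 0x404000830020))
 (.s (nat_lit 3) (nat_lit 0x13) (.l (nat_lit 0x404000830020))
 (.s (nat_lit 3) (nat_lit 0x14) (.l (nat_lit 0x460020830020))
 (.s (nat_lit 4) (nat_lit 0xd) (.l (nat_lit 0x4040830020))
 (.s (nat_lit 4) (nat_lit 0x11) (.l (nat_lit 0x1280040830028))
 (.s (nat_lit 4) (nat_lit 0x13) (.l (nat_lit 0x21280040830028))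
 (.s (nat_lit 4) (nat_lit 0x14) (.l (nat_lit 0x1280040830028))
 (.s (nat_lit 5) (nat_lit 0xd) (.l (nat_lit 0x1281040830028))
 (.s (nat_lit 5) (nat_lit 0x11) (.l (nat_lit 0x4a01040830030))
 (.s (nat_lit 5) (nat_lit 0x13) (.l (nat_lit 0x2004a01040830030))
 (.s (nat_lit 5) (nat_lit 0x14) (.l (nat_lit 0x2000a81040830030))
 (.l (nat_lit 0x1210000082830030))
)))))))))))) (.l (nat_lit 0x60000118))
)) (.s (nat_lit 2) (nat_lit 0x16) (.z (nat_lit 0) (.s (nat_lit 3) (nat_lit 0xd) (.l (nat_lit 0x60830018))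
 (.s (nat_lit 3) (nat_lit 0x12) (.l (nat_lit 0x460020830020))
 (.s (nat_lit 3) (nat_lit 0x14) (.l (nat_lit 0x460020830020))
 (.s (nat_lit 3) (nat_lit 0x15) (.l (nat_lit 0x4000000120))
 (.l (nat_lit 0x60000000120))
)))) (.l (nat_lit 0x8800030018))
) (.z (nat_lit 0) (.s (nat_lit 3) (nat_lit 0xe) (.l (nat_lit 0x60020218))
 (.s (nat_lit 3) (nat_lit 0x13) (.l (nat_lit 0x404000020220))
 (.s (nat_lit 3) (nat_lit 0x15) (.s (nat_lit 3) (nat_lit 0x14) (.l (nat_lit 0x4000020220))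
 (.l (nat_lit 0x4000000120))
) (.l (nat_lit 0x60000000120))
))) (.l (nat_lit 0x60000118))
))))) (.l (nat_lit 0x830010))
)) (.s (nat_lit 1) (nat_lit 0x18) (.z (nat_lit 2) (.s (nat_lit 2) (nat_lit 0xe) (.l (nat_lit 0x100800010))
 (.s (nat_lit 2) (nat_lit 0x13) (.l (nat_lit 0x800000118))
 (.s (nat_lit 2) (nat_lit 0x16) (.s (nat_lit 2) (nat_lit 0x15) (.s (nat_lit 2) (nat_lit 0x14) (.l (nat_lit 0x8060830018))
 (.l (nat_lit 0x60000118))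
) (.z (nat_lit 0) (.s (nat_lit 3) (nat_lit 0xd) (.l (nat_lit 0x60830018))
 (.s (nat_lit 3) (nat_lit 0x12) (.l (nat_lit 0x404000830020))
 (.s (nat_lit 3) (nat_lit 0x14) (.l (nat_lit 0x460000830020))
 (.l (nat_lit 0x60000000120))
))) (.l (nat_lit 0x8800030018))
)) (.s (nat_lit 2) (nat_lit 0x17) (.l (nat_lit 0x800000118))
 (.z (nat_lit 0) (.s (nat_lit 3) (nat_lit 0xe) (.l (nat_lit 0x60020218))
 (.s (nat_lit 3) (nat_lit 0x13) (.l (nat_lit 0x4000020220))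
 (.s (nat_lit 3) (nat_lit 0x16) (.l (nat_lit 0x60000000120))
 (.l (nat_lit 0x4000000120))
))) (.l (nat_lit 0x60000118))
))))) (.l (nat_lit 0x810310))
) (.z (nat_lit 2) (.s (nat_lit 2) (nat_lit 0xf) (.l (nat_lit 0x100800010))
 (.s (nat_lit 2) (nat_lit 0x14) (.l (nat_lit 0x800800118))
 (.s (nat_lit 2) (nat_lit 0x17) (.s (nat_lit 2) (nat_lit 0x16) (.s (nat_lit 2) (nat_lit 0x15) (.l (nat_lit 0x60000118))
 (.l (nat_lit 0x60000118))
) (.l (nat_lit 0x60000118))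
) (.l (nat_lit 0x800020218))
))) (.l (nat_lit 0x8020210))
))))) (.l (nat_lit 0x8008))
)

theorem u3 : check tb r3 [24, 0, 0, 0, 0, 0, 0, 0, 0, 0, 0, 0, 0, 0, 0, 0, 0, 0]
    [25, 25, 25, 25, 25, 25, 25, 25, 25, 25, 25, 25, 25, 25, 25, 25, 25, 25] 0 97 0 = true := by decide +kernel

noncomputable def r4 : Rt :=
(.z (nat_lit 6) (.s (nat_lit 1) (nat_lit 0xf) (.l (nat_lit 8))
 (.s (nat_lit 1) (nat_lit 0x15) (.s (nat_lit 1) (nat_lit 0x12) (.l (nat_lit 0x108028210))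
 (.s (nat_lit 1) (nat_lit 0x14) (.s (nat_lit 1) (nat_lit 0x13) (.l (nat_lit 0x830210))
 (.l (nat_lit 0x8010110))
) (.l (nat_lit 0x8010110))
)) (.s (nat_lit 1) (nat_lit 0x18) (.s (nat_lit 1) (nat_lit 0x17) (.s (nat_lit 1) (nat_lit 0x16) (.z (nat_lit 3) (.s (nat_lit 2) (nat_lit 0xd) (.l (nat_lit 0x108000010))
 (.s (nat_lit 2) (nat_lit 0x12) (.l (nat_lit 0x8800c30018))
 (.s (nat_lit 2) (nat_lit 0x14) (.l (nat_lit 0x800000118))
 (.s (nat_lit 2) (nat_lit 0x15) (.l (nat_lit 0x800800118))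
 (.z (nat_lit 2) (.s (nat_lit 3) (nat_lit 0xd) (.l (nat_lit 0x60820018))
 (.s (nat_lit 3) (nat_lit 0x12) (.l (nat_lit 0x60040000120))
 (.s (nat_lit 3) (nat_lit 0x14) (.s (nat_lit 3) (nat_lit 0x13) (.l (nat_lit 0x4000020220))
 (.l (nat_lit 0x4040020220))
) (.s (nat_lit 3) (nat_lit 0x15) (.l (nat_lit 0x4040000120))
 (.z (nat_lit 1) (.s (nat_lit 4) (nat_lit 0xd) (.l (nat_lit 0x4040820020))
 (.s (nat_lit 4) (nat_lit 0x12) (.l (nat_lit 0x100282040820028))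
 (.s (nat_lit 4) (nat_lit 0x14) (.l (nat_lit 0x24280001010228))
 (.s (nat_lit 4) (nat_lit 0x15) (.l (nat_lit 0x282000000128))
 (.z (nat_lit 0) (.s (nat_lit 5) (nat_lit 0xd) (.l (nat_lit 0x282040830028))
 (.s (nat_lit 5) (nat_lit 0x12) (.l (nat_lit 0x1004a02040830030))
 (.s (nat_lit 5) (nat_lit 0x14) (.l (nat_lit 0x1018a00001010030))
 (.l (nat_lit 0x294002041800030))
))) (.l (nat_lit 0x4200001010028))
))))) (.l (nat_lit 0x4000000120))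
))))) (.l (nat_lit 0x60000118))
))))) (.l (nat_lit 0x800110))
) (.z (nat_lit 3) (.s (nat_lit 2) (nat_lit 0xe) (.l (nat_lit 0x108000010))
 (.s (nat_lit 2) (nat_lit 0x13) (.l (nat_lit 0x800820218))
 (.s (nat_lit 2) (nat_lit 0x15) (.s (nat_lit 2) (nat_lit 0x14) (.l (nat_lit 0x800800118))
 (.z (nat_lit 0) (.s (nat_lit 3) (nat_lit 0xd) (.l (nat_lit 0x60030018))
 (.s (nat_lit 3) (nat_lit 0x11) (.l (nat_lit 0xc60020030020))
 (.s (nat_lit 3) (nat_lit 0x13) (.l (nat_lit 0x4000800120))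
 (.l (nat_lit 0x4040800120))
))) (.l (nat_lit 0x60800118))
)) (.s (nat_lit 2) (nat_lit 0x16) (.z (nat_lit 1) (.s (nat_lit 3) (nat_lit 0xd) (.l (nat_lit 0x60030018))
 (.s (nat_lit 3) (nat_lit 0x12) (.l (nat_lit 0xc60020030020))
 (.s (nat_lit 3) (nat_lit 0x14) (.l (nat_lit 0x4040020220))
 (.s (nat_lit 3) (nat_lit 0x15) (.l (nat_lit 0x4040000120))
 (.z (nat_lit 0) (.s (nat_lit 4) (nat_lit 0xd) (.l (nat_lit 0x4040030020))
 (.s (nat_lit 4) (nat_lit 0x12) (.l (nat_lit 0x23280040030028))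
 (.s (nat_lit 4) (nat_lit 0x14) (.s (nat_lit 4) (nat_lit 0x13) (.l (nat_lit 0x3280040030028))
 (.l (nat_lit 0x23280040030028))
) (.s (nat_lit 4) (nat_lit 0x15) (.l (nat_lit 0x282000000128))
 (.l (nat_lit 0x1280000000128))
)))) (.l (nat_lit 0x60000000120))
))))) (.l (nat_lit 0x60000118))
) (.z (nat_lit 2) (.s (nat_lit 3) (nat_lit 0xe) (.l (nat_lit 0x60020218))
 (.s (nat_lit 3) (nat_lit 0x13) (.l (nat_lit 0x4040020220))
 (.s (nat_lit 3) (nat_lit 0x15) (.l (nat_lit 0x4040000120))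
 (.s (nat_lit 3) (nat_lit 0x16) (.z (nat_lit 0) (.s (nat_lit 4) (nat_lit 0xd) (.l (nat_lit 0x4040830020))
 (.s (nat_lit 4) (nat_lit 0x12) (.l (nat_lit 0x20280040830028))
 (.s (nat_lit 4) (nat_lit 0x14) (.l (nat_lit 0x282040830028))
 (.l (nat_lit 0x1280000000128))
))) (.l (nat_lit 0x60000000120))
) (.z (nat_lit 0) (.s (nat_lit 4) (nat_lit 0xe) (.l (nat_lit 0x4000020220))
 (.s (nat_lit 4) (nat_lit 0x13) (.l (nat_lit 0x11000020228))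
 (.s (nat_lit 4) (nat_lit 0x15) (.l (nat_lit 0x1280000000128))
 (.s (nat_lit 4) (nat_lit 0x16) (.l (nat_lit 0x1280000000128))
 (.l (nat_lit 0x4280041820128))
)))) (.l (nat_lit 0x464001030120))
))))) (.l (nat_lit 0x60830018))
))))) (.l (nat_lit 0x8000110))
)) (.z (nat_lit 3) (.s (nat_lit 2) (nat_lit 0xe) (.l (nat_lit 0x100800010))
 (.s (nat_lit 2) (nat_lit 0x13) (.l (nat_lit 0x8800000118))
 (.s (nat_lit 2) (nat_lit 0x16) (.s (nat_lit 2) (nat_lit 0x15) (.s (nat_lit 2) (nat_lit 0x14) (.l (nat_lit 0x60800118))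
 (.l (nat_lit 0x60800118))
) (.z (nat_lit 1) (.s (nat_lit 3) (nat_lit 0xd) (.l (nat_lit 0x60830018))
 (.s (nat_lit 3) (nat_lit 0x12) (.l (nat_lit 0x460020830020))
 (.s (nat_lit 3) (nat_lit 0x14) (.l (nat_lit 0x460020830020))
 (.s (nat_lit 3) (nat_lit 0x15) (.l (nat_lit 0x4040000120))
 (.z (nat_lit 0) (.s (nat_lit 4) (nat_lit 0xd) (.l (nat_lit 0x4040830020))
 (.s (nat_lit 4) (nat_lit 0x12) (.l (nat_lit 0x20280040830028))
 (.s (nat_lit 4) (nat_lit 0x14) (.l (nat_lit 0x282040830028))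
 (.l (nat_lit 0x1280000000128))
))) (.l (nat_lit 0x60000000120))
))))) (.l (nat_lit 0x60000118))
)) (.s (nat_lit 2) (nat_lit 0x17) (.z (nat_lit 1) (.s (nat_lit 3) (nat_lit 0xe) (.l (nat_lit 0x60020218))
 (.s (nat_lit 3) (nat_lit 0x13) (.l (nat_lit 0x404000020220))
 (.s (nat_lit 3) (nat_lit 0x15) (.l (nat_lit 0x4040000120))
 (.s (nat_lit 3) (nat_lit 0x16) (.l (nat_lit 0x60000000120))
 (.z (nat_lit 0) (.s (nat_lit 4) (nat_lit 0xe) (.l (nat_lit 0x24000020220))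
 (.s (nat_lit 4) (nat_lit 0x13) (.l (nat_lit 0x90000020228))
 (.s (nat_lit 4) (nat_lit 0x15) (.l (nat_lit 0x1280000000128))
 (.s (nat_lit 4) (nat_lit 0x16) (.s (nat_lit 5) (nat_lit 0xd) (.l (nat_lit 0x280040830028))
 (.s (nat_lit 5) (nat_lit 0x12) (.l (nat_lit 0x4a00040830030))
 (.s (nat_lit 5) (nat_lit 0x14) (.l (nat_lit 0xa80040830030))
 (.s (nat_lit 5) (nat_lit 0x15) (.l (nat_lit 0x280a00041820130))
 (.l (nat_lit 0x80212000020230))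
)))) (.s (nat_lit 5) (nat_lit 0xe) (.l (nat_lit 0x280040830028))
 (.s (nat_lit 5) (nat_lit 0x13) (.l (nat_lit 0x4a00040830030))
 (.s (nat_lit 5) (nat_lit 0x15) (.l (nat_lit 0x280a00041820130))
 (.l (nat_lit 0x4b00040830030))
))))))) (.l (nat_lit 0x464001030120))
))))) (.l (nat_lit 0x8060010318))
) (.z (nat_lit 0) (.s (nat_lit 3) (nat_lit 0xe) (.l (nat_lit 0x60020218))
 (.s (nat_lit 3) (nat_lit 0x13) (.l (nat_lit 0x4000020220))
 (.s (nat_lit 3) (nat_lit 0x16) (.s (nat_lit 3) (nat_lit 0x15) (.l (nat_lit 0x4000000120))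
 (.l (nat_lit 0x4000000120))
) (.s (nat_lit 3) (nat_lit 0x17) (.s (nat_lit 4) (nat_lit 0xe) (.l (nat_lit 0x24000020220))
 (.s (nat_lit 4) (nat_lit 0x13) (.l (nat_lit 0x90000020228))
 (.s (nat_lit 4) (nat_lit 0x15) (.l (nat_lit 0x92000020228))
 (.s (nat_lit 4) (nat_lit 0x16) (.l (nat_lit 0x90000020228))
 (.l (nat_lit 0x280040830028))
)))) (.l (nat_lit 0x24000020220))
)))) (.l (nat_lit 0x800020218))
))))) (.l (nat_lit 0x8020210))
)) (.s (nat_lit 1) (nat_lit 0x19) (.z (nat_lit 4) (.s (nat_lit 2) (nat_lit 0xf) (.l (nat_lit 0x100800010))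
 (.s (nat_lit 2) (nat_lit 0x14) (.l (nat_lit 0x800800118))
 (.s (nat_lit 2) (nat_lit 0x17) (.s (nat_lit 2) (nat_lit 0x16) (.s (nat_lit 2) (nat_lit 0x15) (.l (nat_lit 0x60800118))
 (.z (nat_lit 0) (.s (nat_lit 3) (nat_lit 0xd) (.l (nat_lit 0x60830018))
 (.s (nat_lit 3) (nat_lit 0x12) (.l (nat_lit 0x460020830020))
 (.s (nat_lit 3) (nat_lit 0x14) (.l (nat_lit 0x4040000120))
 (.s (nat_lit 3) (nat_lit 0x15) (.l (nat_lit 0x4000000120))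
 (.l (nat_lit 0x60000000120))
)))) (.l (nat_lit 0x60000118))
)) (.z (nat_lit 0) (.s (nat_lit 3) (nat_lit 0xe) (.l (nat_lit 0x60020218))
 (.s (nat_lit 3) (nat_lit 0x13) (.l (nat_lit 0x4000020220))
 (.s (nat_lit 3) (nat_lit 0x15) (.l (nat_lit 0x4000000120))
 (.s (nat_lit 3) (nat_lit 0x16) (.l (nat_lit 0x4000000120))
 (.s (nat_lit 4) (nat_lit 0xe) (.l (nat_lit 0x24000020220))
 (.s (nat_lit 4) (nat_lit 0x13) (.l (nat_lit 0x90000020228))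
 (.s (nat_lit 4) (nat_lit 0x15) (.l (nat_lit 0x92000020228))
 (.s (nat_lit 4) (nat_lit 0x16) (.l (nat_lit 0x90000020228))
 (.l (nat_lit 0x280040830028))
)))))))) (.l (nat_lit 0x800020218))
)) (.s (nat_lit 2) (nat_lit 0x18) (.l (nat_lit 0x800020218))
 (.z (nat_lit 1) (.s (nat_lit 3) (nat_lit 0xf) (.l (nat_lit 0x60830018))
 (.s (nat_lit 3) (nat_lit 0x14) (.l (nat_lit 0x460060830020))
 (.s (nat_lit 3) (nat_lit 0x17) (.s (nat_lit 3) (nat_lit 0x16) (.l (nat_lit 0x24000020220))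
 (.l (nat_lit 0x24000020220))
) (.s (nat_lit 3) (nat_lit 0x18) (.l (nat_lit 0x4000000120))
 (.l (nat_lit 0x4000000120))
)))) (.l (nat_lit 0x60830018))
))))) (.l (nat_lit 0x830010))
) (.s (nat_lit 2) (nat_lit 0xf) (.l (nat_lit 0x100800010))
 (.s (nat_lit 2) (nat_lit 0x15) (.s (nat_lit 2) (nat_lit 0x12) (.l (nat_lit 0x18800c20018))
 (.l (nat_lit 0x60800118))
) (.s (nat_lit 2) (nat_lit 0x18) (.s (nat_lit 2) (nat_lit 0x17) (.s (nat_lit 2) (nat_lit 0x16) (.z (nat_lit 0) (.s (nat_lit 3) (nat_lit 0xd) (.l (nat_lit 0x60830018))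
 (.s (nat_lit 3) (nat_lit 0x12) (.l (nat_lit 0x404000830020))
 (.s (nat_lit 3) (nat_lit 0x14) (.l (nat_lit 0x460000830020))
 (.s (nat_lit 3) (nat_lit 0x15) (.l (nat_lit 0x4040020220))
 (.l (nat_lit 0x4000000120))
)))) (.l (nat_lit 0x60000118))
) (.l (nat_lit 0x800020218))
) (.z (nat_lit 1) (.s (nat_lit 3) (nat_lit 0xe) (.l (nat_lit 0x60020218))
 (.s (nat_lit 3) (nat_lit 0x13) (.l (nat_lit 0x24000020220))
 (.s (nat_lit 3) (nat_lit 0x16) (.s (nat_lit 3) (nat_lit 0x15) (.l (nat_lit 0x24000020220))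
 (.l (nat_lit 0x24000020220))
) (.s (nat_lit 3) (nat_lit 0x17) (.z (nat_lit 0) (.s (nat_lit 4) (nat_lit 0xe) (.l (nat_lit 0x4000000120))
 (.s (nat_lit 4) (nat_lit 0x13) (.l (nat_lit 0x2280000000128))
 (.s (nat_lit 4) (nat_lit 0x15) (.l (nat_lit 0x2280000000128))
 (.s (nat_lit 4) (nat_lit 0x16) (.l (nat_lit 0x20011000000128))
 (.l (nat_lit 0x282040810328))
)))) (.l (nat_lit 0x404000830020))
) (.l (nat_lit 0x4040810320))
)))) (.l (nat_lit 0x60830018))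
)) (.s (nat_lit 2) (nat_lit 0x19) (.z (nat_lit 0) (.s (nat_lit 3) (nat_lit 0xf) (.l (nat_lit 0x60830018))
 (.s (nat_lit 3) (nat_lit 0x14) (.l (nat_lit 0x460060830020))
 (.s (nat_lit 3) (nat_lit 0x17) (.s (nat_lit 3) (nat_lit 0x16) (.l (nat_lit 0x4000000120))
 (.l (nat_lit 0x4000000120))
) (.l (nat_lit 0x4000000120))
))) (.l (nat_lit 0x60000118))
) (.z (nat_lit 3) (.s (nat_lit 3) (nat_lit 0xf) (.l (nat_lit 0x60000118))
 (.s (nat_lit 3) (nat_lit 0x15) (.l (nat_lit 0x60000000120))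
 (.s (nat_lit 3) (nat_lit 0x18) (.s (nat_lit 3) (nat_lit 0x17) (.l (nat_lit 0x4040810320))
 (.l (nat_lit 0x4000000120))
) (.s (nat_lit 3) (nat_lit 0x19) (.l (nat_lit 0x4000000120))
 (.l (nat_lit 0x4000000120))
)))) (.l (nat_lit 0x60000118))
))))))))) (.l (nat_lit 0x108))
)

theorem u4 : check tb r4 [25, 0, 0, 0, 0, 0, 0, 0, 0, 0, 0, 0, 0, 0, 0, 0, 0, 0]
    [26, 26, 26, 26, 26, 26, 26, 26, 26, 26, 26, 26, 26, 26, 26, 26, 26, 26] 0 97 0 = true := by decide +kernel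

noncomputable def r5 : Rt :=
(.l (nat_lit 8))


theorem u5 : check tb r5 [26, 0, 0, 0, 0, 0, 0, 0, 0, 0, 0, 0, 0, 0, 0, 0, 0, 0]
    [27, 16, 16, 16, 16, 16, 16, 16, 16, 16, 16, 16, 16, 16, 16, 16, 16, 16] 0 7 0 = true := by decide +kernel

noncomputable def r6 : Rt :=
(.s (nat_lit 1) (nat_lit 0x13) (.s (nat_lit 1) (nat_lit 0x12) (.l (nat_lit 0x100820010))
 (.l (nat_lit 0x108028010))
) (.s (nat_lit 1) (nat_lit 0x15) (.s (nat_lit 1) (nat_lit 0x14) (.l (nat_lit 0x108020210))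
 (.l (nat_lit 0x8030210))
) (.z (nat_lit 0) (.s (nat_lit 2) (nat_lit 0xd) (.l (nat_lit 0x108000010))
 (.s (nat_lit 2) (nat_lit 0x12) (.l (nat_lit 0x8060010118))
 (.s (nat_lit 2) (nat_lit 0x14) (.l (nat_lit 0x8800010118))
 (.l (nat_lit 0x800810118))
))) (.l (nat_lit 0x8010110))
)))

theorem u6 : check tb r6 [26, 16, 0, 0, 0, 0, 0, 0, 0, 0, 0, 0, 0, 0, 0, 0, 0, 0]
    [27, 22, 22, 22, 22, 22, 22, 22, 22, 22, 22, 22, 22, 22, 22, 22, 22, 22] 0 7 0 = true := by decide +kernel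

noncomputable def r7 : Rt :=
(.s (nat_lit 1) (nat_lit 0x18) (.s (nat_lit 1) (nat_lit 0x17) (.z (nat_lit 2) (.s (nat_lit 2) (nat_lit 0xe) (.l (nat_lit 0x108000010))
 (.s (nat_lit 2) (nat_lit 0x13) (.l (nat_lit 0x800820218))
 (.s (nat_lit 2) (nat_lit 0x15) (.s (nat_lit 2) (nat_lit 0x14) (.l (nat_lit 0x800800118))
 (.l (nat_lit 0x60800118))
) (.s (nat_lit 2) (nat_lit 0x16) (.z (nat_lit 1) (.s (nat_lit 3) (nat_lit 0xd) (.l (nat_lit 0x60830018))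
 (.s (nat_lit 3) (nat_lit 0x12) (.l (nat_lit 0x4000820220))
 (.s (nat_lit 3) (nat_lit 0x14) (.l (nat_lit 0x404000820220))
 (.s (nat_lit 3) (nat_lit 0x15) (.l (nat_lit 0x4000800120))
 (.z (nat_lit 0) (.s (nat_lit 4) (nat_lit 0xd) (.l (nat_lit 0x4040830020))
 (.s (nat_lit 4) (nat_lit 0x12) (.l (nat_lit 0xe0280040830028))
 (.s (nat_lit 4) (nat_lit 0x14) (.l (nat_lit 0x20090040820228))
 (.l (nat_lit 0x282040800128))
))) (.l (nat_lit 0x4040820220))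
))))) (.l (nat_lit 0x60800118))
) (.s (nat_lit 3) (nat_lit 0xe) (.l (nat_lit 0x60020218))
 (.s (nat_lit 3) (nat_lit 0x13) (.s (nat_lit 3) (nat_lit 0x11) (.l (nat_lit 0x4000020220))
 (.l (nat_lit 0x4000020220))
) (.s (nat_lit 3) (nat_lit 0x15) (.s (nat_lit 3) (nat_lit 0x14) (.l (nat_lit 0x404000020220))
 (.l (nat_lit 0x4040000120))
) (.s (nat_lit 3) (nat_lit 0x16) (.z (nat_lit 0) (.s (nat_lit 4) (nat_lit 0xd) (.l (nat_lit 0x4040830020))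
 (.s (nat_lit 4) (nat_lit 0x12) (.l (nat_lit 0x60280040830028))
 (.s (nat_lit 4) (nat_lit 0x14) (.l (nat_lit 0x40282040830028))
 (.l (nat_lit 0x4200001010028))
))) (.l (nat_lit 0x464001030120))
) (.l (nat_lit 0x63001030320))
)))))))) (.l (nat_lit 0x100800310))
) (.z (nat_lit 2) (.s (nat_lit 2) (nat_lit 0xe) (.l (nat_lit 0x108000010))
 (.s (nat_lit 2) (nat_lit 0x13) (.l (nat_lit 0x800820218))
 (.s (nat_lit 2) (nat_lit 0x16) (.s (nat_lit 2) (nat_lit 0x15) (.l (nat_lit 0x60800118))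
 (.z (nat_lit 0) (.s (nat_lit 3) (nat_lit 0xd) (.l (nat_lit 0x60830018))
 (.s (nat_lit 3) (nat_lit 0x12) (.l (nat_lit 0xc60020830020))
 (.s (nat_lit 3) (nat_lit 0x14) (.l (nat_lit 0x4000820220))
 (.s (nat_lit 3) (nat_lit 0x15) (.l (nat_lit 0x4040820220))
 (.l (nat_lit 0x4040800120))
)))) (.z (nat_lit 1) (.l (nat_lit 0x18060800318))
 (.l (nat_lit 0x60800118))
))) (.s (nat_lit 2) (nat_lit 0x17) (.z (nat_lit 1) (.s (nat_lit 3) (nat_lit 0xe) (.l (nat_lit 0x60020218))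
 (.s (nat_lit 3) (nat_lit 0x13) (.l (nat_lit 0x404000020220))
 (.s (nat_lit 3) (nat_lit 0x15) (.l (nat_lit 0x4040000120))
 (.s (nat_lit 3) (nat_lit 0x16) (.z (nat_lit 0) (.s (nat_lit 4) (nat_lit 0xd) (.l (nat_lit 0x4040830020))
 (.s (nat_lit 4) (nat_lit 0x12) (.l (nat_lit 0x280040830028))
 (.s (nat_lit 4) (nat_lit 0x14) (.l (nat_lit 0x40280040830028))
 (.s (nat_lit 4) (nat_lit 0x15) (.l (nat_lit 0x20092040020228))
 (.l (nat_lit 0x282040000128))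
)))) (.l (nat_lit 0x4040020220))
) (.z (nat_lit 0) (.s (nat_lit 4) (nat_lit 0xe) (.l (nat_lit 0x24000020220))
 (.s (nat_lit 4) (nat_lit 0x13) (.l (nat_lit 0x90000020228))
 (.s (nat_lit 4) (nat_lit 0x15) (.l (nat_lit 0x2280000000128))
 (.s (nat_lit 4) (nat_lit 0x16) (.l (nat_lit 0x2280000000128))
 (.s (nat_lit 5) (nat_lit 0xe) (.l (nat_lit 0x280040830028))
 (.s (nat_lit 5) (nat_lit 0x13) (.l (nat_lit 0xa80040830030))
 (.s (nat_lit 5) (nat_lit 0x15) (.l (nat_lit 0x1280a00041820130))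
 (.l (nat_lit 0x294002041800230))
))))))) (.l (nat_lit 0x63001030320))
))))) (.l (nat_lit 0x18060000318))
) (.z (nat_lit 1) (.s (nat_lit 3) (nat_lit 0xe) (.l (nat_lit 0x60020218))
 (.s (nat_lit 3) (nat_lit 0x13) (.l (nat_lit 0x24000020220))
 (.s (nat_lit 3) (nat_lit 0x16) (.s (nat_lit 3) (nat_lit 0x15) (.l (nat_lit 0x460000000120))
 (.l (nat_lit 0x60000000120))
) (.l (nat_lit 0x63001030320))
))) (.l (nat_lit 0x18060000318))
))))) (.l (nat_lit 0x100800310))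
)) (.z (nat_lit 3) (.s (nat_lit 2) (nat_lit 0xf) (.l (nat_lit 0x100800010))
 (.s (nat_lit 2) (nat_lit 0x14) (.l (nat_lit 0x800800118))
 (.s (nat_lit 2) (nat_lit 0x17) (.s (nat_lit 2) (nat_lit 0x16) (.s (nat_lit 2) (nat_lit 0x15) (.l (nat_lit 0x60000118))
 (.z (nat_lit 0) (.s (nat_lit 3) (nat_lit 0xd) (.l (nat_lit 0x60830018))
 (.s (nat_lit 3) (nat_lit 0x12) (.l (nat_lit 0x460020830020))
 (.s (nat_lit 3) (nat_lit 0x14) (.l (nat_lit 0xc60060830020))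
 (.s (nat_lit 3) (nat_lit 0x15) (.l (nat_lit 0x404000820220))
 (.l (nat_lit 0x4040820220))
)))) (.l (nat_lit 0x60800118))
)) (.z (nat_lit 1) (.s (nat_lit 3) (nat_lit 0xe) (.l (nat_lit 0x60020218))
 (.s (nat_lit 3) (nat_lit 0x13) (.l (nat_lit 0x24000020220))
 (.s (nat_lit 3) (nat_lit 0x15) (.l (nat_lit 0x460000000120))
 (.s (nat_lit 3) (nat_lit 0x16) (.l (nat_lit 0x60000000120))
 (.z (nat_lit 0) (.s (nat_lit 4) (nat_lit 0xe) (.l (nat_lit 0x24000020220))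
 (.s (nat_lit 4) (nat_lit 0x13) (.l (nat_lit 0x90000020228))
 (.s (nat_lit 4) (nat_lit 0x15) (.l (nat_lit 0x92000020228))
 (.s (nat_lit 4) (nat_lit 0x16) (.l (nat_lit 0x2280000000128))
 (.s (nat_lit 5) (nat_lit 0xe) (.l (nat_lit 0x3180082820228))
 (.s (nat_lit 5) (nat_lit 0x13) (.l (nat_lit 0x1210000082820230))
 (.s (nat_lit 5) (nat_lit 0x15) (.l (nat_lit 0x1210000082820230))
 (.l (nat_lit 0x210000082820230))
))))))) (.l (nat_lit 0x63001030320))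
))))) (.l (nat_lit 0x18060000318))
)) (.s (nat_lit 2) (nat_lit 0x18) (.z (nat_lit 1) (.s (nat_lit 3) (nat_lit 0xe) (.l (nat_lit 0x60020218))
 (.s (nat_lit 3) (nat_lit 0x13) (.l (nat_lit 0x24000020220))
 (.s (nat_lit 3) (nat_lit 0x16) (.s (nat_lit 3) (nat_lit 0x15) (.l (nat_lit 0x404000000120))
 (.l (nat_lit 0x4040020220))
) (.s (nat_lit 3) (nat_lit 0x17) (.l (nat_lit 0x24000020220))
 (.z (nat_lit 0) (.s (nat_lit 4) (nat_lit 0xe) (.l (nat_lit 0x4040830020))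
 (.s (nat_lit 4) (nat_lit 0x13) (.l (nat_lit 0x280040830028))
 (.s (nat_lit 4) (nat_lit 0x16) (.l (nat_lit 0x2280000000128))
 (.s (nat_lit 4) (nat_lit 0x17) (.s (nat_lit 5) (nat_lit 0xe) (.l (nat_lit 0x21081c0020228))
 (.s (nat_lit 5) (nat_lit 0x13) (.l (nat_lit 0x1806081c0020230))
 (.s (nat_lit 5) (nat_lit 0x15) (.l (nat_lit 0x210000082820230))
 (.l (nat_lit 0x1806081c0020230))
))) (.l (nat_lit 0x4280000008228))
)))) (.l (nat_lit 0xc04000010320))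
))))) (.l (nat_lit 0x10060800318))
) (.z (nat_lit 1) (.s (nat_lit 3) (nat_lit 0xf) (.l (nat_lit 0x60830018))
 (.s (nat_lit 3) (nat_lit 0x14) (.l (nat_lit 0x460060830020))
 (.s (nat_lit 3) (nat_lit 0x17) (.s (nat_lit 3) (nat_lit 0x16) (.l (nat_lit 0x24000020220))
 (.z (nat_lit 0) (.s (nat_lit 4) (nat_lit 0xe) (.l (nat_lit 0x4000000120))
 (.s (nat_lit 4) (nat_lit 0x13) (.l (nat_lit 0x2280000000128))
 (.s (nat_lit 4) (nat_lit 0x15) (.l (nat_lit 0x2280000000128))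
 (.l (nat_lit 0x4200000008028))
))) (.l (nat_lit 0x4040810320))
)) (.s (nat_lit 3) (nat_lit 0x18) (.z (nat_lit 0) (.s (nat_lit 4) (nat_lit 0xe) (.l (nat_lit 0x4040830020))
 (.s (nat_lit 4) (nat_lit 0x13) (.l (nat_lit 0x280040830028))
 (.s (nat_lit 4) (nat_lit 0x16) (.s (nat_lit 4) (nat_lit 0x15) (.l (nat_lit 0x20282040810328))
 (.l (nat_lit 0x4280000008228))
) (.l (nat_lit 0x4280000008228))
))) (.l (nat_lit 0x404000830020))
) (.z (nat_lit 0) (.s (nat_lit 4) (nat_lit 0xf) (.l (nat_lit 0x4040830020))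
 (.s (nat_lit 4) (nat_lit 0x14) (.l (nat_lit 0x280000000128))
 (.s (nat_lit 4) (nat_lit 0x17) (.l (nat_lit 0x4200000008028))
 (.l (nat_lit 0x4200000008028))
))) (.l (nat_lit 0x404000830020))
))))) (.l (nat_lit 0x60000118))
))))) (.l (nat_lit 0x830010))
))

theorem u7 : check tb r7 [26, 22, 0, 0, 0, 0, 0, 0, 0, 0, 0, 0, 0, 0, 0, 0, 0, 0]
    [27, 25, 25, 25, 25, 25, 25, 25, 25, 25, 25, 25, 25, 25, 25, 25, 25, 25] 0 7 0 = true := by decide +kernel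

noncomputable def r8 : Rt :=
(.s (nat_lit 1) (nat_lit 0x1a) (.z (nat_lit 6) (.s (nat_lit 2) (nat_lit 0xf) (.l (nat_lit 0x100800010))
 (.s (nat_lit 2) (nat_lit 0x15) (.s (nat_lit 2) (nat_lit 0x12) (.l (nat_lit 0x18060820018))
 (.l (nat_lit 0x60800118))
) (.s (nat_lit 2) (nat_lit 0x18) (.s (nat_lit 2) (nat_lit 0x17) (.s (nat_lit 2) (nat_lit 0x16) (.l (nat_lit 0x800000118))
 (.z (nat_lit 1) (.s (nat_lit 3) (nat_lit 0xe) (.l (nat_lit 0x60020218))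
 (.s (nat_lit 3) (nat_lit 0x13) (.l (nat_lit 0x24000020220))
 (.s (nat_lit 3) (nat_lit 0x15) (.l (nat_lit 0x60000000120))
 (.s (nat_lit 3) (nat_lit 0x16) (.l (nat_lit 0x60000000120))
 (.s (nat_lit 4) (nat_lit 0xe) (.l (nat_lit 0x4000000120))
 (.s (nat_lit 4) (nat_lit 0x13) (.l (nat_lit 0x2280000000128))
 (.s (nat_lit 4) (nat_lit 0x15) (.l (nat_lit 0x2280000000128))
 (.s (nat_lit 4) (nat_lit 0x16) (.l (nat_lit 0x2280000000128))
 (.z (nat_lit 0) (.s (nat_lit 5) (nat_lit 0xe) (.l (nat_lit 0x31820c2000128))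
 (.s (nat_lit 5) (nat_lit 0x13) (.l (nat_lit 0x12101020c2000130))
 (.s (nat_lit 5) (nat_lit 0x15) (.l (nat_lit 0x2100020c2000130))
 (.l (nat_lit 0x2100020c2000130))
))) (.l (nat_lit 0x20280040810328))
))))))))) (.l (nat_lit 0x8060010318))
)) (.z (nat_lit 0) (.s (nat_lit 3) (nat_lit 0xe) (.l (nat_lit 0x60020218))
 (.s (nat_lit 3) (nat_lit 0x13) (.l (nat_lit 0x24000020220))
 (.s (nat_lit 3) (nat_lit 0x16) (.l (nat_lit 0x60000000120))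
 (.s (nat_lit 3) (nat_lit 0x17) (.s (nat_lit 4) (nat_lit 0xe) (.l (nat_lit 0x4000000120))
 (.s (nat_lit 4) (nat_lit 0x13) (.l (nat_lit 0x2280000000128))
 (.s (nat_lit 4) (nat_lit 0x15) (.l (nat_lit 0x2280000000128))
 (.s (nat_lit 4) (nat_lit 0x16) (.l (nat_lit 0x21881c0020228))
 (.s (nat_lit 5) (nat_lit 0xe) (.l (nat_lit 0x282040810328))
 (.s (nat_lit 5) (nat_lit 0x13) (.l (nat_lit 0x18002040810330))
 (.s (nat_lit 5) (nat_lit 0x15) (.l (nat_lit 0x1886041c0020230))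
 (.s (nat_lit 5) (nat_lit 0x16) (.l (nat_lit 0x1886041c0020230))
 (.l (nat_lit 0x41000041c0020230))
)))))))) (.s (nat_lit 4) (nat_lit 0xe) (.l (nat_lit 0x4040830020))
 (.s (nat_lit 4) (nat_lit 0x13) (.l (nat_lit 0x280040830028))
 (.s (nat_lit 4) (nat_lit 0x16) (.s (nat_lit 4) (nat_lit 0x15) (.l (nat_lit 0x20282040810328))
 (.l (nat_lit 0x21881c0020228))
) (.s (nat_lit 4) (nat_lit 0x17) (.s (nat_lit 5) (nat_lit 0xe) (.l (nat_lit 0x282040810328))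
 (.s (nat_lit 5) (nat_lit 0x13) (.l (nat_lit 0x18002040810330))
 (.s (nat_lit 5) (nat_lit 0x15) (.l (nat_lit 0x210000082820230))
 (.l (nat_lit 0x210000082820230))
))) (.l (nat_lit 0x282040810328))
)))))))) (.l (nat_lit 0x8060010318))
)) (.s (nat_lit 2) (nat_lit 0x19) (.z (nat_lit 1) (.s (nat_lit 3) (nat_lit 0xf) (.l (nat_lit 0x60830018))
 (.s (nat_lit 3) (nat_lit 0x14) (.l (nat_lit 0x460060830020))
 (.s (nat_lit 3) (nat_lit 0x17) (.s (nat_lit 3) (nat_lit 0x16) (.l (nat_lit 0x24000020220))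
 (.z (nat_lit 0) (.s (nat_lit 4) (nat_lit 0xe) (.l (nat_lit 0x4000000120))
 (.s (nat_lit 4) (nat_lit 0x13) (.l (nat_lit 0x2280000000128))
 (.s (nat_lit 4) (nat_lit 0x15) (.l (nat_lit 0x20011000000128))
 (.s (nat_lit 4) (nat_lit 0x16) (.l (nat_lit 0x21881c0020228))
 (.l (nat_lit 0x22280020810328))
)))) (.l (nat_lit 0x404000830020))
)) (.s (nat_lit 3) (nat_lit 0x18) (.l (nat_lit 0x4040810320))
 (.l (nat_lit 0x4000000120))
)))) (.l (nat_lit 0x8060030018))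
) (.z (nat_lit 2) (.s (nat_lit 3) (nat_lit 0xf) (.l (nat_lit 0x60830018))
 (.s (nat_lit 3) (nat_lit 0x15) (.l (nat_lit 0x4040000120))
 (.s (nat_lit 3) (nat_lit 0x18) (.s (nat_lit 3) (nat_lit 0x17) (.s (nat_lit 3) (nat_lit 0x16) (.l (nat_lit 0x4040830020))
 (.l (nat_lit 0x404000810320))
) (.l (nat_lit 0x404000810320))
) (.s (nat_lit 3) (nat_lit 0x19) (.l (nat_lit 0x4000000120))
 (.l (nat_lit 0x4040810320))
)))) (.l (nat_lit 0x60810318))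
))))) (.l (nat_lit 0x8000110))
) (.z (nat_lit 6) (.s (nat_lit 2) (nat_lit 0x10) (.l (nat_lit 0x100400010))
 (.s (nat_lit 2) (nat_lit 0x16) (.s (nat_lit 2) (nat_lit 0x13) (.l (nat_lit 0x8800c20018))
 (.s (nat_lit 2) (nat_lit 0x15) (.l (nat_lit 0x60000118))
 (.l (nat_lit 0x8800c30018))
)) (.s (nat_lit 2) (nat_lit 0x19) (.s (nat_lit 2) (nat_lit 0x18) (.s (nat_lit 2) (nat_lit 0x17) (.z (nat_lit 0) (.s (nat_lit 3) (nat_lit 0xe) (.l (nat_lit 0x60020218))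
 (.s (nat_lit 3) (nat_lit 0x13) (.l (nat_lit 0x24000020220))
 (.s (nat_lit 3) (nat_lit 0x15) (.l (nat_lit 0x24000020220))
 (.s (nat_lit 3) (nat_lit 0x16) (.l (nat_lit 0x44000020220))
 (.s (nat_lit 4) (nat_lit 0xe) (.l (nat_lit 0x4000000120))
 (.s (nat_lit 4) (nat_lit 0x13) (.l (nat_lit 0x2280000000128))
 (.s (nat_lit 4) (nat_lit 0x15) (.l (nat_lit 0x2280000000128))
 (.s (nat_lit 4) (nat_lit 0x16) (.l (nat_lit 0x21881c0020228))
 (.s (nat_lit 5) (nat_lit 0xe) (.l (nat_lit 0x282040810328))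
 (.s (nat_lit 5) (nat_lit 0x13) (.l (nat_lit 0x18002040810330))
 (.l (nat_lit 0x2100020c2000130))
)))))))))) (.l (nat_lit 0x8060010318))
) (.z (nat_lit 0) (.s (nat_lit 3) (nat_lit 0xe) (.l (nat_lit 0x60020218))
 (.s (nat_lit 3) (nat_lit 0x13) (.l (nat_lit 0x24000020220))
 (.s (nat_lit 3) (nat_lit 0x16) (.l (nat_lit 0x44000020220))
 (.s (nat_lit 3) (nat_lit 0x17) (.l (nat_lit 0x4040810320))
 (.l (nat_lit 0x4040810320))
)))) (.l (nat_lit 0x8060010318))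
)) (.z (nat_lit 0) (.s (nat_lit 3) (nat_lit 0xf) (.l (nat_lit 0x60830018))
 (.s (nat_lit 3) (nat_lit 0x14) (.l (nat_lit 0x460040830020))
 (.s (nat_lit 3) (nat_lit 0x17) (.s (nat_lit 3) (nat_lit 0x16) (.l (nat_lit 0x44000020220))
 (.l (nat_lit 0x404000810320))
) (.s (nat_lit 3) (nat_lit 0x18) (.l (nat_lit 0x4000000120))
 (.l (nat_lit 0x4040830020))
)))) (.l (nat_lit 0x60000118))
)) (.s (nat_lit 2) (nat_lit 0x1a) (.z (nat_lit 1) (.s (nat_lit 3) (nat_lit 0xf) (.l (nat_lit 0x60830018))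
 (.s (nat_lit 3) (nat_lit 0x15) (.l (nat_lit 0x4040000120))
 (.s (nat_lit 3) (nat_lit 0x18) (.s (nat_lit 3) (nat_lit 0x17) (.l (nat_lit 0x4040810320))
 (.l (nat_lit 0x4040830020))
) (.l (nat_lit 0x4040810320))
))) (.l (nat_lit 0x60810318))
) (.z (nat_lit 1) (.s (nat_lit 3) (nat_lit 0x10) (.l (nat_lit 0x60000118))
 (.s (nat_lit 3) (nat_lit 0x16) (.l (nat_lit 0x60040000120))
 (.s (nat_lit 3) (nat_lit 0x19) (.s (nat_lit 3) (nat_lit 0x18) (.l (nat_lit 0x4000000120))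
 (.l (nat_lit 0x4000000120))
) (.l (nat_lit 0x4040810320))
))) (.l (nat_lit 0x800000118))
))))) (.l (nat_lit 0x8030010))
))

theorem u8 : check tb r8 [26, 25, 0, 0, 0, 0, 0, 0, 0, 0, 0, 0, 0, 0, 0, 0, 0, 0]
    [27, 27, 27, 27, 27, 27, 27, 27, 27, 27, 27, 27, 27, 27, 27, 27, 27, 27] 0 7 0 = true := by decide +kernel

noncomputable def r9 : Rt :=
(.l (nat_lit 0x108))


theorem u9 : check tb r9 [26, 0, 0, 0, 0, 0, 0, 0, 0, 0, 0, 0, 0, 0, 0, 0, 0, 0]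
    [27, 27, 27, 27, 27, 27, 27, 27, 27, 27, 27, 27, 27, 27, 27, 27, 27, 27] 8 97 0 = true := by decide +kernel

noncomputable def r10 : Rt :=
(.l (nat_lit 8))


theorem u10 : check tb r10 [27, 0, 0, 0, 0, 0, 0, 0, 0, 0, 0, 0, 0, 0, 0, 0, 0, 0]
    [28, 16, 16, 16, 16, 16, 16, 16, 16, 16, 16, 16, 16, 16, 16, 16, 16, 16] 0 8 0 = true := by decide +kernel

noncomputable def r11 : Rt :=
(.s (nat_lit 1) (nat_lit 0x13) (.s (nat_lit 1) (nat_lit 0x12) (.l (nat_lit 0x100820010))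
 (.l (nat_lit 0x100830010))
) (.s (nat_lit 1) (nat_lit 0x15) (.s (nat_lit 1) (nat_lit 0x14) (.l (nat_lit 0x108020210))
 (.z (nat_lit 0) (.s (nat_lit 2) (nat_lit 0xd) (.l (nat_lit 0x108000010))
 (.s (nat_lit 2) (nat_lit 0x11) (.l (nat_lit 0x8800020018))
 (.s (nat_lit 2) (nat_lit 0x13) (.l (nat_lit 0x8060010118))
 (.l (nat_lit 0x800830218))
))) (.l (nat_lit 0x8030210))
)) (.z (nat_lit 1) (.s (nat_lit 2) (nat_lit 0xd) (.l (nat_lit 0x108000010))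
 (.s (nat_lit 2) (nat_lit 0x12) (.l (nat_lit 0x8060010118))
 (.s (nat_lit 2) (nat_lit 0x14) (.l (nat_lit 0x8060010118))
 (.s (nat_lit 2) (nat_lit 0x15) (.l (nat_lit 0x800810118))
 (.s (nat_lit 3) (nat_lit 0xd) (.l (nat_lit 0x60830218))
 (.s (nat_lit 3) (nat_lit 0x12) (.l (nat_lit 0x4000830220))
 (.s (nat_lit 3) (nat_lit 0x14) (.l (nat_lit 0x404000830220))
 (.s (nat_lit 3) (nat_lit 0x15) (.l (nat_lit 0x60040830220))
 (.z (nat_lit 0) (.s (nat_lit 4) (nat_lit 0xd) (.l (nat_lit 0x4040830220))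
 (.s (nat_lit 4) (nat_lit 0x12) (.l (nat_lit 0x280040830228))
 (.s (nat_lit 4) (nat_lit 0x14) (.l (nat_lit 0x280040830228))
 (.l (nat_lit 0x282040810128))
))) (.l (nat_lit 0x404000830220))
))))))))) (.z (nat_lit 2) (.l (nat_lit 0x100830010))
 (.l (nat_lit 0x100820010))
))))

theorem u11 : check tb r11 [27, 16, 0, 0, 0, 0, 0, 0, 0, 0, 0, 0, 0, 0, 0, 0, 0, 0]
    [28, 22, 22, 22, 22, 22, 22, 22, 22, 22, 22, 22, 22, 22, 22, 22, 22, 22] 0 8 0 = true := by decide +kernel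

noncomputable def r12 : Rt :=
(.s (nat_lit 1) (nat_lit 0x18) (.s (nat_lit 1) (nat_lit 0x17) (.z (nat_lit 2) (.s (nat_lit 2) (nat_lit 0xe) (.l (nat_lit 0x108000010))
 (.s (nat_lit 2) (nat_lit 0x13) (.l (nat_lit 0x60810118))
 (.s (nat_lit 2) (nat_lit 0x15) (.l (nat_lit 0x800810118))
 (.s (nat_lit 2) (nat_lit 0x16) (.z (nat_lit 0) (.s (nat_lit 3) (nat_lit 0xd) (.l (nat_lit 0x60830218))
 (.s (nat_lit 3) (nat_lit 0x12) (.l (nat_lit 0x4000830220))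
 (.s (nat_lit 3) (nat_lit 0x14) (.l (nat_lit 0x4000830220))
 (.s (nat_lit 3) (nat_lit 0x15) (.l (nat_lit 0x4040830220))
 (.l (nat_lit 0x4040830220))
)))) (.l (nat_lit 0x18060810318))
) (.z (nat_lit 0) (.s (nat_lit 3) (nat_lit 0xe) (.l (nat_lit 0x60830218))
 (.s (nat_lit 3) (nat_lit 0x13) (.l (nat_lit 0x4000830220))
 (.s (nat_lit 3) (nat_lit 0x15) (.l (nat_lit 0x4040830220))
 (.l (nat_lit 0x4040830220))
))) (.l (nat_lit 0x60830218))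
))))) (.l (nat_lit 0x830210))
) (.z (nat_lit 3) (.s (nat_lit 2) (nat_lit 0xe) (.l (nat_lit 0x108000010))
 (.s (nat_lit 2) (nat_lit 0x13) (.l (nat_lit 0x800820218))
 (.s (nat_lit 2) (nat_lit 0x16) (.s (nat_lit 2) (nat_lit 0x15) (.s (nat_lit 2) (nat_lit 0x14) (.l (nat_lit 0x18800c20018))
 (.z (nat_lit 0) (.s (nat_lit 3) (nat_lit 0xd) (.l (nat_lit 0x60830018))
 (.s (nat_lit 3) (nat_lit 0x11) (.l (nat_lit 0xc04000830020))
 (.s (nat_lit 3) (nat_lit 0x13) (.l (nat_lit 0xc60020830020))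
 (.s (nat_lit 3) (nat_lit 0x14) (.l (nat_lit 0x1460060820020))
 (.l (nat_lit 0x1860040c20020))
)))) (.l (nat_lit 0x18800c20018))
)) (.z (nat_lit 1) (.s (nat_lit 3) (nat_lit 0xd) (.l (nat_lit 0x60820218))
 (.s (nat_lit 3) (nat_lit 0x12) (.l (nat_lit 0x404000820220))
 (.s (nat_lit 3) (nat_lit 0x14) (.l (nat_lit 0x404000820220))
 (.s (nat_lit 3) (nat_lit 0x15) (.l (nat_lit 0x4040800120))
 (.z (nat_lit 0) (.s (nat_lit 4) (nat_lit 0xd) (.l (nat_lit 0x4040820220))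
 (.s (nat_lit 4) (nat_lit 0x12) (.l (nat_lit 0x20090040820228))
 (.s (nat_lit 4) (nat_lit 0x14) (.l (nat_lit 0x20090040820228))
 (.s (nat_lit 4) (nat_lit 0x15) (.l (nat_lit 0x280040800128))
 (.l (nat_lit 0x282040800128))
)))) (.l (nat_lit 0x404000820220))
))))) (.l (nat_lit 0x18060820018))
)) (.s (nat_lit 2) (nat_lit 0x17) (.z (nat_lit 1) (.s (nat_lit 3) (nat_lit 0xe) (.l (nat_lit 0x60820218))
 (.s (nat_lit 3) (nat_lit 0x13) (.l (nat_lit 0x404000820220))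
 (.s (nat_lit 3) (nat_lit 0x15) (.l (nat_lit 0x4040800120))
 (.s (nat_lit 3) (nat_lit 0x16) (.z (nat_lit 0) (.s (nat_lit 4) (nat_lit 0xd) (.l (nat_lit 0x4040820220))
 (.s (nat_lit 4) (nat_lit 0x12) (.l (nat_lit 0x20090040820228))
 (.s (nat_lit 4) (nat_lit 0x14) (.l (nat_lit 0x20090040820228))
 (.s (nat_lit 4) (nat_lit 0x15) (.l (nat_lit 0x20092040820228))
 (.l (nat_lit 0x282040800128))
)))) (.l (nat_lit 0x404000820220))
) (.z (nat_lit 0) (.s (nat_lit 4) (nat_lit 0xe) (.l (nat_lit 0x4040820220))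
 (.s (nat_lit 4) (nat_lit 0x13) (.l (nat_lit 0x20090040820228))
 (.s (nat_lit 4) (nat_lit 0x15) (.l (nat_lit 0x20092040820228))
 (.l (nat_lit 0x282040800128))
))) (.l (nat_lit 0x4000820220))
))))) (.l (nat_lit 0x60800118))
) (.z (nat_lit 2) (.s (nat_lit 3) (nat_lit 0xe) (.l (nat_lit 0x60020218))
 (.s (nat_lit 3) (nat_lit 0x13) (.l (nat_lit 0x860040430020))
 (.s (nat_lit 3) (nat_lit 0x16) (.s (nat_lit 3) (nat_lit 0x15) (.s (nat_lit 3) (nat_lit 0x14) (.l (nat_lit 0x24000020220))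
 (.l (nat_lit 0x460000000120))
) (.l (nat_lit 0x460060830020))
) (.s (nat_lit 3) (nat_lit 0x17) (.l (nat_lit 0x63001030320))
 (.z (nat_lit 1) (.s (nat_lit 4) (nat_lit 0xe) (.l (nat_lit 0x4040830020))
 (.s (nat_lit 4) (nat_lit 0x13) (.l (nat_lit 0x280040830028))
 (.s (nat_lit 4) (nat_lit 0x16) (.s (nat_lit 4) (nat_lit 0x15) (.l (nat_lit 0x24200000008028))
 (.l (nat_lit 0x4200000008028))
) (.l (nat_lit 0x4200000008228))
))) (.l (nat_lit 0x463000008220))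
))))) (.l (nat_lit 0x10060820018))
))))) (.l (nat_lit 0x100820010))
)) (.z (nat_lit 3) (.s (nat_lit 2) (nat_lit 0xf) (.l (nat_lit 0x108000010))
 (.s (nat_lit 2) (nat_lit 0x14) (.s (nat_lit 2) (nat_lit 0x12) (.l (nat_lit 0x18060820018))
 (.l (nat_lit 0x18800c20018))
) (.s (nat_lit 2) (nat_lit 0x17) (.s (nat_lit 2) (nat_lit 0x16) (.s (nat_lit 2) (nat_lit 0x15) (.z (nat_lit 0) (.s (nat_lit 3) (nat_lit 0xd) (.l (nat_lit 0x60830018))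
 (.s (nat_lit 3) (nat_lit 0x11) (.l (nat_lit 0xc04000830020))
 (.s (nat_lit 3) (nat_lit 0x13) (.l (nat_lit 0x460020830020))
 (.s (nat_lit 3) (nat_lit 0x14) (.l (nat_lit 0xc60060830020))
 (.l (nat_lit 0x4040800120))
)))) (.l (nat_lit 0x8800c30018))
) (.z (nat_lit 0) (.s (nat_lit 3) (nat_lit 0xd) (.l (nat_lit 0x60820218))
 (.s (nat_lit 3) (nat_lit 0x12) (.l (nat_lit 0x4000820220))
 (.s (nat_lit 3) (nat_lit 0x14) (.l (nat_lit 0x4000820220))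
 (.s (nat_lit 3) (nat_lit 0x15) (.l (nat_lit 0x404000800120))
 (.s (nat_lit 4) (nat_lit 0xd) (.l (nat_lit 0x4040820220))
 (.s (nat_lit 4) (nat_lit 0x12) (.l (nat_lit 0x20090040820228))
 (.s (nat_lit 4) (nat_lit 0x14) (.l (nat_lit 0x20090040820228))
 (.s (nat_lit 4) (nat_lit 0x15) (.l (nat_lit 0x20092040820228))
 (.l (nat_lit 0x282040800128))
)))))))) (.l (nat_lit 0x18060800318))
)) (.z (nat_lit 0) (.s (nat_lit 3) (nat_lit 0xe) (.l (nat_lit 0x60820218))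
 (.s (nat_lit 3) (nat_lit 0x13) (.l (nat_lit 0x4000820220))
 (.s (nat_lit 3) (nat_lit 0x15) (.l (nat_lit 0x460020800120))
 (.s (nat_lit 3) (nat_lit 0x16) (.l (nat_lit 0x4040820220))
 (.l (nat_lit 0x4040820220))
)))) (.z (nat_lit 1) (.l (nat_lit 0x18060800318))
 (.l (nat_lit 0x800000118))
))) (.s (nat_lit 2) (nat_lit 0x18) (.z (nat_lit 2) (.s (nat_lit 3) (nat_lit 0xe) (.l (nat_lit 0x60020218))
 (.s (nat_lit 3) (nat_lit 0x13) (.l (nat_lit 0x24000020220))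
 (.s (nat_lit 3) (nat_lit 0x16) (.s (nat_lit 3) (nat_lit 0x15) (.l (nat_lit 0x460000000120))
 (.z (nat_lit 0) (.s (nat_lit 4) (nat_lit 0xd) (.l (nat_lit 0x4040020220))
 (.s (nat_lit 4) (nat_lit 0x12) (.l (nat_lit 0x90040020228))
 (.s (nat_lit 4) (nat_lit 0x14) (.l (nat_lit 0x90040020228))
 (.s (nat_lit 4) (nat_lit 0x15) (.l (nat_lit 0x20092040020228))
 (.l (nat_lit 0x64003040810328))
)))) (.l (nat_lit 0x4040020220))
)) (.s (nat_lit 3) (nat_lit 0x17) (.l (nat_lit 0x60040000120))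
 (.z (nat_lit 1) (.s (nat_lit 4) (nat_lit 0xe) (.l (nat_lit 0x4040830020))
 (.s (nat_lit 4) (nat_lit 0x13) (.l (nat_lit 0x280040830028))
 (.s (nat_lit 4) (nat_lit 0x16) (.s (nat_lit 4) (nat_lit 0x15) (.l (nat_lit 0x2280000000128))
 (.l (nat_lit 0x4200000008028))
) (.s (nat_lit 4) (nat_lit 0x17) (.l (nat_lit 0x4200000008028))
 (.l (nat_lit 0x4200000008228))
)))) (.l (nat_lit 0x4000000120))
))))) (.l (nat_lit 0x60000118))
) (.z (nat_lit 1) (.s (nat_lit 3) (nat_lit 0xf) (.l (nat_lit 0x60830018))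
 (.s (nat_lit 3) (nat_lit 0x14) (.l (nat_lit 0x460060830020))
 (.s (nat_lit 3) (nat_lit 0x17) (.s (nat_lit 3) (nat_lit 0x16) (.s (nat_lit 3) (nat_lit 0x15) (.l (nat_lit 0x460040830020))
 (.l (nat_lit 0x24000020220))
) (.l (nat_lit 0x44000020220))
) (.s (nat_lit 3) (nat_lit 0x18) (.z (nat_lit 0) (.s (nat_lit 4) (nat_lit 0xe) (.l (nat_lit 0x4040830020))
 (.s (nat_lit 4) (nat_lit 0x13) (.l (nat_lit 0x100013000028028))
 (.s (nat_lit 4) (nat_lit 0x16) (.s (nat_lit 4) (nat_lit 0x15) (.l (nat_lit 0x4200000008028))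
 (.l (nat_lit 0x4200000008028))
) (.l (nat_lit 0x4200000008228))
))) (.l (nat_lit 0x63001030120))
) (.l (nat_lit 0x63001030120))
)))) (.l (nat_lit 0x60000118))
))))) (.l (nat_lit 0x830010))
))

theorem u12 : check tb r12 [27, 22, 0, 0, 0, 0, 0, 0, 0, 0, 0, 0, 0, 0, 0, 0, 0, 0]
    [28, 25, 25, 25, 25, 25, 25, 25, 25, 25, 25, 25, 25, 25, 25, 25, 25, 25] 0 8 0 = true := by decide +kernel

noncomputable def r13 : Rt :=
(.s (nat_lit 1) (nat_lit 0x1b) (.s (nat_lit 1) (nat_lit 0x1a) (.z (nat_lit 6) (.s (nat_lit 2) (nat_lit 0xf) (.l (nat_lit 0x100800010))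
 (.s (nat_lit 2) (nat_lit 0x15) (.s (nat_lit 2) (nat_lit 0x12) (.l (nat_lit 0x18060820018))
 (.s (nat_lit 2) (nat_lit 0x14) (.l (nat_lit 0x8800c20018))
 (.l (nat_lit 0x8800c30018))
)) (.s (nat_lit 2) (nat_lit 0x18) (.s (nat_lit 2) (nat_lit 0x17) (.s (nat_lit 2) (nat_lit 0x16) (.z (nat_lit 0) (.s (nat_lit 3) (nat_lit 0xd) (.l (nat_lit 0x60820218))
 (.s (nat_lit 3) (nat_lit 0x12) (.l (nat_lit 0x4000820220))
 (.s (nat_lit 3) (nat_lit 0x14) (.l (nat_lit 0x4000820220))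
 (.l (nat_lit 0x860040c30020))
))) (.l (nat_lit 0x8060830018))
) (.z (nat_lit 0) (.s (nat_lit 3) (nat_lit 0xe) (.l (nat_lit 0x60820218))
 (.s (nat_lit 3) (nat_lit 0x13) (.l (nat_lit 0x4000820220))
 (.s (nat_lit 3) (nat_lit 0x15) (.l (nat_lit 0x4040820220))
 (.l (nat_lit 0x4040820220))
))) (.l (nat_lit 0x800000118))
)) (.z (nat_lit 2) (.s (nat_lit 3) (nat_lit 0xe) (.l (nat_lit 0x60020218))
 (.s (nat_lit 3) (nat_lit 0x13) (.l (nat_lit 0x24000020220))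
 (.s (nat_lit 3) (nat_lit 0x16) (.s (nat_lit 3) (nat_lit 0x15) (.l (nat_lit 0x460060830020))
 (.l (nat_lit 0x44000020220))
) (.s (nat_lit 3) (nat_lit 0x17) (.l (nat_lit 0x44000020220))
 (.z (nat_lit 1) (.s (nat_lit 4) (nat_lit 0xe) (.l (nat_lit 0x4040830020))
 (.s (nat_lit 4) (nat_lit 0x13) (.l (nat_lit 0xa0013000430028))
 (.s (nat_lit 4) (nat_lit 0x16) (.s (nat_lit 4) (nat_lit 0x15) (.s (nat_lit 4) (nat_lit 0x14) (.l (nat_lit 0x20090040830028))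
 (.l (nat_lit 0xa0092000430028))
) (.l (nat_lit 0x4200000008028))
) (.s (nat_lit 4) (nat_lit 0x17) (.l (nat_lit 0x21881c0020228))
 (.l (nat_lit 0x4200000008228))
)))) (.l (nat_lit 0x424020830020))
))))) (.l (nat_lit 0x60000118))
)) (.s (nat_lit 2) (nat_lit 0x19) (.z (nat_lit 1) (.s (nat_lit 3) (nat_lit 0xf) (.l (nat_lit 0x60830018))
 (.s (nat_lit 3) (nat_lit 0x14) (.l (nat_lit 0x460060830020))
 (.s (nat_lit 3) (nat_lit 0x17) (.l (nat_lit 0x44000020220))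
 (.s (nat_lit 3) (nat_lit 0x18) (.z (nat_lit 0) (.s (nat_lit 4) (nat_lit 0xe) (.l (nat_lit 0x4040830020))
 (.s (nat_lit 4) (nat_lit 0x13) (.l (nat_lit 0x60013000830028))
 (.s (nat_lit 4) (nat_lit 0x16) (.s (nat_lit 4) (nat_lit 0x15) (.l (nat_lit 0x24202000008028))
 (.l (nat_lit 0x21881c0020228))
) (.l (nat_lit 0x4200000008228))
))) (.l (nat_lit 0x4000000120))
) (.z (nat_lit 0) (.s (nat_lit 4) (nat_lit 0xf) (.l (nat_lit 0x4040830020))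
 (.s (nat_lit 4) (nat_lit 0x14) (.l (nat_lit 0x180013000420028))
 (.s (nat_lit 4) (nat_lit 0x17) (.l (nat_lit 0x292001030128))
 (.l (nat_lit 0x290001030128))
))) (.l (nat_lit 0x4000000120))
))))) (.l (nat_lit 0x60000118))
) (.z (nat_lit 2) (.s (nat_lit 3) (nat_lit 0xf) (.l (nat_lit 0x60000118))
 (.s (nat_lit 3) (nat_lit 0x15) (.s (nat_lit 3) (nat_lit 0x12) (.l (nat_lit 0x4000000120))
 (.l (nat_lit 0x4040000120))
) (.s (nat_lit 3) (nat_lit 0x18) (.s (nat_lit 3) (nat_lit 0x17) (.s (nat_lit 3) (nat_lit 0x16) (.l (nat_lit 0x4040000120))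
 (.l (nat_lit 0x4040000120))
) (.z (nat_lit 0) (.s (nat_lit 4) (nat_lit 0xe) (.l (nat_lit 0x4040830020))
 (.s (nat_lit 4) (nat_lit 0x13) (.l (nat_lit 0x20013040830028))
 (.s (nat_lit 4) (nat_lit 0x16) (.l (nat_lit 0x4200000008028))
 (.s (nat_lit 4) (nat_lit 0x17) (.l (nat_lit 0x282040810328))
 (.l (nat_lit 0x20280040810328))
)))) (.l (nat_lit 0x4000000120))
)) (.s (nat_lit 3) (nat_lit 0x19) (.z (nat_lit 0) (.s (nat_lit 4) (nat_lit 0xf) (.l (nat_lit 0x4040830020))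
 (.s (nat_lit 4) (nat_lit 0x14) (.l (nat_lit 0x60013000830028))
 (.s (nat_lit 4) (nat_lit 0x17) (.s (nat_lit 4) (nat_lit 0x16) (.l (nat_lit 0x20282040810328))
 (.l (nat_lit 0x20280040810328))
) (.l (nat_lit 0x3180082800128))
))) (.l (nat_lit 0x4000000120))
) (.l (nat_lit 0x4040810320))
)))) (.l (nat_lit 0x60810318))
))))) (.l (nat_lit 0x8000110))
) (.z (nat_lit 6) (.s (nat_lit 2) (nat_lit 0x10) (.l (nat_lit 0x100400010))
 (.s (nat_lit 2) (nat_lit 0x16) (.s (nat_lit 2) (nat_lit 0x13) (.l (nat_lit 0x18800c20018))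
 (.s (nat_lit 2) (nat_lit 0x15) (.l (nat_lit 0x8800c30018))
 (.z (nat_lit 0) (.s (nat_lit 3) (nat_lit 0xd) (.l (nat_lit 0x60820218))
 (.s (nat_lit 3) (nat_lit 0x12) (.l (nat_lit 0x4000820220))
 (.s (nat_lit 3) (nat_lit 0x14) (.l (nat_lit 0x4000820220))
 (.l (nat_lit 0x4040820220))
))) (.l (nat_lit 0x8060830018))
))) (.s (nat_lit 2) (nat_lit 0x19) (.s (nat_lit 2) (nat_lit 0x18) (.s (nat_lit 2) (nat_lit 0x17) (.l (nat_lit 0x800000118))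
 (.z (nat_lit 1) (.s (nat_lit 3) (nat_lit 0xe) (.l (nat_lit 0x60020218))
 (.s (nat_lit 3) (nat_lit 0x13) (.l (nat_lit 0x4000020220))
 (.s (nat_lit 3) (nat_lit 0x16) (.s (nat_lit 3) (nat_lit 0x15) (.l (nat_lit 0x44000020220))
 (.l (nat_lit 0x44000020220))
) (.s (nat_lit 3) (nat_lit 0x17) (.l (nat_lit 0x44000020220))
 (.z (nat_lit 0) (.s (nat_lit 4) (nat_lit 0xe) (.l (nat_lit 0x4040830020))
 (.s (nat_lit 4) (nat_lit 0x13) (.l (nat_lit 0x20013040830028))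
 (.s (nat_lit 4) (nat_lit 0x16) (.s (nat_lit 4) (nat_lit 0x15) (.l (nat_lit 0xa0092000430028))
 (.l (nat_lit 0xa0092000430028))
) (.s (nat_lit 4) (nat_lit 0x17) (.l (nat_lit 0x21881a0020228))
 (.l (nat_lit 0x4200000008228))
)))) (.l (nat_lit 0x4000000120))
))))) (.l (nat_lit 0x60000118))
)) (.z (nat_lit 1) (.s (nat_lit 3) (nat_lit 0xf) (.l (nat_lit 0x60830018))
 (.s (nat_lit 3) (nat_lit 0x14) (.l (nat_lit 0x460040830020))
 (.s (nat_lit 3) (nat_lit 0x17) (.l (nat_lit 0x44000020220))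
 (.s (nat_lit 3) (nat_lit 0x18) (.l (nat_lit 0xc60020010320))
 (.l (nat_lit 0x4000000120))
)))) (.l (nat_lit 0x8060030018))
)) (.s (nat_lit 2) (nat_lit 0x1a) (.z (nat_lit 1) (.s (nat_lit 3) (nat_lit 0xf) (.l (nat_lit 0x60000118))
 (.s (nat_lit 3) (nat_lit 0x15) (.l (nat_lit 0x60040000120))
 (.s (nat_lit 3) (nat_lit 0x18) (.s (nat_lit 3) (nat_lit 0x17) (.l (nat_lit 0x4040000120))
 (.l (nat_lit 0x404000810320))
) (.s (nat_lit 3) (nat_lit 0x19) (.l (nat_lit 0x4000000120))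
 (.l (nat_lit 0x4040810320))
)))) (.l (nat_lit 0x60810318))
) (.z (nat_lit 2) (.s (nat_lit 3) (nat_lit 0x10) (.l (nat_lit 0x60830018))
 (.s (nat_lit 3) (nat_lit 0x16) (.s (nat_lit 3) (nat_lit 0x13) (.l (nat_lit 0x4000830020))
 (.l (nat_lit 0x404040810320))
) (.s (nat_lit 3) (nat_lit 0x19) (.s (nat_lit 3) (nat_lit 0x18) (.s (nat_lit 3) (nat_lit 0x17) (.l (nat_lit 0x4000000120))
 (.l (nat_lit 0x4000000120))
) (.l (nat_lit 0x4040830020))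
) (.s (nat_lit 3) (nat_lit 0x1a) (.l (nat_lit 0x4000000120))
 (.l (nat_lit 0x460000810320))
)))) (.l (nat_lit 0x800000118))
))))) (.l (nat_lit 0x8030010))
)) (.z (nat_lit 4) (.s (nat_lit 2) (nat_lit 0x10) (.l (nat_lit 0x100400010))
 (.s (nat_lit 2) (nat_lit 0x16) (.s (nat_lit 2) (nat_lit 0x13) (.l (nat_lit 0x8800c20018))
 (.s (nat_lit 2) (nat_lit 0x15) (.l (nat_lit 0x8800c30018))
 (.l (nat_lit 0x8060830018))
)) (.s (nat_lit 2) (nat_lit 0x19) (.s (nat_lit 2) (nat_lit 0x18) (.s (nat_lit 2) (nat_lit 0x17) (.l (nat_lit 0x800000118))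
 (.z (nat_lit 1) (.s (nat_lit 3) (nat_lit 0xe) (.l (nat_lit 0x60020218))
 (.s (nat_lit 3) (nat_lit 0x13) (.l (nat_lit 0x44000020220))
 (.s (nat_lit 3) (nat_lit 0x16) (.l (nat_lit 0x44000020220))
 (.s (nat_lit 3) (nat_lit 0x17) (.l (nat_lit 0x44000020220))
 (.l (nat_lit 0xc60020010320))
)))) (.l (nat_lit 0x8060030018))
)) (.z (nat_lit 0) (.s (nat_lit 3) (nat_lit 0xf) (.l (nat_lit 0x60830018))
 (.s (nat_lit 3) (nat_lit 0x14) (.l (nat_lit 0x44000020220))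
 (.s (nat_lit 3) (nat_lit 0x17) (.s (nat_lit 3) (nat_lit 0x16) (.l (nat_lit 0x404040830020))
 (.l (nat_lit 0x4040000120))
) (.s (nat_lit 3) (nat_lit 0x18) (.l (nat_lit 0x4000000120))
 (.l (nat_lit 0x4000000120))
)))) (.l (nat_lit 0x60000118))
)) (.s (nat_lit 2) (nat_lit 0x1b) (.s (nat_lit 2) (nat_lit 0x1a) (.z (nat_lit 0) (.s (nat_lit 3) (nat_lit 0xf) (.l (nat_lit 0x60000118))
 (.s (nat_lit 3) (nat_lit 0x15) (.l (nat_lit 0x60040000120))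
 (.s (nat_lit 3) (nat_lit 0x18) (.s (nat_lit 3) (nat_lit 0x17) (.l (nat_lit 0x4040000120))
 (.l (nat_lit 0x4000000120))
) (.l (nat_lit 0x4040810320))
))) (.l (nat_lit 0x8060010318))
) (.z (nat_lit 0) (.s (nat_lit 3) (nat_lit 0x10) (.l (nat_lit 0x60830018))
 (.s (nat_lit 3) (nat_lit 0x16) (.s (nat_lit 3) (nat_lit 0x13) (.l (nat_lit 0x4000830020))
 (.l (nat_lit 0x424000830020))
) (.s (nat_lit 3) (nat_lit 0x19) (.l (nat_lit 0x460020810320))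
 (.l (nat_lit 0x460000810320))
))) (.l (nat_lit 0x800000118))
)) (.z (nat_lit 0) (.s (nat_lit 3) (nat_lit 0x10) (.l (nat_lit 0x60000118))
 (.s (nat_lit 3) (nat_lit 0x16) (.s (nat_lit 3) (nat_lit 0x13) (.l (nat_lit 0x4000000120))
 (.l (nat_lit 0x4040000120))
) (.s (nat_lit 3) (nat_lit 0x19) (.l (nat_lit 0x4000000120))
 (.l (nat_lit 0x4040810320))
))) (.l (nat_lit 0x800000118))
))))) (.l (nat_lit 0x8000110))
))

theorem u13 : check tb r13 [27, 25, 0, 0, 0, 0, 0, 0, 0, 0, 0, 0, 0, 0, 0, 0, 0, 0]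
    [28, 28, 28, 28, 28, 28, 28, 28, 28, 28, 28, 28, 28, 28, 28, 28, 28, 28] 0 8 0 = true := by decide +kernel

noncomputable def r14 : Rt :=
(.l (nat_lit 0x8008))


theorem u14 : check tb r14 [27, 0, 0, 0, 0, 0, 0, 0, 0, 0, 0, 0, 0, 0, 0, 0, 0, 0]
    [28, 28, 28, 28, 28, 28, 28, 28, 28, 28, 28, 28, 28, 28, 28, 28, 28, 28] 9 97 0 = true := by decide +kernel

noncomputable def r15 : Rt :=
(.l (nat_lit 8))


theorem u15 : check tb r15 [28, 0, 0, 0, 0, 0, 0, 0, 0, 0, 0, 0, 0, 0, 0, 0, 0, 0]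
    [29, 17, 17, 17, 17, 17, 17, 17, 17, 17, 17, 17, 17, 17, 17, 17, 17, 17] 0 6 0 = true := by decide +kernel

noncomputable def r16 : Rt :=
(.s (nat_lit 1) (nat_lit 0x14) (.s (nat_lit 1) (nat_lit 0x13) (.l (nat_lit 0x100800110))
 (.z (nat_lit 0) (.s (nat_lit 2) (nat_lit 0xc) (.l (nat_lit 0x108000010))
 (.s (nat_lit 2) (nat_lit 0x10) (.l (nat_lit 0x18060020018))
 (.s (nat_lit 2) (nat_lit 0x12) (.l (nat_lit 0x18800420018))
 (.l (nat_lit 0x10800820218))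
))) (.l (nat_lit 0x100830010))
)) (.s (nat_lit 1) (nat_lit 0x16) (.s (nat_lit 1) (nat_lit 0x15) (.z (nat_lit 0) (.s (nat_lit 2) (nat_lit 0xd) (.l (nat_lit 0x108000010))
 (.s (nat_lit 2) (nat_lit 0x11) (.l (nat_lit 0x8800020018))
 (.s (nat_lit 2) (nat_lit 0x13) (.l (nat_lit 0x18060000118))
 (.s (nat_lit 2) (nat_lit 0x14) (.l (nat_lit 0x8060010118))
 (.l (nat_lit 0x800830218))
)))) (.l (nat_lit 0x8030210))
) (.z (nat_lit 2) (.s (nat_lit 2) (nat_lit 0xd) (.l (nat_lit 0x108000010))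
 (.s (nat_lit 2) (nat_lit 0x12) (.l (nat_lit 0x18060800118))
 (.s (nat_lit 2) (nat_lit 0x14) (.l (nat_lit 0x60810118))
 (.s (nat_lit 2) (nat_lit 0x15) (.l (nat_lit 0x800810118))
 (.z (nat_lit 1) (.s (nat_lit 3) (nat_lit 0xd) (.l (nat_lit 0x60830218))
 (.s (nat_lit 3) (nat_lit 0x12) (.l (nat_lit 0x404000830220))
 (.s (nat_lit 3) (nat_lit 0x14) (.l (nat_lit 0x404000830220))
 (.s (nat_lit 3) (nat_lit 0x15) (.l (nat_lit 0x60040810120))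
 (.z (nat_lit 0) (.s (nat_lit 4) (nat_lit 0xd) (.l (nat_lit 0x4040830220))
 (.s (nat_lit 4) (nat_lit 0x12) (.l (nat_lit 0x280040830228))
 (.s (nat_lit 4) (nat_lit 0x14) (.l (nat_lit 0x20090040830228))
 (.s (nat_lit 4) (nat_lit 0x15) (.l (nat_lit 0x282040810128))
 (.l (nat_lit 0x282040810128))
)))) (.l (nat_lit 0x4040830220))
))))) (.l (nat_lit 0x18060830018))
))))) (.l (nat_lit 0x100820010))
)) (.z (nat_lit 1) (.s (nat_lit 2) (nat_lit 0xe) (.l (nat_lit 0x108000010))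
 (.s (nat_lit 2) (nat_lit 0x13) (.l (nat_lit 0x8060010118))
 (.s (nat_lit 2) (nat_lit 0x15) (.l (nat_lit 0x800810118))
 (.s (nat_lit 2) (nat_lit 0x16) (.z (nat_lit 0) (.s (nat_lit 3) (nat_lit 0xd) (.l (nat_lit 0x60830218))
 (.s (nat_lit 3) (nat_lit 0x12) (.l (nat_lit 0x4000830220))
 (.s (nat_lit 3) (nat_lit 0x14) (.l (nat_lit 0x404000830220))
 (.s (nat_lit 3) (nat_lit 0x15) (.l (nat_lit 0x4040830220))
 (.s (nat_lit 4) (nat_lit 0xd) (.l (nat_lit 0x4040830220))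
 (.s (nat_lit 4) (nat_lit 0x12) (.l (nat_lit 0x280040830228))
 (.s (nat_lit 4) (nat_lit 0x14) (.l (nat_lit 0x20090040830228))
 (.s (nat_lit 4) (nat_lit 0x15) (.l (nat_lit 0x20280040810128))
 (.l (nat_lit 0x282040810128))
)))))))) (.l (nat_lit 0x18060810318))
) (.z (nat_lit 0) (.s (nat_lit 3) (nat_lit 0xe) (.l (nat_lit 0x60830218))
 (.s (nat_lit 3) (nat_lit 0x13) (.l (nat_lit 0x404000830220))
 (.s (nat_lit 3) (nat_lit 0x15) (.l (nat_lit 0x4040810120))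
 (.s (nat_lit 3) (nat_lit 0x16) (.l (nat_lit 0x4040830220))
 (.l (nat_lit 0x4040830220))
)))) (.l (nat_lit 0x18060810318))
))))) (.z (nat_lit 2) (.l (nat_lit 0x100810310))
 (.l (nat_lit 0x830210))
))))

theorem u16 : check tb r16 [28, 17, 0, 0, 0, 0, 0, 0, 0, 0, 0, 0, 0, 0, 0, 0, 0, 0]
    [29, 23, 23, 23, 23, 23, 23, 23, 23, 23, 23, 23, 23, 23, 23, 23, 23, 23] 0 6 0 = true := by decide +kernel

noncomputable def r17 : Rt :=
(.s (nat_lit 1) (nat_lit 0x19) (.s (nat_lit 1) (nat_lit 0x18) (.z (nat_lit 2) (.s (nat_lit 2) (nat_lit 0xe) (.l (nat_lit 0x108000010))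
 (.s (nat_lit 2) (nat_lit 0x13) (.l (nat_lit 0x8060010118))
 (.s (nat_lit 2) (nat_lit 0x16) (.s (nat_lit 2) (nat_lit 0x15) (.l (nat_lit 0x800810118))
 (.z (nat_lit 0) (.s (nat_lit 3) (nat_lit 0xd) (.l (nat_lit 0x60830218))
 (.s (nat_lit 3) (nat_lit 0x12) (.l (nat_lit 0x4000830220))
 (.s (nat_lit 3) (nat_lit 0x14) (.l (nat_lit 0x4000830220))
 (.s (nat_lit 3) (nat_lit 0x15) (.l (nat_lit 0x4040830220))
 (.l (nat_lit 0x4040830220))
)))) (.l (nat_lit 0x8060010118))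
)) (.s (nat_lit 2) (nat_lit 0x17) (.z (nat_lit 0) (.s (nat_lit 3) (nat_lit 0xe) (.l (nat_lit 0x60830218))
 (.s (nat_lit 3) (nat_lit 0x13) (.l (nat_lit 0x4000830220))
 (.s (nat_lit 3) (nat_lit 0x15) (.l (nat_lit 0x4040830220))
 (.l (nat_lit 0x4040830220))
))) (.l (nat_lit 0x60810118))
) (.z (nat_lit 0) (.s (nat_lit 3) (nat_lit 0xe) (.l (nat_lit 0x60830218))
 (.s (nat_lit 3) (nat_lit 0x13) (.l (nat_lit 0x4000830220))
 (.s (nat_lit 3) (nat_lit 0x16) (.s (nat_lit 3) (nat_lit 0x15) (.l (nat_lit 0x404000830220))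
 (.l (nat_lit 0x404000830220))
) (.l (nat_lit 0x4040830220))
))) (.l (nat_lit 0x60810118))
))))) (.l (nat_lit 0x810110))
) (.z (nat_lit 3) (.s (nat_lit 2) (nat_lit 0xf) (.l (nat_lit 0x108000010))
 (.s (nat_lit 2) (nat_lit 0x14) (.s (nat_lit 2) (nat_lit 0x12) (.l (nat_lit 0x18060820018))
 (.l (nat_lit 0x18800c20018))
) (.s (nat_lit 2) (nat_lit 0x17) (.s (nat_lit 2) (nat_lit 0x16) (.s (nat_lit 2) (nat_lit 0x15) (.z (nat_lit 0) (.s (nat_lit 3) (nat_lit 0xd) (.l (nat_lit 0x60830018))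
 (.s (nat_lit 3) (nat_lit 0x11) (.l (nat_lit 0xc04000830020))
 (.s (nat_lit 3) (nat_lit 0x13) (.l (nat_lit 0x4000820220))
 (.s (nat_lit 3) (nat_lit 0x14) (.l (nat_lit 0x404000820220))
 (.s (nat_lit 4) (nat_lit 0xd) (.l (nat_lit 0x4040830020))
 (.s (nat_lit 4) (nat_lit 0x11) (.l (nat_lit 0x80280040830028))
 (.s (nat_lit 4) (nat_lit 0x13) (.l (nat_lit 0xc0280040830028))
 (.s (nat_lit 4) (nat_lit 0x14) (.l (nat_lit 0xc0280040830028))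
 (.l (nat_lit 0x1e4003040800328))
)))))))) (.l (nat_lit 0x8800c30018))
) (.z (nat_lit 0) (.s (nat_lit 3) (nat_lit 0xd) (.l (nat_lit 0x60820218))
 (.s (nat_lit 3) (nat_lit 0x12) (.l (nat_lit 0x404000820220))
 (.s (nat_lit 3) (nat_lit 0x14) (.l (nat_lit 0x404000820220))
 (.s (nat_lit 3) (nat_lit 0x15) (.s (nat_lit 4) (nat_lit 0xd) (.l (nat_lit 0x4040820220))
 (.s (nat_lit 4) (nat_lit 0x11) (.l (nat_lit 0x90040820228))
 (.s (nat_lit 4) (nat_lit 0x13) (.l (nat_lit 0x90040820228))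
 (.s (nat_lit 4) (nat_lit 0x14) (.l (nat_lit 0x20090040820228))
 (.s (nat_lit 5) (nat_lit 0xd) (.l (nat_lit 0x2280060830028))
 (.s (nat_lit 5) (nat_lit 0x11) (.l (nat_lit 0x4a00060830030))
 (.s (nat_lit 5) (nat_lit 0x13) (.l (nat_lit 0x4004a00060830030))
 (.s (nat_lit 5) (nat_lit 0x14) (.l (nat_lit 0x4004a00060830030))
 (.l (nat_lit 0x210000082830030))
)))))))) (.s (nat_lit 4) (nat_lit 0xd) (.l (nat_lit 0x4040820220))
 (.s (nat_lit 4) (nat_lit 0x12) (.l (nat_lit 0x20090040820228))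
 (.s (nat_lit 4) (nat_lit 0x14) (.l (nat_lit 0x20090040820228))
 (.s (nat_lit 4) (nat_lit 0x15) (.l (nat_lit 0x282040800128))
 (.l (nat_lit 0x3280040c30028))
)))))))) (.l (nat_lit 0x8800c30018))
)) (.z (nat_lit 0) (.s (nat_lit 3) (nat_lit 0xe) (.l (nat_lit 0x60820218))
 (.s (nat_lit 3) (nat_lit 0x13) (.l (nat_lit 0x404000820220))
 (.s (nat_lit 3) (nat_lit 0x15) (.s (nat_lit 3) (nat_lit 0x14) (.l (nat_lit 0x4000820220))
 (.l (nat_lit 0x4040820220))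
) (.s (nat_lit 3) (nat_lit 0x16) (.s (nat_lit 4) (nat_lit 0xd) (.l (nat_lit 0x4040820220))
 (.s (nat_lit 4) (nat_lit 0x12) (.l (nat_lit 0x90040820228))
 (.s (nat_lit 4) (nat_lit 0x14) (.l (nat_lit 0x20090040820228))
 (.s (nat_lit 4) (nat_lit 0x15) (.l (nat_lit 0x20011040820228))
 (.l (nat_lit 0x282040800128))
)))) (.l (nat_lit 0x4040820220))
)))) (.l (nat_lit 0x18060800318))
)) (.s (nat_lit 2) (nat_lit 0x18) (.z (nat_lit 1) (.s (nat_lit 3) (nat_lit 0xe) (.l (nat_lit 0x60820218))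
 (.s (nat_lit 3) (nat_lit 0x13) (.l (nat_lit 0x4000820220))
 (.s (nat_lit 3) (nat_lit 0x16) (.s (nat_lit 3) (nat_lit 0x15) (.l (nat_lit 0x4040800120))
 (.l (nat_lit 0x4040820220))
) (.l (nat_lit 0x4040800120))
))) (.l (nat_lit 0x800000118))
) (.z (nat_lit 2) (.s (nat_lit 3) (nat_lit 0xf) (.l (nat_lit 0x60830018))
 (.s (nat_lit 3) (nat_lit 0x14) (.l (nat_lit 0x460020000120))
 (.s (nat_lit 3) (nat_lit 0x17) (.s (nat_lit 3) (nat_lit 0x16) (.s (nat_lit 3) (nat_lit 0x15) (.l (nat_lit 0x460000000120))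
 (.z (nat_lit 0) (.s (nat_lit 4) (nat_lit 0xd) (.l (nat_lit 0x44000020220))
 (.s (nat_lit 4) (nat_lit 0x12) (.l (nat_lit 0x90000020228))
 (.s (nat_lit 4) (nat_lit 0x14) (.l (nat_lit 0x90000020228))
 (.s (nat_lit 4) (nat_lit 0x15) (.l (nat_lit 0x11000020228))
 (.s (nat_lit 5) (nat_lit 0xd) (.l (nat_lit 0x3280040000128))
 (.s (nat_lit 5) (nat_lit 0x12) (.l (nat_lit 0xa00040000130))
 (.s (nat_lit 5) (nat_lit 0x14) (.l (nat_lit 0xa00040000130))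
 (.l (nat_lit 0x80212000020230))
))))))) (.l (nat_lit 0x404040830020))
)) (.l (nat_lit 0x44000020220))
) (.s (nat_lit 3) (nat_lit 0x18) (.l (nat_lit 0x44000020220))
 (.z (nat_lit 0) (.s (nat_lit 4) (nat_lit 0xf) (.l (nat_lit 0x4040830020))
 (.s (nat_lit 4) (nat_lit 0x14) (.l (nat_lit 0x100013000028028))
 (.l (nat_lit 0x4200000008228))
)) (.l (nat_lit 0x4000000120))
))))) (.l (nat_lit 0x60000118))
))))) (.l (nat_lit 0x830010))
)) (.s (nat_lit 2) (nat_lit 0xf) (.l (nat_lit 0x100800010))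
 (.s (nat_lit 2) (nat_lit 0x15) (.s (nat_lit 2) (nat_lit 0x12) (.l (nat_lit 0x18800c20018))
 (.s (nat_lit 2) (nat_lit 0x14) (.l (nat_lit 0x8800c30018))
 (.l (nat_lit 0x8060810318))
)) (.s (nat_lit 2) (nat_lit 0x18) (.s (nat_lit 2) (nat_lit 0x17) (.s (nat_lit 2) (nat_lit 0x16) (.z (nat_lit 0) (.s (nat_lit 3) (nat_lit 0xd) (.l (nat_lit 0x60820218))
 (.s (nat_lit 3) (nat_lit 0x12) (.l (nat_lit 0x4000820220))
 (.s (nat_lit 3) (nat_lit 0x14) (.l (nat_lit 0x24000820220))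
 (.s (nat_lit 3) (nat_lit 0x15) (.l (nat_lit 0x4040800120))
 (.s (nat_lit 4) (nat_lit 0xd) (.l (nat_lit 0x4040820220))
 (.s (nat_lit 4) (nat_lit 0x12) (.l (nat_lit 0x90040820228))
 (.s (nat_lit 4) (nat_lit 0x14) (.l (nat_lit 0x20090040820228))
 (.l (nat_lit 0xe4003040810328))
))))))) (.l (nat_lit 0x8800000118))
) (.z (nat_lit 0) (.s (nat_lit 3) (nat_lit 0xe) (.l (nat_lit 0x60820218))
 (.s (nat_lit 3) (nat_lit 0x13) (.l (nat_lit 0x24000820220))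
 (.s (nat_lit 3) (nat_lit 0x15) (.s (nat_lit 3) (nat_lit 0x14) (.l (nat_lit 0x24000820220))
 (.l (nat_lit 0x4040820220))
) (.s (nat_lit 3) (nat_lit 0x16) (.l (nat_lit 0x4040820220))
 (.l (nat_lit 0x4040820220))
)))) (.l (nat_lit 0x8800000118))
)) (.z (nat_lit 0) (.s (nat_lit 3) (nat_lit 0xe) (.l (nat_lit 0x60820218))
 (.s (nat_lit 3) (nat_lit 0x13) (.l (nat_lit 0x24000820220))
 (.s (nat_lit 3) (nat_lit 0x16) (.s (nat_lit 3) (nat_lit 0x15) (.l (nat_lit 0x460020800120))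
 (.l (nat_lit 0x24000820220))
) (.l (nat_lit 0x4040800120))
))) (.l (nat_lit 0x800800118))
)) (.s (nat_lit 2) (nat_lit 0x19) (.z (nat_lit 2) (.s (nat_lit 3) (nat_lit 0xf) (.l (nat_lit 0x60830018))
 (.s (nat_lit 3) (nat_lit 0x14) (.l (nat_lit 0x460060830020))
 (.s (nat_lit 3) (nat_lit 0x17) (.s (nat_lit 3) (nat_lit 0x16) (.s (nat_lit 3) (nat_lit 0x15) (.l (nat_lit 0x44000020220))
 (.l (nat_lit 0x44000020220))
) (.l (nat_lit 0x44000020220))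
) (.s (nat_lit 3) (nat_lit 0x18) (.l (nat_lit 0x4040000120))
 (.z (nat_lit 0) (.s (nat_lit 4) (nat_lit 0xf) (.l (nat_lit 0x4040830020))
 (.s (nat_lit 4) (nat_lit 0x14) (.s (nat_lit 4) (nat_lit 0x12) (.l (nat_lit 0x20090040830028))
 (.l (nat_lit 0x20011040830028))
) (.s (nat_lit 4) (nat_lit 0x17) (.s (nat_lit 4) (nat_lit 0x16) (.l (nat_lit 0xc0282000010328))
 (.l (nat_lit 0x21281040810328))
) (.l (nat_lit 0x3180082800128))
))) (.l (nat_lit 0x4000000120))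
))))) (.l (nat_lit 0x60830018))
) (.z (nat_lit 3) (.s (nat_lit 3) (nat_lit 0xf) (.l (nat_lit 0x60000118))
 (.s (nat_lit 3) (nat_lit 0x15) (.s (nat_lit 3) (nat_lit 0x12) (.l (nat_lit 0x4000000120))
 (.s (nat_lit 3) (nat_lit 0x14) (.l (nat_lit 0x4000000120))
 (.l (nat_lit 0x4040000120))
)) (.s (nat_lit 3) (nat_lit 0x18) (.s (nat_lit 3) (nat_lit 0x17) (.s (nat_lit 3) (nat_lit 0x16) (.l (nat_lit 0x60040000120))
 (.l (nat_lit 0x404040810320))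
) (.l (nat_lit 0x4040000120))
) (.s (nat_lit 3) (nat_lit 0x19) (.z (nat_lit 0) (.s (nat_lit 4) (nat_lit 0xf) (.l (nat_lit 0x4040830020))
 (.s (nat_lit 4) (nat_lit 0x14) (.s (nat_lit 4) (nat_lit 0x12) (.l (nat_lit 0x90040830028))
 (.l (nat_lit 0x20090040830028))
) (.s (nat_lit 4) (nat_lit 0x17) (.s (nat_lit 4) (nat_lit 0x16) (.s (nat_lit 4) (nat_lit 0x15) (.l (nat_lit 0x20280040810328))
 (.l (nat_lit 0x20092040830028))
) (.l (nat_lit 0x21280040810328))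
) (.l (nat_lit 0x2280020810328))
))) (.l (nat_lit 0x4000000120))
) (.z (nat_lit 0) (.s (nat_lit 4) (nat_lit 0xf) (.l (nat_lit 0x4040830020))
 (.s (nat_lit 4) (nat_lit 0x15) (.s (nat_lit 4) (nat_lit 0x12) (.l (nat_lit 0x90040830028))
 (.l (nat_lit 0x21281040810328))
) (.s (nat_lit 4) (nat_lit 0x18) (.s (nat_lit 4) (nat_lit 0x17) (.l (nat_lit 0x21280040810328))
 (.l (nat_lit 0x21280040810328))
) (.s (nat_lit 4) (nat_lit 0x19) (.l (nat_lit 0x21281040810328))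
 (.l (nat_lit 0x1281040810328))
)))) (.l (nat_lit 0x4000000120))
))))) (.z (nat_lit 4) (.l (nat_lit 0x10800800318))
 (.l (nat_lit 0x60810318))
)))))))

theorem u17 : check tb r17 [28, 23, 0, 0, 0, 0, 0, 0, 0, 0, 0, 0, 0, 0, 0, 0, 0, 0]
    [29, 26, 26, 26, 26, 26, 26, 26, 26, 26, 26, 26, 26, 26, 26, 26, 26, 26] 0 6 0 = true := by decide +kernel

noncomputable def r18 : Rt :=
(.s (nat_lit 1) (nat_lit 0x1c) (.s (nat_lit 1) (nat_lit 0x1b) (.s (nat_lit 2) (nat_lit 0x10) (.l (nat_lit 0x100400010))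
 (.s (nat_lit 2) (nat_lit 0x16) (.s (nat_lit 2) (nat_lit 0x13) (.l (nat_lit 0x18800c20018))
 (.s (nat_lit 2) (nat_lit 0x15) (.l (nat_lit 0x8060810318))
 (.z (nat_lit 0) (.s (nat_lit 3) (nat_lit 0xd) (.l (nat_lit 0x60820218))
 (.s (nat_lit 3) (nat_lit 0x12) (.l (nat_lit 0x24000820220))
 (.s (nat_lit 3) (nat_lit 0x14) (.l (nat_lit 0x24000820220))
 (.s (nat_lit 3) (nat_lit 0x15) (.l (nat_lit 0x24020820220))
 (.l (nat_lit 0x4040820220))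
)))) (.l (nat_lit 0x18060820018))
))) (.s (nat_lit 2) (nat_lit 0x19) (.s (nat_lit 2) (nat_lit 0x18) (.s (nat_lit 2) (nat_lit 0x17) (.l (nat_lit 0x8800020218))
 (.l (nat_lit 0x800800118))
) (.z (nat_lit 1) (.s (nat_lit 3) (nat_lit 0xf) (.l (nat_lit 0x60830018))
 (.s (nat_lit 3) (nat_lit 0x14) (.l (nat_lit 0x44000020220))
 (.s (nat_lit 3) (nat_lit 0x17) (.s (nat_lit 3) (nat_lit 0x16) (.l (nat_lit 0x44000020220))
 (.l (nat_lit 0x4040000120))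
) (.s (nat_lit 3) (nat_lit 0x18) (.l (nat_lit 0x4040000120))
 (.z (nat_lit 0) (.s (nat_lit 4) (nat_lit 0xf) (.l (nat_lit 0x4040830020))
 (.s (nat_lit 4) (nat_lit 0x14) (.l (nat_lit 0x80011000430028))
 (.s (nat_lit 4) (nat_lit 0x17) (.s (nat_lit 4) (nat_lit 0x16) (.l (nat_lit 0x80092000430028))
 (.l (nat_lit 0x21280040810328))
) (.l (nat_lit 0x3180082800128))
))) (.l (nat_lit 0x4040830020))
))))) (.l (nat_lit 0x60020218))
)) (.s (nat_lit 2) (nat_lit 0x1a) (.z (nat_lit 2) (.s (nat_lit 3) (nat_lit 0xf) (.l (nat_lit 0x60000118))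
 (.s (nat_lit 3) (nat_lit 0x15) (.s (nat_lit 3) (nat_lit 0x12) (.l (nat_lit 0x4000000120))
 (.l (nat_lit 0x60040000120))
) (.s (nat_lit 3) (nat_lit 0x18) (.s (nat_lit 3) (nat_lit 0x17) (.s (nat_lit 3) (nat_lit 0x16) (.l (nat_lit 0x4040000120))
 (.l (nat_lit 0x4040000120))
) (.l (nat_lit 0x4040000120))
) (.s (nat_lit 3) (nat_lit 0x19) (.l (nat_lit 0x404000810320))
 (.z (nat_lit 0) (.s (nat_lit 4) (nat_lit 0xf) (.l (nat_lit 0x4040830020))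
 (.s (nat_lit 4) (nat_lit 0x15) (.s (nat_lit 4) (nat_lit 0x12) (.l (nat_lit 0x20010040830028))
 (.l (nat_lit 0x80092000430028))
) (.s (nat_lit 4) (nat_lit 0x18) (.l (nat_lit 0x40282000810328))
 (.l (nat_lit 0x1280040810328))
))) (.l (nat_lit 0x4000000120))
))))) (.l (nat_lit 0x60810318))
) (.z (nat_lit 2) (.s (nat_lit 3) (nat_lit 0x10) (.l (nat_lit 0x60830018))
 (.s (nat_lit 3) (nat_lit 0x16) (.s (nat_lit 3) (nat_lit 0x13) (.l (nat_lit 0x404000830020))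
 (.s (nat_lit 3) (nat_lit 0x15) (.l (nat_lit 0x4040000120))
 (.l (nat_lit 0x424000830020))
)) (.s (nat_lit 3) (nat_lit 0x19) (.s (nat_lit 3) (nat_lit 0x18) (.l (nat_lit 0x4040000120))
 (.l (nat_lit 0x4000000120))
) (.s (nat_lit 3) (nat_lit 0x1a) (.l (nat_lit 0x4040810320))
 (.l (nat_lit 0x460000810320))
)))) (.l (nat_lit 0x800810318))
))))) (.z (nat_lit 5) (.s (nat_lit 2) (nat_lit 0x10) (.l (nat_lit 0x100400010))
 (.s (nat_lit 2) (nat_lit 0x16) (.s (nat_lit 2) (nat_lit 0x13) (.l (nat_lit 0x8800c20018))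
 (.s (nat_lit 2) (nat_lit 0x15) (.l (nat_lit 0x8800c30018))
 (.l (nat_lit 0x8800000118))
)) (.s (nat_lit 2) (nat_lit 0x19) (.s (nat_lit 2) (nat_lit 0x18) (.l (nat_lit 0x800800118))
 (.z (nat_lit 0) (.s (nat_lit 3) (nat_lit 0xf) (.l (nat_lit 0x60020218))
 (.s (nat_lit 3) (nat_lit 0x14) (.l (nat_lit 0x44000020220))
 (.s (nat_lit 3) (nat_lit 0x17) (.s (nat_lit 3) (nat_lit 0x16) (.l (nat_lit 0x60040000120))
 (.l (nat_lit 0x4040000120))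
) (.s (nat_lit 3) (nat_lit 0x18) (.l (nat_lit 0x4040000120))
 (.l (nat_lit 0x404000810320))
)))) (.l (nat_lit 0x60000118))
)) (.s (nat_lit 2) (nat_lit 0x1b) (.s (nat_lit 2) (nat_lit 0x1a) (.z (nat_lit 1) (.s (nat_lit 3) (nat_lit 0xf) (.l (nat_lit 0x60000118))
 (.s (nat_lit 3) (nat_lit 0x15) (.s (nat_lit 3) (nat_lit 0x12) (.l (nat_lit 0x4000000120))
 (.l (nat_lit 0x60040000120))
) (.s (nat_lit 3) (nat_lit 0x18) (.s (nat_lit 3) (nat_lit 0x17) (.l (nat_lit 0x4040000120))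
 (.l (nat_lit 0x4040000120))
) (.s (nat_lit 3) (nat_lit 0x19) (.l (nat_lit 0x4000000120))
 (.l (nat_lit 0x4040810320))
)))) (.l (nat_lit 0x60000118))
) (.z (nat_lit 1) (.s (nat_lit 3) (nat_lit 0x10) (.l (nat_lit 0x60830018))
 (.s (nat_lit 3) (nat_lit 0x16) (.s (nat_lit 3) (nat_lit 0x13) (.l (nat_lit 0x404000830020))
 (.l (nat_lit 0x404040810320))
) (.s (nat_lit 3) (nat_lit 0x19) (.s (nat_lit 3) (nat_lit 0x18) (.l (nat_lit 0x4040000120))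
 (.l (nat_lit 0x804040030020))
) (.l (nat_lit 0x60040810320))
))) (.l (nat_lit 0x800810318))
)) (.z (nat_lit 0) (.s (nat_lit 3) (nat_lit 0x10) (.l (nat_lit 0x60000118))
 (.s (nat_lit 3) (nat_lit 0x16) (.s (nat_lit 3) (nat_lit 0x13) (.l (nat_lit 0x4000000120))
 (.l (nat_lit 0x4040000120))
) (.s (nat_lit 3) (nat_lit 0x19) (.l (nat_lit 0x404000810320))
 (.l (nat_lit 0x60040810320))
))) (.l (nat_lit 0x800000118))
))))) (.l (nat_lit 0x8000110))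
)) (.z (nat_lit 4) (.s (nat_lit 2) (nat_lit 0x11) (.l (nat_lit 0x820010))
 (.s (nat_lit 2) (nat_lit 0x17) (.s (nat_lit 2) (nat_lit 0x14) (.l (nat_lit 0x8060030018))
 (.l (nat_lit 0x800820218))
) (.s (nat_lit 2) (nat_lit 0x1a) (.s (nat_lit 2) (nat_lit 0x19) (.s (nat_lit 2) (nat_lit 0x18) (.l (nat_lit 0x60800118))
 (.l (nat_lit 0x8060010318))
) (.z (nat_lit 0) (.s (nat_lit 3) (nat_lit 0xf) (.l (nat_lit 0x60000118))
 (.s (nat_lit 3) (nat_lit 0x15) (.s (nat_lit 3) (nat_lit 0x12) (.l (nat_lit 0x4000000120))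
 (.l (nat_lit 0x4040000120))
) (.s (nat_lit 3) (nat_lit 0x18) (.l (nat_lit 0x4040000120))
 (.s (nat_lit 3) (nat_lit 0x19) (.l (nat_lit 0x4000000120))
 (.l (nat_lit 0x4000000120))
)))) (.l (nat_lit 0x60000118))
)) (.s (nat_lit 2) (nat_lit 0x1c) (.s (nat_lit 2) (nat_lit 0x1b) (.z (nat_lit 0) (.s (nat_lit 3) (nat_lit 0x10) (.l (nat_lit 0x60830018))
 (.s (nat_lit 3) (nat_lit 0x16) (.s (nat_lit 3) (nat_lit 0x13) (.l (nat_lit 0x4000830020))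
 (.l (nat_lit 0x424020830020))
) (.s (nat_lit 3) (nat_lit 0x19) (.l (nat_lit 0x404000810320))
 (.l (nat_lit 0x4040810320))
))) (.l (nat_lit 0x800000118))
) (.z (nat_lit 0) (.s (nat_lit 3) (nat_lit 0x10) (.l (nat_lit 0x60000118))
 (.s (nat_lit 3) (nat_lit 0x16) (.s (nat_lit 3) (nat_lit 0x13) (.l (nat_lit 0x4000000120))
 (.l (nat_lit 0x4040000120))
) (.s (nat_lit 3) (nat_lit 0x19) (.l (nat_lit 0x4000000120))
 (.l (nat_lit 0x4040810320))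
))) (.l (nat_lit 0x800000118))
)) (.l (nat_lit 0x800000118))
)))) (.l (nat_lit 0x8000110))
))

theorem u18 : check tb r18 [28, 26, 0, 0, 0, 0, 0, 0, 0, 0, 0, 0, 0, 0, 0, 0, 0, 0]
    [29, 29, 29, 29, 29, 29, 29, 29, 29, 29, 29, 29, 29, 29, 29, 29, 29, 29] 0 6 0 = true := by decide +kernel

noncomputable def r19 : Rt :=
(.l (nat_lit 0x108))


theorem u19 : check tb r19 [28, 0, 0, 0, 0, 0, 0, 0, 0, 0, 0, 0, 0, 0, 0, 0, 0, 0]
    [29, 29, 29, 29, 29, 29, 29, 29, 29, 29, 29, 29, 29, 29, 29, 29, 29, 29] 7 97 0 = true := by decide +kernel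

noncomputable def r20 : Rt :=
(.l (nat_lit 8))


theorem u20 : check tb r20 [29, 0, 0, 0, 0, 0, 0, 0, 0, 0, 0, 0, 0, 0, 0, 0, 0, 0]
    [30, 17, 17, 17, 17, 17, 17, 17, 17, 17, 17, 17, 17, 17, 17, 17, 17, 17] 0 9 0 = true := by decide +kernel

noncomputable def r21 : Rt :=
(.s (nat_lit 1) (nat_lit 0x15) (.s (nat_lit 1) (nat_lit 0x13) (.l (nat_lit 0x100800110))
 (.s (nat_lit 1) (nat_lit 0x14) (.l (nat_lit 0x100810310))
 (.z (nat_lit 0) (.s (nat_lit 2) (nat_lit 0xd) (.l (nat_lit 0x108000010))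
 (.s (nat_lit 2) (nat_lit 0x11) (.l (nat_lit 0x8800020018))
 (.s (nat_lit 2) (nat_lit 0x13) (.l (nat_lit 0x18060000118))
 (.s (nat_lit 2) (nat_lit 0x14) (.l (nat_lit 0x800830218))
 (.s (nat_lit 3) (nat_lit 0xd) (.l (nat_lit 0x60830218))
 (.s (nat_lit 3) (nat_lit 0x11) (.l (nat_lit 0x4000830220))
 (.s (nat_lit 3) (nat_lit 0x13) (.l (nat_lit 0x404000830220))
 (.s (nat_lit 3) (nat_lit 0x14) (.l (nat_lit 0x404000830220))
 (.l (nat_lit 0x463001030320))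
)))))))) (.l (nat_lit 0x8030210))
))) (.s (nat_lit 1) (nat_lit 0x17) (.s (nat_lit 1) (nat_lit 0x16) (.z (nat_lit 1) (.s (nat_lit 2) (nat_lit 0xd) (.l (nat_lit 0x108000010))
 (.s (nat_lit 2) (nat_lit 0x12) (.l (nat_lit 0x10800820018))
 (.s (nat_lit 2) (nat_lit 0x14) (.l (nat_lit 0x800830218))
 (.s (nat_lit 2) (nat_lit 0x15) (.z (nat_lit 0) (.s (nat_lit 3) (nat_lit 0xd) (.l (nat_lit 0x60830018))
 (.s (nat_lit 3) (nat_lit 0x11) (.l (nat_lit 0x1c04000830020))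
 (.s (nat_lit 3) (nat_lit 0x13) (.l (nat_lit 0x1c60020830020))
 (.s (nat_lit 3) (nat_lit 0x14) (.l (nat_lit 0x404000830220))
 (.l (nat_lit 0x60040810120))
)))) (.l (nat_lit 0x18800c20018))
) (.z (nat_lit 0) (.s (nat_lit 3) (nat_lit 0xd) (.l (nat_lit 0x60830218))
 (.s (nat_lit 3) (nat_lit 0x12) (.l (nat_lit 0x404000830220))
 (.s (nat_lit 3) (nat_lit 0x14) (.l (nat_lit 0x404000830220))
 (.s (nat_lit 3) (nat_lit 0x15) (.l (nat_lit 0x4040810120))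
 (.l (nat_lit 0x63001030320))
)))) (.l (nat_lit 0x18060810318))
))))) (.l (nat_lit 0x100830010))
) (.z (nat_lit 0) (.s (nat_lit 2) (nat_lit 0xe) (.l (nat_lit 0x108000010))
 (.s (nat_lit 2) (nat_lit 0x13) (.l (nat_lit 0x8060010118))
 (.s (nat_lit 2) (nat_lit 0x15) (.s (nat_lit 2) (nat_lit 0x14) (.l (nat_lit 0x8060010118))
 (.l (nat_lit 0x800810118))
) (.s (nat_lit 2) (nat_lit 0x16) (.s (nat_lit 3) (nat_lit 0xd) (.l (nat_lit 0x60830218))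
 (.s (nat_lit 3) (nat_lit 0x12) (.l (nat_lit 0x404000830220))
 (.s (nat_lit 3) (nat_lit 0x14) (.l (nat_lit 0x404000830220))
 (.s (nat_lit 3) (nat_lit 0x15) (.l (nat_lit 0x4040810120))
 (.s (nat_lit 4) (nat_lit 0xd) (.l (nat_lit 0x4040830220))
 (.s (nat_lit 4) (nat_lit 0x12) (.l (nat_lit 0x20090040830228))
 (.s (nat_lit 4) (nat_lit 0x14) (.l (nat_lit 0x20011040830228))
 (.s (nat_lit 4) (nat_lit 0x15) (.l (nat_lit 0x20280040810128))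
 (.l (nat_lit 0x282040810128))
)))))))) (.s (nat_lit 3) (nat_lit 0xe) (.l (nat_lit 0x60830218))
 (.s (nat_lit 3) (nat_lit 0x13) (.l (nat_lit 0x404000830220))
 (.s (nat_lit 3) (nat_lit 0x15) (.l (nat_lit 0x4040810120))
 (.l (nat_lit 0x63001030320))
))))))) (.l (nat_lit 0x100810310))
)) (.z (nat_lit 1) (.s (nat_lit 2) (nat_lit 0xe) (.l (nat_lit 0x108000010))
 (.s (nat_lit 2) (nat_lit 0x13) (.l (nat_lit 0x8060010118))
 (.s (nat_lit 2) (nat_lit 0x16) (.s (nat_lit 2) (nat_lit 0x15) (.s (nat_lit 2) (nat_lit 0x14) (.l (nat_lit 0x18800c20018))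
 (.l (nat_lit 0x60810118))
) (.z (nat_lit 0) (.s (nat_lit 3) (nat_lit 0xd) (.l (nat_lit 0x60830218))
 (.s (nat_lit 3) (nat_lit 0x12) (.l (nat_lit 0x4000830220))
 (.s (nat_lit 3) (nat_lit 0x14) (.l (nat_lit 0x404000830220))
 (.s (nat_lit 3) (nat_lit 0x15) (.l (nat_lit 0x4040830220))
 (.l (nat_lit 0x4040810120))
)))) (.l (nat_lit 0x18800000118))
)) (.s (nat_lit 2) (nat_lit 0x17) (.z (nat_lit 0) (.s (nat_lit 3) (nat_lit 0xe) (.l (nat_lit 0x60830218))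
 (.s (nat_lit 3) (nat_lit 0x13) (.l (nat_lit 0x404000830220))
 (.s (nat_lit 3) (nat_lit 0x15) (.l (nat_lit 0x404000810120))
 (.s (nat_lit 3) (nat_lit 0x16) (.l (nat_lit 0x4040810120))
 (.l (nat_lit 0x4040830220))
)))) (.l (nat_lit 0x8060030218))
) (.z (nat_lit 0) (.s (nat_lit 3) (nat_lit 0xe) (.l (nat_lit 0x60830218))
 (.s (nat_lit 3) (nat_lit 0x13) (.l (nat_lit 0x4000830220))
 (.s (nat_lit 3) (nat_lit 0x16) (.s (nat_lit 3) (nat_lit 0x15) (.l (nat_lit 0x4040830220))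
 (.l (nat_lit 0x4040830220))
) (.l (nat_lit 0x4040810120))
))) (.l (nat_lit 0x60810118))
))))) (.l (nat_lit 0x810110))
)))

theorem u21 : check tb r21 [29, 17, 0, 0, 0, 0, 0, 0, 0, 0, 0, 0, 0, 0, 0, 0, 0, 0]
    [30, 24, 24, 24, 24, 24, 24, 24, 24, 24, 24, 24, 24, 24, 24, 24, 24, 24] 0 9 0 = true := by decide +kernel

noncomputable def r22 : Rt :=
(.s (nat_lit 1) (nat_lit 0x1a) (.s (nat_lit 1) (nat_lit 0x19) (.z (nat_lit 1) (.s (nat_lit 2) (nat_lit 0xf) (.l (nat_lit 0x108000010))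
 (.s (nat_lit 2) (nat_lit 0x14) (.s (nat_lit 2) (nat_lit 0x12) (.l (nat_lit 0x18800820018))
 (.l (nat_lit 0x18800c20018))
) (.s (nat_lit 2) (nat_lit 0x17) (.s (nat_lit 2) (nat_lit 0x16) (.s (nat_lit 2) (nat_lit 0x15) (.l (nat_lit 0x8060010118))
 (.z (nat_lit 0) (.s (nat_lit 3) (nat_lit 0xd) (.l (nat_lit 0x60830218))
 (.s (nat_lit 3) (nat_lit 0x12) (.l (nat_lit 0x4000830220))
 (.s (nat_lit 3) (nat_lit 0x14) (.l (nat_lit 0x4000830220))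
 (.s (nat_lit 3) (nat_lit 0x15) (.l (nat_lit 0x4040830220))
 (.l (nat_lit 0x4040830220))
)))) (.l (nat_lit 0x18060830018))
)) (.z (nat_lit 0) (.s (nat_lit 3) (nat_lit 0xe) (.l (nat_lit 0x60830218))
 (.s (nat_lit 3) (nat_lit 0x13) (.l (nat_lit 0x4000830220))
 (.s (nat_lit 3) (nat_lit 0x15) (.l (nat_lit 0x4040830220))
 (.l (nat_lit 0x4040830220))
))) (.l (nat_lit 0x8060010118))
)) (.s (nat_lit 2) (nat_lit 0x18) (.l (nat_lit 0x60810118))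
 (.l (nat_lit 0x60810118))
)))) (.l (nat_lit 0x810110))
) (.z (nat_lit 3) (.s (nat_lit 2) (nat_lit 0xf) (.l (nat_lit 0x108000010))
 (.s (nat_lit 2) (nat_lit 0x15) (.s (nat_lit 2) (nat_lit 0x12) (.l (nat_lit 0x10800820018))
 (.s (nat_lit 2) (nat_lit 0x14) (.l (nat_lit 0x8800400118))
 (.l (nat_lit 0x8800c30018))
)) (.s (nat_lit 2) (nat_lit 0x18) (.s (nat_lit 2) (nat_lit 0x17) (.s (nat_lit 2) (nat_lit 0x16) (.z (nat_lit 0) (.s (nat_lit 3) (nat_lit 0xd) (.l (nat_lit 0x60820218))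
 (.s (nat_lit 3) (nat_lit 0x12) (.l (nat_lit 0x424000820220))
 (.s (nat_lit 3) (nat_lit 0x14) (.l (nat_lit 0x24000820220))
 (.s (nat_lit 3) (nat_lit 0x15) (.l (nat_lit 0x460020800120))
 (.s (nat_lit 4) (nat_lit 0xd) (.l (nat_lit 0x24020820220))
 (.s (nat_lit 4) (nat_lit 0x12) (.l (nat_lit 0x90020820228))
 (.s (nat_lit 4) (nat_lit 0x14) (.l (nat_lit 0x11020820228))
 (.s (nat_lit 4) (nat_lit 0x15) (.l (nat_lit 0x282040800128))
 (.s (nat_lit 5) (nat_lit 0xd) (.l (nat_lit 0x282040800128))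
 (.s (nat_lit 5) (nat_lit 0x12) (.l (nat_lit 0x4a02040800130))
 (.s (nat_lit 5) (nat_lit 0x14) (.l (nat_lit 0x1004a02040800130))
 (.l (nat_lit 0x4080212020820230))
))))))))))) (.l (nat_lit 0x8800020218))
) (.z (nat_lit 0) (.s (nat_lit 3) (nat_lit 0xe) (.l (nat_lit 0x60820218))
 (.s (nat_lit 3) (nat_lit 0x13) (.l (nat_lit 0x424000820220))
 (.s (nat_lit 3) (nat_lit 0x15) (.l (nat_lit 0x460020800120))
 (.s (nat_lit 3) (nat_lit 0x16) (.s (nat_lit 4) (nat_lit 0xd) (.l (nat_lit 0x4040820220))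
 (.s (nat_lit 4) (nat_lit 0x12) (.l (nat_lit 0x90040820228))
 (.s (nat_lit 4) (nat_lit 0x14) (.l (nat_lit 0x20090040820228))
 (.s (nat_lit 4) (nat_lit 0x15) (.l (nat_lit 0x1280040800128))
 (.s (nat_lit 5) (nat_lit 0xd) (.l (nat_lit 0x1281040800128))
 (.s (nat_lit 5) (nat_lit 0x12) (.l (nat_lit 0x4a01040800130))
 (.s (nat_lit 5) (nat_lit 0x14) (.l (nat_lit 0x2004a01040800130))
 (.l (nat_lit 0x2080212040820230))
))))))) (.l (nat_lit 0x460000800120))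
)))) (.l (nat_lit 0x8800000118))
)) (.z (nat_lit 0) (.s (nat_lit 3) (nat_lit 0xe) (.l (nat_lit 0x60820218))
 (.s (nat_lit 3) (nat_lit 0x13) (.l (nat_lit 0x24000820220))
 (.s (nat_lit 3) (nat_lit 0x16) (.s (nat_lit 3) (nat_lit 0x15) (.l (nat_lit 0x4040800120))
 (.l (nat_lit 0x4040820220))
) (.l (nat_lit 0x60040800120))
))) (.l (nat_lit 0x800800118))
)) (.s (nat_lit 2) (nat_lit 0x19) (.z (nat_lit 0) (.s (nat_lit 3) (nat_lit 0xf) (.l (nat_lit 0x60820218))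
 (.s (nat_lit 3) (nat_lit 0x14) (.l (nat_lit 0x24000820220))
 (.s (nat_lit 3) (nat_lit 0x17) (.s (nat_lit 3) (nat_lit 0x16) (.l (nat_lit 0x4040820220))
 (.l (nat_lit 0x64000820220))
) (.l (nat_lit 0x64000820220))
))) (.l (nat_lit 0x800800118))
) (.z (nat_lit 2) (.s (nat_lit 3) (nat_lit 0xf) (.l (nat_lit 0x60000118))
 (.s (nat_lit 3) (nat_lit 0x15) (.s (nat_lit 3) (nat_lit 0x12) (.l (nat_lit 0x4000000120))
 (.s (nat_lit 3) (nat_lit 0x14) (.l (nat_lit 0x460040000120))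
 (.l (nat_lit 0x60040000120))
)) (.s (nat_lit 3) (nat_lit 0x18) (.s (nat_lit 3) (nat_lit 0x17) (.s (nat_lit 3) (nat_lit 0x16) (.l (nat_lit 0x1460020800320))
 (.z (nat_lit 0) (.s (nat_lit 4) (nat_lit 0xe) (.l (nat_lit 0x4040830020))
 (.s (nat_lit 4) (nat_lit 0x13) (.l (nat_lit 0x24003040810328))
 (.s (nat_lit 4) (nat_lit 0x15) (.l (nat_lit 0x60282040810328))
 (.s (nat_lit 4) (nat_lit 0x16) (.l (nat_lit 0x140282000800328))
 (.l (nat_lit 0x60282040810328))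
)))) (.l (nat_lit 0x4040000120))
)) (.z (nat_lit 0) (.s (nat_lit 4) (nat_lit 0xe) (.l (nat_lit 0x4040820020))
 (.s (nat_lit 4) (nat_lit 0x13) (.l (nat_lit 0x120013040820028))
 (.s (nat_lit 4) (nat_lit 0x16) (.s (nat_lit 4) (nat_lit 0x15) (.l (nat_lit 0x61281040810328))
 (.l (nat_lit 0x120092040820028))
) (.l (nat_lit 0x2280020810328))
))) (.l (nat_lit 0x4040000120))
)) (.s (nat_lit 3) (nat_lit 0x19) (.z (nat_lit 0) (.s (nat_lit 4) (nat_lit 0xf) (.l (nat_lit 0x4040820020))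
 (.s (nat_lit 4) (nat_lit 0x14) (.l (nat_lit 0x22881c1030128))
 (.s (nat_lit 4) (nat_lit 0x17) (.s (nat_lit 4) (nat_lit 0x16) (.l (nat_lit 0x120092040820028))
 (.l (nat_lit 0x40292041820128))
) (.l (nat_lit 0x40292041820128))
))) (.l (nat_lit 0x4040000120))
) (.z (nat_lit 0) (.s (nat_lit 4) (nat_lit 0xf) (.l (nat_lit 0x4040830020))
 (.s (nat_lit 4) (nat_lit 0x15) (.s (nat_lit 4) (nat_lit 0x12) (.l (nat_lit 0x20090040830028))
 (.l (nat_lit 0x20282040810328))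
) (.s (nat_lit 4) (nat_lit 0x18) (.l (nat_lit 0x40282000810328))
 (.s (nat_lit 4) (nat_lit 0x19) (.l (nat_lit 0x24200000028128))
 (.s (nat_lit 5) (nat_lit 0xf) (.l (nat_lit 0x282040810328))
 (.s (nat_lit 5) (nat_lit 0x15) (.l (nat_lit 0x3018a00000028130))
 (.s (nat_lit 5) (nat_lit 0x18) (.l (nat_lit 0x2018a00000028130))
 (.l (nat_lit 0x18a00000028130))
))))))) (.l (nat_lit 0x460000810320))
))))) (.l (nat_lit 0x10060800318))
))))) (.l (nat_lit 0x810310))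
)) (.z (nat_lit 3) (.s (nat_lit 2) (nat_lit 0x10) (.l (nat_lit 0x100400010))
 (.s (nat_lit 2) (nat_lit 0x16) (.s (nat_lit 2) (nat_lit 0x13) (.l (nat_lit 0x18800c20018))
 (.s (nat_lit 2) (nat_lit 0x15) (.l (nat_lit 0x8800c30018))
 (.z (nat_lit 0) (.s (nat_lit 3) (nat_lit 0xd) (.l (nat_lit 0x60820218))
 (.s (nat_lit 3) (nat_lit 0x12) (.l (nat_lit 0x24000820220))
 (.s (nat_lit 3) (nat_lit 0x14) (.l (nat_lit 0x24000820220))
 (.s (nat_lit 3) (nat_lit 0x15) (.l (nat_lit 0x404000800120))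
 (.l (nat_lit 0x463041830320))
)))) (.l (nat_lit 0x18060020018))
))) (.s (nat_lit 2) (nat_lit 0x19) (.s (nat_lit 2) (nat_lit 0x18) (.s (nat_lit 2) (nat_lit 0x17) (.l (nat_lit 0x8060810318))
 (.z (nat_lit 0) (.s (nat_lit 3) (nat_lit 0xe) (.l (nat_lit 0x60820218))
 (.s (nat_lit 3) (nat_lit 0x13) (.l (nat_lit 0x4000820220))
 (.s (nat_lit 3) (nat_lit 0x16) (.s (nat_lit 3) (nat_lit 0x15) (.l (nat_lit 0x4040820220))
 (.l (nat_lit 0x24000820220))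
) (.l (nat_lit 0x64000820220))
))) (.l (nat_lit 0x800800118))
)) (.l (nat_lit 0x800820218))
) (.s (nat_lit 2) (nat_lit 0x1a) (.z (nat_lit 2) (.s (nat_lit 3) (nat_lit 0xf) (.l (nat_lit 0x60000118))
 (.s (nat_lit 3) (nat_lit 0x15) (.s (nat_lit 3) (nat_lit 0x12) (.l (nat_lit 0x4000000120))
 (.l (nat_lit 0x60040000120))
) (.s (nat_lit 3) (nat_lit 0x18) (.s (nat_lit 3) (nat_lit 0x17) (.s (nat_lit 3) (nat_lit 0x16) (.l (nat_lit 0x404040810320))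
 (.l (nat_lit 0x404040810320))
) (.l (nat_lit 0x460020810320))
) (.s (nat_lit 3) (nat_lit 0x19) (.l (nat_lit 0x4040000120))
 (.z (nat_lit 0) (.s (nat_lit 4) (nat_lit 0xf) (.l (nat_lit 0x24020830020))
 (.s (nat_lit 4) (nat_lit 0x15) (.l (nat_lit 0x3280000410328))
 (.s (nat_lit 4) (nat_lit 0x18) (.s (nat_lit 4) (nat_lit 0x17) (.l (nat_lit 0x21280040810328))
 (.l (nat_lit 0x21280040810328))
) (.s (nat_lit 4) (nat_lit 0x19) (.l (nat_lit 0x282040810328))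
 (.l (nat_lit 0x282040810328))
)))) (.l (nat_lit 0x404000810320))
))))) (.l (nat_lit 0x10060800318))
) (.z (nat_lit 2) (.s (nat_lit 3) (nat_lit 0x10) (.l (nat_lit 0x60020218))
 (.s (nat_lit 3) (nat_lit 0x16) (.s (nat_lit 3) (nat_lit 0x13) (.l (nat_lit 0x401180020220))
 (.s (nat_lit 3) (nat_lit 0x15) (.l (nat_lit 0x4040000120))
 (.l (nat_lit 0x4040000120))
)) (.s (nat_lit 3) (nat_lit 0x19) (.s (nat_lit 3) (nat_lit 0x18) (.l (nat_lit 0x460020810320))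
 (.l (nat_lit 0x4040000120))
) (.s (nat_lit 3) (nat_lit 0x1a) (.z (nat_lit 0) (.s (nat_lit 4) (nat_lit 0xf) (.l (nat_lit 0x24020830020))
 (.s (nat_lit 4) (nat_lit 0x15) (.l (nat_lit 0x40282000810328))
 (.s (nat_lit 4) (nat_lit 0x18) (.l (nat_lit 0x282040810328))
 (.l (nat_lit 0x282040810328))
))) (.l (nat_lit 0x4000000120))
) (.z (nat_lit 0) (.s (nat_lit 4) (nat_lit 0x10) (.l (nat_lit 0x4000000120))
 (.s (nat_lit 4) (nat_lit 0x16) (.s (nat_lit 4) (nat_lit 0x13) (.l (nat_lit 0x90000000128))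
 (.l (nat_lit 0x20280040810328))
) (.s (nat_lit 4) (nat_lit 0x19) (.l (nat_lit 0x282040810328))
 (.l (nat_lit 0x4200041800228))
))) (.l (nat_lit 0x4000000120))
))))) (.l (nat_lit 0x800810318))
))))) (.l (nat_lit 0x810310))
))

theorem u22 : check tb r22 [29, 24, 0, 0, 0, 0, 0, 0, 0, 0, 0, 0, 0, 0, 0, 0, 0, 0]
    [30, 27, 27, 27, 27, 27, 27, 27, 27, 27, 27, 27, 27, 27, 27, 27, 27, 27] 0 9 0 = true := by decide +kernel

noncomputable def r23 : Rt :=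
(.s (nat_lit 1) (nat_lit 0x1d) (.s (nat_lit 1) (nat_lit 0x1c) (.z (nat_lit 3) (.s (nat_lit 2) (nat_lit 0x10) (.l (nat_lit 0x100400010))
 (.s (nat_lit 2) (nat_lit 0x16) (.s (nat_lit 2) (nat_lit 0x13) (.l (nat_lit 0x8060030018))
 (.s (nat_lit 2) (nat_lit 0x15) (.l (nat_lit 0x8060810318))
 (.l (nat_lit 0x8800000118))
)) (.s (nat_lit 2) (nat_lit 0x19) (.l (nat_lit 0x800820218))
 (.s (nat_lit 2) (nat_lit 0x1b) (.s (nat_lit 2) (nat_lit 0x1a) (.z (nat_lit 1) (.s (nat_lit 3) (nat_lit 0xf) (.l (nat_lit 0x60000118))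
 (.s (nat_lit 3) (nat_lit 0x15) (.s (nat_lit 3) (nat_lit 0x12) (.l (nat_lit 0x4000000120))
 (.l (nat_lit 0x404040810320))
) (.s (nat_lit 3) (nat_lit 0x18) (.s (nat_lit 3) (nat_lit 0x17) (.l (nat_lit 0x404040810320))
 (.l (nat_lit 0x4040000120))
) (.s (nat_lit 3) (nat_lit 0x19) (.l (nat_lit 0x4040000120))
 (.z (nat_lit 0) (.s (nat_lit 4) (nat_lit 0xf) (.l (nat_lit 0x24020830020))
 (.s (nat_lit 4) (nat_lit 0x15) (.l (nat_lit 0x40282000810328))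
 (.s (nat_lit 4) (nat_lit 0x18) (.l (nat_lit 0x282040810328))
 (.l (nat_lit 0x282040810328))
))) (.l (nat_lit 0x4000000120))
))))) (.l (nat_lit 0x10060800318))
) (.z (nat_lit 1) (.s (nat_lit 3) (nat_lit 0x10) (.l (nat_lit 0x60020218))
 (.s (nat_lit 3) (nat_lit 0x16) (.s (nat_lit 3) (nat_lit 0x13) (.l (nat_lit 0x401180020220))
 (.l (nat_lit 0x404040810320))
) (.s (nat_lit 3) (nat_lit 0x19) (.l (nat_lit 0x4040000120))
 (.s (nat_lit 3) (nat_lit 0x1a) (.l (nat_lit 0x404000810320))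
 (.l (nat_lit 0x60040810320))
)))) (.l (nat_lit 0x10800820018))
)) (.z (nat_lit 1) (.s (nat_lit 3) (nat_lit 0x10) (.l (nat_lit 0x60000118))
 (.s (nat_lit 3) (nat_lit 0x16) (.s (nat_lit 3) (nat_lit 0x13) (.l (nat_lit 0x4000000120))
 (.l (nat_lit 0x460020810320))
) (.s (nat_lit 3) (nat_lit 0x19) (.l (nat_lit 0x4040000120))
 (.l (nat_lit 0x60040810320))
))) (.l (nat_lit 0x10800820018))
))))) (.l (nat_lit 0x810310))
) (.z (nat_lit 3) (.s (nat_lit 2) (nat_lit 0x11) (.l (nat_lit 0x820010))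
 (.s (nat_lit 2) (nat_lit 0x17) (.s (nat_lit 2) (nat_lit 0x14) (.l (nat_lit 0x8060830018))
 (.s (nat_lit 2) (nat_lit 0x16) (.l (nat_lit 0x8800000118))
 (.l (nat_lit 0x60800118))
)) (.s (nat_lit 2) (nat_lit 0x1a) (.s (nat_lit 2) (nat_lit 0x19) (.l (nat_lit 0x60800118))
 (.z (nat_lit 0) (.s (nat_lit 3) (nat_lit 0xf) (.l (nat_lit 0x60000118))
 (.s (nat_lit 3) (nat_lit 0x15) (.s (nat_lit 3) (nat_lit 0x12) (.l (nat_lit 0x4000000120))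
 (.l (nat_lit 0x4040000120))
) (.s (nat_lit 3) (nat_lit 0x18) (.l (nat_lit 0x460020810320))
 (.l (nat_lit 0x460000810320))
))) (.l (nat_lit 0x8060010318))
)) (.s (nat_lit 2) (nat_lit 0x1c) (.s (nat_lit 2) (nat_lit 0x1b) (.z (nat_lit 0) (.s (nat_lit 3) (nat_lit 0x10) (.l (nat_lit 0x60020218))
 (.s (nat_lit 3) (nat_lit 0x16) (.s (nat_lit 3) (nat_lit 0x13) (.l (nat_lit 0x401180020220))
 (.l (nat_lit 0x460020810320))
) (.s (nat_lit 3) (nat_lit 0x19) (.l (nat_lit 0x4040000120))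
 (.l (nat_lit 0x60040810320))
))) (.l (nat_lit 0x8800030018))
) (.z (nat_lit 0) (.s (nat_lit 3) (nat_lit 0x10) (.l (nat_lit 0x60000118))
 (.s (nat_lit 3) (nat_lit 0x16) (.s (nat_lit 3) (nat_lit 0x13) (.l (nat_lit 0x4000000120))
 (.l (nat_lit 0x4040000120))
) (.s (nat_lit 3) (nat_lit 0x19) (.l (nat_lit 0x4040000120))
 (.l (nat_lit 0x60040810320))
))) (.l (nat_lit 0x800000118))
)) (.z (nat_lit 0) (.s (nat_lit 3) (nat_lit 0x11) (.l (nat_lit 0x60000118))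
 (.s (nat_lit 3) (nat_lit 0x17) (.s (nat_lit 3) (nat_lit 0x14) (.l (nat_lit 0x4000000120))
 (.l (nat_lit 0x404000000120))
) (.s (nat_lit 3) (nat_lit 0x1a) (.l (nat_lit 0x404000810320))
 (.l (nat_lit 0x4000000120))
))) (.l (nat_lit 0x800830018))
))))) (.l (nat_lit 0x830010))
)) (.z (nat_lit 3) (.s (nat_lit 2) (nat_lit 0x11) (.l (nat_lit 0x100810010))
 (.s (nat_lit 2) (nat_lit 0x18) (.s (nat_lit 2) (nat_lit 0x15) (.l (nat_lit 0x8060810318))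
 (.l (nat_lit 0x800820218))
) (.s (nat_lit 2) (nat_lit 0x1b) (.s (nat_lit 2) (nat_lit 0x1a) (.s (nat_lit 2) (nat_lit 0x19) (.l (nat_lit 0x60830018))
 (.z (nat_lit 0) (.s (nat_lit 3) (nat_lit 0xf) (.l (nat_lit 0x60000118))
 (.s (nat_lit 3) (nat_lit 0x15) (.s (nat_lit 3) (nat_lit 0x12) (.l (nat_lit 0x4000000120))
 (.l (nat_lit 0x404000000120))
) (.s (nat_lit 3) (nat_lit 0x18) (.l (nat_lit 0x4040000120))
 (.l (nat_lit 0x4040810320))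
))) (.l (nat_lit 0x60000118))
)) (.z (nat_lit 0) (.s (nat_lit 3) (nat_lit 0x10) (.l (nat_lit 0x60020218))
 (.s (nat_lit 3) (nat_lit 0x16) (.s (nat_lit 3) (nat_lit 0x13) (.l (nat_lit 0x1180020220))
 (.l (nat_lit 0x4040000120))
) (.s (nat_lit 3) (nat_lit 0x19) (.l (nat_lit 0x4040000120))
 (.l (nat_lit 0x4040810320))
))) (.l (nat_lit 0x8800030018))
)) (.s (nat_lit 2) (nat_lit 0x1d) (.s (nat_lit 2) (nat_lit 0x1c) (.z (nat_lit 0) (.s (nat_lit 3) (nat_lit 0x10) (.l (nat_lit 0x60000118))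
 (.s (nat_lit 3) (nat_lit 0x16) (.l (nat_lit 0x460020810320))
 (.s (nat_lit 3) (nat_lit 0x19) (.l (nat_lit 0x4000000120))
 (.l (nat_lit 0x4000000120))
))) (.l (nat_lit 0x60830018))
) (.l (nat_lit 0x60000118))
) (.l (nat_lit 0x800830018))
)))) (.l (nat_lit 0x8030010))
))

theorem u23 : check tb r23 [29, 27, 0, 0, 0, 0, 0, 0, 0, 0, 0, 0, 0, 0, 0, 0, 0, 0]
    [30, 30, 30, 30, 30, 30, 30, 30, 30, 30, 30, 30, 30, 30, 30, 30, 30, 30] 0 9 0 = true := by decide +kernel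

noncomputable def r24 : Rt :=
(.l (nat_lit 0x8008))


theorem u24 : check tb r24 [29, 0, 0, 0, 0, 0, 0, 0, 0, 0, 0, 0, 0, 0, 0, 0, 0, 0]
    [30, 30, 30, 30, 30, 30, 30, 30, 30, 30, 30, 30, 30, 30, 30, 30, 30, 30] 10 97 0 = true := by decide +kernel

noncomputable def r25 : Rt :=
(.l (nat_lit 8))


theorem u25 : check tb r25 [30, 0, 0, 0, 0, 0, 0, 0, 0, 0, 0, 0, 0, 0, 0, 0, 0, 0]
    [31, 18, 18, 18, 18, 18, 18, 18, 18, 18, 18, 18, 18, 18, 18, 18, 18, 18] 0 10 0 = true := by decide +kernel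

noncomputable def r26 : Rt :=
(.s (nat_lit 1) (nat_lit 0x16) (.s (nat_lit 1) (nat_lit 0x14) (.s (nat_lit 1) (nat_lit 0x13) (.l (nat_lit 0x108020010))
 (.z (nat_lit 0) (.s (nat_lit 2) (nat_lit 0xc) (.l (nat_lit 0x108000010))
 (.s (nat_lit 2) (nat_lit 0x10) (.l (nat_lit 0x18060020018))
 (.s (nat_lit 2) (nat_lit 0x12) (.l (nat_lit 0x8861010018))
 (.l (nat_lit 0x8800c30218))
))) (.l (nat_lit 0x100820010))
)) (.s (nat_lit 1) (nat_lit 0x15) (.z (nat_lit 1) (.s (nat_lit 2) (nat_lit 0xd) (.l (nat_lit 0x108000010))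
 (.s (nat_lit 2) (nat_lit 0x11) (.l (nat_lit 0x18800020018))
 (.s (nat_lit 2) (nat_lit 0x13) (.l (nat_lit 0x8800830018))
 (.s (nat_lit 2) (nat_lit 0x14) (.l (nat_lit 0x8800830218))
 (.z (nat_lit 0) (.s (nat_lit 3) (nat_lit 0xd) (.l (nat_lit 0x60830018))
 (.s (nat_lit 3) (nat_lit 0x11) (.l (nat_lit 0x1c61060830020))
 (.s (nat_lit 3) (nat_lit 0x13) (.l (nat_lit 0x1c60000830020))
 (.s (nat_lit 3) (nat_lit 0x14) (.l (nat_lit 0x60040830220))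
 (.s (nat_lit 4) (nat_lit 0xd) (.l (nat_lit 0x64000028220))
 (.s (nat_lit 4) (nat_lit 0x11) (.l (nat_lit 0x100090000028228))
 (.s (nat_lit 4) (nat_lit 0x13) (.l (nat_lit 0x100090000028228))
 (.l (nat_lit 0x4200001010028))
))))))) (.l (nat_lit 0x18060810318))
))))) (.l (nat_lit 0x100800110))
) (.z (nat_lit 1) (.s (nat_lit 2) (nat_lit 0xd) (.l (nat_lit 0x108000010))
 (.s (nat_lit 2) (nat_lit 0x12) (.l (nat_lit 0x18800820018))
 (.s (nat_lit 2) (nat_lit 0x14) (.l (nat_lit 0x8800830218))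
 (.s (nat_lit 2) (nat_lit 0x15) (.z (nat_lit 0) (.s (nat_lit 3) (nat_lit 0xd) (.l (nat_lit 0x60830018))
 (.s (nat_lit 3) (nat_lit 0x11) (.l (nat_lit 0x1c60000830020))
 (.s (nat_lit 3) (nat_lit 0x13) (.l (nat_lit 0xc60000830020))
 (.s (nat_lit 3) (nat_lit 0x14) (.l (nat_lit 0x1422020030220))
 (.s (nat_lit 4) (nat_lit 0xd) (.l (nat_lit 0x64000028020))
 (.s (nat_lit 4) (nat_lit 0x11) (.l (nat_lit 0x120092000028028))
 (.s (nat_lit 4) (nat_lit 0x13) (.l (nat_lit 0x80011000430228))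
 (.s (nat_lit 4) (nat_lit 0x14) (.l (nat_lit 0xa0013000430228))
 (.l (nat_lit 0x4200001010028))
)))))))) (.l (nat_lit 0x18060810318))
) (.s (nat_lit 3) (nat_lit 0xd) (.l (nat_lit 0x60830218))
 (.s (nat_lit 3) (nat_lit 0x12) (.l (nat_lit 0x1000000830220))
 (.s (nat_lit 3) (nat_lit 0x14) (.l (nat_lit 0x460060810120))
 (.s (nat_lit 3) (nat_lit 0x15) (.z (nat_lit 0) (.s (nat_lit 4) (nat_lit 0xd) (.l (nat_lit 0x64000028020))
 (.s (nat_lit 4) (nat_lit 0x11) (.l (nat_lit 0x120090000028028))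
 (.s (nat_lit 4) (nat_lit 0x13) (.l (nat_lit 0x20011040830228))
 (.s (nat_lit 4) (nat_lit 0x14) (.l (nat_lit 0x60013000830228))
 (.s (nat_lit 5) (nat_lit 0xd) (.l (nat_lit 0x4280040838028))
 (.s (nat_lit 5) (nat_lit 0x11) (.l (nat_lit 0x10004a00040838030))
 (.s (nat_lit 5) (nat_lit 0x13) (.l (nat_lit 0x10000a80040838030))
 (.s (nat_lit 5) (nat_lit 0x14) (.l (nat_lit 0x10000a80040838030))
 (.s (nat_lit 6) (nat_lit 0xd) (.l (nat_lit 0x18c0041c0830030))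
 (.s (nat_lit 6) (nat_lit 0x11) (.l (nat_lit 0x18108000041c0830038))
 (.s (nat_lit 6) (nat_lit 0x13) (.l (nat_lit 0x18108000041c0830038))
 (.l (nat_lit 0x18108000041c0830038))
))))))))))) (.l (nat_lit 0x404000810120))
) (.l (nat_lit 0x63001030320))
)))))))) (.l (nat_lit 0x100800310))
))) (.s (nat_lit 1) (nat_lit 0x18) (.s (nat_lit 1) (nat_lit 0x17) (.z (nat_lit 2) (.s (nat_lit 2) (nat_lit 0xe) (.l (nat_lit 0x108000010))
 (.s (nat_lit 2) (nat_lit 0x13) (.l (nat_lit 0x18800830018))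
 (.s (nat_lit 2) (nat_lit 0x15) (.s (nat_lit 2) (nat_lit 0x14) (.l (nat_lit 0x8060810118))
 (.z (nat_lit 0) (.s (nat_lit 3) (nat_lit 0xd) (.l (nat_lit 0x60830018))
 (.s (nat_lit 3) (nat_lit 0x11) (.l (nat_lit 0x1c60000830020))
 (.s (nat_lit 3) (nat_lit 0x13) (.l (nat_lit 0x1c61000830020))
 (.s (nat_lit 3) (nat_lit 0x14) (.l (nat_lit 0x404000830220))
 (.s (nat_lit 4) (nat_lit 0xd) (.l (nat_lit 0x44000430220))
 (.s (nat_lit 4) (nat_lit 0x11) (.l (nat_lit 0x80090000430228))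
 (.s (nat_lit 4) (nat_lit 0x13) (.l (nat_lit 0xa0090000430228))
 (.s (nat_lit 4) (nat_lit 0x14) (.l (nat_lit 0xa0011000430228))
 (.s (nat_lit 5) (nat_lit 0xd) (.l (nat_lit 0x4280040838028))
 (.s (nat_lit 5) (nat_lit 0x11) (.l (nat_lit 0x10004a00040838030))
 (.s (nat_lit 5) (nat_lit 0x13) (.l (nat_lit 0x10000b80040838030))
 (.l (nat_lit 0x10210000082830030))
))))))))))) (.l (nat_lit 0x10060800118))
)) (.s (nat_lit 2) (nat_lit 0x16) (.z (nat_lit 0) (.s (nat_lit 3) (nat_lit 0xd) (.l (nat_lit 0x60830218))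
 (.s (nat_lit 3) (nat_lit 0x12) (.l (nat_lit 0x404000830220))
 (.s (nat_lit 3) (nat_lit 0x14) (.l (nat_lit 0x1001000830220))
 (.s (nat_lit 3) (nat_lit 0x15) (.s (nat_lit 4) (nat_lit 0xd) (.l (nat_lit 0x4040830220))
 (.s (nat_lit 4) (nat_lit 0x11) (.l (nat_lit 0x20090040830228))
 (.s (nat_lit 4) (nat_lit 0x13) (.l (nat_lit 0x20011040830228))
 (.s (nat_lit 4) (nat_lit 0x14) (.l (nat_lit 0x20013040830228))
 (.s (nat_lit 5) (nat_lit 0xd) (.l (nat_lit 0x4280040838028))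
 (.s (nat_lit 5) (nat_lit 0x11) (.l (nat_lit 0x10004a00040838030))
 (.s (nat_lit 5) (nat_lit 0x13) (.l (nat_lit 0x10000a80040838030))
 (.s (nat_lit 5) (nat_lit 0x14) (.l (nat_lit 0x10000a80040838030))
 (.s (nat_lit 6) (nat_lit 0xd) (.l (nat_lit 0xb00040838030))
 (.s (nat_lit 6) (nat_lit 0x11) (.l (nat_lit 0x1004010b00040838038))
 (.s (nat_lit 6) (nat_lit 0x13) (.l (nat_lit 0x1c8c800212040830038))
 (.s (nat_lit 6) (nat_lit 0x14) (.l (nat_lit 0x600600212020830238))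
 (.l (nat_lit 0x1004010b00040838038))
)))))))))))) (.s (nat_lit 4) (nat_lit 0xd) (.l (nat_lit 0x4040830220))
 (.s (nat_lit 4) (nat_lit 0x12) (.l (nat_lit 0x20090040830228))
 (.s (nat_lit 4) (nat_lit 0x14) (.l (nat_lit 0x20013040830228))
 (.s (nat_lit 4) (nat_lit 0x15) (.l (nat_lit 0x3280000410128))
 (.s (nat_lit 5) (nat_lit 0xd) (.l (nat_lit 0x282040810128))
 (.s (nat_lit 5) (nat_lit 0x12) (.l (nat_lit 0x1000a82040810130))
 (.s (nat_lit 5) (nat_lit 0x14) (.l (nat_lit 0x8004a00000410130))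
 (.l (nat_lit 0x210000082830230))
))))))))))) (.l (nat_lit 0x18800c30018))
) (.z (nat_lit 1) (.s (nat_lit 3) (nat_lit 0xe) (.l (nat_lit 0x60830218))
 (.s (nat_lit 3) (nat_lit 0x13) (.l (nat_lit 0x460060810120))
 (.s (nat_lit 3) (nat_lit 0x15) (.s (nat_lit 3) (nat_lit 0x14) (.l (nat_lit 0x404000830220))
 (.l (nat_lit 0x404000810120))
) (.s (nat_lit 3) (nat_lit 0x16) (.z (nat_lit 0) (.s (nat_lit 4) (nat_lit 0xd) (.l (nat_lit 0x4040830220))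
 (.s (nat_lit 4) (nat_lit 0x12) (.l (nat_lit 0x20090040830228))
 (.s (nat_lit 4) (nat_lit 0x14) (.l (nat_lit 0x20011040830228))
 (.s (nat_lit 4) (nat_lit 0x15) (.l (nat_lit 0x20280040810128))
 (.l (nat_lit 0x1e4003040810328))
)))) (.l (nat_lit 0x404000830220))
) (.z (nat_lit 0) (.s (nat_lit 4) (nat_lit 0xe) (.l (nat_lit 0x4040830220))
 (.s (nat_lit 4) (nat_lit 0x13) (.l (nat_lit 0x20011040830228))
 (.s (nat_lit 4) (nat_lit 0x15) (.l (nat_lit 0x282040810128))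
 (.l (nat_lit 0x4200001010228))
))) (.l (nat_lit 0x404000830220))
))))) (.l (nat_lit 0x10060800118))
))))) (.l (nat_lit 0x100830010))
) (.z (nat_lit 1) (.s (nat_lit 2) (nat_lit 0xe) (.l (nat_lit 0x108000010))
 (.s (nat_lit 2) (nat_lit 0x13) (.l (nat_lit 0x8800830018))
 (.s (nat_lit 2) (nat_lit 0x16) (.s (nat_lit 2) (nat_lit 0x15) (.s (nat_lit 2) (nat_lit 0x14) (.l (nat_lit 0x18800c20018))
 (.z (nat_lit 0) (.s (nat_lit 3) (nat_lit 0xd) (.l (nat_lit 0x60830218))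
 (.s (nat_lit 3) (nat_lit 0x11) (.l (nat_lit 0x4000830220))
 (.s (nat_lit 3) (nat_lit 0x13) (.l (nat_lit 0x404000830220))
 (.s (nat_lit 3) (nat_lit 0x14) (.l (nat_lit 0x404000830220))
 (.l (nat_lit 0x860000410120))
)))) (.l (nat_lit 0x18800c30018))
)) (.z (nat_lit 0) (.s (nat_lit 3) (nat_lit 0xd) (.l (nat_lit 0x60830218))
 (.s (nat_lit 3) (nat_lit 0x12) (.l (nat_lit 0x404000830220))
 (.s (nat_lit 3) (nat_lit 0x14) (.l (nat_lit 0x404000830220))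
 (.s (nat_lit 3) (nat_lit 0x15) (.l (nat_lit 0x404000810120))
 (.l (nat_lit 0xc60020010120))
)))) (.l (nat_lit 0x8800410118))
)) (.s (nat_lit 2) (nat_lit 0x17) (.z (nat_lit 0) (.s (nat_lit 3) (nat_lit 0xe) (.l (nat_lit 0x60830218))
 (.s (nat_lit 3) (nat_lit 0x13) (.l (nat_lit 0x404000830220))
 (.s (nat_lit 3) (nat_lit 0x15) (.l (nat_lit 0x4040810120))
 (.s (nat_lit 3) (nat_lit 0x16) (.s (nat_lit 4) (nat_lit 0xd) (.l (nat_lit 0x4040830220))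
 (.s (nat_lit 4) (nat_lit 0x12) (.l (nat_lit 0x20090040830228))
 (.s (nat_lit 4) (nat_lit 0x14) (.l (nat_lit 0x20011040830228))
 (.s (nat_lit 4) (nat_lit 0x15) (.l (nat_lit 0x20280040810128))
 (.l (nat_lit 0x282040810128))
)))) (.s (nat_lit 4) (nat_lit 0xe) (.l (nat_lit 0x4040830220))
 (.s (nat_lit 4) (nat_lit 0x13) (.l (nat_lit 0x20090040830228))
 (.s (nat_lit 4) (nat_lit 0x15) (.l (nat_lit 0x20280040810128))
 (.s (nat_lit 4) (nat_lit 0x16) (.l (nat_lit 0x21281040810128))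
 (.l (nat_lit 0x20092040830228))
)))))))) (.l (nat_lit 0x18800020218))
) (.z (nat_lit 0) (.s (nat_lit 3) (nat_lit 0xe) (.l (nat_lit 0x60830218))
 (.s (nat_lit 3) (nat_lit 0x13) (.l (nat_lit 0x404000830220))
 (.s (nat_lit 3) (nat_lit 0x16) (.s (nat_lit 3) (nat_lit 0x15) (.l (nat_lit 0x404000810120))
 (.l (nat_lit 0x460020810120))
) (.s (nat_lit 3) (nat_lit 0x17) (.l (nat_lit 0x4040830220))
 (.l (nat_lit 0x4040830220))
)))) (.l (nat_lit 0x10060800118))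
))))) (.z (nat_lit 2) (.l (nat_lit 0x100800110))
 (.l (nat_lit 0x100830010))
))) (.z (nat_lit 2) (.s (nat_lit 2) (nat_lit 0xf) (.l (nat_lit 0x108000010))
 (.s (nat_lit 2) (nat_lit 0x14) (.s (nat_lit 2) (nat_lit 0x12) (.l (nat_lit 0x800830018))
 (.l (nat_lit 0x8060010118))
) (.s (nat_lit 2) (nat_lit 0x17) (.s (nat_lit 2) (nat_lit 0x16) (.s (nat_lit 2) (nat_lit 0x15) (.l (nat_lit 0x8060010118))
 (.l (nat_lit 0x8800410118))
) (.z (nat_lit 0) (.s (nat_lit 3) (nat_lit 0xe) (.l (nat_lit 0x60830218))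
 (.s (nat_lit 3) (nat_lit 0x13) (.l (nat_lit 0x404000830220))
 (.s (nat_lit 3) (nat_lit 0x15) (.l (nat_lit 0x404000810120))
 (.s (nat_lit 3) (nat_lit 0x16) (.l (nat_lit 0x460020810120))
 (.l (nat_lit 0x4040830220))
)))) (.l (nat_lit 0x18800000118))
)) (.s (nat_lit 2) (nat_lit 0x18) (.l (nat_lit 0x60810118))
 (.l (nat_lit 0x60810118))
)))) (.l (nat_lit 0x830210))
)))

theorem u26 : check tb r26 [30, 18, 0, 0, 0, 0, 0, 0, 0, 0, 0, 0, 0, 0, 0, 0, 0, 0]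
    [31, 25, 25, 25, 25, 25, 25, 25, 25, 25, 25, 25, 25, 25, 25, 25, 25, 25] 0 10 0 = true := by decide +kernel

noncomputable def r27 : Rt :=
(.z (nat_lit 4) (.s (nat_lit 2) (nat_lit 0xf) (.l (nat_lit 0x100800010))
 (.s (nat_lit 2) (nat_lit 0x15) (.s (nat_lit 2) (nat_lit 0x12) (.l (nat_lit 0x18800c20018))
 (.s (nat_lit 2) (nat_lit 0x14) (.l (nat_lit 0x8800420218))
 (.z (nat_lit 0) (.s (nat_lit 3) (nat_lit 0xd) (.l (nat_lit 0x60830018))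
 (.s (nat_lit 3) (nat_lit 0x11) (.l (nat_lit 0x1c04000830020))
 (.s (nat_lit 3) (nat_lit 0x13) (.l (nat_lit 0xc61000830020))
 (.s (nat_lit 3) (nat_lit 0x14) (.l (nat_lit 0xc60060830020))
 (.l (nat_lit 0x1860040c30020))
)))) (.l (nat_lit 0x8800c30018))
))) (.s (nat_lit 2) (nat_lit 0x18) (.s (nat_lit 2) (nat_lit 0x17) (.s (nat_lit 2) (nat_lit 0x16) (.z (nat_lit 0) (.s (nat_lit 3) (nat_lit 0xd) (.l (nat_lit 0x60820218))
 (.s (nat_lit 3) (nat_lit 0x12) (.l (nat_lit 0x404000820220))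
 (.s (nat_lit 3) (nat_lit 0x14) (.l (nat_lit 0x4040820220))
 (.s (nat_lit 3) (nat_lit 0x15) (.s (nat_lit 4) (nat_lit 0xd) (.l (nat_lit 0x4040820220))
 (.s (nat_lit 4) (nat_lit 0x11) (.l (nat_lit 0x90040820228))
 (.s (nat_lit 4) (nat_lit 0x13) (.l (nat_lit 0x20090040820228))
 (.s (nat_lit 4) (nat_lit 0x14) (.l (nat_lit 0x20011040820228))
 (.l (nat_lit 0x4200041010028))
)))) (.s (nat_lit 4) (nat_lit 0xd) (.l (nat_lit 0x4040820220))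
 (.s (nat_lit 4) (nat_lit 0x12) (.l (nat_lit 0x90040820228))
 (.s (nat_lit 4) (nat_lit 0x14) (.l (nat_lit 0x20011040820228))
 (.s (nat_lit 4) (nat_lit 0x15) (.l (nat_lit 0x123280000410328))
 (.l (nat_lit 0x3280000410328))
)))))))) (.l (nat_lit 0x18060010318))
) (.z (nat_lit 1) (.s (nat_lit 3) (nat_lit 0xe) (.l (nat_lit 0x60820218))
 (.s (nat_lit 3) (nat_lit 0x13) (.l (nat_lit 0x4040820220))
 (.s (nat_lit 3) (nat_lit 0x15) (.s (nat_lit 3) (nat_lit 0x14) (.l (nat_lit 0x4000820220))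
 (.z (nat_lit 0) (.s (nat_lit 4) (nat_lit 0xd) (.l (nat_lit 0x4040820220))
 (.s (nat_lit 4) (nat_lit 0x11) (.l (nat_lit 0x90040820228))
 (.s (nat_lit 4) (nat_lit 0x13) (.l (nat_lit 0x90040820228))
 (.l (nat_lit 0x4200041010028))
))) (.l (nat_lit 0x4040820220))
)) (.s (nat_lit 3) (nat_lit 0x16) (.z (nat_lit 0) (.s (nat_lit 4) (nat_lit 0xd) (.l (nat_lit 0x4040820220))
 (.s (nat_lit 4) (nat_lit 0x12) (.l (nat_lit 0x90040820228))
 (.s (nat_lit 4) (nat_lit 0x14) (.l (nat_lit 0x20011040820228))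
 (.s (nat_lit 4) (nat_lit 0x15) (.l (nat_lit 0x20013040820228))
 (.l (nat_lit 0x1a2280020810328))
)))) (.l (nat_lit 0x4040820220))
) (.z (nat_lit 0) (.s (nat_lit 4) (nat_lit 0xe) (.l (nat_lit 0x64000820220))
 (.s (nat_lit 4) (nat_lit 0x13) (.l (nat_lit 0x11000820228))
 (.s (nat_lit 4) (nat_lit 0x15) (.l (nat_lit 0x282040800128))
 (.s (nat_lit 4) (nat_lit 0x16) (.l (nat_lit 0x282040800128))
 (.s (nat_lit 5) (nat_lit 0xe) (.l (nat_lit 0x4280040800128))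
 (.s (nat_lit 5) (nat_lit 0x13) (.l (nat_lit 0xa80040800130))
 (.l (nat_lit 0x210000082820230))
)))))) (.l (nat_lit 0x60040800120))
))))) (.z (nat_lit 3) (.l (nat_lit 0x8800020218))
 (.l (nat_lit 0x18060020018))
))) (.z (nat_lit 1) (.s (nat_lit 3) (nat_lit 0xe) (.l (nat_lit 0x60820218))
 (.s (nat_lit 3) (nat_lit 0x13) (.l (nat_lit 0x404000820220))
 (.s (nat_lit 3) (nat_lit 0x16) (.s (nat_lit 3) (nat_lit 0x15) (.l (nat_lit 0x63001030320))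
 (.l (nat_lit 0x460000800120))
) (.l (nat_lit 0x60040800120))
))) (.l (nat_lit 0x800800118))
)) (.s (nat_lit 2) (nat_lit 0x19) (.z (nat_lit 0) (.s (nat_lit 3) (nat_lit 0xf) (.l (nat_lit 0x60820218))
 (.s (nat_lit 3) (nat_lit 0x14) (.l (nat_lit 0x4040820220))
 (.s (nat_lit 3) (nat_lit 0x17) (.s (nat_lit 3) (nat_lit 0x16) (.s (nat_lit 3) (nat_lit 0x15) (.l (nat_lit 0x404000800120))
 (.l (nat_lit 0x60040800120))
) (.l (nat_lit 0x64000820220))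
) (.l (nat_lit 0x64000820220))
))) (.l (nat_lit 0x800820218))
) (.s (nat_lit 3) (nat_lit 0xf) (.l (nat_lit 0x60820018))
 (.s (nat_lit 3) (nat_lit 0x15) (.s (nat_lit 3) (nat_lit 0x12) (.l (nat_lit 0x1c04040820020))
 (.s (nat_lit 3) (nat_lit 0x14) (.l (nat_lit 0x64000028020))
 (.l (nat_lit 0x63001030120))
)) (.s (nat_lit 3) (nat_lit 0x18) (.s (nat_lit 3) (nat_lit 0x17) (.s (nat_lit 3) (nat_lit 0x16) (.z (nat_lit 0) (.s (nat_lit 4) (nat_lit 0xd) (.l (nat_lit 0x4040000120))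
 (.s (nat_lit 4) (nat_lit 0x12) (.l (nat_lit 0x280040000128))
 (.s (nat_lit 4) (nat_lit 0x14) (.l (nat_lit 0x4200001010228))
 (.l (nat_lit 0x102280020800328))
))) (.l (nat_lit 0x1c64020820020))
) (.z (nat_lit 0) (.s (nat_lit 4) (nat_lit 0xe) (.l (nat_lit 0x4040000120))
 (.s (nat_lit 4) (nat_lit 0x13) (.l (nat_lit 0x4200001010228))
 (.s (nat_lit 4) (nat_lit 0x15) (.l (nat_lit 0x24202000008228))
 (.l (nat_lit 0x4200000008228))
))) (.l (nat_lit 0x1c64000820020))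
)) (.z (nat_lit 0) (.s (nat_lit 4) (nat_lit 0xe) (.l (nat_lit 0x44000020020))
 (.s (nat_lit 4) (nat_lit 0x13) (.l (nat_lit 0x44200000008228))
 (.s (nat_lit 4) (nat_lit 0x16) (.l (nat_lit 0x4200000008228))
 (.s (nat_lit 4) (nat_lit 0x17) (.l (nat_lit 0x40292041820128))
 (.l (nat_lit 0x40292041820128))
)))) (.l (nat_lit 0xc64000820020))
)) (.s (nat_lit 3) (nat_lit 0x19) (.z (nat_lit 0) (.s (nat_lit 4) (nat_lit 0xf) (.l (nat_lit 0x44000430020))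
 (.s (nat_lit 4) (nat_lit 0x14) (.l (nat_lit 0x4200000008228))
 (.s (nat_lit 4) (nat_lit 0x17) (.s (nat_lit 4) (nat_lit 0x16) (.s (nat_lit 4) (nat_lit 0x15) (.l (nat_lit 0x180092000430028))
 (.l (nat_lit 0x40292001010228))
) (.l (nat_lit 0x40292001010228))
) (.s (nat_lit 4) (nat_lit 0x18) (.l (nat_lit 0x4200042008228))
 (.l (nat_lit 0x40292001010228))
)))) (.l (nat_lit 0x1444000020020))
) (.z (nat_lit 2) (.s (nat_lit 4) (nat_lit 0xf) (.l (nat_lit 0x4040830020))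
 (.s (nat_lit 4) (nat_lit 0x15) (.s (nat_lit 4) (nat_lit 0x12) (.l (nat_lit 0x20011040830028))
 (.l (nat_lit 0x60292001010028))
) (.s (nat_lit 4) (nat_lit 0x18) (.l (nat_lit 0x40292041820128))
 (.s (nat_lit 4) (nat_lit 0x19) (.l (nat_lit 0x40292001010228))
 (.l (nat_lit 0x24202040818228))
)))) (.l (nat_lit 0x463001010020))
))))))))) (.z (nat_lit 7) (.l (nat_lit 0x100800310))
 (.l (nat_lit 0x800110))
))

theorem u27 : check tb r27 [30, 25, 0, 0, 0, 0, 0, 0, 0, 0, 0, 0, 0, 0, 0, 0, 0, 0]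
    [31, 26, 26, 26, 26, 26, 26, 26, 26, 26, 26, 26, 26, 26, 26, 26, 26, 26] 0 10 0 = true := by decide +kernel

noncomputable def r28 : Rt :=
(.z (nat_lit 6) (.s (nat_lit 2) (nat_lit 0x10) (.l (nat_lit 0x100400010))
 (.s (nat_lit 2) (nat_lit 0x16) (.s (nat_lit 2) (nat_lit 0x13) (.l (nat_lit 0x8800400118))
 (.s (nat_lit 2) (nat_lit 0x15) (.s (nat_lit 2) (nat_lit 0x14) (.l (nat_lit 0x8060830018))
 (.z (nat_lit 0) (.s (nat_lit 3) (nat_lit 0xd) (.l (nat_lit 0x60020218))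
 (.s (nat_lit 3) (nat_lit 0x11) (.l (nat_lit 0x44000020220))
 (.s (nat_lit 3) (nat_lit 0x13) (.l (nat_lit 0x44000020220))
 (.s (nat_lit 3) (nat_lit 0x14) (.l (nat_lit 0x44000020220))
 (.s (nat_lit 4) (nat_lit 0xd) (.l (nat_lit 0x4040820220))
 (.s (nat_lit 4) (nat_lit 0x11) (.l (nat_lit 0x90040820228))
 (.s (nat_lit 4) (nat_lit 0x13) (.l (nat_lit 0x20090040820228))
 (.s (nat_lit 4) (nat_lit 0x14) (.l (nat_lit 0x20011040820228))
 (.s (nat_lit 5) (nat_lit 0xd) (.l (nat_lit 0x282040800128))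
 (.s (nat_lit 5) (nat_lit 0x11) (.l (nat_lit 0x4a02040800130))
 (.l (nat_lit 0x210000082830030))
)))))))))) (.l (nat_lit 0x8060000118))
)) (.z (nat_lit 0) (.s (nat_lit 3) (nat_lit 0xd) (.l (nat_lit 0x60820218))
 (.s (nat_lit 3) (nat_lit 0x12) (.l (nat_lit 0x4000820220))
 (.s (nat_lit 3) (nat_lit 0x14) (.l (nat_lit 0x404000820220))
 (.s (nat_lit 3) (nat_lit 0x15) (.s (nat_lit 4) (nat_lit 0xd) (.l (nat_lit 0x4040820220))
 (.s (nat_lit 4) (nat_lit 0x11) (.l (nat_lit 0x90040820228))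
 (.s (nat_lit 4) (nat_lit 0x13) (.l (nat_lit 0x90040820228))
 (.s (nat_lit 4) (nat_lit 0x14) (.l (nat_lit 0x20090040820228))
 (.s (nat_lit 5) (nat_lit 0xd) (.l (nat_lit 0x282040800128))
 (.s (nat_lit 5) (nat_lit 0x11) (.l (nat_lit 0x1000a02040800130))
 (.s (nat_lit 5) (nat_lit 0x13) (.l (nat_lit 0x1004a02040800130))
 (.l (nat_lit 0x2080212040820230))
))))))) (.s (nat_lit 4) (nat_lit 0xd) (.l (nat_lit 0x4040820220))
 (.s (nat_lit 4) (nat_lit 0x12) (.l (nat_lit 0x90040820228))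
 (.s (nat_lit 4) (nat_lit 0x14) (.l (nat_lit 0x20090040820228))
 (.l (nat_lit 0x3280000410328))
))))))) (.l (nat_lit 0x8800000118))
))) (.s (nat_lit 2) (nat_lit 0x19) (.s (nat_lit 2) (nat_lit 0x18) (.s (nat_lit 2) (nat_lit 0x17) (.z (nat_lit 1) (.s (nat_lit 3) (nat_lit 0xe) (.l (nat_lit 0x60820218))
 (.s (nat_lit 3) (nat_lit 0x13) (.l (nat_lit 0x404000820220))
 (.s (nat_lit 3) (nat_lit 0x15) (.s (nat_lit 3) (nat_lit 0x14) (.l (nat_lit 0x4000820220))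
 (.l (nat_lit 0x4040820220))
) (.s (nat_lit 3) (nat_lit 0x16) (.l (nat_lit 0x460000800120))
 (.l (nat_lit 0x64000820220))
)))) (.l (nat_lit 0x18800420018))
) (.z (nat_lit 0) (.s (nat_lit 3) (nat_lit 0xe) (.l (nat_lit 0x60820218))
 (.s (nat_lit 3) (nat_lit 0x13) (.l (nat_lit 0x4000820220))
 (.s (nat_lit 3) (nat_lit 0x16) (.s (nat_lit 3) (nat_lit 0x15) (.l (nat_lit 0x460000800120))
 (.l (nat_lit 0x64000820220))
) (.l (nat_lit 0x60040800120))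
))) (.l (nat_lit 0x800800118))
)) (.z (nat_lit 0) (.s (nat_lit 3) (nat_lit 0xf) (.l (nat_lit 0x60820218))
 (.s (nat_lit 3) (nat_lit 0x14) (.l (nat_lit 0x4000820220))
 (.s (nat_lit 3) (nat_lit 0x17) (.l (nat_lit 0x64000820220))
 (.l (nat_lit 0x4040800120))
))) (.l (nat_lit 0x60820218))
)) (.s (nat_lit 2) (nat_lit 0x1a) (.z (nat_lit 4) (.s (nat_lit 3) (nat_lit 0xf) (.l (nat_lit 0x60030018))
 (.s (nat_lit 3) (nat_lit 0x15) (.s (nat_lit 3) (nat_lit 0x12) (.l (nat_lit 0x1420000030020))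
 (.s (nat_lit 3) (nat_lit 0x14) (.l (nat_lit 0x60040000120))
 (.z (nat_lit 0) (.s (nat_lit 4) (nat_lit 0xd) (.l (nat_lit 0x24020830020))
 (.s (nat_lit 4) (nat_lit 0x11) (.l (nat_lit 0x40090020830028))
 (.s (nat_lit 4) (nat_lit 0x13) (.l (nat_lit 0x100011000028028))
 (.s (nat_lit 4) (nat_lit 0x14) (.l (nat_lit 0x100011000028028))
 (.l (nat_lit 0x24202040008228))
)))) (.l (nat_lit 0xc44000030020))
))) (.s (nat_lit 3) (nat_lit 0x18) (.s (nat_lit 3) (nat_lit 0x17) (.s (nat_lit 3) (nat_lit 0x16) (.z (nat_lit 0) (.s (nat_lit 4) (nat_lit 0xd) (.l (nat_lit 0x4040000120))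
 (.s (nat_lit 4) (nat_lit 0x12) (.l (nat_lit 0x280040000128))
 (.s (nat_lit 4) (nat_lit 0x14) (.l (nat_lit 0x4200041010228))
 (.l (nat_lit 0x4200041010228))
))) (.l (nat_lit 0xc24000830020))
) (.z (nat_lit 0) (.s (nat_lit 4) (nat_lit 0xe) (.l (nat_lit 0x4040000120))
 (.s (nat_lit 4) (nat_lit 0x13) (.l (nat_lit 0x1e4002040800328))
 (.s (nat_lit 4) (nat_lit 0x15) (.l (nat_lit 0x23202142c20228))
 (.s (nat_lit 4) (nat_lit 0x16) (.l (nat_lit 0x140282040800328))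
 (.s (nat_lit 5) (nat_lit 0xe) (.l (nat_lit 0x1041c0020228))
 (.s (nat_lit 5) (nat_lit 0x13) (.l (nat_lit 0x1200800142820230))
 (.s (nat_lit 5) (nat_lit 0x15) (.l (nat_lit 0x14900142820230))
 (.l (nat_lit 0x41000041c0020230))
))))))) (.l (nat_lit 0xc44000030020))
)) (.z (nat_lit 0) (.s (nat_lit 4) (nat_lit 0xe) (.l (nat_lit 0x44000020020))
 (.s (nat_lit 4) (nat_lit 0x13) (.l (nat_lit 0x1a0011000020028))
 (.s (nat_lit 4) (nat_lit 0x16) (.s (nat_lit 4) (nat_lit 0x15) (.l (nat_lit 0x4200000008228))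
 (.l (nat_lit 0x2228a1c0008228))
) (.s (nat_lit 4) (nat_lit 0x17) (.l (nat_lit 0x24202041800028))
 (.s (nat_lit 5) (nat_lit 0xe) (.l (nat_lit 0x1001a0020228))
 (.s (nat_lit 5) (nat_lit 0x13) (.l (nat_lit 0x41000001a0020230))
 (.s (nat_lit 5) (nat_lit 0x16) (.l (nat_lit 0x1980081c0008230))
 (.l (nat_lit 0x41000001a0020230))
))))))) (.l (nat_lit 0x1402000030020))
)) (.s (nat_lit 3) (nat_lit 0x19) (.z (nat_lit 0) (.s (nat_lit 4) (nat_lit 0xf) (.l (nat_lit 0x44000430020))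
 (.s (nat_lit 4) (nat_lit 0x14) (.l (nat_lit 0x80011000430028))
 (.s (nat_lit 4) (nat_lit 0x17) (.s (nat_lit 4) (nat_lit 0x16) (.l (nat_lit 0x4200000008228))
 (.l (nat_lit 0x222881c1010228))
) (.l (nat_lit 0x4280042018228))
))) (.l (nat_lit 0x444000030020))
) (.z (nat_lit 2) (.s (nat_lit 4) (nat_lit 0xf) (.l (nat_lit 0x4040830020))
 (.s (nat_lit 4) (nat_lit 0x15) (.s (nat_lit 4) (nat_lit 0x12) (.l (nat_lit 0xa0090040830028))
 (.l (nat_lit 0x24202041800028))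
) (.s (nat_lit 4) (nat_lit 0x18) (.s (nat_lit 4) (nat_lit 0x17) (.s (nat_lit 4) (nat_lit 0x16) (.l (nat_lit 0x60292001010028))
 (.l (nat_lit 0x4200041800028))
) (.l (nat_lit 0x4200041800028))
) (.s (nat_lit 4) (nat_lit 0x19) (.l (nat_lit 0x40292001010228))
 (.l (nat_lit 0x4200041800028))
)))) (.l (nat_lit 0x463000008020))
))))) (.l (nat_lit 0x8060010318))
) (.z (nat_lit 3) (.s (nat_lit 3) (nat_lit 0x10) (.l (nat_lit 0x60020218))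
 (.s (nat_lit 3) (nat_lit 0x16) (.s (nat_lit 3) (nat_lit 0x13) (.l (nat_lit 0x4001a0020220))
 (.s (nat_lit 3) (nat_lit 0x15) (.s (nat_lit 3) (nat_lit 0x14) (.l (nat_lit 0x4001a0020220))
 (.l (nat_lit 0x4040000120))
) (.l (nat_lit 0x404040810320))
)) (.s (nat_lit 3) (nat_lit 0x19) (.s (nat_lit 3) (nat_lit 0x18) (.s (nat_lit 3) (nat_lit 0x17) (.z (nat_lit 0) (.s (nat_lit 4) (nat_lit 0xe) (.l (nat_lit 0x4040000120))
 (.s (nat_lit 4) (nat_lit 0x13) (.l (nat_lit 0x1a0011000020028))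
 (.s (nat_lit 4) (nat_lit 0x15) (.l (nat_lit 0x1a3180040000328))
 (.s (nat_lit 4) (nat_lit 0x16) (.l (nat_lit 0x2228a1c1010228))
 (.l (nat_lit 0x410041c0020228))
)))) (.l (nat_lit 0x4011c0020220))
) (.z (nat_lit 0) (.s (nat_lit 4) (nat_lit 0xe) (.l (nat_lit 0x4040820020))
 (.s (nat_lit 4) (nat_lit 0x13) (.l (nat_lit 0x120011040820028))
 (.s (nat_lit 4) (nat_lit 0x16) (.l (nat_lit 0x4200000008228))
 (.s (nat_lit 4) (nat_lit 0x17) (.l (nat_lit 0x4280042008228))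
 (.l (nat_lit 0x4280042008228))
)))) (.l (nat_lit 0x404000000120))
)) (.z (nat_lit 0) (.s (nat_lit 4) (nat_lit 0xf) (.l (nat_lit 0x64000820020))
 (.s (nat_lit 4) (nat_lit 0x14) (.l (nat_lit 0x4200000008228))
 (.s (nat_lit 4) (nat_lit 0x17) (.s (nat_lit 4) (nat_lit 0x16) (.l (nat_lit 0x4200000008228))
 (.l (nat_lit 0x60290000008228))
) (.l (nat_lit 0x40292000008228))
))) (.l (nat_lit 0x404000000120))
)) (.s (nat_lit 3) (nat_lit 0x1a) (.z (nat_lit 1) (.s (nat_lit 4) (nat_lit 0xf) (.l (nat_lit 0x4040830020))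
 (.s (nat_lit 4) (nat_lit 0x15) (.s (nat_lit 4) (nat_lit 0x12) (.l (nat_lit 0x20090040830028))
 (.l (nat_lit 0x60292001010028))
) (.s (nat_lit 4) (nat_lit 0x18) (.l (nat_lit 0x40292041820128))
 (.s (nat_lit 4) (nat_lit 0x19) (.l (nat_lit 0x60290001010028))
 (.l (nat_lit 0x22280000810328))
)))) (.z (nat_lit 2) (.l (nat_lit 0x463001010020))
 (.l (nat_lit 0x460000810320))
)) (.z (nat_lit 0) (.s (nat_lit 4) (nat_lit 0x10) (.l (nat_lit 0x4000000120))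
 (.s (nat_lit 4) (nat_lit 0x16) (.s (nat_lit 4) (nat_lit 0x13) (.l (nat_lit 0x90000000128))
 (.l (nat_lit 0x40292001010228))
) (.s (nat_lit 4) (nat_lit 0x19) (.l (nat_lit 0x40292001010228))
 (.l (nat_lit 0x4200041800228))
))) (.l (nat_lit 0x63001820320))
))))) (.l (nat_lit 0x10800820018))
))))) (.l (nat_lit 0x8000110))
)

theorem u28 : check tb r28 [30, 26, 0, 0, 0, 0, 0, 0, 0, 0, 0, 0, 0, 0, 0, 0, 0, 0]
    [31, 27, 27, 27, 27, 27, 27, 27, 27, 27, 27, 27, 27, 27, 27, 27, 27, 27] 0 10 0 = true := by decide +kernel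

noncomputable def r29 : Rt :=
(.z (nat_lit 5) (.s (nat_lit 2) (nat_lit 0x10) (.l (nat_lit 0x820010))
 (.s (nat_lit 2) (nat_lit 0x16) (.s (nat_lit 2) (nat_lit 0x13) (.l (nat_lit 0x8800830018))
 (.s (nat_lit 2) (nat_lit 0x15) (.s (nat_lit 2) (nat_lit 0x14) (.l (nat_lit 0x8060830018))
 (.l (nat_lit 0x8060000118))
) (.l (nat_lit 0x18060800318))
)) (.s (nat_lit 2) (nat_lit 0x19) (.s (nat_lit 2) (nat_lit 0x18) (.s (nat_lit 2) (nat_lit 0x17) (.z (nat_lit 0) (.s (nat_lit 3) (nat_lit 0xe) (.l (nat_lit 0x60820218))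
 (.s (nat_lit 3) (nat_lit 0x13) (.l (nat_lit 0x4000820220))
 (.s (nat_lit 3) (nat_lit 0x15) (.l (nat_lit 0x460000800120))
 (.l (nat_lit 0x64000820220))
))) (.l (nat_lit 0x800800118))
) (.l (nat_lit 0x800820218))
) (.l (nat_lit 0x60800118))
) (.s (nat_lit 2) (nat_lit 0x1b) (.s (nat_lit 2) (nat_lit 0x1a) (.z (nat_lit 3) (.s (nat_lit 3) (nat_lit 0xf) (.l (nat_lit 0x60030018))
 (.s (nat_lit 3) (nat_lit 0x15) (.s (nat_lit 3) (nat_lit 0x12) (.l (nat_lit 0xc04000030020))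
 (.s (nat_lit 3) (nat_lit 0x14) (.l (nat_lit 0xc04000030020))
 (.l (nat_lit 0x4040000120))
)) (.s (nat_lit 3) (nat_lit 0x18) (.s (nat_lit 3) (nat_lit 0x17) (.s (nat_lit 3) (nat_lit 0x16) (.l (nat_lit 0x404040810320))
 (.l (nat_lit 0x63001030120))
) (.z (nat_lit 0) (.s (nat_lit 4) (nat_lit 0xe) (.l (nat_lit 0x44000430020))
 (.s (nat_lit 4) (nat_lit 0x13) (.l (nat_lit 0x80011000430028))
 (.s (nat_lit 4) (nat_lit 0x16) (.l (nat_lit 0x3200142c20228))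
 (.l (nat_lit 0x3180142420228))
))) (.l (nat_lit 0x444000030020))
)) (.s (nat_lit 3) (nat_lit 0x19) (.z (nat_lit 0) (.s (nat_lit 4) (nat_lit 0xf) (.l (nat_lit 0x44000030020))
 (.s (nat_lit 4) (nat_lit 0x14) (.l (nat_lit 0x4200000008228))
 (.s (nat_lit 4) (nat_lit 0x17) (.l (nat_lit 0x4200000008228))
 (.l (nat_lit 0x4280042018228))
))) (.l (nat_lit 0x444000030020))
) (.z (nat_lit 2) (.s (nat_lit 4) (nat_lit 0xf) (.l (nat_lit 0x4040830020))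
 (.s (nat_lit 4) (nat_lit 0x15) (.s (nat_lit 4) (nat_lit 0x12) (.l (nat_lit 0x20090040830028))
 (.l (nat_lit 0x80282040010328))
) (.s (nat_lit 4) (nat_lit 0x18) (.s (nat_lit 4) (nat_lit 0x17) (.s (nat_lit 4) (nat_lit 0x16) (.l (nat_lit 0x23280040010328))
 (.l (nat_lit 0x23180082820228))
) (.l (nat_lit 0x40292001010228))
) (.s (nat_lit 4) (nat_lit 0x19) (.l (nat_lit 0x23280040010328))
 (.l (nat_lit 0x83280040010328))
)))) (.l (nat_lit 0x860040010320))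
))))) (.l (nat_lit 0x8800030018))
) (.z (nat_lit 2) (.s (nat_lit 3) (nat_lit 0x10) (.l (nat_lit 0x60020218))
 (.s (nat_lit 3) (nat_lit 0x16) (.s (nat_lit 3) (nat_lit 0x13) (.l (nat_lit 0x401180020220))
 (.s (nat_lit 3) (nat_lit 0x15) (.s (nat_lit 3) (nat_lit 0x14) (.l (nat_lit 0x4001a0020220))
 (.l (nat_lit 0x404000000120))
) (.l (nat_lit 0x460020810320))
)) (.s (nat_lit 3) (nat_lit 0x19) (.s (nat_lit 3) (nat_lit 0x18) (.s (nat_lit 3) (nat_lit 0x17) (.z (nat_lit 0) (.s (nat_lit 4) (nat_lit 0xe) (.l (nat_lit 0x8041c2010220))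
 (.s (nat_lit 4) (nat_lit 0x13) (.l (nat_lit 0x20011040000128))
 (.l (nat_lit 0x24202040008228))
)) (.l (nat_lit 0x4011c0020220))
) (.l (nat_lit 0x4040000120))
) (.l (nat_lit 0x4040000120))
) (.s (nat_lit 3) (nat_lit 0x1a) (.z (nat_lit 0) (.s (nat_lit 4) (nat_lit 0xf) (.l (nat_lit 0x4040830020))
 (.s (nat_lit 4) (nat_lit 0x15) (.s (nat_lit 4) (nat_lit 0x12) (.l (nat_lit 0x20090040830028))
 (.l (nat_lit 0x2280020810328))
) (.s (nat_lit 4) (nat_lit 0x18) (.s (nat_lit 4) (nat_lit 0x17) (.l (nat_lit 0x40292001010228))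
 (.l (nat_lit 0x60292001010028))
) (.s (nat_lit 4) (nat_lit 0x19) (.l (nat_lit 0x60292001010028))
 (.s (nat_lit 5) (nat_lit 0xf) (.l (nat_lit 0x12040830028))
 (.s (nat_lit 5) (nat_lit 0x15) (.s (nat_lit 5) (nat_lit 0x12) (.l (nat_lit 0x3008212040830030))
 (.l (nat_lit 0x2008312040830030))
) (.s (nat_lit 5) (nat_lit 0x18) (.l (nat_lit 0x3014900082830030))
 (.l (nat_lit 0x118c0041c0830030))
))))))) (.z (nat_lit 1) (.l (nat_lit 0x4000000120))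
 (.l (nat_lit 0x63001820320))
)) (.z (nat_lit 0) (.s (nat_lit 4) (nat_lit 0x10) (.l (nat_lit 0x4000000120))
 (.s (nat_lit 4) (nat_lit 0x16) (.s (nat_lit 4) (nat_lit 0x13) (.l (nat_lit 0x90000000128))
 (.l (nat_lit 0x20280040810328))
) (.s (nat_lit 4) (nat_lit 0x19) (.s (nat_lit 4) (nat_lit 0x18) (.l (nat_lit 0xa0290021820128))
 (.l (nat_lit 0x282040810328))
) (.l (nat_lit 0x292001820328))
))) (.l (nat_lit 0x63001820320))
))))) (.l (nat_lit 0x8800030018))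
)) (.z (nat_lit 2) (.s (nat_lit 3) (nat_lit 0x10) (.l (nat_lit 0x60020218))
 (.s (nat_lit 3) (nat_lit 0x16) (.s (nat_lit 3) (nat_lit 0x13) (.l (nat_lit 0x401180020220))
 (.s (nat_lit 3) (nat_lit 0x15) (.l (nat_lit 0x404000000120))
 (.l (nat_lit 0x404000000120))
)) (.s (nat_lit 3) (nat_lit 0x19) (.s (nat_lit 3) (nat_lit 0x18) (.l (nat_lit 0x4040000120))
 (.l (nat_lit 0x4040000120))
) (.s (nat_lit 3) (nat_lit 0x1b) (.s (nat_lit 3) (nat_lit 0x1a) (.z (nat_lit 0) (.s (nat_lit 4) (nat_lit 0xf) (.l (nat_lit 0x4040830020))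
 (.s (nat_lit 4) (nat_lit 0x15) (.s (nat_lit 4) (nat_lit 0x12) (.l (nat_lit 0x20010040830028))
 (.l (nat_lit 0x20011040830028))
) (.s (nat_lit 4) (nat_lit 0x18) (.l (nat_lit 0x40292001010228))
 (.s (nat_lit 4) (nat_lit 0x19) (.l (nat_lit 0x20010040830028))
 (.l (nat_lit 0x64200040818228))
)))) (.l (nat_lit 0x464000820020))
) (.z (nat_lit 0) (.s (nat_lit 4) (nat_lit 0x10) (.l (nat_lit 0x24000000120))
 (.s (nat_lit 4) (nat_lit 0x16) (.l (nat_lit 0x2280020810328))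
 (.s (nat_lit 4) (nat_lit 0x19) (.l (nat_lit 0x40292000008228))
 (.s (nat_lit 4) (nat_lit 0x1a) (.l (nat_lit 0x280040810328))
 (.l (nat_lit 0x280040810328))
)))) (.l (nat_lit 0x4040830020))
)) (.z (nat_lit 0) (.s (nat_lit 4) (nat_lit 0x10) (.l (nat_lit 0x24000000120))
 (.s (nat_lit 4) (nat_lit 0x16) (.l (nat_lit 0x282040810328))
 (.s (nat_lit 4) (nat_lit 0x19) (.l (nat_lit 0x40290001010228))
 (.l (nat_lit 0x4200041800228))
))) (.l (nat_lit 0x24000000120))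
))))) (.l (nat_lit 0x800000118))
))))) (.l (nat_lit 0x8000110))
)

theorem u29 : check tb r29 [30, 27, 0, 0, 0, 0, 0, 0, 0, 0, 0, 0, 0, 0, 0, 0, 0, 0]
    [31, 28, 28, 28, 28, 28, 28, 28, 28, 28, 28, 28, 28, 28, 28, 28, 28, 28] 0 10 0 = true := by decide +kernel

noncomputable def r30 : Rt :=
(.s (nat_lit 1) (nat_lit 0x1e) (.s (nat_lit 1) (nat_lit 0x1d) (.z (nat_lit 5) (.s (nat_lit 2) (nat_lit 0x11) (.l (nat_lit 0x820010))
 (.s (nat_lit 2) (nat_lit 0x17) (.s (nat_lit 2) (nat_lit 0x14) (.l (nat_lit 0x8800c30018))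
 (.s (nat_lit 2) (nat_lit 0x16) (.l (nat_lit 0x8060810318))
 (.l (nat_lit 0x800800118))
)) (.s (nat_lit 2) (nat_lit 0x1a) (.s (nat_lit 2) (nat_lit 0x19) (.s (nat_lit 2) (nat_lit 0x18) (.l (nat_lit 0x60800118))
 (.l (nat_lit 0x60800118))
) (.z (nat_lit 2) (.s (nat_lit 3) (nat_lit 0xf) (.l (nat_lit 0x60030018))
 (.s (nat_lit 3) (nat_lit 0x15) (.s (nat_lit 3) (nat_lit 0x12) (.l (nat_lit 0x804000030020))
 (.s (nat_lit 3) (nat_lit 0x14) (.l (nat_lit 0xc04000030020))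
 (.l (nat_lit 0x804040030020))
)) (.s (nat_lit 3) (nat_lit 0x18) (.s (nat_lit 3) (nat_lit 0x17) (.s (nat_lit 3) (nat_lit 0x16) (.l (nat_lit 0x1443000020020))
 (.z (nat_lit 0) (.s (nat_lit 4) (nat_lit 0xe) (.l (nat_lit 0x4040000120))
 (.s (nat_lit 4) (nat_lit 0x13) (.l (nat_lit 0x20011040000128))
 (.s (nat_lit 4) (nat_lit 0x15) (.l (nat_lit 0x3180142420228))
 (.l (nat_lit 0x3200142420228))
))) (.l (nat_lit 0x444000030020))
)) (.l (nat_lit 0x4040000120))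
) (.s (nat_lit 3) (nat_lit 0x19) (.l (nat_lit 0x4040000120))
 (.z (nat_lit 0) (.s (nat_lit 4) (nat_lit 0xf) (.l (nat_lit 0x4040830020))
 (.s (nat_lit 4) (nat_lit 0x15) (.s (nat_lit 4) (nat_lit 0x12) (.l (nat_lit 0x20090040830028))
 (.l (nat_lit 0xe0280040810328))
) (.s (nat_lit 4) (nat_lit 0x18) (.s (nat_lit 4) (nat_lit 0x17) (.s (nat_lit 4) (nat_lit 0x16) (.l (nat_lit 0x20011040830028))
 (.l (nat_lit 0xc0282040810328))
) (.l (nat_lit 0x80282040810328))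
) (.s (nat_lit 4) (nat_lit 0x19) (.l (nat_lit 0x282040810328))
 (.l (nat_lit 0x23180082830028))
)))) (.z (nat_lit 1) (.l (nat_lit 0x804040830020))
 (.l (nat_lit 0x442082810320))
)))))) (.l (nat_lit 0x8800030018))
)) (.s (nat_lit 2) (nat_lit 0x1c) (.s (nat_lit 2) (nat_lit 0x1b) (.z (nat_lit 2) (.s (nat_lit 3) (nat_lit 0x10) (.l (nat_lit 0x60020218))
 (.s (nat_lit 3) (nat_lit 0x16) (.s (nat_lit 3) (nat_lit 0x13) (.l (nat_lit 0x401180020220))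
 (.s (nat_lit 3) (nat_lit 0x15) (.l (nat_lit 0x404000000120))
 (.l (nat_lit 0x404000000120))
)) (.s (nat_lit 3) (nat_lit 0x19) (.s (nat_lit 3) (nat_lit 0x18) (.l (nat_lit 0x4040000120))
 (.l (nat_lit 0x4040000120))
) (.s (nat_lit 3) (nat_lit 0x1a) (.z (nat_lit 0) (.s (nat_lit 4) (nat_lit 0xf) (.l (nat_lit 0x4040830020))
 (.s (nat_lit 4) (nat_lit 0x15) (.s (nat_lit 4) (nat_lit 0x12) (.l (nat_lit 0x20010040830028))
 (.l (nat_lit 0x20011040830028))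
) (.s (nat_lit 4) (nat_lit 0x18) (.s (nat_lit 4) (nat_lit 0x17) (.l (nat_lit 0x40292001010228))
 (.l (nat_lit 0x11000000128))
) (.s (nat_lit 4) (nat_lit 0x19) (.l (nat_lit 0x20010040830028))
 (.s (nat_lit 5) (nat_lit 0xf) (.l (nat_lit 0x12040830028))
 (.s (nat_lit 5) (nat_lit 0x15) (.l (nat_lit 0x3014900082830030))
 (.s (nat_lit 5) (nat_lit 0x18) (.l (nat_lit 0x3014800082830030))
 (.l (nat_lit 0x2008212040830030))
))))))) (.l (nat_lit 0x404040810320))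
) (.z (nat_lit 0) (.s (nat_lit 4) (nat_lit 0x10) (.l (nat_lit 0x24000000120))
 (.s (nat_lit 4) (nat_lit 0x16) (.l (nat_lit 0x2280020810328))
 (.s (nat_lit 4) (nat_lit 0x19) (.l (nat_lit 0x4020e082800128))
 (.l (nat_lit 0x31800c2010328))
))) (.l (nat_lit 0x24000000120))
))))) (.l (nat_lit 0x8800030018))
) (.z (nat_lit 1) (.s (nat_lit 3) (nat_lit 0x10) (.l (nat_lit 0x60020218))
 (.s (nat_lit 3) (nat_lit 0x16) (.s (nat_lit 3) (nat_lit 0x13) (.l (nat_lit 0x401180020220))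
 (.l (nat_lit 0x460020810320))
) (.s (nat_lit 3) (nat_lit 0x19) (.s (nat_lit 3) (nat_lit 0x18) (.l (nat_lit 0x4040000120))
 (.l (nat_lit 0x4040830020))
) (.s (nat_lit 3) (nat_lit 0x1b) (.s (nat_lit 3) (nat_lit 0x1a) (.z (nat_lit 0) (.s (nat_lit 4) (nat_lit 0xf) (.l (nat_lit 0x4040830020))
 (.s (nat_lit 4) (nat_lit 0x15) (.l (nat_lit 0x2280020810328))
 (.s (nat_lit 4) (nat_lit 0x18) (.l (nat_lit 0x40282040810328))
 (.s (nat_lit 4) (nat_lit 0x19) (.l (nat_lit 0x20010040830028))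
 (.l (nat_lit 0x280040810328))
)))) (.l (nat_lit 0x4040830020))
) (.z (nat_lit 0) (.s (nat_lit 4) (nat_lit 0x10) (.l (nat_lit 0x24000000120))
 (.s (nat_lit 4) (nat_lit 0x16) (.l (nat_lit 0x282040810328))
 (.s (nat_lit 4) (nat_lit 0x19) (.l (nat_lit 0x4020e082800128))
 (.l (nat_lit 0x280040810328))
))) (.l (nat_lit 0x24000000120))
)) (.l (nat_lit 0x24000000120))
)))) (.l (nat_lit 0x800000118))
)) (.z (nat_lit 0) (.s (nat_lit 3) (nat_lit 0x11) (.l (nat_lit 0x60000118))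
 (.s (nat_lit 3) (nat_lit 0x17) (.s (nat_lit 3) (nat_lit 0x14) (.l (nat_lit 0x4000000120))
 (.l (nat_lit 0x4040000120))
) (.s (nat_lit 3) (nat_lit 0x1a) (.s (nat_lit 3) (nat_lit 0x19) (.l (nat_lit 0x4040000120))
 (.l (nat_lit 0x24000000120))
) (.l (nat_lit 0x24000000120))
))) (.l (nat_lit 0x60000118))
))))) (.l (nat_lit 0x8000110))
) (.z (nat_lit 5) (.s (nat_lit 2) (nat_lit 0x11) (.l (nat_lit 0x820010))
 (.s (nat_lit 2) (nat_lit 0x18) (.s (nat_lit 2) (nat_lit 0x15) (.s (nat_lit 2) (nat_lit 0x13) (.l (nat_lit 0x18800020018))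
 (.l (nat_lit 0x8060000118))
) (.s (nat_lit 2) (nat_lit 0x17) (.l (nat_lit 0x800800118))
 (.l (nat_lit 0x60800118))
)) (.s (nat_lit 2) (nat_lit 0x1b) (.s (nat_lit 2) (nat_lit 0x1a) (.s (nat_lit 2) (nat_lit 0x19) (.l (nat_lit 0x60800118))
 (.z (nat_lit 0) (.s (nat_lit 3) (nat_lit 0xf) (.l (nat_lit 0x60030018))
 (.s (nat_lit 3) (nat_lit 0x15) (.s (nat_lit 3) (nat_lit 0x12) (.l (nat_lit 0x804000030020))
 (.l (nat_lit 0x4040000120))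
) (.s (nat_lit 3) (nat_lit 0x18) (.s (nat_lit 3) (nat_lit 0x17) (.s (nat_lit 3) (nat_lit 0x16) (.l (nat_lit 0x804040030020))
 (.l (nat_lit 0x4011c0020220))
) (.l (nat_lit 0x404000000120))
) (.s (nat_lit 3) (nat_lit 0x19) (.l (nat_lit 0x444000030020))
 (.s (nat_lit 4) (nat_lit 0xf) (.l (nat_lit 0x4040830020))
 (.s (nat_lit 4) (nat_lit 0x15) (.l (nat_lit 0x82280020810328))
 (.s (nat_lit 4) (nat_lit 0x18) (.l (nat_lit 0xa2280000810328))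
 (.s (nat_lit 4) (nat_lit 0x19) (.l (nat_lit 0x20010040830028))
 (.l (nat_lit 0xc0280040810328))
)))))))) (.z (nat_lit 1) (.l (nat_lit 0x8060810318))
 (.l (nat_lit 0x60000118))
))) (.z (nat_lit 0) (.s (nat_lit 3) (nat_lit 0x10) (.l (nat_lit 0x60020218))
 (.s (nat_lit 3) (nat_lit 0x16) (.s (nat_lit 3) (nat_lit 0x13) (.l (nat_lit 0x401180020220))
 (.l (nat_lit 0x460020810320))
) (.s (nat_lit 3) (nat_lit 0x19) (.s (nat_lit 3) (nat_lit 0x18) (.l (nat_lit 0x4040000120))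
 (.l (nat_lit 0x404000000120))
) (.s (nat_lit 3) (nat_lit 0x1a) (.s (nat_lit 4) (nat_lit 0xf) (.l (nat_lit 0x4040830020))
 (.s (nat_lit 4) (nat_lit 0x15) (.l (nat_lit 0x101000000810328))
 (.s (nat_lit 4) (nat_lit 0x18) (.l (nat_lit 0x282040810328))
 (.s (nat_lit 4) (nat_lit 0x19) (.l (nat_lit 0x20010040830028))
 (.l (nat_lit 0x280040810328))
)))) (.l (nat_lit 0x24000000120))
)))) (.l (nat_lit 0x800000118))
)) (.s (nat_lit 2) (nat_lit 0x1d) (.s (nat_lit 2) (nat_lit 0x1c) (.z (nat_lit 0) (.s (nat_lit 3) (nat_lit 0x10) (.l (nat_lit 0x60020218))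
 (.s (nat_lit 3) (nat_lit 0x16) (.s (nat_lit 3) (nat_lit 0x13) (.l (nat_lit 0x1180020220))
 (.l (nat_lit 0x4040000120))
) (.s (nat_lit 3) (nat_lit 0x19) (.l (nat_lit 0x4040000120))
 (.l (nat_lit 0x24000000120))
))) (.l (nat_lit 0x60000118))
) (.z (nat_lit 0) (.s (nat_lit 3) (nat_lit 0x11) (.l (nat_lit 0x60830018))
 (.s (nat_lit 3) (nat_lit 0x17) (.s (nat_lit 3) (nat_lit 0x14) (.l (nat_lit 0x4000830020))
 (.l (nat_lit 0x4011c0020220))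
) (.s (nat_lit 3) (nat_lit 0x1a) (.s (nat_lit 3) (nat_lit 0x19) (.l (nat_lit 0x4040830020))
 (.l (nat_lit 0x24000000120))
) (.s (nat_lit 3) (nat_lit 0x1c) (.l (nat_lit 0x24000000120))
 (.l (nat_lit 0x4000830020))
)))) (.l (nat_lit 0x800830018))
)) (.l (nat_lit 0x60020218))
)))) (.l (nat_lit 0x820210))
)) (.z (nat_lit 6) (.s (nat_lit 2) (nat_lit 0x12) (.l (nat_lit 0x820010))
 (.s (nat_lit 2) (nat_lit 0x19) (.s (nat_lit 2) (nat_lit 0x16) (.l (nat_lit 0x800820218))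
 (.l (nat_lit 0x60800118))
) (.s (nat_lit 2) (nat_lit 0x1c) (.s (nat_lit 2) (nat_lit 0x1b) (.s (nat_lit 2) (nat_lit 0x1a) (.z (nat_lit 0) (.s (nat_lit 3) (nat_lit 0xf) (.l (nat_lit 0x60030018))
 (.s (nat_lit 3) (nat_lit 0x15) (.s (nat_lit 3) (nat_lit 0x12) (.l (nat_lit 0x804000030020))
 (.l (nat_lit 0x804040030020))
) (.s (nat_lit 3) (nat_lit 0x18) (.s (nat_lit 3) (nat_lit 0x17) (.l (nat_lit 0x4040000120))
 (.l (nat_lit 0x444000030020))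
) (.s (nat_lit 3) (nat_lit 0x19) (.l (nat_lit 0x44000030020))
 (.l (nat_lit 0xc04040810320))
)))) (.l (nat_lit 0x60000118))
) (.z (nat_lit 0) (.s (nat_lit 3) (nat_lit 0x10) (.l (nat_lit 0x60020218))
 (.s (nat_lit 3) (nat_lit 0x16) (.s (nat_lit 3) (nat_lit 0x13) (.l (nat_lit 0x1180020220))
 (.l (nat_lit 0x4040000120))
) (.s (nat_lit 3) (nat_lit 0x19) (.l (nat_lit 0x4040000120))
 (.l (nat_lit 0x24000000120))
))) (.l (nat_lit 0x800000118))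
)) (.z (nat_lit 0) (.s (nat_lit 3) (nat_lit 0x10) (.l (nat_lit 0x60020218))
 (.s (nat_lit 3) (nat_lit 0x16) (.s (nat_lit 3) (nat_lit 0x13) (.l (nat_lit 0x1180020220))
 (.l (nat_lit 0x4011c0020220))
) (.s (nat_lit 3) (nat_lit 0x19) (.l (nat_lit 0x4040830020))
 (.s (nat_lit 3) (nat_lit 0x1b) (.l (nat_lit 0x24000000120))
 (.l (nat_lit 0x4000830020))
)))) (.l (nat_lit 0x800830018))
)) (.s (nat_lit 2) (nat_lit 0x1e) (.s (nat_lit 2) (nat_lit 0x1d) (.z (nat_lit 0) (.s (nat_lit 3) (nat_lit 0x11) (.l (nat_lit 0x60830018))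
 (.s (nat_lit 3) (nat_lit 0x17) (.s (nat_lit 3) (nat_lit 0x14) (.l (nat_lit 0x4000830020))
 (.l (nat_lit 0x4040830020))
) (.s (nat_lit 3) (nat_lit 0x1a) (.l (nat_lit 0x24000000120))
 (.l (nat_lit 0x4000830020))
))) (.l (nat_lit 0x60830018))
) (.l (nat_lit 0x60020218))
) (.z (nat_lit 0) (.s (nat_lit 3) (nat_lit 0x12) (.l (nat_lit 0x60020218))
 (.s (nat_lit 3) (nat_lit 0x19) (.s (nat_lit 3) (nat_lit 0x16) (.l (nat_lit 0x4001a0020220))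
 (.l (nat_lit 0x180020220))
) (.s (nat_lit 3) (nat_lit 0x1c) (.l (nat_lit 0x404000810320))
 (.l (nat_lit 0x404000810320))
))) (.l (nat_lit 0x60830018))
))))) (.l (nat_lit 0x8020210))
))

theorem u30 : check tb r30 [30, 28, 0, 0, 0, 0, 0, 0, 0, 0, 0, 0, 0, 0, 0, 0, 0, 0]
    [31, 31, 31, 31, 31, 31, 31, 31, 31, 31, 31, 31, 31, 31, 31, 31, 31, 31] 0 10 0 = true := by decide +kernel

noncomputable def r31 : Rt :=
(.l (nat_lit 0x8208))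


theorem u31 : check tb r31 [30, 0, 0, 0, 0, 0, 0, 0, 0, 0, 0, 0, 0, 0, 0, 0, 0, 0]
    [31, 31, 31, 31, 31, 31, 31, 31, 31, 31, 31, 31, 31, 31, 31, 31, 31, 31] 11 97 0 = true := by decide +kernel

noncomputable def r32 : Rt :=
(.l (nat_lit 8))


theorem u32 : check tb r32 [31, 0, 0, 0, 0, 0, 0, 0, 0, 0, 0, 0, 0, 0, 0, 0, 0, 0]
    [32, 18, 18, 18, 18, 18, 18, 18, 18, 18, 18, 18, 18, 18, 18, 18, 18, 18] 0 10 0 = true := by decide +kernel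

noncomputable def r33 : Rt :=
(.s (nat_lit 1) (nat_lit 0x16) (.s (nat_lit 1) (nat_lit 0x14) (.s (nat_lit 1) (nat_lit 0x13) (.l (nat_lit 0x100820010))
 (.l (nat_lit 0x100830010))
) (.s (nat_lit 1) (nat_lit 0x15) (.z (nat_lit 0) (.s (nat_lit 2) (nat_lit 0xd) (.l (nat_lit 0x108000010))
 (.s (nat_lit 2) (nat_lit 0x11) (.l (nat_lit 0x18800020018))
 (.s (nat_lit 2) (nat_lit 0x13) (.l (nat_lit 0x18800830018))
 (.s (nat_lit 2) (nat_lit 0x14) (.l (nat_lit 0x18060830218))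
 (.s (nat_lit 3) (nat_lit 0xd) (.l (nat_lit 0x60830218))
 (.s (nat_lit 3) (nat_lit 0x11) (.l (nat_lit 0x404000830220))
 (.s (nat_lit 3) (nat_lit 0x13) (.l (nat_lit 0x1c04040830220))
 (.s (nat_lit 3) (nat_lit 0x14) (.l (nat_lit 0x460060810120))
 (.s (nat_lit 4) (nat_lit 0xd) (.l (nat_lit 0x64000028220))
 (.s (nat_lit 4) (nat_lit 0x11) (.l (nat_lit 0x100090000028228))
 (.s (nat_lit 4) (nat_lit 0x13) (.l (nat_lit 0x100013000028228))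
 (.s (nat_lit 4) (nat_lit 0x14) (.l (nat_lit 0x100013000028228))
 (.l (nat_lit 0x4200001010228))
)))))))))))) (.l (nat_lit 0x100800310))
) (.z (nat_lit 0) (.s (nat_lit 2) (nat_lit 0xd) (.l (nat_lit 0x108000010))
 (.s (nat_lit 2) (nat_lit 0x12) (.l (nat_lit 0x18800030018))
 (.s (nat_lit 2) (nat_lit 0x14) (.s (nat_lit 2) (nat_lit 0x13) (.l (nat_lit 0x18060830018))
 (.l (nat_lit 0x8060830218))
) (.s (nat_lit 2) (nat_lit 0x15) (.s (nat_lit 3) (nat_lit 0xd) (.l (nat_lit 0x60830218))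
 (.s (nat_lit 3) (nat_lit 0x11) (.l (nat_lit 0x404000830220))
 (.s (nat_lit 3) (nat_lit 0x13) (.l (nat_lit 0x404040830220))
 (.s (nat_lit 3) (nat_lit 0x14) (.l (nat_lit 0x404040830220))
 (.s (nat_lit 4) (nat_lit 0xd) (.l (nat_lit 0x64000028220))
 (.s (nat_lit 4) (nat_lit 0x11) (.l (nat_lit 0x100090000028228))
 (.s (nat_lit 4) (nat_lit 0x13) (.l (nat_lit 0x100090000028228))
 (.s (nat_lit 4) (nat_lit 0x14) (.l (nat_lit 0x100011000028228))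
 (.s (nat_lit 5) (nat_lit 0xd) (.l (nat_lit 0x3280000410128))
 (.s (nat_lit 5) (nat_lit 0x11) (.l (nat_lit 0x8004a00000410130))
 (.s (nat_lit 5) (nat_lit 0x13) (.l (nat_lit 0x8000a80000410130))
 (.l (nat_lit 0x1210000082830230))
))))))))))) (.s (nat_lit 3) (nat_lit 0xd) (.l (nat_lit 0x860028218))
 (.s (nat_lit 3) (nat_lit 0x12) (.l (nat_lit 0x64000028220))
 (.s (nat_lit 3) (nat_lit 0x14) (.l (nat_lit 0x64000028220))
 (.l (nat_lit 0x63001030320))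
))))))) (.l (nat_lit 0x100800310))
))) (.s (nat_lit 1) (nat_lit 0x18) (.s (nat_lit 1) (nat_lit 0x17) (.z (nat_lit 1) (.s (nat_lit 2) (nat_lit 0xe) (.l (nat_lit 0x108000010))
 (.s (nat_lit 2) (nat_lit 0x13) (.l (nat_lit 0x18800830018))
 (.s (nat_lit 2) (nat_lit 0x15) (.s (nat_lit 2) (nat_lit 0x14) (.l (nat_lit 0x18800400118))
 (.z (nat_lit 0) (.s (nat_lit 3) (nat_lit 0xd) (.l (nat_lit 0x60830218))
 (.s (nat_lit 3) (nat_lit 0x11) (.l (nat_lit 0x404000830220))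
 (.s (nat_lit 3) (nat_lit 0x13) (.l (nat_lit 0x404000830220))
 (.s (nat_lit 3) (nat_lit 0x14) (.l (nat_lit 0xc04000830220))
 (.s (nat_lit 4) (nat_lit 0xd) (.l (nat_lit 0x4040830220))
 (.s (nat_lit 4) (nat_lit 0x11) (.l (nat_lit 0x20090040830228))
 (.s (nat_lit 4) (nat_lit 0x13) (.l (nat_lit 0x20013040830228))
 (.s (nat_lit 4) (nat_lit 0x14) (.l (nat_lit 0x180011000420228))
 (.s (nat_lit 5) (nat_lit 0xd) (.l (nat_lit 0x3280000410128))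
 (.s (nat_lit 5) (nat_lit 0x11) (.l (nat_lit 0x8004a00000410130))
 (.s (nat_lit 5) (nat_lit 0x13) (.l (nat_lit 0x8000a80000410130))
 (.l (nat_lit 0x210000082830230))
))))))))))) (.l (nat_lit 0x18060000118))
)) (.s (nat_lit 2) (nat_lit 0x16) (.z (nat_lit 0) (.s (nat_lit 3) (nat_lit 0xd) (.l (nat_lit 0x60830218))
 (.s (nat_lit 3) (nat_lit 0x12) (.l (nat_lit 0x404000830220))
 (.s (nat_lit 3) (nat_lit 0x14) (.l (nat_lit 0x404040830220))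
 (.s (nat_lit 3) (nat_lit 0x15) (.s (nat_lit 4) (nat_lit 0xd) (.l (nat_lit 0x4040830220))
 (.s (nat_lit 4) (nat_lit 0x11) (.l (nat_lit 0x20090040830228))
 (.s (nat_lit 4) (nat_lit 0x13) (.l (nat_lit 0x20013040830228))
 (.s (nat_lit 4) (nat_lit 0x14) (.l (nat_lit 0x60013040830228))
 (.l (nat_lit 0x82280020010128))
)))) (.l (nat_lit 0xc60020010120))
)))) (.l (nat_lit 0x18060800318))
) (.z (nat_lit 0) (.s (nat_lit 3) (nat_lit 0xe) (.l (nat_lit 0x60830218))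
 (.s (nat_lit 3) (nat_lit 0x13) (.l (nat_lit 0x1802040020220))
 (.s (nat_lit 3) (nat_lit 0x15) (.s (nat_lit 3) (nat_lit 0x14) (.l (nat_lit 0x404000830220))
 (.l (nat_lit 0x404040810120))
) (.s (nat_lit 3) (nat_lit 0x16) (.s (nat_lit 4) (nat_lit 0xd) (.l (nat_lit 0x4040820220))
 (.s (nat_lit 4) (nat_lit 0x12) (.l (nat_lit 0x20090040820228))
 (.s (nat_lit 4) (nat_lit 0x14) (.l (nat_lit 0x120011040820228))
 (.s (nat_lit 4) (nat_lit 0x15) (.l (nat_lit 0x140282000800128))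
 (.s (nat_lit 5) (nat_lit 0xd) (.l (nat_lit 0x2280020810128))
 (.s (nat_lit 5) (nat_lit 0x12) (.l (nat_lit 0x4004a00020810130))
 (.s (nat_lit 5) (nat_lit 0x14) (.l (nat_lit 0x4004a00020810130))
 (.l (nat_lit 0x12080212040820230))
))))))) (.s (nat_lit 4) (nat_lit 0xe) (.l (nat_lit 0x4040830220))
 (.s (nat_lit 4) (nat_lit 0x13) (.l (nat_lit 0x20013040830228))
 (.s (nat_lit 4) (nat_lit 0x15) (.l (nat_lit 0x4200001010228))
 (.s (nat_lit 4) (nat_lit 0x16) (.l (nat_lit 0x292001030128))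
 (.l (nat_lit 0x80092000430228))
)))))))) (.l (nat_lit 0x18800020218))
))))) (.l (nat_lit 0x810110))
) (.z (nat_lit 1) (.s (nat_lit 2) (nat_lit 0xe) (.l (nat_lit 0x108000010))
 (.s (nat_lit 2) (nat_lit 0x13) (.l (nat_lit 0x8800c30218))
 (.s (nat_lit 2) (nat_lit 0x16) (.s (nat_lit 2) (nat_lit 0x15) (.s (nat_lit 2) (nat_lit 0x14) (.l (nat_lit 0x18800400118))
 (.l (nat_lit 0x8060810118))
) (.l (nat_lit 0x8800410118))
) (.s (nat_lit 2) (nat_lit 0x17) (.z (nat_lit 0) (.s (nat_lit 3) (nat_lit 0xe) (.l (nat_lit 0x60830218))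
 (.s (nat_lit 3) (nat_lit 0x13) (.l (nat_lit 0x1000000830220))
 (.s (nat_lit 3) (nat_lit 0x15) (.s (nat_lit 3) (nat_lit 0x14) (.l (nat_lit 0x404000830220))
 (.l (nat_lit 0x404000810120))
) (.s (nat_lit 3) (nat_lit 0x16) (.l (nat_lit 0x460020810120))
 (.l (nat_lit 0x44000430220))
)))) (.l (nat_lit 0x18060000118))
) (.z (nat_lit 0) (.s (nat_lit 3) (nat_lit 0xe) (.l (nat_lit 0x60830218))
 (.s (nat_lit 3) (nat_lit 0x13) (.l (nat_lit 0x404000830220))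
 (.s (nat_lit 3) (nat_lit 0x16) (.s (nat_lit 3) (nat_lit 0x15) (.l (nat_lit 0x4040810120))
 (.l (nat_lit 0x460020810120))
) (.l (nat_lit 0x63001030120))
))) (.l (nat_lit 0x18060000118))
))))) (.l (nat_lit 0x100800110))
)) (.z (nat_lit 2) (.s (nat_lit 2) (nat_lit 0xf) (.l (nat_lit 0x108000010))
 (.s (nat_lit 2) (nat_lit 0x14) (.s (nat_lit 2) (nat_lit 0x12) (.l (nat_lit 0x8800830018))
 (.l (nat_lit 0x18800400118))
) (.s (nat_lit 2) (nat_lit 0x17) (.s (nat_lit 2) (nat_lit 0x16) (.s (nat_lit 2) (nat_lit 0x15) (.l (nat_lit 0x8060010118))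
 (.l (nat_lit 0x18060810318))
) (.z (nat_lit 0) (.s (nat_lit 3) (nat_lit 0xe) (.l (nat_lit 0x60830218))
 (.s (nat_lit 3) (nat_lit 0x13) (.l (nat_lit 0x404000830220))
 (.s (nat_lit 3) (nat_lit 0x15) (.l (nat_lit 0x4040810120))
 (.l (nat_lit 0x44000430220))
))) (.l (nat_lit 0x18060000118))
)) (.s (nat_lit 2) (nat_lit 0x18) (.l (nat_lit 0x60810118))
 (.l (nat_lit 0x60810118))
)))) (.l (nat_lit 0x830210))
)))

theorem u33 : check tb r33 [31, 18, 0, 0, 0, 0, 0, 0, 0, 0, 0, 0, 0, 0, 0, 0, 0, 0]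
    [32, 25, 25, 25, 25, 25, 25, 25, 25, 25, 25, 25, 25, 25, 25, 25, 25, 25] 0 10 0 = true := by decide +kernel

noncomputable def r34 : Rt :=
(.s (nat_lit 1) (nat_lit 0x1a) (.z (nat_lit 3) (.s (nat_lit 2) (nat_lit 0xf) (.l (nat_lit 0x108000010))
 (.s (nat_lit 2) (nat_lit 0x15) (.s (nat_lit 2) (nat_lit 0x12) (.l (nat_lit 0x18800c20018))
 (.s (nat_lit 2) (nat_lit 0x14) (.l (nat_lit 0x8800400118))
 (.l (nat_lit 0x8060010118))
)) (.s (nat_lit 2) (nat_lit 0x18) (.s (nat_lit 2) (nat_lit 0x17) (.s (nat_lit 2) (nat_lit 0x16) (.l (nat_lit 0x60810118))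
 (.l (nat_lit 0x60810118))
) (.l (nat_lit 0x8060010118))
) (.s (nat_lit 2) (nat_lit 0x19) (.l (nat_lit 0x60810118))
 (.l (nat_lit 0x800830218))
)))) (.l (nat_lit 0x8010110))
) (.z (nat_lit 4) (.s (nat_lit 2) (nat_lit 0x10) (.l (nat_lit 0x820010))
 (.s (nat_lit 2) (nat_lit 0x16) (.s (nat_lit 2) (nat_lit 0x13) (.l (nat_lit 0x8800400118))
 (.s (nat_lit 2) (nat_lit 0x15) (.s (nat_lit 2) (nat_lit 0x14) (.l (nat_lit 0x18060830018))
 (.l (nat_lit 0x18060810318))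
) (.l (nat_lit 0x18060810318))
)) (.s (nat_lit 2) (nat_lit 0x19) (.s (nat_lit 2) (nat_lit 0x18) (.s (nat_lit 2) (nat_lit 0x17) (.z (nat_lit 1) (.s (nat_lit 3) (nat_lit 0xe) (.l (nat_lit 0x60820218))
 (.s (nat_lit 3) (nat_lit 0x13) (.l (nat_lit 0x404000820220))
 (.s (nat_lit 3) (nat_lit 0x15) (.s (nat_lit 3) (nat_lit 0x14) (.l (nat_lit 0x4000820220))
 (.l (nat_lit 0xc60060000120))
) (.s (nat_lit 3) (nat_lit 0x16) (.z (nat_lit 0) (.s (nat_lit 4) (nat_lit 0xd) (.l (nat_lit 0x64000820220))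
 (.s (nat_lit 4) (nat_lit 0x12) (.l (nat_lit 0x90000820228))
 (.s (nat_lit 4) (nat_lit 0x14) (.l (nat_lit 0x11000820228))
 (.l (nat_lit 0x3280000410328))
))) (.l (nat_lit 0xc04000000120))
) (.z (nat_lit 0) (.s (nat_lit 4) (nat_lit 0xe) (.l (nat_lit 0x64000820220))
 (.s (nat_lit 4) (nat_lit 0x13) (.l (nat_lit 0x90000820228))
 (.s (nat_lit 4) (nat_lit 0x15) (.s (nat_lit 4) (nat_lit 0x14) (.l (nat_lit 0x90000820228))
 (.l (nat_lit 0x13000820228))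
) (.l (nat_lit 0x92000820228))
))) (.l (nat_lit 0x64000820220))
))))) (.l (nat_lit 0x8060000118))
) (.z (nat_lit 0) (.s (nat_lit 3) (nat_lit 0xe) (.l (nat_lit 0x60820218))
 (.s (nat_lit 3) (nat_lit 0x13) (.l (nat_lit 0x4000820220))
 (.s (nat_lit 3) (nat_lit 0x16) (.s (nat_lit 3) (nat_lit 0x15) (.l (nat_lit 0x460000800120))
 (.l (nat_lit 0x1c04040810320))
) (.s (nat_lit 3) (nat_lit 0x17) (.l (nat_lit 0x64000820220))
 (.l (nat_lit 0x64000820220))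
)))) (.l (nat_lit 0x800820218))
)) (.z (nat_lit 1) (.s (nat_lit 3) (nat_lit 0xf) (.l (nat_lit 0x60820218))
 (.s (nat_lit 3) (nat_lit 0x14) (.l (nat_lit 0x4000820220))
 (.s (nat_lit 3) (nat_lit 0x17) (.l (nat_lit 0x64000820220))
 (.s (nat_lit 3) (nat_lit 0x18) (.l (nat_lit 0x4040800120))
 (.l (nat_lit 0x4040800120))
)))) (.l (nat_lit 0x60800118))
)) (.s (nat_lit 2) (nat_lit 0x1a) (.z (nat_lit 2) (.s (nat_lit 3) (nat_lit 0xf) (.l (nat_lit 0x60820018))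
 (.s (nat_lit 3) (nat_lit 0x15) (.s (nat_lit 3) (nat_lit 0x12) (.l (nat_lit 0x1c04000820020))
 (.l (nat_lit 0x464000820220))
) (.s (nat_lit 3) (nat_lit 0x18) (.s (nat_lit 3) (nat_lit 0x17) (.s (nat_lit 3) (nat_lit 0x16) (.l (nat_lit 0x64000820220))
 (.l (nat_lit 0x4040800120))
) (.l (nat_lit 0x404000800120))
) (.s (nat_lit 3) (nat_lit 0x19) (.l (nat_lit 0x4040800120))
 (.l (nat_lit 0x4040800120))
)))) (.l (nat_lit 0x60800118))
) (.z (nat_lit 3) (.s (nat_lit 3) (nat_lit 0x10) (.l (nat_lit 0x60020218))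
 (.s (nat_lit 3) (nat_lit 0x16) (.s (nat_lit 3) (nat_lit 0x13) (.l (nat_lit 0x4001e0020220))
 (.l (nat_lit 0x63001030120))
) (.s (nat_lit 3) (nat_lit 0x19) (.s (nat_lit 3) (nat_lit 0x18) (.s (nat_lit 3) (nat_lit 0x17) (.z (nat_lit 0) (.s (nat_lit 4) (nat_lit 0xe) (.l (nat_lit 0x4040000120))
 (.s (nat_lit 4) (nat_lit 0x13) (.l (nat_lit 0x120011040820028))
 (.s (nat_lit 4) (nat_lit 0x15) (.l (nat_lit 0x1c0282040800328))
 (.s (nat_lit 4) (nat_lit 0x16) (.l (nat_lit 0x2228a1c1010228))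
 (.l (nat_lit 0x40292001010228))
)))) (.l (nat_lit 0x404000000120))
) (.z (nat_lit 0) (.s (nat_lit 4) (nat_lit 0xe) (.l (nat_lit 0x4040830020))
 (.s (nat_lit 4) (nat_lit 0x13) (.l (nat_lit 0x1a0011000820028))
 (.s (nat_lit 4) (nat_lit 0x16) (.l (nat_lit 0x4200000008228))
 (.l (nat_lit 0x4200041800028))
))) (.l (nat_lit 0x404000000120))
)) (.z (nat_lit 0) (.s (nat_lit 4) (nat_lit 0xf) (.l (nat_lit 0x4040830020))
 (.s (nat_lit 4) (nat_lit 0x14) (.l (nat_lit 0x4200000008228))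
 (.s (nat_lit 4) (nat_lit 0x17) (.s (nat_lit 4) (nat_lit 0x16) (.l (nat_lit 0x4200000008228))
 (.l (nat_lit 0x60290000008228))
) (.l (nat_lit 0x40292001010228))
))) (.l (nat_lit 0x404000000120))
)) (.s (nat_lit 3) (nat_lit 0x1a) (.z (nat_lit 0) (.s (nat_lit 4) (nat_lit 0xf) (.l (nat_lit 0x64000820020))
 (.s (nat_lit 4) (nat_lit 0x15) (.l (nat_lit 0x22881c1030128))
 (.s (nat_lit 4) (nat_lit 0x18) (.l (nat_lit 0x40292041820128))
 (.l (nat_lit 0x802821c1030128))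
))) (.l (nat_lit 0x4040000120))
) (.l (nat_lit 0x63001820320))
)))) (.l (nat_lit 0x10060800318))
))))) (.l (nat_lit 0x810310))
))

theorem u34 : check tb r34 [31, 25, 0, 0, 0, 0, 0, 0, 0, 0, 0, 0, 0, 0, 0, 0, 0, 0]
    [32, 27, 27, 27, 27, 27, 27, 27, 27, 27, 27, 27, 27, 27, 27, 27, 27, 27] 0 10 0 = true := by decide +kernel

noncomputable def r35 : Rt :=
(.s (nat_lit 1) (nat_lit 0x1c) (.z (nat_lit 5) (.s (nat_lit 2) (nat_lit 0x10) (.l (nat_lit 0x820010))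
 (.s (nat_lit 2) (nat_lit 0x16) (.s (nat_lit 2) (nat_lit 0x13) (.l (nat_lit 0x8800c30018))
 (.s (nat_lit 2) (nat_lit 0x15) (.s (nat_lit 2) (nat_lit 0x14) (.l (nat_lit 0x8060830018))
 (.l (nat_lit 0x8060800118))
) (.l (nat_lit 0x8060810318))
)) (.s (nat_lit 2) (nat_lit 0x19) (.s (nat_lit 2) (nat_lit 0x18) (.s (nat_lit 2) (nat_lit 0x17) (.z (nat_lit 0) (.s (nat_lit 3) (nat_lit 0xe) (.l (nat_lit 0x60820218))
 (.s (nat_lit 3) (nat_lit 0x13) (.l (nat_lit 0x4000820220))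
 (.s (nat_lit 3) (nat_lit 0x15) (.l (nat_lit 0x460000800120))
 (.l (nat_lit 0x64000820220))
))) (.l (nat_lit 0x8060000118))
) (.z (nat_lit 0) (.s (nat_lit 3) (nat_lit 0xe) (.l (nat_lit 0x60820218))
 (.s (nat_lit 3) (nat_lit 0x13) (.l (nat_lit 0x4000820220))
 (.s (nat_lit 3) (nat_lit 0x16) (.s (nat_lit 3) (nat_lit 0x15) (.l (nat_lit 0x4000820220))
 (.l (nat_lit 0x64000820220))
) (.s (nat_lit 3) (nat_lit 0x17) (.l (nat_lit 0x64000820220))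
 (.l (nat_lit 0x4040800120))
)))) (.l (nat_lit 0x8060000118))
)) (.z (nat_lit 0) (.s (nat_lit 3) (nat_lit 0xf) (.l (nat_lit 0x60820218))
 (.s (nat_lit 3) (nat_lit 0x14) (.l (nat_lit 0x4000820220))
 (.s (nat_lit 3) (nat_lit 0x17) (.s (nat_lit 3) (nat_lit 0x16) (.l (nat_lit 0x64000820220))
 (.l (nat_lit 0x404000800120))
) (.l (nat_lit 0x4040800120))
))) (.l (nat_lit 0x8060000118))
)) (.s (nat_lit 2) (nat_lit 0x1b) (.s (nat_lit 2) (nat_lit 0x1a) (.z (nat_lit 1) (.s (nat_lit 3) (nat_lit 0xf) (.l (nat_lit 0x60030018))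
 (.s (nat_lit 3) (nat_lit 0x15) (.s (nat_lit 3) (nat_lit 0x12) (.l (nat_lit 0xc04000030020))
 (.l (nat_lit 0x64000820220))
) (.s (nat_lit 3) (nat_lit 0x18) (.s (nat_lit 3) (nat_lit 0x17) (.l (nat_lit 0x4040800120))
 (.l (nat_lit 0x404000800120))
) (.l (nat_lit 0x4040800120))
))) (.l (nat_lit 0x60800118))
) (.z (nat_lit 2) (.s (nat_lit 3) (nat_lit 0x10) (.l (nat_lit 0x60020218))
 (.s (nat_lit 3) (nat_lit 0x16) (.s (nat_lit 3) (nat_lit 0x13) (.l (nat_lit 0x4001e0020220))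
 (.l (nat_lit 0x1860040400320))
) (.s (nat_lit 3) (nat_lit 0x19) (.s (nat_lit 3) (nat_lit 0x18) (.s (nat_lit 3) (nat_lit 0x17) (.z (nat_lit 0) (.s (nat_lit 4) (nat_lit 0xe) (.l (nat_lit 0x463042010220))
 (.s (nat_lit 4) (nat_lit 0x13) (.l (nat_lit 0x20011040000128))
 (.s (nat_lit 4) (nat_lit 0x15) (.l (nat_lit 0x4200041010228))
 (.l (nat_lit 0x82280020810328))
))) (.l (nat_lit 0x4011c0020220))
) (.z (nat_lit 0) (.s (nat_lit 4) (nat_lit 0xe) (.l (nat_lit 0x64000820020))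
 (.s (nat_lit 4) (nat_lit 0x13) (.l (nat_lit 0x120011000820028))
 (.s (nat_lit 4) (nat_lit 0x16) (.l (nat_lit 0x4200000008228))
 (.l (nat_lit 0x40292041820128))
))) (.l (nat_lit 0x404000000120))
)) (.z (nat_lit 0) (.s (nat_lit 4) (nat_lit 0xf) (.l (nat_lit 0x64000820020))
 (.s (nat_lit 4) (nat_lit 0x14) (.l (nat_lit 0x120011000820028))
 (.s (nat_lit 4) (nat_lit 0x17) (.l (nat_lit 0x2228a1c1010228))
 (.l (nat_lit 0x222881c1010228))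
))) (.l (nat_lit 0x4040000120))
)) (.s (nat_lit 3) (nat_lit 0x1a) (.z (nat_lit 0) (.s (nat_lit 4) (nat_lit 0xf) (.l (nat_lit 0x44000030020))
 (.s (nat_lit 4) (nat_lit 0x15) (.l (nat_lit 0x22881c1030128))
 (.s (nat_lit 4) (nat_lit 0x18) (.l (nat_lit 0x40292041820128))
 (.l (nat_lit 0x802821c1030128))
))) (.l (nat_lit 0x4040000120))
) (.z (nat_lit 0) (.s (nat_lit 4) (nat_lit 0x10) (.l (nat_lit 0x24000000120))
 (.s (nat_lit 4) (nat_lit 0x16) (.s (nat_lit 4) (nat_lit 0x13) (.l (nat_lit 0x90000000128))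
 (.l (nat_lit 0x282040810328))
) (.s (nat_lit 4) (nat_lit 0x19) (.l (nat_lit 0x20292001010028))
 (.l (nat_lit 0x31800c2010328))
))) (.l (nat_lit 0x44000030020))
))))) (.l (nat_lit 0x8060010318))
)) (.z (nat_lit 2) (.s (nat_lit 3) (nat_lit 0x10) (.l (nat_lit 0x60000118))
 (.s (nat_lit 3) (nat_lit 0x16) (.s (nat_lit 3) (nat_lit 0x13) (.l (nat_lit 0x404000000120))
 (.s (nat_lit 3) (nat_lit 0x15) (.l (nat_lit 0x463001010020))
 (.l (nat_lit 0x463041010020))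
)) (.s (nat_lit 3) (nat_lit 0x19) (.s (nat_lit 3) (nat_lit 0x18) (.s (nat_lit 3) (nat_lit 0x17) (.l (nat_lit 0x4040000120))
 (.l (nat_lit 0x4040000120))
) (.l (nat_lit 0x4040000120))
) (.s (nat_lit 3) (nat_lit 0x1b) (.s (nat_lit 3) (nat_lit 0x1a) (.z (nat_lit 0) (.s (nat_lit 4) (nat_lit 0xf) (.l (nat_lit 0x4040830020))
 (.s (nat_lit 4) (nat_lit 0x15) (.s (nat_lit 4) (nat_lit 0x12) (.l (nat_lit 0x20010040830028))
 (.l (nat_lit 0x20011040830028))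
) (.s (nat_lit 4) (nat_lit 0x18) (.l (nat_lit 0x20292001010028))
 (.l (nat_lit 0x40292041820128))
))) (.l (nat_lit 0x24000000120))
) (.z (nat_lit 0) (.s (nat_lit 4) (nat_lit 0x10) (.l (nat_lit 0x24000000120))
 (.s (nat_lit 4) (nat_lit 0x16) (.l (nat_lit 0x2280020810328))
 (.s (nat_lit 4) (nat_lit 0x19) (.l (nat_lit 0x40292000008228))
 (.l (nat_lit 0x4200041800228))
))) (.l (nat_lit 0x63001010020))
)) (.l (nat_lit 0x63001010020))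
)))) (.l (nat_lit 0x60000118))
))))) (.l (nat_lit 0x830010))
) (.z (nat_lit 4) (.s (nat_lit 2) (nat_lit 0x11) (.l (nat_lit 0x820010))
 (.s (nat_lit 2) (nat_lit 0x17) (.s (nat_lit 2) (nat_lit 0x14) (.l (nat_lit 0x8060800118))
 (.s (nat_lit 2) (nat_lit 0x16) (.s (nat_lit 2) (nat_lit 0x15) (.l (nat_lit 0x8060000118))
 (.l (nat_lit 0x18060800318))
) (.l (nat_lit 0x800800118))
)) (.s (nat_lit 2) (nat_lit 0x1a) (.s (nat_lit 2) (nat_lit 0x19) (.s (nat_lit 2) (nat_lit 0x18) (.l (nat_lit 0x60800118))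
 (.l (nat_lit 0x60800118))
) (.z (nat_lit 0) (.s (nat_lit 3) (nat_lit 0xf) (.l (nat_lit 0x60030018))
 (.s (nat_lit 3) (nat_lit 0x15) (.l (nat_lit 0x460060800120))
 (.s (nat_lit 3) (nat_lit 0x18) (.l (nat_lit 0x4040800120))
 (.l (nat_lit 0x4040800120))
))) (.l (nat_lit 0x60800118))
)) (.s (nat_lit 2) (nat_lit 0x1c) (.s (nat_lit 2) (nat_lit 0x1b) (.z (nat_lit 0) (.s (nat_lit 3) (nat_lit 0x10) (.l (nat_lit 0x60020218))
 (.s (nat_lit 3) (nat_lit 0x16) (.s (nat_lit 3) (nat_lit 0x13) (.l (nat_lit 0x401180020220))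
 (.s (nat_lit 3) (nat_lit 0x15) (.l (nat_lit 0xc60020810320))
 (.l (nat_lit 0x404000810320))
)) (.s (nat_lit 3) (nat_lit 0x19) (.s (nat_lit 3) (nat_lit 0x18) (.s (nat_lit 3) (nat_lit 0x17) (.l (nat_lit 0x4040000120))
 (.l (nat_lit 0x4040000120))
) (.l (nat_lit 0x4040000120))
) (.s (nat_lit 3) (nat_lit 0x1a) (.s (nat_lit 4) (nat_lit 0xf) (.l (nat_lit 0x44000030020))
 (.s (nat_lit 4) (nat_lit 0x15) (.s (nat_lit 4) (nat_lit 0x12) (.l (nat_lit 0x80010000030028))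
 (.l (nat_lit 0x80011000030028))
) (.s (nat_lit 4) (nat_lit 0x18) (.l (nat_lit 0x2228a1c1010228))
 (.s (nat_lit 4) (nat_lit 0x19) (.l (nat_lit 0xa0010000030028))
 (.l (nat_lit 0x40292041820128))
)))) (.s (nat_lit 4) (nat_lit 0x10) (.l (nat_lit 0x24000000120))
 (.s (nat_lit 4) (nat_lit 0x16) (.l (nat_lit 0x2280020810328))
 (.s (nat_lit 4) (nat_lit 0x19) (.l (nat_lit 0x4020e082800128))
 (.l (nat_lit 0xc0280040810328))
))))))) (.z (nat_lit 1) (.l (nat_lit 0x18060800318))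
 (.z (nat_lit 2) (.s (nat_lit 3) (nat_lit 0x10) (.l (nat_lit 0x60020218))
 (.s (nat_lit 3) (nat_lit 0x16) (.s (nat_lit 3) (nat_lit 0x13) (.l (nat_lit 0x401180020220))
 (.l (nat_lit 0x404000000120))
) (.s (nat_lit 3) (nat_lit 0x19) (.l (nat_lit 0x4040000120))
 (.s (nat_lit 3) (nat_lit 0x1a) (.l (nat_lit 0x24000000120))
 (.l (nat_lit 0x24000000120))
)))) (.l (nat_lit 0x60000118))
))) (.z (nat_lit 1) (.s (nat_lit 3) (nat_lit 0x10) (.l (nat_lit 0x60000118))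
 (.s (nat_lit 3) (nat_lit 0x16) (.s (nat_lit 3) (nat_lit 0x13) (.l (nat_lit 0x4000000120))
 (.s (nat_lit 3) (nat_lit 0x15) (.l (nat_lit 0x424000000120))
 (.l (nat_lit 0x424000000120))
)) (.s (nat_lit 3) (nat_lit 0x19) (.s (nat_lit 3) (nat_lit 0x18) (.l (nat_lit 0x4040000120))
 (.l (nat_lit 0x4040000120))
) (.s (nat_lit 3) (nat_lit 0x1b) (.s (nat_lit 3) (nat_lit 0x1a) (.l (nat_lit 0x4040000120))
 (.z (nat_lit 0) (.s (nat_lit 4) (nat_lit 0x10) (.l (nat_lit 0x24000000120))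
 (.s (nat_lit 4) (nat_lit 0x16) (.l (nat_lit 0x40282040810328))
 (.s (nat_lit 4) (nat_lit 0x19) (.l (nat_lit 0x20292001010028))
 (.l (nat_lit 0x280040810328))
))) (.l (nat_lit 0x24000000120))
)) (.l (nat_lit 0x24000000120))
)))) (.l (nat_lit 0x60000118))
)) (.z (nat_lit 1) (.s (nat_lit 3) (nat_lit 0x11) (.l (nat_lit 0x60020218))
 (.s (nat_lit 3) (nat_lit 0x17) (.s (nat_lit 3) (nat_lit 0x14) (.l (nat_lit 0x401180020220))
 (.s (nat_lit 3) (nat_lit 0x16) (.l (nat_lit 0x424000000120))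
 (.l (nat_lit 0x4011c0020220))
)) (.s (nat_lit 3) (nat_lit 0x1a) (.s (nat_lit 3) (nat_lit 0x19) (.l (nat_lit 0x24020000120))
 (.l (nat_lit 0x24000000120))
) (.s (nat_lit 3) (nat_lit 0x1c) (.l (nat_lit 0x24000000120))
 (.l (nat_lit 0x4000830020))
)))) (.l (nat_lit 0x60000118))
))))) (.l (nat_lit 0x800110))
))

theorem u35 : check tb r35 [31, 27, 0, 0, 0, 0, 0, 0, 0, 0, 0, 0, 0, 0, 0, 0, 0, 0]
    [32, 29, 29, 29, 29, 29, 29, 29, 29, 29, 29, 29, 29, 29, 29, 29, 29, 29] 0 10 0 = true := by decide +kernel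

noncomputable def r36 : Rt :=
(.s (nat_lit 1) (nat_lit 0x1f) (.s (nat_lit 1) (nat_lit 0x1e) (.z (nat_lit 5) (.s (nat_lit 2) (nat_lit 0x11) (.l (nat_lit 0x820010))
 (.s (nat_lit 2) (nat_lit 0x18) (.s (nat_lit 2) (nat_lit 0x15) (.s (nat_lit 2) (nat_lit 0x13) (.l (nat_lit 0x18060020018))
 (.l (nat_lit 0x8060000118))
) (.s (nat_lit 2) (nat_lit 0x17) (.s (nat_lit 2) (nat_lit 0x16) (.l (nat_lit 0x8060000118))
 (.l (nat_lit 0x8060000118))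
) (.l (nat_lit 0x8060000118))
)) (.s (nat_lit 2) (nat_lit 0x1b) (.s (nat_lit 2) (nat_lit 0x1a) (.s (nat_lit 2) (nat_lit 0x19) (.l (nat_lit 0x60800118))
 (.z (nat_lit 0) (.s (nat_lit 3) (nat_lit 0xf) (.l (nat_lit 0x60030018))
 (.s (nat_lit 3) (nat_lit 0x15) (.l (nat_lit 0x60040800120))
 (.s (nat_lit 3) (nat_lit 0x18) (.l (nat_lit 0x404000800120))
 (.l (nat_lit 0x4040800120))
))) (.l (nat_lit 0x60800118))
)) (.z (nat_lit 0) (.s (nat_lit 3) (nat_lit 0x10) (.l (nat_lit 0x60020218))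
 (.s (nat_lit 3) (nat_lit 0x16) (.s (nat_lit 3) (nat_lit 0x13) (.l (nat_lit 0x401180020220))
 (.l (nat_lit 0x460020810320))
) (.s (nat_lit 3) (nat_lit 0x19) (.s (nat_lit 3) (nat_lit 0x18) (.l (nat_lit 0x4040000120))
 (.l (nat_lit 0x24020000120))
) (.s (nat_lit 3) (nat_lit 0x1a) (.l (nat_lit 0x4040000120))
 (.s (nat_lit 4) (nat_lit 0x10) (.l (nat_lit 0x24000000120))
 (.s (nat_lit 4) (nat_lit 0x16) (.l (nat_lit 0x282040810328))
 (.s (nat_lit 4) (nat_lit 0x19) (.l (nat_lit 0x23180082820228))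
 (.l (nat_lit 0x280040810328))
))))))) (.z (nat_lit 1) (.l (nat_lit 0x8060810318))
 (.l (nat_lit 0x60000118))
))) (.s (nat_lit 2) (nat_lit 0x1d) (.s (nat_lit 2) (nat_lit 0x1c) (.z (nat_lit 0) (.s (nat_lit 3) (nat_lit 0x10) (.l (nat_lit 0x60000118))
 (.s (nat_lit 3) (nat_lit 0x16) (.s (nat_lit 3) (nat_lit 0x13) (.l (nat_lit 0x4000000120))
 (.l (nat_lit 0x404040810320))
) (.s (nat_lit 3) (nat_lit 0x19) (.l (nat_lit 0x4040000120))
 (.s (nat_lit 3) (nat_lit 0x1b) (.s (nat_lit 3) (nat_lit 0x1a) (.l (nat_lit 0x24000000120))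
 (.l (nat_lit 0x24000000120))
) (.l (nat_lit 0x24000000120))
)))) (.l (nat_lit 0x800000118))
) (.z (nat_lit 0) (.s (nat_lit 3) (nat_lit 0x11) (.l (nat_lit 0x60020218))
 (.s (nat_lit 3) (nat_lit 0x17) (.s (nat_lit 3) (nat_lit 0x14) (.l (nat_lit 0x400180020220))
 (.l (nat_lit 0x4011c0020220))
) (.s (nat_lit 3) (nat_lit 0x1a) (.l (nat_lit 0x4040000120))
 (.s (nat_lit 3) (nat_lit 0x1c) (.s (nat_lit 3) (nat_lit 0x1b) (.l (nat_lit 0x24000000120))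
 (.l (nat_lit 0x4000830020))
) (.l (nat_lit 0x4000830020))
)))) (.l (nat_lit 0x60000118))
)) (.z (nat_lit 0) (.s (nat_lit 3) (nat_lit 0x11) (.l (nat_lit 0x60020218))
 (.s (nat_lit 3) (nat_lit 0x18) (.s (nat_lit 3) (nat_lit 0x15) (.l (nat_lit 0x4001a0020220))
 (.l (nat_lit 0x463041010220))
) (.s (nat_lit 3) (nat_lit 0x1b) (.s (nat_lit 3) (nat_lit 0x1a) (.l (nat_lit 0x404040810320))
 (.l (nat_lit 0x4000830020))
) (.s (nat_lit 3) (nat_lit 0x1d) (.l (nat_lit 0x404000810320))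
 (.l (nat_lit 0x63001010220))
)))) (.l (nat_lit 0x60020218))
))))) (.l (nat_lit 0x820210))
) (.z (nat_lit 6) (.s (nat_lit 2) (nat_lit 0x12) (.l (nat_lit 0x820010))
 (.s (nat_lit 2) (nat_lit 0x19) (.s (nat_lit 2) (nat_lit 0x16) (.s (nat_lit 2) (nat_lit 0x14) (.l (nat_lit 0x18800420018))
 (.l (nat_lit 0x60800118))
) (.s (nat_lit 2) (nat_lit 0x18) (.l (nat_lit 0x60800118))
 (.l (nat_lit 0x8060000118))
)) (.s (nat_lit 2) (nat_lit 0x1c) (.s (nat_lit 2) (nat_lit 0x1b) (.s (nat_lit 2) (nat_lit 0x1a) (.l (nat_lit 0x60800118))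
 (.z (nat_lit 0) (.s (nat_lit 3) (nat_lit 0x10) (.l (nat_lit 0x60020218))
 (.s (nat_lit 3) (nat_lit 0x16) (.s (nat_lit 3) (nat_lit 0x13) (.l (nat_lit 0x401180020220))
 (.l (nat_lit 0xc04040010320))
) (.s (nat_lit 3) (nat_lit 0x19) (.s (nat_lit 3) (nat_lit 0x18) (.l (nat_lit 0x24000000120))
 (.l (nat_lit 0x24000000120))
) (.l (nat_lit 0x24000000120))
))) (.l (nat_lit 0x800000118))
)) (.z (nat_lit 0) (.s (nat_lit 3) (nat_lit 0x10) (.l (nat_lit 0x60830018))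
 (.s (nat_lit 3) (nat_lit 0x16) (.s (nat_lit 3) (nat_lit 0x13) (.l (nat_lit 0x4000830020))
 (.l (nat_lit 0x4040830020))
) (.s (nat_lit 3) (nat_lit 0x19) (.l (nat_lit 0x24000000120))
 (.s (nat_lit 3) (nat_lit 0x1b) (.s (nat_lit 3) (nat_lit 0x1a) (.l (nat_lit 0x24000000120))
 (.l (nat_lit 0x4000830020))
) (.l (nat_lit 0x4000830020))
)))) (.z (nat_lit 4) (.l (nat_lit 0x60020218))
 (.l (nat_lit 0x8060030018))
))) (.s (nat_lit 2) (nat_lit 0x1e) (.s (nat_lit 2) (nat_lit 0x1d) (.l (nat_lit 0x60000118))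
 (.z (nat_lit 0) (.s (nat_lit 3) (nat_lit 0x11) (.l (nat_lit 0x60020218))
 (.s (nat_lit 3) (nat_lit 0x18) (.s (nat_lit 3) (nat_lit 0x15) (.l (nat_lit 0x4001a0020220))
 (.l (nat_lit 0x4000830020))
) (.s (nat_lit 3) (nat_lit 0x1b) (.l (nat_lit 0x4000830020))
 (.l (nat_lit 0x4040810320))
))) (.l (nat_lit 0x60020218))
)) (.z (nat_lit 0) (.s (nat_lit 3) (nat_lit 0x12) (.l (nat_lit 0x60020218))
 (.s (nat_lit 3) (nat_lit 0x19) (.s (nat_lit 3) (nat_lit 0x16) (.l (nat_lit 0x11c0020220))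
 (.l (nat_lit 0x180020220))
) (.s (nat_lit 3) (nat_lit 0x1c) (.l (nat_lit 0x4040810320))
 (.l (nat_lit 0x4040810320))
))) (.l (nat_lit 0x60830018))
))))) (.l (nat_lit 0x8020210))
)) (.z (nat_lit 4) (.s (nat_lit 2) (nat_lit 0x12) (.l (nat_lit 0x100810010))
 (.s (nat_lit 2) (nat_lit 0x19) (.s (nat_lit 2) (nat_lit 0x16) (.l (nat_lit 0x8060010318))
 (.l (nat_lit 0x60800118))
) (.s (nat_lit 2) (nat_lit 0x1d) (.s (nat_lit 2) (nat_lit 0x1b) (.s (nat_lit 2) (nat_lit 0x1a) (.l (nat_lit 0x60800118))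
 (.z (nat_lit 0) (.s (nat_lit 3) (nat_lit 0x10) (.l (nat_lit 0x60020218))
 (.s (nat_lit 3) (nat_lit 0x16) (.l (nat_lit 0x860040410320))
 (.s (nat_lit 3) (nat_lit 0x19) (.l (nat_lit 0x24000000120))
 (.l (nat_lit 0x804040810320))
))) (.l (nat_lit 0x8060830018))
)) (.s (nat_lit 2) (nat_lit 0x1c) (.l (nat_lit 0x60000118))
 (.l (nat_lit 0x60000118))
)) (.s (nat_lit 2) (nat_lit 0x1f) (.s (nat_lit 2) (nat_lit 0x1e) (.l (nat_lit 0x60020218))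
 (.l (nat_lit 0x60000118))
) (.l (nat_lit 0x60830018))
)))) (.l (nat_lit 0x8020210))
))

theorem u36 : check tb r36 [31, 29, 0, 0, 0, 0, 0, 0, 0, 0, 0, 0, 0, 0, 0, 0, 0, 0]
    [32, 32, 32, 32, 32, 32, 32, 32, 32, 32, 32, 32, 32, 32, 32, 32, 32, 32] 0 10 0 = true := by decide +kernel

noncomputable def r37 : Rt :=
(.l (nat_lit 0x8208))


theorem u37 : check tb r37 [31, 0, 0, 0, 0, 0, 0, 0, 0, 0, 0, 0, 0, 0, 0, 0, 0, 0]
    [32, 32, 32, 32, 32, 32, 32, 32, 32, 32, 32, 32, 32, 32, 32, 32, 32, 32] 11 97 0 = true := by decide +kernel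

noncomputable def r38 : Rt :=
(.l (nat_lit 8))


theorem u38 : check tb r38 [32, 0, 0, 0, 0, 0, 0, 0, 0, 0, 0, 0, 0, 0, 0, 0, 0, 0]
    [33, 19, 19, 19, 19, 19, 19, 19, 19, 19, 19, 19, 19, 19, 19, 19, 19, 19] 0 10 0 = true := by decide +kernel

noncomputable def r39 : Rt :=
(.s (nat_lit 1) (nat_lit 0x17) (.s (nat_lit 1) (nat_lit 0x15) (.s (nat_lit 1) (nat_lit 0x14) (.l (nat_lit 0x100820010))
 (.z (nat_lit 0) (.s (nat_lit 2) (nat_lit 0xd) (.l (nat_lit 0x108000010))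
 (.s (nat_lit 2) (nat_lit 0x11) (.l (nat_lit 0x18060820018))
 (.s (nat_lit 2) (nat_lit 0x13) (.l (nat_lit 0x861020018))
 (.s (nat_lit 2) (nat_lit 0x14) (.l (nat_lit 0x18060830218))
 (.l (nat_lit 0x10800008118))
)))) (.l (nat_lit 0x100830010))
)) (.s (nat_lit 1) (nat_lit 0x16) (.z (nat_lit 0) (.s (nat_lit 2) (nat_lit 0xd) (.l (nat_lit 0x108000010))
 (.s (nat_lit 2) (nat_lit 0x12) (.l (nat_lit 0x861020018))
 (.s (nat_lit 2) (nat_lit 0x14) (.s (nat_lit 2) (nat_lit 0x13) (.l (nat_lit 0x18060830018))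
 (.l (nat_lit 0x8800c10118))
) (.s (nat_lit 2) (nat_lit 0x15) (.s (nat_lit 3) (nat_lit 0xd) (.l (nat_lit 0x60830218))
 (.s (nat_lit 3) (nat_lit 0x11) (.l (nat_lit 0x404000830220))
 (.s (nat_lit 3) (nat_lit 0x13) (.l (nat_lit 0xc04000830220))
 (.l (nat_lit 0x63001030320))
))) (.s (nat_lit 3) (nat_lit 0xd) (.l (nat_lit 0x60020218))
 (.s (nat_lit 3) (nat_lit 0x12) (.l (nat_lit 0x1c44000020220))
 (.s (nat_lit 3) (nat_lit 0x14) (.l (nat_lit 0x1804040020220))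
 (.s (nat_lit 3) (nat_lit 0x15) (.l (nat_lit 0x464000028020))
 (.l (nat_lit 0x63001030120))
)))))))) (.l (nat_lit 0x100810110))
) (.z (nat_lit 1) (.s (nat_lit 2) (nat_lit 0xe) (.l (nat_lit 0x108000010))
 (.s (nat_lit 2) (nat_lit 0x13) (.l (nat_lit 0x8800c30218))
 (.s (nat_lit 2) (nat_lit 0x15) (.s (nat_lit 2) (nat_lit 0x14) (.l (nat_lit 0x18060830018))
 (.z (nat_lit 0) (.s (nat_lit 3) (nat_lit 0xd) (.l (nat_lit 0x60830218))
 (.s (nat_lit 3) (nat_lit 0x11) (.l (nat_lit 0x404000830220))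
 (.s (nat_lit 3) (nat_lit 0x13) (.l (nat_lit 0xc04000830220))
 (.l (nat_lit 0x63001030320))
))) (.l (nat_lit 0x18800c30018))
)) (.s (nat_lit 2) (nat_lit 0x16) (.z (nat_lit 0) (.s (nat_lit 3) (nat_lit 0xd) (.l (nat_lit 0x60020218))
 (.s (nat_lit 3) (nat_lit 0x12) (.l (nat_lit 0x1444000020220))
 (.s (nat_lit 3) (nat_lit 0x14) (.l (nat_lit 0x1444000020220))
 (.s (nat_lit 3) (nat_lit 0x15) (.l (nat_lit 0x1060040838020))
 (.s (nat_lit 4) (nat_lit 0xd) (.l (nat_lit 0x44000430220))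
 (.s (nat_lit 4) (nat_lit 0x12) (.l (nat_lit 0x80090000430228))
 (.l (nat_lit 0x4200001010228))
)))))) (.l (nat_lit 0x18060800118))
) (.z (nat_lit 0) (.s (nat_lit 3) (nat_lit 0xe) (.l (nat_lit 0x60810118))
 (.s (nat_lit 3) (nat_lit 0x13) (.l (nat_lit 0x460060810120))
 (.s (nat_lit 3) (nat_lit 0x15) (.s (nat_lit 3) (nat_lit 0x14) (.l (nat_lit 0x404040810120))
 (.l (nat_lit 0x1460020800120))
) (.l (nat_lit 0x63001030120))
))) (.l (nat_lit 0x18800020218))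
))))) (.l (nat_lit 0x100800110))
))) (.s (nat_lit 1) (nat_lit 0x19) (.s (nat_lit 1) (nat_lit 0x18) (.z (nat_lit 0) (.s (nat_lit 2) (nat_lit 0xe) (.l (nat_lit 0x108000010))
 (.s (nat_lit 2) (nat_lit 0x13) (.s (nat_lit 2) (nat_lit 0x11) (.l (nat_lit 0x18060020018))
 (.l (nat_lit 0x18800c20018))
) (.s (nat_lit 2) (nat_lit 0x16) (.s (nat_lit 2) (nat_lit 0x15) (.s (nat_lit 2) (nat_lit 0x14) (.l (nat_lit 0x18060830018))
 (.l (nat_lit 0x8800410118))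
) (.s (nat_lit 3) (nat_lit 0xd) (.l (nat_lit 0x60030218))
 (.s (nat_lit 3) (nat_lit 0x12) (.l (nat_lit 0xc04000030220))
 (.s (nat_lit 3) (nat_lit 0x14) (.l (nat_lit 0xc44000030220))
 (.s (nat_lit 3) (nat_lit 0x15) (.l (nat_lit 0x404040810120))
 (.l (nat_lit 0x44000430220))
))))) (.s (nat_lit 2) (nat_lit 0x17) (.s (nat_lit 3) (nat_lit 0xe) (.l (nat_lit 0x60810118))
 (.s (nat_lit 3) (nat_lit 0x13) (.l (nat_lit 0x1000000830220))
 (.s (nat_lit 3) (nat_lit 0x15) (.s (nat_lit 3) (nat_lit 0x14) (.l (nat_lit 0x460020810120))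
 (.l (nat_lit 0x404040810120))
) (.l (nat_lit 0x63001030120))
))) (.s (nat_lit 3) (nat_lit 0xe) (.l (nat_lit 0x60830218))
 (.s (nat_lit 3) (nat_lit 0x13) (.l (nat_lit 0x404000830220))
 (.s (nat_lit 3) (nat_lit 0x16) (.l (nat_lit 0x63001030120))
 (.l (nat_lit 0x63001030120))
))))))) (.l (nat_lit 0x100800110))
) (.z (nat_lit 2) (.s (nat_lit 2) (nat_lit 0xf) (.l (nat_lit 0x108000010))
 (.s (nat_lit 2) (nat_lit 0x14) (.s (nat_lit 2) (nat_lit 0x12) (.l (nat_lit 0x18820420018))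
 (.l (nat_lit 0x18060830018))
) (.s (nat_lit 2) (nat_lit 0x17) (.s (nat_lit 2) (nat_lit 0x16) (.s (nat_lit 2) (nat_lit 0x15) (.l (nat_lit 0x8800410118))
 (.l (nat_lit 0x8060810118))
) (.z (nat_lit 0) (.s (nat_lit 3) (nat_lit 0xe) (.l (nat_lit 0x60810118))
 (.s (nat_lit 3) (nat_lit 0x13) (.l (nat_lit 0x404040810120))
 (.s (nat_lit 3) (nat_lit 0x15) (.l (nat_lit 0x460020810120))
 (.l (nat_lit 0x63001030120))
))) (.l (nat_lit 0x18060000118))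
)) (.s (nat_lit 2) (nat_lit 0x18) (.l (nat_lit 0x60810118))
 (.z (nat_lit 0) (.s (nat_lit 3) (nat_lit 0xf) (.l (nat_lit 0x60830218))
 (.s (nat_lit 3) (nat_lit 0x14) (.l (nat_lit 0x404000830220))
 (.s (nat_lit 3) (nat_lit 0x17) (.s (nat_lit 3) (nat_lit 0x16) (.l (nat_lit 0x4040830220))
 (.l (nat_lit 0x4040830220))
) (.l (nat_lit 0x4040830220))
))) (.l (nat_lit 0x10060820218))
))))) (.l (nat_lit 0x810110))
)) (.z (nat_lit 2) (.s (nat_lit 2) (nat_lit 0xf) (.l (nat_lit 0x100400010))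
 (.s (nat_lit 2) (nat_lit 0x15) (.s (nat_lit 2) (nat_lit 0x12) (.l (nat_lit 0x8820420018))
 (.l (nat_lit 0x8800410118))
) (.s (nat_lit 2) (nat_lit 0x18) (.s (nat_lit 2) (nat_lit 0x17) (.s (nat_lit 2) (nat_lit 0x16) (.l (nat_lit 0x8060010118))
 (.l (nat_lit 0x8060010118))
) (.l (nat_lit 0x8060010118))
) (.s (nat_lit 2) (nat_lit 0x19) (.z (nat_lit 0) (.s (nat_lit 3) (nat_lit 0xf) (.l (nat_lit 0x60830218))
 (.s (nat_lit 3) (nat_lit 0x14) (.l (nat_lit 0x4000830220))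
 (.s (nat_lit 3) (nat_lit 0x17) (.l (nat_lit 0x460000810120))
 (.l (nat_lit 0x24000830220))
))) (.l (nat_lit 0x8060010118))
) (.l (nat_lit 0x800830218))
)))) (.l (nat_lit 0x810110))
)))

theorem u39 : check tb r39 [32, 19, 0, 0, 0, 0, 0, 0, 0, 0, 0, 0, 0, 0, 0, 0, 0, 0]
    [33, 26, 26, 26, 26, 26, 26, 26, 26, 26, 26, 26, 26, 26, 26, 26, 26, 26] 0 10 0 = true := by decide +kernel

noncomputable def r40 : Rt :=
(.s (nat_lit 1) (nat_lit 0x1c) (.s (nat_lit 1) (nat_lit 0x1b) (.z (nat_lit 2) (.s (nat_lit 2) (nat_lit 0x10) (.l (nat_lit 0x108408010))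
 (.s (nat_lit 2) (nat_lit 0x16) (.s (nat_lit 2) (nat_lit 0x13) (.l (nat_lit 0x18800c30018))
 (.s (nat_lit 2) (nat_lit 0x15) (.l (nat_lit 0x8060010118))
 (.l (nat_lit 0x8060010118))
)) (.s (nat_lit 2) (nat_lit 0x19) (.s (nat_lit 2) (nat_lit 0x18) (.l (nat_lit 0x8060010118))
 (.l (nat_lit 0x60830218))
) (.s (nat_lit 2) (nat_lit 0x1a) (.l (nat_lit 0x60810118))
 (.l (nat_lit 0x60810118))
)))) (.l (nat_lit 0x810110))
) (.z (nat_lit 6) (.s (nat_lit 2) (nat_lit 0x10) (.l (nat_lit 0x108010010))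
 (.s (nat_lit 2) (nat_lit 0x16) (.s (nat_lit 2) (nat_lit 0x13) (.l (nat_lit 0x8800c30018))
 (.s (nat_lit 2) (nat_lit 0x15) (.s (nat_lit 2) (nat_lit 0x14) (.l (nat_lit 0x18800020018))
 (.l (nat_lit 0x8060800118))
) (.l (nat_lit 0x18060810318))
)) (.s (nat_lit 2) (nat_lit 0x19) (.s (nat_lit 2) (nat_lit 0x18) (.s (nat_lit 2) (nat_lit 0x17) (.z (nat_lit 0) (.s (nat_lit 3) (nat_lit 0xe) (.l (nat_lit 0x60820218))
 (.s (nat_lit 3) (nat_lit 0x13) (.l (nat_lit 0x4000820220))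
 (.s (nat_lit 3) (nat_lit 0x15) (.l (nat_lit 0x463041830120))
 (.l (nat_lit 0x463041830120))
))) (.l (nat_lit 0x800820218))
) (.z (nat_lit 0) (.s (nat_lit 3) (nat_lit 0xe) (.l (nat_lit 0x60820218))
 (.s (nat_lit 3) (nat_lit 0x13) (.l (nat_lit 0x4000820220))
 (.s (nat_lit 3) (nat_lit 0x16) (.s (nat_lit 3) (nat_lit 0x15) (.l (nat_lit 0x64000820220))
 (.l (nat_lit 0x64000820220))
) (.s (nat_lit 3) (nat_lit 0x17) (.l (nat_lit 0x63001030120))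
 (.l (nat_lit 0x1044000430020))
)))) (.l (nat_lit 0x8060000118))
)) (.z (nat_lit 0) (.s (nat_lit 3) (nat_lit 0xf) (.l (nat_lit 0x60820218))
 (.s (nat_lit 3) (nat_lit 0x14) (.l (nat_lit 0x4000820220))
 (.s (nat_lit 3) (nat_lit 0x17) (.l (nat_lit 0x63001030120))
 (.s (nat_lit 3) (nat_lit 0x18) (.l (nat_lit 0x1044000430020))
 (.l (nat_lit 0x4040800120))
)))) (.l (nat_lit 0x18060810318))
)) (.s (nat_lit 2) (nat_lit 0x1b) (.s (nat_lit 2) (nat_lit 0x1a) (.z (nat_lit 0) (.s (nat_lit 3) (nat_lit 0xf) (.l (nat_lit 0x60820218))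
 (.s (nat_lit 3) (nat_lit 0x15) (.s (nat_lit 3) (nat_lit 0x12) (.l (nat_lit 0x4000820220))
 (.l (nat_lit 0x404040800120))
) (.s (nat_lit 3) (nat_lit 0x18) (.s (nat_lit 3) (nat_lit 0x17) (.s (nat_lit 3) (nat_lit 0x16) (.l (nat_lit 0x4040800120))
 (.l (nat_lit 0x404000800120))
) (.l (nat_lit 0x404000800120))
) (.s (nat_lit 3) (nat_lit 0x19) (.l (nat_lit 0x4040800120))
 (.l (nat_lit 0x4040800120))
)))) (.z (nat_lit 1) (.l (nat_lit 0x18060810318))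
 (.l (nat_lit 0x60800118))
)) (.z (nat_lit 1) (.s (nat_lit 3) (nat_lit 0x10) (.l (nat_lit 0x60820218))
 (.s (nat_lit 3) (nat_lit 0x16) (.s (nat_lit 3) (nat_lit 0x13) (.l (nat_lit 0x4000820220))
 (.s (nat_lit 3) (nat_lit 0x15) (.l (nat_lit 0x4011c0820220))
 (.l (nat_lit 0x4011c0820220))
)) (.s (nat_lit 3) (nat_lit 0x19) (.s (nat_lit 3) (nat_lit 0x18) (.l (nat_lit 0x404000800120))
 (.l (nat_lit 0x404000800120))
) (.l (nat_lit 0x4040800120))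
))) (.l (nat_lit 0x60800118))
)) (.z (nat_lit 3) (.s (nat_lit 3) (nat_lit 0x10) (.l (nat_lit 0x60830018))
 (.s (nat_lit 3) (nat_lit 0x16) (.s (nat_lit 3) (nat_lit 0x13) (.l (nat_lit 0x404000830020))
 (.s (nat_lit 3) (nat_lit 0x15) (.l (nat_lit 0x1804040830020))
 (.l (nat_lit 0x463041010020))
)) (.s (nat_lit 3) (nat_lit 0x19) (.s (nat_lit 3) (nat_lit 0x18) (.s (nat_lit 3) (nat_lit 0x17) (.l (nat_lit 0x1044000430020))
 (.l (nat_lit 0x4040000120))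
) (.l (nat_lit 0x1804040830020))
) (.s (nat_lit 3) (nat_lit 0x1b) (.s (nat_lit 3) (nat_lit 0x1a) (.l (nat_lit 0x63001010020))
 (.l (nat_lit 0x63001010020))
) (.l (nat_lit 0x63001010020))
)))) (.l (nat_lit 0x800000118))
))))) (.l (nat_lit 0x830010))
)) (.s (nat_lit 1) (nat_lit 0x1d) (.z (nat_lit 5) (.s (nat_lit 2) (nat_lit 0x11) (.l (nat_lit 0x100810010))
 (.s (nat_lit 2) (nat_lit 0x17) (.s (nat_lit 2) (nat_lit 0x14) (.l (nat_lit 0x18800020018))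
 (.s (nat_lit 2) (nat_lit 0x16) (.l (nat_lit 0x8800c20218))
 (.z (nat_lit 0) (.s (nat_lit 3) (nat_lit 0xe) (.l (nat_lit 0x60820218))
 (.s (nat_lit 3) (nat_lit 0x13) (.l (nat_lit 0x4000820220))
 (.s (nat_lit 3) (nat_lit 0x15) (.l (nat_lit 0x4000820220))
 (.s (nat_lit 3) (nat_lit 0x16) (.l (nat_lit 0x64000820220))
 (.s (nat_lit 4) (nat_lit 0xe) (.l (nat_lit 0x44000430020))
 (.s (nat_lit 4) (nat_lit 0x13) (.l (nat_lit 0x80011000430028))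
 (.s (nat_lit 4) (nat_lit 0x15) (.l (nat_lit 0x280040800128))
 (.s (nat_lit 4) (nat_lit 0x16) (.l (nat_lit 0x4280040800128))
 (.l (nat_lit 0x82280020810328))
)))))))) (.l (nat_lit 0x8060000118))
))) (.s (nat_lit 2) (nat_lit 0x1a) (.s (nat_lit 2) (nat_lit 0x19) (.s (nat_lit 2) (nat_lit 0x18) (.l (nat_lit 0x60800118))
 (.z (nat_lit 0) (.s (nat_lit 3) (nat_lit 0xf) (.l (nat_lit 0x60820218))
 (.s (nat_lit 3) (nat_lit 0x14) (.l (nat_lit 0x4000820220))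
 (.s (nat_lit 3) (nat_lit 0x17) (.s (nat_lit 3) (nat_lit 0x16) (.l (nat_lit 0x63001030120))
 (.l (nat_lit 0x404000800120))
) (.l (nat_lit 0x4040800120))
))) (.l (nat_lit 0x8060000118))
)) (.z (nat_lit 0) (.s (nat_lit 3) (nat_lit 0xf) (.l (nat_lit 0x60820218))
 (.s (nat_lit 3) (nat_lit 0x15) (.l (nat_lit 0x460060800120))
 (.s (nat_lit 3) (nat_lit 0x18) (.l (nat_lit 0x4040800120))
 (.l (nat_lit 0x4040800120))
))) (.l (nat_lit 0x60800118))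
)) (.s (nat_lit 2) (nat_lit 0x1c) (.s (nat_lit 2) (nat_lit 0x1b) (.z (nat_lit 0) (.s (nat_lit 3) (nat_lit 0x10) (.l (nat_lit 0x60820218))
 (.s (nat_lit 3) (nat_lit 0x16) (.s (nat_lit 3) (nat_lit 0x13) (.l (nat_lit 0x401180820220))
 (.l (nat_lit 0x404040800120))
) (.s (nat_lit 3) (nat_lit 0x19) (.l (nat_lit 0x4040800120))
 (.l (nat_lit 0x4040800120))
))) (.l (nat_lit 0x60800118))
) (.z (nat_lit 1) (.s (nat_lit 3) (nat_lit 0x10) (.l (nat_lit 0x60830018))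
 (.s (nat_lit 3) (nat_lit 0x16) (.s (nat_lit 3) (nat_lit 0x13) (.l (nat_lit 0x404000830020))
 (.s (nat_lit 3) (nat_lit 0x15) (.l (nat_lit 0xc04000830020))
 (.l (nat_lit 0x404040000120))
)) (.s (nat_lit 3) (nat_lit 0x19) (.s (nat_lit 3) (nat_lit 0x18) (.l (nat_lit 0x463041010020))
 (.l (nat_lit 0x4040830020))
) (.s (nat_lit 3) (nat_lit 0x1b) (.s (nat_lit 3) (nat_lit 0x1a) (.z (nat_lit 0) (.s (nat_lit 4) (nat_lit 0xf) (.l (nat_lit 0x4040000120))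
 (.s (nat_lit 4) (nat_lit 0x15) (.l (nat_lit 0x2280020810328))
 (.s (nat_lit 4) (nat_lit 0x18) (.l (nat_lit 0x20011040000128))
 (.l (nat_lit 0x4200041800228))
))) (.l (nat_lit 0x804000830020))
) (.l (nat_lit 0x4040000120))
) (.l (nat_lit 0x24000000120))
)))) (.l (nat_lit 0x800000118))
)) (.z (nat_lit 2) (.s (nat_lit 3) (nat_lit 0x11) (.l (nat_lit 0x60020218))
 (.s (nat_lit 3) (nat_lit 0x17) (.s (nat_lit 3) (nat_lit 0x14) (.l (nat_lit 0x401180020220))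
 (.l (nat_lit 0x463041010020))
) (.s (nat_lit 3) (nat_lit 0x1a) (.s (nat_lit 3) (nat_lit 0x19) (.l (nat_lit 0x463001010220))
 (.l (nat_lit 0x24000000120))
) (.s (nat_lit 3) (nat_lit 0x1c) (.s (nat_lit 3) (nat_lit 0x1b) (.l (nat_lit 0x24000000120))
 (.l (nat_lit 0x63001820120))
) (.l (nat_lit 0x4000830020))
)))) (.l (nat_lit 0x60000118))
))))) (.l (nat_lit 0x800110))
) (.z (nat_lit 7) (.s (nat_lit 2) (nat_lit 0x11) (.l (nat_lit 0x100810010))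
 (.s (nat_lit 2) (nat_lit 0x18) (.s (nat_lit 2) (nat_lit 0x15) (.s (nat_lit 2) (nat_lit 0x13) (.l (nat_lit 0x18060020018))
 (.l (nat_lit 0x8060000118))
) (.s (nat_lit 2) (nat_lit 0x17) (.s (nat_lit 2) (nat_lit 0x16) (.l (nat_lit 0x60800118))
 (.l (nat_lit 0x8060000118))
) (.l (nat_lit 0x8060000118))
)) (.s (nat_lit 2) (nat_lit 0x1b) (.s (nat_lit 2) (nat_lit 0x1a) (.s (nat_lit 2) (nat_lit 0x19) (.l (nat_lit 0x60800118))
 (.l (nat_lit 0x60800118))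
) (.l (nat_lit 0x60800118))
) (.s (nat_lit 2) (nat_lit 0x1d) (.s (nat_lit 2) (nat_lit 0x1c) (.z (nat_lit 2) (.s (nat_lit 3) (nat_lit 0x10) (.l (nat_lit 0x60830018))
 (.s (nat_lit 3) (nat_lit 0x16) (.s (nat_lit 3) (nat_lit 0x13) (.l (nat_lit 0x4000830020))
 (.l (nat_lit 0xc04040810320))
) (.s (nat_lit 3) (nat_lit 0x19) (.s (nat_lit 3) (nat_lit 0x18) (.l (nat_lit 0x4040830020))
 (.l (nat_lit 0x24000000120))
) (.s (nat_lit 3) (nat_lit 0x1b) (.l (nat_lit 0x24000000120))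
 (.l (nat_lit 0x44000c30020))
)))) (.l (nat_lit 0x8060030018))
) (.z (nat_lit 0) (.s (nat_lit 3) (nat_lit 0x11) (.l (nat_lit 0x60020218))
 (.s (nat_lit 3) (nat_lit 0x17) (.s (nat_lit 3) (nat_lit 0x14) (.l (nat_lit 0x1180020220))
 (.l (nat_lit 0x24020000120))
) (.s (nat_lit 3) (nat_lit 0x1a) (.s (nat_lit 3) (nat_lit 0x19) (.l (nat_lit 0x24000000120))
 (.l (nat_lit 0x24000000120))
) (.s (nat_lit 3) (nat_lit 0x1c) (.s (nat_lit 3) (nat_lit 0x1b) (.l (nat_lit 0x24000000120))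
 (.l (nat_lit 0x4000830020))
) (.l (nat_lit 0x63001010220))
)))) (.l (nat_lit 0x60000118))
)) (.z (nat_lit 0) (.s (nat_lit 3) (nat_lit 0x11) (.l (nat_lit 0x60020218))
 (.s (nat_lit 3) (nat_lit 0x18) (.s (nat_lit 3) (nat_lit 0x15) (.l (nat_lit 0x4011c0020220))
 (.l (nat_lit 0x463041010220))
) (.s (nat_lit 3) (nat_lit 0x1b) (.l (nat_lit 0x24000000120))
 (.l (nat_lit 0x63001010220))
))) (.z (nat_lit 4) (.l (nat_lit 0x60020218))
 (.l (nat_lit 0x60810318))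
)))))) (.l (nat_lit 0x820210))
)))

theorem u40 : check tb r40 [32, 26, 0, 0, 0, 0, 0, 0, 0, 0, 0, 0, 0, 0, 0, 0, 0, 0]
    [33, 30, 30, 30, 30, 30, 30, 30, 30, 30, 30, 30, 30, 30, 30, 30, 30, 30] 0 10 0 = true := by decide +kernel

noncomputable def r41 : Rt :=
(.s (nat_lit 1) (nat_lit 0x20) (.s (nat_lit 1) (nat_lit 0x1f) (.z (nat_lit 6) (.s (nat_lit 2) (nat_lit 0x12) (.l (nat_lit 0x100810010))
 (.s (nat_lit 2) (nat_lit 0x19) (.s (nat_lit 2) (nat_lit 0x16) (.s (nat_lit 2) (nat_lit 0x14) (.l (nat_lit 0x8800020018))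
 (.l (nat_lit 0x8060800118))
) (.s (nat_lit 2) (nat_lit 0x18) (.l (nat_lit 0x60800118))
 (.l (nat_lit 0x60800118))
)) (.s (nat_lit 2) (nat_lit 0x1c) (.s (nat_lit 2) (nat_lit 0x1b) (.s (nat_lit 2) (nat_lit 0x1a) (.l (nat_lit 0x60800118))
 (.l (nat_lit 0x60800118))
) (.z (nat_lit 0) (.s (nat_lit 3) (nat_lit 0x10) (.l (nat_lit 0x60830018))
 (.s (nat_lit 3) (nat_lit 0x16) (.s (nat_lit 3) (nat_lit 0x13) (.l (nat_lit 0x4000830020))
 (.l (nat_lit 0x804040830020))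
) (.s (nat_lit 3) (nat_lit 0x19) (.l (nat_lit 0x4040000120))
 (.s (nat_lit 3) (nat_lit 0x1b) (.l (nat_lit 0x44000000120))
 (.l (nat_lit 0x4000830020))
)))) (.l (nat_lit 0x8800830018))
)) (.s (nat_lit 2) (nat_lit 0x1e) (.s (nat_lit 2) (nat_lit 0x1d) (.z (nat_lit 0) (.s (nat_lit 3) (nat_lit 0x11) (.l (nat_lit 0x60020218))
 (.s (nat_lit 3) (nat_lit 0x17) (.s (nat_lit 3) (nat_lit 0x14) (.l (nat_lit 0x400180020220))
 (.l (nat_lit 0x24000000120))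
) (.s (nat_lit 3) (nat_lit 0x1a) (.l (nat_lit 0x44000000120))
 (.s (nat_lit 3) (nat_lit 0x1c) (.s (nat_lit 3) (nat_lit 0x1b) (.l (nat_lit 0x44000000120))
 (.l (nat_lit 0x442082800120))
) (.l (nat_lit 0x63001010220))
)))) (.l (nat_lit 0x60000118))
) (.z (nat_lit 0) (.s (nat_lit 3) (nat_lit 0x11) (.l (nat_lit 0x60020218))
 (.s (nat_lit 3) (nat_lit 0x18) (.s (nat_lit 3) (nat_lit 0x15) (.l (nat_lit 0x401180020220))
 (.l (nat_lit 0x4000830020))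
) (.s (nat_lit 3) (nat_lit 0x1b) (.l (nat_lit 0x44000000120))
 (.l (nat_lit 0x4040810320))
))) (.z (nat_lit 1) (.l (nat_lit 0x60020218))
 (.l (nat_lit 0x60810318))
))) (.z (nat_lit 0) (.s (nat_lit 3) (nat_lit 0x12) (.l (nat_lit 0x60020218))
 (.s (nat_lit 3) (nat_lit 0x19) (.s (nat_lit 3) (nat_lit 0x16) (.l (nat_lit 0x1180020220))
 (.l (nat_lit 0x4000830020))
) (.s (nat_lit 3) (nat_lit 0x1c) (.l (nat_lit 0x404040810320))
 (.l (nat_lit 0x4040810320))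
))) (.l (nat_lit 0x60830018))
))))) (.l (nat_lit 0x8020210))
) (.z (nat_lit 5) (.s (nat_lit 2) (nat_lit 0x12) (.l (nat_lit 0x100810010))
 (.s (nat_lit 2) (nat_lit 0x19) (.s (nat_lit 2) (nat_lit 0x16) (.l (nat_lit 0x8060810318))
 (.s (nat_lit 2) (nat_lit 0x18) (.l (nat_lit 0x8060000118))
 (.l (nat_lit 0x8060830018))
)) (.s (nat_lit 2) (nat_lit 0x1d) (.s (nat_lit 2) (nat_lit 0x1b) (.l (nat_lit 0x60800118))
 (.s (nat_lit 2) (nat_lit 0x1c) (.z (nat_lit 0) (.s (nat_lit 3) (nat_lit 0x10) (.l (nat_lit 0x60020218))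
 (.s (nat_lit 3) (nat_lit 0x16) (.l (nat_lit 0x860040410320))
 (.s (nat_lit 3) (nat_lit 0x19) (.l (nat_lit 0x44000000120))
 (.s (nat_lit 3) (nat_lit 0x1b) (.l (nat_lit 0x44000000120))
 (.l (nat_lit 0x404000810320))
)))) (.l (nat_lit 0x8060030018))
) (.l (nat_lit 0x60000118))
)) (.s (nat_lit 2) (nat_lit 0x1f) (.s (nat_lit 2) (nat_lit 0x1e) (.z (nat_lit 0) (.s (nat_lit 3) (nat_lit 0x11) (.l (nat_lit 0x60020218))
 (.s (nat_lit 3) (nat_lit 0x18) (.s (nat_lit 3) (nat_lit 0x15) (.l (nat_lit 0x1180020220))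
 (.l (nat_lit 0x4000830020))
) (.s (nat_lit 3) (nat_lit 0x1b) (.l (nat_lit 0x44000000120))
 (.l (nat_lit 0x4040810320))
))) (.l (nat_lit 0x60830018))
) (.l (nat_lit 0x60000118))
) (.l (nat_lit 0x60830018))
)))) (.l (nat_lit 0x820210))
)) (.z (nat_lit 3) (.s (nat_lit 2) (nat_lit 0x13) (.l (nat_lit 0x820010))
 (.s (nat_lit 2) (nat_lit 0x1a) (.s (nat_lit 2) (nat_lit 0x17) (.l (nat_lit 0x60800118))
 (.l (nat_lit 0x60800118))
) (.s (nat_lit 2) (nat_lit 0x1e) (.s (nat_lit 2) (nat_lit 0x1c) (.s (nat_lit 2) (nat_lit 0x1b) (.l (nat_lit 0x8060000118))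
 (.l (nat_lit 0x60000118))
) (.s (nat_lit 2) (nat_lit 0x1d) (.l (nat_lit 0x60000118))
 (.l (nat_lit 0x60000118))
)) (.l (nat_lit 0x60000118))
))) (.l (nat_lit 0x8020210))
))

theorem u41 : check tb r41 [32, 30, 0, 0, 0, 0, 0, 0, 0, 0, 0, 0, 0, 0, 0, 0, 0, 0]
    [33, 33, 33, 33, 33, 33, 33, 33, 33, 33, 33, 33, 33, 33, 33, 33, 33, 33] 0 10 0 = true := by decide +kernel

noncomputable def r42 : Rt :=
(.l (nat_lit 0x8208))


theorem u42 : check tb r42 [32, 0, 0, 0, 0, 0, 0, 0, 0, 0, 0, 0, 0, 0, 0, 0, 0, 0]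
    [33, 33, 33, 33, 33, 33, 33, 33, 33, 33, 33, 33, 33, 33, 33, 33, 33, 33] 11 97 0 = true := by decide +kernel

noncomputable def r43 : Rt :=
(.l (nat_lit 8))


theorem u43 : check tb r43 [33, 0, 0, 0, 0, 0, 0, 0, 0, 0, 0, 0, 0, 0, 0, 0, 0, 0]
    [34, 19, 19, 19, 19, 19, 19, 19, 19, 19, 19, 19, 19, 19, 19, 19, 19, 19] 0 16 0 = true := by decide +kernel

noncomputable def r44 : Rt :=
(.s (nat_lit 1) (nat_lit 0x17) (.s (nat_lit 1) (nat_lit 0x15) (.s (nat_lit 1) (nat_lit 0x14) (.l (nat_lit 0x100830010))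
 (.z (nat_lit 0) (.s (nat_lit 2) (nat_lit 0xd) (.l (nat_lit 0x108000010))
 (.s (nat_lit 2) (nat_lit 0x11) (.l (nat_lit 0x18800020018))
 (.s (nat_lit 2) (nat_lit 0x13) (.l (nat_lit 0x861020018))
 (.s (nat_lit 2) (nat_lit 0x14) (.l (nat_lit 0x861020018))
 (.s (nat_lit 3) (nat_lit 0xd) (.l (nat_lit 0x60830218))
 (.s (nat_lit 3) (nat_lit 0x11) (.l (nat_lit 0x404000830220))
 (.s (nat_lit 3) (nat_lit 0x13) (.l (nat_lit 0x1c04000830220))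
 (.l (nat_lit 0x463001030120))
))))))) (.l (nat_lit 0x100830010))
)) (.s (nat_lit 1) (nat_lit 0x16) (.z (nat_lit 0) (.s (nat_lit 2) (nat_lit 0xd) (.l (nat_lit 0x108000010))
 (.s (nat_lit 2) (nat_lit 0x12) (.l (nat_lit 0x861020018))
 (.s (nat_lit 2) (nat_lit 0x14) (.s (nat_lit 2) (nat_lit 0x13) (.l (nat_lit 0x18800c20018))
 (.l (nat_lit 0x18060810118))
) (.s (nat_lit 2) (nat_lit 0x15) (.l (nat_lit 0x18060810118))
 (.s (nat_lit 3) (nat_lit 0xd) (.l (nat_lit 0x60020218))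
 (.s (nat_lit 3) (nat_lit 0x12) (.l (nat_lit 0x1444000020220))
 (.s (nat_lit 3) (nat_lit 0x14) (.l (nat_lit 0x1804040020220))
 (.s (nat_lit 3) (nat_lit 0x15) (.l (nat_lit 0x1c04040810120))
 (.l (nat_lit 0x1044000430220))
)))))))) (.l (nat_lit 0x100810110))
) (.z (nat_lit 0) (.s (nat_lit 2) (nat_lit 0xe) (.l (nat_lit 0x108000010))
 (.s (nat_lit 2) (nat_lit 0x13) (.s (nat_lit 2) (nat_lit 0x11) (.l (nat_lit 0x18060020018))
 (.l (nat_lit 0x18800c20018))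
) (.s (nat_lit 2) (nat_lit 0x15) (.s (nat_lit 2) (nat_lit 0x14) (.l (nat_lit 0x18800400118))
 (.l (nat_lit 0x8060810118))
) (.s (nat_lit 2) (nat_lit 0x16) (.s (nat_lit 3) (nat_lit 0xd) (.l (nat_lit 0x60020218))
 (.s (nat_lit 3) (nat_lit 0x12) (.l (nat_lit 0x1444000020220))
 (.s (nat_lit 3) (nat_lit 0x14) (.l (nat_lit 0x1444000020220))
 (.l (nat_lit 0x1044000430220))
))) (.s (nat_lit 3) (nat_lit 0xe) (.l (nat_lit 0x60020218))
 (.s (nat_lit 3) (nat_lit 0x13) (.l (nat_lit 0x1804040020220))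
 (.s (nat_lit 3) (nat_lit 0x15) (.l (nat_lit 0x64000028020))
 (.l (nat_lit 0x63001030120))
))))))) (.l (nat_lit 0x100810110))
))) (.s (nat_lit 1) (nat_lit 0x19) (.s (nat_lit 1) (nat_lit 0x18) (.z (nat_lit 2) (.s (nat_lit 2) (nat_lit 0xe) (.l (nat_lit 0x108000010))
 (.s (nat_lit 2) (nat_lit 0x13) (.s (nat_lit 2) (nat_lit 0x11) (.l (nat_lit 0x18060020018))
 (.l (nat_lit 0x18800c20018))
) (.s (nat_lit 2) (nat_lit 0x16) (.s (nat_lit 2) (nat_lit 0x15) (.s (nat_lit 2) (nat_lit 0x14) (.l (nat_lit 0x18800c30018))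
 (.l (nat_lit 0x18060800118))
) (.l (nat_lit 0x8800430218))
) (.s (nat_lit 2) (nat_lit 0x17) (.z (nat_lit 0) (.s (nat_lit 3) (nat_lit 0xe) (.l (nat_lit 0x60030218))
 (.s (nat_lit 3) (nat_lit 0x13) (.l (nat_lit 0x804040030220))
 (.s (nat_lit 3) (nat_lit 0x15) (.l (nat_lit 0x1003040820220))
 (.l (nat_lit 0x63001030120))
))) (.l (nat_lit 0x18060000118))
) (.z (nat_lit 1) (.s (nat_lit 3) (nat_lit 0xe) (.l (nat_lit 0x60830218))
 (.s (nat_lit 3) (nat_lit 0x13) (.l (nat_lit 0x424020830220))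
 (.s (nat_lit 3) (nat_lit 0x16) (.l (nat_lit 0x63001030120))
 (.s (nat_lit 3) (nat_lit 0x17) (.l (nat_lit 0x463000008220))
 (.z (nat_lit 0) (.s (nat_lit 4) (nat_lit 0xe) (.l (nat_lit 0x4040830220))
 (.s (nat_lit 4) (nat_lit 0x13) (.l (nat_lit 0x20090040830228))
 (.s (nat_lit 4) (nat_lit 0x16) (.l (nat_lit 0x4200000008228))
 (.l (nat_lit 0x4200000008228))
))) (.l (nat_lit 0x4040830220))
))))) (.l (nat_lit 0x10060800118))
))))) (.l (nat_lit 0x100830010))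
) (.z (nat_lit 1) (.s (nat_lit 2) (nat_lit 0xf) (.l (nat_lit 0x108000010))
 (.s (nat_lit 2) (nat_lit 0x14) (.s (nat_lit 2) (nat_lit 0x12) (.l (nat_lit 0x18820420018))
 (.l (nat_lit 0x18800c30018))
) (.s (nat_lit 2) (nat_lit 0x17) (.s (nat_lit 2) (nat_lit 0x16) (.l (nat_lit 0x8800430218))
 (.l (nat_lit 0x8060810118))
) (.s (nat_lit 2) (nat_lit 0x18) (.z (nat_lit 0) (.s (nat_lit 3) (nat_lit 0xe) (.l (nat_lit 0x60830218))
 (.s (nat_lit 3) (nat_lit 0x13) (.l (nat_lit 0x404000830220))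
 (.s (nat_lit 3) (nat_lit 0x16) (.s (nat_lit 3) (nat_lit 0x15) (.l (nat_lit 0x444000030220))
 (.l (nat_lit 0x424000830220))
) (.s (nat_lit 3) (nat_lit 0x17) (.l (nat_lit 0x4040810120))
 (.l (nat_lit 0x460000810120))
)))) (.l (nat_lit 0x10060800118))
) (.z (nat_lit 0) (.s (nat_lit 3) (nat_lit 0xf) (.l (nat_lit 0x60830218))
 (.s (nat_lit 3) (nat_lit 0x14) (.l (nat_lit 0x404000830220))
 (.s (nat_lit 3) (nat_lit 0x17) (.s (nat_lit 3) (nat_lit 0x16) (.l (nat_lit 0x4040830220))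
 (.l (nat_lit 0x4040830220))
) (.s (nat_lit 3) (nat_lit 0x18) (.l (nat_lit 0x4040830220))
 (.l (nat_lit 0x1044000430020))
)))) (.l (nat_lit 0x10060800118))
))))) (.l (nat_lit 0x100820210))
)) (.s (nat_lit 1) (nat_lit 0x1a) (.z (nat_lit 2) (.s (nat_lit 2) (nat_lit 0xf) (.l (nat_lit 0x108000010))
 (.s (nat_lit 2) (nat_lit 0x15) (.s (nat_lit 2) (nat_lit 0x12) (.l (nat_lit 0x18820420018))
 (.l (nat_lit 0x8060810118))
) (.s (nat_lit 2) (nat_lit 0x18) (.s (nat_lit 2) (nat_lit 0x17) (.s (nat_lit 2) (nat_lit 0x16) (.l (nat_lit 0x8060010118))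
 (.l (nat_lit 0x8060010118))
) (.z (nat_lit 0) (.s (nat_lit 3) (nat_lit 0xe) (.l (nat_lit 0x60830218))
 (.s (nat_lit 3) (nat_lit 0x13) (.l (nat_lit 0x4000830220))
 (.s (nat_lit 3) (nat_lit 0x16) (.l (nat_lit 0x4040830220))
 (.s (nat_lit 3) (nat_lit 0x17) (.l (nat_lit 0x4040830220))
 (.l (nat_lit 0x4040830220))
)))) (.l (nat_lit 0x18060000118))
)) (.s (nat_lit 2) (nat_lit 0x19) (.z (nat_lit 0) (.s (nat_lit 3) (nat_lit 0xf) (.l (nat_lit 0x60830218))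
 (.s (nat_lit 3) (nat_lit 0x14) (.l (nat_lit 0x404000830220))
 (.s (nat_lit 3) (nat_lit 0x17) (.l (nat_lit 0xc60060010120))
 (.l (nat_lit 0x1044000430020))
))) (.l (nat_lit 0x10060800118))
) (.z (nat_lit 0) (.s (nat_lit 3) (nat_lit 0xf) (.l (nat_lit 0x60830218))
 (.s (nat_lit 3) (nat_lit 0x15) (.s (nat_lit 3) (nat_lit 0x12) (.l (nat_lit 0x4000830220))
 (.l (nat_lit 0x4000830220))
) (.s (nat_lit 3) (nat_lit 0x18) (.s (nat_lit 3) (nat_lit 0x17) (.l (nat_lit 0x404000810120))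
 (.l (nat_lit 0x4000830220))
) (.l (nat_lit 0x4040810120))
))) (.l (nat_lit 0x10060800118))
))))) (.l (nat_lit 0x810110))
) (.z (nat_lit 3) (.s (nat_lit 2) (nat_lit 0x10) (.l (nat_lit 0x108000010))
 (.s (nat_lit 2) (nat_lit 0x16) (.s (nat_lit 2) (nat_lit 0x13) (.l (nat_lit 0x18060830018))
 (.s (nat_lit 2) (nat_lit 0x15) (.l (nat_lit 0x8060010118))
 (.l (nat_lit 0x8060010118))
)) (.s (nat_lit 2) (nat_lit 0x19) (.s (nat_lit 2) (nat_lit 0x18) (.s (nat_lit 2) (nat_lit 0x17) (.l (nat_lit 0x8060010118))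
 (.z (nat_lit 0) (.s (nat_lit 3) (nat_lit 0xe) (.l (nat_lit 0x60830218))
 (.s (nat_lit 3) (nat_lit 0x13) (.l (nat_lit 0x4000830220))
 (.s (nat_lit 3) (nat_lit 0x16) (.l (nat_lit 0x4040830220))
 (.l (nat_lit 0x404000810120))
))) (.l (nat_lit 0x18060000118))
)) (.z (nat_lit 0) (.s (nat_lit 3) (nat_lit 0xf) (.l (nat_lit 0x60830218))
 (.s (nat_lit 3) (nat_lit 0x14) (.l (nat_lit 0x4000830220))
 (.s (nat_lit 3) (nat_lit 0x17) (.l (nat_lit 0x4040810120))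
 (.l (nat_lit 0x4000830220))
))) (.l (nat_lit 0x18060830018))
)) (.s (nat_lit 2) (nat_lit 0x1a) (.l (nat_lit 0x60810118))
 (.z (nat_lit 0) (.s (nat_lit 3) (nat_lit 0x10) (.l (nat_lit 0x60830218))
 (.s (nat_lit 3) (nat_lit 0x16) (.l (nat_lit 0x4000830220))
 (.s (nat_lit 3) (nat_lit 0x19) (.l (nat_lit 0x4000830220))
 (.l (nat_lit 0x404000810120))
))) (.l (nat_lit 0x60810118))
))))) (.l (nat_lit 0x810110))
))))

theorem u44 : check tb r44 [33, 19, 0, 0, 0, 0, 0, 0, 0, 0, 0, 0, 0, 0, 0, 0, 0, 0]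
    [34, 27, 27, 27, 27, 27, 27, 27, 27, 27, 27, 27, 27, 27, 27, 27, 27, 27] 0 16 0 = true := by decide +kernel

noncomputable def r45 : Rt :=
(.s (nat_lit 1) (nat_lit 0x1d) (.s (nat_lit 1) (nat_lit 0x1c) (.z (nat_lit 3) (.s (nat_lit 2) (nat_lit 0x10) (.l (nat_lit 0x108000010))
 (.s (nat_lit 2) (nat_lit 0x16) (.s (nat_lit 2) (nat_lit 0x13) (.l (nat_lit 0x18060030018))
 (.l (nat_lit 0x8060810118))
) (.s (nat_lit 2) (nat_lit 0x19) (.s (nat_lit 2) (nat_lit 0x18) (.s (nat_lit 2) (nat_lit 0x17) (.l (nat_lit 0x8060010118))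
 (.l (nat_lit 0x8060010118))
) (.l (nat_lit 0x8060010118))
) (.s (nat_lit 2) (nat_lit 0x1b) (.s (nat_lit 2) (nat_lit 0x1a) (.l (nat_lit 0x8060010118))
 (.z (nat_lit 0) (.s (nat_lit 3) (nat_lit 0x10) (.l (nat_lit 0x60830218))
 (.s (nat_lit 3) (nat_lit 0x16) (.l (nat_lit 0x4000830220))
 (.s (nat_lit 3) (nat_lit 0x19) (.l (nat_lit 0x404000810120))
 (.l (nat_lit 0x404000810120))
))) (.l (nat_lit 0x8060010118))
)) (.l (nat_lit 0x60810118))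
)))) (.l (nat_lit 0x810110))
) (.z (nat_lit 7) (.s (nat_lit 2) (nat_lit 0x11) (.l (nat_lit 0x100810010))
 (.s (nat_lit 2) (nat_lit 0x17) (.s (nat_lit 2) (nat_lit 0x14) (.l (nat_lit 0x18800020018))
 (.s (nat_lit 2) (nat_lit 0x16) (.l (nat_lit 0x8800820218))
 (.z (nat_lit 0) (.s (nat_lit 3) (nat_lit 0xe) (.l (nat_lit 0x60820218))
 (.s (nat_lit 3) (nat_lit 0x13) (.l (nat_lit 0x4000820220))
 (.s (nat_lit 3) (nat_lit 0x15) (.l (nat_lit 0x64000820220))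
 (.l (nat_lit 0x63001830120))
))) (.l (nat_lit 0x18800430018))
))) (.s (nat_lit 2) (nat_lit 0x1a) (.s (nat_lit 2) (nat_lit 0x19) (.s (nat_lit 2) (nat_lit 0x18) (.z (nat_lit 0) (.s (nat_lit 3) (nat_lit 0xe) (.l (nat_lit 0x60820218))
 (.s (nat_lit 3) (nat_lit 0x13) (.l (nat_lit 0x4000820220))
 (.s (nat_lit 3) (nat_lit 0x16) (.l (nat_lit 0x63001830120))
 (.s (nat_lit 3) (nat_lit 0x17) (.l (nat_lit 0x44000430020))
 (.l (nat_lit 0x64000828020))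
)))) (.l (nat_lit 0x8060000118))
) (.z (nat_lit 0) (.s (nat_lit 3) (nat_lit 0xf) (.l (nat_lit 0x60820218))
 (.s (nat_lit 3) (nat_lit 0x14) (.l (nat_lit 0xc60060830020))
 (.s (nat_lit 3) (nat_lit 0x17) (.s (nat_lit 3) (nat_lit 0x16) (.s (nat_lit 3) (nat_lit 0x15) (.l (nat_lit 0x4011c0820220))
 (.l (nat_lit 0x1044000430020))
) (.l (nat_lit 0x404000800120))
) (.s (nat_lit 3) (nat_lit 0x18) (.l (nat_lit 0x404000800120))
 (.l (nat_lit 0x1044000c20020))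
)))) (.l (nat_lit 0x18060030018))
)) (.z (nat_lit 0) (.s (nat_lit 3) (nat_lit 0xf) (.l (nat_lit 0x60820218))
 (.s (nat_lit 3) (nat_lit 0x15) (.s (nat_lit 3) (nat_lit 0x12) (.l (nat_lit 0x4000820220))
 (.l (nat_lit 0x404040800120))
) (.s (nat_lit 3) (nat_lit 0x18) (.s (nat_lit 3) (nat_lit 0x17) (.l (nat_lit 0x4040800120))
 (.l (nat_lit 0x404000800120))
) (.l (nat_lit 0x4040800120))
))) (.l (nat_lit 0x60800118))
)) (.s (nat_lit 2) (nat_lit 0x1c) (.s (nat_lit 2) (nat_lit 0x1b) (.z (nat_lit 1) (.s (nat_lit 3) (nat_lit 0x10) (.l (nat_lit 0x60820218))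
 (.s (nat_lit 3) (nat_lit 0x16) (.s (nat_lit 3) (nat_lit 0x13) (.l (nat_lit 0x401180820220))
 (.l (nat_lit 0x404040800120))
) (.s (nat_lit 3) (nat_lit 0x19) (.s (nat_lit 3) (nat_lit 0x18) (.l (nat_lit 0x404000800120))
 (.l (nat_lit 0x804040830020))
) (.l (nat_lit 0x4040800120))
))) (.l (nat_lit 0x60800118))
) (.z (nat_lit 0) (.s (nat_lit 3) (nat_lit 0x10) (.l (nat_lit 0x60830018))
 (.s (nat_lit 3) (nat_lit 0x16) (.s (nat_lit 3) (nat_lit 0x13) (.l (nat_lit 0x4000830020))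
 (.l (nat_lit 0x4040800120))
) (.s (nat_lit 3) (nat_lit 0x19) (.l (nat_lit 0x4040800120))
 (.l (nat_lit 0x4040800120))
))) (.l (nat_lit 0x60800118))
)) (.z (nat_lit 3) (.s (nat_lit 3) (nat_lit 0x11) (.l (nat_lit 0x60020218))
 (.s (nat_lit 3) (nat_lit 0x17) (.s (nat_lit 3) (nat_lit 0x14) (.l (nat_lit 0x401180020220))
 (.l (nat_lit 0x463041010220))
) (.s (nat_lit 3) (nat_lit 0x1a) (.s (nat_lit 3) (nat_lit 0x19) (.l (nat_lit 0x463001010220))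
 (.l (nat_lit 0x463000008220))
) (.s (nat_lit 3) (nat_lit 0x1c) (.l (nat_lit 0x63001820120))
 (.l (nat_lit 0x63001010220))
)))) (.z (nat_lit 4) (.l (nat_lit 0x10401010218))
 (.l (nat_lit 0x10060800318))
)))))) (.l (nat_lit 0x820210))
)) (.s (nat_lit 1) (nat_lit 0x1e) (.z (nat_lit 4) (.s (nat_lit 2) (nat_lit 0x11) (.l (nat_lit 0x108000010))
 (.s (nat_lit 2) (nat_lit 0x18) (.s (nat_lit 2) (nat_lit 0x15) (.l (nat_lit 0x8800c20218))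
 (.s (nat_lit 2) (nat_lit 0x17) (.s (nat_lit 2) (nat_lit 0x16) (.l (nat_lit 0x8060000118))
 (.l (nat_lit 0x8060000118))
) (.z (nat_lit 0) (.s (nat_lit 3) (nat_lit 0xe) (.l (nat_lit 0x60820218))
 (.s (nat_lit 3) (nat_lit 0x13) (.l (nat_lit 0x4000820220))
 (.s (nat_lit 3) (nat_lit 0x16) (.s (nat_lit 3) (nat_lit 0x15) (.l (nat_lit 0x804040030020))
 (.l (nat_lit 0xc011c0020220))
) (.l (nat_lit 0x4040800120))
))) (.l (nat_lit 0x18800c20018))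
))) (.s (nat_lit 2) (nat_lit 0x1b) (.s (nat_lit 2) (nat_lit 0x1a) (.s (nat_lit 2) (nat_lit 0x19) (.l (nat_lit 0x60800118))
 (.l (nat_lit 0x60800118))
) (.z (nat_lit 0) (.s (nat_lit 3) (nat_lit 0x10) (.l (nat_lit 0x60820218))
 (.s (nat_lit 3) (nat_lit 0x16) (.s (nat_lit 3) (nat_lit 0x13) (.l (nat_lit 0x401180820220))
 (.l (nat_lit 0x4011c0820220))
) (.s (nat_lit 3) (nat_lit 0x19) (.l (nat_lit 0x4040800120))
 (.l (nat_lit 0x4040800120))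
))) (.l (nat_lit 0x8800000118))
)) (.s (nat_lit 2) (nat_lit 0x1d) (.s (nat_lit 2) (nat_lit 0x1c) (.z (nat_lit 0) (.s (nat_lit 3) (nat_lit 0x10) (.l (nat_lit 0x60800118))
 (.s (nat_lit 3) (nat_lit 0x16) (.s (nat_lit 3) (nat_lit 0x13) (.l (nat_lit 0x4000800120))
 (.l (nat_lit 0x404000800120))
) (.s (nat_lit 3) (nat_lit 0x19) (.l (nat_lit 0x404000800120))
 (.l (nat_lit 0x4040800120))
))) (.l (nat_lit 0x800000118))
) (.z (nat_lit 3) (.s (nat_lit 3) (nat_lit 0x11) (.l (nat_lit 0x60020218))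
 (.s (nat_lit 3) (nat_lit 0x17) (.s (nat_lit 3) (nat_lit 0x14) (.l (nat_lit 0x1180020220))
 (.l (nat_lit 0x863021010020))
) (.s (nat_lit 3) (nat_lit 0x1a) (.s (nat_lit 3) (nat_lit 0x19) (.l (nat_lit 0x463001010220))
 (.l (nat_lit 0x804000830020))
) (.s (nat_lit 3) (nat_lit 0x1c) (.l (nat_lit 0x44000000120))
 (.l (nat_lit 0x63001010220))
)))) (.l (nat_lit 0x60810318))
)) (.z (nat_lit 2) (.s (nat_lit 3) (nat_lit 0x11) (.l (nat_lit 0x60020218))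
 (.s (nat_lit 3) (nat_lit 0x18) (.s (nat_lit 3) (nat_lit 0x15) (.l (nat_lit 0x4011c0020220))
 (.l (nat_lit 0xc63001010220))
) (.s (nat_lit 3) (nat_lit 0x1b) (.l (nat_lit 0x44000000120))
 (.l (nat_lit 0x63001010220))
))) (.z (nat_lit 3) (.l (nat_lit 0x10401010218))
 (.l (nat_lit 0x60810318))
)))))) (.z (nat_lit 5) (.l (nat_lit 0x820210))
 (.z (nat_lit 6) (.s (nat_lit 2) (nat_lit 0x11) (.l (nat_lit 0x108000010))
 (.s (nat_lit 2) (nat_lit 0x18) (.s (nat_lit 2) (nat_lit 0x15) (.l (nat_lit 0x18841000018))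
 (.l (nat_lit 0x8841010018))
) (.s (nat_lit 2) (nat_lit 0x1b) (.l (nat_lit 0x60800118))
 (.s (nat_lit 2) (nat_lit 0x1d) (.s (nat_lit 2) (nat_lit 0x1c) (.l (nat_lit 0x18060020018))
 (.l (nat_lit 0x60810318))
) (.l (nat_lit 0x60830018))
)))) (.l (nat_lit 0x820210))
))) (.z (nat_lit 6) (.s (nat_lit 2) (nat_lit 0x12) (.l (nat_lit 0x820010))
 (.s (nat_lit 2) (nat_lit 0x19) (.s (nat_lit 2) (nat_lit 0x16) (.s (nat_lit 2) (nat_lit 0x14) (.l (nat_lit 0x8800020018))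
 (.l (nat_lit 0x8060800118))
) (.s (nat_lit 2) (nat_lit 0x18) (.s (nat_lit 2) (nat_lit 0x17) (.l (nat_lit 0x8060000118))
 (.l (nat_lit 0x8060000118))
) (.l (nat_lit 0x60800118))
)) (.s (nat_lit 2) (nat_lit 0x1c) (.s (nat_lit 2) (nat_lit 0x1b) (.s (nat_lit 2) (nat_lit 0x1a) (.l (nat_lit 0x60800118))
 (.z (nat_lit 0) (.s (nat_lit 3) (nat_lit 0x10) (.l (nat_lit 0x60820218))
 (.s (nat_lit 3) (nat_lit 0x16) (.s (nat_lit 3) (nat_lit 0x13) (.l (nat_lit 0x1180820220))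
 (.l (nat_lit 0x4011c0820220))
) (.s (nat_lit 3) (nat_lit 0x19) (.l (nat_lit 0x4040800120))
 (.l (nat_lit 0x4040800120))
))) (.l (nat_lit 0x8800830018))
)) (.l (nat_lit 0x60800118))
) (.s (nat_lit 2) (nat_lit 0x1e) (.s (nat_lit 2) (nat_lit 0x1d) (.z (nat_lit 0) (.s (nat_lit 3) (nat_lit 0x11) (.l (nat_lit 0x60020218))
 (.s (nat_lit 3) (nat_lit 0x17) (.s (nat_lit 3) (nat_lit 0x14) (.l (nat_lit 0x1180020220))
 (.l (nat_lit 0x4040000120))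
) (.s (nat_lit 3) (nat_lit 0x1a) (.l (nat_lit 0x44000000120))
 (.s (nat_lit 3) (nat_lit 0x1c) (.l (nat_lit 0x44000000120))
 (.l (nat_lit 0x63001010220))
)))) (.z (nat_lit 1) (.l (nat_lit 0x8060810318))
 (.z (nat_lit 3) (.s (nat_lit 3) (nat_lit 0x11) (.l (nat_lit 0x60020218))
 (.s (nat_lit 3) (nat_lit 0x17) (.l (nat_lit 0x463041010020))
 (.s (nat_lit 3) (nat_lit 0x1a) (.l (nat_lit 0x4000830020))
 (.l (nat_lit 0x63001010220))
))) (.l (nat_lit 0x60810318))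
))) (.z (nat_lit 1) (.s (nat_lit 3) (nat_lit 0x11) (.l (nat_lit 0x60020218))
 (.s (nat_lit 3) (nat_lit 0x18) (.s (nat_lit 3) (nat_lit 0x15) (.l (nat_lit 0x11c0020220))
 (.l (nat_lit 0x4000830020))
) (.s (nat_lit 3) (nat_lit 0x1b) (.l (nat_lit 0x44000000120))
 (.s (nat_lit 3) (nat_lit 0x1d) (.l (nat_lit 0x4040810320))
 (.l (nat_lit 0x463000008220))
)))) (.l (nat_lit 0x60810318))
)) (.z (nat_lit 0) (.s (nat_lit 3) (nat_lit 0x12) (.l (nat_lit 0x460020218))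
 (.s (nat_lit 3) (nat_lit 0x19) (.s (nat_lit 3) (nat_lit 0x16) (.l (nat_lit 0x11c0020220))
 (.l (nat_lit 0x404040810320))
) (.s (nat_lit 3) (nat_lit 0x1c) (.l (nat_lit 0x8041c1030120))
 (.l (nat_lit 0x4040810320))
))) (.l (nat_lit 0x60830018))
))))) (.l (nat_lit 0x820210))
)))

theorem u45 : check tb r45 [33, 27, 0, 0, 0, 0, 0, 0, 0, 0, 0, 0, 0, 0, 0, 0, 0, 0]
    [34, 31, 31, 31, 31, 31, 31, 31, 31, 31, 31, 31, 31, 31, 31, 31, 31, 31] 0 16 0 = true := by decide +kernel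

noncomputable def r46 : Rt :=
(.s (nat_lit 1) (nat_lit 0x21) (.s (nat_lit 1) (nat_lit 0x20) (.z (nat_lit 6) (.s (nat_lit 2) (nat_lit 0x12) (.l (nat_lit 0x108010010))
 (.s (nat_lit 2) (nat_lit 0x19) (.s (nat_lit 2) (nat_lit 0x16) (.s (nat_lit 2) (nat_lit 0x14) (.l (nat_lit 0x18820020018))
 (.l (nat_lit 0x8060000118))
) (.s (nat_lit 2) (nat_lit 0x18) (.s (nat_lit 2) (nat_lit 0x17) (.l (nat_lit 0x8060000118))
 (.l (nat_lit 0x8060000118))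
) (.l (nat_lit 0x8060830018))
)) (.s (nat_lit 2) (nat_lit 0x1d) (.s (nat_lit 2) (nat_lit 0x1b) (.s (nat_lit 2) (nat_lit 0x1a) (.l (nat_lit 0x8060000118))
 (.l (nat_lit 0x60800118))
) (.s (nat_lit 2) (nat_lit 0x1c) (.l (nat_lit 0x8800000118))
 (.z (nat_lit 0) (.s (nat_lit 3) (nat_lit 0x11) (.l (nat_lit 0x460020218))
 (.s (nat_lit 3) (nat_lit 0x17) (.s (nat_lit 3) (nat_lit 0x14) (.l (nat_lit 0x180020220))
 (.l (nat_lit 0x804000830020))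
) (.s (nat_lit 3) (nat_lit 0x1a) (.l (nat_lit 0x44000000120))
 (.s (nat_lit 3) (nat_lit 0x1c) (.l (nat_lit 0x404040810320))
 (.l (nat_lit 0x63001010220))
)))) (.l (nat_lit 0x8060030018))
))) (.s (nat_lit 2) (nat_lit 0x1f) (.s (nat_lit 2) (nat_lit 0x1e) (.z (nat_lit 0) (.s (nat_lit 3) (nat_lit 0x11) (.l (nat_lit 0x460020218))
 (.s (nat_lit 3) (nat_lit 0x18) (.s (nat_lit 3) (nat_lit 0x15) (.l (nat_lit 0x1180020220))
 (.l (nat_lit 0x4000830020))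
) (.s (nat_lit 3) (nat_lit 0x1b) (.l (nat_lit 0x44000000120))
 (.l (nat_lit 0x4040810320))
))) (.l (nat_lit 0x8060030018))
) (.l (nat_lit 0x460020218))
) (.l (nat_lit 0x60830018))
)))) (.l (nat_lit 0x8020210))
) (.z (nat_lit 4) (.s (nat_lit 2) (nat_lit 0x13) (.l (nat_lit 0x820010))
 (.s (nat_lit 2) (nat_lit 0x1a) (.s (nat_lit 2) (nat_lit 0x17) (.l (nat_lit 0x8060800118))
 (.l (nat_lit 0x60800118))
) (.s (nat_lit 2) (nat_lit 0x1e) (.s (nat_lit 2) (nat_lit 0x1c) (.l (nat_lit 0x8800000118))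
 (.s (nat_lit 2) (nat_lit 0x1d) (.z (nat_lit 0) (.s (nat_lit 3) (nat_lit 0x11) (.l (nat_lit 0x460020218))
 (.s (nat_lit 3) (nat_lit 0x17) (.s (nat_lit 3) (nat_lit 0x14) (.l (nat_lit 0x180020220))
 (.l (nat_lit 0x4000830020))
) (.s (nat_lit 3) (nat_lit 0x1a) (.l (nat_lit 0xc04040810320))
 (.l (nat_lit 0x804040810320))
))) (.l (nat_lit 0x8060030018))
) (.l (nat_lit 0x460020218))
)) (.s (nat_lit 2) (nat_lit 0x20) (.l (nat_lit 0x460020218))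
 (.l (nat_lit 0x60830018))
)))) (.z (nat_lit 5) (.l (nat_lit 0x8020210))
 (.l (nat_lit 0x820210))
))) (.z (nat_lit 4) (.s (nat_lit 2) (nat_lit 0x13) (.l (nat_lit 0x820010))
 (.s (nat_lit 2) (nat_lit 0x1b) (.s (nat_lit 2) (nat_lit 0x17) (.l (nat_lit 0x8060000118))
 (.s (nat_lit 2) (nat_lit 0x19) (.l (nat_lit 0x8060030018))
 (.l (nat_lit 0x8060000118))
)) (.s (nat_lit 2) (nat_lit 0x1f) (.s (nat_lit 2) (nat_lit 0x1d) (.s (nat_lit 2) (nat_lit 0x1c) (.l (nat_lit 0x8060030018))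
 (.l (nat_lit 0x8060030018))
) (.l (nat_lit 0x460020218))
) (.l (nat_lit 0x60830018))
))) (.z (nat_lit 7) (.l (nat_lit 0x820210))
 (.l (nat_lit 0x8010310))
)))

theorem u46 : check tb r46 [33, 31, 0, 0, 0, 0, 0, 0, 0, 0, 0, 0, 0, 0, 0, 0, 0, 0]
    [34, 34, 34, 34, 34, 34, 34, 34, 34, 34, 34, 34, 34, 34, 34, 34, 34, 34] 0 16 0 = true := by decide +kernel

noncomputable def r47 : Rt :=
(.l (nat_lit 0x8008))


theorem u47 : check tb r47 [33, 0, 0, 0, 0, 0, 0, 0, 0, 0, 0, 0, 0, 0, 0, 0, 0, 0]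
    [34, 34, 34, 34, 34, 34, 34, 34, 34, 34, 34, 34, 34, 34, 34, 34, 34, 34] 17 97 0 = true := by decide +kernel

noncomputable def r48 : Rt :=
(.l (nat_lit 8))


theorem u48 : check tb r48 [34, 0, 0, 0, 0, 0, 0, 0, 0, 0, 0, 0, 0, 0, 0, 0, 0, 0]
    [35, 20, 20, 20, 20, 20, 20, 20, 20, 20, 20, 20, 20, 20, 20, 20, 20, 20] 0 15 0 = true := by decide +kernel

noncomputable def r49 : Rt :=
(.s (nat_lit 1) (nat_lit 0x18) (.s (nat_lit 1) (nat_lit 0x16) (.s (nat_lit 1) (nat_lit 0x15) (.l (nat_lit 0x100800110))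
 (.z (nat_lit 0) (.s (nat_lit 2) (nat_lit 0xd) (.l (nat_lit 0x108000010))
 (.s (nat_lit 2) (nat_lit 0x12) (.l (nat_lit 0x861020018))
 (.s (nat_lit 2) (nat_lit 0x14) (.l (nat_lit 0x861020018))
 (.s (nat_lit 2) (nat_lit 0x15) (.l (nat_lit 0x18060010118))
 (.s (nat_lit 3) (nat_lit 0xd) (.l (nat_lit 0x60020218))
 (.s (nat_lit 3) (nat_lit 0x12) (.l (nat_lit 0x1c42000020220))
 (.s (nat_lit 3) (nat_lit 0x14) (.l (nat_lit 0x1804040020220))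
 (.s (nat_lit 3) (nat_lit 0x15) (.l (nat_lit 0x1c04040810120))
 (.l (nat_lit 0x1044000430220))
)))))))) (.l (nat_lit 0x100800110))
)) (.s (nat_lit 1) (nat_lit 0x17) (.z (nat_lit 0) (.s (nat_lit 2) (nat_lit 0xe) (.l (nat_lit 0x108000010))
 (.s (nat_lit 2) (nat_lit 0x13) (.l (nat_lit 0x18820420018))
 (.s (nat_lit 2) (nat_lit 0x15) (.l (nat_lit 0x18060810118))
 (.s (nat_lit 2) (nat_lit 0x16) (.l (nat_lit 0x18060810118))
 (.l (nat_lit 0x18060810118))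
)))) (.l (nat_lit 0x100800110))
) (.z (nat_lit 0) (.s (nat_lit 2) (nat_lit 0xe) (.l (nat_lit 0x108000010))
 (.s (nat_lit 2) (nat_lit 0x13) (.l (nat_lit 0x8861830318))
 (.s (nat_lit 2) (nat_lit 0x16) (.s (nat_lit 2) (nat_lit 0x15) (.l (nat_lit 0x8060810118))
 (.l (nat_lit 0x18060810118))
) (.s (nat_lit 2) (nat_lit 0x17) (.l (nat_lit 0x18060810118))
 (.s (nat_lit 3) (nat_lit 0xe) (.l (nat_lit 0x60820218))
 (.s (nat_lit 3) (nat_lit 0x13) (.l (nat_lit 0x1803000820220))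
 (.s (nat_lit 3) (nat_lit 0x16) (.l (nat_lit 0x63001030120))
 (.s (nat_lit 3) (nat_lit 0x17) (.l (nat_lit 0x463000008220))
 (.l (nat_lit 0x1c60040800120))
)))))))) (.z (nat_lit 1) (.l (nat_lit 0x100810110))
 (.l (nat_lit 0x100800110))
)))) (.s (nat_lit 1) (nat_lit 0x1a) (.s (nat_lit 1) (nat_lit 0x19) (.z (nat_lit 1) (.s (nat_lit 2) (nat_lit 0xf) (.l (nat_lit 0x108000010))
 (.s (nat_lit 2) (nat_lit 0x14) (.s (nat_lit 2) (nat_lit 0x12) (.l (nat_lit 0x18820420018))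
 (.l (nat_lit 0x18800c30018))
) (.s (nat_lit 2) (nat_lit 0x17) (.s (nat_lit 2) (nat_lit 0x16) (.s (nat_lit 2) (nat_lit 0x15) (.l (nat_lit 0x18060000118))
 (.l (nat_lit 0x18060800118))
) (.l (nat_lit 0x18060800118))
) (.s (nat_lit 2) (nat_lit 0x18) (.z (nat_lit 0) (.s (nat_lit 3) (nat_lit 0xe) (.l (nat_lit 0x60030218))
 (.s (nat_lit 3) (nat_lit 0x13) (.l (nat_lit 0x444000030220))
 (.s (nat_lit 3) (nat_lit 0x16) (.s (nat_lit 3) (nat_lit 0x15) (.l (nat_lit 0x1860040020020))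
 (.l (nat_lit 0x444000030220))
) (.s (nat_lit 3) (nat_lit 0x17) (.l (nat_lit 0xc04000810120))
 (.l (nat_lit 0x444000030220))
)))) (.l (nat_lit 0x60810118))
) (.z (nat_lit 0) (.s (nat_lit 3) (nat_lit 0xf) (.l (nat_lit 0x60830218))
 (.s (nat_lit 3) (nat_lit 0x14) (.l (nat_lit 0x1860040020020))
 (.s (nat_lit 3) (nat_lit 0x17) (.l (nat_lit 0x1460060800120))
 (.l (nat_lit 0x1044000430020))
))) (.l (nat_lit 0x18060000118))
))))) (.l (nat_lit 0x810110))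
) (.z (nat_lit 2) (.s (nat_lit 2) (nat_lit 0xf) (.l (nat_lit 0x108000010))
 (.s (nat_lit 2) (nat_lit 0x15) (.s (nat_lit 2) (nat_lit 0x12) (.l (nat_lit 0x18060820018))
 (.l (nat_lit 0x8060810118))
) (.s (nat_lit 2) (nat_lit 0x18) (.s (nat_lit 2) (nat_lit 0x17) (.l (nat_lit 0x8060810118))
 (.z (nat_lit 0) (.s (nat_lit 3) (nat_lit 0xe) (.l (nat_lit 0x60830218))
 (.s (nat_lit 3) (nat_lit 0x13) (.l (nat_lit 0x404000830220))
 (.s (nat_lit 3) (nat_lit 0x16) (.l (nat_lit 0x804040830220))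
 (.l (nat_lit 0xc04040810120))
))) (.l (nat_lit 0x18060000118))
)) (.s (nat_lit 2) (nat_lit 0x19) (.l (nat_lit 0x8060010118))
 (.z (nat_lit 0) (.s (nat_lit 3) (nat_lit 0xf) (.l (nat_lit 0x60830218))
 (.s (nat_lit 3) (nat_lit 0x15) (.l (nat_lit 0x463041820320))
 (.s (nat_lit 3) (nat_lit 0x18) (.l (nat_lit 0x404040810120))
 (.l (nat_lit 0x4040810120))
))) (.l (nat_lit 0x10060800118))
))))) (.l (nat_lit 0x810110))
)) (.s (nat_lit 1) (nat_lit 0x1b) (.z (nat_lit 3) (.s (nat_lit 2) (nat_lit 0x10) (.l (nat_lit 0x108000010))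
 (.s (nat_lit 2) (nat_lit 0x16) (.s (nat_lit 2) (nat_lit 0x13) (.l (nat_lit 0x8820430018))
 (.s (nat_lit 2) (nat_lit 0x15) (.l (nat_lit 0x18060800118))
 (.l (nat_lit 0x18060800118))
)) (.s (nat_lit 2) (nat_lit 0x19) (.s (nat_lit 2) (nat_lit 0x18) (.s (nat_lit 2) (nat_lit 0x17) (.l (nat_lit 0x18060800118))
 (.l (nat_lit 0x8060010118))
) (.l (nat_lit 0x8060010118))
) (.s (nat_lit 2) (nat_lit 0x1a) (.z (nat_lit 0) (.s (nat_lit 3) (nat_lit 0xf) (.l (nat_lit 0x60830218))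
 (.s (nat_lit 3) (nat_lit 0x15) (.l (nat_lit 0x404040810120))
 (.s (nat_lit 3) (nat_lit 0x18) (.l (nat_lit 0x4000830220))
 (.l (nat_lit 0x404000810120))
))) (.l (nat_lit 0x10060800118))
) (.z (nat_lit 0) (.s (nat_lit 3) (nat_lit 0x10) (.l (nat_lit 0x60830218))
 (.s (nat_lit 3) (nat_lit 0x16) (.l (nat_lit 0x460060810120))
 (.s (nat_lit 3) (nat_lit 0x19) (.l (nat_lit 0x404000810120))
 (.l (nat_lit 0x4040810120))
))) (.l (nat_lit 0x10060800118))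
))))) (.l (nat_lit 0x810110))
) (.z (nat_lit 2) (.s (nat_lit 2) (nat_lit 0x10) (.l (nat_lit 0x108000010))
 (.s (nat_lit 2) (nat_lit 0x16) (.s (nat_lit 2) (nat_lit 0x13) (.l (nat_lit 0x18820c20018))
 (.l (nat_lit 0x8060810118))
) (.s (nat_lit 2) (nat_lit 0x19) (.s (nat_lit 2) (nat_lit 0x18) (.l (nat_lit 0x8060010118))
 (.l (nat_lit 0x8060010118))
) (.s (nat_lit 2) (nat_lit 0x1b) (.s (nat_lit 2) (nat_lit 0x1a) (.l (nat_lit 0x60810118))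
 (.l (nat_lit 0x60810118))
) (.l (nat_lit 0x60810118))
)))) (.l (nat_lit 0x810110))
))))

theorem u49 : check tb r49 [34, 20, 0, 0, 0, 0, 0, 0, 0, 0, 0, 0, 0, 0, 0, 0, 0, 0]
    [35, 28, 28, 28, 28, 28, 28, 28, 28, 28, 28, 28, 28, 28, 28, 28, 28, 28] 0 15 0 = true := by decide +kernel

noncomputable def r50 : Rt :=
(.s (nat_lit 1) (nat_lit 0x20) (.s (nat_lit 1) (nat_lit 0x1e) (.s (nat_lit 1) (nat_lit 0x1d) (.z (nat_lit 3) (.s (nat_lit 2) (nat_lit 0x11) (.l (nat_lit 0x108000010))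
 (.s (nat_lit 2) (nat_lit 0x17) (.s (nat_lit 2) (nat_lit 0x14) (.l (nat_lit 0x18800020018))
 (.l (nat_lit 0x8060010118))
) (.s (nat_lit 2) (nat_lit 0x1a) (.s (nat_lit 2) (nat_lit 0x19) (.l (nat_lit 0x8060010118))
 (.l (nat_lit 0x8060010118))
) (.s (nat_lit 2) (nat_lit 0x1c) (.l (nat_lit 0x60810118))
 (.l (nat_lit 0x60810118))
)))) (.l (nat_lit 0x830210))
) (.z (nat_lit 4) (.s (nat_lit 2) (nat_lit 0x11) (.l (nat_lit 0x108000010))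
 (.s (nat_lit 2) (nat_lit 0x18) (.s (nat_lit 2) (nat_lit 0x15) (.s (nat_lit 2) (nat_lit 0x13) (.l (nat_lit 0x18800020018))
 (.l (nat_lit 0x18800820018))
) (.s (nat_lit 2) (nat_lit 0x17) (.l (nat_lit 0x8060800118))
 (.l (nat_lit 0x8060800118))
)) (.s (nat_lit 2) (nat_lit 0x1b) (.s (nat_lit 2) (nat_lit 0x1a) (.s (nat_lit 2) (nat_lit 0x19) (.l (nat_lit 0x60800118))
 (.z (nat_lit 0) (.s (nat_lit 3) (nat_lit 0xf) (.l (nat_lit 0x60820218))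
 (.s (nat_lit 3) (nat_lit 0x15) (.s (nat_lit 3) (nat_lit 0x12) (.l (nat_lit 0x1180820220))
 (.l (nat_lit 0x424020800120))
) (.s (nat_lit 3) (nat_lit 0x18) (.s (nat_lit 3) (nat_lit 0x17) (.l (nat_lit 0x404000800120))
 (.l (nat_lit 0x404000800120))
) (.l (nat_lit 0x4040800120))
))) (.l (nat_lit 0x8800000118))
)) (.z (nat_lit 0) (.s (nat_lit 3) (nat_lit 0x10) (.l (nat_lit 0x60820218))
 (.s (nat_lit 3) (nat_lit 0x16) (.s (nat_lit 3) (nat_lit 0x13) (.l (nat_lit 0x401180820220))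
 (.l (nat_lit 0x424020800120))
) (.s (nat_lit 3) (nat_lit 0x19) (.l (nat_lit 0x463041010020))
 (.l (nat_lit 0x4040800120))
))) (.l (nat_lit 0x18060830018))
)) (.s (nat_lit 2) (nat_lit 0x1d) (.s (nat_lit 2) (nat_lit 0x1c) (.z (nat_lit 0) (.s (nat_lit 3) (nat_lit 0x10) (.l (nat_lit 0x60800118))
 (.s (nat_lit 3) (nat_lit 0x16) (.s (nat_lit 3) (nat_lit 0x13) (.l (nat_lit 0x4000800120))
 (.l (nat_lit 0x424000800120))
) (.s (nat_lit 3) (nat_lit 0x19) (.l (nat_lit 0x424020800120))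
 (.l (nat_lit 0x4040800120))
))) (.l (nat_lit 0x8060000118))
) (.z (nat_lit 0) (.s (nat_lit 3) (nat_lit 0x11) (.l (nat_lit 0x60820218))
 (.s (nat_lit 3) (nat_lit 0x17) (.s (nat_lit 3) (nat_lit 0x14) (.l (nat_lit 0x400180820220))
 (.l (nat_lit 0x463041010220))
) (.s (nat_lit 3) (nat_lit 0x1a) (.l (nat_lit 0x24000800120))
 (.l (nat_lit 0x24000800120))
))) (.l (nat_lit 0x800000118))
)) (.z (nat_lit 1) (.s (nat_lit 3) (nat_lit 0x11) (.l (nat_lit 0x60020218))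
 (.s (nat_lit 3) (nat_lit 0x18) (.s (nat_lit 3) (nat_lit 0x15) (.l (nat_lit 0xc63001010220))
 (.l (nat_lit 0x463001010220))
) (.s (nat_lit 3) (nat_lit 0x1b) (.s (nat_lit 3) (nat_lit 0x1a) (.l (nat_lit 0x1c04040810320))
 (.l (nat_lit 0x63001010220))
) (.l (nat_lit 0x63001010220))
))) (.l (nat_lit 0x60000118))
))))) (.z (nat_lit 6) (.l (nat_lit 0x820210))
 (.z (nat_lit 7) (.s (nat_lit 2) (nat_lit 0x11) (.l (nat_lit 0x108000010))
 (.s (nat_lit 2) (nat_lit 0x18) (.l (nat_lit 0x8841810018))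
 (.s (nat_lit 2) (nat_lit 0x1b) (.l (nat_lit 0x800000118))
 (.l (nat_lit 0x60810318))
))) (.l (nat_lit 0x820210))
)))) (.s (nat_lit 1) (nat_lit 0x1f) (.z (nat_lit 7) (.s (nat_lit 2) (nat_lit 0x12) (.l (nat_lit 0x820010))
 (.s (nat_lit 2) (nat_lit 0x19) (.s (nat_lit 2) (nat_lit 0x16) (.s (nat_lit 2) (nat_lit 0x14) (.l (nat_lit 0x18820020018))
 (.l (nat_lit 0x8060800118))
) (.s (nat_lit 2) (nat_lit 0x18) (.s (nat_lit 2) (nat_lit 0x17) (.l (nat_lit 0x8060000118))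
 (.l (nat_lit 0x8060000118))
) (.l (nat_lit 0x8060000118))
)) (.s (nat_lit 2) (nat_lit 0x1c) (.s (nat_lit 2) (nat_lit 0x1b) (.s (nat_lit 2) (nat_lit 0x1a) (.z (nat_lit 0) (.s (nat_lit 3) (nat_lit 0xf) (.l (nat_lit 0x60820218))
 (.s (nat_lit 3) (nat_lit 0x15) (.l (nat_lit 0x860040830020))
 (.s (nat_lit 3) (nat_lit 0x18) (.l (nat_lit 0x404040800120))
 (.l (nat_lit 0x4040800120))
))) (.l (nat_lit 0x8800c30018))
) (.z (nat_lit 0) (.s (nat_lit 3) (nat_lit 0x10) (.l (nat_lit 0x60820218))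
 (.s (nat_lit 3) (nat_lit 0x16) (.s (nat_lit 3) (nat_lit 0x13) (.l (nat_lit 0x401180820220))
 (.l (nat_lit 0x4011c0820220))
) (.s (nat_lit 3) (nat_lit 0x19) (.l (nat_lit 0x804040000120))
 (.l (nat_lit 0x24020800120))
))) (.l (nat_lit 0x8060830018))
)) (.z (nat_lit 0) (.s (nat_lit 3) (nat_lit 0x10) (.l (nat_lit 0x60800118))
 (.s (nat_lit 3) (nat_lit 0x16) (.s (nat_lit 3) (nat_lit 0x13) (.l (nat_lit 0x4000800120))
 (.l (nat_lit 0x424000800120))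
) (.s (nat_lit 3) (nat_lit 0x19) (.l (nat_lit 0x24000800120))
 (.l (nat_lit 0x24000800120))
))) (.l (nat_lit 0x8060000118))
)) (.s (nat_lit 2) (nat_lit 0x1e) (.s (nat_lit 2) (nat_lit 0x1d) (.l (nat_lit 0x60800118))
 (.z (nat_lit 0) (.s (nat_lit 3) (nat_lit 0x11) (.l (nat_lit 0x460020218))
 (.s (nat_lit 3) (nat_lit 0x18) (.s (nat_lit 3) (nat_lit 0x15) (.l (nat_lit 0xc63000008220))
 (.l (nat_lit 0x4000830020))
) (.s (nat_lit 3) (nat_lit 0x1b) (.l (nat_lit 0x44000000120))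
 (.s (nat_lit 3) (nat_lit 0x1d) (.l (nat_lit 0xc04040810320))
 (.l (nat_lit 0x463000008220))
)))) (.l (nat_lit 0x8060810318))
)) (.z (nat_lit 0) (.s (nat_lit 3) (nat_lit 0x12) (.l (nat_lit 0x460020218))
 (.s (nat_lit 3) (nat_lit 0x19) (.s (nat_lit 3) (nat_lit 0x16) (.l (nat_lit 0x11c0020220))
 (.l (nat_lit 0x463040008220))
) (.s (nat_lit 3) (nat_lit 0x1c) (.s (nat_lit 3) (nat_lit 0x1b) (.l (nat_lit 0x8041c1030120))
 (.l (nat_lit 0x4040810320))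
) (.s (nat_lit 3) (nat_lit 0x1e) (.l (nat_lit 0x4040810320))
 (.l (nat_lit 0x424000810320))
)))) (.l (nat_lit 0x460020218))
))))) (.l (nat_lit 0x8020210))
) (.z (nat_lit 3) (.s (nat_lit 2) (nat_lit 0x12) (.l (nat_lit 0x108010010))
 (.s (nat_lit 2) (nat_lit 0x19) (.s (nat_lit 2) (nat_lit 0x16) (.s (nat_lit 2) (nat_lit 0x14) (.l (nat_lit 0x18060020018))
 (.l (nat_lit 0x8060000118))
) (.s (nat_lit 2) (nat_lit 0x18) (.l (nat_lit 0x8060000118))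
 (.l (nat_lit 0x8060000118))
)) (.s (nat_lit 2) (nat_lit 0x1d) (.s (nat_lit 2) (nat_lit 0x1b) (.s (nat_lit 2) (nat_lit 0x1a) (.l (nat_lit 0x8060000118))
 (.l (nat_lit 0x8800000118))
) (.l (nat_lit 0x60800118))
) (.s (nat_lit 2) (nat_lit 0x1f) (.s (nat_lit 2) (nat_lit 0x1e) (.z (nat_lit 0) (.s (nat_lit 3) (nat_lit 0x11) (.l (nat_lit 0x460020218))
 (.s (nat_lit 3) (nat_lit 0x18) (.s (nat_lit 3) (nat_lit 0x15) (.l (nat_lit 0x1a0020220))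
 (.l (nat_lit 0x404040810320))
) (.s (nat_lit 3) (nat_lit 0x1b) (.s (nat_lit 3) (nat_lit 0x1a) (.l (nat_lit 0xc24020810320))
 (.l (nat_lit 0x404000810320))
) (.l (nat_lit 0xc04040810320))
))) (.l (nat_lit 0x8060830018))
) (.z (nat_lit 0) (.s (nat_lit 3) (nat_lit 0x12) (.l (nat_lit 0x460020218))
 (.s (nat_lit 3) (nat_lit 0x19) (.s (nat_lit 3) (nat_lit 0x16) (.l (nat_lit 0x1180020220))
 (.l (nat_lit 0x180020220))
) (.s (nat_lit 3) (nat_lit 0x1c) (.s (nat_lit 3) (nat_lit 0x1b) (.l (nat_lit 0x424000810320))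
 (.l (nat_lit 0x180020220))
) (.l (nat_lit 0x4040810320))
))) (.l (nat_lit 0x60830018))
)) (.l (nat_lit 0x460020218))
)))) (.z (nat_lit 4) (.l (nat_lit 0x810310))
 (.z (nat_lit 5) (.s (nat_lit 2) (nat_lit 0x12) (.l (nat_lit 0x108000010))
 (.s (nat_lit 2) (nat_lit 0x19) (.l (nat_lit 0x8060830018))
 (.s (nat_lit 2) (nat_lit 0x1d) (.l (nat_lit 0x60800118))
 (.l (nat_lit 0x460020218))
))) (.l (nat_lit 0x8020210))
))))) (.s (nat_lit 1) (nat_lit 0x22) (.s (nat_lit 1) (nat_lit 0x21) (.z (nat_lit 4) (.s (nat_lit 2) (nat_lit 0x13) (.l (nat_lit 0x820010))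
 (.s (nat_lit 2) (nat_lit 0x1a) (.s (nat_lit 2) (nat_lit 0x17) (.l (nat_lit 0x8060800118))
 (.s (nat_lit 2) (nat_lit 0x19) (.l (nat_lit 0x8060000118))
 (.l (nat_lit 0x8800c30018))
)) (.s (nat_lit 2) (nat_lit 0x1e) (.s (nat_lit 2) (nat_lit 0x1c) (.l (nat_lit 0x60800118))
 (.s (nat_lit 2) (nat_lit 0x1d) (.l (nat_lit 0x60800118))
 (.z (nat_lit 0) (.s (nat_lit 3) (nat_lit 0x11) (.l (nat_lit 0x460020218))
 (.s (nat_lit 3) (nat_lit 0x18) (.s (nat_lit 3) (nat_lit 0x15) (.l (nat_lit 0x1180020220))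
 (.l (nat_lit 0x180020220))
) (.s (nat_lit 3) (nat_lit 0x1b) (.l (nat_lit 0xc04040810320))
 (.l (nat_lit 0x4040810320))
))) (.l (nat_lit 0x60830018))
))) (.s (nat_lit 2) (nat_lit 0x20) (.s (nat_lit 2) (nat_lit 0x1f) (.l (nat_lit 0x460020218))
 (.l (nat_lit 0x60830018))
) (.l (nat_lit 0x60830018))
)))) (.l (nat_lit 0x800110))
) (.z (nat_lit 1) (.s (nat_lit 2) (nat_lit 0x13) (.l (nat_lit 0x820010))
 (.s (nat_lit 2) (nat_lit 0x1b) (.s (nat_lit 2) (nat_lit 0x17) (.l (nat_lit 0x8060000118))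
 (.s (nat_lit 2) (nat_lit 0x19) (.l (nat_lit 0x8060830018))
 (.l (nat_lit 0x8060000118))
)) (.s (nat_lit 2) (nat_lit 0x1f) (.s (nat_lit 2) (nat_lit 0x1d) (.l (nat_lit 0x60800118))
 (.s (nat_lit 2) (nat_lit 0x1e) (.l (nat_lit 0x8060830018))
 (.l (nat_lit 0x60830018))
)) (.l (nat_lit 0x60000118))
))) (.l (nat_lit 0x800110))
)) (.z (nat_lit 0) (.s (nat_lit 2) (nat_lit 0x14) (.l (nat_lit 0x820010))
 (.s (nat_lit 2) (nat_lit 0x1c) (.s (nat_lit 2) (nat_lit 0x18) (.l (nat_lit 0x8060000118))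
 (.l (nat_lit 0x60800118))
) (.s (nat_lit 2) (nat_lit 0x20) (.s (nat_lit 2) (nat_lit 0x1e) (.l (nat_lit 0x8060830018))
 (.l (nat_lit 0x60830018))
) (.l (nat_lit 0x60830018))
))) (.l (nat_lit 0x800110))
)))

theorem u50 : check tb r50 [34, 28, 0, 0, 0, 0, 0, 0, 0, 0, 0, 0, 0, 0, 0, 0, 0, 0]
    [35, 35, 35, 35, 35, 35, 35, 35, 35, 35, 35, 35, 35, 35, 35, 35, 35, 35] 0 15 0 = true := by decide +kernel

noncomputable def r51 : Rt :=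
(.z (nat_lit 0x16) (.l (nat_lit 0x108))
 (.l (nat_lit 8))
)

theorem u51 : check tb r51 [34, 0, 0, 0, 0, 0, 0, 0, 0, 0, 0, 0, 0, 0, 0, 0, 0, 0]
    [35, 35, 35, 35, 35, 35, 35, 35, 35, 35, 35, 35, 35, 35, 35, 35, 35, 35] 16 97 0 = true := by decide +kernel

noncomputable def r52 : Rt :=
(.l (nat_lit 8))


theorem u52 : check tb r52 [35, 0, 0, 0, 0, 0, 0, 0, 0, 0, 0, 0, 0, 0, 0, 0, 0, 0]
    [36, 20, 20, 20, 20, 20, 20, 20, 20, 20, 20, 20, 20, 20, 20, 20, 20, 20] 0 14 0 = true := by decide +kernel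

noncomputable def r53 : Rt :=
(.s (nat_lit 1) (nat_lit 0x18) (.s (nat_lit 1) (nat_lit 0x16) (.s (nat_lit 1) (nat_lit 0x15) (.l (nat_lit 0x100800110))
 (.z (nat_lit 0) (.s (nat_lit 2) (nat_lit 0xd) (.l (nat_lit 0x108000010))
 (.s (nat_lit 2) (nat_lit 0x12) (.l (nat_lit 0x18800820018))
 (.l (nat_lit 0x841020018))
)) (.l (nat_lit 0x108020010))
)) (.s (nat_lit 1) (nat_lit 0x17) (.z (nat_lit 0) (.s (nat_lit 2) (nat_lit 0xe) (.l (nat_lit 0x108000010))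
 (.s (nat_lit 2) (nat_lit 0x13) (.l (nat_lit 0x861020018))
 (.s (nat_lit 2) (nat_lit 0x15) (.l (nat_lit 0x841020018))
 (.s (nat_lit 2) (nat_lit 0x16) (.l (nat_lit 0x18060810118))
 (.l (nat_lit 0x18060810118))
)))) (.l (nat_lit 0x100800110))
) (.z (nat_lit 0) (.s (nat_lit 2) (nat_lit 0xe) (.l (nat_lit 0x108000010))
 (.s (nat_lit 2) (nat_lit 0x13) (.l (nat_lit 0x861020018))
 (.s (nat_lit 2) (nat_lit 0x16) (.s (nat_lit 2) (nat_lit 0x15) (.l (nat_lit 0x18060810118))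
 (.l (nat_lit 0x18060810118))
) (.s (nat_lit 2) (nat_lit 0x17) (.l (nat_lit 0x18060810118))
 (.s (nat_lit 3) (nat_lit 0xe) (.l (nat_lit 0x60830218))
 (.s (nat_lit 3) (nat_lit 0x13) (.l (nat_lit 0x1c04000830220))
 (.s (nat_lit 3) (nat_lit 0x16) (.l (nat_lit 0x464001010020))
 (.s (nat_lit 3) (nat_lit 0x17) (.l (nat_lit 0x1804040830220))
 (.l (nat_lit 0x1c04040810120))
)))))))) (.l (nat_lit 0x100800110))
))) (.s (nat_lit 1) (nat_lit 0x1a) (.s (nat_lit 1) (nat_lit 0x19) (.z (nat_lit 0) (.s (nat_lit 2) (nat_lit 0xf) (.l (nat_lit 0x108000010))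
 (.s (nat_lit 2) (nat_lit 0x14) (.s (nat_lit 2) (nat_lit 0x12) (.l (nat_lit 0x18820420018))
 (.l (nat_lit 0x18060800118))
) (.s (nat_lit 2) (nat_lit 0x17) (.s (nat_lit 2) (nat_lit 0x16) (.s (nat_lit 2) (nat_lit 0x15) (.l (nat_lit 0x18060800118))
 (.l (nat_lit 0x18060800118))
) (.l (nat_lit 0x8060810118))
) (.s (nat_lit 2) (nat_lit 0x18) (.s (nat_lit 3) (nat_lit 0xe) (.l (nat_lit 0x60830218))
 (.s (nat_lit 3) (nat_lit 0x13) (.l (nat_lit 0x1c04000830220))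
 (.s (nat_lit 3) (nat_lit 0x16) (.l (nat_lit 0x1840000820220))
 (.s (nat_lit 3) (nat_lit 0x17) (.l (nat_lit 0xc04040810120))
 (.l (nat_lit 0x1c04000810120))
)))) (.s (nat_lit 3) (nat_lit 0xf) (.l (nat_lit 0x60830218))
 (.s (nat_lit 3) (nat_lit 0x14) (.l (nat_lit 0x1004040830220))
 (.s (nat_lit 3) (nat_lit 0x17) (.s (nat_lit 3) (nat_lit 0x16) (.l (nat_lit 0x1460040800120))
 (.l (nat_lit 0x1404040800120))
) (.l (nat_lit 0x63001820320))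
))))))) (.z (nat_lit 1) (.l (nat_lit 0x100830210))
 (.z (nat_lit 2) (.s (nat_lit 2) (nat_lit 0xf) (.l (nat_lit 0x108000010))
 (.s (nat_lit 2) (nat_lit 0x14) (.l (nat_lit 0x18820c20018))
 (.s (nat_lit 2) (nat_lit 0x17) (.l (nat_lit 0x18060000118))
 (.l (nat_lit 0x18060020218))
))) (.l (nat_lit 0x100800110))
))) (.z (nat_lit 2) (.s (nat_lit 2) (nat_lit 0xf) (.l (nat_lit 0x108000010))
 (.s (nat_lit 2) (nat_lit 0x15) (.s (nat_lit 2) (nat_lit 0x12) (.l (nat_lit 0x861020018))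
 (.l (nat_lit 0x8060810118))
) (.s (nat_lit 2) (nat_lit 0x18) (.s (nat_lit 2) (nat_lit 0x17) (.s (nat_lit 2) (nat_lit 0x16) (.l (nat_lit 0x18060800118))
 (.l (nat_lit 0x18060800118))
) (.l (nat_lit 0x18060800118))
) (.s (nat_lit 2) (nat_lit 0x19) (.z (nat_lit 0) (.s (nat_lit 3) (nat_lit 0xf) (.l (nat_lit 0x60830218))
 (.s (nat_lit 3) (nat_lit 0x14) (.l (nat_lit 0x4040830220))
 (.s (nat_lit 3) (nat_lit 0x17) (.l (nat_lit 0xc60060810120))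
 (.l (nat_lit 0x804000830220))
))) (.l (nat_lit 0x18060800118))
) (.z (nat_lit 1) (.s (nat_lit 3) (nat_lit 0xf) (.l (nat_lit 0x60830218))
 (.s (nat_lit 3) (nat_lit 0x15) (.s (nat_lit 3) (nat_lit 0x12) (.l (nat_lit 0x4000830220))
 (.l (nat_lit 0x460000810120))
) (.s (nat_lit 3) (nat_lit 0x18) (.s (nat_lit 3) (nat_lit 0x17) (.l (nat_lit 0x404040810120))
 (.l (nat_lit 0x4000830220))
) (.s (nat_lit 3) (nat_lit 0x19) (.l (nat_lit 0x404040810120))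
 (.l (nat_lit 0x4040810120))
)))) (.l (nat_lit 0x10060800118))
))))) (.l (nat_lit 0x100800110))
)) (.s (nat_lit 1) (nat_lit 0x1b) (.z (nat_lit 3) (.s (nat_lit 2) (nat_lit 0x10) (.l (nat_lit 0x108000010))
 (.s (nat_lit 2) (nat_lit 0x16) (.s (nat_lit 2) (nat_lit 0x13) (.l (nat_lit 0x18820430018))
 (.s (nat_lit 2) (nat_lit 0x15) (.l (nat_lit 0x18060800118))
 (.l (nat_lit 0x18060800118))
)) (.s (nat_lit 2) (nat_lit 0x19) (.s (nat_lit 2) (nat_lit 0x18) (.l (nat_lit 0x8060810118))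
 (.z (nat_lit 0) (.s (nat_lit 3) (nat_lit 0xf) (.l (nat_lit 0x60030218))
 (.s (nat_lit 3) (nat_lit 0x14) (.l (nat_lit 0x4000830220))
 (.s (nat_lit 3) (nat_lit 0x17) (.l (nat_lit 0xc04040810120))
 (.s (nat_lit 3) (nat_lit 0x18) (.l (nat_lit 0x4000830220))
 (.l (nat_lit 0xc04000810120))
)))) (.l (nat_lit 0x18060800118))
)) (.s (nat_lit 2) (nat_lit 0x1a) (.z (nat_lit 0) (.s (nat_lit 3) (nat_lit 0xf) (.l (nat_lit 0x60830218))
 (.s (nat_lit 3) (nat_lit 0x15) (.s (nat_lit 3) (nat_lit 0x12) (.l (nat_lit 0x4000830220))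
 (.l (nat_lit 0x4000830220))
) (.s (nat_lit 3) (nat_lit 0x18) (.l (nat_lit 0x404040810120))
 (.s (nat_lit 3) (nat_lit 0x19) (.l (nat_lit 0x404000810120))
 (.l (nat_lit 0x4040810120))
)))) (.l (nat_lit 0x10060800118))
) (.z (nat_lit 0) (.s (nat_lit 3) (nat_lit 0x10) (.l (nat_lit 0x60810118))
 (.s (nat_lit 3) (nat_lit 0x16) (.l (nat_lit 0x460060810120))
 (.s (nat_lit 3) (nat_lit 0x19) (.s (nat_lit 3) (nat_lit 0x18) (.l (nat_lit 0x404000810120))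
 (.l (nat_lit 0x404000810120))
) (.l (nat_lit 0x4040810120))
))) (.l (nat_lit 0x10060800118))
))))) (.l (nat_lit 0x810110))
) (.z (nat_lit 3) (.s (nat_lit 2) (nat_lit 0x10) (.l (nat_lit 0x108000010))
 (.s (nat_lit 2) (nat_lit 0x16) (.s (nat_lit 2) (nat_lit 0x13) (.l (nat_lit 0x18060000118))
 (.l (nat_lit 0x8060810118))
) (.s (nat_lit 2) (nat_lit 0x19) (.s (nat_lit 2) (nat_lit 0x18) (.l (nat_lit 0x8060010118))
 (.l (nat_lit 0x8060830218))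
) (.s (nat_lit 2) (nat_lit 0x1b) (.s (nat_lit 2) (nat_lit 0x1a) (.l (nat_lit 0x60810118))
 (.z (nat_lit 0) (.s (nat_lit 3) (nat_lit 0x10) (.l (nat_lit 0x60810118))
 (.s (nat_lit 3) (nat_lit 0x16) (.l (nat_lit 0x460040810120))
 (.s (nat_lit 3) (nat_lit 0x19) (.l (nat_lit 0x404040810120))
 (.l (nat_lit 0x4040810120))
))) (.l (nat_lit 0x10060800118))
)) (.z (nat_lit 0) (.s (nat_lit 3) (nat_lit 0x10) (.l (nat_lit 0x60810118))
 (.s (nat_lit 3) (nat_lit 0x16) (.l (nat_lit 0x464041010020))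
 (.s (nat_lit 3) (nat_lit 0x19) (.l (nat_lit 0x404000810120))
 (.l (nat_lit 0x4040810120))
))) (.l (nat_lit 0x10060800118))
))))) (.l (nat_lit 0x810110))
))))

theorem u53 : check tb r53 [35, 20, 0, 0, 0, 0, 0, 0, 0, 0, 0, 0, 0, 0, 0, 0, 0, 0]
    [36, 28, 28, 28, 28, 28, 28, 28, 28, 28, 28, 28, 28, 28, 28, 28, 28, 28] 0 14 0 = true := by decide +kernel

noncomputable def r54 : Rt :=
(.s (nat_lit 1) (nat_lit 0x20) (.s (nat_lit 1) (nat_lit 0x1e) (.s (nat_lit 1) (nat_lit 0x1d) (.z (nat_lit 2) (.s (nat_lit 2) (nat_lit 0x11) (.l (nat_lit 0x108010010))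
 (.s (nat_lit 2) (nat_lit 0x17) (.s (nat_lit 2) (nat_lit 0x14) (.l (nat_lit 0x18820c20018))
 (.l (nat_lit 0x8060810118))
) (.s (nat_lit 2) (nat_lit 0x1a) (.s (nat_lit 2) (nat_lit 0x19) (.s (nat_lit 2) (nat_lit 0x18) (.l (nat_lit 0x10060800118))
 (.l (nat_lit 0x60810118))
) (.l (nat_lit 0x8060010118))
) (.s (nat_lit 2) (nat_lit 0x1c) (.s (nat_lit 2) (nat_lit 0x1b) (.z (nat_lit 0) (.s (nat_lit 3) (nat_lit 0x10) (.l (nat_lit 0x60810118))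
 (.s (nat_lit 3) (nat_lit 0x16) (.s (nat_lit 3) (nat_lit 0x13) (.l (nat_lit 0x4000810120))
 (.l (nat_lit 0x404000810120))
) (.s (nat_lit 3) (nat_lit 0x19) (.l (nat_lit 0x404000810120))
 (.l (nat_lit 0x4040810120))
))) (.l (nat_lit 0x8800000118))
) (.l (nat_lit 0x60810118))
) (.l (nat_lit 0x60810118))
)))) (.l (nat_lit 0x830210))
) (.z (nat_lit 3) (.s (nat_lit 2) (nat_lit 0x11) (.l (nat_lit 0x108000010))
 (.s (nat_lit 2) (nat_lit 0x18) (.s (nat_lit 2) (nat_lit 0x15) (.l (nat_lit 0x8800c00118))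
 (.l (nat_lit 0x8060010118))
) (.s (nat_lit 2) (nat_lit 0x1b) (.s (nat_lit 2) (nat_lit 0x1a) (.l (nat_lit 0x60810118))
 (.l (nat_lit 0x8800410118))
) (.s (nat_lit 2) (nat_lit 0x1d) (.l (nat_lit 0x60810118))
 (.l (nat_lit 0x800800118))
)))) (.l (nat_lit 0x8010110))
)) (.s (nat_lit 1) (nat_lit 0x1f) (.z (nat_lit 6) (.s (nat_lit 2) (nat_lit 0x12) (.l (nat_lit 0x108010010))
 (.s (nat_lit 2) (nat_lit 0x19) (.s (nat_lit 2) (nat_lit 0x16) (.s (nat_lit 2) (nat_lit 0x14) (.l (nat_lit 0x18820020018))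
 (.l (nat_lit 0x8820430018))
) (.s (nat_lit 2) (nat_lit 0x18) (.s (nat_lit 2) (nat_lit 0x17) (.l (nat_lit 0x8060800118))
 (.l (nat_lit 0x60800118))
) (.l (nat_lit 0x8800400118))
)) (.s (nat_lit 2) (nat_lit 0x1c) (.s (nat_lit 2) (nat_lit 0x1b) (.s (nat_lit 2) (nat_lit 0x1a) (.z (nat_lit 0) (.s (nat_lit 3) (nat_lit 0xf) (.l (nat_lit 0x60820218))
 (.s (nat_lit 3) (nat_lit 0x15) (.s (nat_lit 3) (nat_lit 0x12) (.l (nat_lit 0x401180820220))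
 (.l (nat_lit 0x424000800120))
) (.s (nat_lit 3) (nat_lit 0x18) (.l (nat_lit 0x804040000120))
 (.l (nat_lit 0x44000c30020))
))) (.l (nat_lit 0x8060000118))
) (.z (nat_lit 0) (.s (nat_lit 3) (nat_lit 0x10) (.l (nat_lit 0x60800118))
 (.s (nat_lit 3) (nat_lit 0x16) (.s (nat_lit 3) (nat_lit 0x13) (.l (nat_lit 0x404000800120))
 (.l (nat_lit 0x1000000800120))
) (.s (nat_lit 3) (nat_lit 0x19) (.s (nat_lit 3) (nat_lit 0x18) (.l (nat_lit 0x424000800120))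
 (.l (nat_lit 0x424000800120))
) (.l (nat_lit 0x4040800120))
))) (.l (nat_lit 0x8800000118))
)) (.z (nat_lit 0) (.s (nat_lit 3) (nat_lit 0x10) (.l (nat_lit 0x60800118))
 (.s (nat_lit 3) (nat_lit 0x16) (.l (nat_lit 0x464041010020))
 (.s (nat_lit 3) (nat_lit 0x19) (.l (nat_lit 0x4040800120))
 (.s (nat_lit 3) (nat_lit 0x1b) (.l (nat_lit 0x4040800120))
 (.l (nat_lit 0x64000800120))
)))) (.l (nat_lit 0x8060000118))
)) (.s (nat_lit 2) (nat_lit 0x1e) (.l (nat_lit 0x800800118))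
 (.z (nat_lit 0) (.s (nat_lit 3) (nat_lit 0x12) (.l (nat_lit 0x460020218))
 (.s (nat_lit 3) (nat_lit 0x19) (.s (nat_lit 3) (nat_lit 0x16) (.l (nat_lit 0x11c0020220))
 (.l (nat_lit 0x404181030320))
) (.s (nat_lit 3) (nat_lit 0x1c) (.s (nat_lit 3) (nat_lit 0x1b) (.l (nat_lit 0x404181030320))
 (.l (nat_lit 0x1804040800320))
) (.s (nat_lit 3) (nat_lit 0x1e) (.l (nat_lit 0x463000008220))
 (.l (nat_lit 0x1044000000320))
)))) (.l (nat_lit 0x460020218))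
))))) (.l (nat_lit 0x8020210))
) (.z (nat_lit 9) (.s (nat_lit 2) (nat_lit 0x12) (.l (nat_lit 0x108010010))
 (.s (nat_lit 2) (nat_lit 0x19) (.s (nat_lit 2) (nat_lit 0x16) (.s (nat_lit 2) (nat_lit 0x14) (.l (nat_lit 0x18820020018))
 (.l (nat_lit 0x8060800118))
) (.s (nat_lit 2) (nat_lit 0x18) (.l (nat_lit 0x8800400118))
 (.l (nat_lit 0x8800400118))
)) (.s (nat_lit 2) (nat_lit 0x1d) (.s (nat_lit 2) (nat_lit 0x1b) (.s (nat_lit 2) (nat_lit 0x1a) (.z (nat_lit 0) (.s (nat_lit 3) (nat_lit 0xf) (.l (nat_lit 0x460420218))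
 (.s (nat_lit 3) (nat_lit 0x15) (.l (nat_lit 0x804040000120))
 (.s (nat_lit 3) (nat_lit 0x18) (.l (nat_lit 0x424000800120))
 (.l (nat_lit 0x4040800120))
))) (.l (nat_lit 0x8060000118))
) (.l (nat_lit 0x8800000118))
) (.l (nat_lit 0x800800118))
) (.s (nat_lit 2) (nat_lit 0x1f) (.s (nat_lit 2) (nat_lit 0x1e) (.l (nat_lit 0x60800118))
 (.z (nat_lit 0) (.s (nat_lit 3) (nat_lit 0x12) (.l (nat_lit 0x60030018))
 (.s (nat_lit 3) (nat_lit 0x19) (.s (nat_lit 3) (nat_lit 0x16) (.l (nat_lit 0xc60060010320))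
 (.l (nat_lit 0x463040008220))
) (.s (nat_lit 3) (nat_lit 0x1c) (.s (nat_lit 3) (nat_lit 0x1b) (.l (nat_lit 0x8041c1030120))
 (.l (nat_lit 0x804040010320))
) (.l (nat_lit 0x42082810320))
))) (.z (nat_lit 1) (.l (nat_lit 0x8060810318))
 (.l (nat_lit 0x8060010318))
))) (.z (nat_lit 0) (.s (nat_lit 3) (nat_lit 0x12) (.l (nat_lit 0x60830018))
 (.s (nat_lit 3) (nat_lit 0x19) (.s (nat_lit 3) (nat_lit 0x16) (.l (nat_lit 0xc63000008020))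
 (.l (nat_lit 0xc041c1030120))
) (.s (nat_lit 3) (nat_lit 0x1d) (.s (nat_lit 3) (nat_lit 0x1b) (.l (nat_lit 0x41c1030120))
 (.l (nat_lit 0x8041c1030120))
) (.l (nat_lit 0x63000008020))
))) (.z (nat_lit 1) (.l (nat_lit 0x60830018))
 (.l (nat_lit 0x60000118))
)))))) (.z (nat_lit 0xa) (.l (nat_lit 0x820210))
 (.l (nat_lit 0x830010))
)))) (.s (nat_lit 1) (nat_lit 0x22) (.s (nat_lit 1) (nat_lit 0x21) (.z (nat_lit 3) (.s (nat_lit 2) (nat_lit 0x13) (.l (nat_lit 0x820010))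
 (.s (nat_lit 2) (nat_lit 0x1a) (.s (nat_lit 2) (nat_lit 0x17) (.s (nat_lit 2) (nat_lit 0x15) (.l (nat_lit 0x8820430018))
 (.l (nat_lit 0x8060000118))
) (.s (nat_lit 2) (nat_lit 0x19) (.s (nat_lit 2) (nat_lit 0x18) (.l (nat_lit 0x8060000118))
 (.l (nat_lit 0x8060000118))
) (.l (nat_lit 0x8060000118))
)) (.s (nat_lit 2) (nat_lit 0x1e) (.s (nat_lit 2) (nat_lit 0x1c) (.l (nat_lit 0x800800118))
 (.l (nat_lit 0x60800118))
) (.s (nat_lit 2) (nat_lit 0x20) (.s (nat_lit 2) (nat_lit 0x1f) (.z (nat_lit 0) (.s (nat_lit 3) (nat_lit 0x12) (.l (nat_lit 0x60030018))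
 (.s (nat_lit 3) (nat_lit 0x19) (.s (nat_lit 3) (nat_lit 0x16) (.l (nat_lit 0xc60040010320))
 (.l (nat_lit 0xc24020810320))
) (.s (nat_lit 3) (nat_lit 0x1c) (.s (nat_lit 3) (nat_lit 0x1b) (.l (nat_lit 0x804040010320))
 (.l (nat_lit 0x804040010320))
) (.l (nat_lit 0x42082810320))
))) (.l (nat_lit 0x10060800318))
) (.l (nat_lit 0x60000118))
) (.l (nat_lit 0x60830018))
)))) (.z (nat_lit 0xb) (.l (nat_lit 0x800110))
 (.l (nat_lit 0x830010))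
)) (.z (nat_lit 2) (.s (nat_lit 2) (nat_lit 0x13) (.l (nat_lit 0x820010))
 (.s (nat_lit 2) (nat_lit 0x1b) (.s (nat_lit 2) (nat_lit 0x17) (.l (nat_lit 0x8800400118))
 (.s (nat_lit 2) (nat_lit 0x19) (.l (nat_lit 0x8060000118))
 (.l (nat_lit 0x60800118))
)) (.s (nat_lit 2) (nat_lit 0x1f) (.s (nat_lit 2) (nat_lit 0x1d) (.l (nat_lit 0x60800118))
 (.s (nat_lit 2) (nat_lit 0x1e) (.l (nat_lit 0x460020218))
 (.l (nat_lit 0x60000118))
)) (.l (nat_lit 0x60000118))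
))) (.l (nat_lit 0x800110))
)) (.s (nat_lit 1) (nat_lit 0x23) (.z (nat_lit 1) (.s (nat_lit 2) (nat_lit 0x14) (.l (nat_lit 0x820010))
 (.s (nat_lit 2) (nat_lit 0x1c) (.s (nat_lit 2) (nat_lit 0x18) (.l (nat_lit 0x8060000118))
 (.l (nat_lit 0x800800118))
) (.s (nat_lit 2) (nat_lit 0x20) (.s (nat_lit 2) (nat_lit 0x1e) (.l (nat_lit 0x460020218))
 (.l (nat_lit 0x60000118))
) (.l (nat_lit 0x60000118))
))) (.l (nat_lit 0x800110))
) (.z (nat_lit 2) (.s (nat_lit 2) (nat_lit 0x14) (.l (nat_lit 0x820010))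
 (.s (nat_lit 2) (nat_lit 0x1c) (.s (nat_lit 2) (nat_lit 0x18) (.l (nat_lit 0x8060000118))
 (.l (nat_lit 0x60800118))
) (.s (nat_lit 2) (nat_lit 0x20) (.s (nat_lit 2) (nat_lit 0x1e) (.l (nat_lit 0x8060830018))
 (.l (nat_lit 0x60830018))
) (.l (nat_lit 0x60000118))
))) (.z (nat_lit 0xb) (.l (nat_lit 0x820210))
 (.l (nat_lit 0x8030010))
)))))

theorem u54 : check tb r54 [35, 28, 0, 0, 0, 0, 0, 0, 0, 0, 0, 0, 0, 0, 0, 0, 0, 0]
    [36, 36, 36, 36, 36, 36, 36, 36, 36, 36, 36, 36, 36, 36, 36, 36, 36, 36] 0 14 0 = true := by decide +kernel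

noncomputable def r55 : Rt :=
(.z (nat_lit 0x16) (.l (nat_lit 0x108))
 (.l (nat_lit 8))
)

theorem u55 : check tb r55 [35, 0, 0, 0, 0, 0, 0, 0, 0, 0, 0, 0, 0, 0, 0, 0, 0, 0]
    [36, 36, 36, 36, 36, 36, 36, 36, 36, 36, 36, 36, 36, 36, 36, 36, 36, 36] 15 97 0 = true := by decide +kernel

noncomputable def r56 : Rt :=
(.l (nat_lit 0x8008))


theorem u56 : check tb r56 [36, 0, 0, 0, 0, 0, 0, 0, 0, 0, 0, 0, 0, 0, 0, 0, 0, 0]
    [37, 21, 21, 21, 21, 21, 21, 21, 21, 21, 21, 21, 21, 21, 21, 21, 21, 21] 0 13 0 = true := by decide +kernel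

noncomputable def r57 : Rt :=
(.s (nat_lit 1) (nat_lit 0x19) (.s (nat_lit 1) (nat_lit 0x17) (.s (nat_lit 1) (nat_lit 0x16) (.l (nat_lit 0x100810110))
 (.z (nat_lit 0) (.s (nat_lit 2) (nat_lit 0xe) (.l (nat_lit 0x108000010))
 (.s (nat_lit 2) (nat_lit 0x13) (.l (nat_lit 0x861020018))
 (.s (nat_lit 2) (nat_lit 0x15) (.l (nat_lit 0x861020018))
 (.s (nat_lit 2) (nat_lit 0x16) (.l (nat_lit 0x861020018))
 (.s (nat_lit 3) (nat_lit 0xe) (.l (nat_lit 0x60820218))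
 (.s (nat_lit 3) (nat_lit 0x13) (.l (nat_lit 0x1804040820220))
 (.s (nat_lit 3) (nat_lit 0x15) (.l (nat_lit 0x1c60020810120))
 (.l (nat_lit 0x1c60060800120))
))))))) (.l (nat_lit 0x100800110))
)) (.s (nat_lit 1) (nat_lit 0x18) (.z (nat_lit 0) (.s (nat_lit 2) (nat_lit 0xe) (.l (nat_lit 0x108000010))
 (.s (nat_lit 2) (nat_lit 0x13) (.l (nat_lit 0x861020018))
 (.s (nat_lit 2) (nat_lit 0x16) (.s (nat_lit 2) (nat_lit 0x15) (.l (nat_lit 0x861020018))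
 (.l (nat_lit 0x18060800118))
) (.s (nat_lit 2) (nat_lit 0x17) (.l (nat_lit 0x18800c20218))
 (.s (nat_lit 3) (nat_lit 0xe) (.l (nat_lit 0x60830218))
 (.s (nat_lit 3) (nat_lit 0x13) (.l (nat_lit 0x1c04000830220))
 (.s (nat_lit 3) (nat_lit 0x16) (.l (nat_lit 0x1804040830220))
 (.l (nat_lit 0x1c60060810120))
))))))) (.l (nat_lit 0x100810110))
) (.z (nat_lit 0) (.s (nat_lit 2) (nat_lit 0xf) (.l (nat_lit 0x108000010))
 (.s (nat_lit 2) (nat_lit 0x14) (.l (nat_lit 0x861020018))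
 (.s (nat_lit 2) (nat_lit 0x17) (.s (nat_lit 2) (nat_lit 0x16) (.l (nat_lit 0x8060810118))
 (.l (nat_lit 0x18060810118))
) (.s (nat_lit 2) (nat_lit 0x18) (.s (nat_lit 3) (nat_lit 0xe) (.l (nat_lit 0x60830218))
 (.s (nat_lit 3) (nat_lit 0x13) (.l (nat_lit 0x1804000830220))
 (.s (nat_lit 3) (nat_lit 0x16) (.l (nat_lit 0x1c60060810120))
 (.l (nat_lit 0x1044000c30220))
))) (.s (nat_lit 3) (nat_lit 0xf) (.l (nat_lit 0x60830218))
 (.s (nat_lit 3) (nat_lit 0x14) (.l (nat_lit 0x1804000830220))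
 (.s (nat_lit 3) (nat_lit 0x17) (.l (nat_lit 0x1460060810120))
 (.l (nat_lit 0x1804000830220))
))))))) (.z (nat_lit 2) (.l (nat_lit 0x100830210))
 (.l (nat_lit 0x100820010))
)))) (.s (nat_lit 1) (nat_lit 0x1b) (.s (nat_lit 1) (nat_lit 0x1a) (.z (nat_lit 2) (.s (nat_lit 2) (nat_lit 0xf) (.l (nat_lit 0x108000010))
 (.s (nat_lit 2) (nat_lit 0x15) (.s (nat_lit 2) (nat_lit 0x12) (.l (nat_lit 0x861020018))
 (.s (nat_lit 2) (nat_lit 0x14) (.l (nat_lit 0x18820c20018))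
 (.l (nat_lit 0x18060000118))
)) (.s (nat_lit 2) (nat_lit 0x18) (.s (nat_lit 2) (nat_lit 0x17) (.s (nat_lit 2) (nat_lit 0x16) (.l (nat_lit 0x18060800118))
 (.l (nat_lit 0x8060810118))
) (.z (nat_lit 0) (.s (nat_lit 3) (nat_lit 0xe) (.l (nat_lit 0x60830218))
 (.s (nat_lit 3) (nat_lit 0x13) (.l (nat_lit 0x804000830220))
 (.s (nat_lit 3) (nat_lit 0x16) (.l (nat_lit 0xc60060810120))
 (.l (nat_lit 0x804000830220))
))) (.l (nat_lit 0x18060830018))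
)) (.s (nat_lit 2) (nat_lit 0x19) (.z (nat_lit 0) (.s (nat_lit 3) (nat_lit 0xf) (.l (nat_lit 0x60820218))
 (.s (nat_lit 3) (nat_lit 0x14) (.l (nat_lit 0x804000830220))
 (.s (nat_lit 3) (nat_lit 0x17) (.l (nat_lit 0x460060810120))
 (.s (nat_lit 3) (nat_lit 0x18) (.l (nat_lit 0x4000830220))
 (.l (nat_lit 0xc04040810120))
)))) (.l (nat_lit 0x18060800118))
) (.s (nat_lit 3) (nat_lit 0xf) (.l (nat_lit 0x60830218))
 (.s (nat_lit 3) (nat_lit 0x15) (.l (nat_lit 0x464001820320))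
 (.s (nat_lit 3) (nat_lit 0x18) (.s (nat_lit 3) (nat_lit 0x17) (.l (nat_lit 0x4000830220))
 (.l (nat_lit 0x404040810120))
) (.l (nat_lit 0x63001010020))
))))))) (.l (nat_lit 0x100800110))
) (.z (nat_lit 3) (.s (nat_lit 2) (nat_lit 0x10) (.l (nat_lit 0x108000010))
 (.s (nat_lit 2) (nat_lit 0x16) (.s (nat_lit 2) (nat_lit 0x13) (.l (nat_lit 0x18060000118))
 (.l (nat_lit 0x8060810118))
) (.s (nat_lit 2) (nat_lit 0x19) (.s (nat_lit 2) (nat_lit 0x18) (.l (nat_lit 0x8800c30218))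
 (.z (nat_lit 0) (.s (nat_lit 3) (nat_lit 0xf) (.l (nat_lit 0x60030218))
 (.s (nat_lit 3) (nat_lit 0x14) (.l (nat_lit 0x4000830220))
 (.s (nat_lit 3) (nat_lit 0x17) (.l (nat_lit 0x804000830220))
 (.l (nat_lit 0x1044000c20020))
))) (.l (nat_lit 0x18060800118))
)) (.s (nat_lit 2) (nat_lit 0x1a) (.z (nat_lit 1) (.s (nat_lit 3) (nat_lit 0xf) (.l (nat_lit 0x60830218))
 (.s (nat_lit 3) (nat_lit 0x15) (.s (nat_lit 3) (nat_lit 0x12) (.l (nat_lit 0x4000830220))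
 (.l (nat_lit 0x4000830220))
) (.s (nat_lit 3) (nat_lit 0x18) (.s (nat_lit 3) (nat_lit 0x17) (.l (nat_lit 0x404040810120))
 (.l (nat_lit 0x404000810120))
) (.l (nat_lit 0x63001010020))
))) (.l (nat_lit 0x10060800118))
) (.z (nat_lit 0) (.s (nat_lit 3) (nat_lit 0x10) (.l (nat_lit 0x60810118))
 (.s (nat_lit 3) (nat_lit 0x16) (.l (nat_lit 0x460060810120))
 (.s (nat_lit 3) (nat_lit 0x19) (.l (nat_lit 0x63001010020))
 (.l (nat_lit 0x63001820120))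
))) (.l (nat_lit 0x60810118))
))))) (.l (nat_lit 0x100830010))
)) (.s (nat_lit 1) (nat_lit 0x1c) (.z (nat_lit 3) (.s (nat_lit 2) (nat_lit 0x10) (.l (nat_lit 0x108000010))
 (.s (nat_lit 2) (nat_lit 0x16) (.s (nat_lit 2) (nat_lit 0x13) (.l (nat_lit 0x18060000118))
 (.l (nat_lit 0x8060810118))
) (.s (nat_lit 2) (nat_lit 0x19) (.s (nat_lit 2) (nat_lit 0x18) (.s (nat_lit 2) (nat_lit 0x17) (.l (nat_lit 0x18060800118))
 (.l (nat_lit 0x8060810118))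
) (.l (nat_lit 0x8060810118))
) (.s (nat_lit 2) (nat_lit 0x1b) (.s (nat_lit 2) (nat_lit 0x1a) (.z (nat_lit 0) (.s (nat_lit 3) (nat_lit 0xf) (.l (nat_lit 0x60830218))
 (.s (nat_lit 3) (nat_lit 0x15) (.l (nat_lit 0x460060810120))
 (.s (nat_lit 3) (nat_lit 0x18) (.l (nat_lit 0x404040810120))
 (.l (nat_lit 0x63001010020))
))) (.l (nat_lit 0x18060000118))
) (.z (nat_lit 0) (.s (nat_lit 3) (nat_lit 0x10) (.l (nat_lit 0x60810118))
 (.s (nat_lit 3) (nat_lit 0x16) (.s (nat_lit 3) (nat_lit 0x13) (.l (nat_lit 0x404000810120))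
 (.l (nat_lit 0x404000810120))
) (.s (nat_lit 3) (nat_lit 0x19) (.l (nat_lit 0x404040810120))
 (.l (nat_lit 0x4040810120))
))) (.l (nat_lit 0x10060800118))
)) (.z (nat_lit 0) (.s (nat_lit 3) (nat_lit 0x10) (.l (nat_lit 0x60830218))
 (.s (nat_lit 3) (nat_lit 0x16) (.l (nat_lit 0x1860040830020))
 (.s (nat_lit 3) (nat_lit 0x19) (.l (nat_lit 0x404040810120))
 (.l (nat_lit 0x4040810120))
))) (.l (nat_lit 0x10800800118))
))))) (.l (nat_lit 0x830210))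
) (.z (nat_lit 2) (.s (nat_lit 2) (nat_lit 0x11) (.l (nat_lit 0x108010010))
 (.s (nat_lit 2) (nat_lit 0x17) (.s (nat_lit 2) (nat_lit 0x14) (.l (nat_lit 0x18800020018))
 (.l (nat_lit 0x8060810118))
) (.s (nat_lit 2) (nat_lit 0x1a) (.s (nat_lit 2) (nat_lit 0x19) (.s (nat_lit 2) (nat_lit 0x18) (.l (nat_lit 0x60810118))
 (.l (nat_lit 0x60810118))
) (.z (nat_lit 0) (.s (nat_lit 3) (nat_lit 0xf) (.l (nat_lit 0x60830218))
 (.s (nat_lit 3) (nat_lit 0x15) (.l (nat_lit 0x404040810120))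
 (.s (nat_lit 3) (nat_lit 0x18) (.l (nat_lit 0x404040810120))
 (.l (nat_lit 0x4040810120))
))) (.l (nat_lit 0x18060000118))
)) (.s (nat_lit 2) (nat_lit 0x1c) (.s (nat_lit 2) (nat_lit 0x1b) (.l (nat_lit 0x60810118))
 (.l (nat_lit 0x8800410118))
) (.l (nat_lit 0x60830218))
)))) (.z (nat_lit 3) (.l (nat_lit 0x100820210))
 (.l (nat_lit 0x830210))
)))))

theorem u57 : check tb r57 [36, 21, 0, 0, 0, 0, 0, 0, 0, 0, 0, 0, 0, 0, 0, 0, 0, 0]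
    [37, 29, 29, 29, 29, 29, 29, 29, 29, 29, 29, 29, 29, 29, 29, 29, 29, 29] 0 13 0 = true := by decide +kernel

noncomputable def r58 : Rt :=
(.s (nat_lit 1) (nat_lit 0x21) (.s (nat_lit 1) (nat_lit 0x1f) (.s (nat_lit 1) (nat_lit 0x1e) (.z (nat_lit 3) (.s (nat_lit 2) (nat_lit 0x11) (.l (nat_lit 0x108000010))
 (.s (nat_lit 2) (nat_lit 0x18) (.s (nat_lit 2) (nat_lit 0x15) (.l (nat_lit 0x18060800118))
 (.l (nat_lit 0x8060810118))
) (.s (nat_lit 2) (nat_lit 0x1b) (.s (nat_lit 2) (nat_lit 0x1a) (.s (nat_lit 2) (nat_lit 0x19) (.l (nat_lit 0x18800400118))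
 (.l (nat_lit 0x8800410118))
) (.l (nat_lit 0x8060010118))
) (.s (nat_lit 2) (nat_lit 0x1d) (.l (nat_lit 0x60830218))
 (.l (nat_lit 0x10060800118))
)))) (.l (nat_lit 0x8010110))
) (.z (nat_lit 9) (.s (nat_lit 2) (nat_lit 0x12) (.l (nat_lit 0x108010010))
 (.s (nat_lit 2) (nat_lit 0x19) (.s (nat_lit 2) (nat_lit 0x16) (.s (nat_lit 2) (nat_lit 0x14) (.l (nat_lit 0x18820420018))
 (.l (nat_lit 0x8060800118))
) (.s (nat_lit 2) (nat_lit 0x18) (.s (nat_lit 2) (nat_lit 0x17) (.l (nat_lit 0x18060000118))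
 (.l (nat_lit 0x18800400118))
) (.l (nat_lit 0x8800400118))
)) (.s (nat_lit 2) (nat_lit 0x1c) (.s (nat_lit 2) (nat_lit 0x1b) (.s (nat_lit 2) (nat_lit 0x1a) (.z (nat_lit 0) (.s (nat_lit 3) (nat_lit 0xf) (.l (nat_lit 0x460420218))
 (.s (nat_lit 3) (nat_lit 0x15) (.l (nat_lit 0x1860040830020))
 (.s (nat_lit 3) (nat_lit 0x18) (.s (nat_lit 3) (nat_lit 0x17) (.l (nat_lit 0x1404040800120))
 (.l (nat_lit 0x1804000830020))
) (.l (nat_lit 0x1804000830020))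
))) (.l (nat_lit 0x18060830018))
) (.z (nat_lit 0) (.s (nat_lit 3) (nat_lit 0x10) (.l (nat_lit 0x60800118))
 (.s (nat_lit 3) (nat_lit 0x16) (.s (nat_lit 3) (nat_lit 0x13) (.l (nat_lit 0x404000800120))
 (.l (nat_lit 0x1404000800120))
) (.s (nat_lit 3) (nat_lit 0x19) (.l (nat_lit 0x1804000830020))
 (.l (nat_lit 0x4040800120))
))) (.l (nat_lit 0x18460420018))
)) (.z (nat_lit 0) (.s (nat_lit 3) (nat_lit 0x10) (.l (nat_lit 0x460420218))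
 (.s (nat_lit 3) (nat_lit 0x16) (.s (nat_lit 3) (nat_lit 0x13) (.l (nat_lit 0x801180420220))
 (.l (nat_lit 0x8011c0420220))
) (.s (nat_lit 3) (nat_lit 0x19) (.l (nat_lit 0x4040800120))
 (.s (nat_lit 3) (nat_lit 0x1b) (.s (nat_lit 3) (nat_lit 0x1a) (.l (nat_lit 0x864000800120))
 (.l (nat_lit 0x64000800120))
) (.l (nat_lit 0x64000800120))
)))) (.l (nat_lit 0x10060800118))
)) (.s (nat_lit 2) (nat_lit 0x1e) (.s (nat_lit 2) (nat_lit 0x1d) (.l (nat_lit 0x10800800118))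
 (.l (nat_lit 0x10060800118))
) (.z (nat_lit 5) (.s (nat_lit 3) (nat_lit 0x12) (.l (nat_lit 0x860028018))
 (.s (nat_lit 3) (nat_lit 0x19) (.s (nat_lit 3) (nat_lit 0x16) (.l (nat_lit 0x1044000000120))
 (.l (nat_lit 0x463040008220))
) (.s (nat_lit 3) (nat_lit 0x1c) (.s (nat_lit 3) (nat_lit 0x1b) (.l (nat_lit 0x463041800020))
 (.l (nat_lit 0x8041c1030120))
) (.s (nat_lit 3) (nat_lit 0x1e) (.l (nat_lit 0x63000008220))
 (.l (nat_lit 0x63000008020))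
)))) (.z (nat_lit 7) (.l (nat_lit 0x10400008018))
 (.l (nat_lit 0x60830018))
)))))) (.z (nat_lit 0xa) (.l (nat_lit 0x820210))
 (.l (nat_lit 0x830010))
))) (.s (nat_lit 1) (nat_lit 0x20) (.z (nat_lit 8) (.s (nat_lit 2) (nat_lit 0x12) (.l (nat_lit 0x108010010))
 (.s (nat_lit 2) (nat_lit 0x19) (.s (nat_lit 2) (nat_lit 0x16) (.s (nat_lit 2) (nat_lit 0x14) (.l (nat_lit 0x18820020018))
 (.l (nat_lit 0x8800830018))
) (.s (nat_lit 2) (nat_lit 0x18) (.l (nat_lit 0x8800400118))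
 (.z (nat_lit 0) (.s (nat_lit 3) (nat_lit 0xf) (.l (nat_lit 0x460420218))
 (.s (nat_lit 3) (nat_lit 0x14) (.l (nat_lit 0xc001a0420220))
 (.s (nat_lit 3) (nat_lit 0x17) (.l (nat_lit 0x804040000120))
 (.l (nat_lit 0x444000410320))
))) (.l (nat_lit 0x18060020018))
))) (.s (nat_lit 2) (nat_lit 0x1d) (.s (nat_lit 2) (nat_lit 0x1b) (.s (nat_lit 2) (nat_lit 0x1a) (.z (nat_lit 0) (.s (nat_lit 3) (nat_lit 0xf) (.l (nat_lit 0x460420218))
 (.s (nat_lit 3) (nat_lit 0x15) (.s (nat_lit 3) (nat_lit 0x12) (.l (nat_lit 0x1180420220))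
 (.l (nat_lit 0x404000800120))
) (.s (nat_lit 3) (nat_lit 0x18) (.l (nat_lit 0x444000000120))
 (.l (nat_lit 0x4040800120))
))) (.l (nat_lit 0x18460420018))
) (.z (nat_lit 0) (.s (nat_lit 3) (nat_lit 0x10) (.l (nat_lit 0x60800118))
 (.s (nat_lit 3) (nat_lit 0x16) (.s (nat_lit 3) (nat_lit 0x13) (.l (nat_lit 0x4000800120))
 (.l (nat_lit 0x404000800120))
) (.s (nat_lit 3) (nat_lit 0x19) (.l (nat_lit 0x4040800120))
 (.s (nat_lit 3) (nat_lit 0x1a) (.l (nat_lit 0x4040800120))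
 (.l (nat_lit 0x64000800120))
)))) (.l (nat_lit 0x18460420018))
)) (.s (nat_lit 2) (nat_lit 0x1c) (.z (nat_lit 0) (.s (nat_lit 3) (nat_lit 0x10) (.l (nat_lit 0x60820218))
 (.s (nat_lit 3) (nat_lit 0x16) (.s (nat_lit 3) (nat_lit 0x13) (.l (nat_lit 0x1180820220))
 (.l (nat_lit 0x4011c0820220))
) (.s (nat_lit 3) (nat_lit 0x19) (.l (nat_lit 0x4040800120))
 (.l (nat_lit 0x64000800120))
))) (.l (nat_lit 0x60800118))
) (.l (nat_lit 0x800800118))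
)) (.s (nat_lit 2) (nat_lit 0x1f) (.s (nat_lit 2) (nat_lit 0x1e) (.l (nat_lit 0x60800118))
 (.z (nat_lit 0) (.s (nat_lit 3) (nat_lit 0x12) (.l (nat_lit 0x860028018))
 (.s (nat_lit 3) (nat_lit 0x19) (.s (nat_lit 3) (nat_lit 0x16) (.l (nat_lit 0xc63000008020))
 (.l (nat_lit 0x1c04040010320))
) (.s (nat_lit 3) (nat_lit 0x1c) (.s (nat_lit 3) (nat_lit 0x1b) (.l (nat_lit 0x463000008020))
 (.l (nat_lit 0x8041c1010220))
) (.s (nat_lit 3) (nat_lit 0x1e) (.l (nat_lit 0x63000008220))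
 (.l (nat_lit 0x63000008020))
)))) (.l (nat_lit 0x8060000118))
)) (.z (nat_lit 0) (.s (nat_lit 3) (nat_lit 0x12) (.l (nat_lit 0x60830018))
 (.s (nat_lit 3) (nat_lit 0x19) (.s (nat_lit 3) (nat_lit 0x16) (.l (nat_lit 0xc63000008020))
 (.l (nat_lit 0x4041c1030120))
) (.s (nat_lit 3) (nat_lit 0x1d) (.l (nat_lit 0x1804040800320))
 (.l (nat_lit 0x63000008020))
))) (.l (nat_lit 0x60000118))
))))) (.z (nat_lit 0xa) (.l (nat_lit 0x820210))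
 (.l (nat_lit 0x830010))
)) (.z (nat_lit 7) (.s (nat_lit 2) (nat_lit 0x13) (.l (nat_lit 0x820010))
 (.s (nat_lit 2) (nat_lit 0x1a) (.s (nat_lit 2) (nat_lit 0x17) (.s (nat_lit 2) (nat_lit 0x15) (.l (nat_lit 0x8800830018))
 (.l (nat_lit 0x8060000118))
) (.s (nat_lit 2) (nat_lit 0x19) (.l (nat_lit 0x8060800118))
 (.l (nat_lit 0x8800000118))
)) (.s (nat_lit 2) (nat_lit 0x1e) (.s (nat_lit 2) (nat_lit 0x1c) (.s (nat_lit 2) (nat_lit 0x1b) (.l (nat_lit 0x8060000118))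
 (.l (nat_lit 0x800800118))
) (.s (nat_lit 2) (nat_lit 0x1d) (.l (nat_lit 0x60800118))
 (.l (nat_lit 0x460020218))
)) (.s (nat_lit 2) (nat_lit 0x20) (.s (nat_lit 2) (nat_lit 0x1f) (.z (nat_lit 0) (.s (nat_lit 3) (nat_lit 0x12) (.l (nat_lit 0x460430018))
 (.s (nat_lit 3) (nat_lit 0x19) (.s (nat_lit 3) (nat_lit 0x16) (.l (nat_lit 0xc64000008020))
 (.l (nat_lit 0x804040010320))
) (.s (nat_lit 3) (nat_lit 0x1c) (.l (nat_lit 0x804040010320))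
 (.s (nat_lit 3) (nat_lit 0x1e) (.l (nat_lit 0x63000008220))
 (.l (nat_lit 0x63000008020))
)))) (.l (nat_lit 0x60000118))
) (.l (nat_lit 0x60000118))
) (.l (nat_lit 0x60000118))
)))) (.z (nat_lit 9) (.l (nat_lit 0x800110))
 (.l (nat_lit 0x820210))
)))) (.s (nat_lit 1) (nat_lit 0x23) (.s (nat_lit 1) (nat_lit 0x22) (.z (nat_lit 5) (.s (nat_lit 2) (nat_lit 0x13) (.l (nat_lit 0x820010))
 (.s (nat_lit 2) (nat_lit 0x1b) (.s (nat_lit 2) (nat_lit 0x17) (.l (nat_lit 0x8800400118))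
 (.s (nat_lit 2) (nat_lit 0x19) (.l (nat_lit 0x8060000118))
 (.l (nat_lit 0x8060000118))
)) (.s (nat_lit 2) (nat_lit 0x1f) (.s (nat_lit 2) (nat_lit 0x1d) (.s (nat_lit 2) (nat_lit 0x1c) (.l (nat_lit 0x60800118))
 (.l (nat_lit 0x460020218))
) (.s (nat_lit 2) (nat_lit 0x1e) (.l (nat_lit 0x8060000118))
 (.l (nat_lit 0x60000118))
)) (.l (nat_lit 0x60000118))
))) (.z (nat_lit 6) (.l (nat_lit 0x820210))
 (.z (nat_lit 0xa) (.l (nat_lit 0x800110))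
 (.l (nat_lit 0x8010310))
))) (.z (nat_lit 2) (.s (nat_lit 2) (nat_lit 0x14) (.l (nat_lit 0x820010))
 (.s (nat_lit 2) (nat_lit 0x1c) (.s (nat_lit 2) (nat_lit 0x18) (.l (nat_lit 0x8060800118))
 (.l (nat_lit 0x800800118))
) (.s (nat_lit 2) (nat_lit 0x20) (.s (nat_lit 2) (nat_lit 0x1e) (.l (nat_lit 0x8060000118))
 (.l (nat_lit 0x60000118))
) (.l (nat_lit 0x60000118))
))) (.z (nat_lit 0xb) (.l (nat_lit 0x820210))
 (.l (nat_lit 0x8030010))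
))) (.s (nat_lit 1) (nat_lit 0x24) (.z (nat_lit 2) (.s (nat_lit 2) (nat_lit 0x14) (.l (nat_lit 0x820010))
 (.s (nat_lit 2) (nat_lit 0x1c) (.s (nat_lit 2) (nat_lit 0x18) (.l (nat_lit 0x8060000118))
 (.s (nat_lit 2) (nat_lit 0x1a) (.l (nat_lit 0x8460430018))
 (.l (nat_lit 0x8060000118))
)) (.s (nat_lit 2) (nat_lit 0x20) (.s (nat_lit 2) (nat_lit 0x1e) (.l (nat_lit 0x8060830018))
 (.l (nat_lit 0x60830018))
) (.l (nat_lit 0x60000118))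
))) (.l (nat_lit 0x8000110))
) (.z (nat_lit 0) (.s (nat_lit 2) (nat_lit 0x15) (.l (nat_lit 0x100820010))
 (.s (nat_lit 2) (nat_lit 0x1d) (.s (nat_lit 2) (nat_lit 0x19) (.l (nat_lit 0x8060830018))
 (.l (nat_lit 0x60800118))
) (.s (nat_lit 2) (nat_lit 0x21) (.l (nat_lit 0x60000118))
 (.l (nat_lit 0x860020018))
))) (.l (nat_lit 0x8000110))
))))

theorem u58 : check tb r58 [36, 29, 0, 0, 0, 0, 0, 0, 0, 0, 0, 0, 0, 0, 0, 0, 0, 0]
    [37, 37, 37, 37, 37, 37, 37, 37, 37, 37, 37, 37, 37, 37, 37, 37, 37, 37] 0 13 0 = true := by decide +kernel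

noncomputable def r59 : Rt :=
(.z (nat_lit 0x14) (.l (nat_lit 0x108))
 (.l (nat_lit 0x8008))
)

theorem u59 : check tb r59 [36, 0, 0, 0, 0, 0, 0, 0, 0, 0, 0, 0, 0, 0, 0, 0, 0, 0]
    [37, 37, 37, 37, 37, 37, 37, 37, 37, 37, 37, 37, 37, 37, 37, 37, 37, 37] 14 97 0 = true := by decide +kernel

noncomputable def r60 : Rt :=
(.l (nat_lit 0x8008))


theorem u60 : check tb r60 [37, 0, 0, 0, 0, 0, 0, 0, 0, 0, 0, 0, 0, 0, 0, 0, 0, 0]
    [38, 21, 21, 21, 21, 21, 21, 21, 21, 21, 21, 21, 21, 21, 21, 21, 21, 21] 0 13 0 = true := by decide +kernel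

noncomputable def r61 : Rt :=
(.s (nat_lit 1) (nat_lit 0x1a) (.s (nat_lit 1) (nat_lit 0x18) (.s (nat_lit 1) (nat_lit 0x17) (.s (nat_lit 1) (nat_lit 0x16) (.l (nat_lit 0x100800110))
 (.z (nat_lit 0) (.s (nat_lit 2) (nat_lit 0xe) (.l (nat_lit 0x108000010))
 (.s (nat_lit 2) (nat_lit 0x13) (.l (nat_lit 0x861020018))
 (.s (nat_lit 2) (nat_lit 0x15) (.l (nat_lit 0x861020018))
 (.l (nat_lit 0x861020018))
))) (.l (nat_lit 0x108010310))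
)) (.z (nat_lit 1) (.s (nat_lit 2) (nat_lit 0xe) (.l (nat_lit 0x108000010))
 (.s (nat_lit 2) (nat_lit 0x13) (.l (nat_lit 0x861020018))
 (.s (nat_lit 2) (nat_lit 0x16) (.l (nat_lit 0x18060810118))
 (.s (nat_lit 2) (nat_lit 0x17) (.l (nat_lit 0x8861030318))
 (.l (nat_lit 0x18800c30218))
)))) (.l (nat_lit 0x100830010))
)) (.s (nat_lit 1) (nat_lit 0x19) (.z (nat_lit 0) (.s (nat_lit 2) (nat_lit 0xf) (.l (nat_lit 0x108000010))
 (.s (nat_lit 2) (nat_lit 0x14) (.l (nat_lit 0x861020018))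
 (.s (nat_lit 2) (nat_lit 0x17) (.s (nat_lit 2) (nat_lit 0x16) (.l (nat_lit 0x18060800118))
 (.l (nat_lit 0x18800c30218))
) (.s (nat_lit 2) (nat_lit 0x18) (.l (nat_lit 0x18800c30218))
 (.s (nat_lit 3) (nat_lit 0xf) (.l (nat_lit 0x60820218))
 (.s (nat_lit 3) (nat_lit 0x14) (.l (nat_lit 0x1004000830220))
 (.s (nat_lit 3) (nat_lit 0x17) (.l (nat_lit 0x464001010020))
 (.l (nat_lit 0x464040838020))
))))))) (.l (nat_lit 0x100830210))
) (.z (nat_lit 2) (.s (nat_lit 2) (nat_lit 0xf) (.l (nat_lit 0x108000010))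
 (.s (nat_lit 2) (nat_lit 0x15) (.s (nat_lit 2) (nat_lit 0x12) (.l (nat_lit 0x861020018))
 (.l (nat_lit 0x10800828218))
) (.s (nat_lit 2) (nat_lit 0x18) (.s (nat_lit 2) (nat_lit 0x17) (.l (nat_lit 0x18800c30218))
 (.l (nat_lit 0x8800c30218))
) (.s (nat_lit 2) (nat_lit 0x19) (.z (nat_lit 0) (.s (nat_lit 3) (nat_lit 0xf) (.l (nat_lit 0x60030218))
 (.s (nat_lit 3) (nat_lit 0x14) (.l (nat_lit 0x804000830220))
 (.s (nat_lit 3) (nat_lit 0x17) (.l (nat_lit 0x1804000830220))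
 (.l (nat_lit 0x1044000c20020))
))) (.l (nat_lit 0x18800c20018))
) (.z (nat_lit 0) (.s (nat_lit 3) (nat_lit 0xf) (.l (nat_lit 0x860028218))
 (.s (nat_lit 3) (nat_lit 0x15) (.s (nat_lit 3) (nat_lit 0x12) (.l (nat_lit 0x1401180028220))
 (.l (nat_lit 0x4000830220))
) (.s (nat_lit 3) (nat_lit 0x18) (.s (nat_lit 3) (nat_lit 0x17) (.l (nat_lit 0x1860040830020))
 (.l (nat_lit 0x1804040830020))
) (.l (nat_lit 0x63001010020))
))) (.z (nat_lit 1) (.l (nat_lit 0x10060810118))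
 (.s (nat_lit 3) (nat_lit 0xf) (.l (nat_lit 0x860028218))
 (.s (nat_lit 3) (nat_lit 0x15) (.l (nat_lit 0x14011c0028220))
 (.l (nat_lit 0x63001010020))
)))))))) (.l (nat_lit 0x100800110))
))) (.s (nat_lit 1) (nat_lit 0x1c) (.s (nat_lit 1) (nat_lit 0x1b) (.z (nat_lit 2) (.s (nat_lit 2) (nat_lit 0x10) (.l (nat_lit 0x108000010))
 (.s (nat_lit 2) (nat_lit 0x16) (.s (nat_lit 2) (nat_lit 0x13) (.l (nat_lit 0x861020018))
 (.l (nat_lit 0x8060810118))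
) (.s (nat_lit 2) (nat_lit 0x19) (.s (nat_lit 2) (nat_lit 0x18) (.s (nat_lit 2) (nat_lit 0x17) (.l (nat_lit 0x8800c10118))
 (.z (nat_lit 0) (.s (nat_lit 3) (nat_lit 0xe) (.l (nat_lit 0x60820218))
 (.s (nat_lit 3) (nat_lit 0x13) (.l (nat_lit 0x1c60000820020))
 (.s (nat_lit 3) (nat_lit 0x16) (.l (nat_lit 0x804000830220))
 (.s (nat_lit 3) (nat_lit 0x17) (.l (nat_lit 0x4000830220))
 (.l (nat_lit 0x1044000c20020))
)))) (.l (nat_lit 0x18060030018))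
)) (.z (nat_lit 0) (.s (nat_lit 3) (nat_lit 0xf) (.l (nat_lit 0x860028218))
 (.s (nat_lit 3) (nat_lit 0x14) (.l (nat_lit 0x4000830220))
 (.s (nat_lit 3) (nat_lit 0x17) (.s (nat_lit 3) (nat_lit 0x16) (.l (nat_lit 0x4000830220))
 (.l (nat_lit 0xc04040810120))
) (.s (nat_lit 3) (nat_lit 0x18) (.l (nat_lit 0xc04040810120))
 (.l (nat_lit 0x463001010220))
)))) (.l (nat_lit 0x18060030018))
)) (.s (nat_lit 2) (nat_lit 0x1a) (.z (nat_lit 0) (.s (nat_lit 3) (nat_lit 0xf) (.l (nat_lit 0x60830218))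
 (.s (nat_lit 3) (nat_lit 0x15) (.l (nat_lit 0xc60060810120))
 (.s (nat_lit 3) (nat_lit 0x18) (.s (nat_lit 3) (nat_lit 0x17) (.l (nat_lit 0x1860040830020))
 (.l (nat_lit 0xc04040810120))
) (.l (nat_lit 0x63001010020))
))) (.l (nat_lit 0x8060810118))
) (.z (nat_lit 0) (.s (nat_lit 3) (nat_lit 0x10) (.l (nat_lit 0x60810118))
 (.s (nat_lit 3) (nat_lit 0x16) (.s (nat_lit 3) (nat_lit 0x13) (.l (nat_lit 0x404000810120))
 (.l (nat_lit 0x404040810120))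
) (.s (nat_lit 3) (nat_lit 0x19) (.l (nat_lit 0x63001010020))
 (.l (nat_lit 0x63001820120))
))) (.l (nat_lit 0x60810118))
))))) (.z (nat_lit 6) (.l (nat_lit 0x100820210))
 (.l (nat_lit 0x100830010))
)) (.z (nat_lit 3) (.s (nat_lit 2) (nat_lit 0x10) (.l (nat_lit 0x108000010))
 (.s (nat_lit 2) (nat_lit 0x16) (.s (nat_lit 2) (nat_lit 0x13) (.l (nat_lit 0x18820830018))
 (.l (nat_lit 0x18060800118))
) (.s (nat_lit 2) (nat_lit 0x19) (.s (nat_lit 2) (nat_lit 0x18) (.s (nat_lit 2) (nat_lit 0x17) (.l (nat_lit 0x8800c10118))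
 (.z (nat_lit 0) (.s (nat_lit 3) (nat_lit 0xe) (.l (nat_lit 0x60030218))
 (.s (nat_lit 3) (nat_lit 0x13) (.l (nat_lit 0x1860000820020))
 (.s (nat_lit 3) (nat_lit 0x16) (.l (nat_lit 0x4000830220))
 (.l (nat_lit 0x1044000c20020))
))) (.l (nat_lit 0x18060020018))
)) (.l (nat_lit 0x8060830218))
) (.s (nat_lit 2) (nat_lit 0x1b) (.s (nat_lit 2) (nat_lit 0x1a) (.z (nat_lit 0) (.s (nat_lit 3) (nat_lit 0xf) (.l (nat_lit 0x60830218))
 (.s (nat_lit 3) (nat_lit 0x15) (.l (nat_lit 0x460060810120))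
 (.s (nat_lit 3) (nat_lit 0x18) (.s (nat_lit 3) (nat_lit 0x17) (.l (nat_lit 0x1804040830020))
 (.l (nat_lit 0x404040810120))
) (.l (nat_lit 0x1043000c30020))
))) (.l (nat_lit 0x18060000118))
) (.z (nat_lit 0) (.s (nat_lit 3) (nat_lit 0x10) (.l (nat_lit 0x60810118))
 (.s (nat_lit 3) (nat_lit 0x16) (.s (nat_lit 3) (nat_lit 0x13) (.l (nat_lit 0x404000810120))
 (.l (nat_lit 0x404000810120))
) (.s (nat_lit 3) (nat_lit 0x19) (.l (nat_lit 0x63001010020))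
 (.l (nat_lit 0x63001820120))
))) (.l (nat_lit 0x18060000118))
)) (.z (nat_lit 0) (.s (nat_lit 3) (nat_lit 0x10) (.l (nat_lit 0x60830218))
 (.s (nat_lit 3) (nat_lit 0x16) (.l (nat_lit 0x1804040000120))
 (.s (nat_lit 3) (nat_lit 0x19) (.l (nat_lit 0x463001010220))
 (.l (nat_lit 0x63001010220))
))) (.l (nat_lit 0x10800800118))
))))) (.l (nat_lit 0x830210))
)) (.s (nat_lit 1) (nat_lit 0x1d) (.z (nat_lit 2) (.s (nat_lit 2) (nat_lit 0x11) (.l (nat_lit 0x108000010))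
 (.s (nat_lit 2) (nat_lit 0x17) (.s (nat_lit 2) (nat_lit 0x14) (.l (nat_lit 0x18060830018))
 (.s (nat_lit 2) (nat_lit 0x16) (.l (nat_lit 0x18820430018))
 (.l (nat_lit 0x18800830018))
)) (.s (nat_lit 2) (nat_lit 0x1a) (.s (nat_lit 2) (nat_lit 0x19) (.s (nat_lit 2) (nat_lit 0x18) (.l (nat_lit 0x8060810118))
 (.l (nat_lit 0x8060810118))
) (.l (nat_lit 0x8060810118))
) (.s (nat_lit 2) (nat_lit 0x1c) (.s (nat_lit 2) (nat_lit 0x1b) (.l (nat_lit 0x60810118))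
 (.z (nat_lit 0) (.s (nat_lit 3) (nat_lit 0x10) (.l (nat_lit 0x60830218))
 (.s (nat_lit 3) (nat_lit 0x16) (.l (nat_lit 0x424020810120))
 (.s (nat_lit 3) (nat_lit 0x19) (.l (nat_lit 0x424000810120))
 (.l (nat_lit 0x4040810120))
))) (.l (nat_lit 0x10060800118))
)) (.l (nat_lit 0x60830218))
)))) (.l (nat_lit 0x830210))
) (.z (nat_lit 3) (.s (nat_lit 2) (nat_lit 0x11) (.l (nat_lit 0x108000010))
 (.s (nat_lit 2) (nat_lit 0x18) (.s (nat_lit 2) (nat_lit 0x15) (.l (nat_lit 0x18060800118))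
 (.s (nat_lit 2) (nat_lit 0x17) (.l (nat_lit 0x18800830018))
 (.l (nat_lit 0x8060010118))
)) (.s (nat_lit 2) (nat_lit 0x1b) (.s (nat_lit 2) (nat_lit 0x1a) (.s (nat_lit 2) (nat_lit 0x19) (.l (nat_lit 0x8060010118))
 (.l (nat_lit 0x60810118))
) (.l (nat_lit 0x8060010118))
) (.s (nat_lit 2) (nat_lit 0x1d) (.s (nat_lit 2) (nat_lit 0x1c) (.l (nat_lit 0x60830218))
 (.l (nat_lit 0x60810118))
) (.l (nat_lit 0x10060800118))
)))) (.l (nat_lit 0x830210))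
))))

theorem u61 : check tb r61 [37, 21, 0, 0, 0, 0, 0, 0, 0, 0, 0, 0, 0, 0, 0, 0, 0, 0]
    [38, 30, 30, 30, 30, 30, 30, 30, 30, 30, 30, 30, 30, 30, 30, 30, 30, 30] 0 13 0 = true := by decide +kernel

noncomputable def r62 : Rt :=
(.s (nat_lit 1) (nat_lit 0x22) (.s (nat_lit 1) (nat_lit 0x20) (.s (nat_lit 1) (nat_lit 0x1f) (.z (nat_lit 2) (.s (nat_lit 2) (nat_lit 0x12) (.l (nat_lit 0x108010010))
 (.s (nat_lit 2) (nat_lit 0x19) (.s (nat_lit 2) (nat_lit 0x16) (.l (nat_lit 0x8060010118))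
 (.l (nat_lit 0x8060830218))
) (.s (nat_lit 2) (nat_lit 0x1c) (.s (nat_lit 2) (nat_lit 0x1b) (.l (nat_lit 0x8060010118))
 (.l (nat_lit 0x8060010118))
) (.l (nat_lit 0x60810118))
))) (.l (nat_lit 0x810110))
) (.z (nat_lit 7) (.s (nat_lit 2) (nat_lit 0x12) (.l (nat_lit 0x108010010))
 (.s (nat_lit 2) (nat_lit 0x19) (.s (nat_lit 2) (nat_lit 0x16) (.s (nat_lit 2) (nat_lit 0x14) (.l (nat_lit 0x18820020018))
 (.l (nat_lit 0x8800830018))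
) (.s (nat_lit 2) (nat_lit 0x18) (.l (nat_lit 0x8841830318))
 (.z (nat_lit 0) (.s (nat_lit 3) (nat_lit 0xf) (.l (nat_lit 0x60820218))
 (.s (nat_lit 3) (nat_lit 0x14) (.l (nat_lit 0x4001a0820220))
 (.l (nat_lit 0x1044000c30020))
)) (.l (nat_lit 0x18060020018))
))) (.s (nat_lit 2) (nat_lit 0x1d) (.s (nat_lit 2) (nat_lit 0x1b) (.s (nat_lit 2) (nat_lit 0x1a) (.z (nat_lit 0) (.s (nat_lit 3) (nat_lit 0xf) (.l (nat_lit 0x60820218))
 (.s (nat_lit 3) (nat_lit 0x15) (.l (nat_lit 0x1804040000120))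
 (.s (nat_lit 3) (nat_lit 0x18) (.l (nat_lit 0x63001810020))
 (.l (nat_lit 0x44000000120))
))) (.l (nat_lit 0x18460420018))
) (.z (nat_lit 0) (.s (nat_lit 3) (nat_lit 0x10) (.l (nat_lit 0x60800118))
 (.s (nat_lit 3) (nat_lit 0x16) (.l (nat_lit 0x1820000000120))
 (.s (nat_lit 3) (nat_lit 0x19) (.l (nat_lit 0x4040800120))
 (.s (nat_lit 3) (nat_lit 0x1a) (.l (nat_lit 0x464000800120))
 (.l (nat_lit 0x64000800120))
)))) (.l (nat_lit 0x60800118))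
)) (.s (nat_lit 2) (nat_lit 0x1c) (.z (nat_lit 0) (.s (nat_lit 3) (nat_lit 0x10) (.l (nat_lit 0x60820218))
 (.s (nat_lit 3) (nat_lit 0x16) (.l (nat_lit 0x1404000800120))
 (.s (nat_lit 3) (nat_lit 0x19) (.l (nat_lit 0x1400180820220))
 (.l (nat_lit 0x64000800120))
))) (.l (nat_lit 0x60800118))
) (.l (nat_lit 0x10060820218))
)) (.s (nat_lit 2) (nat_lit 0x1f) (.s (nat_lit 2) (nat_lit 0x1e) (.z (nat_lit 0) (.s (nat_lit 3) (nat_lit 0x11) (.l (nat_lit 0x860020218))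
 (.s (nat_lit 3) (nat_lit 0x18) (.s (nat_lit 3) (nat_lit 0x15) (.l (nat_lit 0x1001180020220))
 (.l (nat_lit 0x1804040000320))
) (.s (nat_lit 3) (nat_lit 0x1b) (.l (nat_lit 0x64000800120))
 (.s (nat_lit 3) (nat_lit 0x1d) (.l (nat_lit 0x444182830120))
 (.l (nat_lit 0x11a0020220))
)))) (.l (nat_lit 0x60800118))
) (.l (nat_lit 0x60800118))
) (.z (nat_lit 0) (.s (nat_lit 3) (nat_lit 0x12) (.l (nat_lit 0x860028018))
 (.s (nat_lit 3) (nat_lit 0x19) (.s (nat_lit 3) (nat_lit 0x16) (.l (nat_lit 0xc64000008020))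
 (.l (nat_lit 0x463000008020))
) (.s (nat_lit 3) (nat_lit 0x1d) (.s (nat_lit 3) (nat_lit 0x1b) (.l (nat_lit 0x463041800020))
 (.l (nat_lit 0x463000008020))
) (.l (nat_lit 0x63000008020))
))) (.l (nat_lit 0x8840008018))
))))) (.z (nat_lit 0xb) (.l (nat_lit 0x800110))
 (.l (nat_lit 0x820210))
))) (.s (nat_lit 1) (nat_lit 0x21) (.z (nat_lit 6) (.s (nat_lit 2) (nat_lit 0x13) (.l (nat_lit 0x108010010))
 (.s (nat_lit 2) (nat_lit 0x1a) (.s (nat_lit 2) (nat_lit 0x17) (.s (nat_lit 2) (nat_lit 0x15) (.l (nat_lit 0x18820020018))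
 (.l (nat_lit 0x10861030318))
) (.s (nat_lit 2) (nat_lit 0x19) (.s (nat_lit 2) (nat_lit 0x18) (.l (nat_lit 0x8060800118))
 (.l (nat_lit 0x18060830018))
) (.z (nat_lit 0) (.s (nat_lit 3) (nat_lit 0xf) (.l (nat_lit 0x60820218))
 (.s (nat_lit 3) (nat_lit 0x15) (.l (nat_lit 0x44000400120))
 (.s (nat_lit 3) (nat_lit 0x18) (.l (nat_lit 0x804040800120))
 (.l (nat_lit 0x63001810020))
))) (.l (nat_lit 0x8840808018))
))) (.s (nat_lit 2) (nat_lit 0x1e) (.s (nat_lit 2) (nat_lit 0x1c) (.s (nat_lit 2) (nat_lit 0x1b) (.l (nat_lit 0x60800118))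
 (.l (nat_lit 0x60820218))
) (.s (nat_lit 2) (nat_lit 0x1d) (.z (nat_lit 0) (.s (nat_lit 3) (nat_lit 0x11) (.l (nat_lit 0x860020218))
 (.s (nat_lit 3) (nat_lit 0x17) (.s (nat_lit 3) (nat_lit 0x14) (.l (nat_lit 0x180020220))
 (.l (nat_lit 0x463041010220))
) (.s (nat_lit 3) (nat_lit 0x1a) (.l (nat_lit 0x463040008020))
 (.s (nat_lit 3) (nat_lit 0x1c) (.l (nat_lit 0x443142820220))
 (.l (nat_lit 0x180020220))
)))) (.l (nat_lit 0x60800118))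
) (.l (nat_lit 0x8060000118))
)) (.s (nat_lit 2) (nat_lit 0x20) (.s (nat_lit 2) (nat_lit 0x1f) (.l (nat_lit 0x60800118))
 (.l (nat_lit 0x8060000118))
) (.l (nat_lit 0x60000118))
)))) (.z (nat_lit 0xc) (.l (nat_lit 0x800110))
 (.l (nat_lit 0x820210))
)) (.z (nat_lit 2) (.s (nat_lit 2) (nat_lit 0x13) (.l (nat_lit 0x108010010))
 (.s (nat_lit 2) (nat_lit 0x1b) (.s (nat_lit 2) (nat_lit 0x17) (.s (nat_lit 2) (nat_lit 0x15) (.l (nat_lit 0x8800830018))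
 (.l (nat_lit 0x8820030018))
) (.s (nat_lit 2) (nat_lit 0x19) (.l (nat_lit 0x8060800118))
 (.l (nat_lit 0x60800118))
)) (.s (nat_lit 2) (nat_lit 0x1f) (.s (nat_lit 2) (nat_lit 0x1d) (.s (nat_lit 2) (nat_lit 0x1c) (.l (nat_lit 0x8060000118))
 (.l (nat_lit 0x8060000118))
) (.l (nat_lit 0x60800118))
) (.s (nat_lit 2) (nat_lit 0x21) (.l (nat_lit 0x60000118))
 (.l (nat_lit 0x60000118))
)))) (.l (nat_lit 0x800110))
))) (.s (nat_lit 1) (nat_lit 0x24) (.s (nat_lit 1) (nat_lit 0x23) (.z (nat_lit 1) (.s (nat_lit 2) (nat_lit 0x14) (.l (nat_lit 0x108010010))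
 (.s (nat_lit 2) (nat_lit 0x1c) (.s (nat_lit 2) (nat_lit 0x18) (.s (nat_lit 2) (nat_lit 0x16) (.l (nat_lit 0x18800c20018))
 (.l (nat_lit 0x8060000118))
) (.s (nat_lit 2) (nat_lit 0x1a) (.l (nat_lit 0x8060000118))
 (.l (nat_lit 0x60800118))
)) (.s (nat_lit 2) (nat_lit 0x20) (.s (nat_lit 2) (nat_lit 0x1e) (.l (nat_lit 0x60800118))
 (.l (nat_lit 0x60000118))
) (.l (nat_lit 0x60000118))
))) (.l (nat_lit 0x8020210))
) (.z (nat_lit 0) (.s (nat_lit 2) (nat_lit 0x14) (.l (nat_lit 0x820010))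
 (.s (nat_lit 2) (nat_lit 0x1c) (.s (nat_lit 2) (nat_lit 0x18) (.l (nat_lit 0x60820218))
 (.s (nat_lit 2) (nat_lit 0x1a) (.l (nat_lit 0x8460430018))
 (.l (nat_lit 0x8060000118))
)) (.s (nat_lit 2) (nat_lit 0x20) (.s (nat_lit 2) (nat_lit 0x1e) (.l (nat_lit 0x10060820018))
 (.l (nat_lit 0x60000118))
) (.l (nat_lit 0x60000118))
))) (.l (nat_lit 0x820210))
)) (.s (nat_lit 1) (nat_lit 0x25) (.z (nat_lit 0) (.s (nat_lit 2) (nat_lit 0x15) (.l (nat_lit 0x100820010))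
 (.s (nat_lit 2) (nat_lit 0x1d) (.s (nat_lit 2) (nat_lit 0x19) (.l (nat_lit 0x8460430018))
 (.l (nat_lit 0x60800118))
) (.s (nat_lit 2) (nat_lit 0x21) (.l (nat_lit 0x60000118))
 (.l (nat_lit 0x860020018))
))) (.l (nat_lit 0x8000110))
) (.l (nat_lit 0x820210))
)))

theorem u62 : check tb r62 [37, 30, 0, 0, 0, 0, 0, 0, 0, 0, 0, 0, 0, 0, 0, 0, 0, 0]
    [38, 38, 38, 38, 38, 38, 38, 38, 38, 38, 38, 38, 38, 38, 38, 38, 38, 38] 0 13 0 = true := by decide +kernel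

noncomputable def r63 : Rt :=
(.z (nat_lit 0x17) (.l (nat_lit 0x108))
 (.l (nat_lit 8))
)

theorem u63 : check tb r63 [37, 0, 0, 0, 0, 0, 0, 0, 0, 0, 0, 0, 0, 0, 0, 0, 0, 0]
    [38, 38, 38, 38, 38, 38, 38, 38, 38, 38, 38, 38, 38, 38, 38, 38, 38, 38] 14 97 0 = true := by decide +kernel

noncomputable def r64 : Rt :=
(.l (nat_lit 0x8008))


theorem u64 : check tb r64 [38, 0, 0, 0, 0, 0, 0, 0, 0, 0, 0, 0, 0, 0, 0, 0, 0, 0]
    [39, 22, 22, 22, 22, 22, 22, 22, 22, 22, 22, 22, 22, 22, 22, 22, 22, 22] 0 13 0 = true := by decide +kernel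

noncomputable def r65 : Rt :=
(.s (nat_lit 1) (nat_lit 0x1f) (.s (nat_lit 1) (nat_lit 0x1b) (.s (nat_lit 1) (nat_lit 0x19) (.s (nat_lit 1) (nat_lit 0x18) (.s (nat_lit 1) (nat_lit 0x17) (.z (nat_lit 0) (.s (nat_lit 2) (nat_lit 0xe) (.l (nat_lit 0x108000010))
 (.s (nat_lit 2) (nat_lit 0x13) (.l (nat_lit 0x861020018))
 (.l (nat_lit 0x861000318))
)) (.l (nat_lit 0x108038210))
) (.z (nat_lit 0) (.s (nat_lit 2) (nat_lit 0xe) (.l (nat_lit 0x108000010))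
 (.s (nat_lit 2) (nat_lit 0x13) (.l (nat_lit 0x861020018))
 (.s (nat_lit 2) (nat_lit 0x16) (.l (nat_lit 0x861020018))
 (.l (nat_lit 0x10800838218))
))) (.l (nat_lit 0x100830010))
)) (.z (nat_lit 0) (.s (nat_lit 2) (nat_lit 0xf) (.l (nat_lit 0x108000010))
 (.s (nat_lit 2) (nat_lit 0x14) (.l (nat_lit 0x861020018))
 (.s (nat_lit 2) (nat_lit 0x17) (.s (nat_lit 2) (nat_lit 0x16) (.l (nat_lit 0x861020018))
 (.l (nat_lit 0x18800c30218))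
) (.s (nat_lit 2) (nat_lit 0x18) (.l (nat_lit 0x18800c30218))
 (.s (nat_lit 3) (nat_lit 0xf) (.l (nat_lit 0x460430218))
 (.s (nat_lit 3) (nat_lit 0x14) (.l (nat_lit 0x1004000830220))
 (.s (nat_lit 3) (nat_lit 0x17) (.l (nat_lit 0x64000838220))
 (.l (nat_lit 0x463041800220))
))))))) (.l (nat_lit 0x100810110))
)) (.s (nat_lit 1) (nat_lit 0x1a) (.z (nat_lit 1) (.s (nat_lit 2) (nat_lit 0xf) (.l (nat_lit 0x108000010))
 (.s (nat_lit 2) (nat_lit 0x15) (.s (nat_lit 2) (nat_lit 0x12) (.l (nat_lit 0x861020018))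
 (.l (nat_lit 0x8861020018))
) (.s (nat_lit 2) (nat_lit 0x18) (.s (nat_lit 2) (nat_lit 0x17) (.s (nat_lit 2) (nat_lit 0x16) (.l (nat_lit 0x18060000118))
 (.l (nat_lit 0x8800c30218))
) (.z (nat_lit 0) (.s (nat_lit 3) (nat_lit 0xe) (.l (nat_lit 0x60820218))
 (.s (nat_lit 3) (nat_lit 0x13) (.l (nat_lit 0x804000830220))
 (.s (nat_lit 3) (nat_lit 0x16) (.l (nat_lit 0x1804000830220))
 (.s (nat_lit 3) (nat_lit 0x17) (.l (nat_lit 0x804000830220))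
 (.l (nat_lit 0x1044000c20020))
)))) (.l (nat_lit 0x18800c20018))
)) (.s (nat_lit 2) (nat_lit 0x19) (.z (nat_lit 0) (.s (nat_lit 3) (nat_lit 0xf) (.l (nat_lit 0x60830218))
 (.s (nat_lit 3) (nat_lit 0x14) (.l (nat_lit 0x4000830220))
 (.s (nat_lit 3) (nat_lit 0x17) (.s (nat_lit 3) (nat_lit 0x16) (.l (nat_lit 0x804000830220))
 (.l (nat_lit 0x463001010220))
) (.l (nat_lit 0x63001010020))
))) (.l (nat_lit 0x18060830018))
) (.z (nat_lit 0) (.s (nat_lit 3) (nat_lit 0xf) (.l (nat_lit 0x60830218))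
 (.s (nat_lit 3) (nat_lit 0x15) (.l (nat_lit 0x1804000830220))
 (.s (nat_lit 3) (nat_lit 0x18) (.s (nat_lit 3) (nat_lit 0x17) (.l (nat_lit 0x463001010220))
 (.l (nat_lit 0x463001010220))
) (.l (nat_lit 0x64000838020))
))) (.l (nat_lit 0x18060000118))
))))) (.z (nat_lit 2) (.l (nat_lit 0x100810110))
 (.l (nat_lit 0x100830010))
)) (.z (nat_lit 0) (.s (nat_lit 2) (nat_lit 0x10) (.l (nat_lit 0x108000010))
 (.s (nat_lit 2) (nat_lit 0x16) (.s (nat_lit 2) (nat_lit 0x13) (.l (nat_lit 0x861020018))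
 (.l (nat_lit 0x8060810118))
) (.s (nat_lit 2) (nat_lit 0x19) (.s (nat_lit 2) (nat_lit 0x18) (.s (nat_lit 2) (nat_lit 0x17) (.l (nat_lit 0x18800c10118))
 (.s (nat_lit 3) (nat_lit 0xe) (.l (nat_lit 0x460430218))
 (.s (nat_lit 3) (nat_lit 0x13) (.l (nat_lit 0x4000830220))
 (.s (nat_lit 3) (nat_lit 0x16) (.l (nat_lit 0x804000830220))
 (.l (nat_lit 0x1044000c20020))
)))) (.s (nat_lit 3) (nat_lit 0xf) (.l (nat_lit 0x60830218))
 (.s (nat_lit 3) (nat_lit 0x14) (.l (nat_lit 0x4000830220))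
 (.s (nat_lit 3) (nat_lit 0x17) (.l (nat_lit 0x1860040830020))
 (.l (nat_lit 0x463001010220))
)))) (.s (nat_lit 2) (nat_lit 0x1a) (.s (nat_lit 3) (nat_lit 0xf) (.l (nat_lit 0x60830218))
 (.s (nat_lit 3) (nat_lit 0x15) (.l (nat_lit 0x1c60060810120))
 (.s (nat_lit 3) (nat_lit 0x18) (.l (nat_lit 0x63001010020))
 (.l (nat_lit 0x64000838020))
))) (.s (nat_lit 3) (nat_lit 0x10) (.l (nat_lit 0x60000118))
 (.s (nat_lit 3) (nat_lit 0x16) (.l (nat_lit 0x463041820120))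
 (.s (nat_lit 3) (nat_lit 0x19) (.l (nat_lit 0x63001820120))
 (.l (nat_lit 0x44000410120))
))))))) (.z (nat_lit 1) (.l (nat_lit 0x100810110))
 (.l (nat_lit 0x100800110))
)))) (.s (nat_lit 1) (nat_lit 0x1d) (.s (nat_lit 1) (nat_lit 0x1c) (.z (nat_lit 2) (.s (nat_lit 2) (nat_lit 0x10) (.l (nat_lit 0x108000010))
 (.s (nat_lit 2) (nat_lit 0x16) (.s (nat_lit 2) (nat_lit 0x13) (.l (nat_lit 0x18800020018))
 (.l (nat_lit 0x18060800118))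
) (.s (nat_lit 2) (nat_lit 0x19) (.s (nat_lit 2) (nat_lit 0x18) (.s (nat_lit 2) (nat_lit 0x17) (.l (nat_lit 0x8841830318))
 (.z (nat_lit 0) (.s (nat_lit 3) (nat_lit 0xe) (.l (nat_lit 0x60830218))
 (.s (nat_lit 3) (nat_lit 0x13) (.l (nat_lit 0x4000830220))
 (.s (nat_lit 3) (nat_lit 0x16) (.l (nat_lit 0x1462000030020))
 (.s (nat_lit 3) (nat_lit 0x17) (.l (nat_lit 0x462000030020))
 (.l (nat_lit 0x1444000030020))
)))) (.l (nat_lit 0x18460420018))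
)) (.l (nat_lit 0x8060810118))
) (.s (nat_lit 2) (nat_lit 0x1b) (.s (nat_lit 2) (nat_lit 0x1a) (.z (nat_lit 0) (.s (nat_lit 3) (nat_lit 0xf) (.l (nat_lit 0x60830218))
 (.s (nat_lit 3) (nat_lit 0x15) (.l (nat_lit 0x460060810120))
 (.s (nat_lit 3) (nat_lit 0x18) (.l (nat_lit 0x63001010020))
 (.l (nat_lit 0x1044000c30020))
))) (.l (nat_lit 0x8841010018))
) (.z (nat_lit 0) (.s (nat_lit 3) (nat_lit 0x10) (.l (nat_lit 0x60810118))
 (.s (nat_lit 3) (nat_lit 0x16) (.s (nat_lit 3) (nat_lit 0x13) (.l (nat_lit 0x404000810120))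
 (.l (nat_lit 0x404000810120))
) (.s (nat_lit 3) (nat_lit 0x19) (.l (nat_lit 0x463001010220))
 (.l (nat_lit 0x804040010120))
))) (.l (nat_lit 0x18800000118))
)) (.z (nat_lit 0) (.s (nat_lit 3) (nat_lit 0x10) (.l (nat_lit 0x60830218))
 (.s (nat_lit 3) (nat_lit 0x16) (.l (nat_lit 0x1804040000120))
 (.s (nat_lit 3) (nat_lit 0x19) (.l (nat_lit 0x63001010220))
 (.l (nat_lit 0x63001010220))
))) (.l (nat_lit 0x18800000118))
))))) (.z (nat_lit 4) (.l (nat_lit 0x100820210))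
 (.l (nat_lit 0x830210))
)) (.z (nat_lit 4) (.s (nat_lit 2) (nat_lit 0x11) (.l (nat_lit 0x108000010))
 (.s (nat_lit 2) (nat_lit 0x17) (.s (nat_lit 2) (nat_lit 0x14) (.l (nat_lit 0x18820420018))
 (.s (nat_lit 2) (nat_lit 0x16) (.l (nat_lit 0x18060000118))
 (.l (nat_lit 0x10800828018))
)) (.s (nat_lit 2) (nat_lit 0x1a) (.s (nat_lit 2) (nat_lit 0x19) (.s (nat_lit 2) (nat_lit 0x18) (.l (nat_lit 0x18060800118))
 (.l (nat_lit 0x18800400118))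
) (.l (nat_lit 0x8060810118))
) (.s (nat_lit 2) (nat_lit 0x1c) (.s (nat_lit 2) (nat_lit 0x1b) (.l (nat_lit 0x18060800118))
 (.z (nat_lit 0) (.s (nat_lit 3) (nat_lit 0x10) (.l (nat_lit 0x60830218))
 (.s (nat_lit 3) (nat_lit 0x16) (.l (nat_lit 0x424020810120))
 (.s (nat_lit 3) (nat_lit 0x19) (.l (nat_lit 0x63001010220))
 (.l (nat_lit 0x63001010220))
))) (.l (nat_lit 0x10060800118))
)) (.z (nat_lit 0) (.s (nat_lit 3) (nat_lit 0x11) (.l (nat_lit 0x60830218))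
 (.s (nat_lit 3) (nat_lit 0x17) (.l (nat_lit 0x63001010020))
 (.s (nat_lit 3) (nat_lit 0x1a) (.l (nat_lit 0x424020810120))
 (.l (nat_lit 0x463000008220))
))) (.l (nat_lit 0x10060800118))
))))) (.l (nat_lit 0x8010110))
)) (.s (nat_lit 1) (nat_lit 0x1e) (.z (nat_lit 2) (.s (nat_lit 2) (nat_lit 0x11) (.l (nat_lit 0x108000010))
 (.s (nat_lit 2) (nat_lit 0x18) (.s (nat_lit 2) (nat_lit 0x15) (.l (nat_lit 0x18800820018))
 (.s (nat_lit 2) (nat_lit 0x17) (.l (nat_lit 0x18800830018))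
 (.l (nat_lit 0x18060800118))
)) (.s (nat_lit 2) (nat_lit 0x1b) (.s (nat_lit 2) (nat_lit 0x1a) (.s (nat_lit 2) (nat_lit 0x19) (.l (nat_lit 0x8841810018))
 (.l (nat_lit 0x18060800118))
) (.l (nat_lit 0x10060800118))
) (.s (nat_lit 2) (nat_lit 0x1d) (.s (nat_lit 2) (nat_lit 0x1c) (.l (nat_lit 0x60830218))
 (.l (nat_lit 0x8060010118))
) (.l (nat_lit 0x10060800118))
)))) (.l (nat_lit 0x8010110))
) (.z (nat_lit 1) (.s (nat_lit 2) (nat_lit 0x12) (.l (nat_lit 0x108010010))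
 (.s (nat_lit 2) (nat_lit 0x19) (.s (nat_lit 2) (nat_lit 0x16) (.l (nat_lit 0x18060800118))
 (.s (nat_lit 2) (nat_lit 0x18) (.l (nat_lit 0x8060010118))
 (.l (nat_lit 0x18060800118))
)) (.s (nat_lit 2) (nat_lit 0x1c) (.s (nat_lit 2) (nat_lit 0x1b) (.l (nat_lit 0x8060010118))
 (.l (nat_lit 0x8060010118))
) (.l (nat_lit 0x60810118))
))) (.l (nat_lit 0x810110))
)))) (.s (nat_lit 1) (nat_lit 0x23) (.s (nat_lit 1) (nat_lit 0x21) (.s (nat_lit 1) (nat_lit 0x20) (.z (nat_lit 1) (.s (nat_lit 2) (nat_lit 0x12) (.l (nat_lit 0x108000010))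
 (.s (nat_lit 2) (nat_lit 0x19) (.s (nat_lit 2) (nat_lit 0x16) (.l (nat_lit 0x18800830018))
 (.l (nat_lit 0x8060010118))
) (.s (nat_lit 2) (nat_lit 0x1d) (.s (nat_lit 2) (nat_lit 0x1b) (.l (nat_lit 0x8060010118))
 (.l (nat_lit 0x8060010118))
) (.l (nat_lit 0x60810118))
))) (.l (nat_lit 0x810110))
) (.z (nat_lit 4) (.s (nat_lit 2) (nat_lit 0x13) (.l (nat_lit 0x108010010))
 (.s (nat_lit 2) (nat_lit 0x1a) (.s (nat_lit 2) (nat_lit 0x17) (.s (nat_lit 2) (nat_lit 0x15) (.l (nat_lit 0x8820430018))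
 (.l (nat_lit 0x18820030018))
) (.s (nat_lit 2) (nat_lit 0x19) (.l (nat_lit 0x10060820218))
 (.l (nat_lit 0x18060820018))
)) (.s (nat_lit 2) (nat_lit 0x1e) (.s (nat_lit 2) (nat_lit 0x1c) (.s (nat_lit 2) (nat_lit 0x1b) (.l (nat_lit 0x18060000118))
 (.z (nat_lit 0) (.s (nat_lit 3) (nat_lit 0x10) (.l (nat_lit 0x860020218))
 (.s (nat_lit 3) (nat_lit 0x16) (.l (nat_lit 0x1404000800120))
 (.s (nat_lit 3) (nat_lit 0x19) (.l (nat_lit 0x4000800120))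
 (.l (nat_lit 0x64000800120))
))) (.l (nat_lit 0x10060820018))
)) (.l (nat_lit 0x860020218))
) (.s (nat_lit 2) (nat_lit 0x20) (.l (nat_lit 0x60800118))
 (.l (nat_lit 0x60000118))
)))) (.l (nat_lit 0x800110))
)) (.s (nat_lit 1) (nat_lit 0x22) (.z (nat_lit 3) (.s (nat_lit 2) (nat_lit 0x13) (.l (nat_lit 0x108000010))
 (.s (nat_lit 2) (nat_lit 0x1b) (.s (nat_lit 2) (nat_lit 0x17) (.s (nat_lit 2) (nat_lit 0x15) (.l (nat_lit 0x18460430018))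
 (.l (nat_lit 0x18800c20018))
) (.s (nat_lit 2) (nat_lit 0x19) (.l (nat_lit 0x8060800118))
 (.l (nat_lit 0x8060800118))
)) (.s (nat_lit 2) (nat_lit 0x1f) (.s (nat_lit 2) (nat_lit 0x1d) (.s (nat_lit 2) (nat_lit 0x1c) (.z (nat_lit 0) (.s (nat_lit 3) (nat_lit 0x10) (.l (nat_lit 0x860020218))
 (.s (nat_lit 3) (nat_lit 0x16) (.l (nat_lit 0xc63001810220))
 (.s (nat_lit 3) (nat_lit 0x19) (.l (nat_lit 0x463041810220))
 (.l (nat_lit 0x63001810220))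
))) (.l (nat_lit 0x8841810018))
) (.l (nat_lit 0x8060000118))
) (.l (nat_lit 0x60800118))
) (.s (nat_lit 2) (nat_lit 0x21) (.l (nat_lit 0x8060000118))
 (.l (nat_lit 0x60000118))
)))) (.z (nat_lit 0xb) (.l (nat_lit 0x8020210))
 (.l (nat_lit 0x800110))
)) (.z (nat_lit 1) (.s (nat_lit 2) (nat_lit 0x14) (.l (nat_lit 0x108010010))
 (.s (nat_lit 2) (nat_lit 0x1c) (.s (nat_lit 2) (nat_lit 0x18) (.s (nat_lit 2) (nat_lit 0x16) (.l (nat_lit 0x18800c20018))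
 (.l (nat_lit 0x18060820018))
) (.s (nat_lit 2) (nat_lit 0x1a) (.l (nat_lit 0x18060820018))
 (.l (nat_lit 0x860020218))
)) (.s (nat_lit 2) (nat_lit 0x20) (.l (nat_lit 0x60800118))
 (.l (nat_lit 0x60000118))
))) (.l (nat_lit 0x8000110))
))) (.s (nat_lit 1) (nat_lit 0x25) (.s (nat_lit 1) (nat_lit 0x24) (.z (nat_lit 1) (.s (nat_lit 2) (nat_lit 0x14) (.l (nat_lit 0x108010010))
 (.s (nat_lit 2) (nat_lit 0x1c) (.s (nat_lit 2) (nat_lit 0x18) (.l (nat_lit 0x8800c00118))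
 (.s (nat_lit 2) (nat_lit 0x1a) (.l (nat_lit 0x10060820018))
 (.l (nat_lit 0x10000430018))
)) (.s (nat_lit 2) (nat_lit 0x20) (.l (nat_lit 0x60800118))
 (.l (nat_lit 0x860020018))
))) (.l (nat_lit 0x8000110))
) (.z (nat_lit 0) (.s (nat_lit 2) (nat_lit 0x15) (.l (nat_lit 0x100820010))
 (.s (nat_lit 2) (nat_lit 0x1d) (.s (nat_lit 2) (nat_lit 0x19) (.l (nat_lit 0x8060830018))
 (.l (nat_lit 0x60800118))
) (.s (nat_lit 2) (nat_lit 0x21) (.s (nat_lit 2) (nat_lit 0x1f) (.l (nat_lit 0x60830018))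
 (.l (nat_lit 0x460030018))
) (.l (nat_lit 0x460030018))
))) (.l (nat_lit 0x800110))
)) (.s (nat_lit 1) (nat_lit 0x26) (.z (nat_lit 0) (.s (nat_lit 2) (nat_lit 0x15) (.l (nat_lit 0x108010010))
 (.s (nat_lit 2) (nat_lit 0x1e) (.s (nat_lit 2) (nat_lit 0x1a) (.l (nat_lit 0x8060830018))
 (.l (nat_lit 0x8060830018))
) (.s (nat_lit 2) (nat_lit 0x22) (.l (nat_lit 0x60830018))
 (.l (nat_lit 0x460030018))
))) (.l (nat_lit 0x830010))
) (.l (nat_lit 0x800110))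
))))

theorem u65 : check tb r65 [38, 22, 0, 0, 0, 0, 0, 0, 0, 0, 0, 0, 0, 0, 0, 0, 0, 0]
    [39, 39, 39, 39, 39, 39, 39, 39, 39, 39, 39, 39, 39, 39, 39, 39, 39, 39] 0 13 0 = true := by decide +kernel

noncomputable def r66 : Rt :=
(.l (nat_lit 0x108))


theorem u66 : check tb r66 [38, 0, 0, 0, 0, 0, 0, 0, 0, 0, 0, 0, 0, 0, 0, 0, 0, 0]
    [39, 39, 39, 39, 39, 39, 39, 39, 39, 39, 39, 39, 39, 39, 39, 39, 39, 39] 14 97 0 = true := by decide +kernel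

noncomputable def r67 : Rt :=
(.z (nat_lit 0x10) (.s (nat_lit 1) (nat_lit 0x16) (.l (nat_lit 8))
 (.s (nat_lit 1) (nat_lit 0x1f) (.s (nat_lit 1) (nat_lit 0x1b) (.s (nat_lit 1) (nat_lit 0x19) (.s (nat_lit 1) (nat_lit 0x18) (.s (nat_lit 1) (nat_lit 0x17) (.z (nat_lit 0) (.s (nat_lit 2) (nat_lit 0xe) (.l (nat_lit 0x108000010))
 (.s (nat_lit 2) (nat_lit 0x13) (.l (nat_lit 0x861020018))
 (.l (nat_lit 0x861000318))
)) (.l (nat_lit 0x100830010))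
) (.z (nat_lit 0) (.s (nat_lit 2) (nat_lit 0xe) (.l (nat_lit 0x108000010))
 (.s (nat_lit 2) (nat_lit 0x13) (.l (nat_lit 0x861020018))
 (.l (nat_lit 0x861000318))
)) (.l (nat_lit 0x108038210))
)) (.z (nat_lit 0) (.s (nat_lit 2) (nat_lit 0xf) (.l (nat_lit 0x108000010))
 (.s (nat_lit 2) (nat_lit 0x14) (.l (nat_lit 0x861020018))
 (.s (nat_lit 2) (nat_lit 0x17) (.l (nat_lit 0x861020018))
 (.s (nat_lit 2) (nat_lit 0x18) (.l (nat_lit 0x8841820318))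
 (.l (nat_lit 0x18060810118))
)))) (.l (nat_lit 0x100800110))
)) (.s (nat_lit 1) (nat_lit 0x1a) (.z (nat_lit 0) (.s (nat_lit 2) (nat_lit 0xf) (.l (nat_lit 0x108000010))
 (.s (nat_lit 2) (nat_lit 0x15) (.s (nat_lit 2) (nat_lit 0x12) (.l (nat_lit 0x861020018))
 (.l (nat_lit 0x861020018))
) (.s (nat_lit 2) (nat_lit 0x18) (.s (nat_lit 2) (nat_lit 0x17) (.l (nat_lit 0x18800c30218))
 (.l (nat_lit 0x8841030318))
) (.s (nat_lit 2) (nat_lit 0x19) (.l (nat_lit 0x18060810118))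
 (.s (nat_lit 3) (nat_lit 0xf) (.l (nat_lit 0x60830018))
 (.s (nat_lit 3) (nat_lit 0x15) (.l (nat_lit 0x1c60060810120))
 (.s (nat_lit 3) (nat_lit 0x18) (.l (nat_lit 0x464000008320))
 (.l (nat_lit 0x64000838020))
))))))) (.l (nat_lit 0x100810110))
) (.z (nat_lit 3) (.s (nat_lit 2) (nat_lit 0x10) (.l (nat_lit 0x108000010))
 (.s (nat_lit 2) (nat_lit 0x16) (.s (nat_lit 2) (nat_lit 0x13) (.l (nat_lit 0x861020018))
 (.l (nat_lit 0x18060810118))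
) (.s (nat_lit 2) (nat_lit 0x19) (.s (nat_lit 2) (nat_lit 0x18) (.l (nat_lit 0x8841030318))
 (.l (nat_lit 0x18060810118))
) (.s (nat_lit 2) (nat_lit 0x1a) (.l (nat_lit 0x18060810118))
 (.z (nat_lit 0) (.s (nat_lit 3) (nat_lit 0x10) (.l (nat_lit 0x860028218))
 (.s (nat_lit 3) (nat_lit 0x16) (.s (nat_lit 3) (nat_lit 0x13) (.l (nat_lit 0x1001180028220))
 (.l (nat_lit 0x463041010220))
) (.s (nat_lit 3) (nat_lit 0x19) (.l (nat_lit 0x463001010220))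
 (.l (nat_lit 0x63001010220))
))) (.l (nat_lit 0x18800000118))
))))) (.z (nat_lit 8) (.l (nat_lit 0x100820210))
 (.l (nat_lit 0x100820010))
)))) (.s (nat_lit 1) (nat_lit 0x1d) (.s (nat_lit 1) (nat_lit 0x1c) (.z (nat_lit 3) (.s (nat_lit 2) (nat_lit 0x10) (.l (nat_lit 0x108000010))
 (.s (nat_lit 2) (nat_lit 0x16) (.s (nat_lit 2) (nat_lit 0x13) (.l (nat_lit 0x18820c20018))
 (.l (nat_lit 0x18060800118))
) (.s (nat_lit 2) (nat_lit 0x19) (.s (nat_lit 2) (nat_lit 0x18) (.l (nat_lit 0x8841030318))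
 (.l (nat_lit 0x18060800118))
) (.s (nat_lit 2) (nat_lit 0x1b) (.s (nat_lit 2) (nat_lit 0x1a) (.l (nat_lit 0x8060810118))
 (.z (nat_lit 0) (.s (nat_lit 3) (nat_lit 0x10) (.l (nat_lit 0x860028218))
 (.s (nat_lit 3) (nat_lit 0x16) (.l (nat_lit 0x463001820120))
 (.s (nat_lit 3) (nat_lit 0x19) (.l (nat_lit 0x63001010220))
 (.l (nat_lit 0x63001010220))
))) (.l (nat_lit 0x18800000118))
)) (.z (nat_lit 0) (.s (nat_lit 3) (nat_lit 0x10) (.l (nat_lit 0x860028218))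
 (.s (nat_lit 3) (nat_lit 0x16) (.l (nat_lit 0x64000008120))
 (.s (nat_lit 3) (nat_lit 0x19) (.l (nat_lit 0x63001010220))
 (.l (nat_lit 0x63001010220))
))) (.l (nat_lit 0x10060800118))
))))) (.l (nat_lit 0x830210))
) (.z (nat_lit 3) (.s (nat_lit 2) (nat_lit 0x11) (.l (nat_lit 0x108000010))
 (.s (nat_lit 2) (nat_lit 0x17) (.s (nat_lit 2) (nat_lit 0x14) (.l (nat_lit 0x18800020018))
 (.l (nat_lit 0x8841830318))
) (.s (nat_lit 2) (nat_lit 0x1a) (.s (nat_lit 2) (nat_lit 0x19) (.l (nat_lit 0x8060810118))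
 (.l (nat_lit 0x18060800118))
) (.s (nat_lit 2) (nat_lit 0x1c) (.s (nat_lit 2) (nat_lit 0x1b) (.z (nat_lit 0) (.s (nat_lit 3) (nat_lit 0x10) (.l (nat_lit 0x60830218))
 (.s (nat_lit 3) (nat_lit 0x16) (.l (nat_lit 0x1804040000120))
 (.s (nat_lit 3) (nat_lit 0x19) (.l (nat_lit 0x63001010220))
 (.l (nat_lit 0x63001010220))
))) (.l (nat_lit 0x8840008018))
) (.z (nat_lit 0) (.s (nat_lit 3) (nat_lit 0x10) (.l (nat_lit 0x60830218))
 (.s (nat_lit 3) (nat_lit 0x16) (.l (nat_lit 0x444040410120))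
 (.s (nat_lit 3) (nat_lit 0x19) (.l (nat_lit 0x63001010220))
 (.l (nat_lit 0x63001010220))
))) (.l (nat_lit 0x10060800118))
)) (.l (nat_lit 0x841030318))
)))) (.l (nat_lit 0x810110))
)) (.s (nat_lit 1) (nat_lit 0x1e) (.z (nat_lit 3) (.s (nat_lit 2) (nat_lit 0x11) (.l (nat_lit 0x108000010))
 (.s (nat_lit 2) (nat_lit 0x18) (.s (nat_lit 2) (nat_lit 0x15) (.l (nat_lit 0x18060800118))
 (.l (nat_lit 0x8841830318))
) (.s (nat_lit 2) (nat_lit 0x1b) (.s (nat_lit 2) (nat_lit 0x1a) (.l (nat_lit 0x18060800118))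
 (.z (nat_lit 0) (.s (nat_lit 3) (nat_lit 0x10) (.l (nat_lit 0x60830218))
 (.s (nat_lit 3) (nat_lit 0x16) (.l (nat_lit 0xc04040810120))
 (.s (nat_lit 3) (nat_lit 0x19) (.l (nat_lit 0x63001010220))
 (.l (nat_lit 0x63001010220))
))) (.l (nat_lit 0x18400820018))
)) (.l (nat_lit 0x841030318))
))) (.l (nat_lit 0x810110))
) (.z (nat_lit 1) (.s (nat_lit 2) (nat_lit 0x12) (.l (nat_lit 0x108000010))
 (.s (nat_lit 2) (nat_lit 0x19) (.s (nat_lit 2) (nat_lit 0x16) (.l (nat_lit 0x18060800118))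
 (.l (nat_lit 0x8060810118))
) (.s (nat_lit 2) (nat_lit 0x1c) (.s (nat_lit 2) (nat_lit 0x1b) (.s (nat_lit 2) (nat_lit 0x1a) (.l (nat_lit 0x18060000118))
 (.l (nat_lit 0x8060810118))
) (.l (nat_lit 0x8060010118))
) (.l (nat_lit 0x60810118))
))) (.l (nat_lit 0x810110))
)))) (.s (nat_lit 1) (nat_lit 0x24) (.s (nat_lit 1) (nat_lit 0x22) (.s (nat_lit 1) (nat_lit 0x21) (.s (nat_lit 1) (nat_lit 0x20) (.z (nat_lit 0) (.s (nat_lit 2) (nat_lit 0x12) (.l (nat_lit 0x108000010))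
 (.s (nat_lit 2) (nat_lit 0x19) (.s (nat_lit 2) (nat_lit 0x16) (.l (nat_lit 0x18800400118))
 (.l (nat_lit 0x8060010118))
) (.s (nat_lit 2) (nat_lit 0x1d) (.s (nat_lit 2) (nat_lit 0x1b) (.l (nat_lit 0x8060810118))
 (.l (nat_lit 0x8060010118))
) (.l (nat_lit 0x10060800118))
))) (.l (nat_lit 0x810110))
) (.z (nat_lit 0) (.s (nat_lit 2) (nat_lit 0x13) (.l (nat_lit 0x108000010))
 (.s (nat_lit 2) (nat_lit 0x1a) (.s (nat_lit 2) (nat_lit 0x17) (.l (nat_lit 0x8060010118))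
 (.l (nat_lit 0x8060010118))
) (.s (nat_lit 2) (nat_lit 0x1e) (.l (nat_lit 0x60810118))
 (.l (nat_lit 0x60800118))
))) (.l (nat_lit 0x810110))
)) (.z (nat_lit 3) (.s (nat_lit 2) (nat_lit 0x13) (.l (nat_lit 0x108000010))
 (.s (nat_lit 2) (nat_lit 0x1b) (.s (nat_lit 2) (nat_lit 0x17) (.l (nat_lit 0x18820030018))
 (.s (nat_lit 2) (nat_lit 0x19) (.l (nat_lit 0x18060820018))
 (.l (nat_lit 0x18800c00118))
)) (.s (nat_lit 2) (nat_lit 0x1f) (.l (nat_lit 0x860020218))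
 (.s (nat_lit 2) (nat_lit 0x21) (.l (nat_lit 0x8060000118))
 (.l (nat_lit 0x60000118))
)))) (.z (nat_lit 0xa) (.l (nat_lit 0x8020210))
 (.l (nat_lit 0x8000110))
))) (.s (nat_lit 1) (nat_lit 0x23) (.z (nat_lit 1) (.s (nat_lit 2) (nat_lit 0x14) (.l (nat_lit 0x108408010))
 (.s (nat_lit 2) (nat_lit 0x1c) (.s (nat_lit 2) (nat_lit 0x18) (.l (nat_lit 0x18800c20018))
 (.s (nat_lit 2) (nat_lit 0x1a) (.l (nat_lit 0x18060820018))
 (.l (nat_lit 0x8060000118))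
)) (.s (nat_lit 2) (nat_lit 0x20) (.l (nat_lit 0x60800118))
 (.s (nat_lit 2) (nat_lit 0x22) (.l (nat_lit 0x60000118))
 (.l (nat_lit 0x860020018))
)))) (.l (nat_lit 0x8000110))
) (.z (nat_lit 1) (.s (nat_lit 2) (nat_lit 0x14) (.l (nat_lit 0x108010010))
 (.s (nat_lit 2) (nat_lit 0x1c) (.s (nat_lit 2) (nat_lit 0x18) (.l (nat_lit 0x18800c20018))
 (.s (nat_lit 2) (nat_lit 0x1a) (.l (nat_lit 0x18060020018))
 (.l (nat_lit 0x8060000118))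
)) (.s (nat_lit 2) (nat_lit 0x20) (.l (nat_lit 0x60800118))
 (.l (nat_lit 0x860020018))
))) (.l (nat_lit 0x800110))
))) (.s (nat_lit 1) (nat_lit 0x26) (.s (nat_lit 1) (nat_lit 0x25) (.z (nat_lit 0) (.s (nat_lit 2) (nat_lit 0x15) (.l (nat_lit 0x108010010))
 (.s (nat_lit 2) (nat_lit 0x1d) (.s (nat_lit 2) (nat_lit 0x19) (.l (nat_lit 0x8060830018))
 (.l (nat_lit 0x60800118))
) (.s (nat_lit 2) (nat_lit 0x21) (.l (nat_lit 0x60830018))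
 (.l (nat_lit 0x460030018))
))) (.l (nat_lit 0x830010))
) (.z (nat_lit 0) (.s (nat_lit 2) (nat_lit 0x15) (.l (nat_lit 0x108010010))
 (.s (nat_lit 2) (nat_lit 0x1e) (.s (nat_lit 2) (nat_lit 0x1a) (.l (nat_lit 0x8060830018))
 (.l (nat_lit 0x8060830018))
) (.s (nat_lit 2) (nat_lit 0x22) (.l (nat_lit 0x860020018))
 (.l (nat_lit 0x460030018))
))) (.l (nat_lit 0x830010))
)) (.l (nat_lit 0x820210))
)))) (.z (nat_lit 0x1a) (.l (nat_lit 0x8008))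
 (.l (nat_lit 0x8108))
))

theorem u67 : check tb r67 [39, 0, 0, 0, 0, 0, 0, 0, 0, 0, 0, 0, 0, 0, 0, 0, 0, 0]
    [40, 40, 40, 40, 40, 40, 40, 40, 40, 40, 40, 40, 40, 40, 40, 40, 40, 40] 0 97 0 = true := by decide +kernel

noncomputable def r68 : Rt :=
(.z (nat_lit 0x13) (.s (nat_lit 1) (nat_lit 0x17) (.l (nat_lit 0x8308))
 (.s (nat_lit 1) (nat_lit 0x20) (.s (nat_lit 1) (nat_lit 0x1c) (.s (nat_lit 1) (nat_lit 0x1a) (.s (nat_lit 1) (nat_lit 0x19) (.s (nat_lit 1) (nat_lit 0x18) (.z (nat_lit 1) (.s (nat_lit 2) (nat_lit 0xe) (.l (nat_lit 0x108000010))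
 (.s (nat_lit 2) (nat_lit 0x13) (.l (nat_lit 0x10861020018))
 (.s (nat_lit 2) (nat_lit 0x16) (.l (nat_lit 0x861000318))
 (.l (nat_lit 0x861020018))
))) (.l (nat_lit 0x100800110))
) (.z (nat_lit 0) (.s (nat_lit 2) (nat_lit 0xf) (.l (nat_lit 0x108000010))
 (.s (nat_lit 2) (nat_lit 0x14) (.l (nat_lit 0x8861020018))
 (.s (nat_lit 2) (nat_lit 0x17) (.l (nat_lit 0x861000318))
 (.l (nat_lit 0x861020018))
))) (.l (nat_lit 0x100800110))
)) (.z (nat_lit 0) (.s (nat_lit 2) (nat_lit 0xf) (.l (nat_lit 0x108000010))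
 (.s (nat_lit 2) (nat_lit 0x15) (.s (nat_lit 2) (nat_lit 0x12) (.l (nat_lit 0x8841810018))
 (.l (nat_lit 0x861020018))
) (.s (nat_lit 2) (nat_lit 0x18) (.s (nat_lit 2) (nat_lit 0x17) (.l (nat_lit 0x861000318))
 (.l (nat_lit 0x861020018))
) (.s (nat_lit 2) (nat_lit 0x19) (.s (nat_lit 3) (nat_lit 0xf) (.l (nat_lit 0x60c30218))
 (.s (nat_lit 3) (nat_lit 0x14) (.l (nat_lit 0x464001010220))
 (.s (nat_lit 3) (nat_lit 0x17) (.l (nat_lit 0x464040838020))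
 (.l (nat_lit 0x463001010220))
))) (.s (nat_lit 3) (nat_lit 0xf) (.l (nat_lit 0x60000118))
 (.s (nat_lit 3) (nat_lit 0x15) (.l (nat_lit 0x463001820120))
 (.s (nat_lit 3) (nat_lit 0x18) (.l (nat_lit 0x64000838020))
 (.l (nat_lit 0x1044000410120))
))))))) (.l (nat_lit 0x100810110))
)) (.s (nat_lit 1) (nat_lit 0x1b) (.z (nat_lit 2) (.s (nat_lit 2) (nat_lit 0x10) (.l (nat_lit 0x108000010))
 (.s (nat_lit 2) (nat_lit 0x16) (.l (nat_lit 0x8840828018))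
 (.s (nat_lit 2) (nat_lit 0x19) (.s (nat_lit 2) (nat_lit 0x18) (.s (nat_lit 2) (nat_lit 0x17) (.l (nat_lit 0x861020018))
 (.z (nat_lit 0) (.s (nat_lit 3) (nat_lit 0xe) (.l (nat_lit 0x460430218))
 (.s (nat_lit 3) (nat_lit 0x13) (.l (nat_lit 0x1c001a0430220))
 (.s (nat_lit 3) (nat_lit 0x16) (.s (nat_lit 3) (nat_lit 0x15) (.l (nat_lit 0x1c011c0430220))
 (.l (nat_lit 0x1860000830020))
) (.l (nat_lit 0x1044080030020))
))) (.l (nat_lit 0x18841000018))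
)) (.l (nat_lit 0x18060810118))
) (.s (nat_lit 2) (nat_lit 0x1a) (.z (nat_lit 0) (.s (nat_lit 3) (nat_lit 0xf) (.l (nat_lit 0x60000118))
 (.s (nat_lit 3) (nat_lit 0x15) (.l (nat_lit 0x463041820120))
 (.s (nat_lit 3) (nat_lit 0x18) (.l (nat_lit 0x1044080030020))
 (.l (nat_lit 0x1804040800120))
))) (.l (nat_lit 0x18800c30018))
) (.z (nat_lit 0) (.s (nat_lit 3) (nat_lit 0x10) (.l (nat_lit 0x860028218))
 (.s (nat_lit 3) (nat_lit 0x16) (.l (nat_lit 0x463040008320))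
 (.s (nat_lit 3) (nat_lit 0x19) (.l (nat_lit 0x463001010220))
 (.l (nat_lit 0x63001010220))
))) (.l (nat_lit 0x18060800118))
))))) (.z (nat_lit 3) (.l (nat_lit 0x100810110))
 (.l (nat_lit 0x100820210))
)) (.z (nat_lit 2) (.s (nat_lit 2) (nat_lit 0x10) (.l (nat_lit 0x108000010))
 (.s (nat_lit 2) (nat_lit 0x16) (.l (nat_lit 0x8840828018))
 (.s (nat_lit 2) (nat_lit 0x19) (.s (nat_lit 2) (nat_lit 0x18) (.s (nat_lit 2) (nat_lit 0x17) (.l (nat_lit 0x18800830018))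
 (.l (nat_lit 0x18060810118))
) (.l (nat_lit 0x18060810118))
) (.s (nat_lit 2) (nat_lit 0x1b) (.s (nat_lit 2) (nat_lit 0x1a) (.l (nat_lit 0x18060810118))
 (.z (nat_lit 0) (.s (nat_lit 3) (nat_lit 0x10) (.l (nat_lit 0x860028218))
 (.s (nat_lit 3) (nat_lit 0x16) (.l (nat_lit 0x463000008320))
 (.s (nat_lit 3) (nat_lit 0x19) (.l (nat_lit 0x1804040010120))
 (.l (nat_lit 0x63001010220))
))) (.l (nat_lit 0x18060830018))
)) (.l (nat_lit 0x860028218))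
)))) (.z (nat_lit 8) (.l (nat_lit 0x108028210))
 (.l (nat_lit 0x108028010))
)))) (.s (nat_lit 1) (nat_lit 0x1e) (.s (nat_lit 1) (nat_lit 0x1d) (.z (nat_lit 2) (.s (nat_lit 2) (nat_lit 0x11) (.l (nat_lit 0x108000010))
 (.s (nat_lit 2) (nat_lit 0x17) (.s (nat_lit 2) (nat_lit 0x14) (.l (nat_lit 0x18800020018))
 (.l (nat_lit 0x8841830318))
) (.s (nat_lit 2) (nat_lit 0x1a) (.s (nat_lit 2) (nat_lit 0x19) (.s (nat_lit 2) (nat_lit 0x18) (.l (nat_lit 0x18800400118))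
 (.l (nat_lit 0x18060800118))
) (.l (nat_lit 0x18060800118))
) (.s (nat_lit 2) (nat_lit 0x1c) (.s (nat_lit 2) (nat_lit 0x1b) (.l (nat_lit 0x10060820218))
 (.l (nat_lit 0x10060820218))
) (.l (nat_lit 0x841030318))
)))) (.l (nat_lit 0x108000110))
) (.z (nat_lit 3) (.s (nat_lit 2) (nat_lit 0x11) (.l (nat_lit 0x108000010))
 (.s (nat_lit 2) (nat_lit 0x18) (.s (nat_lit 2) (nat_lit 0x15) (.s (nat_lit 2) (nat_lit 0x13) (.l (nat_lit 0x18841010018))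
 (.l (nat_lit 0x18800820018))
) (.s (nat_lit 2) (nat_lit 0x17) (.l (nat_lit 0x18800400118))
 (.l (nat_lit 0x8860828018))
)) (.s (nat_lit 2) (nat_lit 0x1b) (.s (nat_lit 2) (nat_lit 0x1a) (.l (nat_lit 0x8060810118))
 (.l (nat_lit 0x8060810118))
) (.s (nat_lit 2) (nat_lit 0x1d) (.s (nat_lit 2) (nat_lit 0x1c) (.l (nat_lit 0x10060820218))
 (.l (nat_lit 0x8060810118))
) (.l (nat_lit 0x60810118))
)))) (.l (nat_lit 0x810110))
)) (.s (nat_lit 1) (nat_lit 0x1f) (.z (nat_lit 1) (.s (nat_lit 2) (nat_lit 0x12) (.l (nat_lit 0x108000010))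
 (.s (nat_lit 2) (nat_lit 0x19) (.s (nat_lit 2) (nat_lit 0x16) (.s (nat_lit 2) (nat_lit 0x14) (.l (nat_lit 0x18060020018))
 (.l (nat_lit 0x18800830018))
) (.s (nat_lit 2) (nat_lit 0x18) (.l (nat_lit 0x8060810118))
 (.l (nat_lit 0x8860828018))
)) (.s (nat_lit 2) (nat_lit 0x1c) (.s (nat_lit 2) (nat_lit 0x1b) (.s (nat_lit 2) (nat_lit 0x1a) (.l (nat_lit 0x18060800118))
 (.l (nat_lit 0x8060810118))
) (.l (nat_lit 0x8060810118))
) (.s (nat_lit 2) (nat_lit 0x1e) (.l (nat_lit 0x60830218))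
 (.l (nat_lit 0x10060800118))
)))) (.z (nat_lit 0xf) (.l (nat_lit 0x810110))
 (.l (nat_lit 0x8020010))
)) (.z (nat_lit 0) (.s (nat_lit 2) (nat_lit 0x12) (.l (nat_lit 0x108000010))
 (.s (nat_lit 2) (nat_lit 0x19) (.s (nat_lit 2) (nat_lit 0x16) (.s (nat_lit 2) (nat_lit 0x14) (.l (nat_lit 0x18841810018))
 (.l (nat_lit 0x18800830018))
) (.l (nat_lit 0x8060010118))
) (.s (nat_lit 2) (nat_lit 0x1d) (.s (nat_lit 2) (nat_lit 0x1b) (.l (nat_lit 0x8060810118))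
 (.l (nat_lit 0x60810118))
) (.l (nat_lit 0x10060800118))
))) (.l (nat_lit 0x810110))
)))) (.s (nat_lit 1) (nat_lit 0x25) (.s (nat_lit 1) (nat_lit 0x23) (.s (nat_lit 1) (nat_lit 0x22) (.s (nat_lit 1) (nat_lit 0x21) (.z (nat_lit 0) (.s (nat_lit 2) (nat_lit 0x13) (.l (nat_lit 0x108010010))
 (.s (nat_lit 2) (nat_lit 0x1a) (.s (nat_lit 2) (nat_lit 0x17) (.l (nat_lit 0x8800410118))
 (.l (nat_lit 0x8060010118))
) (.s (nat_lit 2) (nat_lit 0x1e) (.l (nat_lit 0x60830218))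
 (.l (nat_lit 0x60810118))
))) (.l (nat_lit 0x830210))
) (.z (nat_lit 0) (.s (nat_lit 2) (nat_lit 0x13) (.l (nat_lit 0x108000010))
 (.s (nat_lit 2) (nat_lit 0x1b) (.s (nat_lit 2) (nat_lit 0x17) (.l (nat_lit 0x8060010118))
 (.l (nat_lit 0x8060810118))
) (.s (nat_lit 2) (nat_lit 0x1f) (.l (nat_lit 0x60810118))
 (.l (nat_lit 0x60810118))
))) (.l (nat_lit 0x8010110))
)) (.z (nat_lit 3) (.s (nat_lit 2) (nat_lit 0x14) (.l (nat_lit 0x108010010))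
 (.s (nat_lit 2) (nat_lit 0x1c) (.s (nat_lit 2) (nat_lit 0x18) (.s (nat_lit 2) (nat_lit 0x16) (.l (nat_lit 0x18060820018))
 (.l (nat_lit 0x18060820018))
) (.s (nat_lit 2) (nat_lit 0x1a) (.l (nat_lit 0x8060800118))
 (.l (nat_lit 0x10060820018))
)) (.s (nat_lit 2) (nat_lit 0x20) (.l (nat_lit 0x10060800118))
 (.s (nat_lit 2) (nat_lit 0x22) (.l (nat_lit 0x8060000118))
 (.l (nat_lit 0x860020018))
)))) (.l (nat_lit 0x8000110))
)) (.s (nat_lit 1) (nat_lit 0x24) (.z (nat_lit 3) (.s (nat_lit 2) (nat_lit 0x14) (.l (nat_lit 0x108010010))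
 (.s (nat_lit 2) (nat_lit 0x1c) (.s (nat_lit 2) (nat_lit 0x18) (.l (nat_lit 0x8800c00118))
 (.s (nat_lit 2) (nat_lit 0x1a) (.l (nat_lit 0x8060800118))
 (.l (nat_lit 0x10060820018))
)) (.s (nat_lit 2) (nat_lit 0x20) (.s (nat_lit 2) (nat_lit 0x1e) (.l (nat_lit 0x8060830018))
 (.l (nat_lit 0x60830018))
) (.s (nat_lit 2) (nat_lit 0x22) (.l (nat_lit 0x60830018))
 (.l (nat_lit 0x8460030018))
)))) (.l (nat_lit 0x8000110))
) (.z (nat_lit 0) (.s (nat_lit 2) (nat_lit 0x15) (.l (nat_lit 0x108010010))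
 (.s (nat_lit 2) (nat_lit 0x1d) (.s (nat_lit 2) (nat_lit 0x19) (.l (nat_lit 0x8060800118))
 (.s (nat_lit 2) (nat_lit 0x1b) (.l (nat_lit 0x10060820018))
 (.l (nat_lit 0x60830018))
)) (.s (nat_lit 2) (nat_lit 0x21) (.l (nat_lit 0x60800118))
 (.l (nat_lit 0x460000118))
))) (.l (nat_lit 0x8000110))
))) (.s (nat_lit 1) (nat_lit 0x27) (.s (nat_lit 1) (nat_lit 0x26) (.z (nat_lit 0) (.s (nat_lit 2) (nat_lit 0x15) (.l (nat_lit 0x108010010))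
 (.s (nat_lit 2) (nat_lit 0x1e) (.s (nat_lit 2) (nat_lit 0x1a) (.s (nat_lit 2) (nat_lit 0x18) (.l (nat_lit 0x18060020018))
 (.l (nat_lit 0x18060020018))
) (.l (nat_lit 0x60800118))
) (.s (nat_lit 2) (nat_lit 0x22) (.l (nat_lit 0x60830018))
 (.l (nat_lit 0x60030018))
))) (.l (nat_lit 0x830010))
) (.l (nat_lit 0x820210))
) (.s (nat_lit 1) (nat_lit 0x28) (.l (nat_lit 0x830010))
 (.z (nat_lit 0) (.s (nat_lit 2) (nat_lit 0x17) (.l (nat_lit 0x100820010))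
 (.s (nat_lit 2) (nat_lit 0x20) (.s (nat_lit 2) (nat_lit 0x1c) (.l (nat_lit 0x10060020018))
 (.l (nat_lit 0x60030018))
) (.s (nat_lit 2) (nat_lit 0x25) (.l (nat_lit 0x60030018))
 (.l (nat_lit 0x841010218))
))) (.l (nat_lit 0x830010))
)))))) (.z (nat_lit 0x14) (.l (nat_lit 0x8208))
 (.z (nat_lit 0x15) (.s (nat_lit 1) (nat_lit 0x17) (.l (nat_lit 8))
 (.s (nat_lit 1) (nat_lit 0x20) (.l (nat_lit 0x810110))
 (.s (nat_lit 1) (nat_lit 0x25) (.l (nat_lit 0x820010))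
 (.s (nat_lit 1) (nat_lit 0x27) (.l (nat_lit 0x8030010))
 (.l (nat_lit 0x820010))
)))) (.l (nat_lit 0x8208))
)))

theorem u68 : check tb r68 [40, 0, 0, 0, 0, 0, 0, 0, 0, 0, 0, 0, 0, 0, 0, 0, 0, 0]
    [41, 41, 41, 41, 41, 41, 41, 41, 41, 41, 41, 41, 41, 41, 41, 41, 41, 41] 0 97 0 = true := by decide +kernel

noncomputable def r69 : Rt :=
(.z (nat_lit 0x13) (.s (nat_lit 1) (nat_lit 0x17) (.l (nat_lit 0x8308))
 (.s (nat_lit 1) (nat_lit 0x21) (.s (nat_lit 1) (nat_lit 0x1c) (.s (nat_lit 1) (nat_lit 0x1a) (.s (nat_lit 1) (nat_lit 0x19) (.s (nat_lit 1) (nat_lit 0x18) (.z (nat_lit 0) (.s (nat_lit 2) (nat_lit 0xe) (.l (nat_lit 0x108000010))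
 (.s (nat_lit 2) (nat_lit 0x13) (.l (nat_lit 0x861020018))
 (.s (nat_lit 2) (nat_lit 0x16) (.l (nat_lit 0x861000318))
 (.l (nat_lit 0x861020018))
))) (.l (nat_lit 0x100830010))
) (.z (nat_lit 0) (.s (nat_lit 2) (nat_lit 0xf) (.l (nat_lit 0x108000010))
 (.s (nat_lit 2) (nat_lit 0x14) (.l (nat_lit 0x18861020018))
 (.s (nat_lit 2) (nat_lit 0x17) (.l (nat_lit 0x861000318))
 (.l (nat_lit 0x861020018))
))) (.l (nat_lit 0x100800110))
)) (.z (nat_lit 0) (.s (nat_lit 2) (nat_lit 0xf) (.l (nat_lit 0x108000010))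
 (.s (nat_lit 2) (nat_lit 0x15) (.s (nat_lit 2) (nat_lit 0x12) (.l (nat_lit 0x8840808018))
 (.l (nat_lit 0x8840828018))
) (.s (nat_lit 2) (nat_lit 0x18) (.s (nat_lit 2) (nat_lit 0x17) (.l (nat_lit 0x861000318))
 (.l (nat_lit 0x861020018))
) (.s (nat_lit 2) (nat_lit 0x19) (.l (nat_lit 0x861020018))
 (.l (nat_lit 0x18060810118))
)))) (.l (nat_lit 0x100810110))
)) (.s (nat_lit 1) (nat_lit 0x1b) (.z (nat_lit 1) (.s (nat_lit 2) (nat_lit 0x10) (.l (nat_lit 0x108000010))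
 (.s (nat_lit 2) (nat_lit 0x16) (.s (nat_lit 2) (nat_lit 0x13) (.l (nat_lit 0x18060820018))
 (.l (nat_lit 0x861000318))
) (.s (nat_lit 2) (nat_lit 0x19) (.s (nat_lit 2) (nat_lit 0x18) (.l (nat_lit 0x861020018))
 (.l (nat_lit 0x8860028018))
) (.s (nat_lit 2) (nat_lit 0x1a) (.l (nat_lit 0x18060810118))
 (.l (nat_lit 0x8860028018))
)))) (.l (nat_lit 0x100810110))
) (.z (nat_lit 1) (.s (nat_lit 2) (nat_lit 0x10) (.l (nat_lit 0x108000010))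
 (.s (nat_lit 2) (nat_lit 0x16) (.l (nat_lit 0x861000318))
 (.s (nat_lit 2) (nat_lit 0x19) (.s (nat_lit 2) (nat_lit 0x18) (.s (nat_lit 2) (nat_lit 0x17) (.l (nat_lit 0x861020018))
 (.l (nat_lit 0x18800400118))
) (.l (nat_lit 0x18060800118))
) (.s (nat_lit 2) (nat_lit 0x1b) (.l (nat_lit 0x860028218))
 (.z (nat_lit 0) (.s (nat_lit 3) (nat_lit 0x10) (.l (nat_lit 0x860028218))
 (.s (nat_lit 3) (nat_lit 0x16) (.l (nat_lit 0x404181030320))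
 (.s (nat_lit 3) (nat_lit 0x19) (.l (nat_lit 0x10001a0028220))
 (.l (nat_lit 0x464000800120))
))) (.l (nat_lit 0x18460430018))
))))) (.l (nat_lit 0x100810110))
))) (.s (nat_lit 1) (nat_lit 0x1f) (.s (nat_lit 1) (nat_lit 0x1e) (.s (nat_lit 1) (nat_lit 0x1d) (.z (nat_lit 1) (.s (nat_lit 2) (nat_lit 0x11) (.l (nat_lit 0x108000010))
 (.s (nat_lit 2) (nat_lit 0x17) (.s (nat_lit 2) (nat_lit 0x14) (.l (nat_lit 0x18820420018))
 (.l (nat_lit 0x18841030318))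
) (.s (nat_lit 2) (nat_lit 0x1a) (.s (nat_lit 2) (nat_lit 0x19) (.l (nat_lit 0x18060810118))
 (.l (nat_lit 0x18060800118))
) (.s (nat_lit 2) (nat_lit 0x1c) (.s (nat_lit 2) (nat_lit 0x1b) (.l (nat_lit 0x10060820218))
 (.l (nat_lit 0x10060820218))
) (.l (nat_lit 0x8860028018))
)))) (.z (nat_lit 2) (.l (nat_lit 0x100810110))
 (.z (nat_lit 8) (.l (nat_lit 0x108020210))
 (.l (nat_lit 0x100820010))
))) (.z (nat_lit 0) (.s (nat_lit 2) (nat_lit 0x11) (.l (nat_lit 0x108000010))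
 (.s (nat_lit 2) (nat_lit 0x18) (.s (nat_lit 2) (nat_lit 0x15) (.l (nat_lit 0x18820420018))
 (.s (nat_lit 2) (nat_lit 0x17) (.l (nat_lit 0x18800830018))
 (.l (nat_lit 0x8841810018))
)) (.s (nat_lit 2) (nat_lit 0x1b) (.s (nat_lit 2) (nat_lit 0x1a) (.l (nat_lit 0x18060800118))
 (.l (nat_lit 0x10060820218))
) (.s (nat_lit 2) (nat_lit 0x1d) (.s (nat_lit 2) (nat_lit 0x1c) (.l (nat_lit 0x18800c00118))
 (.l (nat_lit 0x8860028018))
) (.l (nat_lit 0x860028018))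
)))) (.l (nat_lit 0x100810110))
)) (.z (nat_lit 1) (.s (nat_lit 2) (nat_lit 0x12) (.l (nat_lit 0x108000010))
 (.s (nat_lit 2) (nat_lit 0x19) (.s (nat_lit 2) (nat_lit 0x16) (.l (nat_lit 0x10841430318))
 (.l (nat_lit 0x8060810118))
) (.s (nat_lit 2) (nat_lit 0x1c) (.s (nat_lit 2) (nat_lit 0x1b) (.s (nat_lit 2) (nat_lit 0x1a) (.l (nat_lit 0x18060800118))
 (.l (nat_lit 0x18800c00118))
) (.l (nat_lit 0x8060810118))
) (.l (nat_lit 0x860020218))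
))) (.l (nat_lit 0x810110))
)) (.s (nat_lit 1) (nat_lit 0x20) (.z (nat_lit 0) (.s (nat_lit 2) (nat_lit 0x12) (.l (nat_lit 0x108000010))
 (.s (nat_lit 2) (nat_lit 0x19) (.s (nat_lit 2) (nat_lit 0x16) (.l (nat_lit 0x8060830218))
 (.l (nat_lit 0x8060010118))
) (.s (nat_lit 2) (nat_lit 0x1d) (.s (nat_lit 2) (nat_lit 0x1b) (.l (nat_lit 0x60830218))
 (.l (nat_lit 0x8060810118))
) (.l (nat_lit 0x60810118))
))) (.l (nat_lit 0x810110))
) (.z (nat_lit 0) (.s (nat_lit 2) (nat_lit 0x13) (.l (nat_lit 0x108000010))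
 (.s (nat_lit 2) (nat_lit 0x1a) (.s (nat_lit 2) (nat_lit 0x17) (.l (nat_lit 0x8800410118))
 (.l (nat_lit 0x18060800118))
) (.s (nat_lit 2) (nat_lit 0x1e) (.l (nat_lit 0x60830218))
 (.l (nat_lit 0x60810118))
))) (.l (nat_lit 0x830210))
)))) (.s (nat_lit 1) (nat_lit 0x26) (.s (nat_lit 1) (nat_lit 0x24) (.s (nat_lit 1) (nat_lit 0x23) (.s (nat_lit 1) (nat_lit 0x22) (.z (nat_lit 0) (.s (nat_lit 2) (nat_lit 0x13) (.l (nat_lit 0x108000010))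
 (.s (nat_lit 2) (nat_lit 0x1b) (.s (nat_lit 2) (nat_lit 0x17) (.l (nat_lit 0x8060010118))
 (.l (nat_lit 0x60830218))
) (.s (nat_lit 2) (nat_lit 0x1f) (.l (nat_lit 0x8060010118))
 (.l (nat_lit 0x60810118))
))) (.l (nat_lit 0x8010110))
) (.l (nat_lit 0x830210))
) (.z (nat_lit 0) (.s (nat_lit 2) (nat_lit 0x14) (.l (nat_lit 0x108000010))
 (.s (nat_lit 2) (nat_lit 0x1c) (.s (nat_lit 2) (nat_lit 0x18) (.l (nat_lit 0x8800c00118))
 (.s (nat_lit 2) (nat_lit 0x1a) (.l (nat_lit 0x18860020018))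
 (.l (nat_lit 0x10060820018))
)) (.s (nat_lit 2) (nat_lit 0x20) (.s (nat_lit 2) (nat_lit 0x1e) (.l (nat_lit 0x10060830018))
 (.l (nat_lit 0x60800118))
) (.s (nat_lit 2) (nat_lit 0x22) (.l (nat_lit 0x8460000118))
 (.l (nat_lit 0x8060030018))
)))) (.z (nat_lit 4) (.l (nat_lit 0x108000110))
 (.z (nat_lit 5) (.s (nat_lit 2) (nat_lit 0x14) (.l (nat_lit 0x108000010))
 (.s (nat_lit 2) (nat_lit 0x1c) (.l (nat_lit 0x10060820018))
 (.s (nat_lit 2) (nat_lit 0x20) (.l (nat_lit 0x60800118))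
 (.l (nat_lit 0x460000118))
))) (.l (nat_lit 0x8000110))
)))) (.s (nat_lit 1) (nat_lit 0x25) (.z (nat_lit 0) (.s (nat_lit 2) (nat_lit 0x15) (.l (nat_lit 0x108010010))
 (.s (nat_lit 2) (nat_lit 0x1d) (.s (nat_lit 2) (nat_lit 0x19) (.l (nat_lit 0x10060820018))
 (.s (nat_lit 2) (nat_lit 0x1b) (.l (nat_lit 0x10060820018))
 (.l (nat_lit 0x60830018))
)) (.s (nat_lit 2) (nat_lit 0x21) (.s (nat_lit 2) (nat_lit 0x1f) (.l (nat_lit 0x60800118))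
 (.l (nat_lit 0x460000118))
) (.l (nat_lit 0x460000118))
))) (.l (nat_lit 0x8000110))
) (.z (nat_lit 0) (.s (nat_lit 2) (nat_lit 0x15) (.l (nat_lit 0x108408010))
 (.s (nat_lit 2) (nat_lit 0x1e) (.s (nat_lit 2) (nat_lit 0x1a) (.l (nat_lit 0x10060820018))
 (.l (nat_lit 0x60800118))
) (.s (nat_lit 2) (nat_lit 0x22) (.l (nat_lit 0x460000118))
 (.l (nat_lit 0x60030018))
))) (.l (nat_lit 0x8000110))
))) (.s (nat_lit 1) (nat_lit 0x28) (.l (nat_lit 0x820210))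
 (.s (nat_lit 1) (nat_lit 0x29) (.l (nat_lit 0x820210))
 (.l (nat_lit 0x830010))
))))) (.l (nat_lit 0x8208))
)

theorem u69 : check tb r69 [41, 0, 0, 0, 0, 0, 0, 0, 0, 0, 0, 0, 0, 0, 0, 0, 0, 0]
    [42, 42, 42, 42, 42, 42, 42, 42, 42, 42, 42, 42, 42, 42, 42, 42, 42, 42] 0 97 0 = true := by decide +kernel

noncomputable def r70 : Rt :=
(.z (nat_lit 0x13) (.s (nat_lit 1) (nat_lit 0x18) (.l (nat_lit 8))
 (.s (nat_lit 1) (nat_lit 0x22) (.s (nat_lit 1) (nat_lit 0x1d) (.s (nat_lit 1) (nat_lit 0x1b) (.s (nat_lit 1) (nat_lit 0x1a) (.s (nat_lit 1) (nat_lit 0x19) (.z (nat_lit 0) (.s (nat_lit 2) (nat_lit 0xf) (.l (nat_lit 0x108000010))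
 (.s (nat_lit 2) (nat_lit 0x14) (.l (nat_lit 0x10861020018))
 (.s (nat_lit 2) (nat_lit 0x17) (.l (nat_lit 0x861020018))
 (.l (nat_lit 0x861020018))
))) (.l (nat_lit 0x100820010))
) (.z (nat_lit 2) (.s (nat_lit 2) (nat_lit 0xf) (.l (nat_lit 0x108000010))
 (.s (nat_lit 2) (nat_lit 0x15) (.l (nat_lit 0x8861800318))
 (.s (nat_lit 2) (nat_lit 0x18) (.l (nat_lit 0x861020018))
 (.l (nat_lit 0x861020018))
))) (.l (nat_lit 0x100830210))
)) (.z (nat_lit 1) (.s (nat_lit 2) (nat_lit 0x10) (.l (nat_lit 0x108000010))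
 (.s (nat_lit 2) (nat_lit 0x16) (.s (nat_lit 2) (nat_lit 0x13) (.l (nat_lit 0x18841010018))
 (.l (nat_lit 0x8841028018))
) (.s (nat_lit 2) (nat_lit 0x19) (.l (nat_lit 0x861020018))
 (.l (nat_lit 0x860028218))
))) (.z (nat_lit 5) (.l (nat_lit 0x100830210))
 (.l (nat_lit 0x100820010))
))) (.s (nat_lit 1) (nat_lit 0x1c) (.z (nat_lit 1) (.s (nat_lit 2) (nat_lit 0x10) (.l (nat_lit 0x108000010))
 (.s (nat_lit 2) (nat_lit 0x16) (.s (nat_lit 2) (nat_lit 0x13) (.l (nat_lit 0x18841010018))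
 (.l (nat_lit 0x861020018))
) (.s (nat_lit 2) (nat_lit 0x19) (.s (nat_lit 2) (nat_lit 0x18) (.l (nat_lit 0x861020018))
 (.l (nat_lit 0x8860028018))
) (.s (nat_lit 2) (nat_lit 0x1b) (.l (nat_lit 0x860028218))
 (.l (nat_lit 0x860028018))
)))) (.z (nat_lit 8) (.l (nat_lit 0x100830210))
 (.l (nat_lit 0x100820010))
)) (.z (nat_lit 0) (.s (nat_lit 2) (nat_lit 0x11) (.l (nat_lit 0x108000010))
 (.s (nat_lit 2) (nat_lit 0x17) (.s (nat_lit 2) (nat_lit 0x14) (.l (nat_lit 0x18841010018))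
 (.l (nat_lit 0x861020018))
) (.s (nat_lit 2) (nat_lit 0x1a) (.s (nat_lit 2) (nat_lit 0x19) (.l (nat_lit 0x18060010118))
 (.l (nat_lit 0x10060820218))
) (.s (nat_lit 2) (nat_lit 0x1c) (.s (nat_lit 2) (nat_lit 0x1b) (.l (nat_lit 0x18800c00118))
 (.l (nat_lit 0x8860028018))
) (.l (nat_lit 0x860028018))
)))) (.z (nat_lit 3) (.l (nat_lit 0x100810110))
 (.l (nat_lit 0x100820010))
)))) (.s (nat_lit 1) (nat_lit 0x20) (.s (nat_lit 1) (nat_lit 0x1f) (.s (nat_lit 1) (nat_lit 0x1e) (.z (nat_lit 0) (.s (nat_lit 2) (nat_lit 0x11) (.l (nat_lit 0x108000010))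
 (.s (nat_lit 2) (nat_lit 0x18) (.s (nat_lit 2) (nat_lit 0x15) (.l (nat_lit 0x8861020018))
 (.l (nat_lit 0x18060830218))
) (.s (nat_lit 2) (nat_lit 0x1b) (.s (nat_lit 2) (nat_lit 0x1a) (.l (nat_lit 0x10060820218))
 (.l (nat_lit 0x8860028018))
) (.s (nat_lit 2) (nat_lit 0x1d) (.l (nat_lit 0x860028018))
 (.l (nat_lit 0x18860020018))
)))) (.z (nat_lit 2) (.l (nat_lit 0x100810110))
 (.l (nat_lit 0x100820010))
)) (.z (nat_lit 1) (.s (nat_lit 2) (nat_lit 0x12) (.l (nat_lit 0x108000010))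
 (.s (nat_lit 2) (nat_lit 0x19) (.s (nat_lit 2) (nat_lit 0x16) (.l (nat_lit 0x10841430318))
 (.l (nat_lit 0x8860828018))
) (.s (nat_lit 2) (nat_lit 0x1c) (.s (nat_lit 2) (nat_lit 0x1b) (.l (nat_lit 0x8860020218))
 (.l (nat_lit 0x8060810118))
) (.s (nat_lit 2) (nat_lit 0x1e) (.l (nat_lit 0x860028018))
 (.l (nat_lit 0x10060800118))
)))) (.l (nat_lit 0x810110))
)) (.z (nat_lit 0) (.s (nat_lit 2) (nat_lit 0x12) (.l (nat_lit 0x108000010))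
 (.s (nat_lit 2) (nat_lit 0x19) (.s (nat_lit 2) (nat_lit 0x16) (.l (nat_lit 0x8060810118))
 (.l (nat_lit 0x8860828018))
) (.s (nat_lit 2) (nat_lit 0x1d) (.l (nat_lit 0x60830218))
 (.l (nat_lit 0x460030218))
))) (.l (nat_lit 0x830210))
)) (.s (nat_lit 1) (nat_lit 0x21) (.z (nat_lit 0) (.s (nat_lit 2) (nat_lit 0x13) (.l (nat_lit 0x108000010))
 (.s (nat_lit 2) (nat_lit 0x1a) (.s (nat_lit 2) (nat_lit 0x17) (.l (nat_lit 0x8800410118))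
 (.l (nat_lit 0x10060020218))
) (.s (nat_lit 2) (nat_lit 0x1e) (.s (nat_lit 2) (nat_lit 0x1c) (.l (nat_lit 0x10060820018))
 (.l (nat_lit 0x18860020018))
) (.l (nat_lit 0x60810118))
))) (.l (nat_lit 0x830210))
) (.z (nat_lit 0) (.s (nat_lit 2) (nat_lit 0x13) (.l (nat_lit 0x108000010))
 (.s (nat_lit 2) (nat_lit 0x1b) (.s (nat_lit 2) (nat_lit 0x17) (.l (nat_lit 0x8060010118))
 (.l (nat_lit 0x8860020218))
) (.l (nat_lit 0x60030218))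
)) (.l (nat_lit 0x830210))
)))) (.s (nat_lit 1) (nat_lit 0x27) (.s (nat_lit 1) (nat_lit 0x25) (.s (nat_lit 1) (nat_lit 0x24) (.s (nat_lit 1) (nat_lit 0x23) (.l (nat_lit 0x830210))
 (.z (nat_lit 0) (.s (nat_lit 2) (nat_lit 0x14) (.l (nat_lit 0x108000010))
 (.s (nat_lit 2) (nat_lit 0x1c) (.s (nat_lit 2) (nat_lit 0x18) (.l (nat_lit 0x18060830018))
 (.s (nat_lit 2) (nat_lit 0x1a) (.l (nat_lit 0x18860020018))
 (.l (nat_lit 0x8860020018))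
)) (.s (nat_lit 2) (nat_lit 0x20) (.s (nat_lit 2) (nat_lit 0x1e) (.l (nat_lit 0x8860020018))
 (.l (nat_lit 0x18800810318))
) (.s (nat_lit 2) (nat_lit 0x22) (.l (nat_lit 0x10460000118))
 (.l (nat_lit 0x60030018))
)))) (.z (nat_lit 8) (.l (nat_lit 0x100820210))
 (.l (nat_lit 0x8030010))
))) (.z (nat_lit 0) (.s (nat_lit 2) (nat_lit 0x15) (.l (nat_lit 0x108010010))
 (.s (nat_lit 2) (nat_lit 0x1d) (.s (nat_lit 2) (nat_lit 0x19) (.l (nat_lit 0x10060820018))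
 (.s (nat_lit 2) (nat_lit 0x1b) (.l (nat_lit 0x8860020018))
 (.l (nat_lit 0x8860020018))
)) (.s (nat_lit 2) (nat_lit 0x21) (.s (nat_lit 2) (nat_lit 0x1f) (.l (nat_lit 0x8460000118))
 (.l (nat_lit 0x460000118))
) (.l (nat_lit 0x10060030018))
))) (.l (nat_lit 0x108000110))
)) (.s (nat_lit 1) (nat_lit 0x26) (.l (nat_lit 0x820210))
 (.l (nat_lit 0x820210))
)) (.s (nat_lit 1) (nat_lit 0x29) (.s (nat_lit 1) (nat_lit 0x28) (.l (nat_lit 0x820210))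
 (.l (nat_lit 0x820210))
) (.l (nat_lit 0x830010))
)))) (.l (nat_lit 0x8208))
)

theorem u70 : check tb r70 [42, 0, 0, 0, 0, 0, 0, 0, 0, 0, 0, 0, 0, 0, 0, 0, 0, 0]
    [43, 43, 43, 43, 43, 43, 43, 43, 43, 43, 43, 43, 43, 43, 43, 43, 43, 43] 0 97 0 = true := by decide +kernel

noncomputable def r71 : Rt :=
(.z (nat_lit 0x13) (.s (nat_lit 1) (nat_lit 0x18) (.l (nat_lit 8))
 (.s (nat_lit 1) (nat_lit 0x22) (.s (nat_lit 1) (nat_lit 0x1d) (.s (nat_lit 1) (nat_lit 0x1b) (.s (nat_lit 1) (nat_lit 0x1a) (.s (nat_lit 1) (nat_lit 0x19) (.l (nat_lit 0x100830210))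
 (.z (nat_lit 0) (.s (nat_lit 2) (nat_lit 0xf) (.l (nat_lit 0x108000010))
 (.s (nat_lit 2) (nat_lit 0x15) (.l (nat_lit 0x861030018))
 (.s (nat_lit 2) (nat_lit 0x18) (.l (nat_lit 0x861020018))
 (.l (nat_lit 0x861020018))
))) (.l (nat_lit 0x100800310))
)) (.z (nat_lit 0) (.s (nat_lit 2) (nat_lit 0x10) (.l (nat_lit 0x108000010))
 (.s (nat_lit 2) (nat_lit 0x16) (.l (nat_lit 0x8841830318))
 (.s (nat_lit 2) (nat_lit 0x19) (.l (nat_lit 0x861020018))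
 (.l (nat_lit 0x8860028018))
))) (.l (nat_lit 0x100800310))
)) (.s (nat_lit 1) (nat_lit 0x1c) (.z (nat_lit 0) (.s (nat_lit 2) (nat_lit 0x10) (.l (nat_lit 0x108000010))
 (.s (nat_lit 2) (nat_lit 0x16) (.l (nat_lit 0x8861000318))
 (.s (nat_lit 2) (nat_lit 0x19) (.l (nat_lit 0x861020018))
 (.s (nat_lit 2) (nat_lit 0x1b) (.l (nat_lit 0x10060820218))
 (.l (nat_lit 0x860028018))
)))) (.l (nat_lit 0x100810110))
) (.z (nat_lit 0) (.s (nat_lit 2) (nat_lit 0x11) (.l (nat_lit 0x108000010))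
 (.s (nat_lit 2) (nat_lit 0x17) (.s (nat_lit 2) (nat_lit 0x14) (.l (nat_lit 0x18841010018))
 (.l (nat_lit 0x861020018))
) (.s (nat_lit 2) (nat_lit 0x1a) (.l (nat_lit 0x10060820218))
 (.l (nat_lit 0x860028018))
))) (.l (nat_lit 0x100830010))
))) (.s (nat_lit 1) (nat_lit 0x20) (.s (nat_lit 1) (nat_lit 0x1f) (.s (nat_lit 1) (nat_lit 0x1e) (.z (nat_lit 0) (.s (nat_lit 2) (nat_lit 0x11) (.l (nat_lit 0x108000010))
 (.s (nat_lit 2) (nat_lit 0x18) (.s (nat_lit 2) (nat_lit 0x15) (.l (nat_lit 0x861020018))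
 (.l (nat_lit 0x8860828018))
) (.s (nat_lit 2) (nat_lit 0x1b) (.l (nat_lit 0x10060830218))
 (.l (nat_lit 0x860028018))
))) (.l (nat_lit 0x100830010))
) (.z (nat_lit 0) (.s (nat_lit 2) (nat_lit 0x12) (.l (nat_lit 0x108000010))
 (.s (nat_lit 2) (nat_lit 0x19) (.s (nat_lit 2) (nat_lit 0x16) (.l (nat_lit 0x861020018))
 (.l (nat_lit 0x8860828018))
) (.s (nat_lit 2) (nat_lit 0x1c) (.l (nat_lit 0x10060830218))
 (.s (nat_lit 2) (nat_lit 0x1e) (.l (nat_lit 0x10060820018))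
 (.l (nat_lit 0x10060800118))
)))) (.l (nat_lit 0x100810110))
)) (.z (nat_lit 0) (.s (nat_lit 2) (nat_lit 0x12) (.l (nat_lit 0x108000010))
 (.s (nat_lit 2) (nat_lit 0x19) (.s (nat_lit 2) (nat_lit 0x16) (.l (nat_lit 0x18820430018))
 (.l (nat_lit 0x8860828018))
) (.s (nat_lit 2) (nat_lit 0x1d) (.l (nat_lit 0x60830218))
 (.l (nat_lit 0x60030218))
))) (.l (nat_lit 0x830210))
)) (.s (nat_lit 1) (nat_lit 0x21) (.z (nat_lit 0) (.s (nat_lit 2) (nat_lit 0x13) (.l (nat_lit 0x108000010))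
 (.s (nat_lit 2) (nat_lit 0x1a) (.s (nat_lit 2) (nat_lit 0x17) (.l (nat_lit 0x18060800118))
 (.l (nat_lit 0x8060810118))
) (.s (nat_lit 2) (nat_lit 0x1e) (.l (nat_lit 0x8860820018))
 (.l (nat_lit 0x60810118))
))) (.l (nat_lit 0x830210))
) (.z (nat_lit 0) (.s (nat_lit 2) (nat_lit 0x13) (.l (nat_lit 0x108000010))
 (.s (nat_lit 2) (nat_lit 0x1b) (.s (nat_lit 2) (nat_lit 0x17) (.l (nat_lit 0x18060830018))
 (.l (nat_lit 0x60030218))
) (.s (nat_lit 2) (nat_lit 0x1f) (.l (nat_lit 0x8060010118))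
 (.s (nat_lit 2) (nat_lit 0x21) (.l (nat_lit 0x60810118))
 (.l (nat_lit 0x60800118))
)))) (.z (nat_lit 0xb) (.l (nat_lit 0x830210))
 (.z (nat_lit 0x11) (.l (nat_lit 0x810110))
 (.l (nat_lit 0x820010))
)))))) (.s (nat_lit 1) (nat_lit 0x27) (.s (nat_lit 1) (nat_lit 0x25) (.s (nat_lit 1) (nat_lit 0x24) (.s (nat_lit 1) (nat_lit 0x23) (.l (nat_lit 0x830210))
 (.l (nat_lit 0x810110))
) (.z (nat_lit 0) (.s (nat_lit 2) (nat_lit 0x15) (.l (nat_lit 0x108010010))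
 (.s (nat_lit 2) (nat_lit 0x1d) (.s (nat_lit 2) (nat_lit 0x19) (.l (nat_lit 0x18860020018))
 (.l (nat_lit 0x8860020018))
) (.s (nat_lit 2) (nat_lit 0x21) (.s (nat_lit 2) (nat_lit 0x1f) (.l (nat_lit 0x10460000118))
 (.l (nat_lit 0x460000118))
) (.l (nat_lit 0x861010018))
))) (.l (nat_lit 0x108000110))
)) (.s (nat_lit 1) (nat_lit 0x26) (.l (nat_lit 0x820210))
 (.l (nat_lit 0x820210))
)) (.s (nat_lit 1) (nat_lit 0x2a) (.s (nat_lit 1) (nat_lit 0x29) (.s (nat_lit 1) (nat_lit 0x28) (.l (nat_lit 0x820210))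
 (.z (nat_lit 6) (.s (nat_lit 2) (nat_lit 0x17) (.l (nat_lit 0x108000010))
 (.s (nat_lit 2) (nat_lit 0x20) (.s (nat_lit 2) (nat_lit 0x1c) (.l (nat_lit 0x60030018))
 (.l (nat_lit 0x60030018))
) (.s (nat_lit 2) (nat_lit 0x25) (.s (nat_lit 2) (nat_lit 0x23) (.l (nat_lit 0x60030018))
 (.l (nat_lit 0x8022830018))
) (.s (nat_lit 2) (nat_lit 0x27) (.l (nat_lit 0x841010218))
 (.s (nat_lit 2) (nat_lit 0x28) (.l (nat_lit 0x841010218))
 (.z (nat_lit 0) (.s (nat_lit 3) (nat_lit 0x17) (.l (nat_lit 0x841800218))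
 (.s (nat_lit 3) (nat_lit 0x20) (.l (nat_lit 0x401180810320))
 (.s (nat_lit 3) (nat_lit 0x25) (.l (nat_lit 0x41c1000020))
 (.l (nat_lit 0x8041c0008020))
))) (.l (nat_lit 0x841000018))
)))))) (.z (nat_lit 0xc) (.l (nat_lit 0x830010))
 (.z (nat_lit 0xe) (.s (nat_lit 2) (nat_lit 0x17) (.l (nat_lit 0x108000010))
 (.s (nat_lit 2) (nat_lit 0x20) (.l (nat_lit 0x60030018))
 (.s (nat_lit 2) (nat_lit 0x25) (.s (nat_lit 2) (nat_lit 0x23) (.l (nat_lit 0x60030018))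
 (.l (nat_lit 0x841000018))
) (.l (nat_lit 0x841000018))
))) (.l (nat_lit 0x830010))
)))) (.z (nat_lit 0) (.s (nat_lit 2) (nat_lit 0x17) (.l (nat_lit 0x108000010))
 (.s (nat_lit 2) (nat_lit 0x21) (.s (nat_lit 2) (nat_lit 0x1c) (.l (nat_lit 0x60030018))
 (.l (nat_lit 0x60030018))
) (.s (nat_lit 2) (nat_lit 0x26) (.s (nat_lit 2) (nat_lit 0x24) (.l (nat_lit 0x8022830018))
 (.l (nat_lit 0x8022000118))
) (.s (nat_lit 2) (nat_lit 0x28) (.l (nat_lit 0x841010218))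
 (.l (nat_lit 0x841000018))
)))) (.z (nat_lit 0xc) (.l (nat_lit 0x830010))
 (.z (nat_lit 0xd) (.s (nat_lit 2) (nat_lit 0x17) (.l (nat_lit 0x108000010))
 (.s (nat_lit 2) (nat_lit 0x21) (.l (nat_lit 0x60030018))
 (.s (nat_lit 2) (nat_lit 0x26) (.l (nat_lit 0x8402000118))
 (.l (nat_lit 0x841000018))
))) (.l (nat_lit 0x830010))
)))) (.l (nat_lit 0x830010))
)))) (.l (nat_lit 0x8208))
)

theorem u71 : check tb r71 [43, 0, 0, 0, 0, 0, 0, 0, 0, 0, 0, 0, 0, 0, 0, 0, 0, 0]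
    [44, 44, 44, 44, 44, 44, 44, 44, 44, 44, 44, 44, 44, 44, 44, 44, 44, 44] 0 97 0 = true := by decide +kernel

noncomputable def r72 : Rt :=
(.s (nat_lit 0) (nat_lit 0x2d) (.z (nat_lit 0x13) (.s (nat_lit 1) (nat_lit 0x19) (.l (nat_lit 8))
 (.s (nat_lit 1) (nat_lit 0x23) (.s (nat_lit 1) (nat_lit 0x1e) (.s (nat_lit 1) (nat_lit 0x1c) (.s (nat_lit 1) (nat_lit 0x1b) (.s (nat_lit 1) (nat_lit 0x1a) (.z (nat_lit 0) (.s (nat_lit 2) (nat_lit 0xf) (.l (nat_lit 0x108000010))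
 (.s (nat_lit 2) (nat_lit 0x15) (.l (nat_lit 0x8841820018))
 (.l (nat_lit 0x861000318))
)) (.l (nat_lit 0x100810110))
) (.z (nat_lit 0) (.s (nat_lit 2) (nat_lit 0x10) (.l (nat_lit 0x108000010))
 (.s (nat_lit 2) (nat_lit 0x16) (.l (nat_lit 0x8861800318))
 (.l (nat_lit 0x860028218))
)) (.l (nat_lit 0x100810110))
)) (.z (nat_lit 0) (.s (nat_lit 2) (nat_lit 0x10) (.l (nat_lit 0x108000010))
 (.s (nat_lit 2) (nat_lit 0x16) (.l (nat_lit 0x861000318))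
 (.s (nat_lit 2) (nat_lit 0x19) (.l (nat_lit 0x861020018))
 (.s (nat_lit 2) (nat_lit 0x1b) (.l (nat_lit 0x8860028018))
 (.l (nat_lit 0x18060820018))
)))) (.l (nat_lit 0x100830010))
)) (.s (nat_lit 1) (nat_lit 0x1d) (.z (nat_lit 0) (.s (nat_lit 2) (nat_lit 0x11) (.l (nat_lit 0x108000010))
 (.s (nat_lit 2) (nat_lit 0x17) (.l (nat_lit 0x8861020018))
 (.s (nat_lit 2) (nat_lit 0x1a) (.l (nat_lit 0x10060830218))
 (.l (nat_lit 0x8860020218))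
))) (.l (nat_lit 0x100820010))
) (.z (nat_lit 0) (.s (nat_lit 2) (nat_lit 0x11) (.l (nat_lit 0x108000010))
 (.s (nat_lit 2) (nat_lit 0x18) (.l (nat_lit 0x8861020018))
 (.s (nat_lit 2) (nat_lit 0x1b) (.l (nat_lit 0x8860020218))
 (.l (nat_lit 0x18060810118))
))) (.l (nat_lit 0x100800110))
))) (.s (nat_lit 1) (nat_lit 0x21) (.s (nat_lit 1) (nat_lit 0x20) (.s (nat_lit 1) (nat_lit 0x1f) (.z (nat_lit 0) (.s (nat_lit 2) (nat_lit 0x12) (.l (nat_lit 0x108000010))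
 (.s (nat_lit 2) (nat_lit 0x19) (.s (nat_lit 2) (nat_lit 0x16) (.l (nat_lit 0x861020018))
 (.l (nat_lit 0x18060820018))
) (.s (nat_lit 2) (nat_lit 0x1c) (.l (nat_lit 0x860028018))
 (.l (nat_lit 0x10060030218))
))) (.l (nat_lit 0x100830210))
) (.z (nat_lit 0) (.s (nat_lit 2) (nat_lit 0x12) (.l (nat_lit 0x108000010))
 (.s (nat_lit 2) (nat_lit 0x19) (.s (nat_lit 2) (nat_lit 0x16) (.l (nat_lit 0x861020018))
 (.l (nat_lit 0x10060820018))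
) (.s (nat_lit 2) (nat_lit 0x1d) (.l (nat_lit 0x860028018))
 (.l (nat_lit 0x18060810118))
))) (.l (nat_lit 0x830210))
)) (.z (nat_lit 0) (.s (nat_lit 2) (nat_lit 0x13) (.l (nat_lit 0x108000010))
 (.s (nat_lit 2) (nat_lit 0x1a) (.s (nat_lit 2) (nat_lit 0x17) (.l (nat_lit 0x18060820018))
 (.l (nat_lit 0x10060820018))
) (.s (nat_lit 2) (nat_lit 0x1e) (.l (nat_lit 0x18060800118))
 (.l (nat_lit 0x60810118))
))) (.l (nat_lit 0x830210))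
)) (.s (nat_lit 1) (nat_lit 0x22) (.z (nat_lit 0) (.s (nat_lit 2) (nat_lit 0x13) (.l (nat_lit 0x108000010))
 (.s (nat_lit 2) (nat_lit 0x1b) (.s (nat_lit 2) (nat_lit 0x17) (.l (nat_lit 0x10060820018))
 (.l (nat_lit 0x10060820018))
) (.s (nat_lit 2) (nat_lit 0x1f) (.l (nat_lit 0x8060810118))
 (.s (nat_lit 2) (nat_lit 0x21) (.l (nat_lit 0x60810118))
 (.l (nat_lit 0x860020018))
)))) (.l (nat_lit 0x810110))
) (.z (nat_lit 0) (.s (nat_lit 2) (nat_lit 0x14) (.l (nat_lit 0x108000010))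
 (.s (nat_lit 2) (nat_lit 0x1c) (.s (nat_lit 2) (nat_lit 0x18) (.l (nat_lit 0x18841010018))
 (.l (nat_lit 0x8060010118))
) (.s (nat_lit 2) (nat_lit 0x20) (.s (nat_lit 2) (nat_lit 0x1e) (.l (nat_lit 0x8860020018))
 (.l (nat_lit 0x60810118))
) (.l (nat_lit 0x60810118))
))) (.l (nat_lit 0x810110))
)))) (.s (nat_lit 1) (nat_lit 0x28) (.s (nat_lit 1) (nat_lit 0x26) (.s (nat_lit 1) (nat_lit 0x25) (.l (nat_lit 0x810110))
 (.l (nat_lit 0x820210))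
) (.s (nat_lit 1) (nat_lit 0x27) (.l (nat_lit 0x820210))
 (.l (nat_lit 0x820210))
)) (.s (nat_lit 1) (nat_lit 0x2b) (.l (nat_lit 0x830010))
 (.l (nat_lit 0x820210))
)))) (.z (nat_lit 0x1b) (.l (nat_lit 0x8208))
 (.l (nat_lit 0x208))
)) (.z (nat_lit 0xe) (.s (nat_lit 1) (nat_lit 0x19) (.l (nat_lit 0x208))
 (.s (nat_lit 1) (nat_lit 0x24) (.s (nat_lit 1) (nat_lit 0x1f) (.s (nat_lit 1) (nat_lit 0x1c) (.s (nat_lit 1) (nat_lit 0x1b) (.s (nat_lit 1) (nat_lit 0x1a) (.z (nat_lit 0) (.s (nat_lit 2) (nat_lit 0xf) (.l (nat_lit 0x108000010))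
 (.s (nat_lit 2) (nat_lit 0x15) (.l (nat_lit 0x861030018))
 (.s (nat_lit 2) (nat_lit 0x18) (.l (nat_lit 0x861020018))
 (.l (nat_lit 0x861020018))
))) (.l (nat_lit 0x100830010))
) (.z (nat_lit 0) (.s (nat_lit 2) (nat_lit 0x10) (.l (nat_lit 0x108000010))
 (.s (nat_lit 2) (nat_lit 0x16) (.l (nat_lit 0x861030018))
 (.s (nat_lit 2) (nat_lit 0x19) (.l (nat_lit 0x10060820218))
 (.l (nat_lit 0x861020018))
))) (.l (nat_lit 0x100830010))
)) (.z (nat_lit 0) (.s (nat_lit 2) (nat_lit 0x10) (.l (nat_lit 0x108000010))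
 (.s (nat_lit 2) (nat_lit 0x16) (.l (nat_lit 0x861030018))
 (.s (nat_lit 2) (nat_lit 0x19) (.l (nat_lit 0x8860028018))
 (.l (nat_lit 0x861020018))
))) (.l (nat_lit 0x100830010))
)) (.s (nat_lit 1) (nat_lit 0x1e) (.s (nat_lit 1) (nat_lit 0x1d) (.z (nat_lit 0) (.s (nat_lit 2) (nat_lit 0x11) (.l (nat_lit 0x108000010))
 (.s (nat_lit 2) (nat_lit 0x17) (.l (nat_lit 0x10800820218))
 (.s (nat_lit 2) (nat_lit 0x1a) (.l (nat_lit 0x861020018))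
 (.l (nat_lit 0x860028018))
))) (.l (nat_lit 0x100820010))
) (.z (nat_lit 0) (.s (nat_lit 2) (nat_lit 0x11) (.l (nat_lit 0x108000010))
 (.s (nat_lit 2) (nat_lit 0x18) (.s (nat_lit 2) (nat_lit 0x15) (.l (nat_lit 0x861020018))
 (.l (nat_lit 0x861020018))
) (.s (nat_lit 2) (nat_lit 0x1b) (.l (nat_lit 0x8860020218))
 (.l (nat_lit 0x18060810118))
))) (.l (nat_lit 0x100800110))
)) (.z (nat_lit 0) (.s (nat_lit 2) (nat_lit 0x12) (.l (nat_lit 0x108000010))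
 (.s (nat_lit 2) (nat_lit 0x19) (.s (nat_lit 2) (nat_lit 0x16) (.l (nat_lit 0x8861020018))
 (.l (nat_lit 0x861020018))
) (.s (nat_lit 2) (nat_lit 0x1c) (.l (nat_lit 0x860028018))
 (.l (nat_lit 0x10060030218))
))) (.l (nat_lit 0x100830210))
))) (.s (nat_lit 1) (nat_lit 0x22) (.s (nat_lit 1) (nat_lit 0x21) (.s (nat_lit 1) (nat_lit 0x20) (.z (nat_lit 0) (.s (nat_lit 2) (nat_lit 0x12) (.l (nat_lit 0x108000010))
 (.s (nat_lit 2) (nat_lit 0x19) (.l (nat_lit 0x860028218))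
 (.s (nat_lit 2) (nat_lit 0x1d) (.l (nat_lit 0x10060820018))
 (.l (nat_lit 0x60030218))
))) (.l (nat_lit 0x100810110))
) (.z (nat_lit 0) (.s (nat_lit 2) (nat_lit 0x13) (.l (nat_lit 0x108000010))
 (.s (nat_lit 2) (nat_lit 0x1a) (.s (nat_lit 2) (nat_lit 0x17) (.l (nat_lit 0x861020018))
 (.l (nat_lit 0x10060820018))
) (.s (nat_lit 2) (nat_lit 0x1e) (.l (nat_lit 0x60030218))
 (.s (nat_lit 2) (nat_lit 0x20) (.s (nat_lit 2) (nat_lit 0x1f) (.l (nat_lit 0x8861010218))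
 (.l (nat_lit 0x60810118))
) (.l (nat_lit 0x60810118))
)))) (.l (nat_lit 0x810110))
)) (.z (nat_lit 0) (.s (nat_lit 2) (nat_lit 0x13) (.l (nat_lit 0x108000010))
 (.s (nat_lit 2) (nat_lit 0x1b) (.s (nat_lit 2) (nat_lit 0x17) (.l (nat_lit 0x18800420018))
 (.l (nat_lit 0x10060820018))
) (.s (nat_lit 2) (nat_lit 0x1f) (.s (nat_lit 2) (nat_lit 0x1d) (.l (nat_lit 0x8860020018))
 (.s (nat_lit 2) (nat_lit 0x1e) (.l (nat_lit 0x8860020018))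
 (.l (nat_lit 0x60810118))
)) (.l (nat_lit 0x60810118))
))) (.l (nat_lit 0x810110))
)) (.s (nat_lit 1) (nat_lit 0x23) (.z (nat_lit 0) (.s (nat_lit 2) (nat_lit 0x14) (.l (nat_lit 0x108000010))
 (.s (nat_lit 2) (nat_lit 0x1c) (.s (nat_lit 2) (nat_lit 0x18) (.l (nat_lit 0x18860020018))
 (.l (nat_lit 0x8860020018))
) (.s (nat_lit 2) (nat_lit 0x20) (.l (nat_lit 0x8060810118))
 (.l (nat_lit 0x60810118))
))) (.l (nat_lit 0x810110))
) (.l (nat_lit 0x810110))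
))) (.s (nat_lit 1) (nat_lit 0x29) (.s (nat_lit 1) (nat_lit 0x27) (.s (nat_lit 1) (nat_lit 0x26) (.l (nat_lit 0x830210))
 (.z (nat_lit 3) (.s (nat_lit 2) (nat_lit 0x16) (.l (nat_lit 0x108000010))
 (.s (nat_lit 2) (nat_lit 0x1f) (.s (nat_lit 2) (nat_lit 0x1b) (.l (nat_lit 0x8860020018))
 (.l (nat_lit 0x60030018))
) (.s (nat_lit 2) (nat_lit 0x23) (.l (nat_lit 0x60030018))
 (.l (nat_lit 0x841010218))
))) (.z (nat_lit 0xc) (.l (nat_lit 0x820210))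
 (.z (nat_lit 0xd) (.l (nat_lit 0x100410210))
 (.s (nat_lit 2) (nat_lit 0x16) (.l (nat_lit 0x108000010))
 (.s (nat_lit 2) (nat_lit 0x1f) (.l (nat_lit 0x8861810218))
 (.l (nat_lit 0x841010218))
)))))) (.s (nat_lit 1) (nat_lit 0x28) (.z (nat_lit 0) (.s (nat_lit 2) (nat_lit 0x16) (.l (nat_lit 0x108000010))
 (.s (nat_lit 2) (nat_lit 0x1f) (.s (nat_lit 2) (nat_lit 0x1b) (.l (nat_lit 0x10060030018))
 (.l (nat_lit 0x60030018))
) (.s (nat_lit 2) (nat_lit 0x24) (.l (nat_lit 0x860000118))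
 (.l (nat_lit 0x841010218))
))) (.l (nat_lit 0x100410210))
) (.z (nat_lit 2) (.s (nat_lit 2) (nat_lit 0x17) (.l (nat_lit 0x108000010))
 (.s (nat_lit 2) (nat_lit 0x20) (.s (nat_lit 2) (nat_lit 0x1c) (.l (nat_lit 0x60030018))
 (.l (nat_lit 0x60030018))
) (.s (nat_lit 2) (nat_lit 0x25) (.l (nat_lit 0x860000118))
 (.s (nat_lit 2) (nat_lit 0x27) (.l (nat_lit 0x841000018))
 (.l (nat_lit 0x841000018))
)))) (.z (nat_lit 9) (.l (nat_lit 0x820210))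
 (.z (nat_lit 0xc) (.l (nat_lit 0x830010))
 (.l (nat_lit 0x820210))
))))) (.s (nat_lit 1) (nat_lit 0x2c) (.s (nat_lit 1) (nat_lit 0x2b) (.l (nat_lit 0x830010))
 (.l (nat_lit 0x820210))
) (.l (nat_lit 0x820210))
)))) (.z (nat_lit 0xf) (.l (nat_lit 0x8208))
 (.z (nat_lit 0x12) (.s (nat_lit 1) (nat_lit 0x19) (.l (nat_lit 8))
 (.s (nat_lit 1) (nat_lit 0x24) (.s (nat_lit 1) (nat_lit 0x1f) (.l (nat_lit 0x830210))
 (.l (nat_lit 0x830210))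
) (.s (nat_lit 1) (nat_lit 0x29) (.s (nat_lit 1) (nat_lit 0x27) (.s (nat_lit 1) (nat_lit 0x26) (.l (nat_lit 0x8000110))
 (.l (nat_lit 0x820210))
) (.l (nat_lit 0x830010))
) (.l (nat_lit 0x820210))
))) (.z (nat_lit 0x1a) (.l (nat_lit 0x8208))
 (.z (nat_lit 0x24) (.l (nat_lit 0x8008))
 (.l (nat_lit 0x8108))
))))))

theorem u72 : check tb r72 [44, 0, 0, 0, 0, 0, 0, 0, 0, 0, 0, 0, 0, 0, 0, 0, 0, 0]
    [46, 46, 46, 46, 46, 46, 46, 46, 46, 46, 46, 46, 46, 46, 46, 46, 46, 46] 0 97 0 = true := by decide +kernel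

noncomputable def r73 : Rt :=
(.z (nat_lit 0xe) (.s (nat_lit 1) (nat_lit 0x1a) (.s (nat_lit 1) (nat_lit 0xf) (.l (nat_lit 8))
 (.s (nat_lit 1) (nat_lit 0x15) (.s (nat_lit 1) (nat_lit 0x12) (.l (nat_lit 0x108000010))
 (.l (nat_lit 0x100800110))
) (.s (nat_lit 1) (nat_lit 0x18) (.s (nat_lit 1) (nat_lit 0x17) (.l (nat_lit 0x100830010))
 (.l (nat_lit 0x100800110))
) (.s (nat_lit 1) (nat_lit 0x19) (.l (nat_lit 0x100820210))
 (.z (nat_lit 0) (.s (nat_lit 2) (nat_lit 0xf) (.l (nat_lit 0x108000010))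
 (.s (nat_lit 2) (nat_lit 0x15) (.l (nat_lit 0x18861420018))
 (.s (nat_lit 2) (nat_lit 0x18) (.l (nat_lit 0x18060810118))
 (.l (nat_lit 0x861020018))
))) (.l (nat_lit 0x100820010))
))))) (.s (nat_lit 1) (nat_lit 0x25) (.s (nat_lit 1) (nat_lit 0x20) (.s (nat_lit 1) (nat_lit 0x1d) (.s (nat_lit 1) (nat_lit 0x1c) (.s (nat_lit 1) (nat_lit 0x1b) (.z (nat_lit 0) (.s (nat_lit 2) (nat_lit 0x10) (.l (nat_lit 0x108000010))
 (.s (nat_lit 2) (nat_lit 0x16) (.l (nat_lit 0x861030018))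
 (.s (nat_lit 2) (nat_lit 0x19) (.l (nat_lit 0x8861820018))
 (.l (nat_lit 0x861020018))
))) (.l (nat_lit 0x100830010))
) (.z (nat_lit 0) (.s (nat_lit 2) (nat_lit 0x10) (.l (nat_lit 0x108000010))
 (.s (nat_lit 2) (nat_lit 0x16) (.l (nat_lit 0x8861820018))
 (.s (nat_lit 2) (nat_lit 0x19) (.l (nat_lit 0x861020018))
 (.l (nat_lit 0x861020018))
))) (.l (nat_lit 0x100830010))
)) (.z (nat_lit 0) (.s (nat_lit 2) (nat_lit 0x11) (.l (nat_lit 0x108000010))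
 (.s (nat_lit 2) (nat_lit 0x17) (.l (nat_lit 0x8861020018))
 (.s (nat_lit 2) (nat_lit 0x1a) (.l (nat_lit 0x861020018))
 (.l (nat_lit 0x860028018))
))) (.l (nat_lit 0x100820210))
)) (.s (nat_lit 1) (nat_lit 0x1f) (.s (nat_lit 1) (nat_lit 0x1e) (.z (nat_lit 0) (.s (nat_lit 2) (nat_lit 0x11) (.l (nat_lit 0x108000010))
 (.s (nat_lit 2) (nat_lit 0x18) (.s (nat_lit 2) (nat_lit 0x15) (.l (nat_lit 0x18841010018))
 (.l (nat_lit 0x861020018))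
) (.s (nat_lit 2) (nat_lit 0x1b) (.l (nat_lit 0x861020018))
 (.l (nat_lit 0x10060820018))
))) (.l (nat_lit 0x108028010))
) (.z (nat_lit 0) (.s (nat_lit 2) (nat_lit 0x12) (.l (nat_lit 0x108000010))
 (.s (nat_lit 2) (nat_lit 0x19) (.l (nat_lit 0x860028218))
 (.s (nat_lit 2) (nat_lit 0x1c) (.l (nat_lit 0x10060820018))
 (.l (nat_lit 0x60030218))
))) (.l (nat_lit 0x100820210))
)) (.z (nat_lit 0) (.s (nat_lit 2) (nat_lit 0x12) (.l (nat_lit 0x108000010))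
 (.s (nat_lit 2) (nat_lit 0x19) (.l (nat_lit 0x8861020018))
 (.s (nat_lit 2) (nat_lit 0x1d) (.l (nat_lit 0x60030218))
 (.s (nat_lit 2) (nat_lit 0x1f) (.l (nat_lit 0x60030218))
 (.l (nat_lit 0x60810118))
)))) (.l (nat_lit 0x100810110))
))) (.s (nat_lit 1) (nat_lit 0x23) (.s (nat_lit 1) (nat_lit 0x22) (.s (nat_lit 1) (nat_lit 0x21) (.z (nat_lit 0) (.s (nat_lit 2) (nat_lit 0x13) (.l (nat_lit 0x108000010))
 (.s (nat_lit 2) (nat_lit 0x1a) (.s (nat_lit 2) (nat_lit 0x17) (.l (nat_lit 0x18860020018))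
 (.l (nat_lit 0x18860020018))
) (.s (nat_lit 2) (nat_lit 0x1e) (.l (nat_lit 0x10060020018))
 (.l (nat_lit 0x10060810118))
))) (.l (nat_lit 0x810110))
) (.z (nat_lit 0) (.s (nat_lit 2) (nat_lit 0x13) (.l (nat_lit 0x108000010))
 (.s (nat_lit 2) (nat_lit 0x1b) (.s (nat_lit 2) (nat_lit 0x17) (.l (nat_lit 0x18860020018))
 (.l (nat_lit 0x860028018))
) (.s (nat_lit 2) (nat_lit 0x1f) (.s (nat_lit 2) (nat_lit 0x1d) (.l (nat_lit 0x8860020018))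
 (.l (nat_lit 0x60810118))
) (.l (nat_lit 0x60810118))
))) (.l (nat_lit 0x810110))
)) (.l (nat_lit 0x830210))
) (.l (nat_lit 0x830210))
)) (.s (nat_lit 1) (nat_lit 0x2a) (.s (nat_lit 1) (nat_lit 0x28) (.s (nat_lit 1) (nat_lit 0x27) (.l (nat_lit 0x830210))
 (.z (nat_lit 0) (.s (nat_lit 2) (nat_lit 0x16) (.l (nat_lit 0x108000010))
 (.s (nat_lit 2) (nat_lit 0x1f) (.s (nat_lit 2) (nat_lit 0x1b) (.l (nat_lit 0x10060030018))
 (.l (nat_lit 0x60030018))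
) (.s (nat_lit 2) (nat_lit 0x24) (.l (nat_lit 0x860000118))
 (.l (nat_lit 0x841010218))
))) (.l (nat_lit 0x100410210))
)) (.s (nat_lit 1) (nat_lit 0x29) (.l (nat_lit 0x820210))
 (.l (nat_lit 0x830010))
)) (.s (nat_lit 1) (nat_lit 0x2d) (.s (nat_lit 1) (nat_lit 0x2c) (.s (nat_lit 1) (nat_lit 0x2b) (.l (nat_lit 0x820210))
 (.l (nat_lit 0x820210))
) (.l (nat_lit 0x820210))
) (.l (nat_lit 0x820210))
)))) (.z (nat_lit 0x10) (.l (nat_lit 0x8208))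
 (.z (nat_lit 0x12) (.s (nat_lit 1) (nat_lit 0x1a) (.l (nat_lit 8))
 (.s (nat_lit 1) (nat_lit 0x25) (.s (nat_lit 1) (nat_lit 0x20) (.l (nat_lit 0x108020010))
 (.l (nat_lit 0x830210))
) (.s (nat_lit 1) (nat_lit 0x2a) (.s (nat_lit 1) (nat_lit 0x28) (.l (nat_lit 0x830010))
 (.l (nat_lit 0x830010))
) (.l (nat_lit 0x820210))
))) (.z (nat_lit 0x19) (.l (nat_lit 0x8208))
 (.z (nat_lit 0x1a) (.s (nat_lit 1) (nat_lit 0x1a) (.l (nat_lit 8))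
 (.s (nat_lit 1) (nat_lit 0x25) (.s (nat_lit 1) (nat_lit 0x20) (.l (nat_lit 0x101))
 (.l (nat_lit 0x108000010))
) (.l (nat_lit 0x100810210))
)) (.z (nat_lit 0x22) (.l (nat_lit 0x8008))
 (.l (nat_lit 0x208))
))))))

theorem u73 : check tb r73 [46, 0, 0, 0, 0, 0, 0, 0, 0, 0, 0, 0, 0, 0, 0, 0, 0, 0]
    [47, 47, 47, 47, 47, 47, 47, 47, 47, 47, 47, 47, 47, 47, 47, 47, 47, 47] 0 97 0 = true := by decide +kernel

noncomputable def r74 : Rt :=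
(.s (nat_lit 0) (nat_lit 0x31) (.s (nat_lit 0) (nat_lit 0x30) (.z (nat_lit 0xf) (.s (nat_lit 1) (nat_lit 0x1a) (.l (nat_lit 0x208))
 (.s (nat_lit 1) (nat_lit 0x25) (.s (nat_lit 1) (nat_lit 0x20) (.s (nat_lit 1) (nat_lit 0x1d) (.s (nat_lit 1) (nat_lit 0x1c) (.s (nat_lit 1) (nat_lit 0x1b) (.z (nat_lit 0) (.s (nat_lit 2) (nat_lit 0x10) (.l (nat_lit 0x108000010))
 (.s (nat_lit 2) (nat_lit 0x16) (.l (nat_lit 0x18861420018))
 (.s (nat_lit 2) (nat_lit 0x19) (.l (nat_lit 0x18060820018))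
 (.l (nat_lit 0x861020018))
))) (.l (nat_lit 0x100820010))
) (.z (nat_lit 0) (.s (nat_lit 2) (nat_lit 0x10) (.l (nat_lit 0x108000010))
 (.s (nat_lit 2) (nat_lit 0x16) (.l (nat_lit 0x8841810018))
 (.s (nat_lit 2) (nat_lit 0x19) (.l (nat_lit 0x8841010018))
 (.l (nat_lit 0x861020018))
))) (.l (nat_lit 0x108428010))
)) (.z (nat_lit 0) (.s (nat_lit 2) (nat_lit 0x11) (.l (nat_lit 0x108000010))
 (.s (nat_lit 2) (nat_lit 0x17) (.l (nat_lit 0x8861020018))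
 (.l (nat_lit 0x861020018))
)) (.l (nat_lit 0x108428010))
)) (.s (nat_lit 1) (nat_lit 0x1f) (.s (nat_lit 1) (nat_lit 0x1e) (.l (nat_lit 0x100830210))
 (.l (nat_lit 0x100830210))
) (.z (nat_lit 0) (.s (nat_lit 2) (nat_lit 0x12) (.l (nat_lit 0x108000010))
 (.s (nat_lit 2) (nat_lit 0x19) (.l (nat_lit 0x8861020018))
 (.s (nat_lit 2) (nat_lit 0x1d) (.l (nat_lit 0x60030218))
 (.s (nat_lit 2) (nat_lit 0x1f) (.l (nat_lit 0x10040008218))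
 (.l (nat_lit 0x60810118))
)))) (.l (nat_lit 0x810110))
))) (.s (nat_lit 1) (nat_lit 0x23) (.s (nat_lit 1) (nat_lit 0x22) (.s (nat_lit 1) (nat_lit 0x21) (.z (nat_lit 0) (.s (nat_lit 2) (nat_lit 0x13) (.l (nat_lit 0x108000010))
 (.s (nat_lit 2) (nat_lit 0x1a) (.s (nat_lit 2) (nat_lit 0x17) (.l (nat_lit 0x18841000018))
 (.l (nat_lit 0x18860020018))
) (.s (nat_lit 2) (nat_lit 0x1e) (.l (nat_lit 0x8860020018))
 (.l (nat_lit 0x60810118))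
))) (.l (nat_lit 0x810110))
) (.l (nat_lit 0x100810110))
) (.l (nat_lit 0x100810110))
) (.s (nat_lit 1) (nat_lit 0x24) (.l (nat_lit 0x810110))
 (.z (nat_lit 3) (.s (nat_lit 2) (nat_lit 0x15) (.l (nat_lit 0x108000010))
 (.s (nat_lit 2) (nat_lit 0x1d) (.s (nat_lit 2) (nat_lit 0x19) (.l (nat_lit 0x8860020018))
 (.l (nat_lit 0x10060030018))
) (.s (nat_lit 2) (nat_lit 0x21) (.l (nat_lit 0x60030018))
 (.l (nat_lit 0x8841800018))
))) (.l (nat_lit 0x100410210))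
)))) (.s (nat_lit 1) (nat_lit 0x2b) (.s (nat_lit 1) (nat_lit 0x28) (.s (nat_lit 1) (nat_lit 0x27) (.l (nat_lit 0x830210))
 (.l (nat_lit 0x830210))
) (.s (nat_lit 1) (nat_lit 0x2a) (.s (nat_lit 1) (nat_lit 0x29) (.l (nat_lit 0x830010))
 (.z (nat_lit 0) (.s (nat_lit 2) (nat_lit 0x17) (.l (nat_lit 0x108000010))
 (.s (nat_lit 2) (nat_lit 0x21) (.s (nat_lit 2) (nat_lit 0x1c) (.l (nat_lit 0x8841810018))
 (.l (nat_lit 0x841010018))
) (.s (nat_lit 2) (nat_lit 0x26) (.s (nat_lit 2) (nat_lit 0x24) (.l (nat_lit 0x8022030018))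
 (.l (nat_lit 0x841000018))
) (.l (nat_lit 0x841000018))
))) (.z (nat_lit 6) (.l (nat_lit 0x820210))
 (.l (nat_lit 0x830010))
))) (.l (nat_lit 0x820210))
)) (.s (nat_lit 1) (nat_lit 0x2e) (.l (nat_lit 0x820210))
 (.l (nat_lit 0x820210))
)))) (.z (nat_lit 0x18) (.l (nat_lit 0x8208))
 (.z (nat_lit 0x1b) (.s (nat_lit 1) (nat_lit 0x1a) (.l (nat_lit 8))
 (.s (nat_lit 1) (nat_lit 0x25) (.s (nat_lit 1) (nat_lit 0x20) (.l (nat_lit 0x800110))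
 (.l (nat_lit 0x8030010))
) (.l (nat_lit 0x820210))
)) (.l (nat_lit 0x208))
))) (.z (nat_lit 0xf) (.s (nat_lit 1) (nat_lit 0x1b) (.s (nat_lit 1) (nat_lit 0x10) (.l (nat_lit 8))
 (.s (nat_lit 1) (nat_lit 0x16) (.s (nat_lit 1) (nat_lit 0x13) (.l (nat_lit 0x108000010))
 (.l (nat_lit 0x100820010))
) (.s (nat_lit 1) (nat_lit 0x19) (.l (nat_lit 0x100830210))
 (.s (nat_lit 1) (nat_lit 0x1a) (.z (nat_lit 0) (.s (nat_lit 2) (nat_lit 0xf) (.l (nat_lit 0x108000010))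
 (.s (nat_lit 2) (nat_lit 0x15) (.l (nat_lit 0x8841810018))
 (.l (nat_lit 0x8860028018))
)) (.l (nat_lit 0x100820010))
) (.z (nat_lit 0) (.s (nat_lit 2) (nat_lit 0x10) (.l (nat_lit 0x108000010))
 (.s (nat_lit 2) (nat_lit 0x16) (.l (nat_lit 0x8841810018))
 (.l (nat_lit 0x860028018))
)) (.l (nat_lit 0x100820010))
))))) (.s (nat_lit 1) (nat_lit 0x26) (.s (nat_lit 1) (nat_lit 0x21) (.s (nat_lit 1) (nat_lit 0x1e) (.s (nat_lit 1) (nat_lit 0x1d) (.s (nat_lit 1) (nat_lit 0x1c) (.l (nat_lit 0x100830210))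
 (.l (nat_lit 0x100810110))
) (.l (nat_lit 0x100810110))
) (.s (nat_lit 1) (nat_lit 0x20) (.s (nat_lit 1) (nat_lit 0x1f) (.l (nat_lit 0x100820210))
 (.l (nat_lit 0x100810110))
) (.l (nat_lit 0x100810110))
)) (.s (nat_lit 1) (nat_lit 0x24) (.s (nat_lit 1) (nat_lit 0x23) (.s (nat_lit 1) (nat_lit 0x22) (.l (nat_lit 0x100810110))
 (.l (nat_lit 0x108030010))
) (.z (nat_lit 5) (.s (nat_lit 2) (nat_lit 0x14) (.l (nat_lit 0x108000010))
 (.s (nat_lit 2) (nat_lit 0x1c) (.s (nat_lit 2) (nat_lit 0x18) (.l (nat_lit 0x8860020018))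
 (.l (nat_lit 0x10060030018))
) (.s (nat_lit 2) (nat_lit 0x20) (.l (nat_lit 0x10060030018))
 (.s (nat_lit 2) (nat_lit 0x22) (.l (nat_lit 0x60030018))
 (.l (nat_lit 0x841000018))
)))) (.l (nat_lit 0x830210))
)) (.s (nat_lit 1) (nat_lit 0x25) (.z (nat_lit 1) (.s (nat_lit 2) (nat_lit 0x15) (.l (nat_lit 0x108000010))
 (.s (nat_lit 2) (nat_lit 0x1d) (.s (nat_lit 2) (nat_lit 0x19) (.l (nat_lit 0x18841410018))
 (.l (nat_lit 0x8861810018))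
) (.s (nat_lit 2) (nat_lit 0x21) (.l (nat_lit 0x60030018))
 (.l (nat_lit 0x8841800018))
))) (.l (nat_lit 0x830210))
) (.l (nat_lit 0x830210))
))) (.s (nat_lit 1) (nat_lit 0x2c) (.s (nat_lit 1) (nat_lit 0x29) (.s (nat_lit 1) (nat_lit 0x28) (.s (nat_lit 1) (nat_lit 0x27) (.l (nat_lit 0x830210))
 (.l (nat_lit 0x100830010))
) (.z (nat_lit 2) (.s (nat_lit 2) (nat_lit 0x17) (.l (nat_lit 0x108000010))
 (.s (nat_lit 2) (nat_lit 0x20) (.s (nat_lit 2) (nat_lit 0x1c) (.l (nat_lit 0x8841810018))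
 (.l (nat_lit 0x841010018))
) (.s (nat_lit 2) (nat_lit 0x25) (.s (nat_lit 2) (nat_lit 0x23) (.l (nat_lit 0x8841000018))
 (.l (nat_lit 0x8022030018))
) (.s (nat_lit 2) (nat_lit 0x27) (.l (nat_lit 0x8022030018))
 (.l (nat_lit 0x841000018))
)))) (.z (nat_lit 6) (.l (nat_lit 0x820210))
 (.l (nat_lit 0x830010))
))) (.s (nat_lit 1) (nat_lit 0x2b) (.s (nat_lit 1) (nat_lit 0x2a) (.l (nat_lit 0x820210))
 (.l (nat_lit 0x820210))
) (.l (nat_lit 0x820210))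
)) (.l (nat_lit 0x820210))
))) (.z (nat_lit 0x17) (.l (nat_lit 0x8208))
 (.z (nat_lit 0x1b) (.s (nat_lit 1) (nat_lit 0x1b) (.l (nat_lit 8))
 (.s (nat_lit 1) (nat_lit 0x26) (.s (nat_lit 1) (nat_lit 0x21) (.l (nat_lit 0x800110))
 (.l (nat_lit 0x100018010))
) (.l (nat_lit 0x820210))
)) (.l (nat_lit 0x208))
)))) (.z (nat_lit 0xe) (.s (nat_lit 1) (nat_lit 0x1b) (.l (nat_lit 8))
 (.s (nat_lit 1) (nat_lit 0x27) (.s (nat_lit 1) (nat_lit 0x21) (.s (nat_lit 1) (nat_lit 0x1e) (.s (nat_lit 1) (nat_lit 0x1d) (.l (nat_lit 0x100810110))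
 (.l (nat_lit 0x100830010))
) (.s (nat_lit 1) (nat_lit 0x20) (.s (nat_lit 1) (nat_lit 0x1f) (.l (nat_lit 0x100810110))
 (.l (nat_lit 0x100830010))
) (.l (nat_lit 0x100800110))
)) (.s (nat_lit 1) (nat_lit 0x24) (.s (nat_lit 1) (nat_lit 0x23) (.l (nat_lit 0x100810110))
 (.z (nat_lit 3) (.s (nat_lit 2) (nat_lit 0x14) (.l (nat_lit 0x108000010))
 (.s (nat_lit 2) (nat_lit 0x1c) (.s (nat_lit 2) (nat_lit 0x18) (.l (nat_lit 0x18841010018))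
 (.l (nat_lit 0x8861810018))
) (.s (nat_lit 2) (nat_lit 0x20) (.l (nat_lit 0x841010018))
 (.l (nat_lit 0x861010218))
))) (.l (nat_lit 0x830210))
)) (.s (nat_lit 1) (nat_lit 0x26) (.l (nat_lit 0x830210))
 (.l (nat_lit 0x830210))
))) (.s (nat_lit 1) (nat_lit 0x2d) (.s (nat_lit 1) (nat_lit 0x2a) (.s (nat_lit 1) (nat_lit 0x29) (.s (nat_lit 1) (nat_lit 0x28) (.l (nat_lit 0x820210))
 (.l (nat_lit 0x830210))
) (.l (nat_lit 0x820210))
) (.l (nat_lit 0x820210))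
) (.l (nat_lit 0x820210))
))) (.z (nat_lit 0x17) (.l (nat_lit 0x8208))
 (.z (nat_lit 0x1b) (.s (nat_lit 1) (nat_lit 0x1b) (.l (nat_lit 8))
 (.s (nat_lit 1) (nat_lit 0x27) (.s (nat_lit 1) (nat_lit 0x21) (.l (nat_lit 0x800110))
 (.s (nat_lit 1) (nat_lit 0x24) (.l (nat_lit 0x108010010))
 (.l (nat_lit 0x8010110))
)) (.l (nat_lit 0x820210))
)) (.l (nat_lit 0x208))
))))

theorem u74 : check tb r74 [47, 0, 0, 0, 0, 0, 0, 0, 0, 0, 0, 0, 0, 0, 0, 0, 0, 0]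
    [50, 50, 50, 50, 50, 50, 50, 50, 50, 50, 50, 50, 50, 50, 50, 50, 50, 50] 0 97 0 = true := by decide +kernel

noncomputable def r75 : Rt :=
(.s (nat_lit 0) (nat_lit 0x34) (.s (nat_lit 0) (nat_lit 0x33) (.z (nat_lit 0x1c) (.s (nat_lit 1) (nat_lit 0x1c) (.l (nat_lit 0x208))
 (.s (nat_lit 1) (nat_lit 0x28) (.s (nat_lit 1) (nat_lit 0x22) (.s (nat_lit 1) (nat_lit 0x1f) (.s (nat_lit 1) (nat_lit 0x1e) (.l (nat_lit 0x100810110))
 (.l (nat_lit 0x100830010))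
) (.l (nat_lit 0x100810110))
) (.s (nat_lit 1) (nat_lit 0x25) (.s (nat_lit 1) (nat_lit 0x24) (.s (nat_lit 1) (nat_lit 0x23) (.z (nat_lit 7) (.s (nat_lit 2) (nat_lit 0x14) (.l (nat_lit 0x108000010))
 (.s (nat_lit 2) (nat_lit 0x1c) (.l (nat_lit 0x10060830018))
 (.s (nat_lit 2) (nat_lit 0x20) (.l (nat_lit 0x841010018))
 (.l (nat_lit 0x841000018))
))) (.z (nat_lit 0x16) (.l (nat_lit 0x108000110))
 (.l (nat_lit 0x108000010))
)) (.z (nat_lit 5) (.s (nat_lit 2) (nat_lit 0x14) (.l (nat_lit 0x108000010))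
 (.s (nat_lit 2) (nat_lit 0x1c) (.s (nat_lit 2) (nat_lit 0x18) (.l (nat_lit 0x18841000018))
 (.l (nat_lit 0x10861010018))
) (.s (nat_lit 2) (nat_lit 0x20) (.l (nat_lit 0x60030018))
 (.l (nat_lit 0x10841000018))
))) (.z (nat_lit 0xd) (.l (nat_lit 0x100830010))
 (.z (nat_lit 0x17) (.l (nat_lit 0x100410210))
 (.l (nat_lit 0x108000010))
)))) (.z (nat_lit 5) (.s (nat_lit 2) (nat_lit 0x15) (.l (nat_lit 0x108000010))
 (.s (nat_lit 2) (nat_lit 0x1d) (.s (nat_lit 2) (nat_lit 0x19) (.l (nat_lit 0x18841000018))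
 (.l (nat_lit 0x10841010018))
) (.s (nat_lit 2) (nat_lit 0x21) (.l (nat_lit 0x860000118))
 (.l (nat_lit 0x841000018))
))) (.z (nat_lit 0xb) (.l (nat_lit 0x100830010))
 (.z (nat_lit 0x19) (.l (nat_lit 0x830210))
 (.l (nat_lit 0x108000010))
)))) (.s (nat_lit 1) (nat_lit 0x27) (.s (nat_lit 1) (nat_lit 0x26) (.z (nat_lit 4) (.s (nat_lit 2) (nat_lit 0x15) (.l (nat_lit 0x108000010))
 (.s (nat_lit 2) (nat_lit 0x1e) (.s (nat_lit 2) (nat_lit 0x1a) (.l (nat_lit 0x10060030018))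
 (.l (nat_lit 0x18861800018))
) (.s (nat_lit 2) (nat_lit 0x22) (.l (nat_lit 0x10841000018))
 (.l (nat_lit 0x10841000218))
))) (.z (nat_lit 0xa) (.l (nat_lit 0x830010))
 (.z (nat_lit 0x19) (.l (nat_lit 0x100410210))
 (.z (nat_lit 0x1b) (.l (nat_lit 0x8010110))
 (.l (nat_lit 0x820010))
)))) (.z (nat_lit 3) (.s (nat_lit 2) (nat_lit 0x16) (.l (nat_lit 0x108000010))
 (.s (nat_lit 2) (nat_lit 0x1f) (.l (nat_lit 0x60810118))
 (.s (nat_lit 2) (nat_lit 0x23) (.l (nat_lit 0x841000018))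
 (.l (nat_lit 0x841000218))
))) (.z (nat_lit 0x19) (.l (nat_lit 0x830010))
 (.l (nat_lit 0x100400010))
))) (.l (nat_lit 0x820210))
))) (.s (nat_lit 1) (nat_lit 0x2e) (.s (nat_lit 1) (nat_lit 0x2b) (.l (nat_lit 0x8820210))
 (.l (nat_lit 0x8820210))
) (.s (nat_lit 1) (nat_lit 0x31) (.l (nat_lit 0x8820210))
 (.l (nat_lit 0x810310))
)))) (.z (nat_lit 0x2c) (.l (nat_lit 0x208))
 (.l (nat_lit 8))
)) (.z (nat_lit 0x1c) (.s (nat_lit 1) (nat_lit 0x1c) (.l (nat_lit 0x208))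
 (.s (nat_lit 1) (nat_lit 0x28) (.s (nat_lit 1) (nat_lit 0x22) (.s (nat_lit 1) (nat_lit 0x1f) (.s (nat_lit 1) (nat_lit 0x1e) (.l (nat_lit 0x100800110))
 (.l (nat_lit 0x100820010))
) (.l (nat_lit 0x100810110))
) (.s (nat_lit 1) (nat_lit 0x25) (.s (nat_lit 1) (nat_lit 0x24) (.s (nat_lit 1) (nat_lit 0x23) (.z (nat_lit 4) (.s (nat_lit 2) (nat_lit 0x14) (.l (nat_lit 0x108000010))
 (.s (nat_lit 2) (nat_lit 0x1c) (.l (nat_lit 0x10061028018))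
 (.s (nat_lit 2) (nat_lit 0x20) (.l (nat_lit 0x10060030018))
 (.s (nat_lit 2) (nat_lit 0x22) (.l (nat_lit 0x10040818018))
 (.l (nat_lit 0x841000018))
)))) (.z (nat_lit 0x10) (.l (nat_lit 0x100830010))
 (.z (nat_lit 0x17) (.l (nat_lit 0x100820010))
 (.l (nat_lit 0x108000010))
))) (.z (nat_lit 5) (.s (nat_lit 2) (nat_lit 0x14) (.l (nat_lit 0x108000010))
 (.s (nat_lit 2) (nat_lit 0x1c) (.l (nat_lit 0x10060800118))
 (.s (nat_lit 2) (nat_lit 0x20) (.l (nat_lit 0x60030018))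
 (.l (nat_lit 0x841000018))
))) (.z (nat_lit 0xe) (.l (nat_lit 0x100830010))
 (.z (nat_lit 0x18) (.l (nat_lit 0x8820210))
 (.l (nat_lit 0x108000010))
)))) (.z (nat_lit 3) (.s (nat_lit 2) (nat_lit 0x15) (.l (nat_lit 0x108000010))
 (.s (nat_lit 2) (nat_lit 0x1d) (.l (nat_lit 0x10060030018))
 (.s (nat_lit 2) (nat_lit 0x21) (.l (nat_lit 0x860000118))
 (.l (nat_lit 0x861010218))
))) (.z (nat_lit 0xe) (.l (nat_lit 0x100830010))
 (.z (nat_lit 0x1b) (.l (nat_lit 0x8010110))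
 (.l (nat_lit 0x108000010))
)))) (.s (nat_lit 1) (nat_lit 0x27) (.s (nat_lit 1) (nat_lit 0x26) (.z (nat_lit 0) (.s (nat_lit 2) (nat_lit 0x15) (.l (nat_lit 0x108000010))
 (.s (nat_lit 2) (nat_lit 0x1e) (.l (nat_lit 0x10060030018))
 (.s (nat_lit 2) (nat_lit 0x22) (.l (nat_lit 0x10841000018))
 (.s (nat_lit 2) (nat_lit 0x24) (.l (nat_lit 0x841000018))
 (.l (nat_lit 0x841000218))
)))) (.z (nat_lit 0x19) (.l (nat_lit 0x100830010))
 (.z (nat_lit 0x1b) (.l (nat_lit 0x8010110))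
 (.l (nat_lit 0x820010))
))) (.z (nat_lit 0) (.s (nat_lit 2) (nat_lit 0x16) (.l (nat_lit 0x108000010))
 (.s (nat_lit 2) (nat_lit 0x1f) (.l (nat_lit 0x60810118))
 (.s (nat_lit 2) (nat_lit 0x23) (.l (nat_lit 0x841000018))
 (.l (nat_lit 0x841000218))
))) (.z (nat_lit 0x18) (.l (nat_lit 0x8820210))
 (.l (nat_lit 0x8010110))
))) (.l (nat_lit 0x100830010))
))) (.s (nat_lit 1) (nat_lit 0x2e) (.s (nat_lit 1) (nat_lit 0x2b) (.l (nat_lit 0x8820210))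
 (.l (nat_lit 0x8820210))
) (.s (nat_lit 1) (nat_lit 0x31) (.s (nat_lit 1) (nat_lit 0x30) (.s (nat_lit 1) (nat_lit 0x2f) (.l (nat_lit 0x8820210))
 (.z (nat_lit 0xb) (.s (nat_lit 2) (nat_lit 0x1a) (.l (nat_lit 0x108000010))
 (.s (nat_lit 2) (nat_lit 0x25) (.s (nat_lit 2) (nat_lit 0x20) (.l (nat_lit 0x8840808018))
 (.l (nat_lit 0x42830118))
) (.s (nat_lit 2) (nat_lit 0x2b) (.l (nat_lit 0x42810318))
 (.l (nat_lit 0x402010318))
))) (.z (nat_lit 0x12) (.l (nat_lit 0x830110))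
 (.l (nat_lit 0x810310))
))) (.z (nat_lit 7) (.s (nat_lit 2) (nat_lit 0x1b) (.l (nat_lit 0x108000010))
 (.s (nat_lit 2) (nat_lit 0x26) (.s (nat_lit 2) (nat_lit 0x21) (.l (nat_lit 0x8022830018))
 (.l (nat_lit 0x42830118))
) (.s (nat_lit 2) (nat_lit 0x2c) (.l (nat_lit 0x402810318))
 (.l (nat_lit 0x402010318))
))) (.z (nat_lit 0x11) (.l (nat_lit 0x830110))
 (.z (nat_lit 0x16) (.l (nat_lit 0x8010310))
 (.l (nat_lit 0x8820010))
)))) (.s (nat_lit 1) (nat_lit 0x33) (.s (nat_lit 1) (nat_lit 0x32) (.z (nat_lit 2) (.s (nat_lit 2) (nat_lit 0x1b) (.l (nat_lit 0x108000010))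
 (.s (nat_lit 2) (nat_lit 0x27) (.s (nat_lit 2) (nat_lit 0x21) (.l (nat_lit 0x10022820018))
 (.l (nat_lit 0x42830118))
) (.s (nat_lit 2) (nat_lit 0x2d) (.l (nat_lit 0x402810318))
 (.l (nat_lit 0x402800118))
))) (.z (nat_lit 0x12) (.l (nat_lit 0x830110))
 (.l (nat_lit 0x810310))
)) (.l (nat_lit 0x830110))
) (.l (nat_lit 0x830110))
))))) (.z (nat_lit 0x2a) (.l (nat_lit 0x208))
 (.l (nat_lit 8))
))) (.z (nat_lit 0x1f) (.s (nat_lit 1) (nat_lit 0x1d) (.l (nat_lit 0x208))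
 (.s (nat_lit 1) (nat_lit 0x29) (.s (nat_lit 1) (nat_lit 0x23) (.s (nat_lit 1) (nat_lit 0x20) (.s (nat_lit 1) (nat_lit 0x1f) (.l (nat_lit 0x108830010))
 (.l (nat_lit 0x100820010))
) (.s (nat_lit 1) (nat_lit 0x22) (.s (nat_lit 1) (nat_lit 0x21) (.l (nat_lit 0x100820010))
 (.l (nat_lit 0x100030010))
) (.l (nat_lit 0x100830010))
)) (.s (nat_lit 1) (nat_lit 0x26) (.s (nat_lit 1) (nat_lit 0x25) (.s (nat_lit 1) (nat_lit 0x24) (.z (nat_lit 9) (.s (nat_lit 2) (nat_lit 0x14) (.l (nat_lit 0x108000010))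
 (.s (nat_lit 2) (nat_lit 0x1c) (.l (nat_lit 0x8861020018))
 (.s (nat_lit 2) (nat_lit 0x20) (.l (nat_lit 0x860000118))
 (.s (nat_lit 2) (nat_lit 0x22) (.l (nat_lit 0x841000018))
 (.l (nat_lit 0x861010218))
)))) (.z (nat_lit 0x17) (.l (nat_lit 0x830210))
 (.z (nat_lit 0x1e) (.l (nat_lit 0x108000010))
 (.l (nat_lit 0x101))
))) (.z (nat_lit 6) (.s (nat_lit 2) (nat_lit 0x15) (.l (nat_lit 0x108000010))
 (.s (nat_lit 2) (nat_lit 0x1d) (.l (nat_lit 0x10060030018))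
 (.s (nat_lit 2) (nat_lit 0x21) (.l (nat_lit 0x860000118))
 (.l (nat_lit 0x861010218))
))) (.z (nat_lit 0x17) (.l (nat_lit 0x8820210))
 (.z (nat_lit 0x1d) (.l (nat_lit 0x100400010))
 (.l (nat_lit 0x101))
)))) (.z (nat_lit 2) (.s (nat_lit 2) (nat_lit 0x15) (.l (nat_lit 0x108000010))
 (.s (nat_lit 2) (nat_lit 0x1e) (.l (nat_lit 0x60810118))
 (.s (nat_lit 2) (nat_lit 0x22) (.l (nat_lit 0x841000018))
 (.s (nat_lit 2) (nat_lit 0x24) (.l (nat_lit 0x841010218))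
 (.l (nat_lit 0x60010118))
)))) (.z (nat_lit 0xd) (.l (nat_lit 0x8820210))
 (.z (nat_lit 0x1e) (.l (nat_lit 0x8010110))
 (.l (nat_lit 0x101))
)))) (.l (nat_lit 0x830210))
)) (.s (nat_lit 1) (nat_lit 0x2f) (.s (nat_lit 1) (nat_lit 0x2c) (.l (nat_lit 0x8820210))
 (.s (nat_lit 1) (nat_lit 0x2e) (.l (nat_lit 0x8820210))
 (.z (nat_lit 0xc) (.s (nat_lit 2) (nat_lit 0x1a) (.l (nat_lit 0x108000010))
 (.s (nat_lit 2) (nat_lit 0x25) (.s (nat_lit 2) (nat_lit 0x20) (.l (nat_lit 0x18400800018))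
 (.s (nat_lit 2) (nat_lit 0x23) (.l (nat_lit 0x8842810218))
 (.l (nat_lit 0x42830118))
)) (.s (nat_lit 2) (nat_lit 0x2a) (.l (nat_lit 0x42830118))
 (.s (nat_lit 2) (nat_lit 0x2d) (.l (nat_lit 0x842000218))
 (.l (nat_lit 0x402010318))
)))) (.z (nat_lit 0x13) (.l (nat_lit 0x830110))
 (.z (nat_lit 0x15) (.l (nat_lit 0x810310))
 (.z (nat_lit 0x16) (.l (nat_lit 0x8020310))
 (.z (nat_lit 0x17) (.s (nat_lit 2) (nat_lit 0x1a) (.l (nat_lit 1))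
 (.s (nat_lit 2) (nat_lit 0x25) (.l (nat_lit 0x22420018))
 (.s (nat_lit 2) (nat_lit 0x2a) (.l (nat_lit 0x42820118))
 (.l (nat_lit 0x842000018))
))) (.l (nat_lit 0x810310))
))))))) (.s (nat_lit 1) (nat_lit 0x32) (.s (nat_lit 1) (nat_lit 0x31) (.s (nat_lit 1) (nat_lit 0x30) (.z (nat_lit 9) (.s (nat_lit 2) (nat_lit 0x1a) (.l (nat_lit 0x108000010))
 (.s (nat_lit 2) (nat_lit 0x25) (.s (nat_lit 2) (nat_lit 0x20) (.l (nat_lit 0x18022820018))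
 (.l (nat_lit 0x402810318))
) (.s (nat_lit 2) (nat_lit 0x2b) (.l (nat_lit 0x402810318))
 (.s (nat_lit 2) (nat_lit 0x2e) (.l (nat_lit 0x842000218))
 (.l (nat_lit 0x402800118))
)))) (.z (nat_lit 0x15) (.l (nat_lit 0x830110))
 (.l (nat_lit 0x810310))
)) (.z (nat_lit 5) (.s (nat_lit 2) (nat_lit 0x1b) (.l (nat_lit 0x108000010))
 (.s (nat_lit 2) (nat_lit 0x26) (.s (nat_lit 2) (nat_lit 0x21) (.l (nat_lit 0x18042810018))
 (.l (nat_lit 0x10402820118))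
) (.s (nat_lit 2) (nat_lit 0x2c) (.l (nat_lit 0x402810318))
 (.l (nat_lit 0x800830118))
))) (.z (nat_lit 0x15) (.l (nat_lit 0x830110))
 (.l (nat_lit 0x810310))
))) (.l (nat_lit 0x830110))
) (.l (nat_lit 0x830110))
)))) (.l (nat_lit 0x8108))
))

theorem u75 : check tb r75 [50, 0, 0, 0, 0, 0, 0, 0, 0, 0, 0, 0, 0, 0, 0, 0, 0, 0]
    [53, 53, 53, 53, 53, 53, 53, 53, 53, 53, 53, 53, 53, 53, 53, 53, 53, 53] 0 97 0 = true := by decide +kernel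

noncomputable def r76 : Rt :=
(.s (nat_lit 0) (nat_lit 0x39) (.s (nat_lit 0) (nat_lit 0x37) (.s (nat_lit 0) (nat_lit 0x36) (.z (nat_lit 0x1f) (.s (nat_lit 1) (nat_lit 0x1d) (.l (nat_lit 8))
 (.s (nat_lit 1) (nat_lit 0x2a) (.s (nat_lit 1) (nat_lit 0x24) (.s (nat_lit 1) (nat_lit 0x21) (.l (nat_lit 0x100810110))
 (.s (nat_lit 1) (nat_lit 0x23) (.l (nat_lit 0x100830010))
 (.z (nat_lit 4) (.s (nat_lit 2) (nat_lit 0x14) (.l (nat_lit 0x108000010))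
 (.s (nat_lit 2) (nat_lit 0x1c) (.l (nat_lit 0x861020018))
 (.s (nat_lit 2) (nat_lit 0x20) (.l (nat_lit 0x860000118))
 (.s (nat_lit 2) (nat_lit 0x22) (.l (nat_lit 0x841000018))
 (.s (nat_lit 2) (nat_lit 0x23) (.l (nat_lit 0x841000018))
 (.l (nat_lit 0x841000218))
))))) (.z (nat_lit 0x16) (.l (nat_lit 0x830210))
 (.z (nat_lit 0x1e) (.l (nat_lit 0x8010110))
 (.l (nat_lit 0x101))
))))) (.s (nat_lit 1) (nat_lit 0x27) (.s (nat_lit 1) (nat_lit 0x26) (.l (nat_lit 0x108010110))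
 (.l (nat_lit 0x8010110))
) (.l (nat_lit 0x8820210))
)) (.s (nat_lit 1) (nat_lit 0x30) (.s (nat_lit 1) (nat_lit 0x2d) (.l (nat_lit 0x8820210))
 (.s (nat_lit 1) (nat_lit 0x2f) (.s (nat_lit 1) (nat_lit 0x2e) (.z (nat_lit 0xe) (.s (nat_lit 2) (nat_lit 0x19) (.l (nat_lit 0x108000010))
 (.s (nat_lit 2) (nat_lit 0x24) (.s (nat_lit 2) (nat_lit 0x1f) (.l (nat_lit 0x841000018))
 (.s (nat_lit 2) (nat_lit 0x22) (.l (nat_lit 0x8840808218))
 (.l (nat_lit 0x18820410218))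
)) (.s (nat_lit 2) (nat_lit 0x29) (.l (nat_lit 0x402810318))
 (.s (nat_lit 2) (nat_lit 0x2c) (.l (nat_lit 0x842000218))
 (.l (nat_lit 0x800830118))
)))) (.z (nat_lit 0x14) (.l (nat_lit 0x830110))
 (.z (nat_lit 0x15) (.s (nat_lit 2) (nat_lit 0x19) (.l (nat_lit 1))
 (.s (nat_lit 2) (nat_lit 0x24) (.l (nat_lit 0x402830118))
 (.s (nat_lit 2) (nat_lit 0x29) (.l (nat_lit 0x42820118))
 (.l (nat_lit 0x402800118))
))) (.z (nat_lit 0x17) (.l (nat_lit 0x8020310))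
 (.l (nat_lit 0x810310))
)))) (.z (nat_lit 8) (.s (nat_lit 2) (nat_lit 0x1a) (.l (nat_lit 0x108000010))
 (.s (nat_lit 2) (nat_lit 0x25) (.s (nat_lit 2) (nat_lit 0x20) (.l (nat_lit 0x18022820018))
 (.s (nat_lit 2) (nat_lit 0x23) (.l (nat_lit 0x18800410218))
 (.l (nat_lit 0x10402820118))
)) (.s (nat_lit 2) (nat_lit 0x2a) (.l (nat_lit 0x402810318))
 (.s (nat_lit 2) (nat_lit 0x2d) (.l (nat_lit 0x842000218))
 (.l (nat_lit 0x60830118))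
)))) (.z (nat_lit 0xc) (.l (nat_lit 0x8010310))
 (.z (nat_lit 0x15) (.l (nat_lit 0x830110))
 (.z (nat_lit 0x18) (.l (nat_lit 0x8020310))
 (.l (nat_lit 0x810310))
))))) (.z (nat_lit 7) (.s (nat_lit 2) (nat_lit 0x1a) (.l (nat_lit 0x108000010))
 (.s (nat_lit 2) (nat_lit 0x25) (.s (nat_lit 2) (nat_lit 0x20) (.l (nat_lit 0x18042810018))
 (.l (nat_lit 0x402830118))
) (.s (nat_lit 2) (nat_lit 0x2b) (.l (nat_lit 0x402810318))
 (.l (nat_lit 0x800830118))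
))) (.z (nat_lit 0xc) (.l (nat_lit 0x8010310))
 (.z (nat_lit 0x15) (.l (nat_lit 0x8030110))
 (.l (nat_lit 0x810310))
))))) (.s (nat_lit 1) (nat_lit 0x33) (.s (nat_lit 1) (nat_lit 0x32) (.s (nat_lit 1) (nat_lit 0x31) (.z (nat_lit 4) (.s (nat_lit 2) (nat_lit 0x1b) (.l (nat_lit 0x108000010))
 (.s (nat_lit 2) (nat_lit 0x26) (.s (nat_lit 2) (nat_lit 0x21) (.l (nat_lit 0x8002000118))
 (.l (nat_lit 0x10402820118))
) (.s (nat_lit 2) (nat_lit 0x2c) (.l (nat_lit 0x402810318))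
 (.l (nat_lit 0x60830118))
))) (.z (nat_lit 0x15) (.l (nat_lit 0x830110))
 (.l (nat_lit 0x810310))
)) (.l (nat_lit 0x8020310))
) (.l (nat_lit 0x8030110))
) (.l (nat_lit 0x800110))
)))) (.l (nat_lit 0x8108))
) (.z (nat_lit 0x1e) (.s (nat_lit 1) (nat_lit 0x1e) (.l (nat_lit 8))
 (.s (nat_lit 1) (nat_lit 0x2b) (.s (nat_lit 1) (nat_lit 0x25) (.s (nat_lit 1) (nat_lit 0x22) (.s (nat_lit 1) (nat_lit 0x20) (.l (nat_lit 0x100820010))
 (.l (nat_lit 0x100828010))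
) (.s (nat_lit 1) (nat_lit 0x24) (.s (nat_lit 1) (nat_lit 0x23) (.l (nat_lit 0x100820010))
 (.l (nat_lit 0x8820210))
) (.l (nat_lit 0x8010110))
)) (.l (nat_lit 0x8820210))
) (.s (nat_lit 1) (nat_lit 0x31) (.s (nat_lit 1) (nat_lit 0x2e) (.s (nat_lit 1) (nat_lit 0x2d) (.l (nat_lit 0x8820210))
 (.z (nat_lit 7) (.s (nat_lit 2) (nat_lit 0x19) (.l (nat_lit 0x108000010))
 (.s (nat_lit 2) (nat_lit 0x24) (.s (nat_lit 2) (nat_lit 0x1f) (.l (nat_lit 0x18820400018))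
 (.l (nat_lit 0x8862810218))
) (.s (nat_lit 2) (nat_lit 0x29) (.l (nat_lit 0x402810318))
 (.s (nat_lit 2) (nat_lit 0x2c) (.l (nat_lit 0x842000218))
 (.l (nat_lit 0x60830118))
)))) (.z (nat_lit 0x10) (.l (nat_lit 0x8020310))
 (.z (nat_lit 0x14) (.l (nat_lit 0x8030110))
 (.z (nat_lit 0x1a) (.l (nat_lit 0x8020310))
 (.l (nat_lit 0x810310))
))))) (.s (nat_lit 1) (nat_lit 0x30) (.s (nat_lit 1) (nat_lit 0x2f) (.z (nat_lit 3) (.s (nat_lit 2) (nat_lit 0x1a) (.l (nat_lit 0x108000010))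
 (.s (nat_lit 2) (nat_lit 0x25) (.s (nat_lit 2) (nat_lit 0x20) (.l (nat_lit 0x8402800118))
 (.l (nat_lit 0x800820318))
) (.s (nat_lit 2) (nat_lit 0x2a) (.l (nat_lit 0x402810318))
 (.l (nat_lit 0x60830118))
))) (.z (nat_lit 0x11) (.l (nat_lit 0x8020310))
 (.z (nat_lit 0x15) (.l (nat_lit 0x8030110))
 (.l (nat_lit 0x810310))
))) (.z (nat_lit 0) (.s (nat_lit 2) (nat_lit 0x1a) (.l (nat_lit 0x108000010))
 (.s (nat_lit 2) (nat_lit 0x25) (.s (nat_lit 2) (nat_lit 0x20) (.l (nat_lit 0x8402800118))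
 (.l (nat_lit 0x402810318))
) (.s (nat_lit 2) (nat_lit 0x2b) (.l (nat_lit 0x842010218))
 (.l (nat_lit 0x60830118))
))) (.z (nat_lit 0x12) (.l (nat_lit 0x8020310))
 (.z (nat_lit 0x19) (.l (nat_lit 0x8820010))
 (.l (nat_lit 0x810310))
)))) (.l (nat_lit 0x820310))
)) (.s (nat_lit 1) (nat_lit 0x34) (.l (nat_lit 0x820310))
 (.l (nat_lit 0x800110))
)))) (.z (nat_lit 0x20) (.l (nat_lit 0x8108))
 (.z (nat_lit 0x28) (.l (nat_lit 0x208))
 (.l (nat_lit 8))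
)))) (.s (nat_lit 0) (nat_lit 0x38) (.z (nat_lit 0x1d) (.s (nat_lit 1) (nat_lit 0x1e) (.l (nat_lit 0x8008))
 (.s (nat_lit 1) (nat_lit 0x2b) (.s (nat_lit 1) (nat_lit 0x25) (.s (nat_lit 1) (nat_lit 0x22) (.s (nat_lit 1) (nat_lit 0x20) (.l (nat_lit 0x100820010))
 (.l (nat_lit 0x100820010))
) (.s (nat_lit 1) (nat_lit 0x24) (.s (nat_lit 1) (nat_lit 0x23) (.l (nat_lit 0x100820010))
 (.l (nat_lit 0x8010110))
) (.l (nat_lit 0x8010110))
)) (.l (nat_lit 0x8820210))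
) (.s (nat_lit 1) (nat_lit 0x32) (.s (nat_lit 1) (nat_lit 0x2f) (.s (nat_lit 1) (nat_lit 0x2d) (.l (nat_lit 0x100810210))
 (.s (nat_lit 1) (nat_lit 0x2e) (.l (nat_lit 0x100810210))
 (.l (nat_lit 0x820310))
)) (.l (nat_lit 0x8020310))
) (.l (nat_lit 0x800110))
))) (.z (nat_lit 0x29) (.l (nat_lit 0x208))
 (.l (nat_lit 8))
)) (.z (nat_lit 0x13) (.s (nat_lit 1) (nat_lit 0x1f) (.l (nat_lit 8))
 (.s (nat_lit 1) (nat_lit 0x2c) (.s (nat_lit 1) (nat_lit 0x26) (.s (nat_lit 1) (nat_lit 0x23) (.s (nat_lit 1) (nat_lit 0x21) (.l (nat_lit 0x100820010))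
 (.l (nat_lit 0x100820010))
) (.s (nat_lit 1) (nat_lit 0x25) (.l (nat_lit 0x830210))
 (.l (nat_lit 0x8820210))
)) (.s (nat_lit 1) (nat_lit 0x29) (.l (nat_lit 0x8820210))
 (.s (nat_lit 1) (nat_lit 0x2b) (.l (nat_lit 0x8820210))
 (.l (nat_lit 0x100800210))
))) (.s (nat_lit 1) (nat_lit 0x33) (.s (nat_lit 1) (nat_lit 0x30) (.l (nat_lit 0x8020310))
 (.l (nat_lit 0x820310))
) (.l (nat_lit 0x8820010))
))) (.z (nat_lit 0x14) (.l (nat_lit 0x8208))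
 (.z (nat_lit 0x1d) (.s (nat_lit 1) (nat_lit 0x1f) (.l (nat_lit 8))
 (.s (nat_lit 1) (nat_lit 0x2c) (.s (nat_lit 1) (nat_lit 0x26) (.s (nat_lit 1) (nat_lit 0x23) (.l (nat_lit 0x108000010))
 (.l (nat_lit 0x8820210))
) (.l (nat_lit 0x8820210))
) (.s (nat_lit 1) (nat_lit 0x33) (.z (nat_lit 0x15) (.l (nat_lit 0x8030110))
 (.l (nat_lit 0x8020310))
) (.l (nat_lit 0x8820010))
))) (.z (nat_lit 0x2a) (.l (nat_lit 0x208))
 (.l (nat_lit 8))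
)))))) (.s (nat_lit 0) (nat_lit 0x3b) (.s (nat_lit 0) (nat_lit 0x3a) (.z (nat_lit 9) (.s (nat_lit 1) (nat_lit 0x1f) (.l (nat_lit 8))
 (.s (nat_lit 1) (nat_lit 0x2d) (.s (nat_lit 1) (nat_lit 0x26) (.s (nat_lit 1) (nat_lit 0x23) (.l (nat_lit 0x108030010))
 (.l (nat_lit 0x820210))
) (.s (nat_lit 1) (nat_lit 0x2a) (.l (nat_lit 0x8820210))
 (.l (nat_lit 0x100800210))
)) (.s (nat_lit 1) (nat_lit 0x34) (.s (nat_lit 1) (nat_lit 0x31) (.l (nat_lit 0x820310))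
 (.l (nat_lit 0x800110))
) (.l (nat_lit 0x8820010))
))) (.z (nat_lit 0x16) (.l (nat_lit 0x8208))
 (.z (nat_lit 0x1c) (.s (nat_lit 1) (nat_lit 0x1f) (.l (nat_lit 8))
 (.s (nat_lit 1) (nat_lit 0x2d) (.s (nat_lit 1) (nat_lit 0x26) (.l (nat_lit 0x820210))
 (.l (nat_lit 0x8820210))
) (.s (nat_lit 1) (nat_lit 0x34) (.s (nat_lit 1) (nat_lit 0x31) (.l (nat_lit 0x810310))
 (.l (nat_lit 0x8820010))
) (.l (nat_lit 0x8820010))
))) (.z (nat_lit 0x2b) (.l (nat_lit 0x208))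
 (.l (nat_lit 8))
)))) (.z (nat_lit 1) (.s (nat_lit 1) (nat_lit 0x20) (.l (nat_lit 8))
 (.s (nat_lit 1) (nat_lit 0x2e) (.s (nat_lit 1) (nat_lit 0x27) (.s (nat_lit 1) (nat_lit 0x24) (.l (nat_lit 0x108010010))
 (.l (nat_lit 0x820210))
) (.s (nat_lit 1) (nat_lit 0x2b) (.s (nat_lit 1) (nat_lit 0x29) (.l (nat_lit 0x100400210))
 (.s (nat_lit 1) (nat_lit 0x2a) (.l (nat_lit 0x100800210))
 (.l (nat_lit 0x100800210))
)) (.l (nat_lit 0x8820210))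
)) (.s (nat_lit 1) (nat_lit 0x35) (.s (nat_lit 1) (nat_lit 0x32) (.s (nat_lit 1) (nat_lit 0x30) (.l (nat_lit 0x8820210))
 (.l (nat_lit 0x820010))
) (.l (nat_lit 0x8820010))
) (.l (nat_lit 0x8820010))
))) (.z (nat_lit 0x18) (.l (nat_lit 0x8208))
 (.z (nat_lit 0x19) (.s (nat_lit 1) (nat_lit 0x20) (.l (nat_lit 8))
 (.s (nat_lit 1) (nat_lit 0x2e) (.l (nat_lit 0x8820210))
 (.s (nat_lit 1) (nat_lit 0x35) (.l (nat_lit 0x810210))
 (.l (nat_lit 0x800010))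
))) (.l (nat_lit 0x8208))
)))) (.z (nat_lit 5) (.s (nat_lit 1) (nat_lit 0x20) (.l (nat_lit 8))
 (.s (nat_lit 1) (nat_lit 0x2e) (.s (nat_lit 1) (nat_lit 0x27) (.s (nat_lit 1) (nat_lit 0x24) (.l (nat_lit 0x108030010))
 (.l (nat_lit 0x820210))
) (.s (nat_lit 1) (nat_lit 0x2b) (.s (nat_lit 1) (nat_lit 0x29) (.l (nat_lit 0x100400210))
 (.s (nat_lit 1) (nat_lit 0x2a) (.s (nat_lit 2) (nat_lit 0x17) (.l (nat_lit 0x108000010))
 (.s (nat_lit 2) (nat_lit 0x21) (.l (nat_lit 0x8841800218))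
 (.s (nat_lit 2) (nat_lit 0x26) (.l (nat_lit 0x841000218))
 (.s (nat_lit 2) (nat_lit 0x28) (.l (nat_lit 0x841000218))
 (.l (nat_lit 0x800820118))
)))) (.z (nat_lit 0) (.s (nat_lit 2) (nat_lit 0x18) (.l (nat_lit 0x108000010))
 (.s (nat_lit 2) (nat_lit 0x22) (.l (nat_lit 0x8022030018))
 (.s (nat_lit 2) (nat_lit 0x27) (.l (nat_lit 0x841000218))
 (.l (nat_lit 0x800820118))
))) (.l (nat_lit 0x100800210))
))) (.l (nat_lit 0x100800210))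
)) (.s (nat_lit 1) (nat_lit 0x35) (.s (nat_lit 1) (nat_lit 0x32) (.s (nat_lit 1) (nat_lit 0x30) (.l (nat_lit 0x820210))
 (.l (nat_lit 0x820010))
) (.l (nat_lit 0x820010))
) (.l (nat_lit 0x820010))
))) (.z (nat_lit 0x24) (.l (nat_lit 0x8208))
 (.l (nat_lit 0x8108))
))))

theorem u76 : check tb r76 [53, 0, 0, 0, 0, 0, 0, 0, 0, 0, 0, 0, 0, 0, 0, 0, 0, 0]
    [60, 60, 60, 60, 60, 60, 60, 60, 60, 60, 60, 60, 60, 60, 60, 60, 60, 60] 0 97 0 = true := by decide +kernel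

noncomputable def r77 : Rt :=
(.s (nat_lit 0) (nat_lit 0x3f) (.s (nat_lit 0) (nat_lit 0x3e) (.s (nat_lit 0) (nat_lit 0x3d) (.z (nat_lit 4) (.s (nat_lit 1) (nat_lit 0x21) (.l (nat_lit 8))
 (.s (nat_lit 1) (nat_lit 0x2f) (.s (nat_lit 1) (nat_lit 0x28) (.l (nat_lit 0x820210))
 (.s (nat_lit 1) (nat_lit 0x2c) (.s (nat_lit 1) (nat_lit 0x2a) (.s (nat_lit 1) (nat_lit 0x29) (.l (nat_lit 0x100800210))
 (.z (nat_lit 3) (.s (nat_lit 2) (nat_lit 0x17) (.l (nat_lit 0x108000010))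
 (.s (nat_lit 2) (nat_lit 0x21) (.l (nat_lit 0x8022030018))
 (.s (nat_lit 2) (nat_lit 0x26) (.l (nat_lit 0x841000218))
 (.l (nat_lit 0x800820118))
))) (.l (nat_lit 0x100800210))
)) (.l (nat_lit 0x100800210))
) (.l (nat_lit 0x100800210))
)) (.s (nat_lit 1) (nat_lit 0x36) (.l (nat_lit 0x820010))
 (.s (nat_lit 1) (nat_lit 0x3a) (.l (nat_lit 0x800010))
 (.l (nat_lit 0x800010))
)))) (.z (nat_lit 0x23) (.l (nat_lit 0x8208))
 (.z (nat_lit 0x24) (.s (nat_lit 1) (nat_lit 0x21) (.l (nat_lit 8))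
 (.s (nat_lit 1) (nat_lit 0x2f) (.l (nat_lit 0x8800110))
 (.l (nat_lit 0x800010))
)) (.l (nat_lit 8))
))) (.z (nat_lit 0xe) (.s (nat_lit 1) (nat_lit 0x21) (.l (nat_lit 8))
 (.s (nat_lit 1) (nat_lit 0x30) (.s (nat_lit 1) (nat_lit 0x29) (.s (nat_lit 1) (nat_lit 0x25) (.l (nat_lit 0x100800010))
 (.s (nat_lit 1) (nat_lit 0x27) (.l (nat_lit 0x100400210))
 (.s (nat_lit 1) (nat_lit 0x28) (.l (nat_lit 0x100800210))
 (.z (nat_lit 9) (.s (nat_lit 2) (nat_lit 0x17) (.l (nat_lit 0x108000010))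
 (.s (nat_lit 2) (nat_lit 0x20) (.l (nat_lit 0x60030018))
 (.s (nat_lit 2) (nat_lit 0x25) (.l (nat_lit 0x10402810018))
 (.s (nat_lit 2) (nat_lit 0x27) (.l (nat_lit 0x8060810018))
 (.s (nat_lit 2) (nat_lit 0x28) (.l (nat_lit 0x402830018))
 (.l (nat_lit 0x800020118))
))))) (.l (nat_lit 0x108000210))
)))) (.s (nat_lit 1) (nat_lit 0x2d) (.s (nat_lit 1) (nat_lit 0x2b) (.s (nat_lit 1) (nat_lit 0x2a) (.z (nat_lit 5) (.s (nat_lit 2) (nat_lit 0x17) (.l (nat_lit 0x108000010))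
 (.s (nat_lit 2) (nat_lit 0x21) (.l (nat_lit 0x60030018))
 (.s (nat_lit 2) (nat_lit 0x26) (.l (nat_lit 0x841000218))
 (.s (nat_lit 2) (nat_lit 0x28) (.l (nat_lit 0x842000218))
 (.l (nat_lit 0x800020118))
)))) (.l (nat_lit 0x100800210))
) (.z (nat_lit 0) (.s (nat_lit 2) (nat_lit 0x18) (.l (nat_lit 0x108000010))
 (.s (nat_lit 2) (nat_lit 0x22) (.l (nat_lit 0x8402030018))
 (.s (nat_lit 2) (nat_lit 0x27) (.l (nat_lit 0x842000218))
 (.l (nat_lit 0x800820118))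
))) (.l (nat_lit 0x100800210))
)) (.l (nat_lit 0x100800210))
) (.l (nat_lit 0x830010))
)) (.s (nat_lit 1) (nat_lit 0x37) (.l (nat_lit 0x820010))
 (.s (nat_lit 1) (nat_lit 0x3b) (.l (nat_lit 0x8010210))
 (.l (nat_lit 0x800010))
)))) (.z (nat_lit 0x16) (.l (nat_lit 0x8008))
 (.z (nat_lit 0x1d) (.l (nat_lit 0x208))
 (.z (nat_lit 0x20) (.s (nat_lit 1) (nat_lit 0x21) (.l (nat_lit 8))
 (.s (nat_lit 1) (nat_lit 0x30) (.s (nat_lit 1) (nat_lit 0x29) (.l (nat_lit 0x108000210))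
 (.l (nat_lit 0x8800110))
) (.l (nat_lit 0x8010210))
)) (.z (nat_lit 0x22) (.l (nat_lit 0x8208))
 (.z (nat_lit 0x24) (.s (nat_lit 1) (nat_lit 0x21) (.l (nat_lit 8))
 (.s (nat_lit 1) (nat_lit 0x30) (.l (nat_lit 0x8800110))
 (.l (nat_lit 0x800010))
)) (.l (nat_lit 8))
))))))) (.z (nat_lit 0xe) (.s (nat_lit 1) (nat_lit 0x22) (.l (nat_lit 8))
 (.s (nat_lit 1) (nat_lit 0x31) (.s (nat_lit 1) (nat_lit 0x2a) (.s (nat_lit 1) (nat_lit 0x26) (.l (nat_lit 0x100810010))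
 (.s (nat_lit 1) (nat_lit 0x28) (.l (nat_lit 0x830010))
 (.s (nat_lit 1) (nat_lit 0x29) (.z (nat_lit 7) (.s (nat_lit 2) (nat_lit 0x17) (.l (nat_lit 0x108000010))
 (.s (nat_lit 2) (nat_lit 0x20) (.l (nat_lit 0x60030018))
 (.s (nat_lit 2) (nat_lit 0x25) (.l (nat_lit 0x402810018))
 (.s (nat_lit 2) (nat_lit 0x27) (.l (nat_lit 0x60810018))
 (.s (nat_lit 2) (nat_lit 0x28) (.l (nat_lit 0x402830018))
 (.l (nat_lit 0x800020118))
))))) (.l (nat_lit 0x100800210))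
) (.z (nat_lit 2) (.s (nat_lit 2) (nat_lit 0x17) (.l (nat_lit 0x108000010))
 (.s (nat_lit 2) (nat_lit 0x21) (.l (nat_lit 0x60030018))
 (.s (nat_lit 2) (nat_lit 0x26) (.l (nat_lit 0x42810018))
 (.s (nat_lit 2) (nat_lit 0x28) (.l (nat_lit 0x402830018))
 (.l (nat_lit 0x800020118))
)))) (.l (nat_lit 0x100800210))
)))) (.s (nat_lit 1) (nat_lit 0x2e) (.s (nat_lit 1) (nat_lit 0x2c) (.l (nat_lit 0x100800210))
 (.s (nat_lit 1) (nat_lit 0x2d) (.z (nat_lit 8) (.s (nat_lit 2) (nat_lit 0x19) (.l (nat_lit 0x8000010))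
 (.s (nat_lit 2) (nat_lit 0x23) (.l (nat_lit 0x841000218))
 (.s (nat_lit 2) (nat_lit 0x28) (.l (nat_lit 0x842000218))
 (.l (nat_lit 0x802800118))
))) (.l (nat_lit 0x820010))
) (.z (nat_lit 4) (.s (nat_lit 2) (nat_lit 0x19) (.l (nat_lit 0x800010))
 (.s (nat_lit 2) (nat_lit 0x24) (.s (nat_lit 2) (nat_lit 0x1f) (.l (nat_lit 0x8460010018))
 (.l (nat_lit 0x60810018))
) (.l (nat_lit 0x800820118))
)) (.l (nat_lit 0x820010))
))) (.l (nat_lit 0x820010))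
)) (.s (nat_lit 1) (nat_lit 0x38) (.l (nat_lit 0x820010))
 (.s (nat_lit 1) (nat_lit 0x3c) (.l (nat_lit 0x8010210))
 (.l (nat_lit 0x800010))
)))) (.z (nat_lit 0x16) (.l (nat_lit 0x8008))
 (.z (nat_lit 0x1c) (.l (nat_lit 0x208))
 (.z (nat_lit 0x21) (.s (nat_lit 1) (nat_lit 0x22) (.l (nat_lit 8))
 (.s (nat_lit 1) (nat_lit 0x31) (.s (nat_lit 1) (nat_lit 0x2a) (.l (nat_lit 0x108000210))
 (.l (nat_lit 0x8800110))
) (.l (nat_lit 0x8000010))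
)) (.z (nat_lit 0x22) (.l (nat_lit 0x8208))
 (.z (nat_lit 0x24) (.s (nat_lit 1) (nat_lit 0x22) (.l (nat_lit 8))
 (.s (nat_lit 1) (nat_lit 0x31) (.l (nat_lit 0x8800110))
 (.l (nat_lit 0x800010))
)) (.l (nat_lit 8))
))))))) (.s (nat_lit 0) (nat_lit 0x41) (.s (nat_lit 0) (nat_lit 0x40) (.z (nat_lit 6) (.s (nat_lit 1) (nat_lit 0x22) (.l (nat_lit 8))
 (.s (nat_lit 1) (nat_lit 0x31) (.s (nat_lit 1) (nat_lit 0x2a) (.s (nat_lit 1) (nat_lit 0x26) (.l (nat_lit 0x100810010))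
 (.s (nat_lit 1) (nat_lit 0x28) (.l (nat_lit 0x810010))
 (.s (nat_lit 1) (nat_lit 0x29) (.z (nat_lit 5) (.s (nat_lit 2) (nat_lit 0x17) (.l (nat_lit 0x8000010))
 (.s (nat_lit 2) (nat_lit 0x20) (.l (nat_lit 0x8042810018))
 (.s (nat_lit 2) (nat_lit 0x25) (.l (nat_lit 0x42810018))
 (.s (nat_lit 2) (nat_lit 0x27) (.l (nat_lit 0x60810018))
 (.s (nat_lit 2) (nat_lit 0x28) (.l (nat_lit 0x402830018))
 (.l (nat_lit 0x800020118))
))))) (.l (nat_lit 0x830010))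
) (.z (nat_lit 0) (.s (nat_lit 2) (nat_lit 0x17) (.l (nat_lit 0x8000010))
 (.s (nat_lit 2) (nat_lit 0x21) (.l (nat_lit 0x60030018))
 (.s (nat_lit 2) (nat_lit 0x26) (.l (nat_lit 0x42810018))
 (.l (nat_lit 0x800820118))
))) (.l (nat_lit 0x830010))
)))) (.s (nat_lit 1) (nat_lit 0x2e) (.s (nat_lit 1) (nat_lit 0x2c) (.s (nat_lit 1) (nat_lit 0x2b) (.l (nat_lit 0x830010))
 (.s (nat_lit 2) (nat_lit 0x18) (.l (nat_lit 0x8000010))
 (.s (nat_lit 2) (nat_lit 0x22) (.l (nat_lit 0x8800010018))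
 (.s (nat_lit 2) (nat_lit 0x27) (.l (nat_lit 0x842000218))
 (.l (nat_lit 0x802800118))
)))) (.s (nat_lit 1) (nat_lit 0x2d) (.z (nat_lit 3) (.s (nat_lit 2) (nat_lit 0x19) (.l (nat_lit 0x8000010))
 (.s (nat_lit 2) (nat_lit 0x23) (.l (nat_lit 0x8402010018))
 (.l (nat_lit 0x800820118))
)) (.l (nat_lit 0x8010010))
) (.l (nat_lit 0x8010010))
)) (.l (nat_lit 0x820010))
)) (.s (nat_lit 1) (nat_lit 0x39) (.s (nat_lit 1) (nat_lit 0x35) (.l (nat_lit 0x820010))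
 (.l (nat_lit 0x8010210))
) (.l (nat_lit 0x800010))
))) (.z (nat_lit 0x1b) (.l (nat_lit 0x8008))
 (.z (nat_lit 0x1f) (.l (nat_lit 8))
 (.z (nat_lit 0x21) (.l (nat_lit 0x8008))
 (.z (nat_lit 0x23) (.s (nat_lit 1) (nat_lit 0x22) (.l (nat_lit 8))
 (.s (nat_lit 1) (nat_lit 0x31) (.l (nat_lit 0x8800110))
 (.l (nat_lit 0x800010))
)) (.z (nat_lit 0x33) (.l (nat_lit 8))
 (.l (nat_lit 0x208))
)))))) (.z (nat_lit 8) (.s (nat_lit 1) (nat_lit 0x23) (.l (nat_lit 0x208))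
 (.s (nat_lit 1) (nat_lit 0x32) (.s (nat_lit 1) (nat_lit 0x2b) (.s (nat_lit 1) (nat_lit 0x27) (.l (nat_lit 0x810010))
 (.s (nat_lit 1) (nat_lit 0x29) (.s (nat_lit 1) (nat_lit 0x28) (.l (nat_lit 0x8010010))
 (.l (nat_lit 0x830010))
) (.l (nat_lit 0x830010))
)) (.s (nat_lit 1) (nat_lit 0x2f) (.s (nat_lit 1) (nat_lit 0x2d) (.l (nat_lit 0x8010010))
 (.l (nat_lit 0x8010010))
) (.l (nat_lit 0x810010))
)) (.s (nat_lit 1) (nat_lit 0x3a) (.s (nat_lit 1) (nat_lit 0x36) (.l (nat_lit 0x820010))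
 (.l (nat_lit 0x8010210))
) (.l (nat_lit 0x800010))
))) (.z (nat_lit 0x1a) (.l (nat_lit 0x8008))
 (.z (nat_lit 0x1b) (.l (nat_lit 0x208))
 (.z (nat_lit 0x1c) (.s (nat_lit 1) (nat_lit 0x23) (.l (nat_lit 0x208))
 (.s (nat_lit 1) (nat_lit 0x32) (.l (nat_lit 0x8800110))
 (.l (nat_lit 0x800010))
)) (.z (nat_lit 0x32) (.l (nat_lit 0x8008))
 (.l (nat_lit 0x208))
)))))) (.z (nat_lit 0x21) (.s (nat_lit 1) (nat_lit 0x23) (.l (nat_lit 0x8008))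
 (.s (nat_lit 1) (nat_lit 0x33) (.s (nat_lit 1) (nat_lit 0x2b) (.s (nat_lit 1) (nat_lit 0x27) (.l (nat_lit 0x810010))
 (.l (nat_lit 0x830010))
) (.s (nat_lit 1) (nat_lit 0x2f) (.l (nat_lit 0x810010))
 (.l (nat_lit 0x8010010))
)) (.s (nat_lit 1) (nat_lit 0x3b) (.s (nat_lit 1) (nat_lit 0x37) (.s (nat_lit 1) (nat_lit 0x35) (.l (nat_lit 0x800010))
 (.l (nat_lit 0x8010210))
) (.l (nat_lit 0x8010210))
) (.s (nat_lit 1) (nat_lit 0x3f) (.l (nat_lit 0x800010))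
 (.s (nat_lit 1) (nat_lit 0x41) (.s (nat_lit 1) (nat_lit 0x40) (.l (nat_lit 0x800010))
 (.z (nat_lit 0xa) (.d (.l (nat_lit 0x103))
 (.s (nat_lit 2) (nat_lit 0x23) (.l (nat_lit 0x101))
 (.s (nat_lit 2) (nat_lit 0x32) (.l (nat_lit 0x2004))
 .p))) (.l (nat_lit 0x101))
)) (.z (nat_lit 8) (.d (.l (nat_lit 0x103))
 (.s (nat_lit 2) (nat_lit 0x23) (.l (nat_lit 0x101))
 (.s (nat_lit 2) (nat_lit 0x33) (.l (nat_lit 0x2004))
 .p))) (.l (nat_lit 0x101))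
)))))) (.z (nat_lit 0x24) (.l (nat_lit 0x208))
 (.z (nat_lit 0x28) (.s (nat_lit 1) (nat_lit 0x23) (.l (nat_lit 8))
 (.s (nat_lit 1) (nat_lit 0x33) (.l (nat_lit 0x800010))
 (.s (nat_lit 1) (nat_lit 0x3b) (.l (nat_lit 0x800010))
 (.s (nat_lit 1) (nat_lit 0x3f) (.l (nat_lit 0x800010))
 (.s (nat_lit 1) (nat_lit 0x41) (.s (nat_lit 1) (nat_lit 0x40) (.l (nat_lit 0x800010))
 (.z (nat_lit 0x25) (.l (nat_lit 0x101))
 (.d (.l (nat_lit 0x103))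
 (.s (nat_lit 2) (nat_lit 0x23) (.l (nat_lit 1))
 (.s (nat_lit 2) (nat_lit 0x32) (.l (nat_lit 0x2004))
 .p))))) (.z (nat_lit 0x26) (.d (.l (nat_lit 0x103))
 (.s (nat_lit 2) (nat_lit 0x23) (.l (nat_lit 1))
 (.s (nat_lit 2) (nat_lit 0x33) (.l (nat_lit 0x2004))
 .p))) (.l (nat_lit 0x101))
)))))) (.l (nat_lit 0x208))
)))))

theorem u77 : check tb r77 [60, 0, 0, 0, 0, 0, 0, 0, 0, 0, 0, 0, 0, 0, 0, 0, 0, 0]
    [66, 66, 66, 66, 66, 66, 66, 66, 66, 66, 66, 66, 66, 66, 66, 66, 66, 66] 0 97 0 = true := by decide +kernel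

noncomputable def r78 : Rt :=
(.s (nat_lit 0) (nat_lit 0x44) (.s (nat_lit 0) (nat_lit 0x43) (.z (nat_lit 0x1f) (.s (nat_lit 1) (nat_lit 0x24) (.l (nat_lit 0x8108))
 (.s (nat_lit 1) (nat_lit 0x34) (.s (nat_lit 1) (nat_lit 0x2c) (.l (nat_lit 0x830010))
 (.s (nat_lit 1) (nat_lit 0x30) (.l (nat_lit 0x8010010))
 (.l (nat_lit 0x800010))
)) (.s (nat_lit 1) (nat_lit 0x3c) (.s (nat_lit 1) (nat_lit 0x38) (.s (nat_lit 1) (nat_lit 0x36) (.s (nat_lit 1) (nat_lit 0x35) (.l (nat_lit 0x800010))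
 (.z (nat_lit 5) (.s (nat_lit 2) (nat_lit 0x1d) (.l (nat_lit 0x101))
 (.s (nat_lit 2) (nat_lit 0x2a) (.l (nat_lit 0x42800018))
 (.l (nat_lit 0x860000218))
)) (.l (nat_lit 0x101))
)) (.l (nat_lit 0x8010210))
) (.l (nat_lit 0x800010))
) (.s (nat_lit 1) (nat_lit 0x40) (.s (nat_lit 1) (nat_lit 0x3e) (.l (nat_lit 0x800010))
 (.s (nat_lit 1) (nat_lit 0x3f) (.l (nat_lit 0x8010210))
 (.z (nat_lit 6) (.d (.l (nat_lit 0x103))
 (.s (nat_lit 2) (nat_lit 0x22) (.l (nat_lit 0x101))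
 (.s (nat_lit 2) (nat_lit 0x31) (.l (nat_lit 0x2004))
 .p))) (.l (nat_lit 0x101))
))) (.s (nat_lit 1) (nat_lit 0x42) (.s (nat_lit 1) (nat_lit 0x41) (.z (nat_lit 4) (.d (.l (nat_lit 0x103))
 (.s (nat_lit 2) (nat_lit 0x23) (.l (nat_lit 0x101))
 (.s (nat_lit 2) (nat_lit 0x32) (.l (nat_lit 0x2004))
 .p))) (.l (nat_lit 0x101))
) (.z (nat_lit 1) (.d (.l (nat_lit 0x103))
 (.s (nat_lit 2) (nat_lit 0x23) (.l (nat_lit 0x101))
 (.s (nat_lit 2) (nat_lit 0x33) (.l (nat_lit 0x2004))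
 .p))) (.l (nat_lit 0x101))
)) (.z (nat_lit 3) (.d (.l (nat_lit 0x103))
 (.s (nat_lit 2) (nat_lit 0x24) (.l (nat_lit 0x101))
 (.s (nat_lit 2) (nat_lit 0x34) (.l (nat_lit 0x2004))
 .p))) (.l (nat_lit 0x101))
)))))) (.z (nat_lit 0x22) (.l (nat_lit 0x208))
 (.z (nat_lit 0x28) (.s (nat_lit 1) (nat_lit 0x24) (.l (nat_lit 8))
 (.s (nat_lit 1) (nat_lit 0x34) (.l (nat_lit 0x800010))
 (.s (nat_lit 1) (nat_lit 0x3c) (.l (nat_lit 0x800010))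
 (.s (nat_lit 1) (nat_lit 0x40) (.s (nat_lit 1) (nat_lit 0x3e) (.l (nat_lit 0x101))
 (.s (nat_lit 1) (nat_lit 0x3f) (.l (nat_lit 0x8010210))
 (.z (nat_lit 0x26) (.l (nat_lit 0x101))
 (.d (.l (nat_lit 0x103))
 (.s (nat_lit 2) (nat_lit 0x22) (.l (nat_lit 1))
 (.s (nat_lit 2) (nat_lit 0x31) (.l (nat_lit 0x2004))
 .p)))))) (.s (nat_lit 1) (nat_lit 0x42) (.s (nat_lit 1) (nat_lit 0x41) (.z (nat_lit 0x25) (.l (nat_lit 0x101))
 (.z (nat_lit 0x26) (.d (.l (nat_lit 0x103))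
 (.s (nat_lit 2) (nat_lit 0x23) (.l (nat_lit 1))
 (.s (nat_lit 2) (nat_lit 0x32) (.l (nat_lit 0x2004))
 .p))) (.l (nat_lit 0x101))
)) (.z (nat_lit 0x24) (.l (nat_lit 0x101))
 (.z (nat_lit 0x25) (.d (.l (nat_lit 0x103))
 (.s (nat_lit 2) (nat_lit 0x23) (.l (nat_lit 1))
 (.s (nat_lit 2) (nat_lit 0x33) (.l (nat_lit 0x2004))
 .p))) (.l (nat_lit 0x101))
))) (.z (nat_lit 0x23) (.d (.l (nat_lit 0x103))
 (.s (nat_lit 2) (nat_lit 0x24) (.l (nat_lit 1))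
 (.s (nat_lit 2) (nat_lit 0x34) (.l (nat_lit 0x2004))
 .p))) (.l (nat_lit 0x101))
)))))) (.l (nat_lit 0x208))
))) (.z (nat_lit 0x1e) (.s (nat_lit 1) (nat_lit 0x24) (.l (nat_lit 0x8108))
 (.s (nat_lit 1) (nat_lit 0x34) (.s (nat_lit 1) (nat_lit 0x2c) (.s (nat_lit 1) (nat_lit 0x28) (.l (nat_lit 0x8030110))
 (.l (nat_lit 0x8010010))
) (.l (nat_lit 0x8800110))
) (.s (nat_lit 1) (nat_lit 0x3c) (.s (nat_lit 1) (nat_lit 0x38) (.s (nat_lit 1) (nat_lit 0x36) (.s (nat_lit 1) (nat_lit 0x35) (.z (nat_lit 0xa) (.s (nat_lit 2) (nat_lit 0x1d) (.l (nat_lit 0x101))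
 (.s (nat_lit 2) (nat_lit 0x29) (.l (nat_lit 0x42800018))
 (.l (nat_lit 0x860000218))
)) (.l (nat_lit 0x101))
) (.z (nat_lit 6) (.s (nat_lit 2) (nat_lit 0x1d) (.l (nat_lit 0x101))
 (.s (nat_lit 2) (nat_lit 0x2a) (.l (nat_lit 0x42800018))
 (.l (nat_lit 0x10409))
)) (.l (nat_lit 0x101))
)) (.s (nat_lit 1) (nat_lit 0x37) (.z (nat_lit 0) (.s (nat_lit 2) (nat_lit 0x1e) (.l (nat_lit 0x101))
 (.s (nat_lit 2) (nat_lit 0x2b) (.l (nat_lit 0x460000018))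
 (.l (nat_lit 0x460010218))
)) (.l (nat_lit 0x101))
) (.l (nat_lit 0x101))
)) (.l (nat_lit 0x800010))
) (.s (nat_lit 1) (nat_lit 0x40) (.s (nat_lit 1) (nat_lit 0x3e) (.l (nat_lit 0x8010210))
 (.s (nat_lit 1) (nat_lit 0x3f) (.z (nat_lit 0) (.d (.l (nat_lit 0x103))
 (.s (nat_lit 2) (nat_lit 0x22) (.l (nat_lit 0x101))
 (.s (nat_lit 2) (nat_lit 0x31) (.l (nat_lit 0x2004))
 .p))) (.l (nat_lit 0x101))
) (.l (nat_lit 0x101))
)) (.s (nat_lit 1) (nat_lit 0x42) (.s (nat_lit 1) (nat_lit 0x41) (.l (nat_lit 0x101))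
 (.l (nat_lit 0x101))
) (.s (nat_lit 1) (nat_lit 0x43) (.l (nat_lit 0x101))
 (.l (nat_lit 0x101))
)))))) (.z (nat_lit 0x21) (.l (nat_lit 0x208))
 (.z (nat_lit 0x28) (.s (nat_lit 1) (nat_lit 0x24) (.l (nat_lit 8))
 (.s (nat_lit 1) (nat_lit 0x34) (.l (nat_lit 0x800010))
 (.s (nat_lit 1) (nat_lit 0x3c) (.l (nat_lit 0x800010))
 (.s (nat_lit 1) (nat_lit 0x40) (.s (nat_lit 1) (nat_lit 0x3e) (.l (nat_lit 0x101))
 (.s (nat_lit 1) (nat_lit 0x3f) (.z (nat_lit 0x27) (.l (nat_lit 0x101))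
 (.d (.l (nat_lit 0x103))
 (.s (nat_lit 2) (nat_lit 0x22) (.l (nat_lit 1))
 (.s (nat_lit 2) (nat_lit 0x31) (.l (nat_lit 0x2004))
 .p)))) (.l (nat_lit 0x101))
)) (.s (nat_lit 1) (nat_lit 0x42) (.s (nat_lit 1) (nat_lit 0x41) (.l (nat_lit 0x101))
 (.l (nat_lit 0x101))
) (.s (nat_lit 1) (nat_lit 0x43) (.l (nat_lit 0x101))
 (.l (nat_lit 0x101))
)))))) (.l (nat_lit 0x208))
)))) (.z (nat_lit 0x1c) (.s (nat_lit 1) (nat_lit 0x25) (.l (nat_lit 0x8108))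
 (.s (nat_lit 1) (nat_lit 0x35) (.s (nat_lit 1) (nat_lit 0x2d) (.l (nat_lit 0x810010))
 (.s (nat_lit 1) (nat_lit 0x31) (.l (nat_lit 0x8010010))
 (.s (nat_lit 1) (nat_lit 0x33) (.l (nat_lit 0x800010))
 (.s (nat_lit 1) (nat_lit 0x34) (.z (nat_lit 0xe) (.s (nat_lit 2) (nat_lit 0x1c) (.l (nat_lit 0x101))
 (.s (nat_lit 2) (nat_lit 0x28) (.l (nat_lit 0x42000018))
 (.s (nat_lit 2) (nat_lit 0x2e) (.l (nat_lit 0x460000018))
 (.l (nat_lit 0x10409))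
))) (.l (nat_lit 0x101))
) (.z (nat_lit 0xb) (.s (nat_lit 2) (nat_lit 0x1d) (.l (nat_lit 0x101))
 (.s (nat_lit 2) (nat_lit 0x29) (.l (nat_lit 0x460000018))
 (.l (nat_lit 0x10409))
)) (.l (nat_lit 0x101))
))))) (.s (nat_lit 1) (nat_lit 0x3d) (.s (nat_lit 1) (nat_lit 0x39) (.s (nat_lit 1) (nat_lit 0x37) (.s (nat_lit 1) (nat_lit 0x36) (.z (nat_lit 7) (.s (nat_lit 2) (nat_lit 0x1d) (.l (nat_lit 0x101))
 (.s (nat_lit 2) (nat_lit 0x2a) (.l (nat_lit 0x460000018))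
 (.l (nat_lit 0x10409))
)) (.l (nat_lit 0x101))
) (.z (nat_lit 0) (.s (nat_lit 2) (nat_lit 0x1e) (.l (nat_lit 0x101))
 (.s (nat_lit 2) (nat_lit 0x2b) (.l (nat_lit 0x460000018))
 (.l (nat_lit 0x460010218))
)) (.l (nat_lit 0x101))
)) (.l (nat_lit 0x8010210))
) (.l (nat_lit 0x8010210))
) (.s (nat_lit 1) (nat_lit 0x41) (.s (nat_lit 1) (nat_lit 0x3f) (.s (nat_lit 1) (nat_lit 0x3e) (.l (nat_lit 0x101))
 (.l (nat_lit 0x101))
) (.l (nat_lit 0x101))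
) (.s (nat_lit 1) (nat_lit 0x43) (.l (nat_lit 0x101))
 (.l (nat_lit 0x101))
))))) (.z (nat_lit 0x20) (.l (nat_lit 0x208))
 (.z (nat_lit 0x27) (.s (nat_lit 1) (nat_lit 0x25) (.l (nat_lit 8))
 (.s (nat_lit 1) (nat_lit 0x35) (.s (nat_lit 1) (nat_lit 0x2d) (.l (nat_lit 0x800010))
 (.l (nat_lit 0x800010))
) (.s (nat_lit 1) (nat_lit 0x3d) (.s (nat_lit 1) (nat_lit 0x39) (.l (nat_lit 0x800010))
 (.l (nat_lit 0x101))
) (.s (nat_lit 1) (nat_lit 0x41) (.s (nat_lit 1) (nat_lit 0x3f) (.l (nat_lit 0x101))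
 (.l (nat_lit 0x101))
) (.s (nat_lit 1) (nat_lit 0x43) (.l (nat_lit 0x101))
 (.l (nat_lit 0x101))
))))) (.l (nat_lit 0x208))
))))

theorem u78 : check tb r78 [66, 0, 0, 0, 0, 0, 0, 0, 0, 0, 0, 0, 0, 0, 0, 0, 0, 0]
    [69, 69, 69, 69, 69, 69, 69, 69, 69, 69, 69, 69, 69, 69, 69, 69, 69, 69] 0 97 0 = true := by decide +kernel

noncomputable def r79 : Rt :=
(.s (nat_lit 0) (nat_lit 0x47) (.s (nat_lit 0) (nat_lit 0x46) (.z (nat_lit 0x19) (.s (nat_lit 1) (nat_lit 0x25) (.l (nat_lit 0x8108))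
 (.s (nat_lit 1) (nat_lit 0x36) (.s (nat_lit 1) (nat_lit 0x2e) (.l (nat_lit 0x810010))
 (.s (nat_lit 1) (nat_lit 0x32) (.l (nat_lit 0x800010))
 (.s (nat_lit 1) (nat_lit 0x34) (.s (nat_lit 1) (nat_lit 0x33) (.z (nat_lit 0x10) (.s (nat_lit 2) (nat_lit 0x1c) (.l (nat_lit 0x101))
 (.s (nat_lit 2) (nat_lit 0x28) (.l (nat_lit 0x42000018))
 (.s (nat_lit 2) (nat_lit 0x2e) (.l (nat_lit 0x460000018))
 (.l (nat_lit 0x10409))
))) (.l (nat_lit 0x101))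
) (.z (nat_lit 0xe) (.s (nat_lit 2) (nat_lit 0x1c) (.l (nat_lit 0x101))
 (.s (nat_lit 2) (nat_lit 0x28) (.l (nat_lit 0x460000018))
 (.s (nat_lit 2) (nat_lit 0x2e) (.l (nat_lit 0x460000018))
 (.l (nat_lit 0x10409))
))) (.l (nat_lit 0x101))
)) (.s (nat_lit 1) (nat_lit 0x35) (.z (nat_lit 0xb) (.s (nat_lit 2) (nat_lit 0x1d) (.l (nat_lit 0x101))
 (.s (nat_lit 2) (nat_lit 0x29) (.l (nat_lit 0x460000018))
 (.l (nat_lit 0x10409))
)) (.l (nat_lit 0x101))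
) (.z (nat_lit 7) (.s (nat_lit 2) (nat_lit 0x1d) (.l (nat_lit 0x101))
 (.s (nat_lit 2) (nat_lit 0x2a) (.l (nat_lit 0x460000018))
 (.l (nat_lit 0x10409))
)) (.l (nat_lit 0x101))
))))) (.s (nat_lit 1) (nat_lit 0x3e) (.s (nat_lit 1) (nat_lit 0x3a) (.s (nat_lit 1) (nat_lit 0x38) (.s (nat_lit 1) (nat_lit 0x37) (.z (nat_lit 0) (.s (nat_lit 2) (nat_lit 0x1e) (.l (nat_lit 0x101))
 (.s (nat_lit 2) (nat_lit 0x2b) (.l (nat_lit 0x460000018))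
 (.l (nat_lit 0x460010218))
)) (.l (nat_lit 0x101))
) (.l (nat_lit 0x101))
) (.l (nat_lit 0x101))
) (.s (nat_lit 1) (nat_lit 0x3c) (.l (nat_lit 0x101))
 (.l (nat_lit 0x101))
)) (.s (nat_lit 1) (nat_lit 0x42) (.s (nat_lit 1) (nat_lit 0x40) (.l (nat_lit 0x101))
 (.l (nat_lit 0x101))
) (.l (nat_lit 0x101))
)))) (.z (nat_lit 0x1f) (.l (nat_lit 0x208))
 (.z (nat_lit 0x26) (.s (nat_lit 1) (nat_lit 0x25) (.l (nat_lit 8))
 (.s (nat_lit 1) (nat_lit 0x36) (.s (nat_lit 1) (nat_lit 0x2e) (.l (nat_lit 0x800010))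
 (.l (nat_lit 0x800010))
) (.s (nat_lit 1) (nat_lit 0x3e) (.s (nat_lit 1) (nat_lit 0x3a) (.l (nat_lit 0x800010))
 (.l (nat_lit 0x101))
) (.s (nat_lit 1) (nat_lit 0x42) (.s (nat_lit 1) (nat_lit 0x40) (.l (nat_lit 0x101))
 (.l (nat_lit 0x101))
) (.l (nat_lit 0x101))
)))) (.l (nat_lit 0x208))
))) (.z (nat_lit 0x17) (.s (nat_lit 1) (nat_lit 0x26) (.l (nat_lit 0x8108))
 (.s (nat_lit 1) (nat_lit 0x37) (.s (nat_lit 1) (nat_lit 0x2f) (.l (nat_lit 0x8010010))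
 (.s (nat_lit 1) (nat_lit 0x33) (.s (nat_lit 1) (nat_lit 0x31) (.l (nat_lit 0x800010))
 (.s (nat_lit 1) (nat_lit 0x32) (.l (nat_lit 0x800010))
 (.z (nat_lit 0xf) (.s (nat_lit 2) (nat_lit 0x1c) (.l (nat_lit 0x101))
 (.s (nat_lit 2) (nat_lit 0x28) (.l (nat_lit 0x460000018))
 (.s (nat_lit 2) (nat_lit 0x2e) (.l (nat_lit 0x460000018))
 (.l (nat_lit 0x10409))
))) (.l (nat_lit 0x101))
))) (.s (nat_lit 1) (nat_lit 0x35) (.s (nat_lit 1) (nat_lit 0x34) (.z (nat_lit 0xc) (.s (nat_lit 2) (nat_lit 0x1c) (.l (nat_lit 0x101))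
 (.s (nat_lit 2) (nat_lit 0x28) (.l (nat_lit 0x460000018))
 (.l (nat_lit 0x860000218))
)) (.l (nat_lit 0x101))
) (.z (nat_lit 8) (.s (nat_lit 2) (nat_lit 0x1d) (.l (nat_lit 0x101))
 (.s (nat_lit 2) (nat_lit 0x29) (.l (nat_lit 0x460000018))
 (.l (nat_lit 0x10409))
)) (.l (nat_lit 0x101))
)) (.s (nat_lit 1) (nat_lit 0x36) (.z (nat_lit 3) (.s (nat_lit 2) (nat_lit 0x1d) (.l (nat_lit 0x101))
 (.s (nat_lit 2) (nat_lit 0x2a) (.l (nat_lit 0x460000018))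
 (.l (nat_lit 0x10409))
)) (.l (nat_lit 0x101))
) (.l (nat_lit 0x101))
)))) (.s (nat_lit 1) (nat_lit 0x3f) (.s (nat_lit 1) (nat_lit 0x3b) (.l (nat_lit 0x101))
 (.l (nat_lit 0x101))
) (.s (nat_lit 1) (nat_lit 0x43) (.l (nat_lit 0x101))
 (.l (nat_lit 0x101))
)))) (.z (nat_lit 0x1e) (.l (nat_lit 0x208))
 (.z (nat_lit 0x26) (.s (nat_lit 1) (nat_lit 0x26) (.l (nat_lit 8))
 (.s (nat_lit 1) (nat_lit 0x37) (.s (nat_lit 1) (nat_lit 0x2f) (.l (nat_lit 0x800010))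
 (.l (nat_lit 0x800010))
) (.s (nat_lit 1) (nat_lit 0x3f) (.l (nat_lit 0x101))
 (.s (nat_lit 1) (nat_lit 0x43) (.l (nat_lit 0x101))
 (.l (nat_lit 0x101))
)))) (.l (nat_lit 0x208))
)))) (.z (nat_lit 0x14) (.s (nat_lit 1) (nat_lit 0x26) (.l (nat_lit 0x8008))
 (.s (nat_lit 1) (nat_lit 0x37) (.s (nat_lit 1) (nat_lit 0x2f) (.l (nat_lit 0x8020110))
 (.s (nat_lit 1) (nat_lit 0x33) (.s (nat_lit 1) (nat_lit 0x31) (.l (nat_lit 0x800010))
 (.s (nat_lit 1) (nat_lit 0x32) (.l (nat_lit 0x800010))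
 (.z (nat_lit 0xd) (.s (nat_lit 2) (nat_lit 0x1c) (.l (nat_lit 0x101))
 (.s (nat_lit 2) (nat_lit 0x28) (.l (nat_lit 0x460000018))
 (.s (nat_lit 2) (nat_lit 0x2e) (.l (nat_lit 0x460000018))
 (.l (nat_lit 0x10409))
))) (.l (nat_lit 0x101))
))) (.s (nat_lit 1) (nat_lit 0x35) (.s (nat_lit 1) (nat_lit 0x34) (.z (nat_lit 0xa) (.s (nat_lit 2) (nat_lit 0x1c) (.l (nat_lit 0x101))
 (.s (nat_lit 2) (nat_lit 0x28) (.l (nat_lit 0x460000018))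
 (.l (nat_lit 0x10409))
)) (.l (nat_lit 0x101))
) (.z (nat_lit 5) (.s (nat_lit 2) (nat_lit 0x1d) (.l (nat_lit 0x101))
 (.s (nat_lit 2) (nat_lit 0x29) (.l (nat_lit 0x460000018))
 (.l (nat_lit 0x10409))
)) (.l (nat_lit 0x101))
)) (.l (nat_lit 0x101))
))) (.s (nat_lit 1) (nat_lit 0x40) (.s (nat_lit 1) (nat_lit 0x3c) (.l (nat_lit 0x101))
 (.l (nat_lit 0x101))
) (.s (nat_lit 1) (nat_lit 0x44) (.l (nat_lit 0x101))
 (.l (nat_lit 1))
)))) (.z (nat_lit 0x1c) (.l (nat_lit 0x208))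
 (.z (nat_lit 0x25) (.s (nat_lit 1) (nat_lit 0x26) (.l (nat_lit 8))
 (.s (nat_lit 1) (nat_lit 0x37) (.s (nat_lit 1) (nat_lit 0x2f) (.l (nat_lit 0x800010))
 (.l (nat_lit 0x800010))
) (.s (nat_lit 1) (nat_lit 0x40) (.l (nat_lit 0x101))
 (.s (nat_lit 1) (nat_lit 0x44) (.l (nat_lit 0x101))
 (.l (nat_lit 1))
)))) (.z (nat_lit 0x42) (.l (nat_lit 0x208))
 (.z (nat_lit 0x43) (.s (nat_lit 1) (nat_lit 0x26) (.l (nat_lit 8))
 (.l (nat_lit 1))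
) (.l (nat_lit 8))
))))))

theorem u79 : check tb r79 [69, 0, 0, 0, 0, 0, 0, 0, 0, 0, 0, 0, 0, 0, 0, 0, 0, 0]
    [72, 72, 72, 72, 72, 72, 72, 72, 72, 72, 72, 72, 72, 72, 72, 72, 72, 72] 0 97 0 = true := by decide +kernel

noncomputable def r80 : Rt :=
(.s (nat_lit 0) (nat_lit 0x4b) (.s (nat_lit 0) (nat_lit 0x4a) (.s (nat_lit 0) (nat_lit 0x49) (.z (nat_lit 0x11) (.s (nat_lit 1) (nat_lit 0x27) (.l (nat_lit 0x8008))
 (.s (nat_lit 1) (nat_lit 0x38) (.s (nat_lit 1) (nat_lit 0x30) (.s (nat_lit 1) (nat_lit 0x2c) (.l (nat_lit 0x800010))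
 (.l (nat_lit 0x800010))
) (.s (nat_lit 1) (nat_lit 0x34) (.s (nat_lit 1) (nat_lit 0x32) (.l (nat_lit 0x800010))
 (.s (nat_lit 1) (nat_lit 0x33) (.z (nat_lit 0xa) (.s (nat_lit 2) (nat_lit 0x1c) (.l (nat_lit 0x101))
 (.s (nat_lit 2) (nat_lit 0x28) (.l (nat_lit 0x460000018))
 (.l (nat_lit 0x10409))
)) (.l (nat_lit 0x800010))
) (.z (nat_lit 7) (.s (nat_lit 2) (nat_lit 0x1c) (.l (nat_lit 0x101))
 (.s (nat_lit 2) (nat_lit 0x28) (.l (nat_lit 0x460000018))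
 (.l (nat_lit 0x10409))
)) (.l (nat_lit 0x101))
))) (.s (nat_lit 1) (nat_lit 0x36) (.s (nat_lit 1) (nat_lit 0x35) (.z (nat_lit 0) (.s (nat_lit 2) (nat_lit 0x1d) (.l (nat_lit 0x101))
 (.s (nat_lit 2) (nat_lit 0x29) (.l (nat_lit 0x460000018))
 (.l (nat_lit 0x10409))
)) (.l (nat_lit 0x101))
) (.l (nat_lit 0x101))
) (.l (nat_lit 0x101))
))) (.s (nat_lit 1) (nat_lit 0x41) (.s (nat_lit 1) (nat_lit 0x3d) (.l (nat_lit 0x101))
 (.l (nat_lit 0x101))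
) (.l (nat_lit 1))
))) (.z (nat_lit 0x1b) (.l (nat_lit 0x208))
 (.z (nat_lit 0x25) (.s (nat_lit 1) (nat_lit 0x27) (.l (nat_lit 8))
 (.s (nat_lit 1) (nat_lit 0x38) (.s (nat_lit 1) (nat_lit 0x30) (.l (nat_lit 0x800010))
 (.s (nat_lit 1) (nat_lit 0x34) (.l (nat_lit 0x800010))
 (.s (nat_lit 1) (nat_lit 0x36) (.l (nat_lit 0x800010))
 (.l (nat_lit 0x101))
))) (.s (nat_lit 1) (nat_lit 0x41) (.l (nat_lit 0x101))
 (.l (nat_lit 1))
))) (.z (nat_lit 0x41) (.l (nat_lit 0x208))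
 (.z (nat_lit 0x43) (.s (nat_lit 1) (nat_lit 0x27) (.l (nat_lit 8))
 (.l (nat_lit 1))
) (.l (nat_lit 8))
))))) (.z (nat_lit 0xe) (.s (nat_lit 1) (nat_lit 0x27) (.l (nat_lit 8))
 (.s (nat_lit 1) (nat_lit 0x39) (.s (nat_lit 1) (nat_lit 0x30) (.l (nat_lit 0x800010))
 (.s (nat_lit 1) (nat_lit 0x35) (.s (nat_lit 1) (nat_lit 0x33) (.s (nat_lit 1) (nat_lit 0x32) (.l (nat_lit 0x800010))
 (.z (nat_lit 3) (.s (nat_lit 2) (nat_lit 0x1c) (.l (nat_lit 0x101))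
 (.s (nat_lit 2) (nat_lit 0x28) (.l (nat_lit 0x460000018))
 (.l (nat_lit 0x110409))
)) (.l (nat_lit 0x800010))
)) (.s (nat_lit 1) (nat_lit 0x34) (.z (nat_lit 3) (.s (nat_lit 2) (nat_lit 0x1c) (.l (nat_lit 0x101))
 (.s (nat_lit 2) (nat_lit 0x28) (.l (nat_lit 0x460000018))
 (.l (nat_lit 0x10409))
)) (.l (nat_lit 0x101))
) (.l (nat_lit 0x101))
)) (.l (nat_lit 0x101))
)) (.s (nat_lit 1) (nat_lit 0x42) (.s (nat_lit 1) (nat_lit 0x3e) (.l (nat_lit 0x101))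
 (.l (nat_lit 0x101))
) (.l (nat_lit 1))
))) (.z (nat_lit 0x1a) (.l (nat_lit 0x208))
 (.z (nat_lit 0x24) (.s (nat_lit 1) (nat_lit 0x27) (.l (nat_lit 8))
 (.s (nat_lit 1) (nat_lit 0x39) (.s (nat_lit 1) (nat_lit 0x30) (.l (nat_lit 0x800010))
 (.s (nat_lit 1) (nat_lit 0x35) (.l (nat_lit 0x800010))
 (.l (nat_lit 0x101))
)) (.s (nat_lit 1) (nat_lit 0x42) (.l (nat_lit 0x101))
 (.l (nat_lit 1))
))) (.z (nat_lit 0x40) (.l (nat_lit 0x208))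
 (.z (nat_lit 0x42) (.s (nat_lit 1) (nat_lit 0x27) (.l (nat_lit 8))
 (.l (nat_lit 1))
) (.l (nat_lit 8))
)))))) (.z (nat_lit 0xc) (.s (nat_lit 1) (nat_lit 0x28) (.l (nat_lit 8))
 (.s (nat_lit 1) (nat_lit 0x3a) (.s (nat_lit 1) (nat_lit 0x31) (.l (nat_lit 0x800010))
 (.s (nat_lit 1) (nat_lit 0x36) (.s (nat_lit 1) (nat_lit 0x34) (.s (nat_lit 1) (nat_lit 0x33) (.s (nat_lit 1) (nat_lit 0x32) (.l (nat_lit 0x800010))
 (.l (nat_lit 0x800010))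
) (.l (nat_lit 0x101))
) (.l (nat_lit 0x101))
) (.l (nat_lit 0x101))
)) (.s (nat_lit 1) (nat_lit 0x43) (.l (nat_lit 0x101))
 (.l (nat_lit 1))
))) (.z (nat_lit 0x19) (.l (nat_lit 0x208))
 (.z (nat_lit 0x24) (.s (nat_lit 1) (nat_lit 0x28) (.l (nat_lit 8))
 (.s (nat_lit 1) (nat_lit 0x3a) (.s (nat_lit 1) (nat_lit 0x31) (.l (nat_lit 0x800010))
 (.s (nat_lit 1) (nat_lit 0x36) (.s (nat_lit 1) (nat_lit 0x34) (.l (nat_lit 0x800010))
 (.l (nat_lit 0x101))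
) (.l (nat_lit 0x101))
)) (.s (nat_lit 1) (nat_lit 0x43) (.l (nat_lit 0x101))
 (.l (nat_lit 1))
))) (.z (nat_lit 0x3f) (.l (nat_lit 0x208))
 (.z (nat_lit 0x41) (.s (nat_lit 1) (nat_lit 0x28) (.l (nat_lit 8))
 (.l (nat_lit 1))
) (.l (nat_lit 8))
)))))) (.s (nat_lit 0) (nat_lit 0x4d) (.s (nat_lit 0) (nat_lit 0x4c) (.z (nat_lit 0xd) (.s (nat_lit 1) (nat_lit 0x28) (.l (nat_lit 8))
 (.s (nat_lit 1) (nat_lit 0x3a) (.s (nat_lit 1) (nat_lit 0x31) (.l (nat_lit 0x800010))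
 (.s (nat_lit 1) (nat_lit 0x36) (.s (nat_lit 1) (nat_lit 0x34) (.s (nat_lit 1) (nat_lit 0x33) (.l (nat_lit 0x800010))
 (.l (nat_lit 0x101))
) (.l (nat_lit 0x101))
) (.l (nat_lit 0x101))
)) (.s (nat_lit 1) (nat_lit 0x43) (.l (nat_lit 0x101))
 (.l (nat_lit 1))
))) (.z (nat_lit 0x1a) (.l (nat_lit 0x208))
 (.z (nat_lit 0x1e) (.s (nat_lit 1) (nat_lit 0x28) (.l (nat_lit 8))
 (.s (nat_lit 1) (nat_lit 0x3a) (.s (nat_lit 1) (nat_lit 0x31) (.l (nat_lit 0x800010))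
 (.s (nat_lit 1) (nat_lit 0x36) (.s (nat_lit 1) (nat_lit 0x34) (.l (nat_lit 0x800010))
 (.l (nat_lit 0x101))
) (.l (nat_lit 0x101))
)) (.s (nat_lit 1) (nat_lit 0x43) (.l (nat_lit 0x101))
 (.l (nat_lit 1))
))) (.z (nat_lit 0x1f) (.l (nat_lit 0x208))
 (.z (nat_lit 0x23) (.s (nat_lit 1) (nat_lit 0x28) (.l (nat_lit 8))
 (.s (nat_lit 1) (nat_lit 0x3a) (.s (nat_lit 1) (nat_lit 0x31) (.l (nat_lit 0x800010))
 (.l (nat_lit 0x101))
) (.s (nat_lit 1) (nat_lit 0x43) (.l (nat_lit 0x101))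
 (.l (nat_lit 1))
))) (.z (nat_lit 0x3e) (.l (nat_lit 0x208))
 (.z (nat_lit 0x40) (.s (nat_lit 1) (nat_lit 0x28) (.l (nat_lit 8))
 (.l (nat_lit 1))
) (.l (nat_lit 8))
))))))) (.z (nat_lit 0xb) (.s (nat_lit 1) (nat_lit 0x29) (.l (nat_lit 8))
 (.s (nat_lit 1) (nat_lit 0x3b) (.s (nat_lit 1) (nat_lit 0x32) (.l (nat_lit 0x800010))
 (.l (nat_lit 0x101))
) (.s (nat_lit 1) (nat_lit 0x44) (.l (nat_lit 0x101))
 .p))) (.z (nat_lit 0x1a) (.l (nat_lit 0x208))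
 (.z (nat_lit 0x1d) (.s (nat_lit 1) (nat_lit 0x29) (.l (nat_lit 8))
 (.s (nat_lit 1) (nat_lit 0x3b) (.s (nat_lit 1) (nat_lit 0x32) (.l (nat_lit 0x800010))
 (.l (nat_lit 0x101))
) (.s (nat_lit 1) (nat_lit 0x44) (.l (nat_lit 0x101))
 .p))) (.z (nat_lit 0x3d) (.l (nat_lit 0x208))
 (.z (nat_lit 0x3f) (.s (nat_lit 1) (nat_lit 0x29) (.l (nat_lit 8))
 (.l (nat_lit 1))
) (.l (nat_lit 8))
)))))) (.z (nat_lit 0xc) (.s (nat_lit 1) (nat_lit 0x29) (.l (nat_lit 8))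
 (.s (nat_lit 1) (nat_lit 0x3c) (.s (nat_lit 1) (nat_lit 0x33) (.s (nat_lit 1) (nat_lit 0x2e) (.l (nat_lit 0x800010))
 (.l (nat_lit 0x8010210))
) (.l (nat_lit 0x101))
) (.s (nat_lit 1) (nat_lit 0x45) (.l (nat_lit 0x101))
 .p))) (.z (nat_lit 0x1a) (.l (nat_lit 0x208))
 (.z (nat_lit 0x1d) (.s (nat_lit 1) (nat_lit 0x29) (.l (nat_lit 8))
 (.s (nat_lit 1) (nat_lit 0x3c) (.s (nat_lit 1) (nat_lit 0x33) (.s (nat_lit 1) (nat_lit 0x2e) (.l (nat_lit 0x800010))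
 (.l (nat_lit 0x8010210))
) (.l (nat_lit 0x101))
) (.l (nat_lit 1))
)) (.z (nat_lit 0x3c) (.l (nat_lit 0x208))
 (.z (nat_lit 0x3e) (.s (nat_lit 1) (nat_lit 0x29) (.l (nat_lit 8))
 (.l (nat_lit 1))
) (.l (nat_lit 8))
)))))))

theorem u80 : check tb r80 [72, 0, 0, 0, 0, 0, 0, 0, 0, 0, 0, 0, 0, 0, 0, 0, 0, 0]
    [78, 78, 78, 78, 78, 78, 78, 78, 78, 78, 78, 78, 78, 78, 78, 78, 78, 78] 0 97 0 = true := by decide +kernel

noncomputable def r81 : Rt :=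
(.s (nat_lit 0) (nat_lit 0x5a) (.s (nat_lit 0) (nat_lit 0x54) (.s (nat_lit 0) (nat_lit 0x51) (.s (nat_lit 0) (nat_lit 0x50) (.s (nat_lit 0) (nat_lit 0x4f) (.z (nat_lit 9) (.s (nat_lit 1) (nat_lit 0x2a) (.l (nat_lit 8))
 (.s (nat_lit 1) (nat_lit 0x3d) (.s (nat_lit 1) (nat_lit 0x34) (.s (nat_lit 1) (nat_lit 0x2f) (.l (nat_lit 0x800010))
 (.l (nat_lit 0x8010210))
) (.l (nat_lit 0x101))
) (.l (nat_lit 1))
)) (.z (nat_lit 0x19) (.l (nat_lit 0x208))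
 (.z (nat_lit 0x1c) (.s (nat_lit 1) (nat_lit 0x2a) (.l (nat_lit 8))
 (.s (nat_lit 1) (nat_lit 0x3d) (.s (nat_lit 1) (nat_lit 0x34) (.s (nat_lit 1) (nat_lit 0x2f) (.l (nat_lit 0x800010))
 (.l (nat_lit 0x8010210))
) (.l (nat_lit 0x101))
) (.l (nat_lit 1))
)) (.z (nat_lit 0x3b) (.l (nat_lit 0x208))
 (.z (nat_lit 0x3c) (.s (nat_lit 1) (nat_lit 0x2a) (.l (nat_lit 8))
 (.l (nat_lit 1))
) (.l (nat_lit 8))
))))) (.z (nat_lit 0xa) (.s (nat_lit 1) (nat_lit 0x2a) (.l (nat_lit 8))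
 (.s (nat_lit 1) (nat_lit 0x3d) (.s (nat_lit 1) (nat_lit 0x34) (.s (nat_lit 1) (nat_lit 0x2f) (.l (nat_lit 0x800010))
 (.l (nat_lit 0x101))
) (.l (nat_lit 0x101))
) (.l (nat_lit 1))
)) (.z (nat_lit 0x19) (.l (nat_lit 0x208))
 (.z (nat_lit 0x1b) (.s (nat_lit 1) (nat_lit 0x2a) (.l (nat_lit 8))
 (.s (nat_lit 1) (nat_lit 0x3d) (.s (nat_lit 1) (nat_lit 0x34) (.s (nat_lit 1) (nat_lit 0x2f) (.l (nat_lit 0x800010))
 (.l (nat_lit 0x101))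
) (.l (nat_lit 0x101))
) (.l (nat_lit 1))
)) (.z (nat_lit 0x3a) (.l (nat_lit 0x208))
 (.z (nat_lit 0x3b) (.s (nat_lit 1) (nat_lit 0x2a) (.l (nat_lit 8))
 (.l (nat_lit 1))
) (.l (nat_lit 8))
)))))) (.z (nat_lit 6) (.s (nat_lit 1) (nat_lit 0x2b) (.l (nat_lit 8))
 (.s (nat_lit 1) (nat_lit 0x3e) (.s (nat_lit 1) (nat_lit 0x35) (.s (nat_lit 1) (nat_lit 0x30) (.l (nat_lit 0x8010210))
 (.l (nat_lit 0x101))
) (.l (nat_lit 0x101))
) (.l (nat_lit 1))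
)) (.z (nat_lit 0x19) (.l (nat_lit 0x208))
 (.z (nat_lit 0x1b) (.s (nat_lit 1) (nat_lit 0x2b) (.l (nat_lit 8))
 (.s (nat_lit 1) (nat_lit 0x3e) (.s (nat_lit 1) (nat_lit 0x35) (.s (nat_lit 1) (nat_lit 0x30) (.l (nat_lit 0x8010210))
 (.l (nat_lit 0x101))
) (.l (nat_lit 0x101))
) (.l (nat_lit 1))
)) (.z (nat_lit 0x39) (.l (nat_lit 0x208))
 (.z (nat_lit 0x3a) (.s (nat_lit 1) (nat_lit 0x2b) (.l (nat_lit 8))
 (.l (nat_lit 1))
) (.l (nat_lit 8))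
)))))) (.s (nat_lit 0) (nat_lit 0x53) (.s (nat_lit 0) (nat_lit 0x52) (.z (nat_lit 7) (.s (nat_lit 1) (nat_lit 0x2b) (.l (nat_lit 8))
 (.s (nat_lit 1) (nat_lit 0x3f) (.s (nat_lit 1) (nat_lit 0x35) (.s (nat_lit 1) (nat_lit 0x30) (.l (nat_lit 0x8010210))
 (.l (nat_lit 0x101))
) (.l (nat_lit 0x101))
) .p)) (.z (nat_lit 0x18) (.l (nat_lit 0x208))
 (.z (nat_lit 0x1a) (.s (nat_lit 1) (nat_lit 0x2b) (.l (nat_lit 8))
 (.s (nat_lit 1) (nat_lit 0x3f) (.s (nat_lit 1) (nat_lit 0x35) (.s (nat_lit 1) (nat_lit 0x30) (.l (nat_lit 0x8010210))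
 (.l (nat_lit 0x101))
) (.l (nat_lit 0x101))
) .p)) (.z (nat_lit 0x38) (.l (nat_lit 0x208))
 (.z (nat_lit 0x39) (.s (nat_lit 1) (nat_lit 0x2b) (.l (nat_lit 8))
 (.l (nat_lit 1))
) (.l (nat_lit 8))
))))) (.z (nat_lit 1) (.s (nat_lit 1) (nat_lit 0x2c) (.s (nat_lit 1) (nat_lit 0x18) (.l (nat_lit 8))
 (.s (nat_lit 1) (nat_lit 0x22) (.l (nat_lit 0x800010))
 (.l (nat_lit 0x8010210))
)) (.s (nat_lit 1) (nat_lit 0x40) (.s (nat_lit 1) (nat_lit 0x36) (.l (nat_lit 0x101))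
 (.l (nat_lit 0x101))
) .p)) (.z (nat_lit 0x18) (.l (nat_lit 0x208))
 (.z (nat_lit 0x19) (.s (nat_lit 1) (nat_lit 0x2c) (.s (nat_lit 1) (nat_lit 0x18) (.l (nat_lit 8))
 (.s (nat_lit 1) (nat_lit 0x22) (.l (nat_lit 0x800010))
 (.l (nat_lit 0x8010210))
)) (.s (nat_lit 1) (nat_lit 0x40) (.l (nat_lit 0x101))
 .p)) (.l (nat_lit 0x208))
)))) (.l (nat_lit 0x208))
)) (.s (nat_lit 0) (nat_lit 0x57) (.s (nat_lit 0) (nat_lit 0x56) (.l (nat_lit 0x208))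
 (.l (nat_lit 0x208))
) (.l (nat_lit 0x208))
)) (.s (nat_lit 0) (nat_lit 0x60) (.l (nat_lit 0x208))
 (.s (nat_lit 0) (nat_lit 0x63) (.l (nat_lit 0x208))
 (.s (nat_lit 0) (nat_lit 0x65) (.s (nat_lit 0) (nat_lit 0x64) (.l (nat_lit 8))
 (.l (nat_lit 8))
) (.l (nat_lit 8))
))))

theorem u81 : check tb r81 [78, 0, 0, 0, 0, 0, 0, 0, 0, 0, 0, 0, 0, 0, 0, 0, 0, 0]
    [102, 102, 102, 102, 102, 102, 102, 102, 102, 102, 102, 102, 102, 102, 102, 102, 102, 102] 0 97 0 = true := by decide +kernel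


end Pool.Agent.P.MP_eb61da_co.RX
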