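import Pool.Agent.P.MP_eb61da_co.RxSK
import Pool.Agent.P.MP_eb61da_co.RxR0

namespace Pool.Agent.P.MP_eb61da_co.RX

set_option maxRecDepth 100000

theorem root_rg {ρ : ℝ} (hρ : Rh ρ) (H : ∀ w k, Good ρ w k (tab tb w k)) :
    RG ρ [0, 0, 0, 0, 0, 0, 0, 0, 0, 0, 0, 0, 0, 0, 0, 0, 0, 0]
      [102, 102, 102, 102, 102, 102, 102, 102, 102, 102, 102, 102, 102, 102, 102, 102, 102, 102] 0 97 0 :=
(RG.split 0 53 (RG.split 0 29 (RG.split 0 17 (check_sound hρ H _ _ _ _ _ _ u0)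
 (RG.split 0 23 (check_sound hρ H _ _ _ _ _ _ u1)
 (RG.split 0 26 (RG.split 0 25 (RG.split 0 24 (check_sound hρ H _ _ _ _ _ _ u2)
 (check_sound hρ H _ _ _ _ _ _ u3) rfl rfl)
 (check_sound hρ H _ _ _ _ _ _ u4) rfl rfl)
 (RG.split 0 28 (RG.split 0 27 (RG.zsplit (RG.split 1 16 (check_sound hρ H _ _ _ _ _ _ u5)
 (RG.split 1 22 (check_sound hρ H _ _ _ _ _ _ u6)
 (RG.split 1 25 (check_sound hρ H _ _ _ _ _ _ u7)
 (check_sound hρ H _ _ _ _ _ _ u8) rfl rfl) rfl rfl) rfl rfl)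
 (check_sound hρ H _ _ _ _ _ _ u9))
 (RG.zsplit (RG.split 1 16 (check_sound hρ H _ _ _ _ _ _ u10)
 (RG.split 1 22 (check_sound hρ H _ _ _ _ _ _ u11)
 (RG.split 1 25 (check_sound hρ H _ _ _ _ _ _ u12)
 (check_sound hρ H _ _ _ _ _ _ u13) rfl rfl) rfl rfl) rfl rfl)
 (check_sound hρ H _ _ _ _ _ _ u14)) rfl rfl)
 (RG.zsplit (RG.split 1 17 (check_sound hρ H _ _ _ _ _ _ u15)
 (RG.split 1 23 (check_sound hρ H _ _ _ _ _ _ u16)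
 (RG.split 1 26 (check_sound hρ H _ _ _ _ _ _ u17)
 (check_sound hρ H _ _ _ _ _ _ u18) rfl rfl) rfl rfl) rfl rfl)
 (check_sound hρ H _ _ _ _ _ _ u19)) rfl rfl) rfl rfl) rfl rfl) rfl rfl)
 (RG.split 0 41 (RG.split 0 35 (RG.split 0 32 (RG.split 0 31 (RG.split 0 30 (RG.zsplit (RG.split 1 17 (check_sound hρ H _ _ _ _ _ _ u20)
 (RG.split 1 24 (check_sound hρ H _ _ _ _ _ _ u21)
 (RG.split 1 27 (check_sound hρ H _ _ _ _ _ _ u22)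
 (check_sound hρ H _ _ _ _ _ _ u23) rfl rfl) rfl rfl) rfl rfl)
 (check_sound hρ H _ _ _ _ _ _ u24))
 (RG.zsplit (RG.split 1 18 (check_sound hρ H _ _ _ _ _ _ u25)
 (RG.split 1 25 (check_sound hρ H _ _ _ _ _ _ u26)
 (RG.split 1 28 (RG.split 1 27 (RG.split 1 26 (check_sound hρ H _ _ _ _ _ _ u27)
 (check_sound hρ H _ _ _ _ _ _ u28) rfl rfl)
 (check_sound hρ H _ _ _ _ _ _ u29) rfl rfl)
 (check_sound hρ H _ _ _ _ _ _ u30) rfl rfl) rfl rfl) rfl rfl)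
 (check_sound hρ H _ _ _ _ _ _ u31)) rfl rfl)
 (RG.zsplit (RG.split 1 18 (check_sound hρ H _ _ _ _ _ _ u32)
 (RG.split 1 25 (check_sound hρ H _ _ _ _ _ _ u33)
 (RG.split 1 29 (RG.split 1 27 (check_sound hρ H _ _ _ _ _ _ u34)
 (check_sound hρ H _ _ _ _ _ _ u35) rfl rfl)
 (check_sound hρ H _ _ _ _ _ _ u36) rfl rfl) rfl rfl) rfl rfl)
 (check_sound hρ H _ _ _ _ _ _ u37)) rfl rfl)
 (RG.split 0 34 (RG.split 0 33 (RG.zsplit (RG.split 1 19 (check_sound hρ H _ _ _ _ _ _ u38)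
 (RG.split 1 26 (check_sound hρ H _ _ _ _ _ _ u39)
 (RG.split 1 30 (check_sound hρ H _ _ _ _ _ _ u40)
 (check_sound hρ H _ _ _ _ _ _ u41) rfl rfl) rfl rfl) rfl rfl)
 (check_sound hρ H _ _ _ _ _ _ u42))
 (RG.zsplit (RG.split 1 19 (check_sound hρ H _ _ _ _ _ _ u43)
 (RG.split 1 27 (check_sound hρ H _ _ _ _ _ _ u44)
 (RG.split 1 31 (check_sound hρ H _ _ _ _ _ _ u45)
 (check_sound hρ H _ _ _ _ _ _ u46) rfl rfl) rfl rfl) rfl rfl)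
 (check_sound hρ H _ _ _ _ _ _ u47)) rfl rfl)
 (RG.zsplit (RG.split 1 20 (check_sound hρ H _ _ _ _ _ _ u48)
 (RG.split 1 28 (check_sound hρ H _ _ _ _ _ _ u49)
 (check_sound hρ H _ _ _ _ _ _ u50) rfl rfl) rfl rfl)
 (check_sound hρ H _ _ _ _ _ _ u51)) rfl rfl) rfl rfl)
 (RG.split 0 38 (RG.split 0 37 (RG.split 0 36 (RG.zsplit (RG.split 1 20 (check_sound hρ H _ _ _ _ _ _ u52)
 (RG.split 1 28 (check_sound hρ H _ _ _ _ _ _ u53)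
 (check_sound hρ H _ _ _ _ _ _ u54) rfl rfl) rfl rfl)
 (check_sound hρ H _ _ _ _ _ _ u55))
 (RG.zsplit (RG.split 1 21 (check_sound hρ H _ _ _ _ _ _ u56)
 (RG.split 1 29 (check_sound hρ H _ _ _ _ _ _ u57)
 (check_sound hρ H _ _ _ _ _ _ u58) rfl rfl) rfl rfl)
 (check_sound hρ H _ _ _ _ _ _ u59)) rfl rfl)
 (RG.zsplit (RG.split 1 21 (check_sound hρ H _ _ _ _ _ _ u60)
 (RG.split 1 30 (check_sound hρ H _ _ _ _ _ _ u61)
 (check_sound hρ H _ _ _ _ _ _ u62) rfl rfl) rfl rfl)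
 (check_sound hρ H _ _ _ _ _ _ u63)) rfl rfl)
 (RG.split 0 40 (RG.split 0 39 (RG.zsplit (RG.split 1 22 (check_sound hρ H _ _ _ _ _ _ u64)
 (check_sound hρ H _ _ _ _ _ _ u65) rfl rfl)
 (check_sound hρ H _ _ _ _ _ _ u66))
 (check_sound hρ H _ _ _ _ _ _ u67) rfl rfl)
 (check_sound hρ H _ _ _ _ _ _ u68) rfl rfl) rfl rfl) rfl rfl)
 (RG.split 0 47 (RG.split 0 44 (RG.split 0 43 (RG.split 0 42 (check_sound hρ H _ _ _ _ _ _ u69)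
 (check_sound hρ H _ _ _ _ _ _ u70) rfl rfl)
 (check_sound hρ H _ _ _ _ _ _ u71) rfl rfl)
 (RG.split 0 46 (check_sound hρ H _ _ _ _ _ _ u72)
 (check_sound hρ H _ _ _ _ _ _ u73) rfl rfl) rfl rfl)
 (RG.split 0 50 (check_sound hρ H _ _ _ _ _ _ u74)
 (check_sound hρ H _ _ _ _ _ _ u75) rfl rfl) rfl rfl) rfl rfl) rfl rfl)
 (RG.split 0 78 (RG.split 0 66 (RG.split 0 60 (check_sound hρ H _ _ _ _ _ _ u76)
 (check_sound hρ H _ _ _ _ _ _ u77) rfl rfl)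
 (RG.split 0 72 (RG.split 0 69 (check_sound hρ H _ _ _ _ _ _ u78)
 (check_sound hρ H _ _ _ _ _ _ u79) rfl rfl)
 (check_sound hρ H _ _ _ _ _ _ u80) rfl rfl) rfl rfl)
 (check_sound hρ H _ _ _ _ _ _ u81) rfl rfl) rfl rfl)

end Pool.Agent.P.MP_eb61da_co.RX
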