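import Pool.Agent.P.MP_eb61da_co.Geo
import Pool.Agent.P.MP_eb61da_co.RxChk

/-! Meaning of the checker: definitions and unfolding rules. -/

set_option linter.unusedVariables false

namespace Pool.Agent.P.MP_eb61da_co.RX

/-- lane `i` of `x` -/
def ln (x i : ℕ) : ℕ := x / 65536 ^ i % 65536

/-- at most 98 lanes, each at most `c` -/
def WF (c x : ℕ) : Prop := ∀ i, ln x i ≤ if i < 98 then c else 0

def Rh (ρ : ℝ) : Prop := 11956 / 10000 ≤ ρ ∧ ρ ≤ 11957 / 10000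

/-- `z` lies in the size class `y` -/
def Cls (y : ℕ) (z : ℝ) : Prop := (lo y : ℝ) < z ∧ z ≤ (y : ℝ) + 5

/-- the claim stored in lane `y` of row `h` of the bin `w × k` -/
def Cl (ρ : ℝ) (w k h y v : ℕ) : Prop :=
  ∀ (z : ℝ) (S : Multiset ℝ), ¬ G ρ 1 w k (z ::ₘ S) → Cls y z → (∀ a ∈ S, z ≤ a) →
    (∀ a ∈ z ::ₘ S, a ≤ (h : ℝ) + 5) → (∃ a ∈ z ::ₘ S, (lo h : ℝ) < a) → (v : ℝ) ≤ area S

def Good (ρ : ℝ) (w k : ℕ) (r : List ℕ) : Prop :=
  ∀ h D, r[h]? = some D → WF 16383 D ∧ ∀ y, Cl ρ w k h y (ln D y)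

/-- packing in an integer bin -/
def Pk (ρ : ℝ) (b : ℕ × ℕ) (S : Multiset ℝ) : Prop := G ρ 1 b.1 b.2 S

/-- `S` is packed in the bin and the smaller item `z` is refused -/
def Rej (ρ : ℝ) (w k x y : ℕ) (z : ℝ) (S : Multiset ℝ) : Prop :=
  G ρ 1 w k S ∧ ¬ G ρ 1 w k (z ::ₘ S) ∧ Cls y z ∧ (∀ a ∈ S, z ≤ a) ∧
    ∀ a ∈ z ::ₘ S, a ≤ (x : ℝ) + 5

/-- no item, or one item of scale at most `U` -/
def It (U : ℝ) (T : Multiset ℝ) : Prop := T = 0 ∨ ∃ a, T = {a} ∧ 0 ≤ a ∧ a ≤ U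

def All (t : Tb) (a e : ℕ) : Prop := ∀ c, a ≤ c → c < e →
  ∃ cs, chkRows t (c / 128) (c % 128) (tab t (c / 128) (c % 128)) cs 0 = true

/-- first entry of a list of reals -/
noncomputable abbrev hr (L : List ℝ) : ℝ := Pool.Agent.P.MP_eb61da_co.hd L

/-- the least entry lies in class `y` -/
def Zr (y : ℕ) (L : List ℝ) : Prop := ∀ a ∈ L, (∀ b ∈ L, a ≤ b) → Cls y a

def Fl (ρ : ℝ) (fl : ℕ) (L : List ℝ) : Prop :=
  (fl = 1 → hr L + ρ * hr L.tail ≤ ρ * 120) ∧ (fl = 2 → hr L.tail.tail + ρ * hr L.tail ≤ 120)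

def Ti (ρ : ℝ) (L : List ℝ) : Prop :=
  area (L : Multiset ℝ) < 10294 ∧ hr L + hr L.tail ≤ ρ * 120 ∧
    (hr L + ρ * hr L.tail ≤ ρ * 120 ∨ hr L.tail.tail + ρ * hr L.tail ≤ 120)

def RG (ρ : ℝ) (lw hi : List ℕ) (y0 y1 fl : ℕ) : Prop :=
  ∀ (L : List ℝ) (y : ℕ), Dec L → SatLo lw L → SatHi hi L → Ti ρ L → y0 ≤ y → y ≤ y1 → Zr y L →
    Fl ρ fl L → G ρ 1 (ρ * 120) 120 (L : Multiset ℝ)

/-! Unfolding rules. -/

theorem br {α : Type} (a b : α) (c : Bool) :
    @Bool.rec (fun _ => α) a b c = if c = true then b else a := by cases c <;> rfl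

theorem an {a b : Bool} : @Bool.rec (fun _ => Bool) false a b = true ↔ b = true ∧ a = true := by
  cases a <;> cases b <;> simp

theorem frc_eq {α : Type} (n : ℕ) (k : ℕ → α) : frc n k = k n := by cases n <;> rfl

theorem pw_eq (i : ℕ) : pw i = 65536 ^ i := by
  change 1 <<< (16 * i) = _
  rw [Nat.shiftLeft_eq, one_mul, pow_mul]; norm_num

theorem lo_eq (c : ℕ) : lo c = if c = 0 then 0 else c + 4 := by cases c <;> rfl

theorem lu_eq (u : ℕ) : lu u = (11957 * u + 9999) / 10000 := rfl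
theorem ll_eq (u : ℕ) : ll u = 11956 * u / 10000 := rfl

theorem nofit_iff {w k c : ℕ} :
    nofit w k c = true ↔ k ≤ lo c ∨ (k ≤ w ∧ 10000 * w ≤ 11956 * lo c) := by
  unfold nofit
  rw [br, br]
  simp only [Nat.ble_eq]
  by_cases h : k ≤ lo c
  · simp [h]
  · by_cases h' : k ≤ w
    · simp only [h, h', if_true, if_false, false_or, true_and, Nat.ble_eq]; rfl
    · simp [h, h']

theorem tsub_eq (a b : ℕ) :
    tsub a b = (a + cH - b) &&& ((((a + cH - b) &&& cH) >>> 15) * 32767) := rfl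

theorem leq_iff {a b : ℕ} : leq a b = true ↔ (b + cH - a) &&& cH = cH := Nat.beq_eq ▸ Iff.rfl

theorem vmin_eq (a b : ℕ) : vmin a b = a - tsub a b := rfl
theorem vmax_eq (a b : ℕ) : vmax a b = b + tsub a b := rfl
theorem seg_eq (R y0 y1 : ℕ) : seg R y0 y1 = R % pw (y1 + 1) - R % pw y0 := rfl

theorem tab_eq (t : Tb) (w k : ℕ) :
    tab t w k = if k ≤ 127 ∧ 128 * w + k ≤ 18431 then look t (128 * w + k) else [] := by
  unfold tab
  rw [br, frc_eq, br]
  simp only [Nat.ble_eq]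
  change (if k ≤ 127 then if 128 * w + k ≤ 18431 then look t (128 * w + k) else [] else []) = _
  by_cases h : k ≤ 127 <;> by_cases h' : 128 * w + k ≤ 18431 <;> simp [h, h']

theorem drp_eq : ∀ (n : ℕ) (l : List ℕ), drp n l = l.drop n
  | 0, _ => rfl
  | _ + 1, [] => rfl
  | n + 1, _ :: l => drp_eq n l

theorem abL_zero (w k x : ℕ) (r : List ℕ) (P A : ℕ) : abL w k x 0 r P A = A := rfl
theorem abL_nil (w k x m P A : ℕ) :
    abL w k x (m + 1) [] P A = if nofit w k (x - m) = true then A else 0 := br _ _ _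
theorem abL_succ (w k x m : ℕ) : abL w k x (m + 1) = fun r P A =>
    List.rec (motive := fun _ => ℕ) (@Bool.rec (fun _ => ℕ) 0 A (nofit w k (x - m)))
      (fun D r _ => abL w k x m r (P <<< 16) (vmin (A + P) D)) r := rfl
theorem abL_cons (w k x m D : ℕ) (r : List ℕ) (P A : ℕ) :
    abL w k x (m + 1) (D :: r) P A = abL w k x m r (P <<< 16) (vmin (A + P) D) :=
  congrFun (congrFun (congrFun (abL_succ w k x m) (D :: r)) P) A
theorem abar_eq (t : Tb) (w k x y0 : ℕ) :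
    abar t w k x y0 = abL w k x (x + 1 - y0) ((tab t w k).drop y0) (16383 * pw y0) 0 := by
  rw [← drp_eq]; rfl

theorem glS_iff {T U E a M : ℕ} :
    glS T U E a M = true ↔ ((E - U) ||| (E + a * cO - T)) &&& M = M := Nat.beq_eq ▸ Iff.rfl
theorem glL_nil {w k x T U m P M A : ℕ} : glL w k x T U (m + 1) [] P M A = true ↔
    nofit w k (x - m) = true ∧ U % pw (x + 1) < pw (x - m) := by
  refine an.trans ?_
  rw [Nat.ble_eq]; rfl
noncomputable def glG (H w k x T U : ℕ) (n : ℕ) : List ℕ → ℕ → ℕ → ℕ → Bool :=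
  Nat.rec (motive := fun _ => List ℕ → ℕ → ℕ → ℕ → Bool) (fun _ _ _ _ => true)
    (fun m f r P M A => List.rec (motive := fun _ => Bool)
      (@Bool.rec (fun _ => Bool) false
        (Nat.ble (Nat.succ (Nat.mod U (pw (Nat.succ x)))) (pw (Nat.sub x m)))
        (nofit w k (Nat.sub x m)))
      (fun D r _ => @Bool.rec (fun _ => Bool) false
        (f r (Nat.shiftLeft P (nat_lit 16)) (Nat.add M P) (Nat.shiftRight A (nat_lit 16)))
        (glS T U (Nat.add D H) (Nat.land A (nat_lit 65535)) (Nat.add M P))) r) n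
theorem glL_eq : glL = glG cH := rfl
theorem glG_cons (H : ℕ) {w k x T U m D : ℕ} {r : List ℕ} {P M A : ℕ} :
    glG H w k x T U (m + 1) (D :: r) P M A = true ↔
      glS T U (D + H) (A &&& 65535) (M + P) = true ∧
        glG H w k x T U m r (P <<< 16) (M + P) (A >>> 16) = true := an
theorem glL_cons {w k x T U m D : ℕ} {r : List ℕ} {P M A : ℕ} :
    glL w k x T U (m + 1) (D :: r) P M A = true ↔
      glS T U (D + cH) (A &&& 65535) (M + P) = true ∧
        glL w k x T U m r (P <<< 16) (M + P) (A >>> 16) = true := by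
  rw [glL_eq]; exact glG_cons cH
theorem core3_eq (t : Tb) (qa qb x y0 T A : ℕ) : core3 t qa qb x y0 T A =
    glL qa qb x T (tsub T A) (x + 1 - y0) ((tab t qa qb).drop y0) (32768 * pw y0) 0
      (A >>> (16 * y0)) := by
  rw [← drp_eq]; rfl

theorem exL_nil (t : Tb) (x y0 c T : ℕ) : exL t x y0 [] c T = T := rfl
theorem exL_cons (t : Tb) (x y0 : ℕ) (b : ℕ × ℕ) (ex : List (ℕ × ℕ)) (c T : ℕ) :
    exL t x y0 (b :: ex) c T = exL t x y0 ex (c >>> 1) T ∨
      exL t x y0 (b :: ex) c T = exL t x y0 ex (c >>> 1) (tsub T (abar t b.1 b.2 x y0)) := by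
  change exL t x y0 ex (c >>> 1) (@Bool.rec (fun _ => ℕ) (tsub T (abar t b.1 b.2 x y0)) T
    (Nat.beq (c &&& 1) 0)) = _ ∨ exL t x y0 ex (c >>> 1) (@Bool.rec (fun _ => ℕ)
      (tsub T (abar t b.1 b.2 x y0)) T (Nat.beq (c &&& 1) 0)) = _
  cases Nat.beq (c &&& 1) 0
  · exact Or.inr rfl
  · exact Or.inl rfl

theorem core_spec {t : Tb} {ex : List (ℕ × ℕ)} {c pa pb qa qb x y0 R m l2 : ℕ}
    (H : core t ex c pa pb qa qb x y0 R m l2 = true) : ∃ P, x ≤ 97 ∧ l2 ≤ 16383 ∧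
      P &&& cF = P ∧ leq (R <<< 16 % pw (x + 1)) P = true ∧ leq (P <<< 16 % pw (x + 1)) P = true ∧
      core3 t qa qb x y0 (exL t x y0 ex c (tsub (vmax R (tsub P cL)) (l2 * cO)))
        (abar t pa pb x y0) = true := by
  unfold core core2 at H
  obtain ⟨h1, H⟩ := an.1 H
  obtain ⟨h2, H⟩ := an.1 H
  obtain ⟨h3, H⟩ := an.1 H
  obtain ⟨h4, H⟩ := an.1 H
  obtain ⟨h5, H⟩ := an.1 H
  exact ⟨_, Nat.le_of_ble_eq_true h1, Nat.le_of_ble_eq_true h2, Nat.eq_of_beq_eq_true h3, h4, h5, H⟩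

theorem mx_eq (a b : ℕ) : mx a b = max a b := by
  unfold mx; rw [br]; simp only [Nat.ble_eq]; split <;> omega
theorem mn_eq (a b : ℕ) : mn a b = min a b := by
  unfold mn; rw [br]; simp only [Nat.ble_eq]; split <;> omega
theorem cn_eq (a b : ℕ) : cn a b = (max a b, min a b) := by unfold cn; rw [mx_eq, mn_eq]

theorem cut2_spec {w k iw ih c : ℕ} {f : ℕ → ℕ → ℕ → ℕ → Bool} (H : cut2 w k iw ih c f = true) :
    iw ≤ w ∧ ih ≤ k ∧
      (f (max (w - iw) ih) (min (w - iw) ih) (max w (k - ih)) (min w (k - ih)) = true ∨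
        f (max (w - iw) k) (min (w - iw) k) (max iw (k - ih)) (min iw (k - ih)) = true) := by
  unfold cut2 at H
  simp only [an, Nat.ble_eq, mx_eq, mn_eq] at H
  refine ⟨H.1, H.2.1, ?_⟩
  have := H.2.2
  rw [br] at this
  split at this
  · exact Or.inr this
  · exact Or.inl this

theorem cut_spec {w k U o c : ℕ} {f : ℕ → ℕ → ℕ → ℕ → Bool} (H : cut w k U o c f = true) :
    cut2 w k U (lu U) c f = true ∨ cut2 w k (lu U) U c f = true := by
  unfold cut at H
  rw [br] at H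
  split at H
  · exact Or.inr H
  · exact Or.inl H

theorem rv1_eq (U l d : ℕ) : rv1 U l d = if d * l = 0 then 0 else
    if d ≤ 16 * (d / (16 * l)) * U then
      min ((d / (16 * l) + 1) * l * l) (d * d / (256 * (d / (16 * l))))
    else (d / (16 * l) + 1) * l * l := by
  unfold rv1 rv2 rv3
  rw [br, br, mn_eq]
  simp only [Nat.ble_eq, Nat.beq_eq]; rfl

theorem rowL_succ {C U l2 n y R : ℕ} : rowL C U l2 (n + 1) y R = true ↔
    R &&& 65535 ≤ l2 + rv1 U (lo y) (C - 16 * (U + (y + 5))) ∧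
      rowL C U l2 n (y + 1) (R >>> 16) = true := by
  refine an.trans ?_
  rw [Nat.ble_eq]; rfl

theorem sqa_eq (w o : ℕ) : sqa w o = if o = 0 then 160000 * w / 11957 else 16 * w := by
  unfold sqa; rw [br]; simp only [Nat.beq_eq]; rfl

theorem sqS_spec {U l2 R y0 y1 ty a b V : ℕ} (H : sqS U l2 R y0 y1 ty a b V = true) :
    V ≤ a ∧ V ≤ b ∧ (((a - V) * (b - V) / 256 ≤ 16383 ∧
      leq R ((a - V) * (b - V) / 256 * cO + tsub (l2 * cO) cU) = true) ∨
      rowL (max a b) U l2 (y1 + 1 - y0) y0 (R >>> (16 * y0)) = true) := by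
  unfold sqS at H
  simp only [an, Nat.ble_eq, mx_eq] at H
  refine ⟨H.1, H.2.1, ?_⟩
  have := H.2.2
  rw [br] at this
  split at this
  · exact Or.inr this
  · unfold mmS at this
    simp only [an, Nat.ble_eq] at this
    exact Or.inl this

theorem strat_spec {t : Tb} {w k h U l2 R y0 y1 ty m : ℕ}
    (H : strat t w k h U l2 R y0 y1 ty m = true) :
    (∃ o, o ≤ 1 ∧ sqS U l2 R y0 y1 ty (sqa w o) (sqa k (1 - o)) (16 * U) = true) ∨
      (y1 < h ∧ leq R (l2 * cO) = true) ∨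
      ∃ o c f, cut w k U o c f = true ∧ ∀ a1 a2 b1 b2, f a1 a2 b1 b2 = true →
        core t [] 0 b1 b2 a1 a2 h y0 R m l2 = true ∨ core t [] 0 a1 a2 b1 b2 h y0 R m l2 = true := by
  unfold strat at H
  rw [br] at H
  split at H
  · refine Or.inr (Or.inr ⟨_, _, _, H, ?_⟩)
    intro a1 a2 b1 b2 h
    rw [br] at h
    split at h
    · exact Or.inr h
    · exact Or.inl h
  · rw [br] at H
    split at H
    · simp only [an, Nat.ble_eq] at H
      exact Or.inr (Or.inl H)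
    · exact Or.inl ⟨_, Nat.and_le_right, H⟩

theorem strL_zero {t : Tb} {w k h U l2 R c : ℕ} : strL t w k h U l2 0 R c = true ↔ R = 0 :=
  Nat.beq_eq ▸ Iff.rfl

theorem strL_succ {t : Tb} {w k h U l2 n R c : ℕ} (H : strL t w k h U l2 (n + 1) R c = true) :
    ∃ y0 y1 ty m c', strat t w k h U l2 (seg R y0 y1) y0 y1 ty m = true ∧
      strL t w k h U l2 n (R - seg R y0 y1) c' = true := by
  have e : strL t w k h U l2 (n + 1) = fun R c => frc (c &&& 127) fun y0 =>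
      frc (c >>> 7 &&& 127) fun y1 => @Bool.rec (fun _ => Bool) false
        (strL t w k h U l2 n (R - seg R y0 y1) (c >>> 21))
        (strat t w k h U l2 (seg R y0 y1) y0 y1 (c >>> 14 &&& 15) (c >>> 18 &&& 7)) := rfl
  rw [e] at H
  simp only [frc_eq] at H
  exact ⟨_, _, _, _, _, an.1 H⟩

theorem chkRow_spec {t : Tb} {w k h R c : ℕ} (H : chkRow t w k h R c = true) :
    h ≤ 97 ∧ R &&& cF = R ∧ ∃ n c', strL t w k h (h + 5) (lo h * lo h) n R c' = true := by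
  unfold chkRow at H
  simp only [an, Nat.ble_eq, Nat.beq_eq] at H
  exact ⟨H.1, H.2.1, _, _, H.2.2⟩

theorem chkRows_cons {t : Tb} {w k R h : ℕ} {r cs : List ℕ}
    (H : chkRows t w k (R :: r) cs h = true) :
    ∃ c cs', chkRow t w k h R c = true ∧ chkRows t w k r cs' (h + 1) = true := by
  cases cs with
  | nil => exact absurd H (by change ¬ false = true; simp)
  | cons c cs =>
    change @Bool.rec (fun _ => Bool) false (frc _ _) _ = true at H
    rw [frc_eq, an] at H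
    exact ⟨_, _, H⟩

theorem chkKeys_nil {t : Tb} {e a : ℕ} : chkKeys t e [] a = true ↔ e ≤ a := Nat.ble_eq ▸ Iff.rfl

theorem chkKeys_cons {t : Tb} {e a : ℕ} {cs : List ℕ} {L : List (List ℕ)}
    (H : chkKeys t e (cs :: L) a = true) :
    chkRows t (a / 128) (a % 128) (tab t (a / 128) (a % 128)) cs 0 = true ∧
      chkKeys t e L (a + 1) = true := by
  have e : chkKeys t e (cs :: L) = fun a => frc (a / 128) fun w => frc (a % 128) fun k =>
      @Bool.rec (fun _ => Bool) false (frc (a + 1) (chkKeys t e L))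
        (chkRows t w k (tab t w k) cs 0) := rfl
  rw [e] at H
  simp only [frc_eq] at H
  exact an.1 H

theorem pick_nil (i : ℕ) (g : ℕ → ℕ → List (ℕ × ℕ) → Bool) : pick [] i g = false := rfl
theorem pick_cons {b : ℕ × ℕ} {L : List (ℕ × ℕ)} {i : ℕ} {g : ℕ → ℕ → List (ℕ × ℕ) → Bool}
    (H : pick (b :: L) i g = true) :
    g b.1 b.2 L = true ∨ pick L (i - 1) (fun w k R => g w k (b :: R)) = true := by
  change @Bool.rec (fun _ => Bool) _ _ _ = true at H
  rw [br] at H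
  split at H
  · exact Or.inl H
  · exact Or.inr H

theorem hd_eq (L : List ℕ) (d : ℕ) : hd L d = L.headD d := by cases L <;> rfl
theorem tl_eq (L : List ℕ) : tl L = L.tail := by cases L <;> rfl

theorem fin_eq (t : Tb) (y0 y1 l2 h c : ℕ) (F : List (ℕ × ℕ)) : fin t y0 y1 l2 h c F =
    pick F (c &&& 31) fun pa pb F1 => pick F1 (c >>> 5 &&& 31) fun qa qb F2 =>
      core t F2 (c >>> 10) pa pb qa qb (h - 5) y0 (seg (tsub (10294 * cO) cL) y0 y1) 7 l2 := rfl

theorem plL_zero (t : Tb) (y0 y1 : ℕ) (lw hi : List ℕ) (l2 c : ℕ) (F : List (ℕ × ℕ)) :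
    plL t y0 y1 0 lw hi l2 c F = fin t y0 y1 l2 (hi.headD 102) c F := by
  rw [← hd_eq]; rfl

theorem plL_succ (t : Tb) (y0 y1 n : ℕ) (lw hi : List ℕ) (l2 c : ℕ) (F : List (ℕ × ℕ)) :
    plL t y0 y1 (n + 1) lw hi l2 c F = pick F (c >>> 2 &&& 31) fun w k F1 =>
      cut w k (hi.headD 102) (c >>> 1 &&& 1) (c &&& 1) fun a1 a2 b1 b2 =>
        plL t y0 y1 n lw.tail hi.tail (l2 + lw.headD 0 * lw.headD 0) (c >>> 7)
          ((a1, a2) :: (b1, b2) :: F1) := by
  rw [← hd_eq, ← hd_eq, ← tl_eq, ← tl_eq]; rfl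

theorem leaf2_spec {t : Tb} {lw hi : List ℕ} {y0 y1 fl st n c h1 h2 l1 l2 : ℕ}
    (H : leaf2 t lw hi y0 y1 fl st n c h1 h2 l1 l2 = true) : lu h1 ≤ 120 ∧ h2 ≤ h1 ∧
      (plL t y0 y1 n lw hi (l1 * l1 + l2 * l2) c
          [cn l1 (120 - lu h1), cn (143 - h1) (120 - lu h2)] = true ∨
        plL t y0 y1 n lw hi (l1 * l1 + l2 * l2) c
          [cn 143 (120 - lu h1), cn (143 - h1) (lu h1 - lu h2)] = true ∨
        (fl = 1 ∧ plL t y0 y1 n lw hi (l1 * l1 + l2 * l2) c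
          [cn l1 (120 - lu h1), cn (143 - h1) (120 - h2)] = true) ∨
        (fl = 2 ∧ h1 + lu (hi.headD 102) ≤ 143 ∧ h1 + h2 ≤ 143 ∧
          plL t y0 y1 n lw.tail hi.tail (l1 * l1 + l2 * l2 + lw.headD 0 * lw.headD 0) c
            [cn l1 (120 - lu h1), cn (143 - h1 - lu (hi.headD 102)) (120 - lu h2),
              cn (143 - h1 - h2) (ll l2)] = true)) := by
  unfold leaf2 at H
  rw [an, an, br, Nat.ble_eq, Nat.ble_eq] at H
  refine ⟨H.1, H.2.1, ?_⟩
  have := H.2.2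
  split at this
  · exact Or.inl this
  rw [br] at this
  split at this
  · exact Or.inr (Or.inl this)
  rw [br] at this
  split at this
  · rw [an, Nat.beq_eq] at this
    exact Or.inr (Or.inr (Or.inl this))
  · rw [an, an, an, Nat.beq_eq, Nat.ble_eq, Nat.ble_eq, hd_eq, hd_eq, tl_eq, tl_eq] at this
    exact Or.inr (Or.inr (Or.inr this))

theorem leaf_spec {t : Tb} {lw hi : List ℕ} {y0 y1 fl c : ℕ} (H : leaf t lw hi y0 y1 fl c = true) :
    (∃ n c', plL t y0 y1 n lw hi 0 c' [(143, 120), (143, 0)] = true) ∨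
      ∃ st n c', leaf2 t lw.tail.tail hi.tail.tail y0 y1 fl st n c' (hi.headD 102)
        (hi.tail.headD 102) (lw.headD 0) (lw.tail.headD 0) = true := by
  unfold leaf at H
  rw [br] at H
  split at H
  · exact Or.inl ⟨_, _, H⟩
  · simp only [hd_eq, tl_eq] at H
    exact Or.inr ⟨_, _, _, H⟩

theorem sumSq_eq : ∀ L : List ℕ, sumSq L = Pool.Agent.P.MP_eb61da_co.sumSq L
  | [] => rfl
  | a :: L => congrArg (a * a + ·) (sumSq_eq L)

theorem capAll_eq (c : ℕ) : ∀ L : List ℕ, capAll c L = Pool.Agent.P.MP_eb61da_co.capAll c L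
  | [] => rfl
  | h :: L => by
    change @Bool.rec (fun _ => List ℕ) (c :: capAll c L) (h :: L) (Nat.ble h c) = _
    rw [capAll_eq c L, Pool.Agent.P.MP_eb61da_co.capAll]
    cases Nat.ble h c <;> rfl

theorem capHi_eq (c : ℕ) : ∀ (L : List ℕ) (i : ℕ),
    capHi c L i = Pool.Agent.P.MP_eb61da_co.capHi c L i
  | [], _ => rfl
  | h :: L, i => by
    change @Bool.rec (fun _ => List ℕ) (h :: capHi c L (i - 1)) (capAll c (h :: L))
      (Nat.beq i 0) = _
    rw [capHi_eq c L, capAll_eq, Pool.Agent.P.MP_eb61da_co.capHi]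
    cases Nat.beq i 0 <;> rfl

theorem raiseLo_eq (c : ℕ) : ∀ (L : List ℕ) (i : ℕ),
    raiseLo c L i = Pool.Agent.P.MP_eb61da_co.raiseLo c L i
  | [], _ => rfl
  | l :: L, i => by
    change mx l c :: @Bool.rec (fun _ => List ℕ) (raiseLo c L (i - 1)) L (Nat.beq i 0) = _
    rw [raiseLo_eq c L, Pool.Agent.P.MP_eb61da_co.raiseLo, mx_eq,
      Pool.Agent.P.MP_eb61da_co.mx_eq]
    cases Nat.beq i 0 <;> rfl

theorem check_p {t : Tb} {lw hi : List ℕ} {y0 y1 fl : ℕ} :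
    check t .p lw hi y0 y1 fl = true ↔ 10294 ≤ sumSq lw := Nat.ble_eq ▸ Iff.rfl
theorem check_l (t : Tb) (c : ℕ) (lw hi : List ℕ) (y0 y1 fl : ℕ) :
    check t (.l c) lw hi y0 y1 fl = leaf t lw hi y0 y1 fl c := rfl
theorem check_s {t : Tb} {i c : ℕ} {a b : Rt} {lw hi : List ℕ} {y0 y1 fl : ℕ} :
    check t (.s i c a b) lw hi y0 y1 fl = true ↔ check t a lw (capHi c hi i) y0 y1 fl = true ∧
      check t b (raiseLo c lw i) hi y0 y1 fl = true := an
theorem check_z {t : Tb} {y : ℕ} {a b : Rt} {lw hi : List ℕ} {y0 y1 fl : ℕ} :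
    check t (.z y a b) lw hi y0 y1 fl = true ↔ check t a lw hi y0 y fl = true ∧
      check t b lw hi (y + 1) y1 fl = true := an
theorem check_d {t : Tb} {a b : Rt} {lw hi : List ℕ} {y0 y1 fl : ℕ} :
    check t (.d a b) lw hi y0 y1 fl = true ↔ check t a lw hi y0 y1 1 = true ∧
      check t b lw hi y0 y1 2 = true := an

end Pool.Agent.P.MP_eb61da_co.RX
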