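import Pool.Agent.P.MP_eb61da_co.RxS0

/-! Lanes of 16 bits. -/

set_option linter.unusedVariables false

namespace Pool.Agent.P.MP_eb61da_co.RX

theorem rxsa_l0 (x : ℕ) : ln x 0 = x % 65536 := by simp [ln]

theorem rxsa_pow (i : ℕ) : 65536 ^ i = 2 ^ (16 * i) := (pow_mul 2 16 i).symm

theorem rxsa_tb (x i j : ℕ) :
    (ln x i).testBit j = (decide (j < 16) && x.testBit (j + 16 * i)) := by
  rw [ln, rxsa_pow, show 65536 = 2 ^ 16 from rfl, Nat.testBit_mod_two_pow, Nat.testBit_div_two_pow]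

theorem rxsa_shl (c n : ℕ) : (c * pw n) <<< 16 = c * pw (n + 1) := by
  rw [Nat.shiftLeft_eq, pw_eq, pw_eq, pow_succ 65536, mul_assoc]

theorem ln_lt (x i : ℕ) : ln x i < 65536 := Nat.mod_lt _ (by norm_num)

theorem ln_zero (i : ℕ) : ln 0 i = 0 := by simp [ln]

theorem ln_lane0 (x : ℕ) : ln x 0 = x &&& 65535 := by
  rw [rxsa_l0]
  exact (Nat.and_two_pow_sub_one_eq_mod x 16).symm

theorem ln_succ (x i : ℕ) : ln x (i + 1) = ln (x / 65536) i := by
  rw [ln, ln, Nat.div_div_eq_div_mul, pow_succ']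

theorem le_of_ln {a b : ℕ} (h : ∀ i, ln a i ≤ ln b i) : a ≤ b := by
  induction a using Nat.strong_induction_on generalizing b with
  | _ a ih =>
    rcases Nat.eq_zero_or_pos a with rfl | ha
    · exact Nat.zero_le _
    · have h0 := h 0
      rw [rxsa_l0, rxsa_l0] at h0
      have h1 : a / 65536 ≤ b / 65536 := ih _ (by omega) fun i => by
        rw [← ln_succ, ← ln_succ]; exact h _
      omega

theorem ln_add {a b : ℕ} (h : ∀ i, ln a i + ln b i < 65536) (i : ℕ) :
    ln (a + b) i = ln a i + ln b i := by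
  induction i generalizing a b with
  | zero =>
    have h0 := h 0
    simp only [rxsa_l0] at h0 ⊢
    omega
  | succ i ih =>
    have h0 := h 0
    simp only [rxsa_l0] at h0
    have e : (a + b) / 65536 = a / 65536 + b / 65536 := by omega
    rw [ln_succ, ln_succ, ln_succ, e]
    exact ih fun j => by rw [← ln_succ, ← ln_succ]; exact h _

theorem ln_sub {a b : ℕ} (h : ∀ i, ln b i ≤ ln a i) (i : ℕ) :
    ln (a - b) i = ln a i - ln b i := by
  induction i generalizing a b with
  | zero =>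
    have h0 := h 0
    have h1 := le_of_ln h
    simp only [rxsa_l0] at h0 ⊢
    omega
  | succ i ih =>
    have h0 := h 0
    have h1 := le_of_ln h
    simp only [rxsa_l0] at h0
    have e : (a - b) / 65536 = a / 65536 - b / 65536 := by omega
    rw [ln_succ, ln_succ, ln_succ, e]
    exact ih fun j => by rw [← ln_succ, ← ln_succ]; exact h _

theorem ln_mul {c x : ℕ} (h : ∀ i, c * ln x i < 65536) (i : ℕ) : ln (c * x) i = c * ln x i := by
  induction c generalizing i with
  | zero => simp [ln]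
  | succ c ih =>
    have h1 : ∀ j, ln (c * x) j = c * ln x j := fun j => ih (fun l => by
      have := h l
      rw [Nat.succ_mul] at this
      omega) j
    rw [Nat.succ_mul, Nat.succ_mul, ln_add, h1]
    intro j
    rw [h1, ← Nat.succ_mul]
    exact h j

theorem ln_and (a b i : ℕ) : ln (a &&& b) i = ln a i &&& ln b i := by
  refine Nat.eq_of_testBit_eq fun j => ?_
  simp only [Nat.testBit_and, rxsa_tb]
  cases decide (j < 16) <;> simp

theorem ln_or (a b i : ℕ) : ln (a ||| b) i = ln a i ||| ln b i := by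
  refine Nat.eq_of_testBit_eq fun j => ?_
  simp only [Nat.testBit_or, rxsa_tb]
  cases decide (j < 16) <;> simp

theorem ln_shr (x n i : ℕ) : ln (x >>> (16 * n)) i = ln x (n + i) := by
  rw [ln, ln, Nat.shiftRight_eq_div_pow, ← rxsa_pow, Nat.div_div_eq_div_mul, ← pow_add]

theorem ln_shr1 (x i : ℕ) : ln (x >>> 16) i = ln x (i + 1) := by
  rw [ln_succ, Nat.shiftRight_eq_div_pow]

theorem ln_shl_zero (x : ℕ) : ln (x <<< 16) 0 = 0 := by
  rw [rxsa_l0, Nat.shiftLeft_eq]
  omega

theorem ln_shl_succ (x i : ℕ) : ln (x <<< 16) (i + 1) = ln x i := by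
  have e : x <<< 16 / 65536 = x := by rw [Nat.shiftLeft_eq]; omega
  rw [ln_succ, e]

theorem ln_mod (x n i : ℕ) : ln (x % pw n) i = if i < n then ln x i else 0 := by
  refine Nat.eq_of_testBit_eq fun j => ?_
  rw [rxsa_tb, pw_eq, rxsa_pow, Nat.testBit_mod_two_pow]
  by_cases hj : j < 16
  · split_ifs with hi
    · have : j + 16 * i < 16 * n := by omega
      simp [rxsa_tb, hj, this]
    · have : ¬j + 16 * i < 16 * n := by omega
      simp [this]
  · split_ifs <;> simp [rxsa_tb, hj]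

theorem ln_of_lt {x n i : ℕ} (h : x < pw n) (hi : n ≤ i) : ln x i = 0 := by
  rw [← Nat.mod_eq_of_lt h, ln_mod, if_neg (by omega)]

theorem ln_mul_pw {c : ℕ} (hc : c < 65536) (n i : ℕ) :
    ln (c * pw n) i = if i = n then c else 0 := by
  induction n generalizing i with
  | zero =>
    rw [pw_eq, pow_zero, mul_one]
    rcases i with _ | i
    · rw [rxsa_l0, if_pos rfl, Nat.mod_eq_of_lt hc]
    · rw [ln_succ, Nat.div_eq_of_lt hc, ln_zero, if_neg (by omega)]
  | succ n ih =>
    rw [← rxsa_shl]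
    rcases i with _ | i
    · rw [ln_shl_zero, if_neg (by omega)]
    · rw [ln_shl_succ, ih]
      simp

theorem pw_shl (c n : ℕ) : (c * pw n) <<< 16 = c * pw (n + 1) := rxsa_shl c n

theorem ln_shr15 {e : ℕ} (h : ∀ i, ln e i = 0 ∨ ln e i = 32768) (i : ℕ) :
    ln (e >>> 15) i = ln e i / 32768 := by
  have h0 := h i
  have h1 := h (i + 1)
  have e1 : ln e (i + 1) = e / 65536 ^ i / 65536 % 65536 := by
    rw [ln, Nat.div_div_eq_div_mul, pow_succ]
  have e2 : ln (e >>> 15) i = e / 65536 ^ i / 32768 % 65536 := by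
    rw [ln, Nat.shiftRight_eq_div_pow, Nat.div_div_eq_div_mul, Nat.div_div_eq_div_mul, mul_comm]
  rw [e1] at h1
  rw [e2]
  rw [ln] at h0 ⊢
  generalize e / 65536 ^ i = y at h0 h1 ⊢
  omega

theorem and_top {a : ℕ} (h : a < 65536) : a &&& 32768 = if 32768 ≤ a then 32768 else 0 := by
  have e := Nat.and_two_pow a 15
  rw [Nat.testBit_eq_decide_div_mod_eq] at e
  refine Eq.trans e ?_
  split_ifs with h1
  · rw [decide_eq_true (by omega)]
    rfl
  · rw [decide_eq_false (by omega)]
    rfl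

theorem ln_seg (R y0 y1 i : ℕ) :
    ln (seg R y0 y1) i = if y0 ≤ i ∧ i ≤ y1 then ln R i else 0 := by
  rw [seg_eq]
  by_cases h : y0 ≤ y1 + 1
  · rw [ln_sub fun j => by rw [ln_mod, ln_mod]; split_ifs <;> omega, ln_mod, ln_mod]
    split_ifs <;> omega
  · rw [Nat.sub_eq_zero_of_le (le_of_ln fun j => by
      rw [ln_mod, ln_mod]; split_ifs <;> omega), ln_zero, if_neg (by omega)]

theorem ln_sub_seg (R y0 y1 i : ℕ) :
    ln (R - seg R y0 y1) i = if y0 ≤ i ∧ i ≤ y1 then 0 else ln R i := by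
  rw [ln_sub fun j => by rw [ln_seg]; split_ifs <;> omega, ln_seg]
  split_ifs <;> omega

end Pool.Agent.P.MP_eb61da_co.RX
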