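import Pool.Agent.P.MP_eb61da_co.RxSA

/-! Lane-wise truncated subtraction and comparisons. -/

set_option linter.unusedVariables false

namespace Pool.Agent.P.MP_eb61da_co.RX

theorem ln_cO (i : ℕ) : ln cO i = if i < 98 then 1 else 0 := by
  split
  · next h => exact (by decide +kernel : ∀ i < 98, ln cO i = 1) i h
  · next h => exact ln_of_lt (by decide +kernel : cO < pw 98) (Nat.le_of_not_lt h)

theorem ln_cH (i : ℕ) : ln cH i = if i < 98 then 32768 else 0 := by
  split
  · next h => exact (by decide +kernel : ∀ i < 98, ln cH i = 32768) i h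
  · next h => exact ln_of_lt (by decide +kernel : cH < pw 98) (Nat.le_of_not_lt h)

theorem ln_cF (i : ℕ) : ln cF i = if i < 98 then 16383 else 0 := by
  split
  · next h => exact (by decide +kernel : ∀ i < 98, ln cF i = 16383) i h
  · next h => exact ln_of_lt (by decide +kernel : cF < pw 98) (Nat.le_of_not_lt h)

theorem ln_cL (i : ℕ) : ln cL i = if i < 98 then lo i * lo i else 0 := by
  split
  · next h => exact (by decide +kernel : ∀ i < 98, ln cL i = lo i * lo i) i h
  · next h => exact ln_of_lt (by decide +kernel : cL < pw 98) (Nat.le_of_not_lt h)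

theorem ln_cU (i : ℕ) : ln cU i = if i < 98 then (i + 5) * (i + 5) else 0 := by
  split
  · next h => exact (by decide +kernel : ∀ i < 98, ln cU i = (i + 5) * (i + 5)) i h
  · next h => exact ln_of_lt (by decide +kernel : cU < pw 98) (Nat.le_of_not_lt h)

theorem rxsb_mul (O : ℕ) (hO : ∀ i, ln O i = if i < 98 then 1 else 0) {c : ℕ} (hc : c < 65536)
    (i : ℕ) : ln (c * O) i = if i < 98 then c else 0 := by
  rw [ln_mul (fun j => by rw [hO]; split <;> omega), hO]
  split <;> omega

theorem ln_mul_cO {c : ℕ} (hc : c < 65536) (i : ℕ) : ln (c * cO) i = if i < 98 then c else 0 :=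
  rxsb_mul cO ln_cO hc i

theorem WF.mono {c d x : ℕ} (h : WF c x) (hcd : c ≤ d) : WF d x := fun i => by
  have := h i
  split at this <;> simp only [*, if_true, if_false] <;> omega

theorem WF.le {c x : ℕ} (h : WF c x) (i : ℕ) : ln x i ≤ c := by
  have := h i
  split at this <;> omega

theorem WF.of_le {c x y : ℕ} (h : WF c x) (hy : ∀ i, ln y i ≤ ln x i) : WF c y := fun i => (hy i).trans (h i)

theorem rxsb_and (F : ℕ) (hF : ∀ i, ln F i = if i < 98 then 16383 else 0) {R : ℕ}
    (h : R &&& F = R) : WF 16383 R := fun i => by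
  have e := ln_and R F i
  rw [h, hF] at e
  rw [e]
  exact Nat.and_le_right

theorem wf_of_and {R : ℕ} (h : R &&& cF = R) : WF 16383 R := rxsb_and cF ln_cF h

theorem wf_mul_cO {c : ℕ} (hc : c < 65536) : WF c (c * cO) := fun i => (ln_mul_cO hc i).le

theorem wf_cL : WF 16383 cL := fun i => by
  rw [ln_cL]
  split
  · next h =>
    have : lo i ≤ 101 := by rw [lo_eq]; split <;> omega
    exact (Nat.mul_le_mul this this).trans (by norm_num)
  · exact le_rfl

theorem wf_cU : WF 16383 cU := fun i => by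
  rw [ln_cU]
  split
  · next h =>
    have : i + 5 ≤ 102 := by omega
    exact (Nat.mul_le_mul this this).trans (by norm_num)
  · exact le_rfl

theorem WF.add {c d a b : ℕ} (ha : WF c a) (hb : WF d b) (h : c + d < 65536) :
    WF (c + d) (a + b) ∧ ∀ i, ln (a + b) i = ln a i + ln b i := by
  have e : ∀ i, ln (a + b) i = ln a i + ln b i :=
    ln_add fun j => by have := ha.le j; have := hb.le j; omega
  refine ⟨fun i => ?_, e⟩
  have h1 := ha i
  have h2 := hb i
  rw [e]
  by_cases hi : i < 98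
  · rw [if_pos hi] at h1 h2 ⊢; omega
  · rw [if_neg hi] at h1 h2 ⊢; omega

theorem WF.seg {c R : ℕ} (h : WF c R) (y0 y1 : ℕ) : WF c (seg R y0 y1) := h.of_le fun i => by
  rw [ln_seg]; split <;> omega

theorem WF.sub_seg {c R : ℕ} (h : WF c R) (y0 y1 : ℕ) : WF c (R - RX.seg R y0 y1) := h.of_le fun i => by
  rw [ln_sub_seg]; split <;> omega

theorem WF.shl_mod {c R x : ℕ} (h : WF c R) (hx : x ≤ 97) : WF c (R <<< 16 % pw (x + 1)) := fun i => by
  rw [ln_mod]
  by_cases hi : i < x + 1
  · rw [if_pos hi, if_pos (by omega)]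
    cases i with
    | zero => rw [ln_shl_zero]; exact Nat.zero_le _
    | succ i => rw [ln_shl_succ]; exact h.le i
  · rw [if_neg hi]; exact Nat.zero_le _

theorem rxsb_hi {c x i : ℕ} (h : WF c x) (hi : ¬ i < 98) : ln x i = 0 := by
  have := h i
  rw [if_neg hi] at this
  omega

theorem rxsb_d (H : ℕ) (hH : ∀ i, ln H i = if i < 98 then 32768 else 0) {a b : ℕ}
    (ha : WF 32767 a) (hb : WF 32767 b) (i : ℕ) :
    ln (a + H - b) i = if i < 98 then ln a i + 32768 - ln b i else 0 := by
  have hW : WF 32768 H := fun j => (hH j).le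
  have e := (ha.add hW (by norm_num)).2
  rw [ln_sub, e, hH]
  · split
    · rfl
    · next h => rw [rxsb_hi ha h]; omega
  · intro j
    rw [e, hH]
    split
    · have := hb.le j; omega
    · next h => rw [rxsb_hi hb h]; omega

theorem rxsb_tsa (H : ℕ) (hH : ∀ i, ln H i = if i < 98 then 32768 else 0) {d : ℕ}
    (hd : ∀ i, ¬ i < 98 → ln d i = 0) (i : ℕ) :
    ln (d &&& (((d &&& H) >>> 15) * 32767)) i = ln d i - 32768 := by
  have e1 : ∀ j, ln (d &&& H) j = if 32768 ≤ ln d j then 32768 else 0 := by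
    intro j
    rw [ln_and, hH]
    split
    · exact and_top (ln_lt d j)
    · next h => rw [hd j h]; rfl
  have e2 : ∀ j, ln ((d &&& H) >>> 15) j = if 32768 ≤ ln d j then 1 else 0 := by
    intro j
    rw [ln_shr15 (fun l => by rw [e1]; split <;> simp), e1]
    split <;> rfl
  have e3 : ln (((d &&& H) >>> 15) * 32767) i = if 32768 ≤ ln d i then 32767 else 0 := by
    rw [mul_comm, ln_mul (fun l => by rw [e2]; split <;> omega), e2]
    split <;> rfl
  rw [ln_and, e3]
  have hl := ln_lt d i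
  split
  · have := Nat.and_two_pow_sub_one_eq_mod (ln d i) 15
    norm_num at this
    rw [this]; omega
  · rw [Nat.and_zero]; omega

theorem rxsb_tsub (H : ℕ) (hH : ∀ i, ln H i = if i < 98 then 32768 else 0) {a b : ℕ}
    (ha : WF 32767 a) (hb : WF 32767 b) (i : ℕ) :
    ln ((a + H - b) &&& ((((a + H - b) &&& H) >>> 15) * 32767)) i = ln a i - ln b i := by
  rw [rxsb_tsa H hH (fun j hj => by rw [rxsb_d H hH ha hb, if_neg hj]), rxsb_d H hH ha hb]
  split
  · omega
  · next h => rw [rxsb_hi ha h]; omega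

theorem ln_tsub {a b : ℕ} (ha : WF 32767 a) (hb : WF 32767 b) (i : ℕ) :
    ln (tsub a b) i = ln a i - ln b i := by
  rw [tsub_eq]; exact rxsb_tsub cH ln_cH ha hb i

theorem WF.tsub {c a b : ℕ} (ha : WF c a) (hc : c ≤ 32767) (hb : WF 32767 b) :
    WF c (tsub a b) := ha.of_le fun i => by
  rw [ln_tsub (ha.mono hc) hb]; exact Nat.sub_le _ _

theorem ln_vmin {a b : ℕ} (ha : WF 32767 a) (hb : WF 32767 b) (i : ℕ) :
    ln (vmin a b) i = min (ln a i) (ln b i) := by
  rw [vmin_eq, ln_sub (fun j => by rw [ln_tsub ha hb]; exact Nat.sub_le _ _), ln_tsub ha hb]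
  omega

theorem ln_vmax {a b : ℕ} (ha : WF 32767 a) (hb : WF 32767 b) (i : ℕ) :
    ln (vmax a b) i = max (ln a i) (ln b i) := by
  rw [vmax_eq, (hb.add (ha.tsub le_rfl hb) (by norm_num)).2, ln_tsub ha hb]
  omega

theorem rxsb_leq (H : ℕ) (hH : ∀ i, ln H i = if i < 98 then 32768 else 0) {a b : ℕ}
    (ha : WF 32767 a) (hb : WF 32767 b) (h : (b + H - a) &&& H = H) (i : ℕ) :
    ln a i ≤ ln b i := by
  by_cases hi : i < 98
  · have e := ln_and (b + H - a) H i
    rw [h, hH, if_pos hi, and_top (ln_lt _ _), rxsb_d H hH hb ha, if_pos hi] at e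
    split at e <;> omega
  · rw [rxsb_hi ha hi]; exact Nat.zero_le _

theorem leq_sound {a b : ℕ} (ha : WF 32767 a) (hb : WF 32767 b) (H : leq a b = true) (i : ℕ) :
    ln a i ≤ ln b i := rxsb_leq cH ln_cH ha hb (leq_iff.1 H) i

theorem rxsb_gl (H A : ℕ) (hH : ∀ i, ln H i = if i < 98 then 32768 else 0) {T U D a M : ℕ}
    (hA : ∀ i, ln A i = if i < 98 then a else 0)
    (hT : WF 16383 T) (hU : WF 16383 U) (hD : WF 16383 D) (ha : a ≤ 16383)
    (h : ((D + H - U) ||| (D + H + A - T)) &&& M = M) {i : ℕ} (hi : i < 98)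
    (hM : ln M i = 32768) : ln U i ≤ ln D i ∨ ln T i ≤ ln D i + a := by
  have hWA : WF 16383 A := WF.mono (fun j => (hA j).le) ha
  obtain ⟨w1, e1⟩ := hD.add hWA (by norm_num)
  have e := ln_and ((D + H - U) ||| (D + H + A - T)) M i
  have c : D + H + A = D + A + H := by omega
  rw [h, hM, ln_or, Nat.and_or_distrib_right, and_top (ln_lt _ _), and_top (ln_lt _ _), c,
    rxsb_d H hH (hD.mono (by norm_num)) (hU.mono (by norm_num)),
    rxsb_d H hH (w1.mono (by norm_num)) (hT.mono (by norm_num)), if_pos hi, if_pos hi, e1, hA,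
    if_pos hi] at e
  by_cases h1 : 32768 ≤ ln D i + 32768 - ln U i
  · left; omega
  · by_cases h2 : 32768 ≤ ln D i + a + 32768 - ln T i
    · right; omega
    · rw [if_neg h1, if_neg h2] at e
      exact absurd e (by decide)

theorem glS_sound {T U D a M : ℕ} (hT : WF 16383 T) (hU : WF 16383 U) (hD : WF 16383 D)
    (ha : a ≤ 16383) (H : glS T U (D + cH) a M = true) {i : ℕ} (hi : i < 98)
    (hM : ln M i = 32768) : ln U i ≤ ln D i ∨ ln T i ≤ ln D i + a :=
  rxsb_gl cH (a * cO) ln_cH (ln_mul_cO (by omega)) hT hU hD ha (glS_iff.1 H) hi hM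

end Pool.Agent.P.MP_eb61da_co.RX
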