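import Pool.Agent.P.MP_eb61da_co.RxSB
import Pool.Agent.P.MP_eb61da_co.RxSC

/-! The minimum over the rows of a bin. -/

set_option linter.unusedVariables false

namespace Pool.Agent.P.MP_eb61da_co.RX

theorem rxsd_wf_zero (c : ℕ) : WF c 0 := fun i => by rw [ln_zero]; exact Nat.zero_le _

theorem rxsd_abL (w k x : ℕ) (hx : x ≤ 97) : ∀ (n : ℕ) (r : List ℕ) (h A B : ℕ), h + n = x + 1 →
    (∀ D ∈ r, WF 16383 D) → WF 16383 A → (∀ i, h ≤ i → ln A i = 0) →
    B = abL w k x n r (16383 * pw h) A →
    WF 16383 B ∧ (B = 0 ∨ ((∀ i, i < h → ln B i ≤ ln A i) ∧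
      (∀ j D, r[j]? = some D → h + j ≤ x → ∀ y, y ≤ h + j → ln B y ≤ ln D y) ∧
      (∀ i, h + r.length ≤ i → ln B i = 0) ∧
      (h + r.length ≤ x → nofit w k (h + r.length) = true))) := by
  intro n
  induction n with
  | zero =>
    intro r h A B hn hr hA h0 hB
    rw [abL_zero] at hB
    subst hB
    exact ⟨hA, Or.inr ⟨fun i _ => le_rfl, fun j D _ hj => by omega, fun i hi => h0 i (by omega),
      fun hj => by omega⟩⟩
  | succ m ih =>
    intro r h A B hn hr hA h0 hB
    have hm : x - m = h := by omega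
    cases r with
    | nil =>
      rw [abL_nil, hm] at hB
      by_cases hf : nofit w k h = true
      · rw [if_pos hf] at hB
        subst hB
        exact ⟨hA, Or.inr ⟨fun i _ => le_rfl, fun j D hj => by simp at hj,
          fun i hi => h0 i (by omega), fun _ => hf⟩⟩
      · rw [if_neg hf] at hB
        exact ⟨hB ▸ rxsd_wf_zero _, Or.inl hB⟩
    | cons D r =>
      rw [abL_cons, pw_shl] at hB
      have hD : WF 16383 D := hr D List.mem_cons_self
      have hP : ∀ i, ln (16383 * pw h) i = if i = h then 16383 else 0 :=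
        ln_mul_pw (by norm_num) h
      have hadd : ∀ i, ln (A + 16383 * pw h) i = ln A i + if i = h then 16383 else 0 := by
        intro i
        rw [ln_add (fun i => ?_) i, hP]
        have := hA.le i
        rw [hP]
        split <;> omega
      have hAP : WF 16383 (A + 16383 * pw h) := by
        intro i
        rw [hadd]
        by_cases hi : i = h
        · rw [if_pos hi, h0 i hi.ge, if_pos (by omega)]
        · rw [if_neg hi]; exact hA i
      have hmin := ln_vmin (hAP.mono (by norm_num)) (hD.mono (by norm_num))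
      generalize vmin (A + 16383 * pw h) D = A' at hB hmin
      have hA' : WF 16383 A' := hD.of_le fun i => by rw [hmin]; exact min_le_right _ _
      have h0' : ∀ i, h + 1 ≤ i → ln A' i = 0 := fun i hi => by
        rw [hmin, hadd, h0 i (by omega), if_neg (by omega)]
        exact Nat.zero_min _
      obtain ⟨hW, hc⟩ := ih r (h + 1) A' B (by omega)
        (fun E hE => hr E (List.mem_cons_of_mem _ hE)) hA' h0' hB
      refine ⟨hW, hc.imp id ?_⟩
      rintro ⟨h1, h2, h3, h4⟩
      refine ⟨fun i hi => ?_, fun j E hj hjx y hy => ?_, fun i hi => h3 i ?_, fun hi => ?_⟩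
      · refine (h1 i (by omega)).trans ?_
        rw [hmin, hadd, if_neg (by omega)]
        exact min_le_left _ _
      · cases j with
        | zero =>
          obtain rfl : D = E := by simpa using hj
          refine (h1 y (by omega)).trans ?_
          rw [hmin]
          exact min_le_right _ _
        | succ j =>
          exact h2 j E (by simpa using hj) (by omega) y (by omega)
      · rw [List.length_cons] at hi; omega
      · rw [List.length_cons] at hi ⊢
        have e : h + (r.length + 1) = h + 1 + r.length := by omega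
        rw [e]
        exact h4 (by omega)

theorem abar_sound {ρ : ℝ} (hρ : Rh ρ) {t : Tb} {w k x : ℕ} (y0 : ℕ)
    (hg : Good ρ w k (tab t w k)) (hx : x ≤ 97) : WF 16383 (abar t w k x y0) ∧
      ∀ y z S, Rej ρ w k x y z S → (ln (abar t w k x y0) y : ℝ) ≤ area S := by
  rw [abar_eq]
  generalize tab t w k = r at hg
  have hz : ∀ (y : ℕ) (S : Multiset ℝ), (ln 0 y : ℝ) ≤ area S := fun y S => by
    rw [ln_zero]; simpa using area_nonneg S
  by_cases hy0 : y0 ≤ x + 1
  swap
  · have e : x + 1 - y0 = 0 := by omega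
    rw [e, abL_zero]
    exact ⟨rxsd_wf_zero _, fun y z S _ => hz y S⟩
  have hr : ∀ D ∈ r.drop y0, WF 16383 D := fun D hD => by
    obtain ⟨i, hi⟩ := List.getElem?_of_mem (List.mem_of_mem_drop hD)
    exact (hg i D hi).1
  obtain ⟨hW, hc⟩ := rxsd_abL w k x hx (x + 1 - y0) (r.drop y0) y0 0 _ (by omega) hr
    (rxsd_wf_zero _) (fun i _ => ln_zero i) rfl
  generalize abL w k x (x + 1 - y0) (r.drop y0) (16383 * pw y0) 0 = B at hW hc
  refine ⟨hW, fun y z S H => ?_⟩
  rcases hc with rfl | ⟨h1, h2, h3, h4⟩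
  · exact hz y S
  by_cases hB : ln B y = 0
  · rw [hB]; simpa using area_nonneg S
  have hy1 : y0 ≤ y := by
    by_contra hlt
    have := h1 y (by omega)
    rw [ln_zero] at this
    omega
  have hy2 : y < y0 + (r.drop y0).length := by
    by_contra hlt
    exact hB (h3 y (by omega))
  obtain ⟨h', hyh, hhx, hor, htop⟩ := H.top
  have hh : h' < y0 + (r.drop y0).length := by
    rcases hor with rfl | ⟨g, hgS, hgc⟩
    · exact hy2
    · by_contra hlt
      have := hgc.lt_of_le_lo (nofit_sound hρ (h4 (by omega)) H.1 g hgS)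
      omega
  obtain ⟨j, rfl⟩ : ∃ j, h' = y0 + j := ⟨h' - y0, by omega⟩
  have hj : j < (r.drop y0).length := by omega
  have hD : (r.drop y0)[j]? = some (r.drop y0)[j] := List.getElem?_eq_getElem hj
  generalize (r.drop y0)[j] = D at hD
  have hle := h2 j D hD hhx y hyh
  rw [List.getElem?_drop] at hD
  have := htop y _ H.2.2.1 ((hg _ D hD).2 y)
  exact le_trans (by exact_mod_cast hle) this

theorem exL_sound {ρ : ℝ} (hρ : Rh ρ) {t : Tb} {x : ℕ} (y0 : ℕ) (hx : x ≤ 97) :
    ∀ (ex : List (ℕ × ℕ)) (c T : ℕ), (∀ b ∈ ex, Good ρ b.1 b.2 (tab t b.1 b.2)) → WF 16383 T →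
      WF 16383 (exL t x y0 ex c T) ∧ ∀ y z A, Ref (Pk ρ) z ex A → Cls y z → (∀ a ∈ A, z ≤ a) →
        (∀ a ∈ z ::ₘ A, a ≤ (x : ℝ) + 5) →
        (ln T y : ℝ) ≤ ln (exL t x y0 ex c T) y + area A := by
  intro ex
  induction ex with
  | nil =>
    intro c T _ hT
    rw [exL_nil]
    exact ⟨hT, fun y z A _ _ _ _ => le_add_of_nonneg_right (area_nonneg A)⟩
  | cons b ex ih =>
    intro c T hg hT
    have hg' : ∀ b ∈ ex, Good ρ b.1 b.2 (tab t b.1 b.2) :=
      fun b hb => hg b (List.mem_cons_of_mem _ hb)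
    have hsub : ∀ {z : ℝ} {S R U : Multiset ℝ}, (∀ a ∈ U, a ∈ S + R) →
        (∀ a ∈ z ::ₘ (S + R), a ≤ (x : ℝ) + 5) → ∀ a ∈ z ::ₘ U, a ≤ (x : ℝ) + 5 := by
      intro z S R U hU h a ha
      rcases Multiset.mem_cons.1 ha with rfl | ha
      · exact h _ (Multiset.mem_cons_self _ _)
      · exact h a (Multiset.mem_cons_of_mem (hU a ha))
    rcases exL_cons t x y0 b ex c T with e | e
    · rw [e]
      obtain ⟨hW, H⟩ := ih (c >>> 1) T hg' hT
      refine ⟨hW, ?_⟩
      rintro y z A ⟨S, R, rfl, h1, h2, h3⟩ hc hz hu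
      have hR : ∀ a ∈ R, a ∈ S + R := fun a ha => Multiset.mem_add.2 (Or.inr ha)
      have := H y z R h3 hc (fun a ha => hz a (hR a ha)) (hsub hR hu)
      have h4 := area_nonneg S
      rw [area_add]
      linarith
    · rw [e]
      obtain ⟨hB, hB'⟩ := abar_sound hρ y0 (hg b List.mem_cons_self) hx
      generalize abar t b.1 b.2 x y0 = B at hB hB'
      have hT' : WF 16383 (tsub T B) := hT.tsub (by norm_num) (hB.mono (by norm_num))
      have hl := ln_tsub (hT.mono (by norm_num)) (hB.mono (by norm_num))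
      generalize tsub T B = T' at hT' hl
      obtain ⟨hW, H⟩ := ih (c >>> 1) T' hg' hT'
      refine ⟨hW, ?_⟩
      rintro y z A ⟨S, R, rfl, h1, h2, h3⟩ hc hz hu
      have hR : ∀ a ∈ R, a ∈ S + R := fun a ha => Multiset.mem_add.2 (Or.inr ha)
      have hS : ∀ a ∈ S, a ∈ S + R := fun a ha => Multiset.mem_add.2 (Or.inl ha)
      have h4 := H y z R h3 hc (fun a ha => hz a (hR a ha)) (hsub hR hu)
      have h5 := hB' y z S ⟨h1, h2, hc, fun a ha => hz a (hS a ha), hsub hS hu⟩
      have h6 : ln T y ≤ ln T' y + ln B y := by rw [hl]; omega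
      have h7 : (ln T y : ℝ) ≤ ln T' y + ln B y := by exact_mod_cast h6
      rw [area_add]
      linarith

end Pool.Agent.P.MP_eb61da_co.RX
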