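import Pool.Agent.P.MP_eb61da_co.RxSB
import Pool.Agent.P.MP_eb61da_co.RxSC

/-! The second bin. -/

set_option linter.unusedVariables false

namespace Pool.Agent.P.MP_eb61da_co.RX

theorem glL_sound {w k x T U y0 A0 : ℕ} (hx : x ≤ 97) (hT : WF 16383 T) (hU : WF 16383 U)
    (hA : WF 16383 A0) : ∀ (n h : ℕ) (r : List ℕ) (M : ℕ), h + n = x + 1 → y0 ≤ h →
      (∀ D ∈ r, WF 16383 D) → (∀ i, ln M i = if y0 ≤ i ∧ i < h then 32768 else 0) →
      glL w k x T U n r (32768 * pw h) M (A0 >>> (16 * h)) = true →
      (∀ j D, r[j]? = some D → h + j ≤ x → ∀ y, y0 ≤ y → y ≤ h + j →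
        ln U y ≤ ln D y ∨ ln T y ≤ ln D y + ln A0 (h + j)) ∧
      (h + r.length ≤ x → nofit w k (h + r.length) = true ∧
        ∀ y, h + r.length ≤ y → y ≤ x → ln U y = 0) := by
  intro n
  induction n with
  | zero =>
    intro h r M hn _ _ _ _
    exact ⟨fun j D _ hj => absurd hj (by omega), fun hj => absurd hj (by omega)⟩
  | succ m ih =>
    intro h r M hn hy hr hM H
    have hxm : x - m = h := by omega
    cases r with
    | nil =>
      obtain ⟨H1, H2⟩ := glL_nil.1 H
      rw [hxm] at H1 H2
      refine ⟨fun j D hj => absurd hj (by simp), fun _ => ⟨H1, fun y hy1 hy2 => ?_⟩⟩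
      have e1 := ln_of_lt H2 (show h ≤ y from hy1)
      rw [ln_mod, if_pos (by omega)] at e1
      exact e1
    | cons D r =>
      obtain ⟨H1, H2⟩ := glL_cons.1 H
      have ea : A0 >>> (16 * h) &&& 65535 = ln A0 h := by
        rw [← ln_lane0, ln_shr, Nat.add_zero]
      have eA : A0 >>> (16 * h) >>> 16 = A0 >>> (16 * (h + 1)) := by
        rw [← Nat.shiftRight_add, Nat.mul_add, Nat.mul_one]
      have hM' : ∀ i, ln (M + 32768 * pw h) i = if y0 ≤ i ∧ i < h + 1 then 32768 else 0 := by
        intro i
        rw [ln_add, hM, ln_mul_pw (by norm_num)]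
        · split_ifs <;> omega
        · intro j
          rw [hM, ln_mul_pw (by norm_num)]
          split_ifs <;> omega
      rw [ea] at H1
      rw [eA, pw_shl] at H2
      obtain ⟨I1, I2⟩ := ih (h + 1) r (M + 32768 * pw h) (by omega) (by omega)
        (fun D' hD' => hr D' (List.mem_cons_of_mem _ hD')) hM' H2
      refine ⟨fun j D' hj hjx y hy1 hy2 => ?_, fun hl => ?_⟩
      · cases j with
        | zero =>
          have eD : D = D' := by simpa using hj
          subst eD
          have hm : ln (M + 32768 * pw h) y = 32768 := by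
            rw [hM', if_pos (by omega)]
          exact glS_sound hT hU (hr D List.mem_cons_self) (hA.le h) H1 (by omega) hm
        | succ j =>
          have := I1 j D' (by simpa using hj) (by omega) y hy1 (by omega)
          rwa [show h + 1 + j = h + (j + 1) by omega] at this
      · rw [List.length_cons] at hl ⊢
        have := I2 (by omega)
        rwa [show h + 1 + r.length = h + (r.length + 1) by omega] at this

theorem core3_sound {ρ : ℝ} (hρ : Rh ρ) {t : Tb} {qa qb x y0 T A : ℕ}
    (gq : Good ρ qa qb (tab t qa qb)) (hx : x ≤ 97) (hT : WF 16383 T) (hA : WF 16383 A)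
    (H : core3 t qa qb x y0 T A = true) {y : ℕ} {z s : ℝ} {S : Multiset ℝ} (hy : y0 ≤ y)
    (hR : Rej ρ qa qb x y z S) (h1 : (ln A y : ℝ) ≤ s)
    (h2 : ∀ g, ∀ a ∈ S, Cls g a → (ln A g : ℝ) ≤ s) : (ln T y : ℝ) ≤ s + area S := by
  rw [core3_eq] at H
  obtain ⟨g, hyg, hgx, hg, hcl⟩ := hR.top
  have hA' : WF 32767 A := hA.mono (by norm_num)
  have hT' : WF 32767 T := hT.mono (by norm_num)
  have hU : WF 16383 (tsub T A) := hT.tsub (by norm_num) hA'
  have eU : ln (tsub T A) y = ln T y - ln A y := ln_tsub hT' hA' y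
  have hrows : ∀ D ∈ (tab t qa qb).drop y0, WF 16383 D := by
    intro D hD
    obtain ⟨i, hi⟩ := List.mem_iff_getElem?.1 (List.mem_of_mem_drop hD)
    exact (gq i D hi).1
  obtain ⟨I1, I2⟩ := glL_sound (y0 := y0) hx hT hU hA (x + 1 - y0) y0 ((tab t qa qb).drop y0) 0
    (by omega) le_rfl hrows (fun i => by rw [ln_zero, if_neg (by omega)]) H
  have hS := area_nonneg S
  have hAg : (ln A g : ℝ) ≤ s := by
    rcases hg with e | ⟨a, ha, hc⟩
    · rw [e]; exact h1
    · exact h2 g a ha hc
  by_cases he : y0 + ((tab t qa qb).drop y0).length ≤ y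
  · have e0 := (I2 (by omega)).2 y he (by omega)
    have : ln T y ≤ ln A y := by omega
    have : (ln T y : ℝ) ≤ ln A y := by exact_mod_cast this
    linarith
  · have hge : g < y0 + ((tab t qa qb).drop y0).length := by
      rcases hg with e | ⟨a, ha, hc⟩
      · omega
      · by_contra hcon
        have hn := (I2 (by omega)).1
        have := hc.lt_of_le_lo (nofit_sound hρ hn hR.1 a ha)
        omega
    have hj : g - y0 < ((tab t qa qb).drop y0).length := by omega
    have eD : ((tab t qa qb).drop y0)[g - y0]? = some ((tab t qa qb).drop y0)[g - y0] :=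
      List.getElem?_eq_getElem hj
    generalize ((tab t qa qb).drop y0)[g - y0] = D at eD
    have eg : y0 + (g - y0) = g := by omega
    have eD' : (tab t qa qb)[g]? = some D := by
      rw [List.getElem?_drop, eg] at eD
      exact eD
    have hD : (ln D y : ℝ) ≤ area S := hcl y _ hR.2.2.1 ((gq g D eD').2 y)
    have := I1 (g - y0) D eD (by omega) y hy (by omega)
    rw [eg] at this
    rcases this with h | h
    · have : ln T y ≤ ln A y + ln D y := by omega
      have : (ln T y : ℝ) ≤ ln A y + ln D y := by exact_mod_cast this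
      linarith
    · have : (ln T y : ℝ) ≤ ln D y + ln A g := by exact_mod_cast h
      linarith

end Pool.Agent.P.MP_eb61da_co.RX
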