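import Pool.Agent.P.MP_eb61da_co.RxSD
import Pool.Agent.P.MP_eb61da_co.RxSE

/-! The first fit bound. -/

set_option linter.unusedVariables false

namespace Pool.Agent.P.MP_eb61da_co.RX

theorem rxsf_step {a b x : ℕ} (hx : x ≤ 97) (ha : WF 16383 a) (hb : WF 16383 b)
    (H : leq (a <<< 16 % pw (x + 1)) b = true) {i : ℕ} (hi : i < x) : ln a i ≤ ln b (i + 1) := by
  have h := leq_sound ((ha.shl_mod hx).mono (by norm_num)) (hb.mono (by norm_num)) H (i + 1)
  rw [ln_mod, if_pos (by omega), ln_shl_succ] at h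
  exact h

theorem rxsf_chain {R P x y : ℕ} (hx : x ≤ 97) (hR : WF 16383 R) (hP : WF 16383 P)
    (h1 : leq (R <<< 16 % pw (x + 1)) P = true) (h2 : leq (P <<< 16 % pw (x + 1)) P = true) :
    ∀ n, y + n + 1 ≤ x → ln R y ≤ ln P (y + n + 1) := by
  intro n
  induction n with
  | zero => intro h; exact rxsf_step hx hR hP h1 (by omega)
  | succ n ih =>
    intro h
    exact (ih (by omega)).trans (rxsf_step hx hP hP h2 (i := y + n + 1) (by omega))

theorem rxsf_area_le {S T : Multiset ℝ} (h : S ≤ T) : area S ≤ area T := by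
  obtain ⟨U, rfl⟩ := Multiset.le_iff_exists_add.1 h
  rw [area_add]
  linarith [area_nonneg U]

theorem rxsf_lane {R P l2 i : ℕ} (hR : WF 16383 R) (hP : WF 16383 P) (hl : l2 ≤ 16383) :
    WF 16383 (tsub (vmax R (tsub P cL)) (l2 * cO)) ∧ (i < 98 →
      ln R i ≤ l2 + ln (tsub (vmax R (tsub P cL)) (l2 * cO)) i ∧
      ln P i ≤ lo i * lo i + l2 + ln (tsub (vmax R (tsub P cL)) (l2 * cO)) i) := by
  have wL : WF 32767 cL := wf_cL.mono (by norm_num)
  have w1 : WF 16383 (tsub P cL) := hP.tsub (by norm_num) wL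
  have e1 := ln_vmax (hR.mono (d := 32767) (by norm_num)) (w1.mono (d := 32767) (by norm_num))
  have w2 : WF 16383 (vmax R (tsub P cL)) := fun j => by
    rw [e1 j]; exact max_le (hR j) (w1 j)
  have w3 : WF 32767 (l2 * cO) := (wf_mul_cO (by omega)).mono (by omega)
  refine ⟨w2.tsub (by norm_num) w3, fun hi => ?_⟩
  rw [ln_tsub (w2.mono (by norm_num)) w3, e1, ln_tsub (hP.mono (by norm_num)) wL,
    ln_mul_cO (by omega), ln_cL, if_pos hi, if_pos hi]
  generalize lo i * lo i = u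
  omega

theorem core_sound {ρ : ℝ} (hρ : Rh ρ) {t : Tb} {ex : List (ℕ × ℕ)}
    {c pa pb qa qb x y0 R m l2 : ℕ} (gp : Good ρ pa pb (tab t pa pb))
    (gq : Good ρ qa qb (tab t qa qb)) (ge : ∀ b ∈ ex, Good ρ b.1 b.2 (tab t b.1 b.2))
    (hR : WF 16383 R) (H : core t ex c pa pb qa qb x y0 R m l2 = true) {y : ℕ} {z : ℝ}
    {S : Multiset ℝ} (hy : y0 ≤ y) (hz : Cls y z) (hS : ∀ a ∈ S, z ≤ a)
    (hx : ∀ a ∈ z ::ₘ S, a ≤ (x : ℝ) + 5)
    (hn : ¬ Packs (Pk ρ) ((pa, pb) :: (qa, qb) :: ex) (z ::ₘ S)) :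
    (ln R y : ℝ) ≤ l2 + area S := by
  obtain ⟨P, hx97, hl2, hPF, hRP, hPP, h3⟩ := core_spec H
  have hP := wf_of_and hPF
  have h0 : ∀ b, Pk ρ b 0 := fun b => G.nil (Nat.cast_nonneg _) (Nat.cast_nonneg _)
  rcases ff2 (Pk ρ) (pa, pb) (qa, qb) ex h0 (z ::ₘ S) with
    h | ⟨z', S1, S2, A, B, hM, p1, n1, p2, n2, rA, hge, hB, hg⟩
  · exact absurd h hn
  have hup : ∀ a ∈ z' ::ₘ (S1 + S2 + A + B), a ≤ (x : ℝ) + 5 := fun a ha => hx a (hM ▸ ha)
  have hzz : z ≤ z' := by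
    have : z' ∈ z ::ₘ S := hM ▸ Multiset.mem_cons_self _ _
    rcases Multiset.mem_cons.1 this with h | h
    · exact h.ge
    · exact hS _ h
  have hz0 := hz.pos
  have hz'x : z' ≤ (x : ℝ) + 5 := hup _ (Multiset.mem_cons_self _ _)
  obtain ⟨y', hy'x, cy'⟩ := exists_cls (hz0.trans_le hzz) hz'x
  have hyy : y ≤ y' := hz.mono cy' hzz
  have u1 : ∀ a ∈ S1, a ≤ (x : ℝ) + 5 := fun a ha => hup a (by simp [ha])
  have u2 : ∀ a ∈ S2, a ≤ (x : ℝ) + 5 := fun a ha => hup a (by simp [ha])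
  have u3 : ∀ a ∈ A, a ≤ (x : ℝ) + 5 := fun a ha => hup a (by simp [ha])
  have uc : ∀ {w : ℝ} {T : Multiset ℝ}, w ≤ (x : ℝ) + 5 → (∀ a ∈ T, a ≤ (x : ℝ) + 5) →
      ∀ a ∈ w ::ₘ T, a ≤ (x : ℝ) + 5 := fun hw hT a ha => by
    rcases Multiset.mem_cons.1 ha with h | h
    · exact h ▸ hw
    · exact hT a h
  obtain ⟨wT, hT⟩ := rxsf_lane (i := y') hR hP hl2
  obtain ⟨t1, t2⟩ := hT (by omega)
  obtain ⟨wE, hE⟩ := exL_sound hρ y0 hx97 ex c _ ge wT
  have e1 := hE y' z' A rA cy' (fun a ha => hge a (by simp [ha])) (uc hz'x u3)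
  obtain ⟨wA, hA⟩ := abar_sound hρ y0 gp hx97
  have e2 := core3_sound hρ gq hx97 wE wA h3 (hy.trans hyy) (s := area S1)
    ⟨p2, n2, cy', fun a ha => hge a (by simp [ha]), uc hz'x u2⟩
    (hA y' z' S1 ⟨p1, n1, cy', fun a ha => hge a (by simp [ha]), uc hz'x u1⟩)
    (fun g a ha cg => by
      obtain ⟨S', hle, q1, q2, q3⟩ := hg a ha
      exact (hA g a S' ⟨q1, q2, cg, q3,
        uc (u2 a ha) fun b hb => u1 b (Multiset.mem_of_le hle hb)⟩).trans (rxsf_area_le hle))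
  have ea := congrArg area hM
  rw [area_cons, area_cons, area_add, area_add, area_add] at ea
  generalize ln (exL t x y0 ex c (tsub (vmax R (tsub P cL)) (l2 * cO))) y' = E at e1 e2
  generalize ln (tsub (vmax R (tsub P cL)) (l2 * cO)) y' = T at e1 t1 t2
  have hB0 := area_nonneg B
  rcases hyy.eq_or_lt with h | h
  · subst h
    have t1' : (ln R y : ℝ) ≤ l2 + T := by exact_mod_cast t1
    nlinarith [mul_self_le_mul_self hz0.le hzz]
  · obtain ⟨n, rfl⟩ := Nat.exists_eq_add_of_lt h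
    have c1 := (rxsf_chain hx97 hR hP hRP hPP n hy'x).trans t2
    have c2 : (ln R y : ℝ) ≤ (lo (y + n + 1) : ℝ) * lo (y + n + 1) + l2 + T := by
      exact_mod_cast c1
    have l1 : z ≤ lo (y + n + 1) := hz.le_lo h
    have l2' : (lo (y + n + 1) : ℝ) < z' := cy'.1
    have hzB : z ∈ B := by
      have : z ∈ z' ::ₘ (S1 + S2 + A + B) := hM ▸ Multiset.mem_cons_self _ _
      rcases Multiset.mem_cons.1 this with h' | h'
      · linarith
      · rcases Multiset.mem_add.1 h' with h'' | h''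
        · linarith [hge z h'']
        · exact h''
    obtain ⟨B', rfl⟩ := Multiset.exists_cons_of_mem hzB
    rw [area_cons] at ea
    have := area_nonneg B'
    have := mul_self_le_mul_self (Nat.cast_nonneg (lo (y + n + 1))) l2'.le
    linarith

end Pool.Agent.P.MP_eb61da_co.RX
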