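import Pool.Agent.P.MP_eb61da_co.RxSC

/-! Area rules for squares. -/

set_option linter.unusedVariables false

namespace Pool.Agent.P.MP_eb61da_co.RX

theorem rxsg_bin {ρ : ℝ} (hρ : Rh ρ) {w k : ℕ} {S : Multiset ℝ}
    (H : G 1 1 (((160000 * w / 11957 : ℕ) : ℝ) / 16) (((16 * k : ℕ) : ℝ) / 16) S) :
    G ρ 1 w k S := by
  obtain ⟨h1, h2⟩ := hρ
  have hρ0 : 0 ≤ ρ := le_trans (by norm_num) h1
  have H1 := G.scale hρ0 zero_le_one H
  refine H1.mono ?_ ?_
  · have h3 : ((160000 * w / 11957 : ℕ) : ℝ) ≤ ((160000 * w : ℕ) : ℝ) / ((11957 : ℕ) : ℝ) :=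
      Nat.cast_div_le
    have h4 : (0 : ℝ) ≤ ((160000 * w / 11957 : ℕ) : ℝ) := Nat.cast_nonneg _
    generalize ((160000 * w / 11957 : ℕ) : ℝ) = x at h3 h4
    push_cast at h3
    have h5 : ρ * x ≤ 11957 / 10000 * x := mul_le_mul_of_nonneg_right h2 h4
    linarith
  · push_cast; linarith

theorem sq_bin {ρ : ℝ} (hρ : Rh ρ) {w k o : ℕ} (ho : o ≤ 1) {S : Multiset ℝ}
    (H : G 1 1 ((sqa w o : ℝ) / 16) ((sqa k (1 - o) : ℝ) / 16) S) : G ρ 1 w k S := by
  rw [sqa_eq, sqa_eq] at H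
  rcases Nat.le_one_iff_eq_zero_or_eq_one.1 ho with rfl | rfl
  · rw [if_pos rfl, if_neg (by norm_num)] at H
    exact rxsg_bin hρ H
  · rw [if_neg (by norm_num), if_pos (by norm_num)] at H
    exact (rxsg_bin hρ H.swap).swap

theorem mm_real {a b U l u : ℕ} {z : ℝ} {S : Multiset ℝ} (ha : 16 * U ≤ a) (hb : 16 * U ≤ b)
    (hn : ¬ G 1 1 ((a : ℝ) / 16) ((b : ℝ) / 16) (z ::ₘ S)) (hz : 0 < z) (hu : z ≤ u)
    (hS : ∀ c ∈ S, z ≤ c) (hU : ∀ c ∈ z ::ₘ S, c ≤ (U : ℝ)) (hl : ∃ c ∈ z ::ₘ S, (l : ℝ) < c) :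
    (((a - 16 * U) * (b - 16 * U) / 256 + (l * l - u * u) : ℕ) : ℝ) ≤ area S := by
  obtain ⟨m, T, e, hm⟩ := exists_max (z ::ₘ S) (Multiset.cons_ne_zero)
  have hzall : ∀ c ∈ z ::ₘ S, z ≤ c := by
    intro c hc
    rcases Multiset.mem_cons.1 hc with rfl | hc
    · exact le_rfl
    · exact hS c hc
  have hmall : ∀ c ∈ z ::ₘ S, c ≤ m := by
    intro c hc
    rw [e] at hc
    rcases Multiset.mem_cons.1 hc with rfl | hc
    · exact le_rfl
    · exact hm c hc
  have hmmem : m ∈ z ::ₘ S := by rw [e]; exact Multiset.mem_cons_self _ _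
  have hmU : m ≤ U := hU m hmmem
  have hzm : z ≤ m := hzall m hmmem
  have ha' : (16 : ℝ) * U ≤ a := by exact_mod_cast ha
  have hb' : (16 : ℝ) * U ≤ b := by exact_mod_cast hb
  have hT : ∀ c ∈ T, 0 ≤ c ∧ c ≤ m := by
    intro c hc
    have hc' : c ∈ z ::ₘ S := by rw [e]; exact Multiset.mem_cons_of_mem hc
    exact ⟨hz.le.trans (hzall c hc'), hm c hc⟩
  have hA : ((a : ℝ) / 16 - m) * ((b : ℝ) / 16 - m) < area T := by
    by_contra hc
    push Not at hc
    apply hn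
    rw [e]
    exact meirMoser (hz.le.trans hzm) (by linarith) (by linarith) hT hc
  have hE : z * z + area S = m * m + area T := by
    rw [← area_cons, ← area_cons, e]
  have h1 : (((a - 16 * U) * (b - 16 * U) / 256 : ℕ) : ℝ) ≤
      ((a : ℝ) / 16 - m) * ((b : ℝ) / 16 - m) := by
    refine le_trans Nat.cast_div_le ?_
    rw [Nat.cast_mul, Nat.cast_sub ha, Nat.cast_sub hb]
    push_cast
    have h2 : ((a : ℝ) / 16 - U) * ((b : ℝ) / 16 - U) ≤ ((a : ℝ) / 16 - m) * ((b : ℝ) / 16 - m) :=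
      mul_le_mul (by linarith) (by linarith) (by linarith) (by linarith)
    have h3 : ((a : ℝ) - 16 * U) * ((b : ℝ) - 16 * U) / 256 =
        ((a : ℝ) / 16 - U) * ((b : ℝ) / 16 - U) := by ring
    linarith
  have h2 : ((l * l - u * u : ℕ) : ℝ) ≤ m * m - z * z := by
    obtain ⟨c, hc, hlc⟩ := hl
    have hlm : (l : ℝ) ≤ m := hlc.le.trans (hmall c hc)
    have h3 : z * z ≤ m * m := mul_self_le_mul_self hz.le hzm
    have h4 : (l : ℝ) * l ≤ m * m := mul_self_le_mul_self (Nat.cast_nonneg _) hlm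
    have h5 : z * z ≤ (u : ℝ) * u := mul_self_le_mul_self hz.le hu
    rcases le_total (l * l) (u * u) with h | h
    · rw [Nat.sub_eq_zero_of_le h]; push_cast; linarith
    · rw [Nat.cast_sub h]; push_cast; linarith
  rw [Nat.cast_add]
  linarith

theorem rxsg_cs (t : ℝ) (S : Multiset ℝ) :
    2 * t * S.sum - (Multiset.card S : ℝ) * (t * t) ≤ area S := by
  induction S using Multiset.induction_on with
  | empty => simp
  | cons a S ih =>
    rw [area_cons, Multiset.sum_cons, Multiset.card_cons]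
    push_cast
    nlinarith [mul_self_nonneg (a - t)]

theorem rxsg_rv {U l d : ℕ} {S : Multiset ℝ} (hl : ∀ c ∈ S, (l : ℝ) ≤ c)
    (hU : ∀ c ∈ S, c ≤ (U : ℝ)) (hd : d ≠ 0 → (d : ℝ) / 16 < S.sum) :
    ((rv1 U l d : ℕ) : ℝ) ≤ area S := by
  rw [rv1_eq]
  by_cases h0 : d * l = 0
  · rw [if_pos h0]; simpa using area_nonneg S
  rw [if_neg h0]
  have hd0 : d ≠ 0 := fun h => h0 (by rw [h, zero_mul])
  have hs := hd hd0
  generalize d / (16 * l) = s
  have c1 := area_ge_card (Nat.cast_nonneg l) hl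
  have c2 := sum_le_card hU
  rcases Nat.lt_or_ge s (Multiset.card S) with hn | hn
  · have h1 : (((s + 1) * l * l : ℕ) : ℝ) ≤ area S := by
      have h2 : ((s : ℝ) + 1) ≤ (Multiset.card S : ℝ) := by exact_mod_cast hn
      have h3 := mul_le_mul_of_nonneg_right h2 (mul_self_nonneg (l : ℝ))
      push_cast
      linarith
    split_ifs with h
    · exact le_trans (by exact_mod_cast min_le_left _ _) h1
    · exact h1
  · have hn' : (Multiset.card S : ℝ) ≤ s := by exact_mod_cast hn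
    have hU0 : (0 : ℝ) ≤ U := Nat.cast_nonneg _
    have h1 : (d : ℝ) / 16 < s * U := by
      have := mul_le_mul_of_nonneg_right hn' hU0
      linarith
    have h2 : d ≤ 16 * s * U := by
      have : (d : ℝ) ≤ 16 * s * U := by linarith
      exact_mod_cast this
    rw [if_pos h2]
    have hd1 : (0 : ℝ) ≤ d := Nat.cast_nonneg _
    have hs0 : (0 : ℝ) < s := by
      rcases Nat.eq_zero_or_pos s with h | h
      · subst h
        simp only [Nat.cast_zero, zero_mul] at h1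
        linarith
      · exact_mod_cast h
    have h3 : ((d * d / (256 * s) : ℕ) : ℝ) ≤ area S := by
      refine le_trans Nat.cast_div_le ?_
      push_cast
      have h4 := rxsg_cs ((d : ℝ) / (16 * s)) S
      have ht : (0 : ℝ) ≤ (d : ℝ) / (16 * s) := by positivity
      have h5 := mul_le_mul_of_nonneg_right hn' (mul_self_nonneg ((d : ℝ) / (16 * s)))
      have h6 := mul_le_mul_of_nonneg_left hs.le ht
      have h7 : (d : ℝ) * d / (256 * s) = 2 * ((d : ℝ) / (16 * s) * ((d : ℝ) / 16)) -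
          s * ((d : ℝ) / (16 * s) * ((d : ℝ) / (16 * s))) := by
        field_simp
        ring
      rw [h7]
      linarith
    exact le_trans (by exact_mod_cast min_le_right _ _) h3

theorem row_real {a b U l y : ℕ} {z : ℝ} {S : Multiset ℝ} (ha : 16 * U ≤ a) (hb : 16 * U ≤ b)
    (hn : ¬ G 1 1 ((a : ℝ) / 16) ((b : ℝ) / 16) (z ::ₘ S)) (hz : Cls y z)
    (hS : ∀ c ∈ S, z ≤ c) (hU : ∀ c ∈ z ::ₘ S, c ≤ (U : ℝ)) (hl : ∃ c ∈ z ::ₘ S, (l : ℝ) < c) :
    ((l * l + rv1 U (lo y) (max a b - 16 * (U + (y + 5))) : ℕ) : ℝ) ≤ area S := by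
  obtain ⟨hz1, hz2⟩ := hz
  have hz0 : 0 ≤ z := le_trans (Nat.cast_nonneg _) hz1.le
  have ha' : (16 : ℝ) * U ≤ a := by exact_mod_cast ha
  have hb' : (16 : ℝ) * U ≤ b := by exact_mod_cast hb
  have hU0 : (0 : ℝ) ≤ U := Nat.cast_nonneg _
  have hall : ∀ c ∈ z ::ₘ S, 0 ≤ c ∧ c ≤ (U : ℝ) := by
    intro c hc
    refine ⟨?_, hU c hc⟩
    rcases Multiset.mem_cons.1 hc with rfl | hc
    · exact hz0
    · exact hz0.trans (hS c hc)
  have hsum : ((max a b : ℕ) : ℝ) / 16 < z + S.sum := by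
    by_contra hc
    push Not at hc
    rw [← Multiset.sum_cons] at hc
    have H := row_G hU0 hall hc
    apply hn
    rcases le_total a b with h | h
    · rw [max_eq_right h] at H
      exact H.swap.mono (by linarith) le_rfl
    · rw [max_eq_left h] at H
      exact H.mono le_rfl (by linarith)
  have hzU : z ≤ U := hU z (Multiset.mem_cons_self _ _)
  have hM : (a : ℝ) ≤ ((max a b : ℕ) : ℝ) := by exact_mod_cast le_max_left a b
  have hS0 : S ≠ 0 := by
    rintro rfl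
    simp only [Multiset.sum_zero, add_zero] at hsum
    linarith
  obtain ⟨m, T, rfl, hm⟩ := exists_max S hS0
  have hzm : z ≤ m := hS m (Multiset.mem_cons_self _ _)
  have hmU : m ≤ U := hU m (Multiset.mem_cons_of_mem (Multiset.mem_cons_self _ _))
  have hlm : (l : ℝ) ≤ m := by
    obtain ⟨c, hc, hlc⟩ := hl
    rcases Multiset.mem_cons.1 hc with rfl | hc
    · exact hlc.le.trans hzm
    · rcases Multiset.mem_cons.1 hc with rfl | hc
      · exact hlc.le
      · exact hlc.le.trans (hm c hc)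
  have h1 : (l : ℝ) * l ≤ m * m := mul_self_le_mul_self (Nat.cast_nonneg _) hlm
  have h2 : ((rv1 U (lo y) (max a b - 16 * (U + (y + 5))) : ℕ) : ℝ) ≤ area T := by
    refine rxsg_rv (fun c hc => hz1.le.trans (hS c (Multiset.mem_cons_of_mem hc)))
      (fun c hc => hU c (Multiset.mem_cons_of_mem (Multiset.mem_cons_of_mem hc))) ?_
    intro hd
    have h3 : 16 * (U + (y + 5)) ≤ max a b := by omega
    rw [Nat.cast_sub h3]
    rw [Multiset.sum_cons] at hsum
    generalize ((max a b : ℕ) : ℝ) = M at hsum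
    push_cast
    linarith
  rw [Nat.cast_add, Nat.cast_mul, area_cons]
  linarith

end Pool.Agent.P.MP_eb61da_co.RX
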