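import Pool.Agent.P.MP_eb61da_co.RxSF
import Pool.Agent.P.MP_eb61da_co.RxSG

/-! One strategy. -/

set_option linter.unusedVariables false

namespace Pool.Agent.P.MP_eb61da_co.RX

theorem rowL_sound {C U l2 : ℕ} : ∀ (n y0 R : ℕ), rowL C U l2 n y0 R = true → ∀ j, j < n →
    ln R j ≤ l2 + rv1 U (lo (y0 + j)) (C - 16 * (U + (y0 + j + 5))) := by
  intro n
  induction n with
  | zero => intro y0 R _ j hj; omega
  | succ n ih =>
    intro y0 R H j hj
    obtain ⟨h1, h2⟩ := rowL_succ.1 H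
    cases j with
    | zero => rw [ln_lane0]; exact h1
    | succ j =>
      have h3 := ih (y0 + 1) (R >>> 16) h2 j (by omega)
      rw [ln_shr1] at h3
      have e : y0 + 1 + j = y0 + (j + 1) := by omega
      rw [e] at h3
      exact h3

theorem rxsh_l2 {h : ℕ} (hh : h ≤ 97) : lo h * lo h ≤ 10201 := by
  have h1 : lo h ≤ 101 := le_trans (lo_le h) (by omega)
  exact le_trans (Nat.mul_le_mul h1 h1) (by norm_num)

theorem rxsh_mm {R s l2 y : ℕ} (hR : WF 16383 R) (hs : s ≤ 16383) (hl : l2 ≤ 10201) (hy : y < 98)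
    (H : leq R (s * cO + tsub (l2 * cO) cU) = true) : ln R y ≤ s + (l2 - (y + 5) * (y + 5)) := by
  have w1 : WF s (s * cO) := wf_mul_cO (by omega)
  have w2 : WF l2 (l2 * cO) := wf_mul_cO (by omega)
  have w3 : WF 32767 cU := wf_cU.mono (by norm_num)
  have w4 : WF l2 (tsub (l2 * cO) cU) := WF.tsub w2 (by omega) w3
  obtain ⟨w5, w6⟩ := WF.add w1 w4 (by omega)
  have h1 := leq_sound (hR.mono (by norm_num)) (w5.mono (by omega)) H y
  rw [w6 y, ln_tsub (w2.mono (by omega)) w3, ln_mul_cO (by omega), ln_mul_cO (by omega), ln_cU,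
    if_pos hy, if_pos hy, if_pos hy] at h1
  exact h1

theorem rxsh_base {R l2 y : ℕ} (hR : WF 16383 R) (hl : l2 ≤ 10201)
    (H : leq R (l2 * cO) = true) : ln R y ≤ l2 := by
  have w2 : WF l2 (l2 * cO) := wf_mul_cO (by omega)
  exact le_trans (leq_sound (hR.mono (by norm_num)) (w2.mono (by omega)) H y) (w2.le y)

theorem rxsh_sq {l : ℕ} {a : ℝ} (h : (l : ℝ) < a) : ((l * l : ℕ) : ℝ) ≤ a * a := by
  have h0 : (0 : ℝ) ≤ l := Nat.cast_nonneg l
  push_cast
  nlinarith

theorem strat_sound {ρ : ℝ} (hρ : Rh ρ) {t : Tb} {w k h R y0 y1 ty m : ℕ}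
    (ih : ∀ w' k', w' + k' < w + k → Good ρ w' k' (tab t w' k')) (hh : h ≤ 97)
    (hR : WF 16383 R) (H : strat t w k h (h + 5) (lo h * lo h) R y0 y1 ty m = true) {y : ℕ}
    (h0 : y0 ≤ y) (h1 : y ≤ y1) : Cl ρ w k h y (ln R y) := by
  intro z S hn hz hS hU hl
  have hyh : y ≤ h := Cls.le hz (hU z (Multiset.mem_cons_self _ _))
  have hl2 := rxsh_l2 hh
  have hU' : ∀ c ∈ z ::ₘ S, c ≤ ((h + 5 : ℕ) : ℝ) := by
    intro c hc
    push_cast
    exact hU c hc
  rcases strat_spec H with ⟨o, ho, H1⟩ | ⟨hy, H1⟩ | ⟨o, c, f, H1, H2⟩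
  · obtain ⟨ha, hb, H3⟩ := sqS_spec H1
    have hn' : ¬ G 1 1 ((sqa w o : ℝ) / 16) ((sqa k (1 - o) : ℝ) / 16) (z ::ₘ S) :=
      fun hG => hn (sq_bin hρ ho hG)
    rcases H3 with ⟨hs, H3⟩ | H3
    · have h3 := rxsh_mm hR hs hl2 (show y < 98 by omega) H3
      have hu : z ≤ ((y + 5 : ℕ) : ℝ) := by
        push_cast
        exact hz.2
      exact le_trans (Nat.cast_le.2 h3) (mm_real ha hb hn' hz.pos hu hS hU' hl)
    · have h3 := rowL_sound _ _ _ H3 (y - y0) (by omega)
      have e : y0 + (y - y0) = y := by omega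
      rw [ln_shr, e] at h3
      exact le_trans (Nat.cast_le.2 h3) (row_real ha hb hn' hz hS hU' hl)
  · have h3 : ln R y ≤ lo h * lo h := rxsh_base hR hl2 H1
    have h4 : z ≤ lo h := Cls.le_lo hz (by omega)
    obtain ⟨a, ha, hla⟩ := hl
    rcases Multiset.mem_cons.1 ha with rfl | ha
    · exact absurd hla (not_lt.2 h4)
    · obtain ⟨S', rfl⟩ := Multiset.exists_cons_of_mem ha
      have h5 := rxsh_sq hla
      have h6 := area_nonneg S'
      have h7 : ((ln R y : ℕ) : ℝ) ≤ ((lo h * lo h : ℕ) : ℝ) := Nat.cast_le.2 h3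
      rw [area_cons]
      linarith
  · obtain ⟨a1, a2, b1, b2, hf, hlt, pack⟩ := cut_sound hρ H1
    obtain ⟨hlt1, hlt2⟩ := hlt (by omega)
    have ga := ih a1 a2 hlt1
    have gb := ih b1 b2 hlt2
    by_cases hS0 : S = 0
    · subst hS0
      refine absurd ?_ hn
      have h3 := pack {z} 0 0 (Or.inr ⟨z, rfl, hz.pos.le, hU' z (Multiset.mem_cons_self _ _)⟩)
        (G.nil (Nat.cast_nonneg _) (Nat.cast_nonneg _))
        (G.nil (Nat.cast_nonneg _) (Nat.cast_nonneg _))
      rw [add_zero, add_zero] at h3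
      exact h3
    · obtain ⟨a, S', rfl, hmax⟩ := exists_max S hS0
      have hza : z ≤ a := hS a (Multiset.mem_cons_self _ _)
      have hIt : It ((h + 5 : ℕ) : ℝ) {a} := Or.inr ⟨a, rfl, le_trans hz.pos.le hza,
        hU' a (Multiset.mem_cons_of_mem (Multiset.mem_cons_self _ _))⟩
      have hla : (lo h : ℝ) < a := by
        obtain ⟨b, hb, hlb⟩ := hl
        rcases Multiset.mem_cons.1 hb with rfl | hb
        · exact lt_of_lt_of_le hlb hza
        rcases Multiset.mem_cons.1 hb with rfl | hb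
        · exact hlb
        · exact lt_of_lt_of_le hlb (hmax b hb)
      have hS' : ∀ b ∈ S', z ≤ b := fun b hb => hS b (Multiset.mem_cons_of_mem hb)
      have hx : ∀ b ∈ z ::ₘ S', b ≤ (h : ℝ) + 5 := by
        intro b hb
        rcases Multiset.mem_cons.1 hb with rfl | hb
        · exact hU _ (Multiset.mem_cons_self _ _)
        · exact hU b (Multiset.mem_cons_of_mem (Multiset.mem_cons_of_mem hb))
      have key : ∀ S₁ S₂, z ::ₘ S' = S₁ + S₂ → G ρ 1 a1 a2 S₁ → G ρ 1 b1 b2 S₂ → False := by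
        intro S₁ S₂ e g1 g2
        apply hn
        have h3 := pack {a} S₁ S₂ hIt g1 g2
        rw [add_assoc, ← e, Multiset.singleton_add, Multiset.cons_swap] at h3
        exact h3
      have h5 := rxsh_sq hla
      have fin : ((ln R y : ℕ) : ℝ) ≤ ((lo h * lo h : ℕ) : ℝ) + area S' := by
        rcases H2 a1 a2 b1 b2 hf with H3 | H3
        · refine core_sound hρ gb ga (fun b hb => absurd hb List.not_mem_nil) hR H3 h0 hz hS' hx ?_
          rintro ⟨S₁, R₁, e1, p1, S₂, R₂, e2, p2, e3⟩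
          have e4 : R₂ = 0 := e3
          refine key S₂ S₁ ?_ p2 p1
          rw [e1, e2, e4, add_zero, add_comm]
        · refine core_sound hρ ga gb (fun b hb => absurd hb List.not_mem_nil) hR H3 h0 hz hS' hx ?_
          rintro ⟨S₁, R₁, e1, p1, S₂, R₂, e2, p2, e3⟩
          have e4 : R₂ = 0 := e3
          refine key S₁ S₂ ?_ p1 p2
          rw [e1, e2, e4, add_zero]
      rw [area_cons]
      linarith

end Pool.Agent.P.MP_eb61da_co.RX
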