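import Pool.Agent.P.MP_eb61da_co.RxSH

/-! All rows of the table. -/

set_option linter.unusedVariables false

namespace Pool.Agent.P.MP_eb61da_co.RX

theorem strL_sound {ρ : ℝ} (hρ : Rh ρ) {t : Tb} {w k h : ℕ}
    (ih : ∀ w' k', w' + k' < w + k → Good ρ w' k' (tab t w' k')) (hh : h ≤ 97) :
    ∀ (n R c : ℕ), WF 16383 R → strL t w k h (h + 5) (lo h * lo h) n R c = true →
      ∀ y, Cl ρ w k h y (ln R y) := by
  intro n
  induction n with
  | zero =>
    intro R c _ H y z S _ _ _ _ _
    rw [strL_zero.1 H, ln_zero, Nat.cast_zero]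
    exact area_nonneg S
  | succ n ihn =>
    intro R c hR H y
    obtain ⟨y0, y1, ty, m, c', h1, h2⟩ := strL_succ H
    by_cases hy : y0 ≤ y ∧ y ≤ y1
    · have h3 := strat_sound hρ ih hh (hR.seg y0 y1) h1 hy.1 hy.2
      rwa [ln_seg, if_pos hy] at h3
    · have h3 := ihn _ _ (hR.sub_seg y0 y1) h2 y
      rwa [ln_sub_seg, if_neg hy] at h3

theorem chkRows_sound {ρ : ℝ} (hρ : Rh ρ) {t : Tb} {w k : ℕ}
    (ih : ∀ w' k', w' + k' < w + k → Good ρ w' k' (tab t w' k')) :
    ∀ (r cs : List ℕ) (h : ℕ), chkRows t w k r cs h = true → ∀ j D, r[j]? = some D →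
      WF 16383 D ∧ ∀ y, Cl ρ w k (h + j) y (ln D y) := by
  intro r
  induction r with
  | nil => intro cs h _ j D hD; simp at hD
  | cons R r ihr =>
    intro cs h H j D hD
    obtain ⟨c, cs', h1, h2⟩ := chkRows_cons H
    cases j with
    | zero =>
      rw [List.getElem?_cons_zero, Option.some.injEq] at hD
      subst hD
      obtain ⟨hh, hF, n, c', h3⟩ := chkRow_spec h1
      exact ⟨wf_of_and hF, strL_sound hρ ih hh n R c' (wf_of_and hF) h3⟩
    | succ j =>
      rw [List.getElem?_cons_succ] at hD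
      have h3 := ihr cs' (h + 1) h2 j D hD
      rwa [add_assoc, add_comm 1 j] at h3

theorem chkKeys_sound {t : Tb} {e : ℕ} : ∀ (L : List (List ℕ)) (a : ℕ),
    chkKeys t e L a = true → All t a e := by
  intro L
  induction L with
  | nil =>
    intro a H c h1 h2
    have := chkKeys_nil.1 H
    omega
  | cons cs L ih =>
    intro a H c h1 h2
    obtain ⟨h3, h4⟩ := chkKeys_cons H
    rcases h1.eq_or_lt with h5 | h5
    · subst h5
      exact ⟨cs, h3⟩
    · exact ih (a + 1) h4 c h5 h2

theorem All.join {t : Tb} {a b c : ℕ} (h1 : All t a b) (h2 : All t b c) : All t a c := by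
  intro x hx hx'
  rcases lt_or_ge x b with h | h
  · exact h1 x hx h
  · exact h2 x h hx'

theorem good_all {ρ : ℝ} (hρ : Rh ρ) {t : Tb} (H : All t 0 18432) (w k : ℕ) :
    Good ρ w k (tab t w k) := by
  induction hn : w + k using Nat.strong_induction_on generalizing w k with
  | _ n ih =>
    by_cases hc : k ≤ 127 ∧ 128 * w + k ≤ 18431
    · obtain ⟨cs, hcs⟩ := H (128 * w + k) (Nat.zero_le _) (by omega)
      have e1 : (128 * w + k) / 128 = w := by omega
      have e2 : (128 * w + k) % 128 = k := by omega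
      rw [e1, e2] at hcs
      intro h D hD
      have h3 := chkRows_sound hρ (fun w' k' hlt => ih (w' + k') (hn ▸ hlt) w' k' rfl) _ cs 0 hcs
        h D hD
      rwa [zero_add] at h3
    · intro h D hD
      rw [tab_eq, if_neg hc] at hD
      simp at hD

end Pool.Agent.P.MP_eb61da_co.RX
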