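import Pool.Agent.P.MP_eb61da_co.RxSF

/-! Placing the first items. -/

set_option linter.unusedVariables false

namespace Pool.Agent.P.MP_eb61da_co.RX

theorem it_hd {L : List ℝ} (hD : Dec L) {U : ℝ} (hU : hr L ≤ U) :
    ∃ T, It U T ∧ (L : Multiset ℝ) = T + (L.tail : Multiset ℝ) := by
  cases L with
  | nil => exact ⟨0, Or.inl rfl, by simp⟩
  | cons a L =>
    refine ⟨{a}, Or.inr ⟨a, rfl, (hD.2 a (by simp)).le, hU⟩, ?_⟩
    rw [List.tail_cons, Multiset.singleton_add, Multiset.cons_coe]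

theorem Zr.tail {y : ℕ} {L : List ℝ} (hD : Dec L) (H : Zr y L) : Zr y L.tail := by
  cases L with
  | nil => exact H
  | cons c L =>
    intro a ha hb
    refine H a (List.mem_cons_of_mem _ ha) fun b hb' => ?_
    rcases List.mem_cons.1 hb' with rfl | hb'
    · exact (List.pairwise_cons.1 hD.1).1 a ha
    · exact hb b hb'

theorem satHi_hd {hi : List ℕ} {L : List ℝ} (hD : Dec L) (H : SatHi hi L)
    (hA : area (L : Multiset ℝ) < 10294) : hr L ≤ (hi.headD 102 : ℕ) ∧ SatHi hi.tail L.tail := by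
  cases hi with
  | nil =>
    refine ⟨?_, trivial⟩
    rw [area_hd] at hA
    have h1 := area_nonneg (L.tail : Multiset ℝ)
    have h2 := hD.hd_nonneg
    change Pool.Agent.P.MP_eb61da_co.hd L ≤ ((102 : ℕ) : ℝ)
    push_cast
    nlinarith
  | cons h hi => exact H

theorem satLo_hd {lw : List ℕ} {L : List ℝ} (hD : Dec L) (H : SatLo lw L) :
    ((lw.headD 0 : ℕ) : ℝ) ≤ hr L ∧ SatLo lw.tail L.tail := by
  cases lw with
  | nil =>
    refine ⟨?_, trivial⟩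
    change ((0 : ℕ) : ℝ) ≤ _
    rw [Nat.cast_zero]
    exact hD.hd_nonneg
  | cons l lw => exact H

theorem fin_sound {ρ : ℝ} (hρ : Rh ρ) {t : Tb} (hg : ∀ w k, Good ρ w k (tab t w k))
    {y0 y1 l2 h c y : ℕ} {F : List (ℕ × ℕ)} {L : List ℝ} (H : fin t y0 y1 l2 h c F = true)
    (hD : Dec L) (hh : hr L ≤ h) (hA : (l2 : ℝ) + area (L : Multiset ℝ) < 10294) (h0 : y0 ≤ y)
    (h1 : y ≤ y1) (hZ : Zr y L) : Packs (Pk ρ) F (L : Multiset ℝ) := by
  rw [fin_eq] at H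
  obtain ⟨pa, pb, F1, H1, hp1⟩ := pick_sound (ρ := ρ) _ _ _ H
  obtain ⟨qa, qb, F2, H2, hp2⟩ := pick_sound (ρ := ρ) _ _ _ H1
  have key : Packs (Pk ρ) ((pa, pb) :: (qa, qb) :: F2) (L : Multiset ℝ) := by
    by_cases hL : (L : Multiset ℝ) = 0
    · rw [hL]
      exact packs_zero _ _ fun b _ => G.nil (Nat.cast_nonneg _) (Nat.cast_nonneg _)
    obtain ⟨z, S, e, hS⟩ := exists_min _ hL
    have hmem : ∀ a, a ∈ z ::ₘ S ↔ a ∈ L := fun a => by rw [← e]; exact Multiset.mem_coe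
    have hz : Cls y z := by
      refine hZ z ((hmem z).1 (Multiset.mem_cons_self _ _)) fun b hb => ?_
      rcases Multiset.mem_cons.1 ((hmem b).2 hb) with rfl | hb
      · exact le_rfl
      · exact hS b hb
    have hx : ∀ a ∈ z ::ₘ S, a ≤ ((h - 5 : ℕ) : ℝ) + 5 := by
      intro a ha
      have h2 := hD.le_hd a ((hmem a).1 ha)
      have h3 : (h : ℝ) ≤ ((h - 5 : ℕ) : ℝ) + 5 := by exact_mod_cast (by omega : h ≤ h - 5 + 5)
      exact h2.trans (hh.trans h3)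
    rw [e] at hA ⊢
    rw [area_cons] at hA
    have hS0 := area_nonneg S
    have hl0 : (0 : ℝ) ≤ l2 := Nat.cast_nonneg _
    have hz0 := hz.pos
    have hy : y ≤ 97 := hz.le (by push_cast; nlinarith)
    have w1 : WF 10294 (10294 * cO) := wf_mul_cO (by norm_num)
    have w2 : WF 32767 cL := wf_cL.mono (by norm_num)
    have w3 : WF 16383 (seg (tsub (10294 * cO) cL) y0 y1) :=
      ((w1.mono (by norm_num)).tsub (by norm_num) w2).seg y0 y1
    by_contra hn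
    have hc := core_sound hρ (hg pa pb) (hg qa qb) (fun b _ => hg b.1 b.2) w3 H2 h0 hz hS hx hn
    rw [ln_seg, if_pos ⟨h0, h1⟩, ln_tsub (w1.mono (by norm_num)) w2, ln_mul_cO (by norm_num),
      ln_cL, if_pos (by omega), if_pos (by omega)] at hc
    have h4 : (10294 : ℝ) ≤ ((10294 - lo y * lo y : ℕ) : ℝ) + (lo y : ℝ) * lo y := by
      exact_mod_cast (by omega : 10294 ≤ 10294 - lo y * lo y + lo y * lo y)
    have h5 : (0 : ℝ) ≤ lo y := Nat.cast_nonneg _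
    have h6 := hz.1
    nlinarith
  obtain ⟨S, R, e, k1, S', R', e', k2, k3⟩ := key
  rw [e, e']
  exact hp1 S _ k1 (hp2 S' R' k2 k3)

theorem plL_sound {ρ : ℝ} (hρ : Rh ρ) {t : Tb} (hg : ∀ w k, Good ρ w k (tab t w k))
    {y0 y1 y : ℕ} (h0 : y0 ≤ y) (h1 : y ≤ y1) : ∀ (n : ℕ) (lw hi : List ℕ) (l2 c : ℕ)
      (F : List (ℕ × ℕ)) (L : List ℝ), plL t y0 y1 n lw hi l2 c F = true → Dec L → SatLo lw L →
      SatHi hi L → (l2 : ℝ) + area (L : Multiset ℝ) < 10294 → Zr y L →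
      Packs (Pk ρ) F (L : Multiset ℝ) := by
  intro n
  induction n with
  | zero =>
    intro lw hi l2 c F L H hD hlo hhi hA hZ
    rw [plL_zero] at H
    have hl0 : (0 : ℝ) ≤ l2 := Nat.cast_nonneg _
    exact fin_sound hρ hg H hD (satHi_hd hD hhi (by linarith)).1 hA h0 h1 hZ
  | succ n ih =>
    intro lw hi l2 c F L H hD hlo hhi hA hZ
    rw [plL_succ] at H
    have hl0 : (0 : ℝ) ≤ l2 := Nat.cast_nonneg _
    obtain ⟨w, k, F1, H1, hp⟩ := pick_sound (ρ := ρ) _ _ _ H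
    obtain ⟨a1, a2, b1, b2, H2, -, hc⟩ := cut_sound hρ H1
    obtain ⟨u1, u2⟩ := satHi_hd hD hhi (by linarith)
    obtain ⟨v1, v2⟩ := satLo_hd hD hlo
    obtain ⟨T, hT, e⟩ := it_hd hD u1
    have hA' : ((l2 + lw.headD 0 * lw.headD 0 : ℕ) : ℝ) + area (L.tail : Multiset ℝ) < 10294 := by
      rw [area_hd] at hA
      have h2 : (0 : ℝ) ≤ ((lw.headD 0 : ℕ) : ℝ) := Nat.cast_nonneg _
      have h3 := mul_self_le_mul_self h2 v1
      rw [Nat.cast_add, Nat.cast_mul]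
      linarith
    obtain ⟨S, R, e1, k1, S', R', e2, k2, k3⟩ :=
      ih _ _ _ _ _ L.tail H2 hD.tail v2 u2 hA' (hZ.tail hD)
    have := hp _ R' (hc T S S' hT k1 k2) k3
    rw [e, e1, e2, ← add_assoc, ← add_assoc]
    exact this

end Pool.Agent.P.MP_eb61da_co.RX
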