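import Pool.Agent.P.MP_eb61da_co.RxSJ

/-! The root tree. -/

set_option linter.unusedVariables false

namespace Pool.Agent.P.MP_eb61da_co.RX

theorem rxsk_cn {ρ : ℝ} {a b : ℕ} {S : Multiset ℝ} (H : Pk ρ (cn a b) S) : G ρ 1 a b S := by
  rw [cn_eq] at H
  exact pk_cn H

theorem rxsk_two {ρ : ℝ} {a b c d : ℕ} {M : Multiset ℝ}
    (H : Packs (Pk ρ) [cn a b, cn c d] M) :
    ∃ S₁ S₂, M = S₁ + S₂ ∧ G ρ 1 a b S₁ ∧ G ρ 1 c d S₂ := by
  obtain ⟨S₁, R, e, g1, S₂, R', e', g2, z⟩ := H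
  have z' : R' = 0 := z
  exact ⟨S₁, S₂, by rw [e, e', z', add_zero], rxsk_cn g1, rxsk_cn g2⟩

theorem rxsk_three {ρ : ℝ} {a b c d e f : ℕ} {M : Multiset ℝ}
    (H : Packs (Pk ρ) [cn a b, cn c d, cn e f] M) :
    ∃ S₁ S₂ S₃, M = S₁ + S₂ + S₃ ∧ G ρ 1 a b S₁ ∧ G ρ 1 c d S₂ ∧ G ρ 1 e f S₃ := by
  obtain ⟨S₁, R, e1, g1, H'⟩ := H
  obtain ⟨S₂, S₃, e2, g2, g3⟩ := rxsk_two H'
  exact ⟨S₁, S₂, S₃, by rw [e1, e2, add_assoc], rxsk_cn g1, g2, g3⟩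

theorem rxsk_hc {ρ w h w₁ w₂ : ℝ} {S₁ S₂ : Multiset ℝ} (g1 : G ρ 1 w₁ h S₁)
    (g2 : G ρ 1 w₂ h S₂) (e : w₁ + w₂ ≤ w) : G ρ 1 w h (S₁ + S₂) :=
  (G.hc g1 g2).mono e le_rfl

theorem rxsk_vc {ρ w h h₁ h₂ : ℝ} {S₁ S₂ : Multiset ℝ} (g1 : G ρ 1 w h₁ S₁)
    (g2 : G ρ 1 w h₂ S₂) (e : h₁ + h₂ ≤ h) : G ρ 1 w h (S₁ + S₂) :=
  (G.vc g1 g2).mono le_rfl e

theorem leaf_sound {ρ : ℝ} (hρ : Rh ρ) {t : Tb} (hg : ∀ w k, Good ρ w k (tab t w k))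
    {lw hi : List ℕ} {y0 y1 fl c : ℕ} (H : leaf t lw hi y0 y1 fl c = true) :
    RG ρ lw hi y0 y1 fl := by
  intro L y hD hlo hhi hT h0 h1 hZ hF
  obtain ⟨hA, hT1, -⟩ := hT
  have hρ0 : 0 ≤ ρ := le_trans (by norm_num) hρ.1
  have h143 : (143 : ℝ) ≤ ρ * 120 := by linarith [hρ.1]
  rcases leaf_spec H with ⟨n, c', H⟩ | ⟨st, n, c', H⟩
  · obtain ⟨S₁, R, e, g1, S₂, R', e', g2, z⟩ :=
      plL_sound hρ hg h0 h1 n lw hi 0 c' _ L H hD hlo hhi (by simpa using hA) hZ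
    have z' : R' = 0 := z
    rw [e, e', z', add_zero]
    have g1' : G ρ 1 143 120 S₁ := by simpa [Pk] using g1
    have g2' : G ρ 1 143 0 S₂ := by simpa [Pk] using g2
    exact (G.vc g1' g2').mono h143 (by norm_num)
  have hD2 := hD.tail
  have hD3 := hD2.tail
  have hD4 := hD3.tail
  have e1 := area_hd L
  have e2 := area_hd L.tail
  have e3 := area_hd L.tail.tail
  have p1 : 0 ≤ hr L := hD.hd_nonneg
  have p2 : 0 ≤ hr L.tail := hD2.hd_nonneg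
  have p3 : 0 ≤ hr L.tail.tail := hD3.hd_nonneg
  have hA2 : area (L.tail : Multiset ℝ) < 10294 := by nlinarith [mul_self_nonneg (hr L)]
  have hA3 : area (L.tail.tail : Multiset ℝ) < 10294 := by
    nlinarith [mul_self_nonneg (hr L.tail)]
  obtain ⟨u1, hhi2⟩ := satHi_hd hD hhi hA
  obtain ⟨u2, hhi3⟩ := satHi_hd hD2 hhi2 hA2
  obtain ⟨u3, hhi4⟩ := satHi_hd hD3 hhi3 hA3
  obtain ⟨v1, hlo2⟩ := satLo_hd hD hlo
  obtain ⟨v2, hlo3⟩ := satLo_hd hD2 hlo2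
  obtain ⟨v3, hlo4⟩ := satLo_hd hD3 hlo3
  obtain ⟨T1, i1, f1⟩ := it_hd hD (le_refl (hr L))
  obtain ⟨T2, i2, f2⟩ := it_hd hD2 (le_refl (hr L.tail))
  obtain ⟨T3, i3, f3⟩ := it_hd hD3 (le_refl (hr L.tail.tail))
  have hZ3 : Zr y L.tail.tail := (hZ.tail hD).tail hD2
  have hZ4 : Zr y L.tail.tail.tail := hZ3.tail hD3
  obtain ⟨k1, k2, H⟩ := leaf2_spec H
  obtain ⟨hF1, hF2⟩ := hF
  change area (L : Multiset ℝ) = hr L * hr L + _ at e1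
  change area (L.tail : Multiset ℝ) = hr L.tail * hr L.tail + _ at e2
  change area (L.tail.tail : Multiset ℝ) = hr L.tail.tail * hr L.tail.tail + _ at e3
  generalize hr L = a1 at *
  generalize hr L.tail = a2 at *
  generalize hr L.tail.tail = a3 at *
  generalize hi.headD 102 = x1 at *
  generalize hi.tail.headD 102 = x2 at *
  generalize hi.tail.tail.headD 102 = x3 at *
  generalize lw.headD 0 = l1 at *
  generalize lw.tail.headD 0 = l2 at *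
  generalize lw.tail.tail.headD 0 = l3 at *
  have k3 : lu x2 ≤ lu x1 := lu_mono k2
  have k4 : x1 ≤ lu x1 := le_lu x1
  have k5 : x1 ≤ 143 := by omega
  have k6 : lu x2 ≤ 120 := k3.trans k1
  have k7 : x2 ≤ 120 := by omega
  have r1 : ρ * a1 ≤ lu x1 := (mul_le_mul_of_nonneg_left u1 hρ0).trans (lu_sound hρ x1)
  have r2 : ρ * a2 ≤ lu x2 := (mul_le_mul_of_nonneg_left u2 hρ0).trans (lu_sound hρ x2)
  have r3 : ρ * a3 ≤ lu x3 := (mul_le_mul_of_nonneg_left u3 hρ0).trans (lu_sound hρ x3)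
  have r4 : (ll l2 : ℝ) ≤ ρ * a2 := (ll_sound hρ l2).trans (mul_le_mul_of_nonneg_left v2 hρ0)
  have q1 : (l1 : ℝ) * l1 ≤ a1 * a1 := mul_self_le_mul_self (Nat.cast_nonneg _) v1
  have q2 : (l2 : ℝ) * l2 ≤ a2 * a2 := mul_self_le_mul_self (Nat.cast_nonneg _) v2
  have q3 : (l3 : ℝ) * l3 ≤ a3 * a3 := mul_self_le_mul_self (Nat.cast_nonneg _) v3
  have B3 : ((l1 * l1 + l2 * l2 : ℕ) : ℝ) + area (L.tail.tail : Multiset ℝ) < 10294 := by
    push_cast; linarith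
  have B4 : ((l1 * l1 + l2 * l2 + l3 * l3 : ℕ) : ℝ) +
      area (L.tail.tail.tail : Multiset ℝ) < 10294 := by
    push_cast; linarith
  have g1 : G ρ 1 a1 (lu x1) T1 := (It.pack hρ0 i1 p1 r1 le_rfl).swap
  have g2 : G ρ 1 (ρ * 120 - a1) (lu x2) T2 := (It.pack hρ0 i2 p2 r2 (by linarith)).swap
  have col : ∀ S : Multiset ℝ, G ρ 1 l1 (120 - lu x1 : ℕ) S → G ρ 1 a1 120 (T1 + S) := by
    intro S hS
    refine rxsk_vc g1 (hS.mono v1 le_rfl) ?_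
    push_cast [Nat.cast_sub k1]; linarith
  have hW : ((143 - x1 : ℕ) : ℝ) ≤ ρ * 120 - a1 := by
    push_cast [Nat.cast_sub k5]; linarith
  rcases H with H | H | ⟨hfl, H⟩ | ⟨hfl, m1, m2, H⟩
  · obtain ⟨S₁, S₂, e, s1, s2⟩ :=
      rxsk_two (plL_sound hρ hg h0 h1 n _ _ _ c' _ _ H hD3 hlo3 hhi3 B3 hZ3)
    have c2 : G ρ 1 (ρ * 120 - a1) 120 (T2 + S₂) := by
      refine rxsk_vc g2 (s2.mono hW le_rfl) ?_
      push_cast [Nat.cast_sub k6]; linarith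
    have := rxsk_hc (w := ρ * 120) (col S₁ s1) c2 (by linarith)
    rw [f1, f2, e]
    convert this using 1
    abel
  · obtain ⟨S₁, S₂, e, s1, s2⟩ :=
      rxsk_two (plL_sound hρ hg h0 h1 n _ _ _ c' _ _ H hD3 hlo3 hhi3 B3 hZ3)
    have c2 : G ρ 1 (ρ * 120 - a1) (lu x1) (T2 + S₂) := by
      refine rxsk_vc g2 (s2.mono hW le_rfl) ?_
      push_cast [Nat.cast_sub k3]; linarith
    have c3 := rxsk_hc (w := ρ * 120) g1 c2 (by linarith)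
    have c4 : G ρ 1 (ρ * 120) (120 - lu x1 : ℕ) S₁ := s1.mono (by exact_mod_cast h143) le_rfl
    have := rxsk_vc (h := 120) c3 c4 (by push_cast [Nat.cast_sub k1]; linarith)
    rw [f1, f2, e]
    convert this using 1
    abel
  · obtain ⟨S₁, S₂, e, s1, s2⟩ :=
      rxsk_two (plL_sound hρ hg h0 h1 n _ _ _ c' _ _ H hD3 hlo3 hhi3 B3 hZ3)
    have g2' : G ρ 1 (ρ * 120 - a1) x2 T2 := It.pack hρ0 i2 p2 (by linarith [hF1 hfl]) u2
    have c2 : G ρ 1 (ρ * 120 - a1) 120 (T2 + S₂) := by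
      refine rxsk_vc g2' (s2.mono hW le_rfl) ?_
      push_cast [Nat.cast_sub k7]; linarith
    have := rxsk_hc (w := ρ * 120) (col S₁ s1) c2 (by linarith)
    rw [f1, f2, e]
    convert this using 1
    abel
  · obtain ⟨S₁, S₂, S₃, e, s1, s2, s3⟩ :=
      rxsk_three (plL_sound hρ hg h0 h1 n _ _ _ c' _ _ H hD4 hlo4 hhi4 B4 hZ4)
    have n1 : lu x3 ≤ 143 - x1 := by omega
    have n2 : x2 ≤ 143 - x1 := by omega
    have g2' : G ρ 1 x2 (ρ * a2) T2 := (It.pack hρ0 i2 p2 le_rfl u2).swap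
    have g3' : G ρ 1 (lu x3) (120 - ρ * a2) T3 :=
      It.pack hρ0 i3 p3 r3 (by linarith [hF2 hfl])
    have c1 : G ρ 1 (ρ * 120 - a1) (ρ * a2) (T2 + S₃) := by
      refine rxsk_hc g2' (s3.mono le_rfl r4) (le_trans ?_ hW)
      rw [Nat.cast_sub n2]; linarith
    have c2 : G ρ 1 (ρ * 120 - a1) (120 - ρ * a2) (T3 + S₂) := by
      refine rxsk_hc g3' (s2.mono le_rfl ?_) (le_trans ?_ hW)
      · push_cast [Nat.cast_sub k6]; linarith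
      · rw [Nat.cast_sub n1]; linarith
    have c3 := rxsk_vc (h := 120) c1 c2 (by linarith)
    have := rxsk_hc (w := ρ * 120) (col S₁ s1) c3 (by linarith)
    rw [f1, f2, f3, e]
    convert this using 1
    abel

theorem RG.split {ρ : ℝ} {lw hi lw' hi' : List ℕ} {y0 y1 fl : ℕ} (i c : ℕ)
    (h1 : RG ρ lw hi' y0 y1 fl) (h2 : RG ρ lw' hi y0 y1 fl) (e1 : capHi c hi i = hi')
    (e2 : raiseLo c lw i = lw') : RG ρ lw hi y0 y1 fl := by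
  intro L y hD hlo hhi hT h0 hy hZ hF
  subst e1 e2
  rcases le_total (hr (L.drop i)) c with h | h
  · refine h1 L y hD hlo ?_ hT h0 hy hZ hF
    rw [capHi_eq]
    exact capHi_sound hi i L hD h hhi
  · refine h2 L y hD ?_ hhi hT h0 hy hZ hF
    rw [raiseLo_eq]
    exact raiseLo_sound lw i L hD h hlo

theorem RG.zsplit {ρ : ℝ} {lw hi : List ℕ} {y0 y y1 fl : ℕ} (h1 : RG ρ lw hi y0 y fl)
    (h2 : RG ρ lw hi (y + 1) y1 fl) : RG ρ lw hi y0 y1 fl := by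
  intro L u hD hlo hhi hT h0 hy hZ hF
  rcases Nat.lt_or_ge y u with h | h
  · exact h2 L u hD hlo hhi hT h hy hZ hF
  · exact h1 L u hD hlo hhi hT h0 h hZ hF

theorem RG.dsplit {ρ : ℝ} {lw hi : List ℕ} {y0 y1 fl : ℕ} (h1 : RG ρ lw hi y0 y1 1)
    (h2 : RG ρ lw hi y0 y1 2) : RG ρ lw hi y0 y1 fl := by
  intro L u hD hlo hhi hT h0 hy hZ hF
  rcases hT.2.2 with h | h
  · exact h1 L u hD hlo hhi hT h0 hy hZ ⟨fun _ => h, fun e => absurd e (by norm_num)⟩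
  · exact h2 L u hD hlo hhi hT h0 hy hZ ⟨fun e => absurd e (by norm_num), fun _ => h⟩

theorem check_sound {ρ : ℝ} (hρ : Rh ρ) {t : Tb} (hg : ∀ w k, Good ρ w k (tab t w k)) :
    ∀ (r : Rt) (lw hi : List ℕ) (y0 y1 fl : ℕ), check t r lw hi y0 y1 fl = true →
      RG ρ lw hi y0 y1 fl := by
  intro r
  induction r with
  | p =>
    intro lw hi y0 y1 fl H L y _ hlo _ hT _ _ _ _
    have h1 := check_p.1 H
    rw [sumSq_eq] at h1
    have h2 : ((10294 : ℕ) : ℝ) ≤ Pool.Agent.P.MP_eb61da_co.sumSq lw := by exact_mod_cast h1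
    have h3 := sumSq_le lw L hlo
    have h4 := hT.1
    push_cast at h2
    linarith
  | l c =>
    intro lw hi y0 y1 fl H
    rw [check_l] at H
    exact leaf_sound hρ hg H
  | s i c a b iha ihb =>
    intro lw hi y0 y1 fl H
    obtain ⟨h1, h2⟩ := check_s.1 H
    exact RG.split i c (iha _ _ _ _ _ h1) (ihb _ _ _ _ _ h2) rfl rfl
  | z y a b iha ihb =>
    intro lw hi y0 y1 fl H
    obtain ⟨h1, h2⟩ := check_z.1 H
    exact RG.zsplit (iha _ _ _ _ _ h1) (ihb _ _ _ _ _ h2)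
  | d a b iha ihb =>
    intro lw hi y0 y1 fl H
    obtain ⟨h1, h2⟩ := check_d.1 H
    exact RG.dsplit (iha _ _ _ _ _ h1) (ihb _ _ _ _ _ h2)

end Pool.Agent.P.MP_eb61da_co.RX
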