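import Pool.Agent.P.MP_eb61da_co.RxSC
import Pool.Agent.P.MP_eb61da_co.RxLG

/-! From the root claim to packings of clones. -/

set_option linter.unusedVariables false

namespace Pool.Agent.P.MP_eb61da_co.RX

section
open MeasureTheory Set
open scoped Pointwise

theorem clonesPack_of_G {p N S : ℝ} (hp : 0 < p) (hN : 0 < N) (hS : 0 < S)
    (H : ∀ L : List ℝ, Dec L → area (L : Multiset ℝ) * S = N * N →
      G p 1 (p * N) N (L : Multiset ℝ)) : ClonesPack (rect p 1) S := by
  intro n f hf hsum
  obtain ⟨hK, -, hI⟩ := rect_figure hp one_pos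
  set F := rect p 1 with hF
  have v0 : volume F ≠ 0 := (Measure.measure_pos_of_nonempty_interior volume hI).ne'
  have v1 : volume F ≠ ⊤ := hK.measure_lt_top.ne
  set v : ℝ := (volume F).toReal with hv
  have hv0 : 0 < v := ENNReal.toReal_pos v0 v1
  have hvF : volume F = ENNReal.ofReal v := (ENNReal.ofReal_toReal v1).symm
  have vol : ∀ c : ℝ, 0 ≤ c → volume (c • F) = ENNReal.ofReal (c * c * v) := by
    intro c hc
    rw [Measure.addHaar_smul_of_nonneg _ hc, hvF, ← ENNReal.ofReal_mul (by positivity)]
    simp [pow_two]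
  choose c ψ hc hψ using fun i => clone_decomp (hf i)
  have hs : ∑ i, c i * c i * v = 1 := by
    have : ∀ i, volume (f i) = ENNReal.ofReal (c i * c i * v) := fun i => by
      rw [hψ i, volume_iso _ (hK.smul (c i)).measurableSet, vol _ (hc i).le]
    simp only [this] at hsum
    rw [← ENNReal.ofReal_sum_of_nonneg (fun i _ => by have := hc i; positivity)] at hsum
    exact ENNReal.ofReal_eq_one.1 hsum
  set C : ℝ := √(S / v) with hC
  have hC0 : 0 < C := Real.sqrt_pos.2 (by positivity)
  have hCC : C * C * v = S := by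
    rw [hC, Real.mul_self_sqrt (by positivity)]; field_simp
  set M : Multiset ℝ := (Finset.univ : Finset (Fin n)).val.map fun i => N / C * c i with hM
  have hD : Dec (M.sort (· ≥ ·)) := by
    refine ⟨Multiset.pairwise_sort _ _, ?_⟩
    intro a ha
    rw [Multiset.mem_sort, hM, Multiset.mem_map] at ha
    obtain ⟨i, -, rfl⟩ := ha
    have := hc i
    positivity
  have hA : area M * S = N * N := by
    have : area M = ∑ i, (N / C * c i) * (N / C * c i) := by
      rw [area, hM, Multiset.map_map]; rfl
    rw [this, ← hCC, ← mul_one (N * N), ← hs, Finset.sum_mul, Finset.mul_sum]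
    refine Finset.sum_congr rfl fun i _ => ?_
    field_simp
  have HG := H _ hD (by rw [Multiset.sort_eq]; exact hA)
  rw [Multiset.sort_eq] at HG
  have HG' := (HG.smul (k := C / N) (by positivity)).pl c (Finset.univ : Finset (Fin n)).val 0 0
    (by rw [hM, Multiset.map_map]; refine Multiset.map_congr rfl fun i _ => ?_
        simp only [Function.comp]; field_simp)
  obtain ⟨g, h1, h2⟩ := HG'
  have key : ∀ i, ((ψ i).symm.trans (g i)) '' f i = g i '' (c i • F) := fun i => by
    rw [hψ i, Set.image_image]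
    exact Set.image_congr fun x _ => by simp
  refine ⟨C • F, ?_, by rw [vol C hC0.le, hCC], fun i => (ψ i).symm.trans (g i), ?_, ?_⟩
  · refine ⟨{ (Homeomorph.smulOfNeZero C hC0.ne').toEquiv with edist_eq' := ?_ }, rfl⟩
    refine ⟨‖C‖₊, by simpa using hC0.ne', fun x y => ?_⟩
    exact edist_smul₀ C x y
  · intro i
    rw [key]
    refine (h1 i (Finset.mem_univ i)).trans ?_
    rintro u ⟨⟨a1, a2⟩, a3, a4⟩
    refine ⟨C⁻¹ • u, ?_, smul_inv_smul₀ hC0.ne' u⟩
    have e1 : C / N * (p * N) = C * p := by field_simp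
    have e2 : C / N * N = C * 1 := by field_simp
    rw [zero_add, e1] at a2
    rw [zero_add, e2] at a4
    simp only [hF, rect, mem_ofPred_eq, PiLp.smul_apply, smul_eq_mul, mem_Icc]
    refine ⟨⟨by positivity, ?_⟩, by positivity, ?_⟩
    · rw [inv_mul_le_iff₀ hC0]; exact a2
    · rw [inv_mul_le_iff₀ hC0]; exact a4
  · intro i j hij
    rw [key, key]
    exact h2 i (Finset.mem_univ i) j (Finset.mem_univ j) hij

end

theorem pack_of_RG {r : ℝ} (h1 : 11956 / 10000 ≤ r) (h2 : r ≤ 11957 / 10000)
    (h3 : r ^ 4 - 6 * r ^ 3 + r ^ 2 + 4 * r + 2 = 0)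
    (H : RG r (List.replicate 18 0) (List.replicate 18 102) 0 97 0) :
    ClonesPack (rect r 1) (2 / r ^ 2) := by
  have hr0 : 0 < r := by linarith
  refine clonesPack_of_G (N := 120) hr0 (by norm_num) (by positivity) fun L hD hA => ?_
  have hA' : area (L : Multiset ℝ) = 7200 * r ^ 2 := by
    have e : area (L : Multiset ℝ) = area (L : Multiset ℝ) * (2 / r ^ 2) * (r ^ 2 / 2) := by
      field_simp
    rw [e, hA]; ring
  have hlt : area (L : Multiset ℝ) < 10294 := by rw [hA']; nlinarith
  have e1 := area_hd L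
  have e2 := area_hd L.tail
  have e3 := area_hd L.tail.tail
  have n3 := area_nonneg (L.tail.tail.tail : Multiset ℝ)
  have n2 := area_nonneg (L.tail.tail : Multiset ℝ)
  have n1 := area_nonneg (L.tail : Multiset ℝ)
  have hh : hr L ≤ ((102 : ℕ) : ℝ) := by
    by_contra hc
    push Not at hc
    push_cast at hc
    nlinarith
  have hTi : Ti r L := by
    refine ⟨hlt, ?_, ?_⟩
    · have := two_tight h1 h2 h3 (x := hr L / 120) (y := hr L.tail / 120) (by nlinarith)
      linarith
    · have hxy : hr L.tail / 120 ≤ hr L / 120 := by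
        have := hD.hd_tail
        linarith
      rcases three_tight h1 h2 h3 (z := hr L.tail.tail / 120) hxy (by nlinarith) with h | h
      · left; linarith
      · right; linarith
  have hne : (L : Multiset ℝ) ≠ 0 := by
    intro h0
    rw [h0, area_zero] at hA'
    have : 0 < r ^ 2 := by positivity
    linarith
  obtain ⟨m, M', hm, hmin⟩ := exists_min _ hne
  have hmL : m ∈ L := by
    rw [← Multiset.mem_coe, hm]; exact Multiset.mem_cons_self _ _
  have hml : ∀ b ∈ L, m ≤ b := by
    intro b hb
    rw [← Multiset.mem_coe, hm, Multiset.mem_cons] at hb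
    rcases hb with rfl | hb
    · exact le_rfl
    · exact hmin b hb
  have hm102 : m ≤ ((97 : ℕ) : ℝ) + 5 := by
    have h4 : area (L : Multiset ℝ) = m * m + area M' := by rw [hm, area_cons]
    have h5 := area_nonneg M'
    by_contra hc
    push Not at hc
    push_cast at hc
    nlinarith
  obtain ⟨y, hy, hc⟩ := exists_cls (hD.2 m hmL) hm102
  refine H L y hD (satLo_zero 18 L hD) (satHi_rep 18 L hD hh) hTi (Nat.zero_le _) hy ?_
    ⟨fun h => absurd h (by decide), fun h => absurd h (by decide)⟩
  intro a ha hle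
  have : a = m := le_antisymm (hle m hmL) (hml a ha)
  rw [this]; exact hc

end Pool.Agent.P.MP_eb61da_co.RX
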