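import Pool.Agent.P.MP_eb61da_co.RxT0
import Pool.Agent.P.MP_eb61da_co.RxT1
import Pool.Agent.P.MP_eb61da_co.RxT2
import Pool.Agent.P.MP_eb61da_co.RxT3
import Pool.Agent.P.MP_eb61da_co.RxT4
import Pool.Agent.P.MP_eb61da_co.RxT5
import Pool.Agent.P.MP_eb61da_co.RxT6
import Pool.Agent.P.MP_eb61da_co.RxT7

namespace Pool.Agent.P.MP_eb61da_co.RX

set_option maxRecDepth 100000

noncomputable def tb : Tb :=
(.n (nat_lit 11592) (.n (nat_lit 8089) (.n (nat_lit 5667) (.n (nat_lit 3995) (.n (nat_lit 2835) (.n (nat_lit 2058) (.n (nat_lit 1541) t0 t1) (.n (nat_lit 2451) t2 t3)) (.n (nat_lit 3475) (.n (nat_lit 3209) t4 t5) (.n (nat_lit 3737) t6 t7))) (.n (nat_lit 4897) (.n (nat_lit 4498) (.n (nat_lit 4248) t8 t9) (.n (nat_lit 4744) t10 t11)) (.n (nat_lit 5286) (.n (nat_lit 5136) t12 t13) (.n (nat_lit 5520) t14 t15)))) (.n (nat_lit 6955) (.n (nat_lit 6401) (.n (nat_lit 6038) (.n (nat_lit 5895) t16 t17) (.n (nat_lit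 6181) t18 t19)) (.n (nat_lit 6679) (.n (nat_lit 6541) t20 t21) (.n (nat_lit 6817) t22 t23))) (.n (nat_lit 7565) (.n (nat_lit 7300) (.n (nat_lit 7093) t24 t25) (.n (nat_lit 7433) t26 t27)) (.n (nat_lit 7827) (.n (nat_lit 7697) t28 t29) (.n (nat_lit 7960) t30 t31))))) (.n (nat_lit 10004) (.n (nat_lit 9105) (.n (nat_lit 8604) (.n (nat_lit 8346) (.n (nat_lit 8218) t32 t33) (.n (nat_lit 8475) t34 t35)) (.n (nat_lit 8859) (.n (nat_lit 8732) t36 t37) (.n (nat_lit 8982) t38 t39))) (.n (nat_lit 9533) (.n (nat_lit 9349) (.n (nat_lit 9228) t40 t41) (.n (nat_lit 9411) t42 t43)) (.n (nat_lit 9768) (.n (nat_lit 9651) t44 t45) (.n (nat_lit 9886) t46 t47)))) (.n (nat_lit 10815) (.n (nat_lit 10414) (.n (nat_lit 10184) (.n (nat_lit 10121) t48 t49) (.n (nat_lit 10300) t50 t51)) (.n (nat_lit 10641) (.n (nat_lit 10528) t52 t53) (.n (nat_lit 10704) t54 t55))) (.n (nat_lit 11207) (.n (nat_lit 11036) (.n (nat_lit 10926) t56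 t57) (.n (nat_lit 11145) t58 t59)) (.n (nat_lit 11422) (.n (nat_lit 11315) t60 t61) (.n (nat_lit 11529) t62 t63)))))) (.n (nat_lit 14302) (.n (nat_lit 13004) (.n (nat_lit 12331) (.n (nat_lit 11966) (.n (nat_lit 11800) (.n (nat_lit 11696) t64 t65) (.n (nat_lit 11863) t66 t67)) (.n (nat_lit 12168) (.n (nat_lit 12067) t68 t69) (.n (nat_lit 12231) t70 t71))) (.n (nat_lit 12686) (.n (nat_lit 12492) (.n (nat_lit 12429) t72 t73) (.n (nat_lit 12590) t74 t75)) (.n (nat_lit 12845) (.n (nat_lit 12748) t76 t77) (.n (nat_lit 12941) t78 t79)))) (.n (nat_lit 13658) (.n (nat_lit 13350) (.n (nat_lit 13195) (.n (nat_lit 13100) t80 t81) (.n (nat_lit 13258) t82 t83)) (.n (nat_lit 13504) (.n (nat_lit 13413) t84 t85) (.n (nat_lit 13595) t86 t87))) (.n (nat_lit 13996) (.n (nat_lit 13842) (.n (nat_lit 13751) t88 t89) (.n (nat_lit 13905) t90 t91)) (.n (nat_lit 14150) (.n (nat_lit 14088) t92 t93) (.n (nat_lit 14239) t94 t95)))))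 (.n (nat_lit 15574) (.n (nat_lit 14946) (.n (nat_lit 14641) (.n (nat_lit 14488) (.n (nat_lit 14394) t96 t97) (.n (nat_lit 14550) t98 t99)) (.n (nat_lit 14796) (.n (nat_lit 14733) t100 t101) (.n (nat_lit 14883) t102 t103))) (.n (nat_lit 15280) (.n (nat_lit 15123) (.n (nat_lit 15034) t104 t105) (.n (nat_lit 15185) t106 t107)) (.n (nat_lit 15437) (.n (nat_lit 15374) t108 t109) (.n (nat_lit 15511) t110 t111)))) (.n (nat_lit 16331) (.n (nat_lit 15937) (.n (nat_lit 15771) (.n (nat_lit 15669) t112 t113) (.n (nat_lit 15842) t114 t115)) (.n (nat_lit 16155) (.n (nat_lit 16047) t116 t117) (.n (nat_lit 16269) t118 t119))) (.n (nat_lit 16795) (.n (nat_lit 16547) (.n (nat_lit 16440) t120 t121) (.n (nat_lit 16667) t122 t123)) (.n (nat_lit 17179) (.n (nat_lit 16938) t124 t125) (.n (nat_lit 18344) t126 t127)))))))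

end Pool.Agent.P.MP_eb61da_co.RX
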